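import Pool.Agent.H210.Green.Defs

set_option autoImplicit false

namespace Pool.Agent.H210.Gr

open Metric Set MeasureTheory Topology Filter
open scoped Laplacian ContDiff
open MvPolynomial (X C pderiv)

namespace ALG

abbrev Po := MvPolynomial (Fin 2) ℂ

/-- the maximal ideal of a point -/
noncomputable abbrev mI (s : Fin 2 → ℂ) : Ideal Po := MvPolynomial.vanishingIdeal ℂ {s}

theorem mem_mI (s : Fin 2 → ℂ) (p : Po) : p ∈ mI s ↔ MvPolynomial.eval s p = 0 := by
  rw [MvPolynomial.mem_vanishingIdeal_singleton_iff]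
  rfl

theorem X_sub_mem (s : Fin 2 → ℂ) (i : Fin 2) : (X i - C (s i) : Po) ∈ mI s := by
  rw [mem_mI]; simp

/-- first order Taylor expansion -/
theorem taylor (s : Fin 2 → ℂ) (p : Po) :
    p - C (MvPolynomial.eval s p) - ∑ i : Fin 2, C (MvPolynomial.eval s (pderiv i p)) * (X i - C (s i))
      ∈ mI s * mI s := by
  induction p using MvPolynomial.induction_on with
  | C a => simp
  | add p q hp hq =>
    have h := Ideal.add_mem _ hp hq
    have e : (p + q) - C (MvPolynomial.eval s (p + q)) -
        ∑ i : Fin 2, C (MvPolynomial.eval s (pderiv i (p + q))) * (X i - C (s i)) =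
        (p - C (MvPolynomial.eval s p) -
          ∑ i : Fin 2, C (MvPolynomial.eval s (pderiv i p)) * (X i - C (s i))) +
        (q - C (MvPolynomial.eval s q) -
          ∑ i : Fin 2, C (MvPolynomial.eval s (pderiv i q)) * (X i - C (s i))) := by
      simp only [map_add, Fin.sum_univ_two]
      ring
    rw [e]; exact h
  | mul_X p j hp =>
    have h1 : (∑ i : Fin 2, C (MvPolynomial.eval s (pderiv i p)) * (X i - C (s i))) * (X j - C (s j))
        ∈ mI s * mI s := by
      apply Ideal.mul_mem_mul _ (X_sub_mem s j)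
      exact Ideal.sum_mem _ fun i _ => Ideal.mul_mem_left _ _ (X_sub_mem s i)
    have h2 := Ideal.mul_mem_right (X j) _ hp
    have h := Ideal.add_mem _ h1 h2
    have e : p * X j - C (MvPolynomial.eval s (p * X j)) -
        ∑ i : Fin 2, C (MvPolynomial.eval s (pderiv i (p * X j))) * (X i - C (s i)) =
        (∑ i : Fin 2, C (MvPolynomial.eval s (pderiv i p)) * (X i - C (s i))) * (X j - C (s j)) +
        (p - C (MvPolynomial.eval s p) -
          ∑ i : Fin 2, C (MvPolynomial.eval s (pderiv i p)) * (X i - C (s i))) * X j := by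
      have e1 : ∀ i : Fin 2, MvPolynomial.eval s (pderiv i (p * X j)) =
          MvPolynomial.eval s (pderiv i p) * s j +
            (if j = i then MvPolynomial.eval s p else 0) := by
        intro i
        rw [Derivation.leibniz]
        simp only [smul_eq_mul, map_add, map_mul, MvPolynomial.eval_X]
        by_cases hji : j = i
        · subst hji
          simp; ring
        · rw [MvPolynomial.pderiv_X_of_ne hji]
          simp [hji]; ring
      simp only [e1, Fin.sum_univ_two, map_mul, MvPolynomial.eval_X, map_add]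
      fin_cases j <;> simp <;> ring
    rw [e]; exact h

/-- the ideal at a point: local step -/
theorem mem_of_vanish (P Q : Po)
    (hnd : ∀ s : Fin 2 → ℂ, MvPolynomial.eval s P = 0 → MvPolynomial.eval s Q = 0 →
      MvPolynomial.eval s (pderiv 0 P) * MvPolynomial.eval s (pderiv 1 Q) -
      MvPolynomial.eval s (pderiv 1 P) * MvPolynomial.eval s (pderiv 0 Q) ≠ 0)
    (f : Po) (hf : ∀ s : Fin 2 → ℂ, MvPolynomial.eval s P = 0 → MvPolynomial.eval s Q = 0 →
      MvPolynomial.eval s f = 0) : f ∈ Ideal.span {P, Q} := by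
  set I : Ideal Po := Ideal.span {P, Q} with hI
  have hP : P ∈ I := Ideal.subset_span (by simp)
  have hQ : Q ∈ I := Ideal.subset_span (by simp)
  -- the ideal quotient
  by_contra hfI
  set J : Ideal Po := I.colon {f} with hJ
  have hJm : ∀ g, g ∈ J ↔ g * f ∈ I := by
    intro g
    rw [hJ]
    simp [Submodule.mem_colon_singleton]
  have hJne : J ≠ ⊤ := by
    intro h
    have h1 : (1 : Po) ∈ J := by rw [h]; trivial
    rw [hJm, one_mul] at h1
    exact hfI h1
  obtain ⟨M, hM, hJM⟩ := Ideal.exists_le_maximal J hJne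
  obtain ⟨s, hs⟩ := MvPolynomial.isMaximal_iff_eq_vanishingIdeal_singleton.1 hM
  subst hs
  have hIJ : I ≤ J := fun g hg => (hJm g).2 (Ideal.mul_mem_right _ _ hg)
  have hPs : MvPolynomial.eval s P = 0 := (mem_mI s P).1 (hJM (hIJ hP))
  have hQs : MvPolynomial.eval s Q = 0 := (mem_mI s Q).1 (hJM (hIJ hQ))
  have hd := hnd s hPs hQs
  have hfs := hf s hPs hQs
  have tP := taylor s P
  have tQ := taylor s Q
  rw [hPs] at tP
  rw [hQs] at tQ
  simp only [Fin.sum_univ_two, map_zero, sub_zero] at tP tQ
  set a := MvPolynomial.eval s (pderiv 0 P)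
  set b := MvPolynomial.eval s (pderiv 1 P)
  set c := MvPolynomial.eval s (pderiv 0 Q)
  set e := MvPolynomial.eval s (pderiv 1 Q)
  have hII : I ≤ I ⊔ mI s * mI s := le_sup_left
  have hmm : mI s * mI s ≤ I ⊔ mI s * mI s := le_sup_right
  have hu : (X 0 - C (s 0) : Po) ∈ I ⊔ mI s * mI s := by
    have h1 : C ((a * e - b * c)⁻¹) * (C e * P - C b * Q - (C e * (P - (C a * (X 0 - C (s 0)) +
        C b * (X 1 - C (s 1)))) - C b * (Q - (C c * (X 0 - C (s 0)) +
        C e * (X 1 - C (s 1)))))) ∈ I ⊔ mI s * mI s := by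
      apply Ideal.mul_mem_left
      apply Ideal.sub_mem
      · exact hII (Ideal.sub_mem _ (Ideal.mul_mem_left _ _ hP) (Ideal.mul_mem_left _ _ hQ))
      · exact hmm (Ideal.sub_mem _ (Ideal.mul_mem_left _ _ tP) (Ideal.mul_mem_left _ _ tQ))
    have h2 : (X 0 - C (s 0) : Po) = C ((a * e - b * c)⁻¹) * (C e * P - C b * Q - (C e * (P - (C a * (X 0 - C (s 0)) +
        C b * (X 1 - C (s 1)))) - C b * (Q - (C c * (X 0 - C (s 0)) +
        C e * (X 1 - C (s 1)))))) := by
      have h3 : (C ((a * e - b * c)⁻¹) : Po) * (C a * C e - C b * C c) = 1 := by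
        rw [← MvPolynomial.C_mul, ← MvPolynomial.C_mul, ← MvPolynomial.C_sub, ← MvPolynomial.C_mul, inv_mul_cancel₀ hd]; simp
      linear_combination (-(X 0 - C (s 0))) * h3
    rw [h2]; exact h1
  have hv : (X 1 - C (s 1) : Po) ∈ I ⊔ mI s * mI s := by
    have h1 : C ((a * e - b * c)⁻¹) * (C a * Q - C c * P - (C a * (Q - (C c * (X 0 - C (s 0)) +
        C e * (X 1 - C (s 1)))) - C c * (P - (C a * (X 0 - C (s 0)) +
        C b * (X 1 - C (s 1)))))) ∈ I ⊔ mI s * mI s := by
      apply Ideal.mul_mem_left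
      apply Ideal.sub_mem
      · exact hII (Ideal.sub_mem _ (Ideal.mul_mem_left _ _ hQ) (Ideal.mul_mem_left _ _ hP))
      · exact hmm (Ideal.sub_mem _ (Ideal.mul_mem_left _ _ tQ) (Ideal.mul_mem_left _ _ tP))
    have h2 : (X 1 - C (s 1) : Po) = C ((a * e - b * c)⁻¹) * (C a * Q - C c * P - (C a * (Q - (C c * (X 0 - C (s 0)) +
        C e * (X 1 - C (s 1)))) - C c * (P - (C a * (X 0 - C (s 0)) +
        C b * (X 1 - C (s 1)))))) := by
      have h3 : (C ((a * e - b * c)⁻¹) : Po) * (C a * C e - C b * C c) = 1 := by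
        rw [← MvPolynomial.C_mul, ← MvPolynomial.C_mul, ← MvPolynomial.C_sub, ← MvPolynomial.C_mul, inv_mul_cancel₀ hd]; simp
      linear_combination (-(X 1 - C (s 1))) * h3
    rw [h2]; exact h1
  have hle : mI s ≤ I ⊔ mI s • mI s := by
    intro p hp
    have tp := taylor s p
    rw [(mem_mI s p).1 hp] at tp
    simp only [Fin.sum_univ_two, map_zero, sub_zero] at tp
    have h1 := Ideal.add_mem _ (hmm tp) (Ideal.add_mem _
      (Ideal.mul_mem_left _ (C (MvPolynomial.eval s (pderiv 0 p))) hu)
      (Ideal.mul_mem_left _ (C (MvPolynomial.eval s (pderiv 1 p))) hv))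
    simpa using h1
  obtain ⟨r, hr, hrm⟩ := Submodule.exists_sub_one_mem_and_smul_le_of_fg_of_le_sup
    (IsNoetherian.noetherian (mI s)) le_rfl hle
  have hrf : r * f ∈ I := by
    apply hrm
    exact Submodule.smul_mem_pointwise_smul f r _ ((mem_mI s f).2 hfs)
  have h4 : r ∈ mI s := hJM ((hJm r).2 hrf)
  have h5 : (1 : Po) ∈ mI s := by
    have := Ideal.sub_mem _ h4 hr
    rwa [sub_sub_cancel] at this
  rw [mem_mI] at h5
  simp at h5

/-! degree lemmas -/

/-- all monomials have degree less than `k` -/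
def dlt (k : ℕ) (U : Po) : Prop := ∀ m, U.coeff m ≠ 0 → m.degree < k

theorem dlt_succ (k : ℕ) (U : Po) : dlt (k + 1) U ↔ U.totalDegree ≤ k := by
  unfold dlt MvPolynomial.totalDegree
  rw [Finset.sup_le_iff]
  constructor
  · intro h m hm
    have := h m (MvPolynomial.mem_support_iff.1 hm)
    have e : (m.sum fun _ e => e) = m.degree := rfl
    omega
  · intro h m hm
    have := h m (MvPolynomial.mem_support_iff.2 hm)
    have e : (m.sum fun _ e => e) = m.degree := rfl
    omega

theorem dlt_mono {j k : ℕ} (h : j ≤ k) {U : Po} (hU : dlt j U) : dlt k U :=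
  fun m hm => lt_of_lt_of_le (hU m hm) h

theorem dlt_add {k : ℕ} {U V : Po} (hU : dlt k U) (hV : dlt k V) : dlt k (U + V) := by
  intro m hm
  by_contra h
  apply hm
  rw [MvPolynomial.coeff_add]
  have h1 : U.coeff m = 0 := by by_contra h1; exact h (hU m h1)
  have h2 : V.coeff m = 0 := by by_contra h1; exact h (hV m h1)
  rw [h1, h2, add_zero]

theorem dlt_zero_iff {U : Po} (hU : dlt 0 U) : U = 0 := by
  ext m
  by_contra h
  exact absurd (hU m h) (by omega)

theorem dlt_mul {a b : ℕ} {U V : Po} (hU : dlt a U) (hV : V.totalDegree ≤ b) :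
    dlt (a + b) (U * V) := by
  classical
  intro m hm
  rw [MvPolynomial.coeff_mul] at hm
  obtain ⟨x, hx, hne⟩ := Finset.exists_ne_zero_of_sum_ne_zero hm
  have hx : x.1 + x.2 = m := Finset.HasAntidiagonal.mem_antidiagonal.1 hx
  have h1 := hU x.1 (left_ne_zero_of_mul hne)
  have h2 := (dlt_succ b V).2 hV x.2 (right_ne_zero_of_mul hne)
  rw [← hx, map_add]
  omega

theorem dlt_mul' {a b : ℕ} {U V : Po} (hU : U.totalDegree ≤ a) (hV : dlt b V) :
    dlt (a + b) (U * V) := by
  rw [mul_comm, add_comm]
  exact dlt_mul hV hU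

theorem comp_of_dlt {k n : ℕ} {U : Po} (hU : dlt k U) (h : k ≤ n) :
    MvPolynomial.homogeneousComponent n U = 0 := by
  apply MvPolynomial.homogeneousComponent_eq_zero'
  intro m hm
  have := hU m (MvPolynomial.mem_support_iff.1 hm)
  omega

theorem dlt_sub_comp {n : ℕ} {U : Po} (hU : U.totalDegree ≤ n) :
    dlt n (U - MvPolynomial.homogeneousComponent n U) := by
  intro m hm
  rw [MvPolynomial.coeff_sub, MvPolynomial.coeff_homogeneousComponent] at hm
  by_cases h : m.degree = n
  · simp [h] at hm
  · simp only [h, if_false, sub_zero] at hm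
    have := (dlt_succ n U).2 hU m hm
    omega

theorem td_comp (n : ℕ) (U : Po) : (MvPolynomial.homogeneousComponent n U).totalDegree ≤ n :=
  (MvPolynomial.homogeneousComponent_isHomogeneous n U).totalDegree_le

/-- the top component of a product -/
theorem comp_mul (U P : Po) (n d : ℕ) (hU : U.totalDegree ≤ n) (hP : P.totalDegree ≤ d) :
    MvPolynomial.homogeneousComponent (n + d) (U * P) =
      MvPolynomial.homogeneousComponent n U * MvPolynomial.homogeneousComponent d P := by
  have e : U * P = (U - MvPolynomial.homogeneousComponent n U) * P +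
      MvPolynomial.homogeneousComponent n U * (P - MvPolynomial.homogeneousComponent d P) +
      MvPolynomial.homogeneousComponent n U * MvPolynomial.homogeneousComponent d P := by ring
  rw [e, map_add, map_add, comp_of_dlt (dlt_mul (dlt_sub_comp hU) hP) le_rfl,
    comp_of_dlt (dlt_mul' (td_comp n U) (dlt_sub_comp hP)) le_rfl,
    MvPolynomial.homogeneousComponent_eq_self
      ((MvPolynomial.homogeneousComponent_isHomogeneous n U).mul
        (MvPolynomial.homogeneousComponent_isHomogeneous d P))]
  ring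

/-- coprimality from no common zeros -/
theorem coprime_of_no_zero (A B : Po) (h : ∀ w : Fin 2 → ℂ, w ≠ 0 → MvPolynomial.eval w A = 0 →
    MvPolynomial.eval w B = 0 → False) : IsRelPrime A B := by
  have hX : ∀ i : Fin 2, ∃ k : ℕ, (X i : Po) ^ k ∈ Ideal.span {A, B} := by
    intro i
    have h1 : (X i : Po) ∈ (Ideal.span {A, B}).radical := by
      rw [← MvPolynomial.vanishingIdeal_zeroLocus_eq_radical (K := ℂ)]
      intro w hw
      have hA : MvPolynomial.eval w A = 0 := hw A (Ideal.subset_span (by simp))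
      have hB : MvPolynomial.eval w B = 0 := hw B (Ideal.subset_span (by simp))
      have hw0 : w = 0 := by
        by_contra hne
        exact h w hne hA hB
      simp [hw0]
    exact h1
  intro g hgA hgB
  have hg : ∀ i : Fin 2, ∃ k : ℕ, g ∣ (X i : Po) ^ k := by
    intro i
    obtain ⟨k, hk⟩ := hX i
    refine ⟨k, ?_⟩
    obtain ⟨a, b, hab⟩ := Ideal.mem_span_pair.1 hk
    rw [← hab]
    exact dvd_add (Dvd.dvd.mul_left hgA _) (Dvd.dvd.mul_left hgB _)
  obtain ⟨k, hk⟩ := hg 0
  obtain ⟨l, hl⟩ := hg 1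
  have h01 : IsRelPrime ((X 0 : Po) ^ k) ((X 1 : Po) ^ l) := by
    apply IsRelPrime.pow
    rw [(MvPolynomial.X_prime (R := ℂ) (i := (0 : Fin 2))).irreducible.isRelPrime_iff_not_dvd,
      MvPolynomial.X_dvd_X]
    decide
  exact h01 hk hl

theorem dlt_pderiv (i : Fin 2) {k : ℕ} {U : Po} (hU : dlt (k + 1) U) : dlt k (pderiv i U) := by
  intro m hm
  rw [MvPolynomial.coeff_pderiv] at hm
  have := hU _ (left_ne_zero_of_mul hm)
  rw [map_add] at this
  simp only [Finsupp.degree_single] at this
  omega

theorem pderiv_comm' (i j : Fin 2) (p : Po) : pderiv i (pderiv j p) = pderiv j (pderiv i p) := by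
  ext m
  simp only [MvPolynomial.coeff_pderiv, Finsupp.add_apply]
  by_cases h : i = j
  · subst h; rfl
  · have e : m + Finsupp.single i 1 + Finsupp.single j 1 =
        m + Finsupp.single j 1 + Finsupp.single i 1 := by abel
    rw [e]
    simp only [Finsupp.single_apply, h, if_false, Ne.symm h]
    push_cast
    ring

/-- degree-controlled membership -/
theorem membership (P Q : Po) (d : ℕ) (hP : P.totalDegree ≤ d) (hQ : Q.totalDegree ≤ d)
    (hcop : IsRelPrime (MvPolynomial.homogeneousComponent d P)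
      (MvPolynomial.homogeneousComponent d Q))
    (hP0 : MvPolynomial.homogeneousComponent d P ≠ 0) :
    ∀ (n : ℕ) (U V : Po), U.totalDegree ≤ n → V.totalDegree ≤ n →
      (U * P + V * Q).totalDegree ≤ d → ∃ α β : ℂ, U * P + V * Q = C α * P + C β * Q := by
  intro n
  induction n with
  | zero =>
    intro U V hU hV _
    rw [Nat.le_zero, MvPolynomial.totalDegree_eq_zero_iff_eq_C] at hU hV
    exact ⟨MvPolynomial.coeff 0 U, MvPolynomial.coeff 0 V, by rw [← hU, ← hV]⟩
  | succ n ih =>
    intro U V hU hV hg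
    set Pd := MvPolynomial.homogeneousComponent d P with hPd
    set Qd := MvPolynomial.homogeneousComponent d Q with hQd
    set U1 := MvPolynomial.homogeneousComponent (n + 1) U with hU1
    set V1 := MvPolynomial.homogeneousComponent (n + 1) V with hV1
    have h0 : U1 * Pd + V1 * Qd = 0 := by
      rw [hU1, hV1, hPd, hQd, ← comp_mul U P (n + 1) d hU hP, ← comp_mul V Q (n + 1) d hV hQ,
        ← map_add]
      exact MvPolynomial.homogeneousComponent_eq_zero _ _ (by omega)
    have hdv : Pd ∣ V1 := by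
      apply hcop.dvd_of_dvd_mul_right
      exact ⟨-U1, by linear_combination h0⟩
    obtain ⟨W, hW⟩ := hdv
    have hU1' : U1 = -(W * Qd) := by
      apply mul_right_cancel₀ hP0
      rw [hW] at h0
      linear_combination h0
    have hWd : W = 0 ∨ W.totalDegree + d ≤ n + 1 := by
      by_cases hW0 : W = 0
      · exact Or.inl hW0
      · right
        have h1 : V1.totalDegree ≤ n + 1 := td_comp _ _
        rw [hW, MvPolynomial.totalDegree_mul_of_isDomain hP0 hW0,
          (MvPolynomial.homogeneousComponent_isHomogeneous d P).totalDegree hP0] at h1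
        omega
    have hWdlt : ∀ G : Po, G.totalDegree ≤ d →
        dlt (n + 1) (W * (G - MvPolynomial.homogeneousComponent d G)) := by
      intro G hG
      rcases hWd with hW0 | hWd
      · rw [hW0, zero_mul]; intro m hm; simp at hm
      · exact dlt_mono hWd (dlt_mul' le_rfl (dlt_sub_comp hG))
    have hU' : (U + W * Q).totalDegree ≤ n := by
      rw [← dlt_succ]
      have e : U + W * Q = (U - U1) + W * (Q - Qd) := by rw [hU1']; ring
      rw [e]
      exact dlt_add (dlt_sub_comp hU) (hWdlt Q hQ)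
    have hV' : (V + (-W) * P).totalDegree ≤ n := by
      rw [← dlt_succ]
      have e : V + (-W) * P = (V - V1) + (-1 : ℂ) • (W * (P - Pd)) := by
        rw [hW, neg_smul, one_smul]; ring
      rw [e]
      apply dlt_add (dlt_sub_comp hV)
      intro m hm
      apply hWdlt P hP m
      intro h
      apply hm
      rw [MvPolynomial.coeff_smul, h, smul_zero]
    have e : (U + W * Q) * P + (V + (-W) * P) * Q = U * P + V * Q := by ring
    rw [← e]
    apply ih _ _ hU' hV'
    rw [e]; exact hg

/-- the degree of a coefficient multiple -/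
theorem td_C_mul (a : ℂ) (i : Fin 2) : (C a * X i : Po).totalDegree ≤ 1 := by
  refine (MvPolynomial.totalDegree_mul _ _).trans ?_
  rw [MvPolynomial.totalDegree_C, MvPolynomial.totalDegree_X]

theorem main (d : ℕ) (hd : 2 ≤ d) (P Q : Po) (hP : P.totalDegree ≤ d) (hQ : Q.totalDegree ≤ d)
    (hcop : IsRelPrime (MvPolynomial.homogeneousComponent d P)
      (MvPolynomial.homogeneousComponent d Q))
    (hP0 : MvPolynomial.homogeneousComponent d P ≠ 0)
    (hF : ∀ s : Fin 2 → ℂ, MvPolynomial.eval s P = 0 → MvPolynomial.eval s Q = 0 →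
      MvPolynomial.eval s (pderiv 0 P) + MvPolynomial.eval s (pderiv 1 Q) ≠ 0 ∧
      MvPolynomial.eval s (pderiv 0 P) * MvPolynomial.eval s (pderiv 1 Q) -
      MvPolynomial.eval s (pderiv 1 P) * MvPolynomial.eval s (pderiv 0 Q) ≠ 0)
    (R : Po) (hdeg : R.totalDegree ≤ d + 1)
    (htop : MvPolynomial.homogeneousComponent (d + 1) R =
      X 0 * MvPolynomial.homogeneousComponent d Q - X 1 * MvPolynomial.homogeneousComponent d P)
    (hR : P * pderiv 0 R + Q * pderiv 1 R = (pderiv 0 P + pderiv 1 Q) * R) : False := by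
  set Pd := MvPolynomial.homogeneousComponent d P with hPd
  set Qd := MvPolynomial.homogeneousComponent d Q with hQd
  have hPtd : Pd.totalDegree = d :=
    (MvPolynomial.homogeneousComponent_isHomogeneous d P).totalDegree hP0
  -- membership in the ideal gives constant coefficients
  have hmem : ∀ g ∈ Ideal.span {P, Q}, g.totalDegree ≤ d → ∃ α β : ℂ, g = C α * P + C β * Q := by
    intro g hg hgd
    obtain ⟨U, V, hUV⟩ := Ideal.mem_span_pair.1 hg
    have := membership P Q d hP hQ hcop hP0 (max U.totalDegree V.totalDegree) U V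
      (le_max_left _ _) (le_max_right _ _) (by rw [hUV]; exact hgd)
    rw [hUV] at this
    exact this
  -- a relation Pd * L = Qd * M with L, M linear forces all to vanish
  have hlin : ∀ a b c e : ℂ, Pd * (C a * X 0 + C b * X 1) = Qd * (C c * X 0 + C e * X 1) →
      a = 0 ∧ b = 0 ∧ c = 0 ∧ e = 0 := by
    intro a b c e h
    have hz : ∀ a b : ℂ, (C a * X 0 + C b * X 1 : Po) = 0 → a = 0 ∧ b = 0 := by
      intro a b h
      constructor
      · have := congrArg (MvPolynomial.eval ![1, 0]) h
        simpa using this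
      · have := congrArg (MvPolynomial.eval ![0, 1]) h
        simpa using this
    have h1 : (C c * X 0 + C e * X 1 : Po) = 0 := by
      by_contra hne
      have hdv : Pd ∣ (C c * X 0 + C e * X 1 : Po) := by
        apply hcop.dvd_of_dvd_mul_left
        exact ⟨_, h.symm⟩
      have h2 := MvPolynomial.totalDegree_le_of_dvd_of_isDomain hdv hne
      have h3 : (C c * X 0 + C e * X 1 : Po).totalDegree ≤ 1 :=
        (MvPolynomial.totalDegree_add _ _).trans (max_le (td_C_mul _ _) (td_C_mul _ _))
      omega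
    rw [h1, mul_zero] at h
    have h2 := (mul_eq_zero.1 h).resolve_left hP0
    obtain ⟨h3, h4⟩ := hz _ _ h2
    obtain ⟨h5, h6⟩ := hz _ _ h1
    exact ⟨h3, h4, h5, h6⟩
  -- a common zero
  have hzero : ∃ s : Fin 2 → ℂ, MvPolynomial.eval s P = 0 ∧ MvPolynomial.eval s Q = 0 := by
    by_contra hno
    push Not at hno
    have h1 : (1 : Po) ∈ Ideal.span {P, Q} := by
      apply mem_of_vanish P Q
      · intro s h1 h2; exact absurd h2 (hno s h1)
      · intro s h1 h2; exact absurd h2 (hno s h1)
    obtain ⟨α, β, h2⟩ := hmem 1 h1 (by rw [MvPolynomial.totalDegree_one]; omega)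
    have h3 := congrArg (MvPolynomial.homogeneousComponent d) h2
    rw [map_add, MvPolynomial.homogeneousComponent_C_mul, MvPolynomial.homogeneousComponent_C_mul,
      MvPolynomial.homogeneousComponent_eq_zero _ _
        (by rw [MvPolynomial.totalDegree_one]; omega)] at h3
    obtain ⟨h4, _, h5, _⟩ := hlin α 0 (-β) 0 (by
      simp only [map_zero, zero_mul, add_zero, map_neg]
      linear_combination (-(X 0 : Po)) * h3)
    have h6 : β = 0 := by simpa using h5
    rw [h4, h6] at h2
    simp at h2
  -- the gradient of R lies in the ideal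
  have hgrad : ∀ s : Fin 2 → ℂ, MvPolynomial.eval s P = 0 → MvPolynomial.eval s Q = 0 →
      MvPolynomial.eval s (pderiv 0 R) = 0 ∧ MvPolynomial.eval s (pderiv 1 R) = 0 := by
    intro s hs1 hs2
    obtain ⟨htr, hdet⟩ := hF s hs1 hs2
    have hR0 : MvPolynomial.eval s R = 0 := by
      have := congrArg (MvPolynomial.eval s) hR
      simp only [map_add, map_mul, hs1, hs2, zero_mul, add_zero] at this
      exact (mul_eq_zero.1 this.symm).resolve_left htr
    have hx := congrArg (fun p => MvPolynomial.eval s (pderiv 0 p)) hR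
    have hy := congrArg (fun p => MvPolynomial.eval s (pderiv 1 p)) hR
    simp only [map_add, MvPolynomial.pderiv_mul, map_mul, hs1, hs2, hR0, zero_mul, mul_zero,
      add_zero, zero_add] at hx hy
    set a := MvPolynomial.eval s (pderiv 0 P)
    set b := MvPolynomial.eval s (pderiv 1 P)
    set c := MvPolynomial.eval s (pderiv 0 Q)
    set e := MvPolynomial.eval s (pderiv 1 Q)
    set r := MvPolynomial.eval s (pderiv 0 R)
    set t := MvPolynomial.eval s (pderiv 1 R)
    constructor
    · apply (mul_eq_zero.1 (show (a * e - b * c) * r = 0 by linear_combination (-a) * hx - c * hy)).resolve_left hdet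
    · apply (mul_eq_zero.1 (show (a * e - b * c) * t = 0 by linear_combination (-b) * hx - e * hy)).resolve_left hdet
  have hRd : ∀ i : Fin 2, (pderiv i R).totalDegree ≤ d := by
    intro i
    rw [← dlt_succ]
    exact dlt_pderiv i ((dlt_succ _ _).2 hdeg)
  obtain ⟨α₀, β₀, h0⟩ := hmem (pderiv 0 R)
    (mem_of_vanish P Q (fun s h1 h2 => (hF s h1 h2).2) _ fun s h1 h2 => (hgrad s h1 h2).1) (hRd 0)
  obtain ⟨α₁, β₁, h1⟩ := hmem (pderiv 1 R)
    (mem_of_vanish P Q (fun s h1 h2 => (hF s h1 h2).2) _ fun s h1 h2 => (hgrad s h1 h2).2) (hRd 1)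
  -- top parts
  set T := MvPolynomial.homogeneousComponent (d + 1) R with hT
  have hTh : T.IsHomogeneous (d + 1) := MvPolynomial.homogeneousComponent_isHomogeneous _ _
  have htopd : ∀ i : Fin 2, MvPolynomial.homogeneousComponent d (pderiv i R) = pderiv i T := by
    intro i
    have e : pderiv i R = pderiv i (R - T) + pderiv i T := by rw [← map_add, sub_add_cancel]
    rw [e, map_add, comp_of_dlt (dlt_pderiv i (dlt_sub_comp hdeg)) le_rfl, zero_add]
    exact MvPolynomial.homogeneousComponent_eq_self hTh.pderiv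
  have hT0 : pderiv 0 T = C α₀ * Pd + C β₀ * Qd := by
    rw [← htopd, h0, map_add, MvPolynomial.homogeneousComponent_C_mul,
      MvPolynomial.homogeneousComponent_C_mul]
  have hT1 : pderiv 1 T = C α₁ * Pd + C β₁ * Qd := by
    rw [← htopd, h1, map_add, MvPolynomial.homogeneousComponent_C_mul,
      MvPolynomial.homogeneousComponent_C_mul]
  have hEul := hTh.sum_X_mul_pderiv
  rw [Fin.sum_univ_two, hT0, hT1, htop] at hEul
  have hkey := hlin α₀ (α₁ + (d + 1)) ((d + 1) - β₀) (-β₁) (by
    simp only [nsmul_eq_mul] at hEul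
    push_cast at hEul
    simp only [map_add, map_sub, map_neg, map_one, map_natCast]
    linear_combination hEul)
  obtain ⟨e1, e2, e3, e4⟩ := hkey
  have e5 : β₀ = d + 1 := by linear_combination -e3
  have e6 : α₁ = -(d + 1) := by linear_combination e2
  have e7 : β₁ = 0 := by linear_combination -e4
  rw [e1, e5] at h0
  rw [e6, e7] at h1
  simp only [map_zero, zero_mul, zero_add, add_zero] at h0 h1
  have hmix := pderiv_comm' 1 0 R
  rw [h0, h1, MvPolynomial.pderiv_C_mul, MvPolynomial.pderiv_C_mul] at hmix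
  obtain ⟨s, hs1, hs2⟩ := hzero
  have h9 := congrArg (MvPolynomial.eval s) hmix
  simp only [map_mul, MvPolynomial.eval_C] at h9
  have hd1 : ((d : ℂ) + 1) ≠ 0 := by exact_mod_cast Nat.succ_ne_zero d
  apply (hF s hs1 hs2).1
  have h10 : ((d : ℂ) + 1) * (MvPolynomial.eval s (pderiv 0 P) + MvPolynomial.eval s (pderiv 1 Q)) = 0 := by
    linear_combination h9
  exact (mul_eq_zero.1 h10).resolve_left hd1

theorem comp_P (F : Fol) : MvPolynomial.homogeneousComponent F.d F.P = F.Pc F.d := by
  unfold Fol.P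
  rw [map_sum, Finset.sum_eq_single F.d]
  · exact MvPolynomial.homogeneousComponent_eq_self (F.hP _)
  · intro i _ hi
    rw [MvPolynomial.homogeneousComponent_of_mem (F.hP i), if_neg (Ne.symm hi)]
  · intro h; simp at h

theorem comp_Q (F : Fol) : MvPolynomial.homogeneousComponent F.d F.Q = F.Qc F.d := by
  unfold Fol.Q
  rw [map_sum, Finset.sum_eq_single F.d]
  · exact MvPolynomial.homogeneousComponent_eq_self (F.hQ _)
  · intro i _ hi
    rw [MvPolynomial.homogeneousComponent_of_mem (F.hQ i), if_neg (Ne.symm hi)]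
  · intro h; simp at h

theorem td_P (F : Fol) : F.P.totalDegree ≤ F.d := by
  unfold Fol.P
  apply MvPolynomial.totalDegree_finsetSum_le
  intro i hi
  have := (F.hP i).totalDegree_le
  rw [Finset.mem_range] at hi
  omega

theorem td_Q (F : Fol) : F.Q.totalDegree ≤ F.d := by
  unfold Fol.Q
  apply MvPolynomial.totalDegree_finsetSum_le
  intro i hi
  have := (F.hQ i).totalDegree_le
  rw [Finset.mem_range] at hi
  omega

end ALG

theorem no_int_factor (F : Fol) (hI : F.HypInf) (hF : F.HypFin) (hG : F.Good)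
    (R : MvPolynomial (Fin 2) ℂ) (hdeg : R.totalDegree ≤ F.d + 1)
    (htop : MvPolynomial.homogeneousComponent (F.d + 1) R = X 0 * F.Qc F.d - X 1 * F.Pc F.d)
    (hR : F.P * pderiv 0 R + F.Q * pderiv 1 R = (pderiv 0 F.P + pderiv 1 F.Q) * R) : False := by
  refine ALG.main F.d F.hd F.P F.Q (ALG.td_P F) (ALG.td_Q F) ?_ ?_ hF R hdeg ?_ hR
  · rw [ALG.comp_P, ALG.comp_Q]
    apply ALG.coprime_of_no_zero
    intro w hw h1 h2
    have := hI w 0 hw (by rw [h1, zero_mul]) (by rw [h2, zero_mul])
    simp at this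
  · rw [ALG.comp_P]
    intro h
    apply hG
    rw [h, map_zero]
  · rw [ALG.comp_P, ALG.comp_Q]
    exact htop

end Pool.Agent.H210.Gr
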