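import Mathlib

/-!
Common definitions for the proof of S05669 (Green functions on leaves of foliations of the
projective plane with an invariant line at infinity).
-/

set_option autoImplicit false

namespace Pool.Agent.H210.Gr

open Metric Set MeasureTheory Topology Filter
open scoped Laplacian ContDiff

/-! ## Abstract translation surfaces -/

/-- A set `L` with a local free action of complex time: `flow q t` is defined for `‖t‖ < rad q`. -/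
structure TSurf (E : Type) where
  L : Set E
  rad : E → ℝ
  flow : E → ℂ → E
  rad_pos : ∀ q ∈ L, 0 < rad q
  rad_le : ∀ q ∈ L, rad q ≤ 1
  flow_zero : ∀ q ∈ L, flow q 0 = q
  flow_mem : ∀ q ∈ L, ∀ t : ℂ, ‖t‖ < rad q → flow q t ∈ L
  flow_inj : ∀ q ∈ L, InjOn (flow q) (ball 0 (rad q))
  rad_flow : ∀ q ∈ L, ∀ t : ℂ, ‖t‖ < rad q → rad q - ‖t‖ ≤ rad (flow q t)
  flow_add : ∀ q ∈ L, ∀ t s : ℂ, ‖t‖ + ‖s‖ < rad q → flow (flow q t) s = flow q (t + s)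
  conn : ∀ p ∈ L, ∀ q ∈ L,
    Relation.ReflTransGen (fun x y => ∃ t : ℂ, ‖t‖ < rad x ∧ y = flow x t) p q

/-- `γ` is, near every point of `ball c R`, a flow curve in a holomorphic time. -/
def TSurf.Loc {E : Type} (S : TSurf E) (γ : ℂ → E) (c : ℂ) (R : ℝ) : Prop :=
  ∀ x ∈ ball c R, γ x ∈ S.L ∧ ∃ ε > 0, ball x ε ⊆ ball c R ∧ ∃ τ : ℂ → ℂ,
    DifferentiableOn ℂ τ (ball x ε) ∧ τ x = 0 ∧
      ∀ x' ∈ ball x ε, ‖τ x'‖ < S.rad (γ x) ∧ γ x' = S.flow (γ x) (τ x')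

/-- conformal embedded discs -/
def TSurf.Conf {E : Type} (S : TSurf E) (γ : ℂ → E) (c : ℂ) (R : ℝ) : Prop :=
  InjOn γ (ball c R) ∧ S.Loc γ c R

/-- test functions: `C¹` along the surface, with compact support -/
def TSurf.Test {E : Type} (S : TSurf E) (f : E → ℝ) : Prop :=
  (∀ q ∈ S.L, ContDiffOn ℝ 1 (fun t => f (S.flow q t)) (ball 0 (S.rad q))) ∧
  ∃ F : Finset E, (∀ q ∈ F, q ∈ S.L) ∧ ∀ p ∈ S.L, f p ≠ 0 →
    ∃ q ∈ F, ∃ t : ℂ, ‖t‖ ≤ S.rad q / 2 ∧ p = S.flow q t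

/-- `B` bounds the Dirichlet integrals of `f` over all finite disjoint families of conformal
discs -/
def TSurf.EBound {E : Type} (S : TSurf E) (f : E → ℝ) (B : ℝ) : Prop :=
  ∀ (ι : Type) [Fintype ι] (γ : ι → ℂ → E) (c : ι → ℂ) (R r : ι → ℝ),
    (∀ i, S.Conf (γ i) (c i) (R i) ∧ 0 < r i ∧ r i < R i) →
    (∀ i j, i ≠ j → Disjoint (γ i '' ball (c i) (r i)) (γ j '' ball (c j) (r j))) →
    ∑ i, ∫ x in ball (c i) (r i), ‖fderiv ℝ (fun x => f (γ i x)) x‖ ^ 2 ≤ B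

/-- `v` touches `w` from below at `x` and is `C²` with nonnegative Laplacian there -/
def TouchBelow (w : ℂ → ℝ) (x : ℂ) : Prop :=
  ∃ v : ℂ → ℝ, ContDiffAt ℝ 2 v x ∧ 0 ≤ Δ v x ∧ v x = w x ∧ ∀ᶠ t in 𝓝 x, v t ≤ w t

/-- bounded, nonconstant, continuous and subharmonic (in the sense of touching functions) -/
def TSurf.GoodFun {E : Type} (S : TSurf E) (u : E → ℝ) : Prop :=
  (∃ M : ℝ, ∀ q ∈ S.L, |u q| ≤ M) ∧ (∃ p ∈ S.L, ∃ q ∈ S.L, u p ≠ u q) ∧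
  ∀ q ∈ S.L, ContinuousOn (fun t => u (S.flow q t)) (ball 0 (S.rad q)) ∧
    TouchBelow (fun t => u (S.flow q t)) 0

/-! ## Leaves of vector fields on `ℂ × ℂ` -/

/-- `S` is a leaf of the vector field `v` -/
structure IsLeaf (v : ℂ × ℂ → ℂ × ℂ) (S : TSurf (ℂ × ℂ)) : Prop where
  nonempty : S.L.Nonempty
  nonsing : ∀ q ∈ S.L, v q ≠ 0
  hasDeriv : ∀ q ∈ S.L, ∀ t ∈ ball (0 : ℂ) (S.rad q), HasDerivAt (S.flow q) (v (S.flow q t)) t
  sat : ∀ (c : ℂ) (R : ℝ) (ψ : ℂ → ℂ × ℂ) (β : ℂ → ℂ), DifferentiableOn ℂ β (ball c R) →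
    (∀ x ∈ ball c R, HasDerivAt ψ (β x • v (ψ x)) x) → (∃ x ∈ ball c R, ψ x ∈ S.L) →
    S.Loc ψ c R

/-- no nonzero polynomial vanishes on the leaf -/
def NotAlg (S : TSurf (ℂ × ℂ)) : Prop :=
  ∀ p : MvPolynomial (Fin 2) ℂ, p ≠ 0 → ∃ z ∈ S.L, MvPolynomial.eval ![z.1, z.2] p ≠ 0

/-! ## Polynomial foliations, through the homogeneous components of the vector field -/

structure Fol where
  d : ℕ
  hd : 2 ≤ d
  Pc : ℕ → MvPolynomial (Fin 2) ℂ
  Qc : ℕ → MvPolynomial (Fin 2) ℂ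
  hP : ∀ i, (Pc i).IsHomogeneous i
  hQ : ∀ i, (Qc i).IsHomogeneous i

noncomputable def Fol.P (F : Fol) : MvPolynomial (Fin 2) ℂ := ∑ i ∈ Finset.range (F.d + 1), F.Pc i
noncomputable def Fol.Q (F : Fol) : MvPolynomial (Fin 2) ℂ := ∑ i ∈ Finset.range (F.d + 1), F.Qc i

/-- the vector field -/
noncomputable def Fol.v (F : Fol) (z : ℂ × ℂ) : ℂ × ℂ :=
  (MvPolynomial.eval ![z.1, z.2] F.P, MvPolynomial.eval ![z.1, z.2] F.Q)

/-- hyperbolicity of the singular points at infinity -/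
def Fol.HypInf (F : Fol) : Prop :=
  ∀ (w : Fin 2 → ℂ) (μ : ℂ), w ≠ 0 → MvPolynomial.eval w (F.Pc F.d) = μ * w 0 →
    MvPolynomial.eval w (F.Qc F.d) = μ * w 1 →
    (μ / (MvPolynomial.eval w (MvPolynomial.pderiv 0 (F.Pc F.d)) +
      MvPolynomial.eval w (MvPolynomial.pderiv 1 (F.Qc F.d)) - (F.d + 1) * μ)).im ≠ 0

/-- nondegeneracy of the finite singular points (all that is needed there) -/
def Fol.HypFin (F : Fol) : Prop :=
  ∀ s : Fin 2 → ℂ, MvPolynomial.eval s F.P = 0 → MvPolynomial.eval s F.Q = 0 →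
    MvPolynomial.eval s (MvPolynomial.pderiv 0 F.P) +
      MvPolynomial.eval s (MvPolynomial.pderiv 1 F.Q) ≠ 0 ∧
    MvPolynomial.eval s (MvPolynomial.pderiv 0 F.P) * MvPolynomial.eval s (MvPolynomial.pderiv 1 F.Q) -
      MvPolynomial.eval s (MvPolynomial.pderiv 1 F.P) * MvPolynomial.eval s (MvPolynomial.pderiv 0 F.Q) ≠ 0

/-- the point `(0 : 0 : 1)` at infinity is not singular -/
def Fol.Good (F : Fol) : Prop := MvPolynomial.eval ![0, 1] (F.Pc F.d) ≠ 0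

/-! ## Data near the line at infinity, chart `z = (1 / y, x / y)` -/

/-- the foliation near infinity is `dy/dx = y b(x,y) / a(x,y)`,
`a = ∑ a i (x) y ^ i`, `b = ∑ b i (x) y ^ i` -/
structure InfD where
  d : ℕ
  hd : 2 ≤ d
  a : ℕ → Polynomial ℂ
  b : ℕ → Polynomial ℂ
  ha : ∀ i ≤ d, (a i).natDegree ≤ d + 1 - i
  hb : ∀ i ≤ d, (b i).natDegree ≤ d - i
  ha0 : ∀ i, d < i → a i = 0
  hb0 : ∀ i, d < i → b i = 0
  hlead : (a 0).coeff (d + 1) = (b 0).coeff d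
  hlead0 : (b 0).coeff d ≠ 0
  hyp : ∀ x : ℂ, (a 0).eval x = 0 →
    ((b 0).eval x / (Polynomial.derivative (a 0)).eval x).im ≠ 0

/-- the function `a(x,y)` -/
noncomputable def InfD.aF (D : InfD) (x y : ℂ) : ℂ :=
  ∑ i ∈ Finset.range (D.d + 1), (D.a i).eval x * y ^ i
/-- the function `b(x,y)` -/
noncomputable def InfD.bF (D : InfD) (x y : ℂ) : ℂ :=
  ∑ i ∈ Finset.range (D.d + 1), (D.b i).eval x * y ^ i
/-- the top form, `A = a(x,0)` -/
noncomputable def InfD.A (D : InfD) : Polynomial ℂ := D.a 0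
/-- `β = b(x,0)` -/
noncomputable def InfD.β (D : InfD) : Polynomial ℂ := D.b 0

/-- the vector field `v` is the one given by `D` in the chart at infinity -/
def InfD.Chart (D : InfD) (v : ℂ × ℂ → ℂ × ℂ) : Prop :=
  ∀ x y : ℂ, y ≠ 0 → v (1 / y, x / y) = (-(D.bF x y) / y ^ D.d, (D.aF x y - x * D.bF x y) / y ^ D.d)

/-- `η` is a nowhere zero solution of `dy/dx = y b / a` on the ball, with `a ≠ 0` -/
def InfD.Sol (D : InfD) (η : ℂ → ℂ) (c : ℂ) (R : ℝ) : Prop :=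
  ∀ x ∈ ball c R, η x ≠ 0 ∧ D.aF x (η x) ≠ 0 ∧
    HasDerivAt η (η x * D.bF x (η x) / D.aF x (η x)) x

/-- the point of `ℂ × ℂ` with coordinates `(x, y)` in the chart at infinity -/
noncomputable def pt (x y : ℂ) : ℂ × ℂ := (1 / y, x / y)

/-- coefficient of `y ^ m` in `a S_x + y b S_y - (a_x + y b_y) S`, `S = ∑ ρ j y ^ j` -/
noncomputable def InfD.ord (D : InfD) (ρ : ℕ → Polynomial ℂ) (m : ℕ) : Polynomial ℂ :=
  ∑ p ∈ Finset.HasAntidiagonal.antidiagonal m,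
    (D.a p.1 * Polynomial.derivative (ρ p.2) - Polynomial.derivative (D.a p.1) * ρ p.2 +
      Polynomial.C ((p.2 : ℂ) - (p.1 : ℂ)) * (D.b p.1 * ρ p.2))

/-- the right-hand side `G_k` of the equation `A ρ_k' + (k β - A') ρ_k = G_k` -/
noncomputable def InfD.G (D : InfD) (ρ : ℕ → Polynomial ℂ) (k : ℕ) : Polynomial ℂ :=
  -(D.ord (fun j => if j < k then ρ j else 0) k)

/-- the first obstruction occurs at order `k` -/
structure InfD.Obs (D : InfD) (ρ : ℕ → Polynomial ℂ) (k : ℕ) : Prop where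
  hk : 1 ≤ k
  h0 : ρ 0 = D.A
  hord : ∀ m < k, D.ord ρ m = 0
  hobs : ∀ r : Polynomial ℂ, D.A * Polynomial.derivative r +
    (Polynomial.C (k : ℂ) * D.β - Polynomial.derivative D.A) * r ≠ D.G ρ k

end Pool.Agent.H210.Gr
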