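import Mathlib
import Pool.Agent.H210.Green.Defs

/-!
# T-BDD: leaves which are separatrices near infinity carry a bounded polynomial
-/

set_option autoImplicit false

namespace Pool.Agent.H210.Gr

open Metric Set MeasureTheory Topology Filter
open scoped Laplacian ContDiff

namespace BDD

/-- Taylor expansion with holomorphic remainder. -/
theorem taylor (f : ℂ → ℂ) (ε : ℝ) (hε : 0 < ε) (hf : DifferentiableOn ℂ f (ball 0 ε)) (m : ℕ) :
    ∃ (c : ℕ → ℂ) (h : ℂ → ℂ), DifferentiableOn ℂ h (ball 0 ε) ∧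
      ∀ y, f y = ∑ k ∈ Finset.range m, c k * y ^ k + y ^ m * h y := by
  induction m with
  | zero => exact ⟨0, f, hf, fun y => by simp⟩
  | succ m ih =>
    obtain ⟨c, h, hh, hfh⟩ := ih
    refine ⟨fun k => if k = m then h 0 else c k, dslope h 0,
      (Complex.differentiableOn_dslope (ball_mem_nhds _ hε)).mpr hh, fun y => ?_⟩
    have h1 := sub_smul_dslope h 0 y
    rw [sub_zero, smul_eq_mul] at h1
    rw [Finset.sum_range_succ, hfh y]
    have h2 : ∑ k ∈ Finset.range m, (if k = m then h 0 else c k) * y ^ k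
        = ∑ k ∈ Finset.range m, c k * y ^ k := by
      refine Finset.sum_congr rfl fun k hk => ?_
      rw [if_neg (Finset.mem_range.mp hk).ne]
    simp only [if_true]
    rw [h2]
    have h3 : h y = h 0 + y * dslope h 0 y := by rw [h1]; ring
    rw [pow_succ]
    linear_combination y ^ m * h3

/-- The polynomial with coefficients `q`. -/
noncomputable def poly (D : ℕ) (q : Fin (D + 1) × Fin (D + 1) → ℂ) : MvPolynomial (Fin 2) ℂ :=
  ∑ p : Fin (D + 1) × Fin (D + 1),
    MvPolynomial.monomial (Finsupp.single 0 (p.1 : ℕ) + Finsupp.single 1 (p.2 : ℕ)) (q p)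

theorem eval_poly (D : ℕ) (q : Fin (D + 1) × Fin (D + 1) → ℂ) (z : ℂ × ℂ) :
    MvPolynomial.eval ![z.1, z.2] (poly D q)
      = ∑ p : Fin (D + 1) × Fin (D + 1), q p * (z.1 ^ (p.1 : ℕ) * z.2 ^ (p.2 : ℕ)) := by
  rw [poly, map_sum]
  refine Finset.sum_congr rfl fun p _ => ?_
  rw [MvPolynomial.eval_monomial, Finsupp.prod_add_index' (by simp) (by intros; rw [pow_add])]
  simp

theorem single_inj {a b c d : ℕ}
    (h : (Finsupp.single 0 a + Finsupp.single 1 b : Fin 2 →₀ ℕ)
      = Finsupp.single 0 c + Finsupp.single 1 d) : a = c ∧ b = d := by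
  have h0 := DFunLike.congr_fun h 0
  have h1 := DFunLike.congr_fun h 1
  simp at h0 h1
  exact ⟨h0, h1⟩

theorem coeff_poly (D : ℕ) (q : Fin (D + 1) × Fin (D + 1) → ℂ) (p : Fin (D + 1) × Fin (D + 1)) :
    MvPolynomial.coeff (Finsupp.single 0 (p.1 : ℕ) + Finsupp.single 1 (p.2 : ℕ)) (poly D q)
      = q p := by
  rw [poly, MvPolynomial.coeff_sum]
  rw [Finset.sum_eq_single p]
  · rw [MvPolynomial.coeff_monomial, if_pos rfl]
  · intro p' _ hp'
    rw [MvPolynomial.coeff_monomial, if_neg]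
    intro h
    obtain ⟨h1, h2⟩ := single_inj h
    exact hp' (Prod.ext (Fin.ext h1) (Fin.ext h2))
  · intro h
    exact absurd (Finset.mem_univ _) h

/-- existence of the coefficients. -/
theorem exists_coeff (N : ℕ) (c : Fin N → (Fin (2 * N + 2) × Fin (2 * N + 2)) → ℕ → ℂ) :
    ∃ q : Fin (2 * N + 2) × Fin (2 * N + 2) → ℂ, q ≠ 0 ∧ q (0, 0) = 0 ∧
      ∀ j : Fin N, ∀ k < 2 * (2 * N + 1), ∑ p, q p * c j p k = 0 := by
  let Φ : (Fin (2 * N + 2) × Fin (2 * N + 2) → ℂ) →ₗ[ℂ]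
      ((Fin N × Fin (2 * (2 * N + 1)) → ℂ) × ℂ) :=
    { toFun := fun q => (fun jk => ∑ p, q p * c jk.1 p jk.2, q (0, 0))
      map_add' := by
        intro q q'
        ext jk
        · simp [add_mul, Finset.sum_add_distrib]
        · simp
      map_smul' := by
        intro r q
        ext jk
        · simp [mul_assoc, Finset.mul_sum]
        · simp }
  have hker : LinearMap.ker Φ ≠ ⊥ := by
    apply LinearMap.ker_ne_bot_of_finrank_lt
    simp
    ring_nf
    nlinarith
  obtain ⟨q, hq, hq0⟩ := (Submodule.ne_bot_iff _).mp hker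
  rw [LinearMap.mem_ker] at hq
  have h1 := congrArg Prod.fst hq
  have h2 := congrArg Prod.snd hq
  refine ⟨q, hq0, h2, fun j k hk => ?_⟩
  exact congrFun h1 (j, ⟨k, hk⟩)

end BDD

open BDD in
theorem bdd_poly (v : ℂ × ℂ → ℂ × ℂ) (S : TSurf (ℂ × ℂ)) (hS : IsLeaf v S) (hna : NotAlg S)
    (N : ℕ) (s : Fin N → ℂ → ℂ) (ε : ℝ) (hε : 0 < ε) (hs : ∀ j, DifferentiableOn ℂ (s j) (ball 0 ε))
    (R : ℝ) (hR : ∀ z ∈ S.L, R < ‖z‖ → ∃ j, ∃ y : ℂ, y ≠ 0 ∧ ‖y‖ < ε / 2 ∧ z = pt (s j y) y) :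
    ∃ u, S.GoodFun u := by
  -- Taylor expansions of the functions `y ^ (2 D - a - b) s_j ^ b`, `D = 2 N + 1`
  have hT : ∀ (j : Fin N) (p : Fin (2 * N + 2) × Fin (2 * N + 2)), ∃ (c : ℕ → ℂ) (h : ℂ → ℂ),
      DifferentiableOn ℂ h (ball 0 ε) ∧
      ∀ y, y ^ (2 * (2 * N + 1) - (p.1 : ℕ) - (p.2 : ℕ)) * s j y ^ (p.2 : ℕ)
        = ∑ k ∈ Finset.range (2 * (2 * N + 1)), c k * y ^ k + y ^ (2 * (2 * N + 1)) * h y := by
    intro j p
    exact taylor (fun y => y ^ (2 * (2 * N + 1) - (p.1 : ℕ) - (p.2 : ℕ)) * s j y ^ (p.2 : ℕ)) ε hε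
      ((differentiable_id.pow _).differentiableOn.mul ((hs j).pow _)) _
  choose c h hh hch using hT
  obtain ⟨q, hq0, hq00, hq⟩ := exists_coeff N c
  obtain ⟨Q, hQ⟩ : ∃ Q, Q = poly (2 * N + 1) q := ⟨_, rfl⟩
  obtain ⟨F, hF⟩ : ∃ F : ℂ × ℂ → ℂ, F = fun z => MvPolynomial.eval ![z.1, z.2] Q := ⟨_, rfl⟩
  have hFz : ∀ z, F z = ∑ p : Fin (2 * N + 2) × Fin (2 * N + 2),
      q p * (z.1 ^ (p.1 : ℕ) * z.2 ^ (p.2 : ℕ)) := by
    intro z
    rw [hF, hQ]
    exact eval_poly _ _ _
  have hFd : Differentiable ℂ F := by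
    have : F = fun z => ∑ p : Fin (2 * N + 2) × Fin (2 * N + 2),
      q p * (z.1 ^ (p.1 : ℕ) * z.2 ^ (p.2 : ℕ)) := funext hFz
    rw [this]
    fun_prop
  -- boundedness at the ends
  have hend : ∀ j : Fin N, ∃ M : ℝ, ∀ y : ℂ, y ≠ 0 → ‖y‖ < ε / 2 → ‖F (pt (s j y) y)‖ ≤ M := by
    intro j
    obtain ⟨H, hH⟩ : ∃ H : ℂ → ℂ, H = fun y => ∑ p, q p * h j p y := ⟨_, rfl⟩
    have hHc : ContinuousOn H (closedBall 0 (ε / 2)) := by
      rw [hH]
      refine continuousOn_finsetSum _ fun p _ => ?_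
      refine continuousOn_const.mul ((hh j p).continuousOn.mono ?_)
      exact closedBall_subset_ball (by linarith)
    obtain ⟨M, hM⟩ := (isCompact_closedBall (0 : ℂ) (ε / 2)).exists_bound_of_continuousOn hHc
    refine ⟨M, fun y hy hye => ?_⟩
    have key : F (pt (s j y) y) = H y := by
      have hy' : y ^ (2 * (2 * N + 1)) ≠ 0 := pow_ne_zero _ hy
      have e1 : y ^ (2 * (2 * N + 1)) * F (pt (s j y) y)
          = ∑ p : Fin (2 * N + 2) × Fin (2 * N + 2),
            q p * (y ^ (2 * (2 * N + 1) - (p.1 : ℕ) - (p.2 : ℕ)) * s j y ^ (p.2 : ℕ)) := by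
        rw [hFz, Finset.mul_sum]
        refine Finset.sum_congr rfl fun p _ => ?_
        have h1 : 2 * (2 * N + 1)
            = (2 * (2 * N + 1) - (p.1 : ℕ) - (p.2 : ℕ)) + ((p.1 : ℕ) + (p.2 : ℕ)) := by
          have := p.1.2
          have := p.2.2
          omega
        obtain ⟨m, hm⟩ : ∃ m, m = 2 * (2 * N + 1) - (p.1 : ℕ) - (p.2 : ℕ) := ⟨_, rfl⟩
        rw [← hm] at h1 ⊢
        rw [h1]
        simp only [pt]
        rw [div_pow, div_pow, one_pow, pow_add, pow_add]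
        field_simp
      have e2 : y ^ (2 * (2 * N + 1)) * F (pt (s j y) y) = y ^ (2 * (2 * N + 1)) * H y := by
        have e4 : ∀ p : Fin (2 * N + 2) × Fin (2 * N + 2),
            q p * (y ^ (2 * (2 * N + 1) - (p.1 : ℕ) - (p.2 : ℕ)) * s j y ^ (p.2 : ℕ))
            = ∑ k ∈ Finset.range (2 * (2 * N + 1)), q p * (c j p k * y ^ k)
              + y ^ (2 * (2 * N + 1)) * (q p * h j p y) := by
          intro p
          rw [hch j p y, mul_add, Finset.mul_sum]
          ring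
        rw [e1, hH, Finset.sum_congr rfl fun p _ => e4 p, Finset.sum_add_distrib, Finset.sum_comm]
        have e3 : ∑ k ∈ Finset.range (2 * (2 * N + 1)),
            ∑ p : Fin (2 * N + 2) × Fin (2 * N + 2), q p * (c j p k * y ^ k) = 0 := by
          refine Finset.sum_eq_zero fun k hk => ?_
          have := hq j k (Finset.mem_range.mp hk)
          simp_rw [← mul_assoc]
          rw [← Finset.sum_mul, this, zero_mul]
        rw [e3, zero_add, Finset.mul_sum]
      exact mul_left_cancel₀ hy' e2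
    rw [key]
    exact hM y (by rw [mem_closedBall, dist_zero_right]; exact hye.le)
  choose M hM using hend
  -- boundedness on a compact ball
  obtain ⟨M0, hM0⟩ := (isCompact_closedBall (0 : ℂ × ℂ) R).exists_bound_of_continuousOn
    hFd.continuous.continuousOn
  have hbd : ∃ B : ℝ, ∀ z ∈ S.L, ‖F z‖ ≤ B := by
    refine ⟨|M0| + ∑ j, |M j|, fun z hz => ?_⟩
    have hsum : 0 ≤ ∑ j, |M j| := Finset.sum_nonneg fun j _ => abs_nonneg _
    by_cases hzR : R < ‖z‖
    · obtain ⟨j, y, hy, hye, hzy⟩ := hR z hz hzR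
      have h1 := hM j y hy hye
      rw [← hzy] at h1
      have h2 : |M j| ≤ ∑ j, |M j| :=
        Finset.single_le_sum (f := fun j => |M j|) (fun j _ => abs_nonneg _) (Finset.mem_univ j)
      have h3 := le_abs_self (M j)
      have h4 := abs_nonneg M0
      linarith
    · have h1 := hM0 z (by rw [mem_closedBall, dist_zero_right]; exact not_lt.mp hzR)
      have h2 := le_abs_self M0
      linarith
  obtain ⟨B, hB⟩ := hbd
  -- non-constancy
  have hnc : ∃ p ∈ S.L, ∃ q ∈ S.L, F p ≠ F q := by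
    by_contra hno
    push Not at hno
    obtain ⟨p0, hp0⟩ := hS.nonempty
    have hne : Q - MvPolynomial.C (F p0) ≠ 0 := by
      intro h0
      obtain ⟨p, hp⟩ := Function.ne_iff.mp hq0
      have hp00 : p ≠ (0, 0) := by
        intro h
        rw [h] at hp
        exact hp hq00
      have h1 := congrArg (MvPolynomial.coeff
        (Finsupp.single 0 (p.1 : ℕ) + Finsupp.single 1 (p.2 : ℕ))) h0
      rw [MvPolynomial.coeff_sub, hQ, coeff_poly, MvPolynomial.coeff_C, if_neg, sub_zero,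
        MvPolynomial.coeff_zero] at h1
      · exact hp h1
      · intro h2
        have h3 : (Finsupp.single 0 0 + Finsupp.single 1 0 : Fin 2 →₀ ℕ)
            = Finsupp.single 0 (p.1 : ℕ) + Finsupp.single 1 (p.2 : ℕ) := by
          rw [← h2]; simp
        obtain ⟨h4, h5⟩ := single_inj h3
        exact hp00 (Prod.ext (Fin.ext (by simpa using h4.symm)) (Fin.ext (by simpa using h5.symm)))
    obtain ⟨z, hz, hz0⟩ := hna _ hne
    apply hz0
    rw [map_sub, MvPolynomial.eval_C]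
    have := hno z hz p0 hp0
    rw [← this, hF]
    simp
  -- flow
  have hfl : ∀ q ∈ S.L, DifferentiableOn ℂ (fun t => F (S.flow q t)) (ball 0 (S.rad q)) := by
    intro q hq t ht
    have h1 := (hS.hasDeriv q hq t ht).differentiableAt
    exact (DifferentiableAt.comp t hFd.differentiableAt h1).differentiableWithinAt
  have hfla : ∀ q ∈ S.L, AnalyticAt ℂ (fun t => F (S.flow q t)) 0 := by
    intro q hq
    exact (hfl q hq).analyticAt (ball_mem_nhds _ (S.rad_pos q hq))
  obtain ⟨p, hp, p', hp', hpp'⟩ := hnc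
  by_cases hre : (F p).re = (F p').re
  · have him : (F p).im ≠ (F p').im := fun h => hpp' (Complex.ext hre h)
    refine ⟨fun z => (F z).im, ⟨B, fun q hq => ?_⟩, ⟨p, hp, p', hp', him⟩, fun q hq => ⟨?_, ?_⟩⟩
    · exact (Complex.abs_im_le_norm _).trans (hB q hq)
    · exact Complex.continuous_im.comp_continuousOn (hfl q hq).continuousOn
    · have hh := (hfla q hq).harmonicAt_im
      exact ⟨_, hh.1, le_of_eq (hh.2.self_of_nhds).symm, rfl, Eventually.of_forall fun t => le_rfl⟩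
  · refine ⟨fun z => (F z).re, ⟨B, fun q hq => ?_⟩, ⟨p, hp, p', hp', hre⟩, fun q hq => ⟨?_, ?_⟩⟩
    · exact (Complex.abs_re_le_norm _).trans (hB q hq)
    · exact Complex.continuous_re.comp_continuousOn (hfl q hq).continuousOn
    · have hh := (hfla q hq).harmonicAt_re
      exact ⟨_, hh.1, le_of_eq (hh.2.self_of_nhds).symm, rfl, Eventually.of_forall fun t => le_rfl⟩

end Pool.Agent.H210.Gr
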