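import Pool.Agent.H210.Green.HomAlg

/-! Task COORD of the proof of S05669: linear change of coordinates. -/

set_option autoImplicit false

namespace Pool.Agent.H210.Gr

open Metric Set MeasureTheory Topology Filter
open scoped Laplacian ContDiff

namespace COORD

open MvPolynomial (X C pderiv eval)
open HOM (hasDerivAt_eval hasDerivAt_line euler)

/-! ### Transport of surfaces -/

/-- transport of a surface by a bijection -/
def smap {E E' : Type} (S : TSurf E) (e : E ≃ E') : TSurf E' where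
  L := {u | e.symm u ∈ S.L}
  rad u := S.rad (e.symm u)
  flow u t := e (S.flow (e.symm u) t)
  rad_pos q hq := S.rad_pos _ hq
  rad_le q hq := S.rad_le _ hq
  flow_zero q hq := by simp [S.flow_zero _ hq]
  flow_mem q hq t ht := by
    simp only [mem_ofPred_eq, Equiv.symm_apply_apply]
    exact S.flow_mem _ hq t ht
  flow_inj q hq := fun t ht t' ht' h => S.flow_inj _ hq ht ht' (e.injective h)
  rad_flow q hq t ht := by
    simp only [Equiv.symm_apply_apply]
    exact S.rad_flow _ hq t ht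
  flow_add q hq t s hts := by
    simp only [Equiv.symm_apply_apply]
    rw [S.flow_add _ hq t s hts]
  conn p hp q hq := by
    have h := S.conn _ hp _ hq
    have h2 : ∀ y : E, Relation.ReflTransGen (fun x y => ∃ t : ℂ, ‖t‖ < S.rad x ∧ y = S.flow x t) (e.symm p) y →
        Relation.ReflTransGen (fun x y => ∃ t : ℂ, ‖t‖ < S.rad (e.symm x) ∧
          y = e (S.flow (e.symm x) t)) p (e y) := by
      intro y hy
      induction hy with
      | refl => rw [Equiv.apply_symm_apply]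
      | tail _ h2 ih =>
        obtain ⟨t, ht, rfl⟩ := h2
        exact ih.tail ⟨t, by simpa using ht, by simp⟩
    simpa using h2 _ h

theorem loc_map {E E' : Type} (S : TSurf E) (e : E ≃ E') {γ : ℂ → E'} {c : ℂ} {R : ℝ}
    (h : S.Loc (fun x => e.symm (γ x)) c R) : (smap S e).Loc γ c R := by
  intro x hx
  obtain ⟨h1, ε, hε, hb, τ, hτ, h0, h2⟩ := h x hx
  refine ⟨h1, ε, hε, hb, τ, hτ, h0, fun x' hx' => ⟨(h2 x' hx').1, ?_⟩⟩
  change γ x' = e (S.flow (e.symm (γ x)) (τ x'))
  rw [← (h2 x' hx').2, Equiv.apply_symm_apply]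

theorem good_map {E E' : Type} (S : TSurf E) (e : E ≃ E') {u : E' → ℝ} (h : (smap S e).GoodFun u) :
    S.GoodFun (fun q => u (e q)) := by
  obtain ⟨⟨M, hM⟩, ⟨p, hp, q, hq, hpq⟩, h3⟩ := h
  refine ⟨⟨M, fun q hq => hM (e q) (by simpa [smap] using hq)⟩,
    ⟨e.symm p, hp, e.symm q, hq, by simpa using hpq⟩, fun q hq => ?_⟩
  have := h3 (e q) (by simpa [smap] using hq)
  simpa [smap] using this

theorem leaf_map {v : ℂ × ℂ → ℂ × ℂ} {S : TSurf (ℂ × ℂ)} (hS : IsLeaf v S)
    (e : (ℂ × ℂ) ≃L[ℂ] (ℂ × ℂ)) {v' : ℂ × ℂ → ℂ × ℂ} (hv : ∀ u, v' u = e (v (e.symm u))) :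
    IsLeaf v' (smap S e.toEquiv) := by
  refine ⟨?_, fun q hq => ?_, fun q hq t ht => ?_, ?_⟩
  · obtain ⟨q, hq⟩ := hS.nonempty
    refine ⟨e q, ?_⟩
    change e.symm (e q) ∈ S.L
    simpa using hq
  · rw [hv]
    intro h
    have h1 : v (e.symm q) = 0 := by simpa using h
    exact hS.nonsing _ hq h1
  · have h1 := hS.hasDeriv _ hq t ht
    have h2 := e.toContinuousLinearMap.hasFDerivAt.comp_hasDerivAt t h1
    rw [hv]
    change HasDerivAt (fun t => e (S.flow (e.symm q) t)) (e (v (e.symm (e (S.flow (e.symm q) t))))) t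
    rw [ContinuousLinearEquiv.symm_apply_apply]
    exact h2
  · intro c R ψ β hβ hψ hex
    apply loc_map
    refine hS.sat c R (fun x => e.symm (ψ x)) β hβ (fun x hx => ?_) hex
    have h2 := e.symm.toContinuousLinearMap.hasFDerivAt.comp_hasDerivAt x (hψ x hx)
    refine h2.congr_deriv ?_
    rw [hv]
    simp

/-! ### The coordinate change -/

/-- `T(z0, z1) = (z1 - x z0, z0)`, inverse `(u1, u0 + x u1)` -/
noncomputable def T (x : ℂ) : (ℂ × ℂ) ≃L[ℂ] (ℂ × ℂ) :=
  ContinuousLinearEquiv.equivOfInverse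
    ((ContinuousLinearMap.snd ℂ ℂ ℂ - x • ContinuousLinearMap.fst ℂ ℂ ℂ).prod (ContinuousLinearMap.fst ℂ ℂ ℂ))
    ((ContinuousLinearMap.snd ℂ ℂ ℂ).prod (ContinuousLinearMap.fst ℂ ℂ ℂ + x • ContinuousLinearMap.snd ℂ ℂ ℂ))
    (fun z => by ext <;> simp) (fun z => by ext <;> simp)

theorem T_apply (x : ℂ) (z : ℂ × ℂ) : T x z = (z.2 - x * z.1, z.1) := rfl
theorem T_symm (x : ℂ) (u : ℂ × ℂ) : (T x).symm u = (u.2, u.1 + x * u.2) := rfl

/-- substitution -/
noncomputable def sub (x : ℂ) (f : MvPolynomial (Fin 2) ℂ) : MvPolynomial (Fin 2) ℂ :=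
  MvPolynomial.aeval ![X 1, X 0 + C x * X 1] f

theorem sub_hom (x : ℂ) {f : MvPolynomial (Fin 2) ℂ} {n : ℕ} (hf : f.IsHomogeneous n) :
    (sub x f).IsHomogeneous n := by
  have h := hf.aeval (![X 1, X 0 + C x * X 1] : Fin 2 → MvPolynomial (Fin 2) ℂ) (n := 1) (fun i => by
    fin_cases i
    · exact MvPolynomial.isHomogeneous_X _ _
    · refine (MvPolynomial.isHomogeneous_X _ _).add ?_
      have h1 := (MvPolynomial.isHomogeneous_C (Fin 2) x).mul (MvPolynomial.isHomogeneous_X ℂ (1 : Fin 2))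
      simpa using h1)
  simpa [sub] using h

theorem eval_sub' (x : ℂ) (f : MvPolynomial (Fin 2) ℂ) (u : Fin 2 → ℂ) :
    eval u (sub x f) = eval ![u 1, u 0 + x * u 1] f := by
  unfold sub
  induction f using MvPolynomial.induction_on with
  | C a => simp
  | add p q hp hq => simp only [map_add, hp, hq]
  | mul_X p i hp =>
    simp only [map_mul, hp, MvPolynomial.aeval_X, MvPolynomial.eval_X]
    fin_cases i <;> simp

theorem pderiv_sub0 (x : ℂ) (f : MvPolynomial (Fin 2) ℂ) (u : Fin 2 → ℂ) :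
    eval u (pderiv 0 (sub x f)) = eval ![u 1, u 0 + x * u 1] (pderiv 1 f) := by
  have h1 := hasDerivAt_line (sub x f) u 0
  have h2 := hasDerivAt_eval f (fun t : ℂ => ![u 1, u 0 + t + x * u 1]) ![0, 1] 0 (fun i => by
    fin_cases i
    · exact hasDerivAt_const _ _
    · exact ((hasDerivAt_id (0 : ℂ)).const_add (u 0)).add_const _)
  have h3 : (fun t : ℂ => eval (u + t • (Pi.single 0 1 : Fin 2 → ℂ)) (sub x f)) =
      fun t : ℂ => eval ![u 1, u 0 + t + x * u 1] f := by
    funext t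
    rw [eval_sub']
    simp
  rw [h3] at h1
  rw [h1.unique h2]
  simp

theorem pderiv_sub1 (x : ℂ) (f : MvPolynomial (Fin 2) ℂ) (u : Fin 2 → ℂ) :
    eval u (pderiv 1 (sub x f)) = eval ![u 1, u 0 + x * u 1] (pderiv 0 f) +
      x * eval ![u 1, u 0 + x * u 1] (pderiv 1 f) := by
  have h1 := hasDerivAt_line (sub x f) u 1
  have h2 := hasDerivAt_eval f (fun t : ℂ => ![u 1 + t, u 0 + x * (u 1 + t)]) ![1, x] 0 (fun i => by
    fin_cases i
    · exact (hasDerivAt_id (0 : ℂ)).const_add (u 1)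
    · have := (((hasDerivAt_id (0 : ℂ)).const_add (u 1)).const_mul x).const_add (u 0)
      simpa using this)
  have h3 : (fun t : ℂ => eval (u + t • (Pi.single 1 1 : Fin 2 → ℂ)) (sub x f)) =
      fun t : ℂ => eval ![u 1 + t, u 0 + x * (u 1 + t)] f := by
    funext t
    rw [eval_sub']
    simp
  rw [h3] at h1
  rw [h1.unique h2]
  simp [Fin.sum_univ_two, mul_comm]

/-- the new foliation -/
noncomputable def nf (F : Fol) (x : ℂ) : Fol where
  d := F.d
  hd := F.hd
  Pc i := sub x (F.Qc i) - C x * sub x (F.Pc i)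
  Qc i := sub x (F.Pc i)
  hP i := by
    refine (sub_hom x (F.hQ i)).sub ?_
    have h1 := (MvPolynomial.isHomogeneous_C (Fin 2) x).mul (sub_hom x (F.hP i))
    simpa using h1
  hQ i := sub_hom x (F.hP i)

theorem nf_P (F : Fol) (x : ℂ) : (nf F x).P = sub x F.Q - C x * sub x F.P := by
  change ∑ i ∈ Finset.range (F.d + 1), (sub x (F.Qc i) - C x * sub x (F.Pc i)) = _
  rw [Finset.sum_sub_distrib, ← Finset.mul_sum]
  unfold sub Fol.P Fol.Q
  rw [map_sum, map_sum]

theorem nf_Q (F : Fol) (x : ℂ) : (nf F x).Q = sub x F.P := by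
  change ∑ i ∈ Finset.range (F.d + 1), sub x (F.Pc i) = _
  unfold sub Fol.P
  rw [map_sum]

theorem nf_v (F : Fol) (x : ℂ) (u : ℂ × ℂ) : (nf F x).v u = T x (F.v ((T x).symm u)) := by
  unfold Fol.v
  rw [nf_P, nf_Q, T_apply, T_symm]
  simp only [map_sub, map_mul, MvPolynomial.eval_C, eval_sub']
  simp

theorem trace_eq (x : ℂ) (f g : MvPolynomial (Fin 2) ℂ) (u : Fin 2 → ℂ) :
    eval u (pderiv 0 (sub x g - C x * sub x f)) + eval u (pderiv 1 (sub x f)) =
      eval ![u 1, u 0 + x * u 1] (pderiv 0 f) + eval ![u 1, u 0 + x * u 1] (pderiv 1 g) := by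
  simp only [map_sub, MvPolynomial.pderiv_C_mul, map_mul, MvPolynomial.eval_C, pderiv_sub0, pderiv_sub1]
  ring

theorem det_eq (x : ℂ) (f g : MvPolynomial (Fin 2) ℂ) (u : Fin 2 → ℂ) :
    eval u (pderiv 0 (sub x g - C x * sub x f)) * eval u (pderiv 1 (sub x f)) -
      eval u (pderiv 1 (sub x g - C x * sub x f)) * eval u (pderiv 0 (sub x f)) =
      eval ![u 1, u 0 + x * u 1] (pderiv 0 f) * eval ![u 1, u 0 + x * u 1] (pderiv 1 g) -
      eval ![u 1, u 0 + x * u 1] (pderiv 1 f) * eval ![u 1, u 0 + x * u 1] (pderiv 0 g) := by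
  simp only [map_sub, MvPolynomial.pderiv_C_mul, map_mul, MvPolynomial.eval_C, pderiv_sub0, pderiv_sub1]
  ring

theorem nf_hypInf (F : Fol) (x : ℂ) (h : F.HypInf) : (nf F x).HypInf := by
  intro w μ hw h0 h1
  change eval w (sub x (F.Qc F.d) - C x * sub x (F.Pc F.d)) = μ * w 0 at h0
  change eval w (sub x (F.Pc F.d)) = μ * w 1 at h1
  change (μ / (eval w (pderiv 0 (sub x (F.Qc F.d) - C x * sub x (F.Pc F.d))) +
    eval w (pderiv 1 (sub x (F.Pc F.d))) - (F.d + 1) * μ)).im ≠ 0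
  rw [trace_eq]
  simp only [map_sub, map_mul, MvPolynomial.eval_C, eval_sub'] at h0 h1
  refine h ![w 1, w 0 + x * w 1] μ ?_ ?_ ?_
  · intro hc
    apply hw
    have e0 := congrFun hc 0
    have e1 := congrFun hc 1
    simp at e0 e1
    ext i
    fin_cases i
    · simpa [e0] using e1
    · exact e0
  · simpa using h1
  · simp only [Matrix.cons_val_one, Matrix.cons_val_fin_one]
    linear_combination h0 + x * h1

theorem nf_hypFin (F : Fol) (x : ℂ) (h : F.HypFin) : (nf F x).HypFin := by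
  intro s h0 h1
  rw [nf_P, nf_Q] at *
  rw [trace_eq, det_eq]
  simp only [map_sub, map_mul, MvPolynomial.eval_C, eval_sub'] at h0 h1
  refine h ![s 1, s 0 + x * s 1] h1 ?_
  rw [h1] at h0
  simpa using h0

theorem exists_good (F : Fol) (h : F.HypInf) : ∃ x : ℂ, (nf F x).Good := by
  by_contra hcon
  push Not at hcon
  have hA : ∀ x : ℂ, eval ![1, x] (F.Qc F.d) - x * eval ![1, x] (F.Pc F.d) = 0 := by
    intro x
    have h1 := hcon x
    unfold Fol.Good at h1
    push Not at h1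
    change eval ![0, 1] (sub x (F.Qc F.d) - C x * sub x (F.Pc F.d)) = 0 at h1
    simp only [map_sub, map_mul, MvPolynomial.eval_C, eval_sub'] at h1
    simpa using h1
  have hcurve : ∀ f : MvPolynomial (Fin 2) ℂ, HasDerivAt (fun t : ℂ => eval ![1, t] f) (eval ![1, 0] (pderiv 1 f)) 0 := by
    intro f
    have h2 := hasDerivAt_eval f (fun t : ℂ => ![1, t]) ![0, 1] 0 (fun i => by
      fin_cases i
      · exact hasDerivAt_const _ _
      · exact hasDerivAt_id _)
    simpa using h2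
  have hd1 := (hcurve (F.Qc F.d)).sub ((hasDerivAt_id (0 : ℂ)).mul (hcurve (F.Pc F.d)))
  have hd2 : HasDerivAt ((fun t : ℂ => eval ![1, t] (F.Qc F.d)) - (id * fun t : ℂ => eval ![1, t] (F.Pc F.d))) 0 0 := by
    have : ((fun t : ℂ => eval ![1, t] (F.Qc F.d)) - (id * fun t : ℂ => eval ![1, t] (F.Pc F.d))) = fun _ => 0 := by
      funext t
      exact hA t
    rw [this]
    exact hasDerivAt_const _ _
  have hd := hd1.unique hd2
  simp only [id, one_mul, zero_mul, add_zero] at hd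
  have hE := euler (F.hP F.d) ![1, 0]
  simp only [Fin.sum_univ_two, Matrix.cons_val_zero, Matrix.cons_val_one, Matrix.cons_val_fin_one, one_mul, zero_mul,
    add_zero] at hE
  have h0 := hA 0
  rw [zero_mul, sub_zero] at h0
  have := h ![1, 0] (eval ![1, 0] (F.Pc F.d)) (by
    intro hc
    have := congrFun hc 0
    simp at this) (by simp) (by simp [h0])
  apply this
  rw [hE, show eval ![1, 0] (pderiv 1 (F.Qc F.d)) = eval ![1, 0] (F.Pc F.d) by linear_combination hd]
  rw [show (F.d : ℂ) * eval ![1, 0] (F.Pc F.d) + eval ![1, 0] (F.Pc F.d) - (F.d + 1) * eval ![1, 0] (F.Pc F.d) = 0 by ring]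
  simp

theorem notAlg_map (S : TSurf (ℂ × ℂ)) (x : ℂ) (h : NotAlg S) : NotAlg (smap S (T x).toEquiv) := by
  intro p hp
  set q : MvPolynomial (Fin 2) ℂ := MvPolynomial.aeval ![X 1 - C x * X 0, X 0] p with hq
  have hev : ∀ z : Fin 2 → ℂ, eval z q = eval ![z 1 - x * z 0, z 0] p := by
    intro z
    rw [hq]
    clear hp hq
    clear q
    induction p using MvPolynomial.induction_on with
    | C a => simp
    | add p q hp hq => simp only [map_add, hp, hq]
    | mul_X p i hp =>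
      simp only [map_mul, hp, MvPolynomial.aeval_X, MvPolynomial.eval_X]
      fin_cases i <;> simp
  have hq0 : q ≠ 0 := by
    intro h0
    apply hp
    apply MvPolynomial.funext
    intro u
    have h1 := hev ![u 1, u 0 + x * u 1]
    rw [h0] at h1
    simp only [map_zero, Matrix.cons_val_one, Matrix.cons_val_fin_one, Matrix.cons_val_zero, add_sub_cancel_right] at h1 ⊢
    rw [show u = ![u 0, u 1] by ext i; fin_cases i <;> rfl]
    exact h1.symm
  obtain ⟨z, hz, hzq⟩ := h q hq0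
  refine ⟨T x z, ?_, ?_⟩
  · change (T x).symm (T x z) ∈ S.L
    simpa using hz
  · rw [hev] at hzq
    simpa [T_apply] using hzq

end COORD

open COORD in
theorem good_coords
    (hmain : ∀ F : Fol, F.HypInf → F.HypFin → F.Good → ∀ S : TSurf (ℂ × ℂ), IsLeaf F.v S → NotAlg S →
      ∃ u, S.GoodFun u)
    (F : Fol) (hI : F.HypInf) (hF : F.HypFin) (S : TSurf (ℂ × ℂ)) (hS : IsLeaf F.v S) (hna : NotAlg S) :
    ∃ u, S.GoodFun u := by
  obtain ⟨x, hx⟩ := exists_good F hI
  obtain ⟨u, hu⟩ := hmain (nf F x) (nf_hypInf F x hI) (nf_hypFin F x hF) hx (smap S (T x).toEquiv)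
    (leaf_map hS (T x) (nf_v F x)) (notAlg_map S x hna)
  exact ⟨_, good_map S _ hu⟩

end Pool.Agent.H210.Gr
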