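import Pool.Agent.H210.Green.Defs

set_option autoImplicit false

namespace Pool.Agent.H210.Gr

/-- the polynomial `p(1, x)` -/
noncomputable def dehom (p : MvPolynomial (Fin 2) ℂ) : Polynomial ℂ :=
  MvPolynomial.aeval ![(1 : Polynomial ℂ), Polynomial.X] p

end Pool.Agent.H210.Gr
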