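import Pool.Agent.H210.Green.Graph

set_option autoImplicit false

/-! # Leaving a hyperbolic corner -/

namespace Pool.Agent.H210.Gr.EXIT

open Metric Set MeasureTheory Topology Filter Complex
open Pool.Agent.H210.Gr.GRAPH

/-- growth of a solution of a linear differential inequality -/
theorem growth {X X' : ℝ → ℂ} {c κ : ℂ} {μ q h : ℝ} (hh : 0 ≤ h) (hq : q ≤ (c * κ).re) (_hc : ‖c‖ = 1)
    (hX : ∀ t ∈ Icc 0 h, HasDerivAt X (X' t) t)
    (hb : ∀ t ∈ Icc 0 h, ‖X' t - c * κ * X t‖ ≤ μ * ‖X t‖) (hμ : 2 * μ ≤ q) :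
    ‖X 0‖ ^ 2 * Real.exp (q * h) ≤ ‖X h‖ ^ 2 := by
  have hd : ∀ t ∈ Icc 0 h, HasDerivAt (fun t => ‖X t‖ ^ 2 * Real.exp (-(q * t)))
      ((2 * inner ℝ (X t) (X' t)) * Real.exp (-(q * t)) +
        ‖X t‖ ^ 2 * (Real.exp (-(q * t)) * (-q))) t := by
    intro t ht
    have h1 := (hX t ht).norm_sq
    have h2 : HasDerivAt (fun t : ℝ => -(q * t)) (-q) t := by
      simpa using (hasDerivAt_id t).const_mul (-q)
    exact h1.mul h2.exp
  have hmono : MonotoneOn (fun t => ‖X t‖ ^ 2 * Real.exp (-(q * t))) (Icc 0 h) := by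
    refine monotoneOn_of_hasDerivWithinAt_nonneg (convex_Icc 0 h)
      (fun t ht => (hd t ht).continuousAt.continuousWithinAt)
      (fun t ht => ((hd t (interior_subset ht)).hasDerivWithinAt)) ?_
    intro t ht
    have ht' := interior_subset ht
    have h1 : inner ℝ (X t) (X' t) = (c * κ).re * ‖X t‖ ^ 2 +
        inner ℝ (X t) (X' t - c * κ * X t) := by
      rw [inner_sub_right]
      have h2 : inner ℝ (X t) (c * κ * X t) = (c * κ).re * ‖X t‖ ^ 2 := by
        rw [Complex.inner]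
        have : (c * κ * X t) * (starRingEnd ℂ) (X t) = c * κ * ((‖X t‖ ^ 2 : ℝ) : ℂ) := by
          rw [← Complex.normSq_eq_norm_sq, ← Complex.mul_conj]; ring
        rw [this, Complex.re_mul_ofReal]
      rw [h2]; ring
    have h3 : |inner ℝ (X t) (X' t - c * κ * X t)| ≤ ‖X t‖ * (μ * ‖X t‖) :=
      (abs_real_inner_le_norm _ _).trans (mul_le_mul_of_nonneg_left (hb t ht') (norm_nonneg _))
    have h4 := (abs_le.1 h3).1
    have h5 : 0 ≤ 2 * inner ℝ (X t) (X' t) - q * ‖X t‖ ^ 2 := by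
      rw [h1]
      nlinarith [sq_nonneg ‖X t‖, mul_le_mul_of_nonneg_right hq (sq_nonneg ‖X t‖),
        mul_le_mul_of_nonneg_right hμ (sq_nonneg ‖X t‖)]
    have h6 := Real.exp_pos (-(q * t))
    have h7 : 2 * inner ℝ (X t) (X' t) * Real.exp (-(q * t)) +
        ‖X t‖ ^ 2 * (Real.exp (-(q * t)) * (-q)) =
        (2 * inner ℝ (X t) (X' t) - q * ‖X t‖ ^ 2) * Real.exp (-(q * t)) := by ring
    rw [h7]
    exact mul_nonneg h5 h6.le
  have h1 := hmono (left_mem_Icc.2 hh) (right_mem_Icc.2 hh) hh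
  simp only [mul_zero, neg_zero, Real.exp_zero, mul_one] at h1
  have h2 : ‖X h‖ ^ 2 = ‖X h‖ ^ 2 * Real.exp (-(q * h)) * Real.exp (q * h) := by
    rw [mul_assoc, ← Real.exp_add]; simp
  rw [h2]
  exact mul_le_mul_of_nonneg_right h1 (Real.exp_pos _).le

/-- the local form of `a / b` at a root -/
theorem box (D : InfD) (x₁ : ℂ) (h : D.A.eval x₁ = 0) :
    ∃ κ : ℂ, κ.im ≠ 0 ∧ ∀ μ : ℝ, 0 < μ → ∃ r1 > 0,
      (∀ x, ‖x - x₁‖ < r1 → ∀ y : ℂ, ‖y‖ < r1 → D.bF x y ≠ 0 ∧ ‖D.aF x y / D.bF x y‖ ≤ 1) ∧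
      (∀ x x' y : ℂ, ‖x - x₁‖ < r1 → ‖x' - x₁‖ < r1 → ‖y‖ < r1 →
         ‖D.aF x y / D.bF x y - D.aF x' y / D.bF x' y - κ * (x - x')‖ ≤ μ * ‖x - x'‖) ∧
      (∀ x, 0 < ‖x - x₁‖ → ‖x - x₁‖ < r1 → D.A.eval x ≠ 0) := by
  have hyp := D.hyp x₁ h
  change (D.β.eval x₁ / (Polynomial.derivative D.A).eval x₁).im ≠ 0 at hyp
  have hβ : D.β.eval x₁ ≠ 0 := by
    intro h0; rw [h0] at hyp; simp at hyp
  have hA' : (Polynomial.derivative D.A).eval x₁ ≠ 0 := by
    intro h0; rw [h0] at hyp; simp at hyp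
  set κ : ℂ := (Polynomial.derivative D.A).eval x₁ / D.β.eval x₁ with hκ
  have hκim : κ.im ≠ 0 := by
    have h1 : κ = (D.β.eval x₁ / (Polynomial.derivative D.A).eval x₁)⁻¹ := by
      rw [hκ, inv_div]
    rw [h1, Complex.inv_im]
    refine div_ne_zero (neg_ne_zero.2 hyp) ?_
    exact (Complex.normSq_pos.2 (div_ne_zero hβ hA')).ne'
  refine ⟨κ, hκim, fun μ hμ => ?_⟩
  set Gp : ℂ × ℂ → ℂ := fun p => D.aF p.1 p.2 / D.bF p.1 p.2 with hGp
  have hb0 : D.bF x₁ 0 ≠ 0 := by rw [bF_zero]; exact hβ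
  have hcd : ContDiffAt ℂ 1 Gp (x₁, 0) :=
    (contDiff_aF D).contDiffAt.div (contDiff_bF D).contDiffAt hb0
  have hst : HasStrictFDerivAt Gp (fderiv ℂ Gp (x₁, 0)) (x₁, 0) :=
    hcd.hasStrictFDerivAt one_ne_zero
  set f' := fderiv ℂ Gp (x₁, 0) with hf'
  have hf1 : f' (1, 0) = κ := by
    have h1 : HasDerivAt (fun x : ℂ => (x, (0 : ℂ))) (1, 0) x₁ :=
      (hasDerivAt_id x₁).prodMk (hasDerivAt_const x₁ (0 : ℂ))
    have h2 : HasDerivAt (fun x : ℂ => Gp (x, 0)) (f' (1, 0)) x₁ :=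
      hst.hasFDerivAt.comp_hasDerivAt_of_eq x₁ h1 rfl
    have h3 : (fun x : ℂ => Gp (x, 0)) = fun x => D.A.eval x / D.β.eval x := by
      funext x
      simp only [hGp, aF_zero, bF_zero]
    rw [h3] at h2
    have h4 := (D.A.hasDerivAt x₁).fun_div (D.β.hasDerivAt x₁) hβ
    rw [h2.unique h4, h, hκ]
    field_simp
    ring
  have hf2 : ∀ w : ℂ, f' (w, 0) = κ * w := by
    intro w
    have : ((w, 0) : ℂ × ℂ) = w • ((1, 0) : ℂ × ℂ) := by simp
    rw [this, map_smul, hf1, smul_eq_mul, mul_comm]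
  -- the strict derivative estimate
  have h1 : ∀ᶠ p : (ℂ × ℂ) × (ℂ × ℂ) in 𝓝 ((x₁, 0), (x₁, 0)),
      ‖Gp p.1 - Gp p.2 - f' (p.1 - p.2)‖ ≤ μ * ‖p.1 - p.2‖ := hst.isLittleO.bound hμ
  have h2 : ∀ᶠ p : ℂ × ℂ in 𝓝 (x₁, 0), D.bF p.1 p.2 ≠ 0 :=
    (continuous_bF D).continuousAt.eventually_ne hb0
  have h3 : ∀ᶠ p : ℂ × ℂ in 𝓝 (x₁, 0), ‖Gp p‖ < 1 := by
    have : ContinuousAt (fun p => ‖Gp p‖) (x₁, 0) := hcd.continuousAt.norm
    refine this.eventually_lt_const ?_
    simp only [hGp, aF_zero, h]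
    simp
  have h4 : ∀ᶠ x in 𝓝[≠] x₁, D.A.eval x ≠ 0 := (D.A.hasDerivAt x₁).eventually_ne hA'
  rw [eventually_nhdsWithin_iff] at h4
  obtain ⟨e1, he1, H1⟩ := Metric.eventually_nhds_iff.1 h1
  obtain ⟨e2, he2, H2⟩ := Metric.eventually_nhds_iff.1 h2
  obtain ⟨e3, he3, H3⟩ := Metric.eventually_nhds_iff.1 h3
  obtain ⟨e4, he4, H4⟩ := Metric.eventually_nhds_iff.1 h4
  refine ⟨min (min e1 e2) (min e3 e4), by positivity, ?_, ?_, ?_⟩
  · intro x hx y hy
    have hd : ∀ e, min (min e1 e2) (min e3 e4) ≤ e → dist ((x, y) : ℂ × ℂ) (x₁, 0) < e := by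
      intro e he
      rw [Prod.dist_eq, dist_eq_norm, dist_zero_right]
      exact max_lt (hx.trans_le he) (hy.trans_le he)
    exact ⟨H2 (hd e2 ((min_le_left _ _).trans (min_le_right _ _))),
      (H3 (hd e3 ((min_le_right _ _).trans (min_le_left _ _)))).le⟩
  · intro x x' y hx hx' hy
    have he : min (min e1 e2) (min e3 e4) ≤ e1 := (min_le_left _ _).trans (min_le_left _ _)
    have hd : dist (((x, y), (x', y)) : (ℂ × ℂ) × (ℂ × ℂ)) ((x₁, 0), (x₁, 0)) < e1 := by
      rw [Prod.dist_eq, Prod.dist_eq, Prod.dist_eq, dist_eq_norm, dist_zero_right, dist_eq_norm]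
      exact max_lt (max_lt (hx.trans_le he) (hy.trans_le he)) (max_lt (hx'.trans_le he) (hy.trans_le he))
    have h5 := H1 hd
    have h6 : ((x, y) : ℂ × ℂ) - (x', y) = (x - x', 0) := by simp
    simp only [h6, hf2] at h5
    have h7 : ‖((x - x', 0) : ℂ × ℂ)‖ = ‖x - x'‖ := by simp [Prod.norm_def]
    rw [h7] at h5
    exact h5
  · intro x hx hx'
    refine H4 ?_ (fun h => ?_)
    · rw [dist_eq_norm]
      exact hx'.trans_le ((min_le_right _ _).trans (min_le_right _ _))
    · have : x = x₁ := h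
      rw [this] at hx
      simp at hx

end Pool.Agent.H210.Gr.EXIT

namespace Pool.Agent.H210.Gr

open Metric Set MeasureTheory Topology Filter
open scoped Laplacian ContDiff
open Pool.Agent.H210.Gr.GRAPH

theorem exit (D : InfD) (v : ℂ × ℂ → ℂ × ℂ) (hv : D.Chart v) (S : TSurf (ℂ × ℂ)) (hS : IsLeaf v S)
    (x₁ : ℂ) (h : D.A.eval x₁ = 0) (ε : ℝ) (hε : 0 < ε) (s : ℂ → ℂ) (hs0 : s 0 = x₁)
    (hs : DifferentiableOn ℂ s (ball 0 ε))
    (hse : ∀ y ∈ ball (0 : ℂ) ε, y * D.bF (s y) y * deriv s y = D.aF (s y) y) :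
    ∃ δ > 0, ∃ ε' > 0, ε' ≤ ε ∧ (∀ x, 0 < ‖x - x₁‖ → ‖x - x₁‖ ≤ δ → D.A.eval x ≠ 0) ∧
      ∀ x y : ℂ, ‖x - x₁‖ < δ → y ≠ 0 → ‖y‖ < ε' → pt x y ∈ S.L → x ≠ s y →
        ∃ x' y' : ℂ, δ / 2 ≤ ‖x' - x₁‖ ∧ ‖x' - x₁‖ ≤ δ ∧ y' ≠ 0 ∧ ‖y'‖ ≤ ‖y‖ ∧ pt x' y' ∈ S.L := by
  obtain ⟨κ, hκ, hbox⟩ := EXIT.box D x₁ h
  obtain ⟨o, ho, hoκ⟩ : ∃ o : ℝ, |o| = 1 ∧ 0 < o * κ.im := by
    rcases lt_or_gt_of_ne hκ with h | h
    · exact ⟨-1, by simp, by linarith⟩
    · exact ⟨1, by simp, by linarith⟩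
  set q : ℝ := o * κ.im with hq
  set c : ℂ := -(o * Complex.I) with hc
  have hcn : ‖c‖ = 1 := by
    rw [hc, norm_neg, norm_mul, Complex.norm_real, Complex.norm_I, mul_one, Real.norm_eq_abs, ho]
  have hcκ : (c * κ).re = q := by
    rw [hc, hq]; simp
  have hcre : c.re = 0 := by rw [hc]; simp
  obtain ⟨r1, hr1, hb1, hb2, hb3⟩ := hbox (q / 2) (by positivity)
  -- constants
  set δ : ℝ := r1 / 2 with hδ
  have hδ0 : 0 < δ := by positivity
  obtain ⟨ε2, hε2, hε2ε, hsε⟩ : ∃ ε2 > 0, ε2 ≤ ε ∧ ∀ y : ℂ, ‖y‖ < ε2 → y ∈ ball (0 : ℂ) ε ∧ ‖s y - x₁‖ < δ := by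
    have h1 : ContinuousAt s 0 := (hs.differentiableAt (isOpen_ball.mem_nhds (mem_ball_self hε))).continuousAt
    have h2 : ∀ᶠ y in 𝓝 (0 : ℂ), dist (s y) (s 0) < δ := Metric.tendsto_nhds.1 h1 δ hδ0
    obtain ⟨e, he, H⟩ := Metric.eventually_nhds_iff.1 h2
    refine ⟨min e ε, by positivity, min_le_right _ _, fun y hy => ⟨?_, ?_⟩⟩
    · rw [mem_ball_zero_iff]; exact hy.trans_le (min_le_right _ _)
    · have := H (y := y) (by rw [dist_zero_right]; exact hy.trans_le (min_le_left _ _))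
      rwa [hs0, dist_eq_norm] at this
  set ε' : ℝ := min ε2 r1 / 2 with hε'
  have hε'0 : 0 < ε' := by positivity
  set Kc : ℝ := ‖κ‖ + q / 2 with hKc
  have hKc0 : 0 < Kc := by positivity
  set r0 : ℝ := min (1 / 2) (min (δ / 4) (1 / (2 * Kc))) with hr0
  have hr00 : 0 < r0 := by positivity
  have hr0a : r0 ≤ 1 / 2 := min_le_left _ _
  have hr0b : r0 ≤ δ / 4 := (min_le_right _ _).trans (min_le_left _ _)
  have hr0c : Kc * r0 ≤ 1 / 2 := by
    have : r0 ≤ 1 / (2 * Kc) := (min_le_right _ _).trans (min_le_right _ _)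
    rw [le_div_iff₀ (by positivity)] at this
    linarith
  have hexp : ∀ e : ℂ, ‖e‖ < r0 → ∀ y : ℂ, ‖y‖ < ε' → ‖y * Complex.exp e‖ < min ε2 r1 := by
    intro e he y hy
    have h1 : Real.exp e.re ≤ 2 := by
      have h2 : e.re ≤ Real.log 2 := by
        have := (Complex.re_le_norm e)
        have := Real.log_two_gt_d9
        linarith
      calc Real.exp e.re ≤ Real.exp (Real.log 2) := Real.exp_le_exp.2 h2
        _ = 2 := Real.exp_log (by norm_num)
    rw [norm_mul, Complex.norm_exp]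
    have h3 := Real.exp_pos e.re
    have h4 : ‖y‖ * Real.exp e.re ≤ ‖y‖ * 2 := mul_le_mul_of_nonneg_left h1 (norm_nonneg _)
    rw [hε'] at hy
    linarith
  -- one step
  have hstep : ∀ x y : ℂ, ‖x - x₁‖ < δ / 2 → y ≠ 0 → ‖y‖ < ε' → pt x y ∈ S.L →
      ∃ x' y' : ℂ, ‖x' - x‖ ≤ δ / 4 ∧ y' ≠ 0 ∧ ‖y'‖ = ‖y‖ ∧ pt x' y' ∈ S.L ∧
        ‖x - s y‖ ^ 2 * Real.exp (q * (r0 / 2)) ≤ ‖x' - s y'‖ ^ 2 := by
    intro x y hx hy0 hy hmem
    have hinb : ∀ w ∈ closedBall x (δ / 4), ‖w - x₁‖ < r1 := by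
      intro w hw
      rw [mem_closedBall, dist_eq_norm] at hw
      have : ‖w - x₁‖ ≤ ‖w - x‖ + ‖x - x₁‖ := by
        have := norm_add_le (w - x) (x - x₁); simpa using this
      have h5 : δ = r1 / 2 := hδ
      linarith
    have hye : ∀ e ∈ ball (0 : ℂ) r0, ‖y * Complex.exp e‖ < min ε2 r1 := by
      intro e he
      exact hexp e (by simpa using he) y hy
    obtain ⟨φ, hφ0, hφ⟩ := ode_exists (0 : ℂ) r0 hr00 x (δ / 4) 1 Kc (by positivity)
      (fun e x => D.aF x (y * Complex.exp e) / D.bF x (y * Complex.exp e))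
      (by
        intro φ hφd hφb e he
        have hd : DifferentiableAt ℂ φ e := hφd.differentiableAt (isOpen_ball.mem_nhds he)
        have h1 := (hb1 (φ e) (hinb _ (hφb e he)) _ ((hye e he).trans_le (min_le_right _ _))).1
        have h2 : DifferentiableAt ℂ (fun e => y * Complex.exp e) e :=
          (differentiableAt_id.cexp).const_mul y
        exact ((diff_aF D hd h2).div (diff_bF D hd h2) h1).differentiableWithinAt)
      (by
        intro e he w hw
        exact (hb1 w (hinb w hw) _ ((hye e he).trans_le (min_le_right _ _))).2)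
      (by rw [one_mul]; exact hr0b)
      (by
        intro e he w hw w' hw'
        have h1 := hb2 w w' (y * Complex.exp e) (hinb w hw) (hinb w' hw')
          ((hye e he).trans_le (min_le_right _ _))
        have h2 : ‖D.aF w (y * Complex.exp e) / D.bF w (y * Complex.exp e) -
            D.aF w' (y * Complex.exp e) / D.bF w' (y * Complex.exp e)‖ ≤
            ‖D.aF w (y * Complex.exp e) / D.bF w (y * Complex.exp e) -
            D.aF w' (y * Complex.exp e) / D.bF w' (y * Complex.exp e) - κ * (w - w')‖ +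
              ‖κ * (w - w')‖ := by
          have := norm_add_le (D.aF w (y * Complex.exp e) / D.bF w (y * Complex.exp e) -
            D.aF w' (y * Complex.exp e) / D.bF w' (y * Complex.exp e) - κ * (w - w')) (κ * (w - w'))
          simpa using this
        rw [norm_mul] at h2
        rw [hKc]
        nlinarith)
      hr0c
    -- the curve lies in the leaf
    have hloc : S.Loc (fun e => pt (φ e) (y * Complex.exp e)) 0 r0 := by
      refine hS.sat 0 r0 _ (fun e => (y * Complex.exp e) ^ (D.d - 1) /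
        D.bF (φ e) (y * Complex.exp e)) ?_ ?_ ⟨0, mem_ball_self hr00, ?_⟩
      · intro e he
        obtain ⟨h1, h2⟩ := hφ e he
        have h3 : DifferentiableAt ℂ (fun e => y * Complex.exp e) e :=
          (differentiableAt_id.cexp).const_mul y
        have h4 := (hb1 (φ e) (hinb _ h1) _ ((hye e he).trans_le (min_le_right _ _))).1
        exact ((h3.pow _).div (diff_bF D h2.differentiableAt h3) h4).differentiableWithinAt
      · intro e he
        obtain ⟨h1, h2⟩ := hφ e he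
        have h4 := (hb1 (φ e) (hinb _ h1) _ ((hye e he).trans_le (min_le_right _ _))).1
        have hyne : y * Complex.exp e ≠ 0 := mul_ne_zero hy0 (Complex.exp_ne_zero _)
        have h3 : HasDerivAt (fun e => y * Complex.exp e) (y * Complex.exp e) e := by
          simpa using ((hasDerivAt_id e).cexp).const_mul y
        have hd := D.hd
        have hpow : (y * Complex.exp e) ^ D.d = (y * Complex.exp e) ^ (D.d - 1) * (y * Complex.exp e) := by
          rw [← pow_succ]; congr 1; omega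
        have e1 : HasDerivAt (fun e => 1 / (y * Complex.exp e)) (-(1 / (y * Complex.exp e))) e := by
          have := h3.fun_inv hyne
          simp only [one_div]
          refine this.congr_deriv ?_
          field_simp
        have e2 : HasDerivAt (fun e => φ e / (y * Complex.exp e))
            ((D.aF (φ e) (y * Complex.exp e) / D.bF (φ e) (y * Complex.exp e) - φ e) /
              (y * Complex.exp e)) e := by
          have := h2.fun_div h3 hyne
          refine this.congr_deriv ?_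
          field_simp
        have e3 : HasDerivAt (fun e => pt (φ e) (y * Complex.exp e)) _ e := e1.prodMk e2
        refine e3.congr_deriv ?_
        show _ = ((y * Complex.exp e) ^ (D.d - 1) / D.bF (φ e) (y * Complex.exp e)) •
          v (1 / (y * Complex.exp e), φ e / (y * Complex.exp e))
        rw [hv (φ e) (y * Complex.exp e) hyne, hpow]
        generalize y * Complex.exp e = Y at *
        ext
        · simp only [Prod.smul_fst, smul_eq_mul]
          field_simp
        · simp only [Prod.smul_snd, smul_eq_mul]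
          field_simp
      · simp only [hφ0, Complex.exp_zero, mul_one]
        exact hmem
    -- the separatrix in the same coordinate
    have hsep : ∀ e ∈ ball (0 : ℂ) r0, HasDerivAt (fun e => s (y * Complex.exp e))
        (D.aF (s (y * Complex.exp e)) (y * Complex.exp e) /
          D.bF (s (y * Complex.exp e)) (y * Complex.exp e)) e := by
      intro e he
      have h1 := hsε (y * Complex.exp e) ((hye e he).trans_le (min_le_left _ _))
      have h2 : HasDerivAt s (deriv s (y * Complex.exp e)) (y * Complex.exp e) :=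
        (hs.differentiableAt (isOpen_ball.mem_nhds h1.1)).hasDerivAt
      have h3 : HasDerivAt (fun e => y * Complex.exp e) (y * Complex.exp e) e := by
        simpa using ((hasDerivAt_id e).cexp).const_mul y
      have h4 := h2.comp_of_eq e h3 rfl
      refine h4.congr_deriv ?_
      have h5 := hse _ h1.1
      have h6 := (hb1 (s (y * Complex.exp e)) (h1.2.trans (by rw [hδ]; linarith)) _
        ((hye e he).trans_le (min_le_right _ _))).1
      rw [← h5]
      field_simp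
    set X : ℝ → ℂ := fun t => φ (c * t) - s (y * Complex.exp (c * t)) with hX
    have hct : ∀ t ∈ Icc (0 : ℝ) (r0 / 2), c * (t : ℂ) ∈ ball (0 : ℂ) r0 := by
      intro t ht
      rw [mem_ball_zero_iff, norm_mul, hcn, one_mul, Complex.norm_real, Real.norm_eq_abs,
        abs_of_nonneg ht.1]
      have := ht.2
      linarith
    have hgr := EXIT.growth (X := X) (X' := fun t => (D.aF (φ (c * t)) (y * Complex.exp (c * t)) /
          D.bF (φ (c * t)) (y * Complex.exp (c * t)) -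
          D.aF (s (y * Complex.exp (c * t))) (y * Complex.exp (c * t)) /
          D.bF (s (y * Complex.exp (c * t))) (y * Complex.exp (c * t))) * c)
      (c := c) (κ := κ) (μ := q / 2) (q := q) (h := r0 / 2) (by positivity) hcκ.ge hcn ?_ ?_ (by linarith)
    · refine ⟨φ (c * (r0 / 2 : ℝ)), y * Complex.exp (c * (r0 / 2 : ℝ)), ?_, ?_, ?_, ?_, ?_⟩
      · have := (hφ _ (hct (r0 / 2) ⟨by positivity, le_rfl⟩)).1
        rwa [mem_closedBall, dist_eq_norm] at this
      · exact mul_ne_zero hy0 (Complex.exp_ne_zero _)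
      · rw [norm_mul, Complex.norm_exp]
        have : (c * ((r0 / 2 : ℝ) : ℂ)).re = 0 := by
          rw [Complex.re_mul_ofReal, hcre, zero_mul]
        rw [this, Real.exp_zero, mul_one]
      · exact (hloc _ (hct (r0 / 2) ⟨by positivity, le_rfl⟩)).1
      · have h1 : X 0 = x - s y := by
          simp only [hX, Complex.ofReal_zero, mul_zero, hφ0, Complex.exp_zero, mul_one]
        rw [h1] at hgr
        exact hgr
    · intro t ht
      have h1 := (hφ _ (hct t ht)).2
      have h2 := hsep _ (hct t ht)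
      have h3 : HasDerivAt (fun t : ℝ => c * (t : ℂ)) c t := by
        simpa using ((Complex.ofRealCLM.hasDerivAt (x := t)).const_mul c)
      exact (h1.sub h2).comp_of_eq t h3 rfl
    · intro t ht
      have h1 := (hφ _ (hct t ht)).1
      have h3 := hsε (y * Complex.exp (c * t)) ((hye _ (hct t ht)).trans_le (min_le_left _ _))
      have h4 := hb2 (φ (c * t)) (s (y * Complex.exp (c * t))) (y * Complex.exp (c * t))
        (hinb _ h1) (h3.2.trans (by rw [hδ]; linarith)) ((hye _ (hct t ht)).trans_le (min_le_right _ _))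
      have h5 : (D.aF (φ (c * t)) (y * Complex.exp (c * t)) /
          D.bF (φ (c * t)) (y * Complex.exp (c * t)) -
          D.aF (s (y * Complex.exp (c * t))) (y * Complex.exp (c * t)) /
          D.bF (s (y * Complex.exp (c * t))) (y * Complex.exp (c * t))) * c - c * κ * X t =
          c * (D.aF (φ (c * t)) (y * Complex.exp (c * t)) /
          D.bF (φ (c * t)) (y * Complex.exp (c * t)) -
          D.aF (s (y * Complex.exp (c * t))) (y * Complex.exp (c * t)) /
          D.bF (s (y * Complex.exp (c * t))) (y * Complex.exp (c * t)) -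
            κ * (φ (c * t) - s (y * Complex.exp (c * t)))) := by
        simp only [hX]; ring
      rw [h5, norm_mul, hcn, one_mul]
      exact h4
  -- iteration
  refine ⟨δ, hδ0, ε', hε'0, ?_, fun x hx hx' => hb3 x hx (by rw [hδ] at hx'; linarith), ?_⟩
  · rw [hε']
    have := min_le_left ε2 r1
    linarith
  · intro x y hx hy0 hy hmem hne
    by_contra hcon
    push Not at hcon
    have hiter : ∀ n : ℕ, ∃ x' y' : ℂ, ‖x' - x₁‖ < δ / 2 ∧ y' ≠ 0 ∧ ‖y'‖ = ‖y‖ ∧ pt x' y' ∈ S.L ∧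
        ‖x - s y‖ ^ 2 * Real.exp (q * (r0 / 2)) ^ n ≤ ‖x' - s y'‖ ^ 2 := by
      intro n
      induction n with
      | zero =>
        refine ⟨x, y, ?_, hy0, rfl, hmem, by simp⟩
        by_contra h
        exact hcon x y (not_lt.1 h) hx.le hy0 le_rfl hmem
      | succ n ih =>
        obtain ⟨x', y', h1, h2, h3, h4, h5⟩ := ih
        obtain ⟨x2, y2, g1, g2, g3, g4, g5⟩ := hstep x' y' h1 h2 (by rw [h3]; exact hy) h4
        refine ⟨x2, y2, ?_, g2, g3.trans h3, g4, ?_⟩
        · by_contra h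
          refine hcon x2 y2 (not_lt.1 h) ?_ g2 (g3.trans h3).le g4
          have : ‖x2 - x₁‖ ≤ ‖x2 - x'‖ + ‖x' - x₁‖ := by
            have := norm_add_le (x2 - x') (x' - x₁); simpa using this
          linarith
        · rw [pow_succ (Real.exp _), ← mul_assoc]
          exact (mul_le_mul_of_nonneg_right h5 (Real.exp_pos _).le).trans g5
    have hX0 : 0 < ‖x - s y‖ ^ 2 := by
      have := norm_pos_iff.2 (sub_ne_zero.2 hne)
      positivity
    have hgt : 1 < Real.exp (q * (r0 / 2)) := Real.one_lt_exp_iff.2 (by positivity)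
    obtain ⟨n, hn⟩ := pow_unbounded_of_one_lt ((4 * δ ^ 2) / ‖x - s y‖ ^ 2) hgt
    obtain ⟨x', y', h1, h2, h3, h4, h5⟩ := hiter n
    rw [div_lt_iff₀ hX0] at hn
    have h6 : ‖s y' - x₁‖ < δ := (hsε y' (by
      rw [h3]
      have : ε' ≤ ε2 := by
        rw [hε']
        have := min_le_left ε2 r1
        linarith
      linarith)).2
    have h7 : ‖x' - s y'‖ ≤ 2 * δ := by
      have : ‖x' - s y'‖ ≤ ‖x' - x₁‖ + ‖s y' - x₁‖ := by
        have := norm_sub_le (x' - x₁) (s y' - x₁); simpa using this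
      linarith
    have h8 : ‖x' - s y'‖ ^ 2 ≤ (2 * δ) ^ 2 := pow_le_pow_left₀ (norm_nonneg _) h7 2
    nlinarith

end Pool.Agent.H210.Gr
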