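import Pool.Agent.H210.Green.ODE

set_option autoImplicit false

namespace Pool.Agent.H210.Gr

open Metric Set MeasureTheory Topology Filter
open scoped Laplacian ContDiff

namespace GRAPH

variable (D : InfD)

theorem continuous_aF : Continuous (fun p : ℂ × ℂ => D.aF p.1 p.2) := by
  unfold InfD.aF
  exact continuous_finsetSum _ fun i _ =>
    ((D.a i).continuous.comp continuous_fst).mul (continuous_snd.pow i)

theorem continuous_bF : Continuous (fun p : ℂ × ℂ => D.bF p.1 p.2) := by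
  unfold InfD.bF
  exact continuous_finsetSum _ fun i _ =>
    ((D.b i).continuous.comp continuous_fst).mul (continuous_snd.pow i)

theorem diff_aF {f g : ℂ → ℂ} {x : ℂ} (hf : DifferentiableAt ℂ f x) (hg : DifferentiableAt ℂ g x) :
    DifferentiableAt ℂ (fun x => D.aF (f x) (g x)) x := by
  unfold InfD.aF
  exact DifferentiableAt.fun_sum fun i _ =>
    (((D.a i).differentiable _).comp x hf).mul (hg.pow i)

theorem diff_bF {f g : ℂ → ℂ} {x : ℂ} (hf : DifferentiableAt ℂ f x) (hg : DifferentiableAt ℂ g x) :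
    DifferentiableAt ℂ (fun x => D.bF (f x) (g x)) x := by
  unfold InfD.bF
  exact DifferentiableAt.fun_sum fun i _ =>
    (((D.b i).differentiable _).comp x hf).mul (hg.pow i)

theorem contDiff_aF : ContDiff ℂ 1 (fun p : ℂ × ℂ => D.aF p.1 p.2) := by
  unfold InfD.aF
  exact ContDiff.sum fun i _ =>
    ((D.a i).differentiable.contDiff.comp contDiff_fst).mul (contDiff_snd.pow i)

theorem contDiff_bF : ContDiff ℂ 1 (fun p : ℂ × ℂ => D.bF p.1 p.2) := by
  unfold InfD.bF
  exact ContDiff.sum fun i _ =>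
    ((D.b i).differentiable.contDiff.comp contDiff_fst).mul (contDiff_snd.pow i)

theorem aF_zero (x : ℂ) : D.aF x 0 = D.A.eval x := by
  unfold InfD.aF InfD.A
  rw [Finset.sum_eq_single 0]
  · simp
  · intro i _ hi; simp [hi]
  · intro h; simp at h

theorem bF_zero (x : ℂ) : D.bF x 0 = D.β.eval x := by
  unfold InfD.bF InfD.β
  rw [Finset.sum_eq_single 0]
  · simp
  · intro i _ hi; simp [hi]
  · intro h; simp at h

/-- uniform nonvanishing of `a` near a compact set -/
theorem exists_tube {K : Set ℂ} (hK : IsCompact K) (hKA : ∀ x ∈ K, D.A.eval x ≠ 0) :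
    ∃ ε0 > 0, ∃ M : ℝ, 0 ≤ M ∧ ∀ x ∈ K, ∀ y : ℂ, ‖y‖ ≤ ε0 → D.aF x y ≠ 0 ∧ ‖D.bF x y / D.aF x y‖ ≤ M := by
  have hO : IsOpen {p : ℂ × ℂ | D.aF p.1 p.2 ≠ 0} := isOpen_ne_fun (continuous_aF D) continuous_const
  obtain ⟨u, v, hu, hv, hKu, h0v, huv⟩ := generalized_tube_lemma hK (isCompact_singleton (x := (0 : ℂ))) hO
    (by
      rintro ⟨x, y⟩ ⟨hx, hy⟩
      simp only [mem_singleton_iff] at hy
      subst hy
      simp only [mem_ofPred_eq, aF_zero]
      exact hKA x hx)
  obtain ⟨e, he, hev⟩ := Metric.isOpen_iff.1 hv 0 (h0v rfl)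
  have hsub : ∀ x ∈ K, ∀ y : ℂ, ‖y‖ ≤ e / 2 → D.aF x y ≠ 0 := by
    intro x hx y hy
    have : (x, y) ∈ u ×ˢ v := ⟨hKu hx, hev (by rw [mem_ball_zero_iff]; linarith)⟩
    exact huv this
  have hc : IsCompact (K ×ˢ closedBall (0 : ℂ) (e / 2)) := hK.prod (isCompact_closedBall _ _)
  have hcont : ContinuousOn (fun p : ℂ × ℂ => D.bF p.1 p.2 / D.aF p.1 p.2) (K ×ˢ closedBall (0 : ℂ) (e / 2)) := by
    refine (continuous_bF D).continuousOn.div (continuous_aF D).continuousOn ?_
    rintro ⟨x, y⟩ ⟨hx, hy⟩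
    exact hsub x hx y (by simpa using hy)
  obtain ⟨M, hM⟩ := hc.exists_bound_of_continuousOn hcont
  refine ⟨e / 2, by positivity, |M|, abs_nonneg _, fun x hx y hy => ⟨hsub x hx y hy, ?_⟩⟩
  exact (hM (x, y) ⟨hx, by simpa using hy⟩).trans (le_abs_self M)

/-- Lipschitz bound of `b / a` in `y` -/
theorem lip_y {x : ℂ} {ε0 M : ℝ} (hε0 : 0 < ε0)
    (h : ∀ y : ℂ, ‖y‖ ≤ ε0 → D.aF x y ≠ 0 ∧ ‖D.bF x y / D.aF x y‖ ≤ M) {y y' : ℂ} (hy : ‖y‖ ≤ ε0 / 2)
    (hy' : ‖y'‖ ≤ ε0 / 2) :
    ‖D.bF x y / D.aF x y - D.bF x y' / D.aF x y'‖ ≤ 2 * M / ε0 * ‖y - y'‖ := by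
  have hd : ∀ y : ℂ, ‖y‖ ≤ ε0 → DifferentiableAt ℂ (fun y => D.bF x y / D.aF x y) y := by
    intro y hy
    exact (diff_bF D (differentiableAt_const x) differentiableAt_id).div
      (diff_aF D (differentiableAt_const x) differentiableAt_id) (h y hy).1
  have hder : ∀ z ∈ closedBall (0 : ℂ) (ε0 / 2), ‖deriv (fun y => D.bF x y / D.aF x y) z‖ ≤ 2 * M / ε0 := by
    intro z hz
    rw [mem_closedBall_zero_iff] at hz
    have h1 := Complex.norm_deriv_le_of_forall_mem_sphere_norm_le (c := z) (R := ε0 / 2) (C := M)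
      (f := fun y => D.bF x y / D.aF x y) (by positivity)
      (by
        refine DifferentiableOn.diffContOnCl fun w hw => (hd w ?_).differentiableWithinAt
        rw [closure_ball _ (by positivity), mem_closedBall, dist_eq_norm] at hw
        calc ‖w‖ = ‖(w - z) + z‖ := by ring_nf
          _ ≤ ‖w - z‖ + ‖z‖ := norm_add_le _ _
          _ ≤ ε0 := by linarith)
      (by
        intro w hw
        rw [mem_sphere, dist_eq_norm] at hw
        refine (h w ?_).2
        calc ‖w‖ = ‖(w - z) + z‖ := by ring_nf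
          _ ≤ ‖w - z‖ + ‖z‖ := norm_add_le _ _
          _ ≤ ε0 := by linarith)
    refine h1.trans (le_of_eq ?_)
    field_simp
  exact Convex.norm_image_sub_le_of_norm_deriv_le (s := closedBall (0 : ℂ) (ε0 / 2))
    (fun z hz => hd z (by rw [mem_closedBall_zero_iff] at hz; linarith)) hder (convex_closedBall _ _)
    (by simpa using hy') (by simpa using hy)

theorem exp_sub_le {φ φ' : ℂ} {ρ : ℝ} (h : ‖φ‖ ≤ ρ) (h' : ‖φ'‖ ≤ ρ) :
    ‖Complex.exp φ - Complex.exp φ'‖ ≤ Real.exp ρ * ‖φ - φ'‖ := by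
  refine Convex.norm_image_sub_le_of_norm_deriv_le (s := closedBall (0 : ℂ) ρ)
    (fun z _ => Complex.differentiableAt_exp) ?_ (convex_closedBall _ _) (by simpa using h') (by simpa using h)
  intro z hz
  rw [Complex.deriv_exp, Complex.norm_exp]
  rw [mem_closedBall_zero_iff] at hz
  exact Real.exp_le_exp.2 ((Complex.re_le_norm z).trans hz)

end GRAPH

open GRAPH

theorem graph_disc (D : InfD) (K : Set ℂ) (hK : IsCompact K) (hKA : ∀ x ∈ K, D.A.eval x ≠ 0) :
    ∃ R0 > 0, ∀ R, 0 < R → R ≤ R0 → ∃ ε > 0, ∀ x0 ∈ K,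
      (∀ x ∈ ball x0 R, D.A.eval x ≠ 0) ∧
      ∀ x1 ∈ ball x0 R, ∀ y1 : ℂ, y1 ≠ 0 → ‖y1‖ < ε → ∃ η : ℂ → ℂ, η x1 = y1 ∧ D.Sol η x0 R ∧
        ∀ x ∈ ball x0 R, ‖η x‖ ≤ 2 * ‖y1‖ ∧ ‖y1‖ ≤ 2 * ‖η x‖ := by
  have hOo : IsOpen {x : ℂ | D.A.eval x ≠ 0} := isOpen_ne_fun (Polynomial.continuous _) continuous_const
  obtain ⟨δ, hδ, hsub⟩ := hK.exists_cthickening_subset_open hOo (show K ⊆ _ from hKA)
  obtain ⟨ε0, hε0, M, hM0, hM⟩ := exists_tube D hK.cthickening (fun x hx => hsub hx)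
  have hl2 : 0 < Real.log 2 := Real.log_pos (by norm_num)
  refine ⟨min (δ / 3) (Real.log 2 / (2 * (M + 1))), by positivity, fun R hR hRR => ?_⟩
  have hR1 : R ≤ δ / 3 := hRR.trans (min_le_left _ _)
  have hR2 : R ≤ Real.log 2 / (2 * (M + 1)) := hRR.trans (min_le_right _ _)
  rw [le_div_iff₀ (by positivity)] at hR2
  set ε : ℝ := min (ε0 / 4) (1 / (8 * (2 * M / ε0 * R + 1))) with hε
  have hε0' : 0 < ε := by positivity
  refine ⟨ε, hε0', fun x0 hx0 => ⟨?_, ?_⟩⟩
  · intro x hx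
    refine hsub (closedBall_subset_cthickening hx0 δ ?_)
    exact ball_subset_closedBall (ball_subset_ball (by linarith) hx)
  intro x1 hx1 y1 hy1 hy1ε
  have hy1a : ‖y1‖ < ε0 / 4 := hy1ε.trans_le (min_le_left _ _)
  have hy1b : ‖y1‖ < 1 / (8 * (2 * M / ε0 * R + 1)) := hy1ε.trans_le (min_le_right _ _)
  rw [lt_div_iff₀ (by positivity)] at hy1b
  -- the ball around x1
  have hballK : ∀ x ∈ ball x1 (2 * R), x ∈ cthickening δ K := by
    intro x hx
    refine closedBall_subset_cthickening hx0 δ ?_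
    rw [mem_closedBall]
    rw [mem_ball] at hx hx1
    have := dist_triangle x x1 x0
    linarith
  have hexp : ∀ φ : ℂ, ‖φ‖ ≤ Real.log 2 → ‖y1 * Complex.exp φ‖ ≤ 2 * ‖y1‖ := by
    intro φ hφ
    rw [norm_mul, Complex.norm_exp]
    have : Real.exp φ.re ≤ 2 := by
      rw [← Real.exp_log (show (0 : ℝ) < 2 by norm_num)]
      exact Real.exp_le_exp.2 ((Complex.re_le_norm φ).trans hφ)
    nlinarith [norm_nonneg y1]
  obtain ⟨φ, hφ0, hφ⟩ := ode_exists x1 (2 * R) (by positivity) (0 : ℂ) (Real.log 2) M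
    (2 * M / ε0 * (‖y1‖ * 2)) hl2.le (fun x φ => D.bF x (y1 * Complex.exp φ) / D.aF x (y1 * Complex.exp φ))
    (by
      intro φ hφd hφb x hx
      have hd : DifferentiableAt ℂ φ x := hφd.differentiableAt (isOpen_ball.mem_nhds hx)
      have h1 := (hM x (hballK x hx) (y1 * Complex.exp (φ x)) (by
        have := hexp (φ x) (by simpa using hφb x hx)
        linarith)).1
      have h2 : DifferentiableAt ℂ (fun x => y1 * Complex.exp (φ x)) x := (hd.cexp).const_mul y1
      exact ((diff_bF D differentiableAt_id h2).div (diff_aF D differentiableAt_id h2) h1).differentiableWithinAt)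
    (by
      intro x hx y hy
      refine (hM x (hballK x hx) (y1 * Complex.exp y) ?_).2
      have := hexp y (by simpa using hy)
      linarith)
    (by nlinarith)
    (by
      intro x hx y hy y' hy'
      have e1 := hexp y (by simpa using hy)
      have e2 := hexp y' (by simpa using hy')
      have h1 := lip_y D (x := x) hε0 (fun y hy => hM x (hballK x hx) y hy)
        (y := y1 * Complex.exp y) (y' := y1 * Complex.exp y') (by linarith) (by linarith)
      have h2 := exp_sub_le (φ := y) (φ' := y') (ρ := Real.log 2) (by simpa using hy) (by simpa using hy')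
      rw [Real.exp_log (by norm_num)] at h2
      refine h1.trans ?_
      rw [← mul_sub, norm_mul]
      have h3 : 0 ≤ 2 * M / ε0 := by positivity
      calc 2 * M / ε0 * (‖y1‖ * ‖Complex.exp y - Complex.exp y'‖)
          ≤ 2 * M / ε0 * (‖y1‖ * (2 * ‖y - y'‖)) := by gcongr
        _ = 2 * M / ε0 * (‖y1‖ * 2) * ‖y - y'‖ := by ring)
    (by
      have h3 : 0 ≤ 2 * M / ε0 := by positivity
      have h4 : 0 ≤ 2 * M / ε0 * R := by positivity
      nlinarith [norm_nonneg y1])
  have hsubR : ball x0 R ⊆ ball x1 (2 * R) := by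
    refine ball_subset_ball' ?_
    rw [mem_ball] at hx1
    rw [dist_comm] at hx1
    linarith
  refine ⟨fun x => y1 * Complex.exp (φ x), by simp [hφ0], ?_, ?_⟩
  · intro x hx
    obtain ⟨h1, h2⟩ := hφ x (hsubR hx)
    refine ⟨mul_ne_zero hy1 (Complex.exp_ne_zero _), ?_, ?_⟩
    · refine (hM x (hballK x (hsubR hx)) _ ?_).1
      have := hexp (φ x) (by simpa using h1)
      linarith
    · have h3 := (h2.cexp).const_mul y1
      refine h3.congr_deriv ?_
      beta_reduce
      ring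
  · intro x hx
    obtain ⟨h1, _⟩ := hφ x (hsubR hx)
    have h2 : ‖φ x‖ ≤ Real.log 2 := by simpa using h1
    refine ⟨hexp _ h2, ?_⟩
    simp only [norm_mul, Complex.norm_exp]
    have h3 : -Real.log 2 ≤ (φ x).re := by
      have := (abs_le.1 ((Complex.abs_re_le_norm (φ x)).trans h2)).1
      exact this
    have h4 : Real.exp (-Real.log 2) ≤ Real.exp (φ x).re := Real.exp_le_exp.2 h3
    rw [Real.exp_neg, Real.exp_log (by norm_num)] at h4
    nlinarith [norm_nonneg y1]

theorem sol_unique (D : InfD) {η η' : ℂ → ℂ} {c : ℂ} {R : ℝ} (h : D.Sol η c R) (h' : D.Sol η' c R)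
    {x0 : ℂ} (hx0 : x0 ∈ ball c R) (he : η x0 = η' x0) : ∀ x ∈ ball c R, η x = η' x := by
  refine ode_unique isOpen_ball (convex_ball c R).isPreconnected
    (fun x y => y * D.bF x y / D.aF x y) η η' (fun x hx => (h x hx).2.2) (fun x hx => (h' x hx).2.2) ?_ hx0 he
  intro x hx hxe
  obtain ⟨h1, h2, h3⟩ := h x hx
  have h4 := (h' x hx).2.2
  have hF : ContDiffAt ℂ 1 (fun p : ℂ × ℂ => p.2 * D.bF p.1 p.2 / D.aF p.1 p.2) (x, η x) :=
    (contDiffAt_snd.mul (contDiff_bF D).contDiffAt).div (contDiff_aF D).contDiffAt h2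
  obtain ⟨K, t, ht, hKt⟩ := hF.exists_lipschitzOnWith
  refine ⟨K, ?_⟩
  have c1 : Tendsto (fun x' => (x', η x')) (𝓝 x) (𝓝 (x, η x)) :=
    (continuousAt_id.prodMk h3.continuousAt)
  have c2 : Tendsto (fun x' => (x', η' x')) (𝓝 x) (𝓝 (x, η x)) := by
    rw [hxe]
    exact (continuousAt_id.prodMk h4.continuousAt)
  filter_upwards [c1 ht, c2 ht] with x' m1 m2
  have := hKt.dist_le_mul _ m1 _ m2
  rw [dist_eq_norm, dist_eq_norm] at this
  refine this.trans (le_of_eq ?_)
  congr 1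
  simp [Prod.norm_def]

theorem sol_conf (D : InfD) (v : ℂ × ℂ → ℂ × ℂ) (hv : D.Chart v) (S : TSurf (ℂ × ℂ)) (hS : IsLeaf v S)
    {η : ℂ → ℂ} {c : ℂ} {R : ℝ} (h : D.Sol η c R) {x0 : ℂ} (hx0 : x0 ∈ ball c R)
    (hmem : pt x0 (η x0) ∈ S.L) : S.Conf (fun x => pt x (η x)) c R := by
  refine ⟨?_, ?_⟩
  · intro x hx x' hx' he
    have h1 := (h x hx).1
    have h2 := (h x' hx').1
    simp only [pt, Prod.mk.injEq] at he
    obtain ⟨e1, e2⟩ := he
    have e3 : η x = η x' := by simpa using e1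
    rw [e3] at e2
    field_simp at e2
    exact e2
  · refine hS.sat c R _ (fun x => η x ^ (D.d - 1) / D.aF x (η x)) ?_ ?_ ⟨x0, hx0, hmem⟩
    · intro x hx
      obtain ⟨h1, h2, h3⟩ := h x hx
      exact ((h3.differentiableAt.pow _).div (diff_aF D differentiableAt_id h3.differentiableAt)
        h2).differentiableWithinAt
    · intro x hx
      obtain ⟨h1, h2, h3⟩ := h x hx
      have hd := D.hd
      have hpow : η x ^ D.d = η x ^ (D.d - 1) * η x := by
        rw [← pow_succ]; congr 1; omega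
      have e1 : HasDerivAt (fun x => 1 / η x) (-(D.bF x (η x)) / (η x * D.aF x (η x))) x := by
        have := h3.fun_inv h1
        simp only [one_div]
        refine this.congr_deriv ?_
        field_simp
      have e2 : HasDerivAt (fun x => x / η x) ((D.aF x (η x) - x * D.bF x (η x)) / (η x * D.aF x (η x))) x := by
        have := (hasDerivAt_id x).fun_div h3 h1
        simp only [id] at this
        refine this.congr_deriv ?_
        field_simp
      have e3 : HasDerivAt (fun x => pt x (η x)) _ x := e1.prodMk e2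
      refine e3.congr_deriv ?_
      show _ = (η x ^ (D.d - 1) / D.aF x (η x)) • v (1 / η x, x / η x)
      rw [hv x (η x) h1, hpow]
      ext
      · simp only [Prod.smul_fst, smul_eq_mul]
        field_simp
      · simp only [Prod.smul_snd, smul_eq_mul]
        field_simp

end Pool.Agent.H210.Gr
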