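import Pool.Agent.H210.Green.Defs

/-! Task HOM (algebraic part) of the proof of S05669: the affine foliation of a projective one and
its eigenvalues. -/

set_option autoImplicit false

namespace Pool.Agent.H210.Gr.HOM

open MvPolynomial (X C pderiv eval)

/-- derivative of a polynomial along a curve -/
theorem hasDerivAt_eval {σ : Type} [Fintype σ] (f : MvPolynomial σ ℂ) (x : ℂ → σ → ℂ) (x' : σ → ℂ)
    (t : ℂ) (h : ∀ i, HasDerivAt (fun t => x t i) (x' i) t) :
    HasDerivAt (fun t => eval (x t) f) (∑ j, eval (x t) (pderiv j f) * x' j) t := by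
  classical
  induction f using MvPolynomial.induction_on with
  | C a => simpa using hasDerivAt_const t a
  | add p q hp hq =>
    simp only [map_add, add_mul, Finset.sum_add_distrib]
    exact hp.add hq
  | mul_X p i hp =>
    simp only [map_mul, MvPolynomial.eval_X]
    refine (hp.mul (h i)).congr_deriv ?_
    have : ∀ j, eval (x t) (pderiv j (p * X i)) * x' j =
        eval (x t) (pderiv j p) * x' j * x t i + eval (x t) p * (if i = j then x' j else 0) := by
      intro j
      rw [MvPolynomial.pderiv_mul, MvPolynomial.pderiv_X]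
      simp only [map_add, map_mul, MvPolynomial.eval_X, Pi.single_apply]
      split_ifs <;> simp_all <;> ring
    simp only [this, Finset.sum_add_distrib, ← Finset.sum_mul, ← Finset.mul_sum]
    simp

theorem hasDerivAt_line {σ : Type} [Fintype σ] [DecidableEq σ] (f : MvPolynomial σ ℂ) (s : σ → ℂ) (j : σ) :
    HasDerivAt (fun t : ℂ => eval (s + t • (Pi.single j 1 : σ → ℂ)) f) (eval s (pderiv j f)) 0 := by
  have h := hasDerivAt_eval f (fun t : ℂ => s + t • (Pi.single j 1 : σ → ℂ)) (Pi.single j 1) 0 (fun i => by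
    have h1 : HasDerivAt (fun t : ℂ => s i + t * (Pi.single j (1 : ℂ) : σ → ℂ) i)
        (1 * (Pi.single j (1 : ℂ) : σ → ℂ) i) 0 := ((hasDerivAt_id (0 : ℂ)).mul_const _).const_add _
    simpa using h1)
  simpa [Pi.single_apply] using h

section

variable (F : Fin 3 → MvPolynomial (Fin 3) ℂ) {d : ℕ}

noncomputable def cf (i : Fin 3) (j : ℕ) : MvPolynomial (Fin 2) ℂ :=
  (MvPolynomial.finSuccEquiv ℂ 2 (F i)).coeff j

variable {F}

theorem cf_hom (hF : ∀ i, (F i).IsHomogeneous d) (i : Fin 3) {j : ℕ} (hj : j ≤ d) :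
    (cf F i j).IsHomogeneous (d - j) :=
  (hF i).finSuccEquiv_coeff_isHomogeneous j (d - j) (by omega)

theorem cf_zero (hF : ∀ i, (F i).IsHomogeneous d) (i : Fin 3) {j : ℕ} (hj : d < j) :
    cf F i j = 0 := by
  unfold cf
  apply Polynomial.coeff_eq_zero_of_natDegree_lt
  rw [MvPolynomial.natDegree_finSuccEquiv]
  refine (MvPolynomial.degreeOf_le_totalDegree _ _).trans_lt ?_
  exact (hF i).totalDegree_le.trans_lt hj

theorem eval_F (hF : ∀ i, (F i).IsHomogeneous d) (i : Fin 3) (z0 : ℂ) (z : Fin 2 → ℂ) :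
    eval (Fin.cons z0 z : Fin 3 → ℂ) (F i) = ∑ j ∈ Finset.range (d + 1), eval z (cf F i j) * z0 ^ j := by
  rw [MvPolynomial.eval_eq_eval_mv_eval', Polynomial.eval_eq_sum_range' (n := d + 1)]
  · refine Finset.sum_congr rfl fun j _ => ?_
    rw [Polynomial.coeff_map]
    rfl
  · refine (Polynomial.natDegree_map_le).trans_lt ?_
    rw [MvPolynomial.natDegree_finSuccEquiv]
    refine (MvPolynomial.degreeOf_le_totalDegree _ _).trans_lt ?_
    exact Nat.lt_succ_of_le (hF i).totalDegree_le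

/-- the first component vanishes on the line at infinity -/
def Inv (F : Fin 3 → MvPolynomial (Fin 3) ℂ) : Prop :=
  ∀ z : Fin 2 → ℂ, eval (Fin.cons 0 z : Fin 3 → ℂ) (F 0) = 0

theorem cf_00 (hF : ∀ i, (F i).IsHomogeneous d) (hI : Inv F) : cf F 0 0 = 0 := by
  apply MvPolynomial.funext
  intro z
  have := hI z
  rw [eval_F hF, Finset.sum_eq_single 0] at this
  · simpa using this
  · intro b _ hb
    simp [hb]
  · simp

variable (F) in
/-- homogeneous components of the affine vector field -/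
noncomputable def PP (d : ℕ) (i : Fin 2) (m : ℕ) : MvPolynomial (Fin 2) ℂ :=
  if m ≤ d then cf F i.succ (d - m) - X i * cf F 0 (d - m + 1) else 0

theorem PP_hom (hF : ∀ i, (F i).IsHomogeneous d) (i : Fin 2) (m : ℕ) : (PP F d i m).IsHomogeneous m := by
  unfold PP
  split_ifs with h
  · refine MvPolynomial.IsHomogeneous.sub ?_ ?_
    · have := cf_hom hF i.succ (j := d - m) (by omega)
      rwa [show d - (d - m) = m by omega] at this
    · rcases Nat.eq_zero_or_pos m with h0 | h0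
      · subst h0
        rw [cf_zero hF 0 (by omega), mul_zero]
        exact MvPolynomial.isHomogeneous_zero _ _ _
      · have h1 := cf_hom hF 0 (j := d - m + 1) (by omega)
        have h2 := (MvPolynomial.isHomogeneous_X ℂ i).mul h1
        rwa [show 1 + (d - (d - m + 1)) = m by omega] at h2
  · exact MvPolynomial.isHomogeneous_zero _ _ _

/-- the affine foliation -/
noncomputable def fol (hF : ∀ i, (F i).IsHomogeneous d) (hd : 2 ≤ d) : Fol where
  d := d
  hd := hd
  Pc := PP F d 0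
  Qc := PP F d 1
  hP := PP_hom hF 0
  hQ := PP_hom hF 1

theorem sum_PP (hF : ∀ i, (F i).IsHomogeneous d) (hI : Inv F) (i : Fin 2) (z : Fin 2 → ℂ) :
    eval z (∑ m ∈ Finset.range (d + 1), PP F d i m) =
      eval (Fin.cons 1 z : Fin 3 → ℂ) (F i.succ) - z i * eval (Fin.cons 1 z : Fin 3 → ℂ) (F 0) := by
  have h1 : eval z (∑ m ∈ Finset.range (d + 1), PP F d i m) =
      ∑ m ∈ Finset.range (d + 1), (eval z (cf F i.succ (d - m)) - z i * eval z (cf F 0 (d - m + 1))) := by
    rw [map_sum]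
    refine Finset.sum_congr rfl fun m hm => ?_
    rw [Finset.mem_range] at hm
    rw [PP, if_pos (by omega)]
    simp
  rw [h1]
  have h2 := Finset.sum_range_reflect (fun j => eval z (cf F i.succ j) - z i * eval z (cf F 0 (j + 1))) (d + 1)
  simp only [Nat.add_sub_cancel] at h2
  rw [h2, Finset.sum_sub_distrib, ← Finset.mul_sum, eval_F hF, eval_F hF]
  have h3 : ∑ j ∈ Finset.range (d + 1), eval z (cf F 0 (j + 1)) = ∑ j ∈ Finset.range (d + 1), eval z (cf F 0 j) := by
    have h4 := Finset.sum_range_succ' (fun j => eval z (cf F 0 j)) (d + 1)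
    rw [Finset.sum_range_succ] at h4
    simp only [cf_00 hF hI, cf_zero hF 0 (Nat.lt_succ_self d), map_zero, add_zero] at h4
    exact h4.symm
  rw [h3]
  simp

theorem fol_P (hF : ∀ i, (F i).IsHomogeneous d) (hd : 2 ≤ d) (hI : Inv F) (z : Fin 2 → ℂ) :
    eval z (fol hF hd).P = eval (Fin.cons 1 z : Fin 3 → ℂ) (F 1) - z 0 * eval (Fin.cons 1 z : Fin 3 → ℂ) (F 0) :=
  sum_PP hF hI 0 z

theorem fol_Q (hF : ∀ i, (F i).IsHomogeneous d) (hd : 2 ≤ d) (hI : Inv F) (z : Fin 2 → ℂ) :
    eval z (fol hF hd).Q = eval (Fin.cons 1 z : Fin 3 → ℂ) (F 2) - z 1 * eval (Fin.cons 1 z : Fin 3 → ℂ) (F 0) :=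
  sum_PP hF hI 1 z

theorem cons_line (z0 : ℂ) (s : Fin 2 → ℂ) (j : Fin 2) (t : ℂ) :
    (Fin.cons z0 (s + t • (Pi.single j 1 : Fin 2 → ℂ)) : Fin 3 → ℂ) =
      Fin.cons z0 s + t • (Pi.single j.succ 1 : Fin 3 → ℂ) := by
  ext i
  refine Fin.cases ?_ (fun i => ?_) i
  · simp
  · simp only [Fin.cons_succ, Pi.add_apply, Pi.smul_apply, Pi.single_apply, Fin.succ_inj]

/-- derivatives of the affine components -/
theorem pderiv_PP (hF : ∀ i, (F i).IsHomogeneous d) (hI : Inv F) (i j : Fin 2) (s : Fin 2 → ℂ) :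
    eval s (pderiv j (∑ m ∈ Finset.range (d + 1), PP F d i m)) =
      eval (Fin.cons 1 s : Fin 3 → ℂ) (pderiv j.succ (F i.succ)) -
        (if i = j then eval (Fin.cons 1 s : Fin 3 → ℂ) (F 0) else 0) -
        s i * eval (Fin.cons 1 s : Fin 3 → ℂ) (pderiv j.succ (F 0)) := by
  have h1 := hasDerivAt_line (∑ m ∈ Finset.range (d + 1), PP F d i m) s j
  have h2 := hasDerivAt_line (F i.succ) (Fin.cons 1 s : Fin 3 → ℂ) j.succ
  have h3 := hasDerivAt_line (F 0) (Fin.cons 1 s : Fin 3 → ℂ) j.succ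
  have h4 : HasDerivAt (fun t : ℂ => (s + t • (Pi.single j 1 : Fin 2 → ℂ)) i) (if i = j then 1 else 0) 0 := by
    have h5 : HasDerivAt (fun t : ℂ => s i + t * (Pi.single j (1 : ℂ) : Fin 2 → ℂ) i)
        (1 * (Pi.single j (1 : ℂ) : Fin 2 → ℂ) i) 0 := ((hasDerivAt_id (0 : ℂ)).mul_const _).const_add _
    simpa [Pi.single_apply] using h5
  have h6 := h2.sub (h4.mul h3)
  have h7 : (fun t : ℂ => eval (s + t • (Pi.single j 1 : Fin 2 → ℂ)) (∑ m ∈ Finset.range (d + 1), PP F d i m)) =
      (fun t : ℂ => eval (Fin.cons 1 s + t • (Pi.single j.succ 1 : Fin 3 → ℂ)) (F i.succ)) -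
      ((fun t : ℂ => (s + t • (Pi.single j 1 : Fin 2 → ℂ)) i) *
        (fun t : ℂ => eval (Fin.cons 1 s + t • (Pi.single j.succ 1 : Fin 3 → ℂ)) (F 0))) := by
    funext t
    rw [sum_PP hF hI, cons_line]
    simp
  rw [h7] at h1
  rw [h1.unique h6]
  simp only [zero_smul, add_zero]
  split_ifs <;> ring

/-- values at infinity -/
theorem eval_F_inf (hF : ∀ i, (F i).IsHomogeneous d) (i : Fin 3) (w : Fin 2 → ℂ) :
    eval (Fin.cons 0 w : Fin 3 → ℂ) (F i) = eval w (cf F i 0) := by
  rw [eval_F hF, Finset.sum_eq_single 0]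
  · simp
  · intro b _ hb
    simp [hb]
  · simp

theorem pderiv_inf (hF : ∀ i, (F i).IsHomogeneous d) (i : Fin 3) (j : Fin 2) (w : Fin 2 → ℂ) :
    eval w (pderiv j (cf F i 0)) = eval (Fin.cons 0 w : Fin 3 → ℂ) (pderiv j.succ (F i)) := by
  have h1 := hasDerivAt_line (cf F i 0) w j
  have h2 := hasDerivAt_line (F i) (Fin.cons 0 w : Fin 3 → ℂ) j.succ
  have h3 : (fun t : ℂ => eval (w + t • (Pi.single j 1 : Fin 2 → ℂ)) (cf F i 0)) =
      (fun t : ℂ => eval (Fin.cons 0 w + t • (Pi.single j.succ 1 : Fin 3 → ℂ)) (F i)) := by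
    funext t
    rw [← eval_F_inf hF, cons_line]
  rw [h3] at h1
  exact h1.unique h2

theorem pderiv_zero_inf (hF : ∀ i, (F i).IsHomogeneous d) (hd : 2 ≤ d) (i : Fin 3) (w : Fin 2 → ℂ) :
    eval (Fin.cons 0 w : Fin 3 → ℂ) (pderiv 0 (F i)) = eval w (cf F i 1) := by
  have h2 := hasDerivAt_line (F i) (Fin.cons 0 w : Fin 3 → ℂ) 0
  have h3 : (fun t : ℂ => eval (Fin.cons 0 w + t • (Pi.single 0 1 : Fin 3 → ℂ)) (F i)) =
      fun t : ℂ => ∑ j ∈ Finset.range (d + 1), eval w (cf F i j) * t ^ j := by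
    funext t
    rw [← eval_F hF]
    congr 2
    ext k
    refine Fin.cases ?_ (fun k => ?_) k
    · simp
    · simp
  rw [h3] at h2
  have h4 : HasDerivAt (fun t : ℂ => ∑ j ∈ Finset.range (d + 1), eval w (cf F i j) * t ^ j)
      (∑ j ∈ Finset.range (d + 1), eval w (cf F i j) * (j * (0 : ℂ) ^ (j - 1))) 0 :=
    HasDerivAt.fun_sum fun j _ => (hasDerivAt_pow j (0 : ℂ)).const_mul _
  rw [h2.unique h4, Finset.sum_eq_single 1]
  · simp
  · intro b _ hb
    rcases Nat.eq_zero_or_pos b with h | h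
    · simp [h]
    · have : b - 1 ≠ 0 := by omega
      simp [this]
  · intro h
    exact absurd (Finset.mem_range.2 (by omega)) h

end

/-- Euler's identity, evaluated -/
theorem euler {σ : Type} [Fintype σ] {f : MvPolynomial σ ℂ} {n : ℕ} (hf : f.IsHomogeneous n) (a : σ → ℂ) :
    ∑ i, a i * eval a (pderiv i f) = n * eval a f := by
  have := congrArg (eval a) hf.sum_X_mul_pderiv
  simpa using this

theorem charpoly_eval (M : Matrix (Fin 3) (Fin 3) ℂ) (x : ℂ) : M.charpoly.eval x =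
    (x - M 0 0) * ((x - M 1 1) * (x - M 2 2) - M 1 2 * M 2 1) -
      M 0 1 * (M 1 0 * (x - M 2 2) + M 1 2 * M 2 0) - M 0 2 * (M 1 0 * M 2 1 + (x - M 1 1) * M 2 0) := by
  rw [Matrix.eval_charpoly, Matrix.det_fin_three]
  simp only [Matrix.scalar_apply, Matrix.sub_apply, Matrix.diagonal_apply, if_true]
  simp only [Fin.isValue, show (0 : Fin 3) ≠ 1 from by decide, show (1 : Fin 3) ≠ 0 from by decide,
    show (0 : Fin 3) ≠ 2 from by decide, show (2 : Fin 3) ≠ 0 from by decide,
    show (1 : Fin 3) ≠ 2 from by decide, show (2 : Fin 3) ≠ 1 from by decide, if_false]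
  ring

/-- two monic quadratics which agree outside one point -/
theorem quad {p q p' q' e : ℂ} (h : ∀ x : ℂ, (x - e) * (x ^ 2 - p * x + q) = (x - e) * (x ^ 2 - p' * x + q')) :
    p = p' ∧ q = q' := by
  have h1 := h (e + 1)
  have h2 := h (e + 2)
  have h3 : (p - p') = 0 := by linear_combination -h2 / 2 + h1
  have h4 : p = p' := by linear_combination h3
  refine ⟨h4, ?_⟩
  subst h4
  linear_combination h1

theorem im_inv {z : ℂ} (h : z.im ≠ 0) : (z⁻¹).im ≠ 0 := by
  rw [Complex.inv_im]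
  have hz : z ≠ 0 := by
    rintro rfl
    simp at h
  exact div_ne_zero (neg_ne_zero.2 h) (by simpa using hz)

/-- the hypothesis of hyperbolicity -/
def Hyp (F : Fin 3 → MvPolynomial (Fin 3) ℂ) (d : ℕ) : Prop :=
  ∀ (a : Fin 3 → ℂ) (c : ℂ), a ≠ 0 → (∀ i, eval a (F i) = c * a i) → ∃ ν₁ ν₂ : ℂ,
        (Matrix.of fun i j => MvPolynomial.eval a (MvPolynomial.pderiv j (F i))).charpoly =
          (Polynomial.X - Polynomial.C ((d : ℂ) * c)) * (Polynomial.X - Polynomial.C (ν₁ + c)) *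
            (Polynomial.X - Polynomial.C (ν₂ + c)) ∧
        (ν₁ / ν₂).im ≠ 0

variable {F : Fin 3 → MvPolynomial (Fin 3) ℂ} {d : ℕ}

theorem cons_ne {z0 : ℂ} {w : Fin 2 → ℂ} (hw : w ≠ 0) : (Fin.cons z0 w : Fin 3 → ℂ) ≠ 0 := by
  intro h
  apply hw
  ext j
  have := congrFun h j.succ
  simpa using this

theorem hypInf (hF : ∀ i, (F i).IsHomogeneous d) (hd : 2 ≤ d) (hI : Inv F) (hH : Hyp F d) :
    (fol hF hd).HypInf := by
  intro w μ hw h0 h1
  change eval w (PP F d 0 d) = μ * w 0 at h0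
  change eval w (PP F d 1 d) = μ * w 1 at h1
  change (μ / (eval w (pderiv 0 (PP F d 0 d)) + eval w (pderiv 1 (PP F d 1 d)) - (d + 1) * μ)).im ≠ 0
  have hPP : ∀ i : Fin 2, PP F d i d = cf F i.succ 0 - X i * cf F 0 1 := by
    intro i
    rw [PP, if_pos le_rfl, Nat.sub_self]
  rw [hPP 0] at h0 ⊢
  rw [hPP 1] at h1 ⊢
  simp only [Fin.succ_zero_eq_one, Fin.succ_one_eq_two, map_sub, map_mul, MvPolynomial.eval_X,
    MvPolynomial.pderiv_mul, MvPolynomial.pderiv_X_self, map_add, map_one, one_mul] at h0 h1 ⊢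
  set b := eval w (cf F 0 1) with hb
  set c := μ + b with hc
  obtain ⟨ν₁, ν₂, hchar, hν⟩ := hH (Fin.cons 0 w) c (cons_ne hw) (by
    intro i
    refine Fin.cases ?_ (fun i => ?_) i
    · rw [hI w]; simp
    · rw [eval_F_inf hF, Fin.cons_succ]
      fin_cases i
      · simp only [Fin.zero_eta, Fin.succ_zero_eq_one]
        linear_combination h0
      · simp only [Fin.mk_one, Fin.succ_one_eq_two]
        linear_combination h1)
  have hev : ∀ x : ℂ, _ := fun x => congrArg (Polynomial.eval x) hchar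
  simp only [charpoly_eval, Matrix.of_apply, Polynomial.eval_mul, Polynomial.eval_sub,
    Polynomial.eval_X, Polynomial.eval_C] at hev
  have e00 : eval (Fin.cons 0 w : Fin 3 → ℂ) (pderiv 0 (F 0)) = b := pderiv_zero_inf hF hd 0 w
  have e0 : ∀ j : Fin 2, eval (Fin.cons 0 w : Fin 3 → ℂ) (pderiv j.succ (F 0)) = 0 := by
    intro j
    rw [← pderiv_inf hF, cf_00 hF hI]
    simp
  have e01 := e0 0
  have e02 := e0 1
  have f11 := pderiv_inf hF 1 0 w
  have f12 := pderiv_inf hF 1 1 w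
  have f21 := pderiv_inf hF 2 0 w
  have f22 := pderiv_inf hF 2 1 w
  simp only [Fin.succ_zero_eq_one, Fin.succ_one_eq_two] at e01 e02 f11 f12 f21 f22
  rw [e00, e01, e02, ← f11, ← f12, ← f21, ← f22] at hev
  have E1 := euler (cf_hom hF 1 (Nat.zero_le d)) w
  have E2 := euler (cf_hom hF 2 (Nat.zero_le d)) w
  have E3 := euler (cf_hom hF 0 (j := 1) (by omega)) w
  simp only [Fin.sum_univ_two, Nat.sub_zero] at E1 E2 E3
  rw [show eval w (cf F 1 0) = c * w 0 by linear_combination h0] at E1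
  rw [show eval w (cf F 2 0) = c * w 1 by linear_combination h1] at E2
  rw [← hb, Nat.cast_sub (by omega)] at E3
  set m11 := eval w (pderiv 0 (cf F 1 0))
  set m12 := eval w (pderiv 1 (cf F 1 0))
  set m21 := eval w (pderiv 0 (cf F 2 0))
  set m22 := eval w (pderiv 1 (cf F 2 0))
  have hdet : (m11 - d * c) * (m22 - d * c) - m12 * m21 = 0 := by
    have h3 : w 0 ≠ 0 ∨ w 1 ≠ 0 := by
      by_contra hcon
      push Not at hcon
      apply hw
      ext j
      fin_cases j
      · exact hcon.1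
      · exact hcon.2
    rcases h3 with h3 | h3
    · apply mul_left_cancel₀ h3
      linear_combination (m22 - d * c) * E1 - m12 * E2
    · apply mul_left_cancel₀ h3
      linear_combination (m11 - d * c) * E2 - m21 * E1
  have hq := quad (p := b + (m11 + m22 - d * c)) (q := b * (m11 + m22 - d * c))
    (p' := ν₁ + ν₂ + 2 * c) (q' := (ν₁ + c) * (ν₂ + c)) (e := d * c) (fun x => by
      linear_combination hev x - (x - b) * hdet)
  obtain ⟨hs, hp⟩ := hq
  have htr : m11 - (b + w 0 * eval w (pderiv 0 (cf F 0 1))) + (m22 - (b + w 1 * eval w (pderiv 1 (cf F 0 1)))) -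
      (d + 1) * μ = m11 + m22 - d * c - c := by
    push_cast at E3
    linear_combination -E3
  rw [htr]
  have hprod : (b - c - ν₁) * (b - c - ν₂) = 0 := by
    linear_combination -hp + b * hs
  have hμ : μ = -(b - c) := by rw [hc]; ring
  rcases mul_eq_zero.1 hprod with h4 | h4
  · have h5 : b - c = ν₁ := by linear_combination h4
    have h6 : m11 + m22 - d * c - c = ν₂ := by linear_combination hs - h4
    rw [hμ, h5, h6, neg_div, Complex.neg_im]
    exact neg_ne_zero.2 hν
  · have h5 : b - c = ν₂ := by linear_combination h4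
    have h6 : m11 + m22 - d * c - c = ν₁ := by linear_combination hs - h4
    rw [hμ, h5, h6, neg_div, Complex.neg_im, ← inv_div]
    exact neg_ne_zero.2 (im_inv hν)

theorem hypFin (hF : ∀ i, (F i).IsHomogeneous d) (hd : 2 ≤ d) (hI : Inv F) (hH : Hyp F d) :
    (fol hF hd).HypFin := by
  intro s h0 h1
  rw [fol_P hF hd hI] at h0
  rw [fol_Q hF hd hI] at h1
  have d11 := pderiv_PP hF hI 0 0 s
  have d12 := pderiv_PP hF hI 0 1 s
  have d21 := pderiv_PP hF hI 1 0 s
  have d22 := pderiv_PP hF hI 1 1 s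
  simp only [Fin.isValue, if_true, Fin.succ_zero_eq_one, Fin.succ_one_eq_two,
    show (0 : Fin 2) ≠ 1 from by decide, show (1 : Fin 2) ≠ 0 from by decide, if_false] at d11 d12 d21 d22
  change eval s (pderiv 0 (∑ m ∈ Finset.range (d + 1), PP F d 0 m)) +
      eval s (pderiv 1 (∑ m ∈ Finset.range (d + 1), PP F d 1 m)) ≠ 0 ∧
    eval s (pderiv 0 (∑ m ∈ Finset.range (d + 1), PP F d 0 m)) *
      eval s (pderiv 1 (∑ m ∈ Finset.range (d + 1), PP F d 1 m)) -
      eval s (pderiv 1 (∑ m ∈ Finset.range (d + 1), PP F d 0 m)) *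
      eval s (pderiv 0 (∑ m ∈ Finset.range (d + 1), PP F d 1 m)) ≠ 0
  rw [d11, d12, d21, d22]
  set a : Fin 3 → ℂ := Fin.cons 1 s with ha
  set c := eval a (F 0) with hc
  have ha0 : a ≠ 0 := by
    intro h
    have := congrFun h 0
    simp [ha] at this
  obtain ⟨ν₁, ν₂, hchar, hν⟩ := hH a c ha0 (by
    intro i
    fin_cases i
    · simp [ha, hc]
    · change eval a (F 1) = c * s 0
      linear_combination h0
    · change eval a (F 2) = c * s 1
      linear_combination h1)
  have hev : ∀ x : ℂ, _ := fun x => congrArg (Polynomial.eval x) hchar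
  simp only [charpoly_eval, Matrix.of_apply, Polynomial.eval_mul, Polynomial.eval_sub,
    Polynomial.eval_X, Polynomial.eval_C] at hev
  have E0 := euler (hF 0) a
  have E1 := euler (hF 1) a
  have E2 := euler (hF 2) a
  simp only [Fin.sum_univ_three] at E0 E1 E2
  rw [show a 0 = 1 from rfl, show a 1 = s 0 from rfl, show a 2 = s 1 from rfl] at E0 E1 E2
  rw [← hc] at E0
  rw [show eval a (F 1) = c * s 0 by linear_combination h0] at E1
  rw [show eval a (F 2) = c * s 1 by linear_combination h1] at E2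
  have m00 : eval a (pderiv 0 (F 0)) = d * c - s 0 * eval a (pderiv 1 (F 0)) - s 1 * eval a (pderiv 2 (F 0)) := by
    linear_combination E0
  have m10 : eval a (pderiv 0 (F 1)) = d * (c * s 0) - s 0 * eval a (pderiv 1 (F 1)) - s 1 * eval a (pderiv 2 (F 1)) := by
    linear_combination E1
  have m20 : eval a (pderiv 0 (F 2)) = d * (c * s 1) - s 0 * eval a (pderiv 1 (F 2)) - s 1 * eval a (pderiv 2 (F 2)) := by
    linear_combination E2
  rw [m00, m10, m20] at hev
  set m01 := eval a (pderiv 1 (F 0))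
  set m02 := eval a (pderiv 2 (F 0))
  set m11 := eval a (pderiv 1 (F 1))
  set m12 := eval a (pderiv 2 (F 1))
  set m21 := eval a (pderiv 1 (F 2))
  set m22 := eval a (pderiv 2 (F 2))
  obtain ⟨hs, hp⟩ := quad (p := (m11 - s 0 * m01) + (m22 - s 1 * m02))
    (q := (m11 - s 0 * m01) * (m22 - s 1 * m02) - (m12 - s 0 * m02) * (m21 - s 1 * m01))
    (p' := ν₁ + ν₂ + 2 * c) (q' := (ν₁ + c) * (ν₂ + c)) (e := d * c) (fun x => by
      linear_combination hev x)
  have h12 : ν₁ ≠ 0 ∧ ν₂ ≠ 0 := by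
    constructor
    · rintro rfl
      simp at hν
    · rintro rfl
      simp at hν
  constructor
  · intro hcon
    have h3 : ν₁ = -ν₂ := by linear_combination hcon - hs
    apply hν
    rw [h3, neg_div, div_self h12.2]
    simp
  · have h4 : (m11 - c - s 0 * m01) * (m22 - c - s 1 * m02) - (m12 - 0 - s 0 * m02) * (m21 - 0 - s 1 * m01) =
        ν₁ * ν₂ := by
      linear_combination hp - c * hs
    rw [h4]
    exact mul_ne_zero h12.1 h12.2

end Pool.Agent.H210.Gr.HOM
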