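import Pool.Agent.H210.Green.HomAlg

/-! Task HOM (leaves) of the proof of S05669: the leaves of a projective foliation and of the affine
one. -/

set_option autoImplicit false

namespace Pool.Agent.H210.Gr.HOM

open Metric Set Topology Filter
open MvPolynomial (X C pderiv eval)

variable {F : Fin 3 → MvPolynomial (Fin 3) ℂ} {d : ℕ}

variable (F) in
noncomputable def V (z : Fin 3 → ℂ) : Fin 3 → ℂ := fun i => eval z (F i)

noncomputable def proj (q : Fin 3 → ℂ) : ℂ × ℂ := (q 1 / q 0, q 2 / q 0)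
noncomputable def lift (z : ℂ × ℂ) : Fin 3 → ℂ := Fin.cons 1 ![z.1, z.2]

@[simp] theorem lift_0 (z : ℂ × ℂ) : lift z 0 = 1 := rfl
@[simp] theorem lift_1 (z : ℂ × ℂ) : lift z 1 = z.1 := rfl
@[simp] theorem lift_2 (z : ℂ × ℂ) : lift z 2 = z.2 := rfl

theorem proj_lift (z : ℂ × ℂ) : proj (lift z) = z := by
  simp [proj]

theorem proj_smul {c : ℂ} (hc : c ≠ 0) (q : Fin 3 → ℂ) : proj (c • q) = proj q := by
  simp only [proj, Pi.smul_apply, smul_eq_mul]
  rw [mul_div_mul_left _ _ hc, mul_div_mul_left _ _ hc]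

theorem eval_smul_hom {σ : Type} [Fintype σ] {f : MvPolynomial σ ℂ} {n : ℕ} (hf : f.IsHomogeneous n)
    (c : ℂ) (a : σ → ℂ) : eval (c • a) f = c ^ n * eval a f := by
  rw [MvPolynomial.eval_eq', MvPolynomial.eval_eq', Finset.mul_sum]
  refine Finset.sum_congr rfl fun m hm => ?_
  have h1 : ∑ i, m i = n := by
    have := hf (MvPolynomial.mem_support_iff.1 hm)
    rw [Finsupp.weight_apply, Finsupp.sum_fintype _ _ (by simp)] at this
    simpa using this
  simp only [Pi.smul_apply, smul_eq_mul, mul_pow, Finset.prod_mul_distrib]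
  rw [Finset.prod_pow_eq_pow_sum, h1]
  ring

theorem V_smul (hF : ∀ i, (F i).IsHomogeneous d) (c : ℂ) (z : Fin 3 → ℂ) :
    V F (c • z) = c ^ d • V F z := by
  ext i
  exact eval_smul_hom (hF i) c z

theorem fol_v (hF : ∀ i, (F i).IsHomogeneous d) (hd : 2 ≤ d) (hI : Inv F) (z : ℂ × ℂ) :
    (fol hF hd).v z = (V F (lift z) 1 - z.1 * V F (lift z) 0, V F (lift z) 2 - z.2 * V F (lift z) 0) := by
  unfold Fol.v
  rw [fol_P hF hd hI, fol_Q hF hd hI]
  rfl

theorem lift_proj {q : Fin 3 → ℂ} (hq : q 0 ≠ 0) : q = q 0 • lift (proj q) := by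
  ext i
  fin_cases i
  · simp
  · change q 1 = q 0 * (q 1 / q 0)
    field_simp
  · change q 2 = q 0 * (q 2 / q 0)
    field_simp

theorem v_zero_iff (hF : ∀ i, (F i).IsHomogeneous d) (hd : 2 ≤ d) (hI : Inv F) {q : Fin 3 → ℂ}
    (hq : q 0 ≠ 0) : (fol hF hd).v (proj q) = 0 ↔ ∃ c : ℂ, V F q = c • q := by
  rw [fol_v hF hd hI]
  set z := proj q with hz
  have hq' : q = q 0 • lift z := lift_proj hq
  constructor
  · intro h
    have h1 : V F (lift z) 1 - z.1 * V F (lift z) 0 = 0 := congrArg Prod.fst h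
    have h2 : V F (lift z) 2 - z.2 * V F (lift z) 0 = 0 := congrArg Prod.snd h
    have h3 : V F (lift z) = V F (lift z) 0 • lift z := by
      ext i
      fin_cases i
      · simp
      · change V F (lift z) 1 = V F (lift z) 0 * z.1
        linear_combination h1
      · change V F (lift z) 2 = V F (lift z) 0 * z.2
        linear_combination h2
    refine ⟨q 0 ^ d * V F (lift z) 0 / q 0, ?_⟩
    conv_lhs => rw [hq', V_smul hF, h3]
    conv_rhs => rw [hq']
    rw [smul_smul, smul_smul]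
    congr 1
    simp only [Pi.smul_apply, lift_0, smul_eq_mul]
    field_simp
  · rintro ⟨c, hc⟩
    rw [hq', V_smul hF] at hc
    have h0 := congrFun hc 0
    have h1 := congrFun hc 1
    have h2 := congrFun hc 2
    simp only [Pi.smul_apply, lift_0, lift_1, lift_2, smul_eq_mul, mul_one] at h0 h1 h2
    have hqd : q 0 ^ d ≠ 0 := pow_ne_zero _ hq
    ext
    · change V F (lift z) 1 - z.1 * V F (lift z) 0 = 0
      apply mul_left_cancel₀ hqd
      linear_combination h1 - z.1 * h0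
    · change V F (lift z) 2 - z.2 * V F (lift z) 0 = 0
      apply mul_left_cancel₀ hqd
      linear_combination h2 - z.2 * h0

variable (F) in
/-- tangent discs -/
structure Tan (φ : ℂ → Fin 3 → ℂ) : Prop where
  diff : DifferentiableOn ℂ φ (ball 0 1)
  ne : ∀ t ∈ ball (0 : ℂ) 1, φ t ≠ 0
  ns : ∀ t ∈ ball (0 : ℂ) 1, ¬ ∃ c : ℂ, V F (φ t) = c • φ t
  tan : ∀ t ∈ ball (0 : ℂ) 1, ∃ α β : ℂ, deriv φ t = α • φ t + β • V F (φ t)

theorem Tan.comp {φ : ℂ → Fin 3 → ℂ} (h : Tan F φ) {t : ℂ} (ht : t ∈ ball (0 : ℂ) 1) (i : Fin 3) :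
    HasDerivAt (fun t => φ t i) (deriv φ t i) t := by
  have h1 := (h.diff.differentiableAt (isOpen_ball.mem_nhds ht)).hasDerivAt
  exact hasDerivAt_pi.1 h1 i

theorem Tan.diff_comp {φ : ℂ → Fin 3 → ℂ} (h : Tan F φ) (i : Fin 3) :
    DifferentiableOn ℂ (fun t => φ t i) (ball 0 1) := fun t ht =>
  (h.comp ht i).differentiableAt.differentiableWithinAt

theorem Tan.diff_deriv {φ : ℂ → Fin 3 → ℂ} (h : Tan F φ) (i : Fin 3) :
    DifferentiableOn ℂ (fun t => deriv φ t i) (ball 0 1) := by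
  have h1 := (h.diff_comp i).deriv isOpen_ball
  refine h1.congr fun t ht => ?_
  exact (h.comp ht i).deriv.symm

theorem Tan.diff_eval {φ : ℂ → Fin 3 → ℂ} (h : Tan F φ) (f : MvPolynomial (Fin 3) ℂ) :
    DifferentiableOn ℂ (fun t => eval (φ t) f) (ball 0 1) := fun t ht =>
  (hasDerivAt_eval f φ (deriv φ t) t (fun i => h.comp ht i)).differentiableAt.differentiableWithinAt

theorem minor {a b : Fin 3 → ℂ} (ha : a ≠ 0) (h : ¬ ∃ c : ℂ, b = c • a) :
    ∃ i j, a i * b j - a j * b i ≠ 0 := by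
  by_contra hcon
  push Not at hcon
  apply h
  obtain ⟨i, hi⟩ : ∃ i, a i ≠ 0 := by
    by_contra h1
    push Not at h1
    exact ha (funext h1)
  refine ⟨b i / a i, ?_⟩
  ext j
  have := hcon i j
  simp only [Pi.smul_apply, smul_eq_mul]
  field_simp
  linear_combination this

/-- a function with `f' = g f` and a zero vanishes near it -/
theorem lin_zero {f g : ℂ → ℂ} {c : ℂ} {r : ℝ} (hr : 0 < r) (hg : DifferentiableOn ℂ g (ball c r))
    (hf : ∀ x ∈ ball c r, HasDerivAt f (g x * f x) x) (h0 : f c = 0) : ∀ x ∈ ball c r, f x = 0 := by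
  obtain ⟨H, hH⟩ := hg.isExactOn_ball
  have hder : ∀ x ∈ ball c r, HasDerivAt (fun x => f x * Complex.exp (-H x)) 0 x := by
    intro x hx
    have h1 := (hf x hx).mul ((hH x hx).neg.cexp)
    refine h1.congr_deriv ?_
    ring
  have hconst : ∀ x ∈ ball c r, f x * Complex.exp (-H x) = f c * Complex.exp (-H c) := by
    intro x hx
    refine (convex_ball c r).is_const_of_fderivWithin_eq_zero (𝕜 := ℂ)
      (f := fun x => f x * Complex.exp (-H x)) (fun y hy => (hder y hy).differentiableAt.differentiableWithinAt)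
      (fun y hy => ?_) hx (mem_ball_self hr)
    rw [fderivWithin_of_isOpen isOpen_ball hy]
    ext
    simpa using (hder y hy).deriv
  intro x hx
  have := hconst x hx
  rw [h0, zero_mul] at this
  exact (mul_eq_zero.1 this).resolve_right (Complex.exp_ne_zero _)

theorem zero_dichotomy (hF : ∀ i, (F i).IsHomogeneous d) (hI : Inv F) {φ : ℂ → Fin 3 → ℂ}
    (h : Tan F φ) {s : ℂ} (hs : s ∈ ball (0 : ℂ) 1) (h0 : φ s 0 = 0) :
    ∀ t ∈ ball (0 : ℂ) 1, φ t 0 = 0 := by
  -- `V_0 = z_0 B`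
  set B : (Fin 3 → ℂ) → ℂ := fun z => ∑ j ∈ Finset.range (d + 1),
    eval (fun k : Fin 2 => z k.succ) (cf F 0 (j + 1)) * z 0 ^ j with hB
  have hVB : ∀ z : Fin 3 → ℂ, V F z 0 = z 0 * B z := by
    intro z
    have h1 : V F z 0 = eval (Fin.cons (z 0) (fun k : Fin 2 => z k.succ) : Fin 3 → ℂ) (F 0) := by
      unfold V
      congr 2
      exact (Fin.cons_self_tail z).symm
    rw [h1, eval_F hF, hB]
    simp only
    have h2 := Finset.sum_range_succ' (fun j => eval (fun k : Fin 2 => z k.succ) (cf F 0 j) * z 0 ^ j) (d + 1)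
    rw [Finset.sum_range_succ] at h2
    simp only [cf_00 hF hI, cf_zero hF 0 (Nat.lt_succ_self d), map_zero, add_zero, zero_mul] at h2
    rw [h2, Finset.mul_sum]
    refine Finset.sum_congr rfl fun j _ => ?_
    ring
  have hBd : DifferentiableOn ℂ (fun t => B (φ t)) (ball 0 1) := by
    rw [hB]
    refine DifferentiableOn.fun_sum fun j _ => ?_
    refine DifferentiableOn.mul (fun t ht => ?_) ((h.diff_comp 0).pow j)
    exact (hasDerivAt_eval _ (fun t (k : Fin 2) => φ t k.succ) (fun k => deriv φ t k.succ) t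
      (fun k => h.comp ht k.succ)).differentiableAt.differentiableWithinAt
  have hVd : ∀ i, DifferentiableOn ℂ (fun t => V F (φ t) i) (ball 0 1) := fun i => h.diff_eval (F i)
  obtain ⟨i, j, hij⟩ := minor (h.ne s hs) (h.ns s hs)
  set Δ : ℂ → ℂ := fun t => φ t i * V F (φ t) j - φ t j * V F (φ t) i with hΔ
  have hΔd : DifferentiableOn ℂ Δ (ball 0 1) :=
    ((h.diff_comp i).mul (hVd j)).sub ((h.diff_comp j).mul (hVd i))
  have hΔc : ContinuousAt Δ s := (hΔd.continuousOn).continuousAt (isOpen_ball.mem_nhds hs)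
  obtain ⟨ε, hε, hε'⟩ := Metric.eventually_nhds_iff_ball.1
    ((hΔc.eventually_ne hij).and (isOpen_ball.eventually_mem hs))
  set g : ℂ → ℂ := fun t => ((deriv φ t i * V F (φ t) j - deriv φ t j * V F (φ t) i) +
    (φ t i * deriv φ t j - φ t j * deriv φ t i) * B (φ t)) / Δ t with hg
  have hsub : ball s ε ⊆ ball 0 1 := fun t ht => (hε' t ht).2
  have hgd : DifferentiableOn ℂ g (ball s ε) := by
    refine DifferentiableOn.div ?_ (hΔd.mono hsub) (fun t ht => (hε' t ht).1)
    refine DifferentiableOn.mono ?_ hsub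
    exact (((h.diff_deriv i).mul (hVd j)).sub ((h.diff_deriv j).mul (hVd i))).add
      ((((h.diff_comp i).mul (h.diff_deriv j)).sub ((h.diff_comp j).mul (h.diff_deriv i))).mul hBd)
  have hloc := lin_zero hε hgd (f := fun t => φ t 0) (fun t ht => by
    refine (h.comp (hsub ht) 0).congr_deriv ?_
    obtain ⟨α, β, hab⟩ := h.tan t (hsub ht)
    have e0 := congrFun hab 0
    have ei := congrFun hab i
    have ej := congrFun hab j
    simp only [Pi.add_apply, Pi.smul_apply, smul_eq_mul] at e0 ei ej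
    rw [hVB] at e0
    have hΔ0 : φ t i * V F (φ t) j - φ t j * V F (φ t) i ≠ 0 := (hε' t ht).1
    simp only [hg, hΔ]
    rw [div_mul_eq_mul_div, eq_div_iff hΔ0, e0, ei, ej]
    ring) h0
  have han : AnalyticOnNhd ℂ (fun t => φ t 0) (ball 0 1) := (h.diff_comp 0).analyticOnNhd isOpen_ball
  intro t ht
  exact han.eqOn_zero_of_preconnected_of_eventuallyEq_zero (convex_ball _ _).isPreconnected hs
    (Metric.eventually_nhds_iff_ball.2 ⟨ε, hε, hloc⟩) ht

/-- the affine curve of a tangent disc solves the affine equation -/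
theorem psi_sol (hF : ∀ i, (F i).IsHomogeneous d) (hd : 2 ≤ d) (hI : Inv F) {φ : ℂ → Fin 3 → ℂ}
    (h : Tan F φ) (h0 : ∀ t ∈ ball (0 : ℂ) 1, φ t 0 ≠ 0) :
    ∃ β : ℂ → ℂ, DifferentiableOn ℂ β (ball 0 1) ∧
      ∀ x ∈ ball (0 : ℂ) 1, HasDerivAt (fun t => proj (φ t)) (β x • (fol hF hd).v (proj (φ x))) x := by
  set p : ℂ → ℂ := fun t => (fol hF hd).v (proj (φ t)) |>.1 with hp
  set q : ℂ → ℂ := fun t => (fol hF hd).v (proj (φ t)) |>.2 with hq
  have hψ1 : DifferentiableOn ℂ (fun t => φ t 1 / φ t 0) (ball 0 1) := (h.diff_comp 1).div (h.diff_comp 0) h0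
  have hψ2 : DifferentiableOn ℂ (fun t => φ t 2 / φ t 0) (ball 0 1) := (h.diff_comp 2).div (h.diff_comp 0) h0
  have hpoly : ∀ f : MvPolynomial (Fin 2) ℂ,
      DifferentiableOn ℂ (fun t => eval ![(proj (φ t)).1, (proj (φ t)).2] f) (ball 0 1) := by
    intro f t ht
    refine (hasDerivAt_eval f (fun t => ![(proj (φ t)).1, (proj (φ t)).2])
      ![deriv (fun t => φ t 1 / φ t 0) t, deriv (fun t => φ t 2 / φ t 0) t] t
      (fun k => ?_)).differentiableAt.differentiableWithinAt
    fin_cases k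
    · exact (hψ1.differentiableAt (isOpen_ball.mem_nhds ht)).hasDerivAt
    · exact (hψ2.differentiableAt (isOpen_ball.mem_nhds ht)).hasDerivAt
  have hpd : DifferentiableOn ℂ p (ball 0 1) := hpoly _
  have hqd : DifferentiableOn ℂ q (ball 0 1) := hpoly _
  have hex : ∀ x ∈ ball (0 : ℂ) 1, ∃ b : ℂ, HasDerivAt (fun t => φ t 1 / φ t 0) (b * p x) x ∧
      HasDerivAt (fun t => φ t 2 / φ t 0) (b * q x) x := by
    intro x hx
    obtain ⟨α, β, hab⟩ := h.tan x hx
    have e0 := congrFun hab 0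
    have e1 := congrFun hab 1
    have e2 := congrFun hab 2
    simp only [Pi.add_apply, Pi.smul_apply, smul_eq_mul] at e0 e1 e2
    have hl : φ x = φ x 0 • lift (proj (φ x)) := lift_proj (h0 x hx)
    have hV := V_smul hF (φ x 0) (lift (proj (φ x)))
    rw [← hl] at hV
    have hx0 := h0 x hx
    have hz1 : (proj (φ x)).1 = φ x 1 / φ x 0 := rfl
    have hz2 : (proj (φ x)).2 = φ x 2 / φ x 0 := rfl
    have hpx : p x = V F (lift (proj (φ x))) 1 - φ x 1 / φ x 0 * V F (lift (proj (φ x))) 0 := by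
      simp only [hp, fol_v hF hd hI]; rfl
    have hqx : q x = V F (lift (proj (φ x))) 2 - φ x 2 / φ x 0 * V F (lift (proj (φ x))) 0 := by
      simp only [hq, fol_v hF hd hI]; rfl
    refine ⟨β * φ x 0 ^ d / φ x 0, ?_, ?_⟩
    · refine ((h.comp hx 1).fun_div (h.comp hx 0) hx0).congr_deriv ?_
      rw [e0, e1, hV, hpx]
      simp only [Pi.smul_apply, smul_eq_mul]
      field_simp
      ring
    · refine ((h.comp hx 2).fun_div (h.comp hx 0) hx0).congr_deriv ?_
      rw [e0, e2, hV, hqx]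
      simp only [Pi.smul_apply, smul_eq_mul]
      field_simp
      ring
  have hne : ∀ x ∈ ball (0 : ℂ) 1, p x ≠ 0 ∨ q x ≠ 0 := by
    intro x hx
    by_contra hcon
    push Not at hcon
    exact h.ns x hx ((v_zero_iff hF hd hI (h0 x hx)).1 (Prod.ext hcon.1 hcon.2))
  classical
  set β : ℂ → ℂ := fun x => if p x ≠ 0 then deriv (fun t => φ t 1 / φ t 0) x / p x else
    deriv (fun t => φ t 2 / φ t 0) x / q x with hβ
  have hβ1 : ∀ x ∈ ball (0 : ℂ) 1, HasDerivAt (fun t => φ t 1 / φ t 0) (β x * p x) x ∧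
      HasDerivAt (fun t => φ t 2 / φ t 0) (β x * q x) x := by
    intro x hx
    obtain ⟨b, hb1, hb2⟩ := hex x hx
    have : β x = b := by
      simp only [hβ]
      split_ifs with hpx
      · rw [hb1.deriv, mul_div_assoc, div_self hpx, mul_one]
      · have hqx := (hne x hx).resolve_left hpx
        rw [hb2.deriv, mul_div_assoc, div_self hqx, mul_one]
    rw [this]
    exact ⟨hb1, hb2⟩
  refine ⟨β, fun x hx => ?_, fun x hx => ?_⟩
  · refine DifferentiableAt.differentiableWithinAt ?_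
    rcases hne x hx with hpx | hqx
    · have h1 : β =ᶠ[𝓝 x] fun y => deriv (fun t => φ t 1 / φ t 0) y / p y := by
        have h2 := (hpd.differentiableAt (isOpen_ball.mem_nhds hx)).continuousAt.eventually_ne hpx
        filter_upwards [h2] with y hy
        simp only [hβ, if_pos hy]
      refine DifferentiableAt.congr_of_eventuallyEq ?_ h1
      exact ((hψ1.deriv isOpen_ball).differentiableAt (isOpen_ball.mem_nhds hx)).div
        (hpd.differentiableAt (isOpen_ball.mem_nhds hx)) hpx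
    · have h1 : β =ᶠ[𝓝 x] fun y => deriv (fun t => φ t 2 / φ t 0) y / q y := by
        have h2 := (hqd.differentiableAt (isOpen_ball.mem_nhds hx)).continuousAt.eventually_ne hqx
        filter_upwards [h2, isOpen_ball.eventually_mem hx] with y hy hyb
        rw [(hβ1 y hyb).2.deriv, mul_div_assoc, div_self hy, mul_one]
      refine DifferentiableAt.congr_of_eventuallyEq ?_ h1
      exact ((hψ2.deriv isOpen_ball).differentiableAt (isOpen_ball.mem_nhds hx)).div
        (hqd.differentiableAt (isOpen_ball.mem_nhds hx)) hqx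
  · exact (hβ1 x hx).1.prodMk (hβ1 x hx).2

end Pool.Agent.H210.Gr.HOM
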