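import Pool.Agent.H210.Green.HomLeaf
import Pool.Graph.R_seed8.R737.HO.Lap

/-! Task HOM (final part) of the proof of S05669: from the affine theorem to the projective one. -/

set_option autoImplicit false

namespace Pool.Agent.H210.Gr

open Metric Set MeasureTheory Topology Filter
open scoped Laplacian ContDiff

namespace HOM

open MvPolynomial (X C pderiv eval)

variable {F : Fin 3 → MvPolynomial (Fin 3) ℂ} {d : ℕ}

/-! ### Touching functions under holomorphic changes of variable -/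

theorem touch_comp (w : ℂ → ℝ) (τ : ℂ → ℂ) (x : ℂ) (hτ : AnalyticAt ℂ τ x) (hτx : τ x = 0)
    (h : TouchBelow w 0) : TouchBelow (fun y => w (τ y)) x := by
  obtain ⟨v, hv, hΔ, h0, hle⟩ := h
  have hτc : ContDiffAt ℝ 2 τ x := (hτ.contDiffAt (n := 2)).restrict_scalars ℝ
  have hv' : ContDiffAt ℝ 2 v (τ x) := by rwa [hτx]
  have hcomp : ContDiffAt ℝ 2 (fun y => v (τ y)) x := hv'.comp x hτc
  refine ⟨fun y => v (τ y), hcomp, ?_, ?_, ?_⟩
  · rw [Pool.Agent.R737.HO.lap_eq_at hcomp]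
    rw [Pool.Agent.R737.HO.lap_eq_at hv] at hΔ
    -- first derivatives near `x`
    have hfd : ∀ h : ℂ, Pool.Agent.R737.HO.pd h (fun y => v (τ y)) =ᶠ[𝓝 x]
        fun y => fderiv ℝ v (τ y) (deriv τ y * h) := by
      intro h
      have e1 : ∀ᶠ y in 𝓝 x, ContDiffAt ℝ 2 v (τ y) :=
        hτc.continuousAt.eventually (hv'.eventually (by simp))
      filter_upwards [e1, hτ.eventually_analyticAt] with y hy1 hy2
      have e2 : HasFDerivAt τ (deriv τ y • (1 : ℂ →L[ℝ] ℂ)) y :=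
        hy2.differentiableAt.hasDerivAt.complexToReal_fderiv
      have e3 := (hy1.differentiableAt (by norm_num)).hasFDerivAt.comp y e2
      unfold Pool.Agent.R737.HO.pd
      have e4 : fderiv ℝ (fun y => v (τ y)) y = (fderiv ℝ v (τ y)).comp (deriv τ y • (1 : ℂ →L[ℝ] ℂ)) := e3.fderiv
      rw [e4]
      simp
    have hD : DifferentiableAt ℝ (fderiv ℝ v) 0 :=
      (hv.fderiv_right (m := 1) (by norm_num)).differentiableAt (by norm_num)
    set B := fderiv ℝ (fderiv ℝ v) 0 with hB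
    have hsecond : ∀ h : ℂ, Pool.Agent.R737.HO.pd h (Pool.Agent.R737.HO.pd h (fun y => v (τ y))) x =
        B (deriv τ x * h) (deriv τ x * h) + fderiv ℝ v 0 (deriv (deriv τ) x * h * h) := by
      intro h
      have e1 : HasFDerivAt τ (deriv τ x • (1 : ℂ →L[ℝ] ℂ)) x :=
        hτ.differentiableAt.hasDerivAt.complexToReal_fderiv
      have e2 : HasFDerivAt (deriv τ) (deriv (deriv τ) x • (1 : ℂ →L[ℝ] ℂ)) x :=
        hτ.deriv.differentiableAt.hasDerivAt.complexToReal_fderiv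
      have hD' : HasFDerivAt (fderiv ℝ v) B (τ x) := by rw [hτx]; exact hD.hasFDerivAt
      have e3 := hD'.comp x e1
      have e4 := e2.mul_const h
      have e5 := HasFDerivAt.clm_apply e3 e4
      have e6 : fderiv ℝ (Pool.Agent.R737.HO.pd h (fun y => v (τ y))) x = _ :=
        (hfd h).fderiv_eq.trans e5.fderiv
      unfold Pool.Agent.R737.HO.pd at e6 ⊢
      rw [e6]
      simp [hτx]
      ring_nf
    rw [hsecond 1, hsecond Complex.I]
    have hB1 : Pool.Agent.R737.HO.pd 1 (Pool.Agent.R737.HO.pd 1 v) 0 = B 1 1 ∧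
        Pool.Agent.R737.HO.pd Complex.I (Pool.Agent.R737.HO.pd Complex.I v) 0 = B Complex.I Complex.I := by
      have h3 : ∀ h : ℂ, Pool.Agent.R737.HO.pd h (Pool.Agent.R737.HO.pd h v) 0 = B h h := by
        intro h
        have e5 := HasFDerivAt.clm_apply hD.hasFDerivAt (hasFDerivAt_const h (0 : ℂ))
        have e6 : fderiv ℝ (Pool.Agent.R737.HO.pd h v) 0 = _ := e5.fderiv
        unfold Pool.Agent.R737.HO.pd at e6 ⊢
        rw [e6]
        simp [hB]
      exact ⟨h3 1, h3 Complex.I⟩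
    rw [hB1.1, hB1.2] at hΔ
    have hlin : ∀ z : ℂ, z = z.re • (1 : ℂ) + z.im • Complex.I := by
      intro z
      simp [Complex.real_smul, Complex.re_add_im]
    have key : B (deriv τ x * 1) (deriv τ x * 1) + B (deriv τ x * Complex.I) (deriv τ x * Complex.I) =
        ((deriv τ x).re ^ 2 + (deriv τ x).im ^ 2) * (B 1 1 + B Complex.I Complex.I) := by
      set T := deriv τ x
      have h1 : T * 1 = T.re • (1 : ℂ) + T.im • Complex.I := by rw [mul_one]; exact hlin T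
      have h2 : T * Complex.I = (-T.im) • (1 : ℂ) + T.re • Complex.I := by
        rw [hlin (T * Complex.I)]; simp
      rw [h1, h2]
      simp only [map_add, map_smul, smul_eq_mul, _root_.add_apply, _root_.smul_apply]
      ring
    have hsum : B (deriv τ x * 1) (deriv τ x * 1) + fderiv ℝ v 0 (deriv (deriv τ) x * 1 * 1) +
        (B (deriv τ x * Complex.I) (deriv τ x * Complex.I) +
          fderiv ℝ v 0 (deriv (deriv τ) x * Complex.I * Complex.I)) =
        ((deriv τ x).re ^ 2 + (deriv τ x).im ^ 2) * (B 1 1 + B Complex.I Complex.I) := by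
      rw [← key]
      have : deriv (deriv τ) x * Complex.I * Complex.I = -(deriv (deriv τ) x * 1 * 1) := by
        rw [mul_assoc, Complex.I_mul_I]; ring
      rw [this, map_neg]
      ring
    rw [hsum]
    positivity
  · simp only [hτx]; exact h0
  · have : Tendsto τ (𝓝 x) (𝓝 0) := by rw [← hτx]; exact hτ.continuousAt
    exact this.eventually hle

/-! ### The projective leaf and the affine leaf -/

variable (F) in
/-- one step of the relation generating the leaf -/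
def Step (x y : Fin 3 → ℂ) : Prop := ∃ φ, Tan F φ ∧ ∃ s ∈ ball (0 : ℂ) 1, ∃ t ∈ ball (0 : ℂ) 1,
  ∃ a b : ℂ, φ s = a • x ∧ φ t = b • y

theorem step_ne {φ : ℂ → Fin 3 → ℂ} (h : Tan F φ) {s : ℂ} (hs : s ∈ ball (0 : ℂ) 1) {a : ℂ}
    {x : Fin 3 → ℂ} (he : φ s = a • x) : a ≠ 0 ∧ x ≠ 0 := by
  have := h.ne s hs
  rw [he] at this
  exact ⟨fun h => this (by rw [h, zero_smul]), fun h => this (by rw [h, smul_zero])⟩

theorem step_zero (hF : ∀ i, (F i).IsHomogeneous d) (hI : Inv F) {x y : Fin 3 → ℂ} (h : Step F x y) :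
    x 0 = 0 ↔ y 0 = 0 := by
  obtain ⟨φ, hφ, s, hs, t, ht, a, b, ha, hb⟩ := h
  have ha0 := (step_ne hφ hs ha).1
  have hb0 := (step_ne hφ ht hb).1
  have h1 : φ s 0 = 0 ↔ x 0 = 0 := by rw [ha]; simp [ha0]
  have h2 : φ t 0 = 0 ↔ y 0 = 0 := by rw [hb]; simp [hb0]
  rw [← h1, ← h2]
  exact ⟨fun h => zero_dichotomy hF hI hφ hs h t ht, fun h => zero_dichotomy hF hI hφ ht h s hs⟩

theorem chain_zero (hF : ∀ i, (F i).IsHomogeneous d) (hI : Inv F) {x y : Fin 3 → ℂ}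
    (h : Relation.ReflTransGen (Step F) x y) : x 0 = 0 ↔ y 0 = 0 := by
  induction h with
  | refl => rfl
  | tail _ h2 ih => exact ih.trans (step_zero hF hI h2)

theorem tan_ne (hF : ∀ i, (F i).IsHomogeneous d) (hI : Inv F) {φ : ℂ → Fin 3 → ℂ} (hφ : Tan F φ)
    {s : ℂ} (hs : s ∈ ball (0 : ℂ) 1) (h : φ s 0 ≠ 0) : ∀ t ∈ ball (0 : ℂ) 1, φ t 0 ≠ 0 :=
  fun _ ht h0 => h (zero_dichotomy hF hI hφ ht h0 s hs)

theorem tan_loc (hF : ∀ i, (F i).IsHomogeneous d) (hd : 2 ≤ d) (hI : Inv F) {S : TSurf (ℂ × ℂ)}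
    (hS : IsLeaf (fol hF hd).v S) {φ : ℂ → Fin 3 → ℂ} (hφ : Tan F φ) {s : ℂ}
    (hs : s ∈ ball (0 : ℂ) 1) (h0 : φ s 0 ≠ 0) (h : proj (φ s) ∈ S.L) :
    S.Loc (fun t => proj (φ t)) 0 1 := by
  obtain ⟨β, hβ, hsol⟩ := psi_sol hF hd hI hφ (tan_ne hF hI hφ hs h0)
  exact hS.sat 0 1 _ β hβ hsol ⟨s, hs, h⟩

theorem step_leaf (hF : ∀ i, (F i).IsHomogeneous d) (hd : 2 ≤ d) (hI : Inv F) {S : TSurf (ℂ × ℂ)}
    (hS : IsLeaf (fol hF hd).v S) {x y : Fin 3 → ℂ} (h : Step F x y) (hx : x 0 ≠ 0)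
    (hxS : proj x ∈ S.L) : proj y ∈ S.L := by
  obtain ⟨φ, hφ, s, hs, t, ht, a, b, ha, hb⟩ := h
  have ha0 := (step_ne hφ hs ha).1
  have hb0 := (step_ne hφ ht hb).1
  have h1 : φ s 0 ≠ 0 := by rw [ha]; simp [ha0, hx]
  have h2 : proj (φ s) ∈ S.L := by rw [ha, proj_smul ha0]; exact hxS
  have h3 := (tan_loc hF hd hI hS hφ hs h1 h2 t ht).1
  simp only at h3
  rwa [hb, proj_smul hb0] at h3

theorem chain_leaf (hF : ∀ i, (F i).IsHomogeneous d) (hd : 2 ≤ d) (hI : Inv F) {S : TSurf (ℂ × ℂ)}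
    (hS : IsLeaf (fol hF hd).v S) {x y : Fin 3 → ℂ} (h : Relation.ReflTransGen (Step F) x y)
    (hx : x 0 ≠ 0) (hxS : proj x ∈ S.L) : proj y ∈ S.L := by
  induction h with
  | refl => exact hxS
  | tail h1 h2 ih => exact step_leaf hF hd hI hS h2 (fun h => hx ((chain_zero hF hI h1).2 h)) ih

theorem tan_const {q : Fin 3 → ℂ} (hq : q ≠ 0) (hs : ¬ ∃ c : ℂ, V F q = c • q) :
    Tan F (fun _ => q) where
  diff := differentiableOn_const _
  ne := fun _ _ => hq
  ns := fun _ _ => hs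
  tan := fun _ _ => ⟨0, 0, by simp⟩

theorem hasDerivAt_lift {f : ℂ → ℂ × ℂ} {f' : ℂ × ℂ} {x : ℂ} (h : HasDerivAt f f' x) :
    HasDerivAt (fun t => lift (f t)) (Fin.cons 0 ![f'.1, f'.2] : Fin 3 → ℂ) x := by
  refine hasDerivAt_pi.2 fun i => ?_
  fin_cases i
  · exact hasDerivAt_const x (1 : ℂ)
  · exact (ContinuousLinearMap.fst ℂ ℂ ℂ).hasFDerivAt.comp_hasDerivAt x h
  · exact (ContinuousLinearMap.snd ℂ ℂ ℂ).hasFDerivAt.comp_hasDerivAt x h

/-- flow discs of the affine leaf are tangent discs -/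
theorem tan_flow (hF : ∀ i, (F i).IsHomogeneous d) (hd : 2 ≤ d) (hI : Inv F) {S : TSurf (ℂ × ℂ)}
    (hS : IsLeaf (fol hF hd).v S) {z : ℂ × ℂ} (hz : z ∈ S.L) :
    Tan F (fun s => lift (S.flow z (S.rad z * s))) := by
  have hr := S.rad_pos z hz
  have hball : ∀ s ∈ ball (0 : ℂ) 1, (S.rad z : ℂ) * s ∈ ball (0 : ℂ) (S.rad z) := by
    intro s hs
    rw [mem_ball_zero_iff] at hs ⊢
    rw [norm_mul, Complex.norm_real, Real.norm_of_nonneg hr.le]
    exact mul_lt_of_lt_one_right hr hs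
  have hmem : ∀ s ∈ ball (0 : ℂ) 1, S.flow z (S.rad z * s) ∈ S.L := by
    intro s hs
    exact S.flow_mem z hz _ (mem_ball_zero_iff.1 (hball s hs))
  have hder : ∀ s ∈ ball (0 : ℂ) 1, HasDerivAt (fun s => S.flow z (S.rad z * s))
      ((S.rad z : ℂ) • (fol hF hd).v (S.flow z (S.rad z * s))) s := by
    intro s hs
    have h1 := hS.hasDeriv z hz _ (hball s hs)
    have h2 : HasDerivAt (fun s : ℂ => (S.rad z : ℂ) * s) (S.rad z : ℂ) s := by
      simpa using (hasDerivAt_id s).const_mul (S.rad z : ℂ)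
    exact h1.scomp s h2
  refine ⟨fun s hs => (hasDerivAt_lift (hder s hs)).differentiableAt.differentiableWithinAt,
    fun s hs h => ?_, fun s hs h => ?_, fun s hs => ?_⟩
  · have := congrFun h 0
    simp at this
  · have h1 : (lift (S.flow z (S.rad z * s))) 0 ≠ 0 := by simp
    have h2 := (v_zero_iff hF hd hI h1).2 h
    rw [proj_lift] at h2
    exact hS.nonsing _ (hmem s hs) h2
  · set y := S.flow z (S.rad z * s) with hy
    refine ⟨-(S.rad z * V F (lift y) 0), S.rad z, ?_⟩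
    rw [(hasDerivAt_lift (hder s hs)).deriv]
    ext i
    fin_cases i
    · simp [← hy]
    · change (S.rad z : ℂ) * ((fol hF hd).v y).1 = -(S.rad z * V F (lift y) 0) * (lift y) 1 + S.rad z * V F (lift y) 1
      rw [fol_v hF hd hI]
      simp only [lift_1]
      ring
    · change (S.rad z : ℂ) * ((fol hF hd).v y).2 = -(S.rad z * V F (lift y) 0) * (lift y) 2 + S.rad z * V F (lift y) 2
      rw [fol_v hF hd hI]
      simp only [lift_2]
      ring

theorem leaf_chain (hF : ∀ i, (F i).IsHomogeneous d) (hd : 2 ≤ d) (hI : Inv F) {S : TSurf (ℂ × ℂ)}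
    (hS : IsLeaf (fol hF hd).v S) {p : ℂ × ℂ} (hp : p ∈ S.L) {z : ℂ × ℂ} (hz : z ∈ S.L) :
    Relation.ReflTransGen (Step F) (lift p) (lift z) := by
  have h := S.conn p hp z hz
  have : z ∈ S.L ∧ Relation.ReflTransGen (Step F) (lift p) (lift z) := by
    clear hz
    induction h with
    | refl => exact ⟨hp, Relation.ReflTransGen.refl⟩
    | @tail x y h1 h2 ih =>
      obtain ⟨hx, hch⟩ := ih
      obtain ⟨t, ht, rfl⟩ := h2
      have hr := S.rad_pos x hx
      refine ⟨S.flow_mem x hx t ht, hch.tail ?_⟩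
      have hrc : (S.rad x : ℂ) ≠ 0 := by exact_mod_cast hr.ne'
      refine ⟨_, tan_flow hF hd hI hS hx, 0, mem_ball_self one_pos, t / S.rad x, ?_, 1, 1, ?_, ?_⟩
      · rw [mem_ball_zero_iff, norm_div, Complex.norm_real, Real.norm_of_nonneg hr.le, div_lt_one hr]
        exact ht
      · simp [S.flow_zero x hx]
      · simp only [one_smul]
        rw [mul_div_cancel₀ _ hrc]
  exact this.2

/-! ### Homogenisation -/

noncomputable def homo (p : MvPolynomial (Fin 2) ℂ) : MvPolynomial (Fin 3) ℂ :=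
  ∑ m ∈ Finset.range (p.totalDegree + 1),
    X 0 ^ (p.totalDegree + 1 - m) * MvPolynomial.rename Fin.succ (MvPolynomial.homogeneousComponent m p)

theorem homo_hom (p : MvPolynomial (Fin 2) ℂ) : (homo p).IsHomogeneous (p.totalDegree + 1) := by
  refine MvPolynomial.IsHomogeneous.sum _ _ _ fun m hm => ?_
  rw [Finset.mem_range] at hm
  have h1 : (X 0 ^ (p.totalDegree + 1 - m) : MvPolynomial (Fin 3) ℂ).IsHomogeneous (p.totalDegree + 1 - m) := by
    simpa using (MvPolynomial.isHomogeneous_X ℂ (0 : Fin 3)).pow (p.totalDegree + 1 - m)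
  have h2 : (MvPolynomial.rename Fin.succ (MvPolynomial.homogeneousComponent m p) :
      MvPolynomial (Fin 3) ℂ).IsHomogeneous m :=
    (MvPolynomial.homogeneousComponent_isHomogeneous m p).rename_isHomogeneous
  have h3 := h1.mul h2
  rwa [show p.totalDegree + 1 - m + m = p.totalDegree + 1 by omega] at h3

theorem homo_eval (p : MvPolynomial (Fin 2) ℂ) (z : ℂ × ℂ) :
    eval (lift z) (homo p) = eval ![z.1, z.2] p := by
  unfold homo
  conv_rhs => rw [← MvPolynomial.sum_homogeneousComponent p]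
  rw [map_sum, map_sum]
  refine Finset.sum_congr rfl fun m _ => ?_
  rw [map_mul, map_pow, MvPolynomial.eval_X, lift_0, one_pow, one_mul, MvPolynomial.eval_rename]
  rfl

theorem homo_ne {p : MvPolynomial (Fin 2) ℂ} (hp : p ≠ 0) : homo p ≠ 0 := by
  intro h
  apply hp
  apply MvPolynomial.funext
  intro x
  have := homo_eval p (x 0, x 1)
  rw [h] at this
  have hx : x = ![x 0, x 1] := by
    ext i; fin_cases i <;> rfl
  rw [hx]
  simpa using this.symm

end HOM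

open HOM in
theorem homog
    (hmain : ∀ (F : Fol), F.HypInf → F.HypFin → ∀ (S : TSurf (ℂ × ℂ)), IsLeaf F.v S → NotAlg S →
      ∃ u, S.GoodFun u)
    (hleaf : ∀ (v : ℂ × ℂ → ℂ × ℂ), Differentiable ℂ v → ∀ (p : ℂ × ℂ), v p ≠ 0 →
      ∃ S : TSurf (ℂ × ℂ), IsLeaf v S ∧ p ∈ S.L)
    (hsub : ∀ (u : ℂ → ℝ), ContinuousOn u (ball 0 1) → (∀ x ∈ ball (0 : ℂ) 1, TouchBelow u x) →
      ∀ (z : ℂ) (r : ℝ), 0 < r → closedBall z r ⊆ ball 0 1 →
        2 * Real.pi * u z ≤ ∫ θ in (0 : ℝ)..(2 * Real.pi), u (circleMap z r θ)) :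
  ∀ (d : ℕ) (F : Fin 3 → MvPolynomial (Fin 3) ℂ), 2 ≤ d →
    (∀ i, (F i).IsHomogeneous d) →
    ∀ (V : (Fin 3 → ℂ) → (Fin 3 → ℂ)), (∀ z i, V z i = MvPolynomial.eval z (F i)) →
    ∀ (Sing : (Fin 3 → ℂ) → Prop), (∀ z, Sing z ↔ (z ≠ 0 ∧ ∃ c : ℂ, V z = c • z)) →
    (∃ S : Finset (Fin 3 → ℂ), ∀ z, Sing z → ∃ s ∈ S, ∃ t : ℂ, z = t • s) →
    (∀ z : Fin 3 → ℂ, z 0 = 0 → V z 0 = 0) →
    (∀ (a : Fin 3 → ℂ) (c : ℂ), a ≠ 0 → V a = c • a → ∃ ν₁ ν₂ : ℂ,
        (Matrix.of fun i j => MvPolynomial.eval a (MvPolynomial.pderiv j (F i))).charpoly =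
          (Polynomial.X - Polynomial.C ((d : ℂ) * c)) * (Polynomial.X - Polynomial.C (ν₁ + c)) *
            (Polynomial.X - Polynomial.C (ν₂ + c)) ∧
        (ν₁ / ν₂).im ≠ 0) →
    ∀ (Tan : (ℂ → (Fin 3 → ℂ)) → Prop), (∀ φ, Tan φ ↔
        (DifferentiableOn ℂ φ (Metric.ball (0 : ℂ) 1) ∧ ∀ t ∈ Metric.ball (0 : ℂ) 1,
          φ t ≠ 0 ∧ ¬ Sing (φ t) ∧ ∃ α β : ℂ, deriv φ t = α • φ t + β • V (φ t))) →
    ∀ (L : (Fin 3 → ℂ) → Prop) (p : Fin 3 → ℂ), p ≠ 0 → ¬ Sing p →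
    (∀ q, L q ↔ Relation.ReflTransGen (fun x y => ∃ φ, Tan φ ∧ ∃ s ∈ Metric.ball (0 : ℂ) 1,
        ∃ t ∈ Metric.ball (0 : ℂ) 1, ∃ a b : ℂ, φ s = a • x ∧ φ t = b • y) p q) →
    (¬ ∃ (k : ℕ) (P : MvPolynomial (Fin 3) ℂ), 0 < k ∧ P.IsHomogeneous k ∧ P ≠ 0 ∧
        ∀ q, L q → MvPolynomial.eval q P = 0) →
    ∃ u : (Fin 3 → ℂ) → ℝ,
      (∃ M : ℝ, ∀ q, L q → |u q| ≤ M) ∧
      (∀ q, L q → ∀ c : ℂ, c ≠ 0 → u (c • q) = u q) ∧
      (∀ φ, Tan φ → (∀ t ∈ Metric.ball (0 : ℂ) 1, L (φ t)) →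
        UpperSemicontinuousOn (fun t => u (φ t)) (Metric.ball (0 : ℂ) 1) ∧
        ∀ z : ℂ, ∀ r : ℝ, 0 < r → Metric.closedBall z r ⊆ Metric.ball (0 : ℂ) 1 →
          2 * Real.pi * u (φ z) ≤
            intervalIntegral (fun θ => u (φ (circleMap z r θ))) 0 (2 * Real.pi) MeasureTheory.volume) ∧
      ∃ q₁ q₂, L q₁ ∧ L q₂ ∧ u q₁ ≠ u q₂ := by
  intro d F hd hF V hV Sing hSing hfin hinv hhyp Tan hTan L p hp hpS hL hna
  have hVV : V = HOM.V F := by
    funext z i; exact hV z i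
  subst hVV
  have hI : Inv F := fun z => by
    have := hinv (Fin.cons 0 z) rfl
    rwa [hV] at this
  have hH : Hyp F d := fun a c ha h => hhyp a c ha (by ext i; rw [hV, h i]; rfl)
  have hTan' : ∀ φ, Tan φ ↔ HOM.Tan F φ := by
    intro φ
    rw [hTan φ]
    constructor
    · rintro ⟨h1, h2⟩
      refine ⟨h1, fun t ht => (h2 t ht).1, fun t ht h => ?_, fun t ht => (h2 t ht).2.2⟩
      exact (h2 t ht).2.1 ((hSing _).2 ⟨(h2 t ht).1, h⟩)
    · rintro ⟨h1, h2, h3, h4⟩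
      exact ⟨h1, fun t ht => ⟨h2 t ht, fun h => h3 t ht ((hSing _).1 h).2, h4 t ht⟩⟩
  have hL' : ∀ q, L q ↔ Relation.ReflTransGen (Step F) p q := by
    intro q
    rw [hL q]
    have : (fun x y => ∃ φ, Tan φ ∧ ∃ s ∈ Metric.ball (0 : ℂ) 1,
        ∃ t ∈ Metric.ball (0 : ℂ) 1, ∃ a b : ℂ, φ s = a • x ∧ φ t = b • y) = Step F := by
      funext x y
      simp only [Step, hTan']
    rw [this]
  have hpns : ¬ ∃ c : ℂ, HOM.V F p = c • p := fun h => hpS ((hSing p).2 ⟨hp, h⟩)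
  -- the leaf is not inside the line at infinity
  have hp0 : p 0 ≠ 0 := by
    intro h0
    apply hna
    refine ⟨1, MvPolynomial.X 0, one_pos, MvPolynomial.isHomogeneous_X _ _, MvPolynomial.X_ne_zero _, fun q hq => ?_⟩
    rw [MvPolynomial.eval_X]
    exact (chain_zero hF hI ((hL' q).1 hq)).1 h0
  have hLne : ∀ q, L q → q 0 ≠ 0 := fun q hq h => hp0 ((chain_zero hF hI ((hL' q).1 hq)).2 h)
  set v := (fol hF hd).v with hv
  have hvp : v (proj p) ≠ 0 := fun h => hpns ((v_zero_iff hF hd hI hp0).1 h)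
  have hvd : Differentiable ℂ v := by
    have h1 : ∀ f : MvPolynomial (Fin 2) ℂ, Differentiable ℂ (fun z : ℂ × ℂ => MvPolynomial.eval ![z.1, z.2] f) := by
      intro f
      induction f using MvPolynomial.induction_on with
      | C a => simp
      | add p q hp hq => simp only [map_add]; exact hp.add hq
      | mul_X p i hp =>
        simp only [map_mul, MvPolynomial.eval_X]
        refine hp.mul ?_
        fin_cases i
        · exact differentiable_fst
        · exact differentiable_snd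
    exact (h1 _).prodMk (h1 _)
  obtain ⟨S, hS, hpSL⟩ := hleaf v hvd (proj p) hvp
  have hLS : ∀ q, L q → proj q ∈ S.L := fun q hq => chain_leaf hF hd hI hS ((hL' q).1 hq) hp0 hpSL
  have hstep0 : Step F p (lift (proj p)) := by
    refine ⟨fun _ => p, tan_const hp hpns, 0, mem_ball_self one_pos, 0, mem_ball_self one_pos, 1, p 0,
      (one_smul _ _).symm, lift_proj hp0⟩
  have hSL : ∀ z ∈ S.L, L (lift z) := by
    intro z hz
    rw [hL']
    exact (Relation.ReflTransGen.single hstep0).trans (leaf_chain hF hd hI hS hpSL hz)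
  have hnaS : NotAlg S := by
    intro f hf
    by_contra hcon
    push Not at hcon
    apply hna
    refine ⟨f.totalDegree + 1, homo f, Nat.succ_pos _, homo_hom f, homo_ne hf, fun q hq => ?_⟩
    rw [lift_proj (hLne q hq), eval_smul_hom (homo_hom f), homo_eval, hcon _ (hLS q hq), mul_zero]
  obtain ⟨u, ⟨M, hM⟩, ⟨z1, hz1, z2, hz2, hne⟩, hu⟩ :=
    hmain (fol hF hd) (hypInf hF hd hI hH) (hypFin hF hd hI hH) S hS hnaS
  refine ⟨fun q => u (proj q), ⟨M, fun q hq => hM _ (hLS q hq)⟩, fun q hq c hc => ?_, ?_,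
    lift z1, lift z2, hSL z1 hz1, hSL z2 hz2, ?_⟩
  · simp only [proj_smul hc]
  · intro φ hφ hφL
    have hφ' := (hTan' φ).1 hφ
    have h0 : (0 : ℂ) ∈ ball (0 : ℂ) 1 := mem_ball_self one_pos
    have hloc := tan_loc hF hd hI hS hφ' h0 (hLne _ (hφL 0 h0)) (hLS _ (hφL 0 h0))
    have hkey : ∀ x ∈ ball (0 : ℂ) 1, ContinuousAt (fun t => u (proj (φ t))) x ∧
        TouchBelow (fun t => u (proj (φ t))) x := by
      intro x hx
      obtain ⟨hxL, ε, hε, hεs, τ, hτ, hτx, hfl⟩ := hloc x hx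
      simp only at hxL hfl
      obtain ⟨hc, ht⟩ := hu _ hxL
      have hnx : ball x ε ∈ 𝓝 x := ball_mem_nhds x hε
      have hτa : AnalyticAt ℂ τ x := hτ.analyticAt hnx
      have hev : (fun t => u (proj (φ t))) =ᶠ[𝓝 x] fun y => u (S.flow (proj (φ x)) (τ y)) := by
        filter_upwards [hnx] with y hy
        rw [(hfl y hy).2]
      constructor
      · have hc0 : ContinuousAt (fun t => u (S.flow (proj (φ x)) t)) (τ x) := by
          rw [hτx]
          exact hc.continuousAt (ball_mem_nhds 0 (S.rad_pos _ hxL))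
        exact (ContinuousAt.comp (f := τ) (x := x) hc0 hτa.continuousAt).congr hev.symm
      · obtain ⟨w, hw1, hw2, hw3, hw4⟩ := touch_comp _ τ x hτa hτx ht
        refine ⟨w, hw1, hw2, hw3.trans hev.symm.eq_of_nhds, ?_⟩
        filter_upwards [hw4, hev] with y hy1 hy2
        rw [hy2]; exact hy1
    have hcont : ContinuousOn (fun t => u (proj (φ t))) (ball 0 1) := fun x hx =>
      (hkey x hx).1.continuousWithinAt
    exact ⟨hcont.upperSemicontinuousOn, fun z r hr hz => hsub _ hcont (fun x hx => (hkey x hx).2) z r hr hz⟩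
  · simp only [proj_lift]
    exact hne

end Pool.Agent.H210.Gr
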