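import Mathlib
import Pool.Agent.H210.Green.Defs

set_option autoImplicit false


/-! # The equation `(x - p) ψ' + κ ψ = φ` -/

namespace Pool.Agent.H210.Gr.LIN

open Metric Set MeasureTheory Topology Filter Complex

theorem star_pt {U : Set ℂ} {p : ℂ} (hs : StarConvex ℝ p U) {x : ℂ} (hx : x ∈ U) {t : ℝ}
    (h0 : 0 ≤ t) (h1 : t ≤ 1) : p + t * (x - p) ∈ U := by
  have h := hs hx (sub_nonneg.2 h1) h0 (by ring)
  have e : (1 - t) • p + t • x = p + t * (x - p) := by
    simp only [real_smul]; push_cast; ring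
  rwa [e] at h

theorem euler_pos (U : Set ℂ) (hU : IsOpen U) (p : ℂ) (hs : StarConvex ℝ p U) (κ : ℂ)
    (hκ : 0 < κ.re) (φ : ℂ → ℂ) (hφ : DifferentiableOn ℂ φ U) :
    ∃ ψ : ℂ → ℂ, DifferentiableOn ℂ ψ U ∧ ∀ x ∈ U, (x - p) * deriv ψ x + κ * ψ x = φ x := by
  have h01 : uIcc (0 : ℝ) 1 = Icc 0 1 := uIcc_of_le zero_le_one
  have hφc : ContinuousOn φ U := hφ.continuousOn
  have hφ' : ContinuousOn (deriv φ) U := (hφ.deriv hU).continuousOn
  have hlin : ∀ x : ℂ, Continuous (fun t : ℝ => p + t * (x - p)) := fun x => by fun_prop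
  have hmaps : ∀ x ∈ U, MapsTo (fun t : ℝ => p + t * (x - p)) (Icc 0 1) U :=
    fun x hx t ht => star_pt hs hx ht.1 ht.2
  have hcφ : ∀ x ∈ U, ContinuousOn (fun t : ℝ => φ (p + t * (x - p))) (Icc 0 1) :=
    fun x hx => hφc.comp (hlin x).continuousOn (hmaps x hx)
  have hcφ' : ∀ x ∈ U, ContinuousOn (fun t : ℝ => deriv φ (p + t * (x - p))) (Icc 0 1) :=
    fun x hx => hφ'.comp (hlin x).continuousOn (hmaps x hx)
  have hpow : IntervalIntegrable (fun t : ℝ => (t : ℂ) ^ (κ - 1)) volume 0 1 :=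
    intervalIntegral.intervalIntegrable_cpow' (by simp; linarith)
  have hpow1 : Continuous (fun t : ℝ => (t : ℂ) ^ κ) := continuous_ofReal_cpow_const hκ
  set F : ℂ → ℝ → ℂ := fun x t => (t : ℂ) ^ (κ - 1) * φ (p + t * (x - p)) with hF
  set F' : ℂ → ℝ → ℂ := fun x t => (t : ℂ) ^ (κ - 1) * (deriv φ (p + t * (x - p)) * t) with hF'
  have hFint : ∀ x ∈ U, IntervalIntegrable (F x) volume 0 1 := fun x hx =>
    hpow.mul_continuousOn (by rw [h01]; exact hcφ x hx)
  have hF'int : ∀ x ∈ U, IntervalIntegrable (F' x) volume 0 1 := fun x hx =>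
    hpow.mul_continuousOn (by
      rw [h01]; exact (hcφ' x hx).mul (Continuous.continuousOn (by fun_prop)))
  have hder : ∀ x ∈ U, HasDerivAt (fun x => ∫ t in (0 : ℝ)..1, F x t)
      (∫ t in (0 : ℝ)..1, F' x t) x := by
    intro x₀ hx₀
    obtain ⟨δ, hδ, hball⟩ := Metric.nhds_basis_closedBall.mem_iff.1 (hU.mem_nhds hx₀)
    have hK : IsCompact ((fun q : ℝ × ℂ => p + q.1 * (q.2 - p)) '' (Icc 0 1 ×ˢ closedBall x₀ δ)) :=
      (isCompact_Icc.prod (isCompact_closedBall x₀ δ)).image (by fun_prop)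
    have hKU : (fun q : ℝ × ℂ => p + q.1 * (q.2 - p)) '' (Icc 0 1 ×ˢ closedBall x₀ δ) ⊆ U := by
      rintro _ ⟨⟨t, x⟩, ⟨ht, hx⟩, rfl⟩
      exact star_pt hs (hball hx) ht.1 ht.2
    obtain ⟨B, hB⟩ := hK.exists_bound_of_continuousOn (hφ'.mono hKU)
    have hB0 : 0 ≤ B := by
      refine (norm_nonneg _).trans (hB _ ⟨⟨0, x₀⟩, ⟨⟨le_rfl, zero_le_one⟩, ?_⟩, rfl⟩)
      exact mem_closedBall_self hδ.le
    refine (intervalIntegral.hasDerivAt_integral_of_dominated_loc_of_deriv_le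
      (s := ball x₀ δ) (bound := fun t => ‖(t : ℂ) ^ (κ - 1)‖ * B) (ball_mem_nhds x₀ hδ)
      ?_ (hFint x₀ hx₀) (hF'int x₀ hx₀).def'.aestronglyMeasurable ?_ ?_ ?_).2
    · filter_upwards [hU.mem_nhds hx₀] with x hx
      exact (hFint x hx).def'.aestronglyMeasurable
    · refine Eventually.of_forall fun t ht x hx => ?_
      rw [uIoc_of_le zero_le_one] at ht
      rw [hF']
      simp only [norm_mul]
      refine mul_le_mul_of_nonneg_left ?_ (norm_nonneg _)
      have h1 : ‖deriv φ (p + t * (x - p))‖ ≤ B :=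
        hB _ ⟨⟨t, x⟩, ⟨⟨ht.1.le, ht.2⟩, ball_subset_closedBall hx⟩, rfl⟩
      have h2 : ‖(t : ℂ)‖ ≤ 1 := by
        rw [norm_real, Real.norm_eq_abs, abs_of_pos ht.1]; exact ht.2
      calc ‖deriv φ (p + t * (x - p))‖ * ‖(t : ℂ)‖ ≤ B * 1 :=
            mul_le_mul h1 h2 (norm_nonneg _) hB0
        _ = B := mul_one B
    · exact hpow.norm.mul_const B
    · refine Eventually.of_forall fun t ht x hx => ?_
      rw [uIoc_of_le zero_le_one] at ht
      have hxU : p + t * (x - p) ∈ U := star_pt hs (hball (ball_subset_closedBall hx)) ht.1.le ht.2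
      have h1 : HasDerivAt φ (deriv φ (p + t * (x - p))) (p + t * (x - p)) :=
        (hφ.differentiableAt (hU.mem_nhds hxU)).hasDerivAt
      have h2 : HasDerivAt (fun x : ℂ => p + t * (x - p)) (t : ℂ) x := by
        simpa using (((hasDerivAt_id x).sub_const p).const_mul (t : ℂ)).const_add p
      exact (h1.comp x h2).const_mul _
  refine ⟨fun x => ∫ t in (0 : ℝ)..1, F x t, fun x hx =>
    (hder x hx).differentiableAt.differentiableWithinAt, fun x hx => ?_⟩
  rw [(hder x hx).deriv]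
  -- integration by parts
  have hκ0 : κ ≠ 0 := by rintro rfl; simp at hκ
  have hkey : ∫ t in (0 : ℝ)..1, (κ * F x t + (x - p) * F' x t) =
      (1 : ℝ) ^ κ * φ (p + (1 : ℝ) * (x - p)) - ((0 : ℝ) : ℂ) ^ κ * φ (p + (0 : ℝ) * (x - p)) := by
    have := intervalIntegral.integral_eq_sub_of_hasDeriv_right_of_le (a := 0) (b := 1)
      (f := fun t : ℝ => (t : ℂ) ^ κ * φ (p + t * (x - p)))
      (f' := fun t : ℝ => κ * F x t + (x - p) * F' x t) zero_le_one
      (hpow1.continuousOn.mul (hcφ x hx)) ?_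
      (((hFint x hx).const_mul κ).add ((hF'int x hx).const_mul (x - p)))
    · simpa using this
    · intro t ht
      have hxU : p + t * (x - p) ∈ U := star_pt hs hx ht.1.le ht.2.le
      have h1 : HasDerivAt φ (deriv φ (p + t * (x - p))) (p + t * (x - p)) :=
        (hφ.differentiableAt (hU.mem_nhds hxU)).hasDerivAt
      have h2 : HasDerivAt (fun t : ℝ => p + (t : ℂ) * (x - p)) (x - p) t := by
        simpa using ((Complex.ofRealCLM.hasDerivAt (x := t)).mul_const (x - p)).const_add p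
      have h3 : HasDerivAt (fun t : ℝ => φ (p + t * (x - p)))
          (deriv φ (p + t * (x - p)) * (x - p)) t := by
        have := h1.comp_of_eq t h2 rfl
        exact this
      have h4 := (hasDerivAt_ofReal_cpow_const ht.1.ne' hκ0).mul h3
      refine (h4.congr_deriv ?_).hasDerivWithinAt
      have h5 : (t : ℂ) ^ κ = (t : ℂ) ^ (κ - 1) * t := by
        have ht0 : (t : ℂ) ≠ 0 := by exact_mod_cast ht.1.ne'
        have h6 := Complex.cpow_add (κ - 1) 1 ht0
        rw [sub_add_cancel, cpow_one] at h6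
        exact h6
      rw [h5]
      simp only [hF, hF']
      ring
  rw [intervalIntegral.integral_add ((hFint x hx).const_mul κ) ((hF'int x hx).const_mul (x - p)),
    intervalIntegral.integral_const_mul, intervalIntegral.integral_const_mul] at hkey
  rw [add_comm, hkey]
  simp [hκ0]

theorem euler_ode_aux (U : Set ℂ) (hU : IsOpen U) (p : ℂ) (hp : p ∈ U) (hs : StarConvex ℝ p U)
    (n : ℕ) : ∀ (κ : ℂ), 0 < κ.re + n → (∀ n : ℕ, κ ≠ -(n : ℂ)) → ∀ φ : ℂ → ℂ,
    DifferentiableOn ℂ φ U →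
    ∃ ψ : ℂ → ℂ, DifferentiableOn ℂ ψ U ∧ ∀ x ∈ U, (x - p) * deriv ψ x + κ * ψ x = φ x := by
  induction n with
  | zero =>
    intro κ hκ _ φ hφ
    exact euler_pos U hU p hs κ (by simpa using hκ) φ hφ
  | succ n ih =>
    intro κ hκ hκn φ hφ
    have hκ0 : κ ≠ 0 := by simpa using hκn 0
    obtain ⟨ψ, hψ, hode⟩ := ih (κ + 1) (by simp; push_cast at hκ; linarith)
      (fun m hm => hκn (m + 1) (by push_cast; linear_combination hm)) (dslope φ p)
      ((Complex.differentiableOn_dslope (hU.mem_nhds hp)).2 hφ)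
    refine ⟨fun x => φ p / κ + (x - p) * ψ x, ?_, fun x hx => ?_⟩
    · exact (differentiableOn_const _).add
        ((differentiableOn_id.sub (differentiableOn_const _)).mul hψ)
    · have h1 : HasDerivAt ψ (deriv ψ x) x := (hψ.differentiableAt (hU.mem_nhds hx)).hasDerivAt
      have h2 : HasDerivAt (fun x => φ p / κ + (x - p) * ψ x) (ψ x + (x - p) * deriv ψ x) x := by
        simpa using (((hasDerivAt_id x).sub_const p).mul h1).const_add (φ p / κ)
      rw [h2.deriv]
      have h3 := hode x hx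
      have h4 : (x - p) * dslope φ p x = φ x - φ p := by
        have := sub_smul_dslope φ p x
        simpa [smul_eq_mul] using this
      field_simp
      linear_combination (x - p) * h3 + h4

end Pool.Agent.H210.Gr.LIN

namespace Pool.Agent.H210.Gr

/-- `(x - p) ψ' + κ ψ = φ` on a star-shaped open set -/
theorem euler_ode (U : Set ℂ) (hU : IsOpen U) (p : ℂ) (hp : p ∈ U) (hs : StarConvex ℝ p U) (κ : ℂ)
    (hκ : ∀ n : ℕ, κ ≠ -(n : ℂ)) (φ : ℂ → ℂ) (hφ : DifferentiableOn ℂ φ U) :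
    ∃ ψ : ℂ → ℂ, DifferentiableOn ℂ ψ U ∧ ∀ x ∈ U, (x - p) * deriv ψ x + κ * ψ x = φ x := by
  obtain ⟨n, hn⟩ := exists_nat_gt (-κ.re)
  exact LIN.euler_ode_aux U hU p hp hs n κ (by linarith) hκ φ hφ

end Pool.Agent.H210.Gr


/-! # Linear equations with regular singular points -/

namespace Pool.Agent.H210.Gr.LIN

open Metric Set MeasureTheory Topology Filter Complex Polynomial

/-- entire functions of polynomial growth are polynomials -/
theorem poly_of_growth (N : ℕ) : ∀ f : ℂ → ℂ, Differentiable ℂ f →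
    (∃ C : ℝ, ∀ x, ‖f x‖ ≤ C * (1 + ‖x‖) ^ N) → ∃ P : Polynomial ℂ, ∀ x, f x = P.eval x := by
  induction N with
  | zero =>
    rintro f hf ⟨C, hC⟩
    refine ⟨Polynomial.C (f 0), fun x => ?_⟩
    rw [eval_C]
    refine hf.apply_eq_apply_of_bounded ?_ x 0
    refine isBounded_iff_forall_norm_le.2 ⟨C, ?_⟩
    rintro _ ⟨y, rfl⟩
    simpa using hC y
  | succ N ih =>
    rintro f hf ⟨C, hC⟩
    have hg : Differentiable ℂ (dslope f 0) := by
      rw [← differentiableOn_univ]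
      exact (Complex.differentiableOn_dslope univ_mem).2 hf.differentiableOn
    have hC0 : 0 ≤ C := by
      have := (norm_nonneg _).trans (hC 0)
      simpa using this
    have hf0 : ‖f 0‖ ≤ C := by simpa using hC 0
    have hmul : ∀ x, x * dslope f 0 x = f x - f 0 := by
      intro x
      have := sub_smul_dslope f 0 x
      simpa [smul_eq_mul] using this
    obtain ⟨B, hB⟩ := (isCompact_closedBall (0 : ℂ) 1).exists_bound_of_continuousOn
      hg.continuous.continuousOn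
    have hbd : ∀ x, ‖dslope f 0 x‖ ≤ max B (4 * C) * (1 + ‖x‖) ^ N := by
      intro x
      rcases le_total ‖x‖ 1 with hx | hx
      · have h1 : ‖dslope f 0 x‖ ≤ B := hB x (by simpa using hx)
        have h2 : (1 : ℝ) ≤ (1 + ‖x‖) ^ N := one_le_pow₀ (by linarith [norm_nonneg x])
        have h3 : 0 ≤ max B (4 * C) := le_max_of_le_right (by positivity)
        calc ‖dslope f 0 x‖ ≤ max B (4 * C) * 1 := by
              rw [mul_one]; exact h1.trans (le_max_left _ _)
          _ ≤ _ := mul_le_mul_of_nonneg_left h2 h3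
      · have h0 : 0 < ‖x‖ := by linarith
        have h1 : ‖x‖ * ‖dslope f 0 x‖ ≤ 2 * C * (1 + ‖x‖) ^ (N + 1) := by
          rw [← norm_mul, hmul x]
          have h4 : (1 : ℝ) ≤ (1 + ‖x‖) ^ (N + 1) := one_le_pow₀ (by linarith [norm_nonneg x])
          calc ‖f x - f 0‖ ≤ ‖f x‖ + ‖f 0‖ := norm_sub_le _ _
            _ ≤ C * (1 + ‖x‖) ^ (N + 1) + C * (1 + ‖x‖) ^ (N + 1) := by
                refine add_le_add (hC x) (hf0.trans ?_)
                nlinarith
            _ = _ := by ring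
        have h2 : (1 + ‖x‖) ^ (N + 1) ≤ (1 + ‖x‖) ^ N * (2 * ‖x‖) := by
          rw [pow_succ]
          exact mul_le_mul_of_nonneg_left (by linarith) (by positivity)
        have h5 : ‖x‖ * ‖dslope f 0 x‖ ≤ ‖x‖ * (4 * C * (1 + ‖x‖) ^ N) := by
          refine h1.trans ?_
          have := mul_le_mul_of_nonneg_left h2 (show 0 ≤ 2 * C by positivity)
          nlinarith
        have h6 := le_of_mul_le_mul_left h5 h0
        exact h6.trans (mul_le_mul_of_nonneg_right (le_max_right _ _) (by positivity))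
    obtain ⟨P, hP⟩ := ih (dslope f 0) hg ⟨max B (4 * C), hbd⟩
    refine ⟨Polynomial.C (f 0) + X * P, fun x => ?_⟩
    have := hmul x
    simp only [eval_add, eval_C, eval_mul, eval_X]
    rw [← hP x, this]; ring

theorem eval_le {p : Polynomial ℂ} {n : ℕ} (hp : p.natDegree ≤ n) :
    ∃ S : ℝ, 0 ≤ S ∧ ∀ x : ℂ, 1 ≤ ‖x‖ → ‖p.eval x‖ ≤ S * ‖x‖ ^ n := by
  refine ⟨∑ i ∈ Finset.range (n + 1), ‖p.coeff i‖, Finset.sum_nonneg fun _ _ => norm_nonneg _,
    fun x hx => ?_⟩
  rw [eval_eq_sum_range' (n := n + 1) (by omega), Finset.sum_mul]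
  refine (norm_sum_le _ _).trans (Finset.sum_le_sum fun i hi => ?_)
  rw [norm_mul, norm_pow]
  refine mul_le_mul_of_nonneg_left (pow_le_pow_right₀ hx ?_) (norm_nonneg _)
  have := Finset.mem_range.1 hi
  omega

theorem eval_ge {p : Polynomial ℂ} {n : ℕ} (hp : p.natDegree ≤ n + 1) (hc : p.coeff (n + 1) ≠ 0) :
    ∃ R c : ℝ, 1 ≤ R ∧ 0 < c ∧ ∀ x : ℂ, R ≤ ‖x‖ → c * ‖x‖ ^ (n + 1) ≤ ‖p.eval x‖ := by
  set S : ℝ := ∑ i ∈ Finset.range (n + 1), ‖p.coeff i‖ with hS
  have hS0 : 0 ≤ S := Finset.sum_nonneg fun _ _ => norm_nonneg _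
  have hl : 0 < ‖p.coeff (n + 1)‖ := norm_pos_iff.2 hc
  refine ⟨max 1 (2 * S / ‖p.coeff (n + 1)‖), ‖p.coeff (n + 1)‖ / 2, le_max_left _ _, by positivity,
    fun x hx => ?_⟩
  have hx1 : 1 ≤ ‖x‖ := (le_max_left _ _).trans hx
  have hx2 : 2 * S ≤ ‖p.coeff (n + 1)‖ * ‖x‖ := by
    have := (le_max_right _ _).trans hx
    rw [div_le_iff₀ hl] at this
    linarith
  rw [eval_eq_sum_range' (n := n + 2) (by omega), Finset.sum_range_succ]
  have h1 : ‖∑ i ∈ Finset.range (n + 1), p.coeff i * x ^ i‖ ≤ S * ‖x‖ ^ n := by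
    rw [hS, Finset.sum_mul]
    refine (norm_sum_le _ _).trans (Finset.sum_le_sum fun i hi => ?_)
    rw [norm_mul, norm_pow]
    refine mul_le_mul_of_nonneg_left (pow_le_pow_right₀ hx1 ?_) (norm_nonneg _)
    have := Finset.mem_range.1 hi
    omega
  have h2 : ‖p.coeff (n + 1)‖ * ‖x‖ ^ (n + 1) - S * ‖x‖ ^ n ≤
      ‖∑ i ∈ Finset.range (n + 1), p.coeff i * x ^ i + p.coeff (n + 1) * x ^ (n + 1)‖ := by
    have h3 := norm_sub_norm_le (p.coeff (n + 1) * x ^ (n + 1))
      (-∑ i ∈ Finset.range (n + 1), p.coeff i * x ^ i)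
    rw [norm_neg, sub_neg_eq_add, add_comm (p.coeff (n + 1) * x ^ (n + 1)), norm_mul, norm_pow] at h3
    linarith
  refine le_trans ?_ h2
  have h4 : 0 ≤ ‖x‖ ^ n := by positivity
  rw [pow_succ]
  nlinarith

/-- polynomial growth of the entire solutions -/
theorem growth {A b G : Polynomial ℂ} {n : ℕ} (hA : A.natDegree ≤ n + 1)
    (hA0 : A.coeff (n + 1) ≠ 0) (hb : b.natDegree ≤ n) {s : ℂ → ℂ} (hs : Differentiable ℂ s)
    (hode : ∀ x, A.eval x * deriv s x + b.eval x * s x = G.eval x) :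
    ∃ (N : ℕ) (C : ℝ), ∀ x, ‖s x‖ ≤ C * (1 + ‖x‖) ^ N := by
  obtain ⟨R, c, hR, hc, hAge⟩ := eval_ge hA hA0
  obtain ⟨S, hS, hble⟩ := eval_le hb
  obtain ⟨S', hS', hGle⟩ := eval_le (le_refl G.natDegree)
  obtain ⟨B, hB⟩ := (isCompact_closedBall (0 : ℂ) R).exists_bound_of_continuousOn
    hs.continuous.continuousOn
  have hB0 : 0 ≤ B := (norm_nonneg _).trans (hB 0 (mem_closedBall_self (by linarith)))
  obtain ⟨K, hK⟩ := exists_nat_ge (S / c + 1)
  have hSc : 0 ≤ S / c := by positivity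
  have hK1 : (1 : ℝ) ≤ K := by linarith
  set M := G.natDegree with hM
  set C' : ℝ := S' / c with hC'
  have hC'0 : 0 ≤ C' := by positivity
  -- the differential inequality
  have hineq : ∀ x : ℂ, R ≤ ‖x‖ → ‖x * deriv s x‖ ≤ K * ‖s x‖ + C' * ‖x‖ ^ M := by
    intro x hx
    have hx1 : 1 ≤ ‖x‖ := hR.trans hx
    have hx0 : 0 < ‖x‖ := by linarith
    have h1 : A.eval x * (x * deriv s x) = x * (G.eval x - b.eval x * s x) := by
      linear_combination x * hode x
    have h2 : ‖A.eval x‖ * ‖x * deriv s x‖ ≤ ‖x‖ * (S' * ‖x‖ ^ M + S * ‖x‖ ^ n * ‖s x‖) := by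
      rw [← norm_mul, h1, norm_mul]
      refine mul_le_mul_of_nonneg_left ?_ hx0.le
      refine (norm_sub_le _ _).trans (add_le_add (hGle x hx1) ?_)
      rw [norm_mul]
      exact mul_le_mul_of_nonneg_right (hble x hx1) (norm_nonneg _)
    have h3 : c * ‖x‖ ^ (n + 1) * ‖x * deriv s x‖ ≤ ‖A.eval x‖ * ‖x * deriv s x‖ :=
      mul_le_mul_of_nonneg_right (hAge x hx) (norm_nonneg _)
    have h4 : 1 ≤ ‖x‖ ^ n := one_le_pow₀ hx1
    have h5 : c * ‖x‖ ^ (n + 1) * ‖x * deriv s x‖ ≤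
        c * ‖x‖ ^ (n + 1) * (S / c * ‖s x‖ + S' / c * ‖x‖ ^ M) := by
      refine (h3.trans h2).trans ?_
      have h6 : c * ‖x‖ ^ (n + 1) * (S / c * ‖s x‖ + S' / c * ‖x‖ ^ M) =
          ‖x‖ * (‖x‖ ^ n * (S' * ‖x‖ ^ M) + S * ‖x‖ ^ n * ‖s x‖) := by
        rw [pow_succ]; field_simp; ring
      rw [h6]
      refine mul_le_mul_of_nonneg_left (add_le_add ?_ le_rfl) hx0.le
      exact le_mul_of_one_le_left (by positivity) h4
    have h7 := le_of_mul_le_mul_left h5 (by positivity)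
    have h8 : S / c * ‖s x‖ ≤ K * ‖s x‖ := mul_le_mul_of_nonneg_right (by linarith) (norm_nonneg _)
    linarith
  refine ⟨K + M, B + C', fun x => ?_⟩
  rcases le_total ‖x‖ R with hx | hx
  · have h1 : ‖s x‖ ≤ B := hB x (by simpa using hx)
    have h2 : (1 : ℝ) ≤ (1 + ‖x‖) ^ (K + M) := one_le_pow₀ (by linarith [norm_nonneg x])
    calc ‖s x‖ ≤ (B + C') * 1 := by linarith
      _ ≤ _ := mul_le_mul_of_nonneg_left h2 (by positivity)
  · have hx0 : 0 < ‖x‖ := by linarith
    set T : ℝ := Real.log (‖x‖ / R) with hT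
    have hR0 : 0 < R := by linarith
    have hT0 : 0 ≤ T := Real.log_nonneg (by rw [le_div_iff₀ hR0]; linarith)
    have hexpT : Real.exp T = ‖x‖ / R := Real.exp_log (by positivity)
    set w : ℂ := (R / ‖x‖ : ℝ) • x with hw
    have hwn : ‖w‖ = R := by
      rw [hw, norm_smul, Real.norm_eq_abs, abs_of_pos (by positivity)]
      field_simp
    have hxw : (Real.exp T : ℂ) * w = x := by
      rw [hexpT, hw, real_smul, ← mul_assoc, ← ofReal_mul]
      have : ‖x‖ / R * (R / ‖x‖) = 1 := by field_simp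
      rw [this]; simp
    have hder : ∀ t : ℝ, HasDerivAt (fun t : ℝ => s ((Real.exp t : ℂ) * w))
        (((Real.exp t : ℂ) * w) * deriv s ((Real.exp t : ℂ) * w)) t := by
      intro t
      have h1 : HasDerivAt (fun t : ℝ => (Real.exp t : ℂ) * w) ((Real.exp t : ℂ) * w) t :=
        ((Real.hasDerivAt_exp t).ofReal_comp).mul_const w
      have h2 : HasDerivAt s (deriv s ((Real.exp t : ℂ) * w)) ((Real.exp t : ℂ) * w) :=
        (hs _).hasDerivAt
      have h3 := h2.comp_of_eq t h1 rfl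
      exact h3.congr_deriv (mul_comm _ _)
    have hnorm : ∀ t : ℝ, ‖(Real.exp t : ℂ) * w‖ = Real.exp t * R := by
      intro t
      rw [norm_mul, hwn, norm_real, Real.norm_eq_abs, abs_of_pos (Real.exp_pos t)]
    have hgr := norm_le_gronwallBound_of_norm_deriv_right_le (a := 0) (b := T)
      (f := fun t : ℝ => s ((Real.exp t : ℂ) * w))
      (f' := fun t : ℝ => ((Real.exp t : ℂ) * w) * deriv s ((Real.exp t : ℂ) * w))
      (δ := B) (K := K) (ε := C' * ‖x‖ ^ M)
      (fun t _ => (hder t).continuousAt.continuousWithinAt)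
      (fun t _ => (hder t).hasDerivWithinAt) ?_ ?_ T ⟨hT0, le_rfl⟩
    · rw [sub_zero, gronwallBound_of_K_ne_0 (by linarith)] at hgr
      simp only [hxw] at hgr
      have h1 : Real.exp (K * T) ≤ ‖x‖ ^ K := by
        rw [Real.exp_nat_mul, hexpT]
        exact pow_le_pow_left₀ (by positivity) (div_le_self hx0.le hR) _
      have h2 : C' * ‖x‖ ^ M / K * (Real.exp (K * T) - 1) ≤ C' * ‖x‖ ^ M * ‖x‖ ^ K := by
        have h3 : C' * ‖x‖ ^ M / K ≤ C' * ‖x‖ ^ M := div_le_self (by positivity) hK1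
        have h4 : 0 ≤ Real.exp (K * T) - 1 := by
          have := Real.one_le_exp (show 0 ≤ K * T by positivity)
          linarith
        exact mul_le_mul h3 (by linarith) h4 (by positivity)
      have h5 : ‖x‖ ^ K ≤ (1 + ‖x‖) ^ (K + M) := by
        calc ‖x‖ ^ K ≤ (1 + ‖x‖) ^ K := pow_le_pow_left₀ hx0.le (by linarith) _
          _ ≤ (1 + ‖x‖) ^ (K + M) := pow_le_pow_right₀ (by linarith) (by omega)
      have h6 : ‖x‖ ^ M * ‖x‖ ^ K ≤ (1 + ‖x‖) ^ (K + M) := by
        rw [← pow_add, add_comm M K]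
        exact pow_le_pow_left₀ hx0.le (by linarith) _
      calc ‖s x‖ ≤ B * Real.exp (K * T) + C' * ‖x‖ ^ M / K * (Real.exp (K * T) - 1) := hgr
        _ ≤ B * (1 + ‖x‖) ^ (K + M) + C' * (1 + ‖x‖) ^ (K + M) := by
            refine add_le_add (mul_le_mul_of_nonneg_left (h1.trans h5) hB0) (h2.trans ?_)
            rw [mul_assoc]
            exact mul_le_mul_of_nonneg_left h6 hC'0
        _ = _ := by ring
    · simp only [Real.exp_zero, ofReal_one, one_mul]
      exact hB w (by simp [hwn])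
    · intro t ht
      have h1 : R ≤ ‖(Real.exp t : ℂ) * w‖ := by
        rw [hnorm]
        have := Real.one_le_exp ht.1
        nlinarith
      refine (hineq _ h1).trans (add_le_add le_rfl ?_)
      refine mul_le_mul_of_nonneg_left (pow_le_pow_left₀ (norm_nonneg _) ?_ _) hC'0
      rw [hnorm]
      have h2 : Real.exp t ≤ Real.exp T := Real.exp_le_exp.2 ht.2.le
      rw [hexpT] at h2
      calc Real.exp t * R ≤ ‖x‖ / R * R := mul_le_mul_of_nonneg_right h2 hR0.le
        _ = ‖x‖ := by field_simp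

end Pool.Agent.H210.Gr.LIN


namespace Pool.Agent.H210.Gr.LIN

open Metric Set MeasureTheory Topology Filter Complex Polynomial

/-- existence of local solutions on a convex open set with exactly one root -/
theorem local_sol (D : InfD) (k : ℕ) (hk : 1 ≤ k) (G : Polynomial ℂ) (x₁ : ℂ)
    (h1 : D.A.eval x₁ = 0) (U : Set ℂ) (hU : IsOpen U) (hUc : Convex ℝ U) (hx₁ : x₁ ∈ U)
    (honly : ∀ x ∈ U, D.A.eval x = 0 → x = x₁) :
    ∃ σ : ℂ → ℂ, DifferentiableOn ℂ σ U ∧ ∀ x ∈ U, D.A.eval x * deriv σ x +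
        (k * D.β.eval x - (derivative D.A).eval x) * σ x = G.eval x := by
  have hyp := D.hyp x₁ h1
  change (D.β.eval x₁ / (derivative D.A).eval x₁).im ≠ 0 at hyp
  have hA' : (derivative D.A).eval x₁ ≠ 0 := by
    intro h0
    rw [h0] at hyp
    simp at hyp
  obtain ⟨A1, hA1⟩ := dvd_iff_isRoot.2 (show IsRoot D.A x₁ from h1)
  have hAe : ∀ x, D.A.eval x = (x - x₁) * A1.eval x := by
    intro x; rw [hA1]; simp
  have hA'1 : (derivative D.A).eval x₁ = A1.eval x₁ := by
    rw [hA1]; simp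
  have hA1ne : ∀ x ∈ U, A1.eval x ≠ 0 := by
    intro x hx h0
    have : D.A.eval x = 0 := by rw [hAe, h0, mul_zero]
    have hx' := honly x hx this
    rw [hx'] at h0
    exact hA' (hA'1.trans h0)
  have hs : StarConvex ℝ x₁ U := hUc.starConvex hx₁
  set q : ℂ → ℂ := fun x => (k * D.β.eval x - (derivative D.A).eval x) / A1.eval x with hq
  have hqd : DifferentiableOn ℂ q U := by
    refine DifferentiableOn.div ?_ (A1.differentiable.differentiableOn) hA1ne
    exact ((D.β.differentiable.const_mul _).sub (derivative D.A).differentiable).differentiableOn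
  have hκ : q x₁ = k * (D.β.eval x₁ / (derivative D.A).eval x₁) - 1 := by
    simp only [hq]
    rw [hA'1]
    have := hA1ne x₁ hx₁
    field_simp
  have hκim : (q x₁).im ≠ 0 := by
    rw [hκ]
    have : ((k : ℂ) * (D.β.eval x₁ / (derivative D.A).eval x₁) - 1).im =
        k * (D.β.eval x₁ / (derivative D.A).eval x₁).im := by
      simp
    rw [this]
    exact mul_ne_zero (by exact_mod_cast (by omega : k ≠ 0)) hyp
  have hκn : ∀ n : ℕ, q x₁ ≠ -(n : ℂ) := by
    intro n h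
    rw [h] at hκim
    simp at hκim
  have hq1d : DifferentiableOn ℂ (dslope q x₁) U :=
    (Complex.differentiableOn_dslope (hU.mem_nhds hx₁)).2 hqd
  have hq1 : ∀ x, (x - x₁) * dslope q x₁ x = q x - q x₁ := by
    intro x
    have := sub_smul_dslope q x₁ x
    simpa [smul_eq_mul] using this
  obtain ⟨ψ, hψd, hψ⟩ := euler_ode U hU x₁ hx₁ hs 1 (by
    intro n h
    have h2 := congrArg Complex.re h
    simp at h2
    have : (0 : ℝ) ≤ n := Nat.cast_nonneg n
    linarith) (dslope q x₁) hq1d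
  set E : ℂ → ℂ := fun x => (x - x₁) * ψ x with hE
  have hEd : ∀ x ∈ U, HasDerivAt E (dslope q x₁ x) x := by
    intro x hx
    have h2 : HasDerivAt ψ (deriv ψ x) x := (hψd.differentiableAt (hU.mem_nhds hx)).hasDerivAt
    have h3 : HasDerivAt (fun y => (y - x₁) * ψ y) (1 * ψ x + (x - x₁) * deriv ψ x) x :=
      ((hasDerivAt_id x).sub_const x₁).mul h2
    refine h3.congr_deriv ?_
    rw [← hψ x hx]; ring
  have hEdo : DifferentiableOn ℂ E U := fun x hx =>
    (hEd x hx).differentiableAt.differentiableWithinAt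
  obtain ⟨ψ2, hψ2d, hψ2⟩ := euler_ode U hU x₁ hx₁ hs (q x₁) hκn
    (fun x => Complex.exp (E x) * G.eval x / A1.eval x)
    ((hEdo.cexp.mul G.differentiable.differentiableOn).div
      A1.differentiable.differentiableOn hA1ne)
  have hσ : ∀ x ∈ U, HasDerivAt (fun x => ψ2 x * Complex.exp (-E x))
      (deriv ψ2 x * Complex.exp (-E x) + ψ2 x * (Complex.exp (-E x) * (-dslope q x₁ x))) x := by
    intro x hx
    have h2 : HasDerivAt ψ2 (deriv ψ2 x) x := (hψ2d.differentiableAt (hU.mem_nhds hx)).hasDerivAt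
    exact h2.mul ((hEd x hx).neg.cexp)
  refine ⟨fun x => ψ2 x * Complex.exp (-E x), fun x hx =>
    (hσ x hx).differentiableAt.differentiableWithinAt, fun x hx => ?_⟩
  rw [(hσ x hx).deriv, hAe]
  have h3 := hψ2 x hx
  have h4 := hq1 x
  have hne := hA1ne x hx
  have h5 : (k * D.β.eval x - (derivative D.A).eval x) = q x * A1.eval x := by
    simp only [hq]; field_simp
  have h6 : Complex.exp (E x) * Complex.exp (-E x) = 1 := by
    rw [← Complex.exp_add]; simp
  rw [h5]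
  have h7 : A1.eval x * ((x - x₁) * deriv ψ2 x + q x₁ * ψ2 x) = Complex.exp (E x) * G.eval x := by
    rw [h3]; field_simp
  linear_combination Complex.exp (-E x) * h7 + (-A1.eval x * ψ2 x * Complex.exp (-E x)) * h4 +
    G.eval x * h6

theorem exists_piece (A : Polynomial ℂ) (hA : 0 < A.natDegree) (x : ℂ) :
    ∃ (x₁ : ℂ) (U : Set ℂ), A.eval x₁ = 0 ∧ IsOpen U ∧ Convex ℝ U ∧ x₁ ∈ U ∧ x ∈ U ∧
      ∀ y ∈ U, A.eval y = 0 → y = x₁ := by
  have hA0 : A ≠ 0 := by rintro rfl; simp at hA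
  obtain ⟨r, hr⟩ := IsAlgClosed.exists_root A (by
    rw [degree_eq_natDegree hA0]
    exact_mod_cast hA.ne')
  obtain ⟨x₁, hx₁, hmin⟩ := Finset.exists_min_image A.roots.toFinset (fun y => dist x y)
    ⟨r, by rw [Multiset.mem_toFinset, mem_roots hA0]; exact hr⟩
  rw [Multiset.mem_toFinset, mem_roots hA0] at hx₁
  have hfin : ({y : ℂ | A.eval y = 0 ∧ y ≠ x₁}).Finite := by
    refine (A.roots.toFinset.finite_toSet).subset ?_
    intro y hy
    simp only [Finset.mem_coe, Multiset.mem_toFinset]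
    rw [mem_roots hA0]
    exact hy.1
  have hcomp : IsCompact (segment ℝ x x₁) := by
    rw [segment_eq_image_lineMap]
    exact isCompact_Icc.image AffineMap.lineMap_continuous
  obtain ⟨δ, hδ, hsub⟩ := hcomp.exists_thickening_subset_open
    (hfin.isClosed.isOpen_compl) (by
      rw [segment_eq_image_lineMap]
      rintro _ ⟨t, ht, rfl⟩
      rintro ⟨h0, hne⟩
      have h2 := hmin (AffineMap.lineMap x x₁ t) (by
        rw [Multiset.mem_toFinset, mem_roots hA0]; exact h0)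
      rw [dist_left_lineMap, Real.norm_eq_abs, abs_of_nonneg ht.1] at h2
      rcases eq_or_lt_of_le ht.2 with h1 | h1
      · apply hne; rw [h1]; simp
      · have h3 : dist x x₁ = 0 := by
          have := dist_nonneg (x := x) (y := x₁)
          nlinarith
        rw [dist_eq_zero] at h3
        apply hne; rw [h3]; simp)
  refine ⟨x₁, thickening δ (segment ℝ x x₁), hx₁, isOpen_thickening,
    (convex_segment x x₁).thickening δ, self_subset_thickening hδ _ (right_mem_segment ℝ x x₁),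
    self_subset_thickening hδ _ (left_mem_segment ℝ x x₁), fun y hy h0 => ?_⟩
  by_contra hne
  exact hsub hy ⟨h0, hne⟩

end Pool.Agent.H210.Gr.LIN

namespace Pool.Agent.H210.Gr

open Metric Set MeasureTheory Topology Filter
open scoped Laplacian ContDiff

theorem lin (D : InfD) (k : ℕ) (hk : 1 ≤ k) (G : Polynomial ℂ)
    (hobs : ∀ r : Polynomial ℂ, D.A * Polynomial.derivative r +
      (Polynomial.C (k : ℂ) * D.β - Polynomial.derivative D.A) * r ≠ G) :
    ∃ (x₁ x₂ x0 : ℂ) (U₁ U₂ : Set ℂ) (σ₁ σ₂ : ℂ → ℂ),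
      D.A.eval x₁ = 0 ∧ D.A.eval x₂ = 0 ∧ IsOpen U₁ ∧ IsOpen U₂ ∧ Convex ℝ U₁ ∧ Convex ℝ U₂ ∧
      x₁ ∈ U₁ ∧ x₂ ∈ U₂ ∧ (∀ x ∈ U₁, D.A.eval x = 0 → x = x₁) ∧ (∀ x ∈ U₂, D.A.eval x = 0 → x = x₂) ∧
      (∀ x ∈ U₁, HasDerivAt σ₁ (deriv σ₁ x) x ∧ D.A.eval x * deriv σ₁ x +
        (k * D.β.eval x - (Polynomial.derivative D.A).eval x) * σ₁ x = G.eval x) ∧
      (∀ x ∈ U₂, HasDerivAt σ₂ (deriv σ₂ x) x ∧ D.A.eval x * deriv σ₂ x +
        (k * D.β.eval x - (Polynomial.derivative D.A).eval x) * σ₂ x = G.eval x) ∧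
      x0 ∈ U₁ ∧ x0 ∈ U₂ ∧ D.A.eval x0 ≠ 0 ∧ σ₁ x0 ≠ σ₂ x0 := by
  by_contra hcon
  have hlead : D.A.coeff (D.d + 1) ≠ 0 := by
    change (D.a 0).coeff (D.d + 1) ≠ 0
    rw [D.hlead]; exact D.hlead0
  have hdegA : D.A.natDegree ≤ D.d + 1 := D.ha 0 (Nat.zero_le _)
  have hdegβ : D.β.natDegree ≤ D.d := D.hb 0 (Nat.zero_le _)
  have hA0 : D.A ≠ 0 := by
    intro h; rw [h] at hlead; simp at hlead
  have hpos : 0 < D.A.natDegree := lt_of_lt_of_le (Nat.succ_pos _) (Polynomial.le_natDegree_of_ne_zero hlead)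
  have hpiece := fun x => LIN.exists_piece D.A hpos x
  choose x₁ U hroot hUo hUc hx₁ hxU honly using hpiece
  have hsol := fun x => LIN.local_sol D k hk G (x₁ x) (hroot x) (U x) (hUo x) (hUc x) (hx₁ x) (honly x)
  choose σ hσd hσ using hsol
  have hev : ∀ y : ℂ, ∀ᶠ x in 𝓝[≠] y, D.A.eval x ≠ 0 := by
    intro y
    have hfin : ({x : ℂ | D.A.eval x = 0 ∧ x ≠ y}).Finite := by
      refine (D.A.roots.toFinset.finite_toSet).subset ?_
      intro y hy
      simp only [Finset.mem_coe, Multiset.mem_toFinset]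
      rw [Polynomial.mem_roots hA0]
      exact hy.1
    have h1 : ({x : ℂ | D.A.eval x = 0 ∧ x ≠ y})ᶜ ∈ 𝓝 y :=
      hfin.isClosed.isOpen_compl.mem_nhds (by simp)
    filter_upwards [mem_nhdsWithin_of_mem_nhds h1, self_mem_nhdsWithin] with x hx hne h0
    exact hx ⟨h0, hne⟩
  have hder : ∀ z, ∀ y ∈ U z, HasDerivAt (σ z) (deriv (σ z) y) y := fun z y hy =>
    ((hσd z).differentiableAt ((hUo z).mem_nhds hy)).hasDerivAt
  -- agreement of the pieces
  have hagree1 : ∀ z y x : ℂ, x ∈ U z → x ∈ U y → D.A.eval x ≠ 0 → σ z x = σ y x := by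
    intro z y x hz hy hne
    by_contra h
    exact hcon ⟨x₁ z, x₁ y, x, U z, U y, σ z, σ y, hroot z, hroot y, hUo z, hUo y, hUc z, hUc y,
      hx₁ z, hx₁ y, honly z, honly y, fun w hw => ⟨hder z w hw, hσ z w hw⟩,
      fun w hw => ⟨hder y w hw, hσ y w hw⟩, hz, hy, hne, h⟩
  have hagree : ∀ z y x : ℂ, x ∈ U z → x ∈ U y → σ z x = σ y x := by
    intro z y x hz hy
    have h1 : Tendsto (σ z) (𝓝[≠] x) (𝓝 (σ z x)) :=
      (hder z x hz).continuousAt.tendsto.mono_left nhdsWithin_le_nhds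
    have h2 : Tendsto (σ y) (𝓝[≠] x) (𝓝 (σ y x)) :=
      (hder y x hy).continuousAt.tendsto.mono_left nhdsWithin_le_nhds
    refine tendsto_nhds_unique_of_eventuallyEq h1 h2 ?_
    filter_upwards [hev x, mem_nhdsWithin_of_mem_nhds ((hUo z).mem_nhds hz),
      mem_nhdsWithin_of_mem_nhds ((hUo y).mem_nhds hy)] with w hw hwz hwy
    exact hagree1 z y w hwz hwy hw
  set s : ℂ → ℂ := fun z => σ z z with hs
  have hsev : ∀ z, s =ᶠ[𝓝 z] σ z := by
    intro z
    filter_upwards [(hUo z).mem_nhds (hxU z)] with w hw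
    exact hagree w z w (hxU w) hw
  have hsder : ∀ z, HasDerivAt s (deriv (σ z) z) z := fun z =>
    (hder z z (hxU z)).congr_of_eventuallyEq (hsev z)
  have hsd : Differentiable ℂ s := fun z => (hsder z).differentiableAt
  set b : Polynomial ℂ := Polynomial.C (k : ℂ) * D.β - Polynomial.derivative D.A with hb
  have hbdeg : b.natDegree ≤ D.d := by
    refine (Polynomial.natDegree_sub_le _ _).trans (max_le ?_ ?_)
    · exact (Polynomial.natDegree_C_mul_le _ _).trans hdegβ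
    · exact (Polynomial.natDegree_derivative_le _).trans (by omega)
  have hsode : ∀ x, D.A.eval x * deriv s x + b.eval x * s x = G.eval x := by
    intro x
    rw [(hsder x).deriv, hb]
    simp only [Polynomial.eval_sub, Polynomial.eval_mul, Polynomial.eval_C]
    exact hσ x x (hxU x)
  obtain ⟨N, C, hgr⟩ := LIN.growth hdegA hlead hbdeg hsd hsode
  obtain ⟨r, hr⟩ := LIN.poly_of_growth N s hsd ⟨C, hgr⟩
  refine hobs r (Polynomial.funext fun x => ?_)
  have h1 : deriv s x = (Polynomial.derivative r).eval x := by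
    have : s = fun x => r.eval x := funext hr
    rw [this, Polynomial.deriv]
  have h2 := hsode x
  rw [h1, hr x] at h2
  simpa using h2

end Pool.Agent.H210.Gr
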