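import Mathlib
import Pool.Agent.H210.Green.Defs

set_option autoImplicit false


namespace Pool.Agent.H210.Gr.LOOP

open Metric Set MeasureTheory Topology Filter Complex

theorem star_pt {U : Set ℂ} {p : ℂ} (hs : StarConvex ℝ p U) {x : ℂ} (hx : x ∈ U) {t : ℝ}
    (h0 : 0 ≤ t) (h1 : t ≤ 1) : p + t * (x - p) ∈ U := by
  have h := hs hx (sub_nonneg.2 h1) h0 (by ring)
  have e : (1 - t) • p + t • x = p + t * (x - p) := by
    simp only [real_smul]; push_cast; ring
  rwa [e] at h

theorem euler_pos (U : Set ℂ) (hU : IsOpen U) (p : ℂ) (hs : StarConvex ℝ p U) (κ : ℂ)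
    (hκ : 0 < κ.re) (φ : ℂ → ℂ) (hφ : DifferentiableOn ℂ φ U) :
    ∃ ψ : ℂ → ℂ, DifferentiableOn ℂ ψ U ∧ ∀ x ∈ U, (x - p) * deriv ψ x + κ * ψ x = φ x := by
  have h01 : uIcc (0 : ℝ) 1 = Icc 0 1 := uIcc_of_le zero_le_one
  have hφc : ContinuousOn φ U := hφ.continuousOn
  have hφ' : ContinuousOn (deriv φ) U := (hφ.deriv hU).continuousOn
  have hlin : ∀ x : ℂ, Continuous (fun t : ℝ => p + t * (x - p)) := fun x => by fun_prop
  have hmaps : ∀ x ∈ U, MapsTo (fun t : ℝ => p + t * (x - p)) (Icc 0 1) U :=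
    fun x hx t ht => star_pt hs hx ht.1 ht.2
  have hcφ : ∀ x ∈ U, ContinuousOn (fun t : ℝ => φ (p + t * (x - p))) (Icc 0 1) :=
    fun x hx => hφc.comp (hlin x).continuousOn (hmaps x hx)
  have hcφ' : ∀ x ∈ U, ContinuousOn (fun t : ℝ => deriv φ (p + t * (x - p))) (Icc 0 1) :=
    fun x hx => hφ'.comp (hlin x).continuousOn (hmaps x hx)
  have hpow : IntervalIntegrable (fun t : ℝ => (t : ℂ) ^ (κ - 1)) volume 0 1 :=
    intervalIntegral.intervalIntegrable_cpow' (by simp; linarith)
  have hpow1 : Continuous (fun t : ℝ => (t : ℂ) ^ κ) := continuous_ofReal_cpow_const hκ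
  set F : ℂ → ℝ → ℂ := fun x t => (t : ℂ) ^ (κ - 1) * φ (p + t * (x - p)) with hF
  set F' : ℂ → ℝ → ℂ := fun x t => (t : ℂ) ^ (κ - 1) * (deriv φ (p + t * (x - p)) * t) with hF'
  have hFint : ∀ x ∈ U, IntervalIntegrable (F x) volume 0 1 := fun x hx =>
    hpow.mul_continuousOn (by rw [h01]; exact hcφ x hx)
  have hF'int : ∀ x ∈ U, IntervalIntegrable (F' x) volume 0 1 := fun x hx =>
    hpow.mul_continuousOn (by
      rw [h01]; exact (hcφ' x hx).mul (Continuous.continuousOn (by fun_prop)))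
  have hder : ∀ x ∈ U, HasDerivAt (fun x => ∫ t in (0 : ℝ)..1, F x t)
      (∫ t in (0 : ℝ)..1, F' x t) x := by
    intro x₀ hx₀
    obtain ⟨δ, hδ, hball⟩ := Metric.nhds_basis_closedBall.mem_iff.1 (hU.mem_nhds hx₀)
    have hK : IsCompact ((fun q : ℝ × ℂ => p + q.1 * (q.2 - p)) '' (Icc 0 1 ×ˢ closedBall x₀ δ)) :=
      (isCompact_Icc.prod (isCompact_closedBall x₀ δ)).image (by fun_prop)
    have hKU : (fun q : ℝ × ℂ => p + q.1 * (q.2 - p)) '' (Icc 0 1 ×ˢ closedBall x₀ δ) ⊆ U := by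
      rintro _ ⟨⟨t, x⟩, ⟨ht, hx⟩, rfl⟩
      exact star_pt hs (hball hx) ht.1 ht.2
    obtain ⟨B, hB⟩ := hK.exists_bound_of_continuousOn (hφ'.mono hKU)
    have hB0 : 0 ≤ B := by
      refine (norm_nonneg _).trans (hB _ ⟨⟨0, x₀⟩, ⟨⟨le_rfl, zero_le_one⟩, ?_⟩, rfl⟩)
      exact mem_closedBall_self hδ.le
    refine (intervalIntegral.hasDerivAt_integral_of_dominated_loc_of_deriv_le
      (s := ball x₀ δ) (bound := fun t => ‖(t : ℂ) ^ (κ - 1)‖ * B) (ball_mem_nhds x₀ hδ)
      ?_ (hFint x₀ hx₀) (hF'int x₀ hx₀).def'.aestronglyMeasurable ?_ ?_ ?_).2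
    · filter_upwards [hU.mem_nhds hx₀] with x hx
      exact (hFint x hx).def'.aestronglyMeasurable
    · refine Eventually.of_forall fun t ht x hx => ?_
      rw [uIoc_of_le zero_le_one] at ht
      rw [hF']
      simp only [norm_mul]
      refine mul_le_mul_of_nonneg_left ?_ (norm_nonneg _)
      have h1 : ‖deriv φ (p + t * (x - p))‖ ≤ B :=
        hB _ ⟨⟨t, x⟩, ⟨⟨ht.1.le, ht.2⟩, ball_subset_closedBall hx⟩, rfl⟩
      have h2 : ‖(t : ℂ)‖ ≤ 1 := by
        rw [norm_real, Real.norm_eq_abs, abs_of_pos ht.1]; exact ht.2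
      calc ‖deriv φ (p + t * (x - p))‖ * ‖(t : ℂ)‖ ≤ B * 1 :=
            mul_le_mul h1 h2 (norm_nonneg _) hB0
        _ = B := mul_one B
    · exact hpow.norm.mul_const B
    · refine Eventually.of_forall fun t ht x hx => ?_
      rw [uIoc_of_le zero_le_one] at ht
      have hxU : p + t * (x - p) ∈ U := star_pt hs (hball (ball_subset_closedBall hx)) ht.1.le ht.2
      have h1 : HasDerivAt φ (deriv φ (p + t * (x - p))) (p + t * (x - p)) :=
        (hφ.differentiableAt (hU.mem_nhds hxU)).hasDerivAt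
      have h2 : HasDerivAt (fun x : ℂ => p + t * (x - p)) (t : ℂ) x := by
        simpa using (((hasDerivAt_id x).sub_const p).const_mul (t : ℂ)).const_add p
      exact (h1.comp x h2).const_mul _
  refine ⟨fun x => ∫ t in (0 : ℝ)..1, F x t, fun x hx =>
    (hder x hx).differentiableAt.differentiableWithinAt, fun x hx => ?_⟩
  rw [(hder x hx).deriv]
  -- integration by parts
  have hκ0 : κ ≠ 0 := by rintro rfl; simp at hκ
  have hkey : ∫ t in (0 : ℝ)..1, (κ * F x t + (x - p) * F' x t) =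
      (1 : ℝ) ^ κ * φ (p + (1 : ℝ) * (x - p)) - ((0 : ℝ) : ℂ) ^ κ * φ (p + (0 : ℝ) * (x - p)) := by
    have := intervalIntegral.integral_eq_sub_of_hasDeriv_right_of_le (a := 0) (b := 1)
      (f := fun t : ℝ => (t : ℂ) ^ κ * φ (p + t * (x - p)))
      (f' := fun t : ℝ => κ * F x t + (x - p) * F' x t) zero_le_one
      (hpow1.continuousOn.mul (hcφ x hx)) ?_
      (((hFint x hx).const_mul κ).add ((hF'int x hx).const_mul (x - p)))
    · simpa using this
    · intro t ht
      have hxU : p + t * (x - p) ∈ U := star_pt hs hx ht.1.le ht.2.le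
      have h1 : HasDerivAt φ (deriv φ (p + t * (x - p))) (p + t * (x - p)) :=
        (hφ.differentiableAt (hU.mem_nhds hxU)).hasDerivAt
      have h2 : HasDerivAt (fun t : ℝ => p + (t : ℂ) * (x - p)) (x - p) t := by
        simpa using ((Complex.ofRealCLM.hasDerivAt (x := t)).mul_const (x - p)).const_add p
      have h3 : HasDerivAt (fun t : ℝ => φ (p + t * (x - p)))
          (deriv φ (p + t * (x - p)) * (x - p)) t := by
        have := h1.comp_of_eq t h2 rfl
        exact this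
      have h4 := (hasDerivAt_ofReal_cpow_const ht.1.ne' hκ0).mul h3
      refine (h4.congr_deriv ?_).hasDerivWithinAt
      have h5 : (t : ℂ) ^ κ = (t : ℂ) ^ (κ - 1) * t := by
        have ht0 : (t : ℂ) ≠ 0 := by exact_mod_cast ht.1.ne'
        have h6 := Complex.cpow_add (κ - 1) 1 ht0
        rw [sub_add_cancel, cpow_one] at h6
        exact h6
      rw [h5]
      simp only [hF, hF']
      ring
  rw [intervalIntegral.integral_add ((hFint x hx).const_mul κ) ((hF'int x hx).const_mul (x - p)),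
    intervalIntegral.integral_const_mul, intervalIntegral.integral_const_mul] at hkey
  rw [add_comm, hkey]
  simp [hκ0]


/-- one step of the chain -/
theorem step {c c' : ℂ} {R B C : ℝ} (hc : ‖c' - c‖ < R) (_hC : 0 ≤ C) {U E q : ℂ → ℂ}
    (hE : ∀ x ∈ ball c R, HasDerivAt E (q x * E x) x) (hEb : ∀ x ∈ segment ℝ c c', ‖E x‖ ≤ C)
    (hU : ∀ x ∈ ball c R, ∃ U', HasDerivAt U U' x ∧ ‖U' + q x * U x‖ ≤ B) :
    ‖U c' * E c' - U c * E c‖ ≤ B * C * ‖c' - c‖ := by
  have hR : 0 < R := (norm_nonneg _).trans_lt hc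
  have hsub : segment ℝ c c' ⊆ ball c R :=
    (convex_ball c R).segment_subset (mem_ball_self hR) (by rw [mem_ball, dist_eq_norm]; exact hc)
  choose! U' hU' hUb using hU
  refine Convex.norm_image_sub_le_of_norm_hasDerivWithin_le (f := fun x => U x * E x)
    (f' := fun x => U' x * E x + U x * (q x * E x)) (s := segment ℝ c c') (𝕜 := ℂ)
    (fun x hx => ((hU' x (hsub hx)).mul (hE x (hsub hx))).hasDerivWithinAt) (fun x hx => ?_)
    (convex_segment c c') (left_mem_segment ℝ c c') (right_mem_segment ℝ c c')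
  have h1 : U' x * E x + U x * (q x * E x) = (U' x + q x * U x) * E x := by ring
  have hB : 0 ≤ B := (norm_nonneg _).trans (hUb x (hsub hx))
  rw [h1, norm_mul]
  exact mul_le_mul (hUb x (hsub hx)) (hEb x hx) (norm_nonneg _) hB

/-- the path -/
theorem path (T : ℝ) (hT : 0 ≤ T) (o : ℝ) : ∃ s : ℝ → ℂ, Continuous s ∧ s 0 = 0 ∧
    s 1 = 2 * Real.pi * o * I ∧ (o = 1 ∨ o = -1 → ∀ t ∈ Icc (0 : ℝ) 1,
      (∃ r : ℝ, 0 < r ∧ r ≤ 1 ∧ Complex.exp (s t) = r) ∨ ‖Complex.exp (s t)‖ = Real.exp (-T)) := by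
  have hpi := Real.pi_pos
  set Λ : ℝ := 2 * T + 2 * Real.pi with hΛ
  refine ⟨fun t => ((-(max 0 (min (Λ * t) T)) + max 0 (min (Λ * t - T - 2 * Real.pi) T) : ℝ) : ℂ) +
    ((o * max 0 (min (Λ * t - T) (2 * Real.pi)) : ℝ) : ℂ) * I, by fun_prop, ?_, ?_, ?_⟩
  · have h1 : min (0 : ℝ) T = 0 := min_eq_left hT
    have h2 : min (-T - 2 * Real.pi) T ≤ 0 := (min_le_left _ _).trans (by linarith)
    have h3 : min (-T) (2 * Real.pi) ≤ 0 := (min_le_left _ _).trans (by linarith)
    simp only [mul_zero, zero_sub, h1, max_eq_left h2, max_eq_left h3]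
    simp
  · have h1 : min Λ T = T := min_eq_right (by linarith)
    have h2 : min (Λ - T - 2 * Real.pi) T = T := min_eq_right (by linarith)
    have h3 : min (Λ - T) (2 * Real.pi) = 2 * Real.pi := min_eq_right (by linarith)
    simp only [mul_one, h1, h2, h3, max_eq_right hT, max_eq_right (show (0:ℝ) ≤ 2 * Real.pi by positivity)]
    push_cast
    ring
  · intro ho t ht
    have ht0 : 0 ≤ Λ * t := mul_nonneg (by positivity) ht.1
    have ht1 : Λ * t ≤ Λ := mul_le_of_le_one_right (by positivity) ht.2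
    rcases le_total (Λ * t) T with h | h
    · left
      have h1 : min (Λ * t) T = Λ * t := min_eq_left h
      have h2 : min (Λ * t - T - 2 * Real.pi) T ≤ 0 := (min_le_left _ _).trans (by linarith)
      have h3 : min (Λ * t - T) (2 * Real.pi) ≤ 0 := (min_le_left _ _).trans (by linarith)
      refine ⟨Real.exp (-(Λ * t)), Real.exp_pos _, Real.exp_le_one_iff.2 (by linarith), ?_⟩
      simp only [h1, max_eq_right ht0, max_eq_left h2, max_eq_left h3]
      simp
    · rcases le_total (Λ * t) (T + 2 * Real.pi) with h' | h'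
      · right
        have h1 : min (Λ * t) T = T := min_eq_right h
        have h2 : min (Λ * t - T - 2 * Real.pi) T ≤ 0 := (min_le_left _ _).trans (by linarith)
        rw [norm_exp]
        simp only [h1, max_eq_right hT, max_eq_left h2]
        simp
      · left
        have h1 : min (Λ * t) T = T := min_eq_right h
        have h2 : min (Λ * t - T - 2 * Real.pi) T = Λ * t - T - 2 * Real.pi :=
          min_eq_left (by linarith)
        have h2' : 0 ≤ Λ * t - T - 2 * Real.pi := by linarith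
        have h3 : min (Λ * t - T) (2 * Real.pi) = 2 * Real.pi := min_eq_right (by linarith)
        refine ⟨Real.exp (-T + (Λ * t - T - 2 * Real.pi)), Real.exp_pos _,
          Real.exp_le_one_iff.2 (by linarith), ?_⟩
        simp only [h1, h2, h3, max_eq_right hT, max_eq_right h2',
          max_eq_right (show (0:ℝ) ≤ 2 * Real.pi by positivity)]
        rw [Complex.exp_add]
        have h4 : Complex.exp (((o * (2 * Real.pi) : ℝ) : ℂ) * I) = 1 := by
          rcases ho with rfl | rfl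
          · rw [Complex.exp_eq_one_iff]
            exact ⟨1, by push_cast; ring⟩
          · rw [Complex.exp_eq_one_iff]
            exact ⟨-1, by push_cast; ring⟩
        rw [h4, mul_one, ofReal_exp]

end Pool.Agent.H210.Gr.LOOP


namespace Pool.Agent.H210.Gr.LOOP

open Metric Set MeasureTheory Topology Filter Complex

/-- local form of `β / A` -/
theorem local_form (D : InfD) (x₁ : ℂ) (U : Set ℂ) (hU : IsOpen U) (hUc : Convex ℝ U)
    (hx₁ : x₁ ∈ U) (hroot : D.A.eval x₁ = 0) (honly : ∀ x ∈ U, D.A.eval x = 0 → x = x₁) :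
    ∃ (l : ℂ) (H : ℂ → ℂ), l.im ≠ 0 ∧ ∀ x ∈ U, x ≠ x₁ →
      HasDerivAt H (D.β.eval x / D.A.eval x - l / (x - x₁)) x := by
  have hyp := D.hyp x₁ hroot
  change (D.β.eval x₁ / (Polynomial.derivative D.A).eval x₁).im ≠ 0 at hyp
  have hA' : (Polynomial.derivative D.A).eval x₁ ≠ 0 := by
    intro h0
    rw [h0] at hyp
    simp at hyp
  obtain ⟨A1, hA1⟩ := Polynomial.dvd_iff_isRoot.2 (show Polynomial.IsRoot D.A x₁ from hroot)
  have hAe : ∀ x, D.A.eval x = (x - x₁) * A1.eval x := by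
    intro x; rw [hA1]; simp
  have hA'1 : (Polynomial.derivative D.A).eval x₁ = A1.eval x₁ := by
    rw [hA1]; simp
  have hA1ne : ∀ x ∈ U, A1.eval x ≠ 0 := by
    intro x hx h0
    have : D.A.eval x = 0 := by rw [hAe, h0, mul_zero]
    have hx' := honly x hx this
    rw [hx'] at h0
    exact hA' (hA'1.trans h0)
  have hs : StarConvex ℝ x₁ U := hUc.starConvex hx₁
  set q : ℂ → ℂ := fun x => D.β.eval x / A1.eval x with hq
  have hqd : DifferentiableOn ℂ q U :=
    D.β.differentiable.differentiableOn.div (A1.differentiable.differentiableOn) hA1ne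
  have hq1d : DifferentiableOn ℂ (dslope q x₁) U :=
    (Complex.differentiableOn_dslope (hU.mem_nhds hx₁)).2 hqd
  have hq1 : ∀ x, (x - x₁) * dslope q x₁ x = q x - q x₁ := by
    intro x
    have := sub_smul_dslope q x₁ x
    simpa [smul_eq_mul] using this
  obtain ⟨ψ, hψd, hψ⟩ := LOOP.euler_pos U hU x₁ hs 1 (by simp) (dslope q x₁) hq1d
  refine ⟨q x₁, fun x => (x - x₁) * ψ x, ?_, fun x hx hne => ?_⟩
  · simp only [hq]
    rw [← hA'1]; exact hyp
  · have h2 : HasDerivAt ψ (deriv ψ x) x := (hψd.differentiableAt (hU.mem_nhds hx)).hasDerivAt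
    have h3 : HasDerivAt (fun y => (y - x₁) * ψ y) (1 * ψ x + (x - x₁) * deriv ψ x) x :=
      ((hasDerivAt_id x).sub_const x₁).mul h2
    refine h3.congr_deriv ?_
    have h4 := hψ x hx
    have h5 := hq1 x
    have hne' : x - x₁ ≠ 0 := sub_ne_zero.2 hne
    have h6 := hA1ne x hx
    have h7 : D.β.eval x / D.A.eval x = q x / (x - x₁) := by
      rw [hAe]; simp only [hq]; field_simp
    rw [h7, div_sub_div_same, ← h5, mul_div_cancel_left₀ _ hne', ← h4]
    ring

end Pool.Agent.H210.Gr.LOOP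

namespace Pool.Agent.H210.Gr

open Metric Set MeasureTheory Topology Filter Complex
open scoped Laplacian ContDiff

theorem loop (D : InfD) (k : ℕ) (hk : 1 ≤ k) (G : Polynomial ℂ) (x₁ x0 : ℂ) (U : Set ℂ)
    (hU : IsOpen U) (hUc : Convex ℝ U) (hx₁ : x₁ ∈ U) (hx0 : x0 ∈ U) (hroot : D.A.eval x₁ = 0)
    (honly : ∀ x ∈ U, D.A.eval x = 0 → x = x₁) (hA0 : D.A.eval x0 ≠ 0) (σ : ℂ → ℂ)
    (hσ : ∀ x ∈ U, HasDerivAt σ (deriv σ x) x ∧ D.A.eval x * deriv σ x +
        (k * D.β.eval x - (Polynomial.derivative D.A).eval x) * σ x = G.eval x) :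
    ∃ (K : Set ℂ) (M : ℂ) (R0 : ℝ), IsCompact K ∧ x0 ∈ K ∧ (∀ x ∈ K, D.A.eval x ≠ 0) ∧ 1 < ‖M‖ ∧
      0 < R0 ∧ ∀ R, 0 < R → R ≤ R0 → ∃ (m : ℕ) (c : ℕ → ℂ), c 0 = x0 ∧ c m = x0 ∧
        (∀ i ≤ m, c i ∈ K) ∧ (∀ i < m, ‖c (i + 1) - c i‖ ≤ R / 4) ∧
        ∃ C' : ℝ, 0 ≤ C' ∧ ∀ (u : ℕ → ℂ → ℂ) (B : ℝ), 0 ≤ B →
          (∀ i ≤ m, ∀ x ∈ ball (c i) R, ∃ u' : ℂ, HasDerivAt (u i) u' x ∧
            ‖u' + k * (D.β.eval x / D.A.eval x) * u i x + G.eval x / (D.A.eval x) ^ 2‖ ≤ B) →
          (∀ i < m, u (i + 1) (c (i + 1)) = u i (c (i + 1))) →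
          ‖u m x0 - (M * (u 0 x0 + σ x0 / D.A.eval x0) - σ x0 / D.A.eval x0)‖ ≤ C' * B := by
  obtain ⟨l, H, hl, hH⟩ := LOOP.local_form D x₁ U hU hUc hx₁ hroot honly
  have hne0 : x0 ≠ x₁ := by rintro rfl; exact hA0 hroot
  set w0 : ℂ := x0 - x₁ with hw0
  have hw0ne : w0 ≠ 0 := sub_ne_zero.2 hne0
  have hk0 : (0 : ℝ) < k := by exact_mod_cast hk
  -- orientation
  obtain ⟨o, ho, hol⟩ : ∃ o : ℝ, (o = 1 ∨ o = -1) ∧ 0 < o * l.im := by
    rcases lt_or_gt_of_ne hl with h | h
    · exact ⟨-1, Or.inr rfl, by linarith⟩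
    · exact ⟨1, Or.inl rfl, by linarith⟩
  -- a small radius
  obtain ⟨r0, hr0, hr0U⟩ := Metric.isOpen_iff.1 hU x₁ hx₁
  obtain ⟨T, hT, hTr⟩ : ∃ T : ℝ, 0 ≤ T ∧ ‖w0‖ * Real.exp (-T) < r0 := by
    have h1 : Tendsto (fun T : ℝ => ‖w0‖ * Real.exp (-T)) atTop (𝓝 (‖w0‖ * 0)) :=
      (Real.tendsto_exp_neg_atTop_nhds_zero).const_mul _
    rw [mul_zero] at h1
    obtain ⟨T, h2, h3⟩ := ((h1.eventually (gt_mem_nhds hr0)).and (eventually_ge_atTop 0)).exists
    exact ⟨T, h3, h2⟩
  obtain ⟨s, hsc, hs0, hs1, hsP⟩ := LOOP.path T hT o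
  specialize hsP ho
  set P : ℝ → ℂ := fun t => x₁ + w0 * Complex.exp (s t) with hP
  have hPc : Continuous P := by fun_prop
  have hPne : ∀ t, P t - x₁ ≠ 0 := by
    intro t
    simp only [hP, add_sub_cancel_left]
    exact mul_ne_zero hw0ne (Complex.exp_ne_zero _)
  have hPU : ∀ t ∈ Icc (0 : ℝ) 1, P t ∈ U := by
    intro t ht
    rcases hsP t ht with ⟨r, hr, hr1, he⟩ | he
    · have h1 : P t = x₁ + r * (x0 - x₁) := by simp only [hP, he, hw0]; ring
      rw [h1]
      exact LOOP.star_pt (hUc.starConvex hx₁) hx0 hr.le hr1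
    · apply hr0U
      rw [mem_ball, dist_eq_norm]
      simp only [hP, add_sub_cancel_left]
      rw [norm_mul, he]
      exact hTr
  set K : Set ℂ := P '' Icc 0 1 with hK
  have hKc : IsCompact K := isCompact_Icc.image hPc
  set V : Set ℂ := U ∩ {x₁}ᶜ with hV
  have hVo : IsOpen V := hU.inter isOpen_compl_singleton
  have hKV : K ⊆ V := by
    rintro _ ⟨t, ht, rfl⟩
    exact ⟨hPU t ht, fun h => hPne t (sub_eq_zero.2 h)⟩
  have hVA : ∀ x ∈ V, D.A.eval x ≠ 0 := fun x hx h => hx.2 (honly x hx.1 h)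
  have hP0 : P 0 = x0 := by simp [hP, hs0, hw0]
  have hexp1 : Complex.exp (s 1) = 1 := by
    rw [hs1, Complex.exp_eq_one_iff]
    rcases ho with rfl | rfl
    · exact ⟨1, by push_cast; ring⟩
    · exact ⟨-1, by push_cast; ring⟩
  have hP1 : P 1 = x0 := by simp [hP, hexp1, hw0]
  obtain ⟨R0, hR0, hR0V⟩ := hKc.exists_thickening_subset_open hVo hKV
  have hball : ∀ c ∈ K, ball c R0 ⊆ V := by
    intro c hc x hx
    exact hR0V (mem_thickening_iff.2 ⟨c, hc, hx⟩)
  refine ⟨K, Complex.exp (-(2 * Real.pi * o * k * l * I)), R0, hKc, ⟨0, by simp, hP0⟩,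
    fun x hx => hVA x (hKV hx), ?_, hR0, fun R hR hRR0 => ?_⟩
  · rw [norm_exp, Real.one_lt_exp_iff]
    have h1 : (-(2 * (Real.pi : ℂ) * o * k * l * I)).re = 2 * Real.pi * k * (o * l.im) := by
      have : (-(2 * (Real.pi : ℂ) * o * k * l * I)) = ((2 * Real.pi * o * k : ℝ) : ℂ) * (-(l * I)) := by
        push_cast; ring
      rw [this, Complex.re_ofReal_mul]
      simp
      ring
    rw [h1]
    have := Real.pi_pos
    positivity
  · -- the chain
    have huc1 := isCompact_Icc.uniformContinuousOn_of_continuous (s := Icc (0 : ℝ) 1) hPc.continuousOn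
    have huc2 := isCompact_Icc.uniformContinuousOn_of_continuous (s := Icc (0 : ℝ) 1) hsc.continuousOn
    rw [Metric.uniformContinuousOn_iff] at huc1 huc2
    obtain ⟨δ1, hδ1, hd1⟩ := huc1 (R / 4) (by positivity)
    obtain ⟨δ2, hδ2, hd2⟩ := huc2 1 one_pos
    obtain ⟨m', hm'⟩ := exists_nat_one_div_lt (lt_min hδ1 hδ2)
    set m : ℕ := m' + 1 with hm
    have hm0 : (0 : ℝ) < m := by rw [hm]; positivity
    have hm1 : 1 / (m : ℝ) < min δ1 δ2 := by rw [hm]; push_cast; exact hm'
    set τ : ℕ → ℝ := fun i => i / m with hτ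
    have hτI : ∀ i ≤ m, τ i ∈ Icc (0 : ℝ) 1 := by
      intro i hi
      refine ⟨by positivity, ?_⟩
      rw [hτ]
      simp only
      rw [div_le_one hm0]
      exact_mod_cast hi
    have hτd : ∀ i, τ (i + 1) - τ i = 1 / m := by
      intro i
      simp only [hτ]
      push_cast
      field_simp
      ring
    have hdist : ∀ i, dist (τ (i + 1)) (τ i) = 1 / m := by
      intro i
      rw [Real.dist_eq, hτd, abs_of_pos (by positivity)]
    have hτ0 : τ 0 = 0 := by simp [hτ]
    have hτm : τ m = 1 := by simp only [hτ]; exact div_self hm0.ne'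
    have hcK : ∀ i ≤ m, P (τ i) ∈ K := fun i hi => ⟨τ i, hτI i hi, rfl⟩
    have hstepP : ∀ i < m, ‖P (τ (i + 1)) - P (τ i)‖ < R / 4 := by
      intro i hi
      rw [← dist_eq_norm]
      refine hd1 _ (hτI _ hi) _ (hτI _ hi.le) ?_
      rw [hdist]
      exact hm1.trans_le (min_le_left _ _)
    have hsteps : ∀ i < m, ‖s (τ (i + 1)) - s (τ i)‖ < 1 := by
      intro i hi
      rw [← dist_eq_norm]
      refine hd2 _ (hτI _ hi) _ (hτI _ hi.le) ?_
      rw [hdist]
      exact hm1.trans_le (min_le_right _ _)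
    -- the integrating factors
    set E : ℕ → ℂ → ℂ := fun i x => Complex.exp (k * l * (s (τ i) +
      Complex.log ((x - x₁) / (P (τ i) - x₁))) + k * H x) with hE
    set q : ℂ → ℂ := fun x => k * (D.β.eval x / D.A.eval x) with hq
    have hslit : ∀ i ≤ m, ∀ x ∈ ball (P (τ i)) R, (x - x₁) / (P (τ i) - x₁) ∈ slitPlane := by
      intro i hi x hx
      have h1 : (x - x₁) / (P (τ i) - x₁) = 1 + (x - P (τ i)) / (P (τ i) - x₁) := by
        have := hPne (τ i)
        field_simp
        ring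
      rw [h1]
      refine mem_slitPlane_of_norm_lt_one ?_
      rw [norm_div, div_lt_one (norm_pos_iff.2 (hPne _))]
      have h2 : ‖x - P (τ i)‖ < R := by rwa [mem_ball, dist_eq_norm] at hx
      have h3 : R0 ≤ ‖P (τ i) - x₁‖ := by
        by_contra h
        push Not at h
        have h4 : x₁ ∈ ball (P (τ i)) R0 := by rw [mem_ball, dist_eq_norm, norm_sub_rev]; exact h
        exact (hball _ (hcK i hi) h4).2 rfl
      linarith
    have hEd : ∀ i ≤ m, ∀ x ∈ ball (P (τ i)) R, HasDerivAt (E i) (q x * E i x) x := by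
      intro i hi x hx
      have hxV : x ∈ V := hball _ (hcK i hi) (ball_subset_ball hRR0 hx)
      have hxne : x ≠ x₁ := hxV.2
      have hxne' : x - x₁ ≠ 0 := sub_ne_zero.2 hxne
      have h1 : HasDerivAt (fun x => (x - x₁) / (P (τ i) - x₁)) (1 / (P (τ i) - x₁)) x :=
        ((hasDerivAt_id x).sub_const x₁).div_const _
      have h2 := h1.clog (hslit i hi x hx)
      have h3 := (((h2.const_add (s (τ i))).const_mul ((k : ℂ) * l)).add
        ((hH x hxV.1 hxne).const_mul (k : ℂ))).cexp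
      refine h3.congr_deriv ?_
      simp only [hE, hq]
      rw [mul_comm]
      congr 1
      have := hPne (τ i)
      have hA := hVA x hxV
      field_simp
      ring
    have hEc : ∀ i, E i (P (τ i)) = Complex.exp (k * l * s (τ i) + k * H (P (τ i))) := by
      intro i
      simp only [hE]
      rw [div_self (hPne _), Complex.log_one, add_zero]
    have hEc' : ∀ i < m, E i (P (τ (i + 1))) = E (i + 1) (P (τ (i + 1))) := by
      intro i hi
      rw [hEc]
      simp only [hE]
      have h1 : (P (τ (i + 1)) - x₁) / (P (τ i) - x₁) =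
          Complex.exp (s (τ (i + 1)) - s (τ i)) := by
        simp only [hP, add_sub_cancel_left]
        rw [Complex.exp_sub]
        field_simp
      have h2 : Complex.log ((P (τ (i + 1)) - x₁) / (P (τ i) - x₁)) =
          s (τ (i + 1)) - s (τ i) := by
        rw [h1]
        have h3 := (abs_im_le_norm (s (τ (i + 1)) - s (τ i))).trans_lt (hsteps i hi)
        have h4 := abs_lt.1 h3
        have h5 := Real.pi_gt_three
        exact Complex.log_exp (by linarith) (by linarith)
      rw [h2]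
      congr 2
      ring
    -- bounds
    have hbd : ∀ i : ℕ, ∃ C : ℝ, 0 ≤ C ∧ (i < m → ∀ x ∈ segment ℝ (P (τ i)) (P (τ (i + 1))),
        ‖E i x‖ ≤ C) := by
      intro i
      by_cases hi : i < m
      · have hcomp : IsCompact (segment ℝ (P (τ i)) (P (τ (i + 1)))) := by
          rw [segment_eq_image_lineMap]
          exact isCompact_Icc.image AffineMap.lineMap_continuous
        have hsub : segment ℝ (P (τ i)) (P (τ (i + 1))) ⊆ ball (P (τ i)) R :=
          (convex_ball _ R).segment_subset (mem_ball_self hR) (by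
            rw [mem_ball, dist_eq_norm]
            exact (hstepP i hi).trans (by linarith))
        obtain ⟨C, hC⟩ := hcomp.exists_bound_of_continuousOn (f := E i)
          (fun x hx => (hEd i hi.le x (hsub hx)).continuousAt.continuousWithinAt)
        exact ⟨C, (norm_nonneg _).trans (hC _ (left_mem_segment ℝ _ _)), fun _ => hC⟩
      · exact ⟨0, le_rfl, fun h => absurd h hi⟩
    choose C hC0 hC using hbd
    have hE0 : E 0 x0 = Complex.exp (k * H x0) := by
      have := hEc 0
      rw [hτ0, hP0, hs0] at this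
      simpa using this
    have hEm : E m x0 = Complex.exp (2 * Real.pi * o * k * l * I) * Complex.exp (k * H x0) := by
      have := hEc m
      rw [hτm, hP1, hs1] at this
      rw [this, ← Complex.exp_add]
      congr 1
      ring
    refine ⟨m, fun i => P (τ i), by simp only [hτ0, hP0], by simp only [hτm, hP1], hcK,
      fun i hi => (hstepP i hi).le, ‖(E m x0)⁻¹‖ * ∑ i ∈ Finset.range m, C i * R, ?_, ?_⟩
    · exact mul_nonneg (norm_nonneg _) (Finset.sum_nonneg fun i _ => mul_nonneg (hC0 i) hR.le)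
    intro u B hB hu hglue
    set W : ℕ → ℂ → ℂ := fun i x => u i x + σ x / D.A.eval x with hW
    have hWd : ∀ i ≤ m, ∀ x ∈ ball (P (τ i)) R, ∃ W', HasDerivAt (W i) W' x ∧
        ‖W' + q x * W i x‖ ≤ B := by
      intro i hi x hx
      have hxV : x ∈ V := hball _ (hcK i hi) (ball_subset_ball hRR0 hx)
      have hA := hVA x hxV
      obtain ⟨u', hu', hb⟩ := hu i hi x hx
      obtain ⟨hσ1, hσ2⟩ := hσ x hxV.1
      have h1 := hu'.add (hσ1.div (D.A.hasDerivAt x) hA)
      refine ⟨_, h1, ?_⟩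
      have h2 : u' + (deriv σ x * D.A.eval x - σ x * (Polynomial.derivative D.A).eval x) /
          (D.A.eval x) ^ 2 + q x * W i x = u' + k * (D.β.eval x / D.A.eval x) * u i x +
            G.eval x / (D.A.eval x) ^ 2 := by
        simp only [hq, hW]
        rw [← hσ2]
        field_simp
        ring
      rw [h2]
      exact hb
    have hmain : ∀ j ≤ m, ‖W j (P (τ j)) * E j (P (τ j)) - W 0 (P (τ 0)) * E 0 (P (τ 0))‖ ≤
        B * ∑ i ∈ Finset.range j, C i * R := by
      intro j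
      induction j with
      | zero => intro _; simp
      | succ j ih =>
        intro hj
        have hj' : j < m := hj
        have h1 := ih hj'.le
        have h2 := LOOP.step (c := P (τ j)) (c' := P (τ (j + 1))) (R := R) (B := B) (C := C j)
          ((hstepP j hj').trans (by linarith)) (hC0 j) (U := W j) (E := E j) (q := q)
          (hEd j hj'.le) (hC j hj') (hWd j hj'.le)
        have h3 : W j (P (τ (j + 1))) = W (j + 1) (P (τ (j + 1))) := by
          simp only [hW]
          rw [hglue j hj']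
        rw [h3, hEc' j hj'] at h2
        have h4 : B * C j * ‖P (τ (j + 1)) - P (τ j)‖ ≤ B * (C j * R) := by
          rw [mul_assoc]
          refine mul_le_mul_of_nonneg_left (mul_le_mul_of_nonneg_left ?_ (hC0 j)) hB
          exact ((hstepP j hj').le).trans (by linarith)
        rw [Finset.sum_range_succ, mul_add]
        calc _ = ‖(W (j + 1) (P (τ (j + 1))) * E (j + 1) (P (τ (j + 1))) -
              W j (P (τ j)) * E j (P (τ j))) + (W j (P (τ j)) * E j (P (τ j)) -
              W 0 (P (τ 0)) * E 0 (P (τ 0)))‖ := by congr 1; ring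
          _ ≤ _ := norm_add_le _ _
          _ ≤ B * (C j * R) + B * ∑ i ∈ Finset.range j, C i * R := add_le_add (h2.trans h4) h1
          _ = _ := add_comm _ _
    have hfin := hmain m le_rfl
    rw [hτm, hP1, hτ0, hP0, hE0] at hfin
    have hEmne : E m x0 ≠ 0 := by rw [hEm]; exact mul_ne_zero (Complex.exp_ne_zero _) (Complex.exp_ne_zero _)
    have hMe : Complex.exp (-(2 * Real.pi * o * k * l * I)) * E m x0 = Complex.exp (k * H x0) := by
      rw [hEm, ← mul_assoc, ← Complex.exp_add]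
      simp
    have hid : u m x0 - (Complex.exp (-(2 * Real.pi * o * k * l * I)) *
        (u 0 x0 + σ x0 / D.A.eval x0) - σ x0 / D.A.eval x0) =
        (E m x0)⁻¹ * (W m x0 * E m x0 - W 0 x0 * Complex.exp (k * H x0)) := by
      rw [← hMe]
      simp only [hW]
      field_simp
      ring
    rw [hid, norm_mul]
    calc _ ≤ ‖(E m x0)⁻¹‖ * (B * ∑ i ∈ Finset.range m, C i * R) :=
          mul_le_mul_of_nonneg_left hfin (norm_nonneg _)
      _ = _ := by ring

end Pool.Agent.H210.Gr
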