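import Pool.Agent.H210.Green.NFormal
import Pool.Agent.H210.Green.Graph

set_option autoImplicit false

namespace Pool.Agent.H210.Gr

open Metric Set MeasureTheory Topology Filter
open scoped Laplacian ContDiff

namespace NF

variable (D : InfD) (ρ : ℕ → Polynomial ℂ) (k : ℕ)

/-- truncated coefficients -/
noncomputable def rt (j : ℕ) : Polynomial ℂ := if j < k then ρ j else 0

/-- coefficients of the coordinate -/
noncomputable def cc : ℕ → ℂ → ℂ
  | 0 => fun _ => 1
  | m + 1 => fun x => -(1 / (((m + 1 : ℕ) : ℂ) * D.A.eval x)) *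
      ∑ j : Fin (m + 1), ((k : ℂ) * (D.a (m + 1 - j)).eval x -
        ((k : ℂ) - (j : ℕ)) * (rt ρ k (m + 1 - j)).eval x) * cc j.1 x
termination_by m => m
decreasing_by exact j.2

theorem cc_diff : ∀ (m : ℕ) (x : ℂ), D.A.eval x ≠ 0 → DifferentiableAt ℂ (cc D ρ k m) x := by
  intro m
  induction m using Nat.strong_induction_on with
  | _ m ih =>
    intro x hx
    cases m with
    | zero => rw [cc]; exact differentiableAt_const _
    | succ m =>
      rw [cc]
      refine DifferentiableAt.mul ?_ ?_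
      · refine (DifferentiableAt.div (differentiableAt_const _)
          ((differentiableAt_const _).mul (Polynomial.differentiable _ _)) ?_).neg
        refine mul_ne_zero ?_ hx
        exact_mod_cast Nat.succ_ne_zero m
      · refine DifferentiableAt.fun_sum fun j _ => ?_
        refine DifferentiableAt.mul ?_ (ih j.1 j.2 x hx)
        exact ((differentiableAt_const _).mul (Polynomial.differentiable _ _)).sub
          ((differentiableAt_const _).mul (Polynomial.differentiable _ _))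

/-- the relation defining the coefficients -/
theorem cc_rel (hk : 1 ≤ k) (h0 : ρ 0 = D.A) (m : ℕ) (x : ℂ) (hx : D.A.eval x ≠ 0) :
    ∑ p ∈ Finset.HasAntidiagonal.antidiagonal m, (((k : ℂ) - (p.2 : ℂ)) * (rt ρ k p.1).eval x -
      (k : ℂ) * (D.a p.1).eval x) * cc D ρ k p.2 x = 0 := by
  have hr0 : rt ρ k 0 = D.A := by rw [rt, if_pos (by omega), h0]
  have ha0 : D.a 0 = D.A := rfl
  cases m with
  | zero =>
    simp [hr0, ha0]
  | succ m =>
    have e1 := Finset.Nat.sum_antidiagonal_eq_sum_range_succ_mk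
      (fun p : ℕ × ℕ => (((k : ℂ) - (p.1 : ℂ)) * (rt ρ k p.2).eval x -
      (k : ℂ) * (D.a p.2).eval x) * cc D ρ k p.1 x) (m + 1)
    rw [← Finset.Nat.sum_antidiagonal_swap] at e1
    simp only [Prod.fst_swap, Prod.snd_swap] at e1
    rw [e1, Finset.sum_range_succ]
    simp only [Nat.sub_self, hr0, ha0]
    have e2 : cc D ρ k (m + 1) x = -(1 / (((m + 1 : ℕ) : ℂ) * D.A.eval x)) *
      ∑ j ∈ Finset.range (m + 1), ((k : ℂ) * (D.a (m + 1 - j)).eval x -
        ((k : ℂ) - (j : ℕ)) * (rt ρ k (m + 1 - j)).eval x) * cc D ρ k j x := by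
      rw [cc, Finset.sum_range]
    have e3 : ((((k : ℂ) - ((m + 1 : ℕ) : ℂ)) * D.A.eval x - (k : ℂ) * D.A.eval x)) * cc D ρ k (m + 1) x =
        ∑ j ∈ Finset.range (m + 1), ((k : ℂ) * (D.a (m + 1 - j)).eval x -
        ((k : ℂ) - (j : ℕ)) * (rt ρ k (m + 1 - j)).eval x) * cc D ρ k j x := by
      rw [e2]
      have h1 : (((m + 1 : ℕ) : ℂ)) ≠ 0 := by exact_mod_cast Nat.succ_ne_zero m
      field_simp
      ring
    rw [e3, ← Finset.sum_add_distrib]
    refine Finset.sum_eq_zero fun j _ => ?_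
    ring

open PowerSeries in
/-- the power series at a point satisfy the hypotheses of `formal` -/
theorem at_point (hk : 1 ≤ k) (h0 : ρ 0 = D.A) (hord : ∀ m < k, D.ord ρ m = 0) (x : ℂ)
    (hx : D.A.eval x ≠ 0) (κ : ℂ) (hκ : κ * D.A.eval x = k * D.β.eval x) :
    (∀ m < k, coeff m ((PowerSeries.mk fun i => (D.a i).eval x) * (PowerSeries.mk fun j => deriv (cc D ρ k j) x) -
      (PowerSeries.mk fun i => (D.b i).eval x) * (PowerSeries.mk fun j => ((k : ℂ) - (j : ℂ)) * cc D ρ k j x) +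
      C κ * (PowerSeries.mk fun i => (D.a i).eval x) * (PowerSeries.mk fun j => cc D ρ k j x)) = 0) ∧
    coeff k ((PowerSeries.mk fun i => (D.a i).eval x) * (PowerSeries.mk fun j => deriv (cc D ρ k j) x) -
      (PowerSeries.mk fun i => (D.b i).eval x) * (PowerSeries.mk fun j => ((k : ℂ) - (j : ℂ)) * cc D ρ k j x) +
      C κ * (PowerSeries.mk fun i => (D.a i).eval x) * (PowerSeries.mk fun j => cc D ρ k j x)) =
      -(D.G ρ k).eval x / D.A.eval x := by
  set a : PowerSeries ℂ := PowerSeries.mk fun i => (D.a i).eval x with ha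
  set a' : PowerSeries ℂ := PowerSeries.mk fun i => (Polynomial.derivative (D.a i)).eval x with ha'
  set b : PowerSeries ℂ := PowerSeries.mk fun i => (D.b i).eval x with hb
  set S : PowerSeries ℂ := PowerSeries.mk fun i => (rt ρ k i).eval x with hS
  set S' : PowerSeries ℂ := PowerSeries.mk fun i => (Polynomial.derivative (rt ρ k i)).eval x with hS'
  set h : PowerSeries ℂ := PowerSeries.mk fun j => cc D ρ k j x with hh
  set h' : PowerSeries ℂ := PowerSeries.mk fun j => deriv (cc D ρ k j) x with hh'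
  have hq : (PowerSeries.mk fun j => ((k : ℂ) - (j : ℂ)) * cc D ρ k j x) = C (k : ℂ) * h - th h := by
    ext j
    rw [map_sub, coeff_th, coeff_C_mul, hh, coeff_mk, coeff_mk]
    ring
  have hq' : ∀ j, coeff j (C (k : ℂ) * h' - th h') = ((k : ℂ) - (j : ℂ)) * deriv (cc D ρ k j) x := by
    intro j
    rw [map_sub, coeff_th, coeff_C_mul, hh', coeff_mk]
    ring
  have hqj : ∀ j, coeff j (C (k : ℂ) * h - th h) = ((k : ℂ) - (j : ℂ)) * cc D ρ k j x := by
    intro j
    rw [← hq, coeff_mk]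
  rw [hq]
  have hr0 : rt ρ k 0 = D.A := by rw [rt, if_pos (by omega), h0]
  have hO : ∀ m, coeff m (a * S' + b * th S - (a' + th b) * S) = (D.ord (rt ρ k) m).eval x := by
    intro m
    rw [InfD.ord, Polynomial.eval_finsetSum, map_sub, map_add, add_mul, map_add, coeff_mul, coeff_mul,
      coeff_mul, coeff_mul, ← Finset.sum_add_distrib, ← Finset.sum_add_distrib, ← Finset.sum_sub_distrib]
    refine Finset.sum_congr rfl fun p _ => ?_
    simp only [ha, ha', hb, hS, hS', coeff_th, coeff_mk, Polynomial.eval_add, Polynomial.eval_sub,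
      Polynomial.eval_mul, Polynomial.eval_C]
    ring
  have hordt : ∀ m < k, D.ord (rt ρ k) m = D.ord ρ m := by
    intro m hm
    rw [InfD.ord, InfD.ord]
    refine Finset.sum_congr rfl fun p hp => ?_
    rw [Finset.HasAntidiagonal.mem_antidiagonal] at hp
    rw [rt, if_pos (by omega)]
  have hG : (D.ord (rt ρ k) k) = -(D.G ρ k) := by
    rw [InfD.G, neg_neg]
    rfl
  refine formal hk a a' b S S' h h' (D.A.eval x) ((D.G ρ k).eval x) κ hx ?_ ?_ ?_ ?_ ?_ ?_ ?_ ?_ ?_
  · rw [ha, coeff_mk]; rfl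
  · rw [hS, coeff_mk, hr0]
  · rw [hh, coeff_mk, cc]
  · rw [hh', coeff_mk]
    have : cc D ρ k 0 = fun _ => 1 := by rw [cc]
    rw [this]; simp
  · rw [hκ, hb, coeff_mk]; rfl
  · ext m
    have := cc_rel D ρ k hk h0 m x hx
    rw [coeff_mul, mul_assoc, coeff_C_mul, coeff_mul, Finset.mul_sum, ← sub_eq_zero, ← Finset.sum_sub_distrib,
      ← this]
    refine Finset.sum_congr rfl fun p _ => ?_
    rw [hqj, hS, ha, hh, coeff_mk, coeff_mk, coeff_mk]
    ring
  · ext m
    have hF : HasDerivAt (fun x => ∑ p ∈ Finset.HasAntidiagonal.antidiagonal m,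
        (((k : ℂ) - (p.2 : ℂ)) * (rt ρ k p.1).eval x - (k : ℂ) * (D.a p.1).eval x) * cc D ρ k p.2 x)
        (∑ p ∈ Finset.HasAntidiagonal.antidiagonal m,
          ((((k : ℂ) - (p.2 : ℂ)) * (Polynomial.derivative (rt ρ k p.1)).eval x -
            (k : ℂ) * (Polynomial.derivative (D.a p.1)).eval x) * cc D ρ k p.2 x +
          (((k : ℂ) - (p.2 : ℂ)) * (rt ρ k p.1).eval x - (k : ℂ) * (D.a p.1).eval x) *
            deriv (cc D ρ k p.2) x)) x := by
      refine HasDerivAt.fun_sum fun p _ => ?_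
      exact ((((rt ρ k p.1).hasDerivAt x).const_mul _).sub (((D.a p.1).hasDerivAt x).const_mul _)).mul
        (cc_diff D ρ k p.2 x hx).hasDerivAt
    have hz : (fun x => ∑ p ∈ Finset.HasAntidiagonal.antidiagonal m,
        (((k : ℂ) - (p.2 : ℂ)) * (rt ρ k p.1).eval x - (k : ℂ) * (D.a p.1).eval x) * cc D ρ k p.2 x)
        =ᶠ[𝓝 x] fun _ => 0 := by
      have hOo : IsOpen {x : ℂ | D.A.eval x ≠ 0} := isOpen_ne_fun (Polynomial.continuous _) continuous_const
      filter_upwards [hOo.mem_nhds hx] with z hz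
      exact cc_rel D ρ k hk h0 m z hz
    have h5 := hF.unique ((hasDerivAt_const x (0 : ℂ)).congr_of_eventuallyEq hz)
    rw [coeff_C_mul, map_add, map_add, coeff_mul, coeff_mul, coeff_mul, coeff_mul,
      ← Finset.sum_add_distrib, ← Finset.sum_add_distrib, Finset.mul_sum, ← sub_eq_zero,
      ← Finset.sum_sub_distrib, ← h5]
    refine Finset.sum_congr rfl fun p _ => ?_
    rw [hqj, hq', hS, hS', ha, ha', hh, hh', coeff_mk, coeff_mk, coeff_mk, coeff_mk, coeff_mk, coeff_mk]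
    ring
  · intro m hm
    rw [hO, hordt m hm, hord m hm, Polynomial.eval_zero]
  · rw [hO, hG, Polynomial.eval_neg]

/-- truncation -/
noncomputable def tz (g : ℕ → ℂ → ℂ) (j : ℕ) (x : ℂ) : ℂ := if j ≤ k then g j x else 0

/-- polynomial with given coefficients -/
noncomputable def pl (N : ℕ) (g : ℕ → ℂ) : Polynomial ℂ := ∑ i ∈ Finset.range (N + 1), Polynomial.C (g i) * Polynomial.X ^ i

theorem pl_coeff (N : ℕ) (g : ℕ → ℂ) (hg : ∀ i, N < i → g i = 0) (i : ℕ) : (pl N g).coeff i = g i := by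
  unfold pl
  rw [Polynomial.finsetSum_coeff]
  simp only [Polynomial.coeff_C_mul, Polynomial.coeff_X_pow, mul_ite, mul_one, mul_zero]
  rw [Finset.sum_ite_eq]
  split_ifs with h
  · rfl
  · rw [Finset.mem_range] at h
    exact (hg i (by omega)).symm

theorem pl_eval (N : ℕ) (g : ℕ → ℂ) (y : ℂ) : (pl N g).eval y = ∑ i ∈ Finset.range (N + 1), g i * y ^ i := by
  unfold pl
  rw [Polynomial.eval_finsetSum]
  simp

theorem pl_natDegree (N : ℕ) (g : ℕ → ℂ) : (pl N g).natDegree ≤ N := by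
  unfold pl
  refine Polynomial.natDegree_sum_le_of_forall_le _ _ fun i hi => ?_
  refine (Polynomial.natDegree_C_mul_X_pow_le _ _).trans ?_
  rw [Finset.mem_range] at hi
  omega

/-- coefficient functions of `a h_x - b (k h - y h_y) + κ a h` -/
noncomputable def Pc (κ : ℂ → ℂ) (m : ℕ) (x : ℂ) : ℂ :=
  ∑ p ∈ Finset.HasAntidiagonal.antidiagonal m,
    ((D.a p.1).eval x * tz k (fun j => deriv (cc D ρ k j)) p.2 x -
      (D.b p.1).eval x * tz k (fun j x => ((k : ℂ) - (j : ℂ)) * cc D ρ k j x) p.2 x +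
      κ x * (D.a p.1).eval x * tz k (cc D ρ k) p.2 x)

/-- the coordinate -/
noncomputable def H (x y : ℂ) : ℂ := ∑ j ∈ Finset.range (k + 1), cc D ρ k j x * y ^ j
noncomputable def Hx (x y : ℂ) : ℂ := ∑ j ∈ Finset.range (k + 1), deriv (cc D ρ k j) x * y ^ j
noncomputable def Hq (x y : ℂ) : ℂ := ∑ j ∈ Finset.range (k + 1), ((k : ℂ) - (j : ℂ)) * cc D ρ k j x * y ^ j

theorem TT_eq (κ : ℂ → ℂ) (x y : ℂ) :
    D.aF x y * Hx D ρ k x y - D.bF x y * Hq D ρ k x y + κ x * D.aF x y * H D ρ k x y =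
      ∑ m ∈ Finset.range (D.d + k + 1), Pc D ρ k κ m x * y ^ m := by
  set pa := pl D.d (fun i => (D.a i).eval x) with hpa
  set pb := pl D.d (fun i => (D.b i).eval x) with hpb
  set ph := pl k (fun j => tz k (cc D ρ k) j x) with hph
  set ph' := pl k (fun j => tz k (fun j => deriv (cc D ρ k j)) j x) with hph'
  set pq := pl k (fun j => tz k (fun j x => ((k : ℂ) - (j : ℂ)) * cc D ρ k j x) j x) with hpq
  have ha : pa.eval y = D.aF x y := by rw [hpa, pl_eval]; rfl
  have hb : pb.eval y = D.bF x y := by rw [hpb, pl_eval]; rfl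
  have hh : ph.eval y = H D ρ k x y := by
    rw [hph, pl_eval, H]
    refine Finset.sum_congr rfl fun j hj => ?_
    rw [tz, if_pos (by rw [Finset.mem_range] at hj; omega)]
  have hh' : ph'.eval y = Hx D ρ k x y := by
    rw [hph', pl_eval, Hx]
    refine Finset.sum_congr rfl fun j hj => ?_
    rw [tz, if_pos (by rw [Finset.mem_range] at hj; omega)]
  have hq : pq.eval y = Hq D ρ k x y := by
    rw [hpq, pl_eval, Hq]
    refine Finset.sum_congr rfl fun j hj => ?_
    rw [tz, if_pos (by rw [Finset.mem_range] at hj; omega)]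
  rw [← ha, ← hb, ← hh, ← hh', ← hq]
  set P := pa * ph' - pb * pq + Polynomial.C (κ x) * pa * ph with hP
  have hPe : P.eval y = pa.eval y * ph'.eval y - pb.eval y * pq.eval y + κ x * pa.eval y * ph.eval y := by
    rw [hP]; simp
  rw [← hPe]
  have hdeg : P.natDegree < D.d + k + 1 := by
    have d1 : (pa * ph').natDegree ≤ D.d + k :=
      Polynomial.natDegree_mul_le_of_le (pl_natDegree _ _) (pl_natDegree _ _)
    have d2 : (pb * pq).natDegree ≤ D.d + k :=
      Polynomial.natDegree_mul_le_of_le (pl_natDegree _ _) (pl_natDegree _ _)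
    have d3 : (Polynomial.C (κ x) * pa * ph).natDegree ≤ D.d + k :=
      Polynomial.natDegree_mul_le_of_le ((Polynomial.natDegree_C_mul_le _ _).trans (pl_natDegree _ _)) (pl_natDegree _ _)
    have := (Polynomial.natDegree_add_le_of_le (Polynomial.natDegree_sub_le_of_le d1 d2) d3)
    rw [← hP] at this
    simp only [max_self] at this
    omega
  rw [Polynomial.eval_eq_sum_range' hdeg]
  refine Finset.sum_congr rfl fun m _ => ?_
  congr 1
  rw [hP, Polynomial.coeff_add, Polynomial.coeff_sub, Polynomial.coeff_mul, Polynomial.coeff_mul,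
    Polynomial.coeff_mul, Pc, ← Finset.sum_sub_distrib, ← Finset.sum_add_distrib]
  refine Finset.sum_congr rfl fun p _ => ?_
  rw [hpa, hpb, hph, hph', hpq, Polynomial.coeff_C_mul, pl_coeff, pl_coeff, pl_coeff, pl_coeff, pl_coeff]
  · intro i hi; rw [tz, if_neg (by omega)]
  · intro i hi; rw [tz, if_neg (by omega)]
  · intro i hi; rw [D.hb0 i hi]; simp
  · intro i hi; rw [tz, if_neg (by omega)]
  · intro i hi; rw [D.ha0 i hi]; simp

theorem Pc_low (hk : 1 ≤ k) (h0 : ρ 0 = D.A) (hord : ∀ m < k, D.ord ρ m = 0) (κ : ℂ → ℂ) (x : ℂ)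
    (hx : D.A.eval x ≠ 0) (hκ : κ x * D.A.eval x = k * D.β.eval x) :
    (∀ m < k, Pc D ρ k κ m x = 0) ∧ Pc D ρ k κ k x = -(D.G ρ k).eval x / D.A.eval x := by
  have h1 := at_point D ρ k hk h0 hord x hx (κ x) hκ
  have h2 : ∀ m ≤ k, Pc D ρ k κ m x = PowerSeries.coeff m ((PowerSeries.mk fun i => (D.a i).eval x) * (PowerSeries.mk fun j => deriv (cc D ρ k j) x) -
      (PowerSeries.mk fun i => (D.b i).eval x) * (PowerSeries.mk fun j => ((k : ℂ) - (j : ℂ)) * cc D ρ k j x) +
      PowerSeries.C (κ x) * (PowerSeries.mk fun i => (D.a i).eval x) * (PowerSeries.mk fun j => cc D ρ k j x)) := by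
    intro m hm
    rw [map_add, map_sub, PowerSeries.coeff_mul, PowerSeries.coeff_mul, PowerSeries.coeff_mul, Pc,
      ← Finset.sum_sub_distrib, ← Finset.sum_add_distrib]
    refine Finset.sum_congr rfl fun p hp => ?_
    rw [Finset.HasAntidiagonal.mem_antidiagonal] at hp
    rw [PowerSeries.coeff_C_mul, PowerSeries.coeff_mk, PowerSeries.coeff_mk, PowerSeries.coeff_mk,
      PowerSeries.coeff_mk, PowerSeries.coeff_mk, tz, if_pos (by omega), tz, if_pos (by omega), tz, if_pos (by omega)]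
  exact ⟨fun m hm => by rw [h2 m hm.le, h1.1 m hm], by rw [h2 k le_rfl, h1.2]⟩

theorem isOpen_A : IsOpen {x : ℂ | D.A.eval x ≠ 0} := isOpen_ne_fun (Polynomial.continuous _) continuous_const

theorem cc_cont (j : ℕ) : ContinuousOn (cc D ρ k j) {x : ℂ | D.A.eval x ≠ 0} := fun x hx =>
  (cc_diff D ρ k j x hx).continuousAt.continuousWithinAt

theorem dcc_cont (j : ℕ) : ContinuousOn (deriv (cc D ρ k j)) {x : ℂ | D.A.eval x ≠ 0} := by
  have h : DifferentiableOn ℂ (cc D ρ k j) {x : ℂ | D.A.eval x ≠ 0} := fun x hx =>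
    (cc_diff D ρ k j x hx).differentiableWithinAt
  exact (h.deriv (isOpen_A D)).continuousOn

theorem tz_cont {g : ℕ → ℂ → ℂ} {U : Set ℂ} (hg : ∀ j, ContinuousOn (g j) U) (j : ℕ) :
    ContinuousOn (fun x => tz k g j x) U := by
  unfold tz
  by_cases h : j ≤ k
  · simp only [h, if_true]; exact hg j
  · simp only [h, if_false]; exact continuousOn_const

theorem Pc_cont {κ : ℂ → ℂ} (hκ : ContinuousOn κ {x : ℂ | D.A.eval x ≠ 0}) (m : ℕ) :
    ContinuousOn (Pc D ρ k κ m) {x : ℂ | D.A.eval x ≠ 0} := by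
  unfold Pc
  refine continuousOn_finsetSum _ fun p _ => ?_
  refine ((((D.a p.1).continuous.continuousOn).mul (tz_cont k (dcc_cont D ρ k) _)).sub
    (((D.b p.1).continuous.continuousOn).mul (tz_cont k (fun j => continuousOn_const.mul (cc_cont D ρ k j)) _))).add
    ((hκ.mul ((D.a p.1).continuous.continuousOn)).mul (tz_cont k (cc_cont D ρ k) _))

/-- a finite family of continuous functions on a compact set is bounded -/
theorem fam_bound {K : Set ℂ} (hK : IsCompact K) (g : ℕ → ℂ → ℂ) (hg : ∀ j, ContinuousOn (g j) K) (N : ℕ) :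
    ∃ C : ℝ, 0 ≤ C ∧ ∀ x ∈ K, ∑ m ∈ Finset.range N, ‖g m x‖ ≤ C := by
  have hc : ContinuousOn (fun x => ∑ m ∈ Finset.range N, ‖g m x‖) K :=
    continuousOn_finsetSum _ fun m _ => (hg m).norm
  obtain ⟨C, hC⟩ := hK.exists_bound_of_continuousOn hc
  refine ⟨|C|, abs_nonneg _, fun x hx => ?_⟩
  have := hC x hx
  rw [Real.norm_eq_abs, abs_of_nonneg (Finset.sum_nonneg fun m _ => norm_nonneg _)] at this
  exact this.trans (le_abs_self C)

/-- tails of sums of powers -/
theorem tail_le (g : ℕ → ℂ) (N k : ℕ) {C : ℝ} (hC : ∑ m ∈ Finset.range N, ‖g m‖ ≤ C) {y : ℂ} (hy : ‖y‖ ≤ 1)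
    (hk : k < N) (hlow : ∀ m < k, g m = 0) :
    ‖∑ m ∈ Finset.range N, g m * y ^ m - g k * y ^ k‖ ≤ C * ‖y‖ ^ (k + 1) := by
  rw [← Finset.sum_erase_eq_sub (f := fun m => g m * y ^ m) (Finset.mem_range.2 hk)]
  calc ‖∑ m ∈ (Finset.range N).erase k, g m * y ^ m‖
      ≤ ∑ m ∈ (Finset.range N).erase k, ‖g m‖ * ‖y‖ ^ (k + 1) := by
        refine norm_sum_le_of_le _ fun m hm => ?_
        rw [Finset.mem_erase] at hm
        rcases lt_or_gt_of_ne hm.1 with h | h
        · rw [hlow m h]; simp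
        · rw [norm_mul, norm_pow]
          exact mul_le_mul_of_nonneg_left (pow_le_pow_of_le_one (norm_nonneg _) hy h) (norm_nonneg _)
    _ = (∑ m ∈ (Finset.range N).erase k, ‖g m‖) * ‖y‖ ^ (k + 1) := by rw [Finset.sum_mul]
    _ ≤ C * ‖y‖ ^ (k + 1) := by
        gcongr
        refine (Finset.sum_le_sum_of_subset_of_nonneg (Finset.erase_subset _ _) fun m _ _ => norm_nonneg _).trans hC

theorem u_deriv {η : ℂ → ℂ} {x : ℂ} (hx : D.A.eval x ≠ 0) (h1 : η x ≠ 0) (h2 : D.aF x (η x) ≠ 0)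
    (h3 : HasDerivAt η (η x * D.bF x (η x) / D.aF x (η x)) x) :
    HasDerivAt (fun x => H D ρ k x (η x) / η x ^ k)
      ((Hx D ρ k x (η x) - D.bF x (η x) / D.aF x (η x) * Hq D ρ k x (η x)) / η x ^ k) x := by
  have e1 : HasDerivAt (fun x => H D ρ k x (η x))
      (Hx D ρ k x (η x) + D.bF x (η x) / D.aF x (η x) *
        ∑ j ∈ Finset.range (k + 1), (j : ℂ) * cc D ρ k j x * η x ^ j) x := by
    unfold H Hx
    rw [Finset.mul_sum, ← Finset.sum_add_distrib]
    refine HasDerivAt.fun_sum fun j _ => ?_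
    have := (cc_diff D ρ k j x hx).hasDerivAt.mul (h3.pow j)
    refine this.congr_deriv ?_
    cases j with
    | zero => simp
    | succ j =>
      simp only [Nat.add_sub_cancel, Pi.pow_apply, pow_succ]
      push_cast
      ring
  have e2 := e1.div (h3.pow k) (pow_ne_zero k h1)
  refine e2.congr_deriv ?_
  have e3 : Hq D ρ k x (η x) = k * H D ρ k x (η x) - ∑ j ∈ Finset.range (k + 1), (j : ℂ) * cc D ρ k j x * η x ^ j := by
    unfold Hq H
    rw [Finset.mul_sum, ← Finset.sum_sub_distrib]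
    exact Finset.sum_congr rfl fun j _ => by ring
  rw [e3]
  cases k with
  | zero => simp
  | succ k =>
    simp only [Nat.add_sub_cancel, Pi.pow_apply, pow_succ]
    have h4 : η x ^ k ≠ 0 := pow_ne_zero k h1
    field_simp
    push_cast
    ring

end NF

open NF in
theorem normal_form (D : InfD) (ρ : ℕ → Polynomial ℂ) (k : ℕ) (hk : 1 ≤ k) (h0 : ρ 0 = D.A)
    (hord : ∀ m < k, D.ord ρ m = 0) (K : Set ℂ) (hK : IsCompact K) (hKA : ∀ x ∈ K, D.A.eval x ≠ 0) :
    ∃ ε > 0, ∃ C : ℝ, 0 ≤ C ∧ ∃ h : ℂ → ℂ → ℂ,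
      (∀ x ∈ K, ∀ y : ℂ, ‖y‖ < ε → ‖h x y - 1‖ ≤ C * ‖y‖) ∧
      ∀ (c : ℂ) (R : ℝ) (η : ℂ → ℂ), ball c R ⊆ K → D.Sol η c R → (∀ x ∈ ball c R, ‖η x‖ < ε) →
        ∀ x ∈ ball c R, ∃ u' : ℂ, HasDerivAt (fun x => h x (η x) / η x ^ k) u' x ∧
          ‖u' + k * (D.β.eval x / D.A.eval x) * (h x (η x) / η x ^ k) +
            (D.G ρ k).eval x / (D.A.eval x) ^ 2‖ ≤ C * ‖η x‖ := by
  have hKs : K ⊆ {x : ℂ | D.A.eval x ≠ 0} := hKA
  obtain ⟨ε0, hε0, M, hM0, hM⟩ := GRAPH.exists_tube D hK hKA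
  set κ : ℂ → ℂ := fun x => k * (D.β.eval x / D.A.eval x) with hκd
  have hκc : ContinuousOn κ {x : ℂ | D.A.eval x ≠ 0} :=
    continuousOn_const.mul ((Polynomial.continuous _).continuousOn.div (Polynomial.continuous _).continuousOn
      fun x hx => hx)
  obtain ⟨C1, hC10, hC1⟩ := fam_bound hK (fun m => Pc D ρ k κ m) (fun m => (Pc_cont D ρ k hκc m).mono hKs)
    (D.d + k + 1)
  obtain ⟨C2, hC20, hC2⟩ := fam_bound hK (fun i x => (D.a i).eval x) (fun i => (Polynomial.continuous _).continuousOn)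
    (D.d + 1)
  obtain ⟨C5, hC50, hC5⟩ := fam_bound hK (fun j => cc D ρ k j) (fun j => (cc_cont D ρ k j).mono hKs) (k + 1)
  obtain ⟨C4, hC4⟩ := hK.exists_bound_of_continuousOn (f := fun x => (D.G ρ k).eval x / (D.A.eval x) ^ 2)
    ((Polynomial.continuous _).continuousOn.div ((Polynomial.continuous _).continuousOn.pow 2)
      fun x hx => pow_ne_zero 2 (hKA x hx))
  have hcpt : IsCompact (K ×ˢ closedBall (0 : ℂ) ε0) := hK.prod (isCompact_closedBall _ _)
  obtain ⟨C3, hC3⟩ := hcpt.exists_bound_of_continuousOn (f := fun p : ℂ × ℂ => (D.aF p.1 p.2)⁻¹)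
    ((GRAPH.continuous_aF D).continuousOn.inv₀ (by
      rintro ⟨x, y⟩ ⟨hx, hy⟩
      exact (hM x hx y (by simpa using hy)).1))
  have hd := D.hd
  refine ⟨min ε0 1, by positivity, C5 + (|C4| * C2 + C1) * |C3|, by positivity, H D ρ k, ?_, ?_⟩
  · intro x hx y hy
    have hy1 : ‖y‖ ≤ 1 := (hy.trans_le (min_le_right _ _)).le
    have h1 := tail_le (fun j => cc D ρ k j x) (k + 1) 0 (hC5 x hx) hy1 (by omega) (by intro m hm; omega)
    simp only [pow_zero, mul_one, zero_add, pow_one] at h1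
    have h2 : cc D ρ k 0 x = 1 := by rw [cc]
    rw [h2] at h1
    refine h1.trans ?_
    have : 0 ≤ (|C4| * C2 + C1) * |C3| := by positivity
    nlinarith [norm_nonneg y]
  · intro c R η hcR hsol hsm x hx
    obtain ⟨h1, h2, h3⟩ := hsol x hx
    have hxK := hcR hx
    have hxA := hKA x hxK
    have hη1 : ‖η x‖ ≤ 1 := ((hsm x hx).trans_le (min_le_right _ _)).le
    have hη0 : ‖η x‖ ≤ ε0 := ((hsm x hx).trans_le (min_le_left _ _)).le
    refine ⟨_, u_deriv D ρ k hxA h1 h2 h3, ?_⟩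
    have hTT := TT_eq D ρ k κ x (η x)
    have hPl := Pc_low D ρ k hk h0 hord κ x hxA (by rw [hκd]; field_simp)
    have ht := tail_le (fun m => Pc D ρ k κ m x) (D.d + k + 1) k (hC1 x hxK) hη1 (by omega) hPl.1
    rw [← hTT, hPl.2] at ht
    set TT := D.aF x (η x) * Hx D ρ k x (η x) - D.bF x (η x) * Hq D ρ k x (η x) +
      κ x * D.aF x (η x) * H D ρ k x (η x) with hTTd
    have ha := tail_le (fun i => (D.a i).eval x) (D.d + 1) 0 (hC2 x hxK) hη1 (by omega) (by intro m hm; omega)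
    have haF : ∑ m ∈ Finset.range (D.d + 1), (D.a m).eval x * η x ^ m = D.aF x (η x) := rfl
    simp only [pow_zero, mul_one, zero_add, pow_one] at ha
    rw [haF] at ha
    have hA0 : (D.a 0).eval x = D.A.eval x := rfl
    rw [hA0] at ha
    have h3' := hC3 (x, η x) ⟨hxK, by simpa using hη0⟩
    have h4' := hC4 x hxK
    simp only at h3' h4'
    have key : (Hx D ρ k x (η x) - D.bF x (η x) / D.aF x (η x) * Hq D ρ k x (η x)) / η x ^ k +
        k * (D.β.eval x / D.A.eval x) * (H D ρ k x (η x) / η x ^ k) + (D.G ρ k).eval x / (D.A.eval x) ^ 2 =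
        (D.G ρ k).eval x / (D.A.eval x) ^ 2 * (D.aF x (η x) - D.A.eval x) * (D.aF x (η x))⁻¹ +
        (TT - -(D.G ρ k).eval x / D.A.eval x * η x ^ k) * (D.aF x (η x))⁻¹ / η x ^ k := by
      rw [hTTd, hκd]
      have hp : η x ^ k ≠ 0 := pow_ne_zero k h1
      field_simp
      ring
    rw [key]
    have hp : 0 < ‖η x‖ ^ k := by
      have : 0 < ‖η x‖ := norm_pos_iff.2 h1
      positivity
    have b1 : ‖(D.G ρ k).eval x / (D.A.eval x) ^ 2 * (D.aF x (η x) - D.A.eval x) * (D.aF x (η x))⁻¹‖ ≤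
        |C4| * (C2 * ‖η x‖) * |C3| := by
      rw [norm_mul, norm_mul]
      have := le_abs_self C4
      have := le_abs_self C3
      gcongr
      · linarith
      · linarith
    have b2 : ‖(TT - -(D.G ρ k).eval x / D.A.eval x * η x ^ k) * (D.aF x (η x))⁻¹ / η x ^ k‖ ≤
        C1 * ‖η x‖ * |C3| := by
      rw [norm_div, norm_mul, norm_pow, div_le_iff₀ hp]
      have := le_abs_self C3
      calc _ ≤ (C1 * ‖η x‖ ^ (k + 1)) * |C3| := by
            gcongr
            linarith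
        _ = _ := by rw [pow_succ]; ring
    refine (norm_add_le _ _).trans ((add_le_add b1 b2).trans ?_)
    have : 0 ≤ C5 * ‖η x‖ := by positivity
    nlinarith

end Pool.Agent.H210.Gr
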