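import Pool.Agent.H210.Green.Defs

set_option autoImplicit false

namespace Pool.Agent.H210.Gr

open Metric Set MeasureTheory Topology Filter
open scoped Laplacian ContDiff

namespace TREE

/-- a test function composed with a conformal disc is `C¹` -/
theorem contDiffOn_conf {E : Type} (S : TSurf E) {γ : ℂ → E} {c : ℂ} {R : ℝ} (h : S.Loc γ c R)
    {f : E → ℝ} (hf : S.Test f) : ContDiffOn ℝ 1 (fun x => f (γ x)) (ball c R) := by
  intro x hx
  obtain ⟨hL, ε, hε, hsub, τ, hτ, hτ0, hτl⟩ := h x hx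
  have hxb : x ∈ ball x ε := mem_ball_self hε
  have h1 : ContDiffAt ℝ 1 τ x := by
    have h2 : AnalyticAt ℂ τ x := hτ.analyticAt (isOpen_ball.mem_nhds hxb)
    have h3 : ContDiffAt ℂ 1 τ x := h2.contDiffAt
    exact h3.restrict_scalars ℝ
  have h2 : ContDiffAt ℝ 1 (fun t => f (S.flow (γ x) t)) (τ x) := by
    rw [hτ0]
    exact (hf.1 (γ x) hL).contDiffAt (isOpen_ball.mem_nhds (mem_ball_self (S.rad_pos _ hL)))
  have h3 : ContDiffAt ℝ 1 (fun x' => f (S.flow (γ x) (τ x'))) x := h2.comp x h1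
  have h4 : (fun x' => f (γ x')) =ᶠ[𝓝 x] fun x' => f (S.flow (γ x) (τ x')) := by
    filter_upwards [isOpen_ball.mem_nhds hxb] with x' hx'
    rw [(hτl x' hx').2]
  exact (h3.congr_of_eventuallyEq h4).contDiffWithinAt

theorem cs {α : Type} [MeasurableSpace α] (μ : Measure α) [IsFiniteMeasure μ] (φ : α → ℝ)
    (h1 : Integrable φ μ) (h2 : Integrable (fun x => φ x ^ 2) μ) :
    (∫ x, φ x ∂μ) ^ 2 ≤ μ.real univ * ∫ x, φ x ^ 2 ∂μ := by
  rcases eq_or_ne μ 0 with h0 | h0
  · subst h0; simp
  have hV : 0 < μ.real univ := by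
    rw [measureReal_def]
    exact ENNReal.toReal_pos (by simpa using h0) (measure_ne_top _ _)
  set V := μ.real univ with hVd
  set I := ∫ x, φ x ∂μ with hI
  have h3 : 0 ≤ ∫ x, (φ x - I / V) ^ 2 ∂μ := integral_nonneg fun x => sq_nonneg _
  have h4 : ∫ x, (φ x - I / V) ^ 2 ∂μ = ∫ x, φ x ^ 2 ∂μ - I ^ 2 / V := by
    have : (fun x => (φ x - I / V) ^ 2) = fun x => φ x ^ 2 - (2 * (I / V)) * φ x + (I / V) ^ 2 := by
      funext x; ring
    have i1 : Integrable (fun x => 2 * (I / V) * φ x) μ := h1.const_mul _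
    rw [this, integral_add (f := fun x => φ x ^ 2 - 2 * (I / V) * φ x) (h2.sub i1) (integrable_const _),
      integral_sub h2 i1, integral_const_mul, integral_const, smul_eq_mul, ← hI, ← hVd]
    field_simp
    ring
  rw [h4] at h3
  have h5 : I ^ 2 / V ≤ ∫ x, φ x ^ 2 ∂μ := by linarith
  rw [div_le_iff₀ hV] at h5
  linarith

theorem finite_restrict (c : ℂ) (r : ℝ) : IsFiniteMeasure ((volume : Measure ℂ).restrict (ball c r)) :=
  ⟨by rw [Measure.restrict_apply_univ]; exact measure_ball_lt_top⟩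

/-- comparison of the integrals over two translated balls -/
theorem shift_le {F : ℂ → ℝ} {c c' : ℂ} {R : ℝ} (hR : 0 < R) (hF : ContDiffOn ℝ 1 F (ball c R))
    (hc : ‖c' - c‖ ≤ R / 4) :
    ((∫ x in ball c (R / 4), F x) - ∫ x in ball c' (R / 4), F x) ^ 2 ≤
      ((R / 4) ^ 2 * (volume : Measure ℂ).real (ball c (3 * R / 4))) *
        ∫ x in ball c (3 * R / 4), ‖fderiv ℝ F x‖ ^ 2 := by
  have hfin := finite_restrict
  set r := R / 4 with hr
  have hr0 : 0 < r := by positivity
  have h3r : 3 * R / 4 = 3 * r := by rw [hr]; ring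
  rw [h3r]
  set h := c' - c with hh
  have hcont : ContinuousOn (fderiv ℝ F) (ball c R) := hF.continuousOn_fderiv_of_isOpen isOpen_ball le_rfl
  have hsub : closedBall c (3 * r) ⊆ ball c R := closedBall_subset_ball (by rw [hr]; linarith)
  have hdiff : ∀ x ∈ ball c R, DifferentiableAt ℝ F x := fun x hx =>
    (hF.differentiableOn one_ne_zero).differentiableAt (isOpen_ball.mem_nhds hx)
  have hN : ContinuousOn (fun x => ‖fderiv ℝ F x‖) (closedBall c (3 * r)) := (hcont.mono hsub).norm
  have hNint : IntegrableOn (fun x => ‖fderiv ℝ F x‖) (ball c (3 * r)) :=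
    (hN.integrableOn_compact (isCompact_closedBall _ _)).mono_set ball_subset_closedBall
  have hNint2 : IntegrableOn (fun x => ‖fderiv ℝ F x‖ ^ 2) (ball c (3 * r)) :=
    ((hN.pow 2).integrableOn_compact (isCompact_closedBall _ _)).mono_set ball_subset_closedBall
  obtain ⟨Mb, hMb⟩ := (isCompact_closedBall c (3 * r)).exists_bound_of_continuousOn hN
  have hmem : ∀ s ∈ Ioo (-1 : ℝ) 2, ∀ x ∈ ball c r, x + (s : ℂ) * h ∈ ball c (3 * r) := by
    intro s hs x hx
    rw [mem_ball, dist_eq_norm] at hx ⊢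
    have : ‖(s : ℂ) * h‖ ≤ 2 * r := by
      rw [norm_mul, Complex.norm_real]
      have h1 : ‖s‖ ≤ 2 := by rw [Real.norm_eq_abs, abs_le]; constructor <;> linarith [hs.1, hs.2]
      calc ‖s‖ * ‖h‖ ≤ 2 * r := by gcongr
        _ = 2 * r := rfl
    calc ‖x + (s : ℂ) * h - c‖ = ‖(x - c) + (s : ℂ) * h‖ := by ring_nf
      _ ≤ ‖x - c‖ + ‖(s : ℂ) * h‖ := norm_add_le _ _
      _ < 3 * r := by linarith
  set K : ℝ := ‖h‖ * ∫ x in ball c (3 * r), ‖fderiv ℝ F x‖ with hK
  -- the path of integrals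
  set g : ℝ → ℝ := fun s => ∫ x in ball c r, F (x + (s : ℂ) * h) with hg
  have hline : ∀ (x : ℂ) (s : ℝ), HasDerivAt (fun s : ℝ => x + (s : ℂ) * h) h s := by
    intro x s
    have h1 : HasDerivAt (fun s : ℝ => (s : ℂ)) 1 s := Complex.ofRealCLM.hasDerivAt
    have h2 := (h1.mul_const h).const_add x
    simpa using h2
  have hderiv : ∀ s ∈ Ioo (-1 : ℝ) 2, HasDerivAt g (∫ x in ball c r, fderiv ℝ F (x + (s : ℂ) * h) h) s := by
    intro s hs
    have hcF : ∀ s ∈ Ioo (-1 : ℝ) 2, ContinuousOn (fun x => F (x + (s : ℂ) * h)) (ball c r) := by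
      intro s hs
      refine (hF.continuousOn).comp (by fun_prop) ?_
      intro x hx
      exact hsub (ball_subset_closedBall (hmem s hs x hx))
    have hcF' : ∀ s ∈ Ioo (-1 : ℝ) 2, ContinuousOn (fun x => fderiv ℝ F (x + (s : ℂ) * h) h) (ball c r) := by
      intro s hs
      refine ContinuousOn.clm_apply ?_ continuousOn_const
      refine hcont.comp (by fun_prop) ?_
      intro x hx
      exact hsub (ball_subset_closedBall (hmem s hs x hx))
    refine (hasDerivAt_integral_of_dominated_loc_of_deriv_le (μ := volume.restrict (ball c r))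
      (F := fun s x => F (x + ((s : ℝ) : ℂ) * h)) (F' := fun s x => fderiv ℝ F (x + ((s : ℝ) : ℂ) * h) h)
      (bound := fun _ => Mb * ‖h‖) (isOpen_Ioo.mem_nhds hs) ?_ ?_ ?_ ?_ ?_ ?_).2
    · filter_upwards [isOpen_Ioo.mem_nhds hs] with s' hs'
      exact (hcF s' hs').aestronglyMeasurable measurableSet_ball
    · have : IntegrableOn F (closedBall c (3 * r)) :=
        (hF.continuousOn.mono hsub).integrableOn_compact (isCompact_closedBall _ _)
      obtain ⟨MF, hMF⟩ := (isCompact_closedBall c (3 * r)).exists_bound_of_continuousOn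
        (hF.continuousOn.mono hsub)
      refine Integrable.of_bound ((hcF s hs).aestronglyMeasurable measurableSet_ball) MF ?_
      filter_upwards [ae_restrict_mem measurableSet_ball] with x hx
      exact hMF _ (ball_subset_closedBall (hmem s hs x hx))
    · exact (hcF' s hs).aestronglyMeasurable measurableSet_ball
    · filter_upwards [ae_restrict_mem measurableSet_ball] with x hx s' hs'
      refine (ContinuousLinearMap.le_opNorm _ _).trans ?_
      gcongr
      have := hMb _ (ball_subset_closedBall (hmem s' hs' x hx))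
      rwa [Real.norm_eq_abs, abs_of_nonneg (norm_nonneg _)] at this
    · exact integrable_const _
    · filter_upwards [ae_restrict_mem measurableSet_ball] with x hx s' hs'
      have h1 := (hdiff _ (hsub (ball_subset_closedBall (hmem s' hs' x hx)))).hasFDerivAt
      exact h1.comp_hasDerivAt s' (hline x s')
  have hbound : ∀ s ∈ Ioo (-1 : ℝ) 2, ‖∫ x in ball c r, fderiv ℝ F (x + (s : ℂ) * h) h‖ ≤ K := by
    intro s hs
    have hpre : ∀ (φ : ℂ → ℝ), ∫ x in ball c r, φ (x + (s : ℂ) * h) = ∫ x in ball (c + (s : ℂ) * h) r, φ x := by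
      intro φ
      have h1 := (measurePreserving_add_right (volume : Measure ℂ) ((s : ℂ) * h)).setIntegral_preimage_emb
        (measurableEmbedding_addRight _) φ (ball (c + (s : ℂ) * h) r)
      rw [← h1]
      congr 2
      ext x
      simp [dist_eq_norm]
    calc ‖∫ x in ball c r, fderiv ℝ F (x + (s : ℂ) * h) h‖
        ≤ ∫ x in ball c r, ‖h‖ * ‖fderiv ℝ F (x + (s : ℂ) * h)‖ := by
          refine norm_integral_le_of_norm_le ?_ ?_
          · refine Integrable.const_mul ?_ _
            refine Integrable.of_bound (C := Mb) ?_ ?_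
            · refine ContinuousOn.aestronglyMeasurable ?_ measurableSet_ball
              refine (hcont.comp (by fun_prop) ?_).norm
              intro x hx
              exact hsub (ball_subset_closedBall (hmem s hs x hx))
            · filter_upwards [ae_restrict_mem measurableSet_ball] with x hx
              exact hMb _ (ball_subset_closedBall (hmem s hs x hx))
          · refine Eventually.of_forall fun x => ?_
            rw [mul_comm ‖h‖]
            exact ContinuousLinearMap.le_opNorm _ _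
      _ = ‖h‖ * ∫ x in ball (c + (s : ℂ) * h) r, ‖fderiv ℝ F x‖ := by
          rw [integral_const_mul, hpre (fun x => ‖fderiv ℝ F x‖)]
      _ ≤ K := by
          rw [hK]
          refine mul_le_mul_of_nonneg_left (setIntegral_mono_set hNint
            (ae_of_all _ fun x => norm_nonneg _) ?_) (norm_nonneg _)
          refine LE.le.eventuallyLE ?_
          intro x hx
          have h2 := hmem s hs (x - (s : ℂ) * h) (by
            rw [mem_ball, dist_eq_norm] at hx ⊢
            convert hx using 2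
            ring)
          simpa using h2
  have hmv : ‖g 1 - g 0‖ ≤ K := by
    have h1 : ∀ s ∈ Icc (0 : ℝ) 1, HasDerivWithinAt g (∫ x in ball c r, fderiv ℝ F (x + (s : ℂ) * h) h)
        (Icc 0 1) s := fun s hs => (hderiv s ⟨by linarith [hs.1], by linarith [hs.2]⟩).hasDerivWithinAt
    have h2 := norm_image_sub_le_of_norm_deriv_le_segment_01' (f := g) (C := K) h1
      (fun s hs => hbound s ⟨by linarith [hs.1], by linarith [hs.2]⟩)
    exact h2
  have hg0 : g 0 = ∫ x in ball c r, F x := by simp [hg]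
  have hg1 : g 1 = ∫ x in ball c' r, F x := by
    have h1 := (measurePreserving_add_right (volume : Measure ℂ) h).setIntegral_preimage_emb
      (measurableEmbedding_addRight _) F (ball c' r)
    rw [← h1]
    simp only [hg, Complex.ofReal_one, one_mul]
    congr 2
    ext x
    simp only [mem_ball, dist_eq_norm, mem_preimage, hh]
    ring_nf
  have hsq : ((∫ x in ball c r, F x) - ∫ x in ball c' r, F x) ^ 2 ≤ K ^ 2 := by
    rw [← hg0, ← hg1]
    rw [Real.norm_eq_abs] at hmv
    have hK0 : 0 ≤ K := (abs_nonneg _).trans hmv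
    have := abs_le.1 hmv
    nlinarith [this.1, this.2]
  refine hsq.trans ?_
  have hcs := cs (volume.restrict (ball c (3 * r))) (fun x => ‖fderiv ℝ F x‖) hNint hNint2
  rw [hK, mul_pow]
  have hV : (volume.restrict (ball c (3 * r))).real univ = (volume : Measure ℂ).real (ball c (3 * r)) := by
    simp [measureReal_def]
  rw [hV] at hcs
  have hI0 : 0 ≤ ∫ x in ball c (3 * r), ‖fderiv ℝ F x‖ ^ 2 := integral_nonneg fun x => by positivity
  calc ‖h‖ ^ 2 * (∫ x in ball c (3 * r), ‖fderiv ℝ F x‖) ^ 2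
      ≤ r ^ 2 * ((volume : Measure ℂ).real (ball c (3 * r)) * ∫ x in ball c (3 * r), ‖fderiv ℝ F x‖ ^ 2) := by
        gcongr
    _ = _ := by ring


/-- words of length `n` -/
def W : ℕ → Finset (List Bool)
  | 0 => {[]}
  | n + 1 => (W n).image (List.cons true) ∪ (W n).image (List.cons false)

theorem length_W : ∀ (n : ℕ) (w : List Bool), w ∈ W n → w.length = n
  | 0, w, h => by simp only [W, Finset.mem_singleton] at h; subst h; rfl
  | n + 1, w, h => by
    simp only [W, Finset.mem_union, Finset.mem_image] at h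
    rcases h with ⟨v, hv, rfl⟩ | ⟨v, hv, rfl⟩ <;> simp [length_W n v hv]

theorem sum_W_succ (n : ℕ) (g : List Bool → ℝ) :
    ∑ w ∈ W (n + 1), g w = ∑ w ∈ W n, (g (true :: w) + g (false :: w)) := by
  rw [W, Finset.sum_union, Finset.sum_image, Finset.sum_image, Finset.sum_add_distrib]
  · intro a _ b _ h; simpa using h
  · intro a _ b _ h; simpa using h
  · rw [Finset.disjoint_left]
    intro w h1 h2
    simp only [Finset.mem_image] at h1 h2
    obtain ⟨a, _, rfl⟩ := h1
    obtain ⟨b, _, h⟩ := h2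
    simp at h

theorem card_W (n : ℕ) : (W n).card = 2 ^ n := by
  induction n with
  | zero => simp [W]
  | succ n ih =>
    have h : ((W (n + 1)).card : ℝ) = 2 ^ (n + 1) := by
      have h1 := sum_W_succ n (fun _ => 1)
      simp only [Finset.sum_const, nsmul_eq_mul, mul_one] at h1
      rw [h1, ih]; push_cast; ring
    exact_mod_cast h

theorem sq_sum_abs_le (s : Finset (List Bool)) (g : List Bool → ℝ) :
    (∑ w ∈ s, |g w|) ^ 2 ≤ s.card * ∑ w ∈ s, g w ^ 2 := by
  have := sq_sum_le_card_mul_sum_sq (s := s) (f := fun w => |g w|)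
  simpa using this

end TREE

open TREE in
theorem tree_energy {E : Type} (S : TSurf E) (x0 : ℂ) (R : ℝ) (hR : 0 < R)
    (δ : List Bool → ℂ → E) (m : Bool → ℕ) (c : Bool → ℕ → ℂ)
    (γ : Bool → ℕ → List Bool → ℂ → E)
    (hc0 : ∀ l, c l 0 = x0) (hcm : ∀ l, c l (m l) = x0)
    (hstep : ∀ l, ∀ i < m l, ‖c l (i + 1) - c l i‖ ≤ R / 4)
    (hb : ∀ l w, ∀ x ∈ ball x0 (R / 4), γ l 0 w x = δ w x)
    (he : ∀ l w, ∀ x ∈ ball x0 (R / 4), γ l (m l) w x = δ (l :: w) x)
    (hglue : ∀ l, ∀ i < m l, ∀ w, ∀ x ∈ ball (c l (i + 1)) (R / 4), γ l (i + 1) w x = γ l i w x)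
    (hconf : ∀ l, ∀ i ≤ m l, ∀ w, S.Conf (γ l i w) (c l i) R)
    (hdisj : ∀ l, ∀ i ≤ m l, ∀ w w' : List Bool, w.length = w'.length → w ≠ w' →
      Disjoint (γ l i w '' ball (c l i) R) (γ l i w' '' ball (c l i) R))
    (hsupp : ∀ f, S.Test f → ∃ N, ∀ w : List Bool, N ≤ w.length →
      ∀ x ∈ ball x0 (R / 4), f (δ w x) = 0) :
    ∃ C, 0 ≤ C ∧ ∀ f, S.Test f → ∀ B, 0 ≤ B → S.EBound f B →
      (∫ x in ball x0 (R / 4), f (δ [] x)) ^ 2 ≤ C * B := by
  set V : ℝ := (volume : Measure ℂ).real (ball (0 : ℂ) (3 * R / 4)) with hV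
  have hVc : ∀ c : ℂ, (volume : Measure ℂ).real (ball c (3 * R / 4)) = V := by
    intro c
    rw [hV, measureReal_def, measureReal_def, Measure.addHaar_ball_center]
  set C0 : ℝ := (R / 4) ^ 2 * V with hC0
  have hC00 : 0 ≤ C0 := by rw [hC0, hV]; positivity
  set Mm : ℝ := (m true : ℝ) + m false with hMm
  set q : ℝ := Real.sqrt (1 / 2) with hq
  have hq0 : 0 ≤ q := Real.sqrt_nonneg _
  have hq2 : q ^ 2 = 1 / 2 := Real.sq_sqrt (by norm_num)
  have hq1 : q < 1 := by nlinarith
  refine ⟨(Mm / (1 - q)) ^ 2 * C0, by positivity, ?_⟩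
  intro f hf B hB hE
  -- integrals
  set J : List Bool → ℝ := fun w => ∫ x in ball x0 (R / 4), f (δ w x) with hJ
  set I : Bool → ℕ → List Bool → ℝ := fun l i w => ∫ x in ball (c l i) (R / 4), f (γ l i w x) with hI
  have hI0 : ∀ l w, I l 0 w = J w := by
    intro l w
    simp only [hI, hJ, hc0]
    exact setIntegral_congr_fun measurableSet_ball fun x hx => by simp only [hb l w x hx]
  have hIm : ∀ l w, I l (m l) w = J (l :: w) := by
    intro l w
    simp only [hI, hJ, hcm]
    exact setIntegral_congr_fun measurableSet_ball fun x hx => by simp only [he l w x hx]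
  set Dn : Bool → ℕ → List Bool → ℝ := fun l i w =>
    ∫ x in ball (c l i) (3 * R / 4), ‖fderiv ℝ (fun x => f (γ l i w x)) x‖ ^ 2 with hDn
  have hstepI : ∀ l, ∀ i < m l, ∀ w, (I l i w - I l (i + 1) w) ^ 2 ≤ C0 * Dn l i w := by
    intro l i hi w
    have h1 := shift_le (F := fun x => f (γ l i w x)) (c := c l i) (c' := c l (i + 1)) hR
      (contDiffOn_conf S (hconf l i hi.le w).2 hf) (hstep l i hi)
    rw [hVc] at h1
    have h2 : I l (i + 1) w = ∫ x in ball (c l (i + 1)) (R / 4), f (γ l i w x) := by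
      simp only [hI]
      exact setIntegral_congr_fun measurableSet_ball fun x hx => by simp only [hglue l i hi w x hx]
    rw [h2]
    exact h1
  have hDsum : ∀ l, ∀ i ≤ m l, ∀ n, ∑ w ∈ W n, Dn l i w ≤ B := by
    intro l i hi n
    have h1 := hE (W n) (fun w => γ l i w) (fun _ => c l i) (fun _ => R) (fun _ => 3 * R / 4)
      (fun w => ⟨hconf l i hi w, by positivity, by linarith⟩) (by
        intro w w' hww'
        refine (hdisj l i hi w w' ?_ (fun h => hww' (Subtype.ext h))).mono ?_ ?_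
        · rw [length_W n w w.2, length_W n w' w'.2]
        · exact image_mono (ball_subset_ball (by linarith))
        · exact image_mono (ball_subset_ball (by linarith)))
    rwa [Finset.sum_coe_sort (W n) (fun w => Dn l i w)] at h1
  have hlev : ∀ l, ∀ i < m l, ∀ n, (∑ w ∈ W n, |I l i w - I l (i + 1) w|) / 2 ^ n ≤ q ^ n * Real.sqrt (C0 * B) := by
    intro l i hi n
    have h1 := sq_sum_abs_le (W n) (fun w => I l i w - I l (i + 1) w)
    rw [card_W] at h1
    have h2 : ∑ w ∈ W n, (I l i w - I l (i + 1) w) ^ 2 ≤ C0 * B := by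
      calc ∑ w ∈ W n, (I l i w - I l (i + 1) w) ^ 2 ≤ ∑ w ∈ W n, C0 * Dn l i w :=
            Finset.sum_le_sum fun w _ => hstepI l i hi w
        _ = C0 * ∑ w ∈ W n, Dn l i w := by rw [Finset.mul_sum]
        _ ≤ C0 * B := mul_le_mul_of_nonneg_left (hDsum l i hi.le n) hC00
    set T := ∑ w ∈ W n, |I l i w - I l (i + 1) w| with hT
    have hT0 : 0 ≤ T := Finset.sum_nonneg fun w _ => abs_nonneg _
    have hCB : 0 ≤ C0 * B := mul_nonneg hC00 hB
    have h3 : T ^ 2 ≤ 2 ^ n * (C0 * B) := by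
      refine h1.trans ?_
      push_cast
      exact mul_le_mul_of_nonneg_left h2 (by positivity)
    have h4 : (T / 2 ^ n) ^ 2 ≤ (q ^ n * Real.sqrt (C0 * B)) ^ 2 := by
      have hqn : (q ^ n) ^ 2 = (1 / 2) ^ n := by rw [← pow_mul, mul_comm, pow_mul, hq2]
      rw [div_pow, mul_pow, Real.sq_sqrt hCB, hqn, one_div, inv_pow, div_le_iff₀ (by positivity)]
      calc T ^ 2 ≤ 2 ^ n * (C0 * B) := h3
        _ = _ := by
          have : (2 : ℝ) ^ n ≠ 0 := by positivity
          field_simp
    exact (pow_le_pow_iff_left₀ (by positivity) (by positivity) two_ne_zero).1 h4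
  -- comparison of consecutive averages
  set A : ℝ := Real.sqrt (C0 * B) with hA
  have hA0 : 0 ≤ A := Real.sqrt_nonneg _
  have hJl : ∀ l n, (∑ w ∈ W n, |J w - J (l :: w)|) / 2 ^ n ≤ m l * (q ^ n * A) := by
    intro l n
    have h1 : ∀ w, |J w - J (l :: w)| ≤ ∑ i ∈ Finset.range (m l), |I l i w - I l (i + 1) w| := by
      intro w
      rw [← hI0 l w, ← hIm l w, ← Finset.sum_range_sub' (fun i => I l i w) (m l)]
      exact Finset.abs_sum_le_sum_abs _ _
    calc (∑ w ∈ W n, |J w - J (l :: w)|) / 2 ^ n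
        ≤ (∑ w ∈ W n, ∑ i ∈ Finset.range (m l), |I l i w - I l (i + 1) w|) / 2 ^ n := by
          gcongr with w hw
          exact h1 w
      _ = ∑ i ∈ Finset.range (m l), (∑ w ∈ W n, |I l i w - I l (i + 1) w|) / 2 ^ n := by
          rw [Finset.sum_comm, Finset.sum_div]
      _ ≤ ∑ i ∈ Finset.range (m l), q ^ n * A :=
          Finset.sum_le_sum fun i hi => hlev l i (Finset.mem_range.1 hi) n
      _ = m l * (q ^ n * A) := by rw [Finset.sum_const, Finset.card_range, nsmul_eq_mul]
  set Sn : ℕ → ℝ := fun n => (∑ w ∈ W n, J w) / 2 ^ n with hSn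
  have hS : ∀ n, |Sn n - Sn (n + 1)| ≤ Mm * A * q ^ n := by
    intro n
    have h1 : Sn n - Sn (n + 1) = (∑ w ∈ W n, ((J w - J (true :: w)) + (J w - J (false :: w))) / 2) / 2 ^ n := by
      have h3 : ∑ w ∈ W n, ((J w - J (true :: w)) + (J w - J (false :: w))) / 2 =
          ∑ w ∈ W n, J w - (∑ w ∈ W n, (J (true :: w) + J (false :: w))) / 2 := by
        rw [Finset.sum_div, ← Finset.sum_sub_distrib]
        exact Finset.sum_congr rfl fun w _ => by ring
      simp only [hSn, sum_W_succ, h3]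
      have : (2 : ℝ) ^ n ≠ 0 := by positivity
      rw [pow_succ]
      field_simp
    have h2 : |∑ w ∈ W n, ((J w - J (true :: w)) + (J w - J (false :: w))) / 2| ≤
        ∑ w ∈ W n, |J w - J (true :: w)| + ∑ w ∈ W n, |J w - J (false :: w)| := by
      rw [← Finset.sum_add_distrib]
      refine (Finset.abs_sum_le_sum_abs _ _).trans (Finset.sum_le_sum fun w _ => ?_)
      rw [abs_div, abs_two]
      have h3 := abs_add_le (J w - J (true :: w)) (J w - J (false :: w))
      have h4 : 0 ≤ |J w - J (true :: w)| + |J w - J (false :: w)| := by positivity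
      linarith
    rw [h1, abs_div, abs_of_pos (show (0 : ℝ) < 2 ^ n by positivity)]
    calc _ ≤ (∑ w ∈ W n, |J w - J (true :: w)| + ∑ w ∈ W n, |J w - J (false :: w)|) / 2 ^ n := by gcongr
      _ = (∑ w ∈ W n, |J w - J (true :: w)|) / 2 ^ n + (∑ w ∈ W n, |J w - J (false :: w)|) / 2 ^ n := by
          rw [add_div]
      _ ≤ m true * (q ^ n * A) + m false * (q ^ n * A) := add_le_add (hJl true n) (hJl false n)
      _ = Mm * A * q ^ n := by rw [hMm]; ring
  obtain ⟨N, hN⟩ := hsupp f hf
  have hSN : Sn N = 0 := by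
    simp only [hSn]
    rw [Finset.sum_eq_zero, zero_div]
    intro w hw
    simp only [hJ]
    rw [setIntegral_congr_fun (g := fun _ => 0) measurableSet_ball fun x hx =>
      hN w (length_W N w hw).ge x hx]
    simp
  have hsum : ∀ n, |Sn 0 - Sn n| ≤ Mm * A * ∑ i ∈ Finset.range n, q ^ i := by
    intro n
    rw [← Finset.sum_range_sub' Sn n, Finset.mul_sum]
    exact (Finset.abs_sum_le_sum_abs _ _).trans (Finset.sum_le_sum fun i _ => hS i)
  have hgeom : ∑ i ∈ Finset.range N, q ^ i ≤ 1 / (1 - q) := by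
    rw [geom_sum_eq hq1.ne, ← neg_div_neg_eq, neg_sub, neg_sub]
    have : 0 < 1 - q := by linarith
    gcongr
    have : 0 ≤ q ^ N := by positivity
    linarith
  have hMA : 0 ≤ Mm * A := by positivity
  have hfin : |J []| ≤ Mm / (1 - q) * A := by
    have h1 := hsum N
    rw [hSN, sub_zero] at h1
    have h2 : Sn 0 = J [] := by simp [hSn, W]
    rw [h2] at h1
    calc |J []| ≤ Mm * A * ∑ i ∈ Finset.range N, q ^ i := h1
      _ ≤ Mm * A * (1 / (1 - q)) := mul_le_mul_of_nonneg_left hgeom hMA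
      _ = Mm / (1 - q) * A := by ring
  have h5 : J [] ^ 2 ≤ (Mm / (1 - q) * A) ^ 2 := by
    rw [← sq_abs (J [])]
    exact pow_le_pow_left₀ (abs_nonneg _) hfin 2
  calc J [] ^ 2 ≤ (Mm / (1 - q) * A) ^ 2 := h5
    _ = (Mm / (1 - q)) ^ 2 * C0 * B := by
      rw [mul_pow, hA, Real.sq_sqrt (mul_nonneg hC00 hB)]; ring

end Pool.Agent.H210.Gr
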