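import Pool.Agent.H210.Green.Words
import Pool.Agent.H210.Green.Tree
import Pool.Agent.H210.Green.Graph
import Pool.Agent.H210.Green.NormalForm
import Pool.Agent.H210.Green.LIN
import Pool.Agent.H210.Green.LOOP

set_option autoImplicit false

namespace Pool.Agent.H210.Gr

open Metric Set MeasureTheory Topology Filter
open scoped Laplacian ContDiff

namespace INF

theorem Sol.mono {D : InfD} {η : ℂ → ℂ} {c c' : ℂ} {R R' : ℝ} (h : D.Sol η c R)
    (hs : ball c' R' ⊆ ball c R) : D.Sol η c' R' := fun x hx => h x (hs hx)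

/-- a closed chain of centres -/
structure Chain (K : Set ℂ) (x0 : ℂ) (R : ℝ) where
  m : ℕ
  c : ℕ → ℂ
  c0 : c 0 = x0
  cm : c m = x0
  mem : ∀ i ≤ m, c i ∈ K
  step : ∀ i < m, ‖c (i + 1) - c i‖ ≤ R / 4

/-- a choice of solutions on balls of radius `R` centred at points of `K` -/
structure Sys (D : InfD) (K : Set ℂ) (R ε : ℝ) where
  g : ℂ → ℂ → ℂ → ℂ
  hR : 0 < R
  hε : 0 < ε
  val : ∀ x0 ∈ K, ∀ y, y ≠ 0 → ‖y‖ < ε → g x0 y x0 = y
  sol : ∀ x0 ∈ K, ∀ y, y ≠ 0 → ‖y‖ < ε → D.Sol (g x0 y) x0 R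
  le : ∀ x0 ∈ K, ∀ y, y ≠ 0 → ‖y‖ < ε → ∀ x ∈ ball x0 R, ‖g x0 y x‖ ≤ 2 * ‖y‖

variable {D : InfD} {K : Set ℂ} {x0 : ℂ} {R ε : ℝ}

/-- transport along the chain: value at the `i`-th centre -/
noncomputable def Sys.tr (s : Sys D K R ε) (c : ℕ → ℂ) (y : ℂ) : ℕ → ℂ
  | 0 => y
  | i + 1 => s.g (c i) (s.tr c y i) (c (i + 1))

theorem Chain.step_mem (C : Chain K x0 R) (hR : 0 < R) {i : ℕ} (hi : i < C.m) :
    C.c (i + 1) ∈ ball (C.c i) R := by
  rw [Metric.mem_ball, dist_eq_norm]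
  linarith [C.step i hi]

theorem tr_le (s : Sys D K R ε) (C : Chain K x0 R) {y : ℂ} (hy0 : y ≠ 0)
    (hy : 2 ^ C.m * ‖y‖ < ε) : ∀ i ≤ C.m, s.tr C.c y i ≠ 0 ∧ ‖s.tr C.c y i‖ ≤ 2 ^ i * ‖y‖ ∧
      ‖s.tr C.c y i‖ < ε := by
  intro i
  induction i with
  | zero =>
    intro _
    refine ⟨hy0, by simp [Sys.tr], ?_⟩
    have h1 : (1 : ℝ) ≤ 2 ^ C.m := one_le_pow₀ (by norm_num)
    show ‖y‖ < ε
    nlinarith [norm_nonneg y]
  | succ i ih =>
    intro hi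
    obtain ⟨h1, h2, h3⟩ := ih (by omega)
    have hmem := C.step_mem s.hR (show i < C.m by omega)
    have hK := C.mem i (by omega)
    have h4 := s.sol _ hK _ h1 h3 _ hmem
    have h5 := s.le _ hK _ h1 h3 _ hmem
    have h6 : ‖s.tr C.c y (i + 1)‖ ≤ 2 ^ (i + 1) * ‖y‖ := by
      show ‖s.g (C.c i) (s.tr C.c y i) (C.c (i + 1))‖ ≤ _
      rw [pow_succ]
      nlinarith
    refine ⟨h4.1, h6, lt_of_le_of_lt (h6.trans ?_) hy⟩
    gcongr
    norm_num

/-- chains can be concatenated -/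
def Chain.append (C C' : Chain K x0 R) : Chain K x0 R where
  m := C.m + C'.m
  c := fun i => if i ≤ C.m then C.c i else C'.c (i - C.m)
  c0 := by simp [C.c0]
  cm := by
    by_cases h : C'.m = 0
    · have h1 := C'.cm
      simp [h, C.cm]
    · have : ¬ (C.m + C'.m ≤ C.m) := by omega
      simp [this, C'.cm]
  mem := by
    intro i hi
    by_cases h : i ≤ C.m
    · simp [h, C.mem i h]
    · simp only [h, if_false]
      exact C'.mem _ (by omega)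
  step := by
    intro i hi
    by_cases h : i + 1 ≤ C.m
    · have h' : i ≤ C.m := by omega
      simp only [h, h', if_true]
      exact C.step i (by omega)
    · by_cases h' : i ≤ C.m
      · have h2 : i = C.m := by omega
        subst h2
        simp only [h, if_false, le_refl, if_true]
        have := C'.step 0 (by omega)
        rw [C'.c0, zero_add] at this
        rwa [C.cm, Nat.add_sub_cancel_left]
      · simp only [h, h', if_false]
        have := C'.step (i - C.m) (by omega)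
        have h3 : i + 1 - C.m = i - C.m + 1 := by omega
        rw [h3]
        exact this

/-- trivial chain -/
def Chain.nil (h0 : x0 ∈ K) : Chain K x0 R where
  m := 0
  c := fun _ => x0
  c0 := rfl
  cm := rfl
  mem := fun _ _ => h0
  step := fun i hi => absurd hi (by omega)

noncomputable def Sys.T (s : Sys D K R ε) (C : Chain K x0 R) (y : ℂ) : ℂ := s.tr C.c y C.m

theorem tr_append_left (s : Sys D K R ε) (C C' : Chain K x0 R) (y : ℂ) :
    ∀ i ≤ C.m, s.tr (C.append C').c y i = s.tr C.c y i := by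
  intro i
  induction i with
  | zero => intro _; rfl
  | succ i ih =>
    intro hi
    have h1 : (C.append C').c i = C.c i := by simp [Chain.append, (show i ≤ C.m by omega)]
    have h2 : (C.append C').c (i + 1) = C.c (i + 1) := by simp [Chain.append, hi]
    simp only [Sys.tr, h1, h2, ih (by omega)]

theorem tr_append_right (s : Sys D K R ε) (C C' : Chain K x0 R) (y : ℂ) :
    ∀ i ≤ C'.m, s.tr (C.append C').c y (C.m + i) = s.tr C'.c (s.T C y) i := by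
  intro i
  induction i with
  | zero => intro _; exact tr_append_left s C C' y C.m le_rfl
  | succ i ih =>
    intro hi
    have h1 : (C.append C').c (C.m + i) = C'.c i := by
      by_cases h : i = 0
      · subst h; simp [Chain.append, C.cm, C'.c0]
      · simp [Chain.append, h]
    have h2 : (C.append C').c (C.m + (i + 1)) = C'.c (i + 1) := by simp [Chain.append]
    rw [← add_assoc]
    simp only [Sys.tr, h1]
    rw [ih (by omega), add_assoc, h2]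

theorem T_append (s : Sys D K R ε) (C C' : Chain K x0 R) (y : ℂ) :
    s.T (C.append C') y = s.T C' (s.T C y) := tr_append_right s C C' y C'.m le_rfl

def Chain.pow (C : Chain K x0 R) (h0 : x0 ∈ K) : ℕ → Chain K x0 R
  | 0 => Chain.nil h0
  | n + 1 => (C.pow h0 n).append C

theorem T_pow (s : Sys D K R ε) (C : Chain K x0 R) (h0 : x0 ∈ K) (n : ℕ) (y : ℂ) :
    s.T (C.pow h0 n) y = (s.T C)^[n] y := by
  induction n with
  | zero => rfl
  | succ n ih => rw [Chain.pow, T_append, ih, Function.iterate_succ_apply']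

/-- the solution discs along the chain -/
noncomputable def Sys.disc (s : Sys D K R ε) (C : Chain K x0 R) (y : ℂ) (i : ℕ) : ℂ → ℂ :=
  s.g (C.c i) (s.tr C.c y i)

theorem tr_eq_disc (s : Sys D K R ε) (C : Chain K x0 R) {y : ℂ} (hy0 : y ≠ 0)
    (hy : 2 ^ C.m * ‖y‖ < ε) {i : ℕ} (hi : i ≤ C.m) : s.disc C y i (C.c i) = s.tr C.c y i := by
  obtain ⟨h1, _, h3⟩ := tr_le s C hy0 hy i hi
  exact s.val _ (C.mem i hi) _ h1 h3

theorem disc_sol (s : Sys D K R ε) (C : Chain K x0 R) {y : ℂ} (hy0 : y ≠ 0)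
    (hy : 2 ^ C.m * ‖y‖ < ε) {i : ℕ} (hi : i ≤ C.m) : D.Sol (s.disc C y i) (C.c i) R := by
  obtain ⟨h1, _, h3⟩ := tr_le s C hy0 hy i hi
  exact s.sol _ (C.mem i hi) _ h1 h3

theorem disc_le (s : Sys D K R ε) (C : Chain K x0 R) {y : ℂ} (hy0 : y ≠ 0)
    (hy : 2 ^ C.m * ‖y‖ < ε) {i : ℕ} (hi : i ≤ C.m) {x : ℂ} (hx : x ∈ ball (C.c i) R) :
    ‖s.disc C y i x‖ ≤ 2 ^ (C.m + 1) * ‖y‖ := by
  obtain ⟨h1, h2, h3⟩ := tr_le s C hy0 hy i hi
  refine (s.le _ (C.mem i hi) _ h1 h3 x hx).trans ?_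
  rw [pow_succ]
  have : (2 : ℝ) ^ i ≤ 2 ^ C.m := pow_le_pow_right₀ (by norm_num) hi
  nlinarith [norm_nonneg y]

/-- the coordinate `u` tends to infinity only when `y` tends to zero -/
theorem small_of_large {h0 : ℂ → ℂ} {C ε e : ℝ} {k : ℕ} (he : 0 < e)
    (hh : ∀ y, ‖y‖ < ε → ‖h0 y - 1‖ ≤ C * ‖y‖) (hC : 0 ≤ C) {y : ℂ} (hy : ‖y‖ < ε)
    (hU : (1 + C * ε) / e ^ k < ‖h0 y / y ^ k‖) : ‖y‖ < e := by
  by_contra hcon
  push Not at hcon
  have h1 : ‖h0 y‖ ≤ 1 + C * ε := by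
    have h2 := hh y hy
    calc ‖h0 y‖ = ‖(h0 y - 1) + 1‖ := by ring_nf
      _ ≤ ‖h0 y - 1‖ + ‖(1 : ℂ)‖ := norm_add_le _ _
      _ ≤ C * ‖y‖ + 1 := by rw [norm_one]; linarith
      _ ≤ 1 + C * ε := by nlinarith
  have h2 : ‖h0 y / y ^ k‖ ≤ (1 + C * ε) / e ^ k := by
    rw [norm_div, norm_pow]
    have h3 : e ^ k ≤ ‖y‖ ^ k := pow_le_pow_left₀ he.le hcon k
    have h4 : 0 < e ^ k := by positivity
    have h5 : 0 ≤ 1 + C * ε := (norm_nonneg _).trans h1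
    gcongr
  linarith

theorem chain_aff {k : ℕ} {G : Polynomial ℂ} (s : Sys D K R ε) {K' : Set ℂ}
    (hK' : ∀ c ∈ K, ball c R ⊆ K') {ε₁ C : ℝ} {h : ℂ → ℂ → ℂ} (hε : ε ≤ ε₁) (hC : 0 ≤ C)
    (hx0 : x0 ∈ K) (hh1 : ∀ x ∈ K', ∀ y : ℂ, ‖y‖ < ε₁ → ‖h x y - 1‖ ≤ C * ‖y‖)
    (hh2 : ∀ (c : ℂ) (R : ℝ) (η : ℂ → ℂ), ball c R ⊆ K' → D.Sol η c R → (∀ x ∈ ball c R, ‖η x‖ < ε₁) →
        ∀ x ∈ ball c R, ∃ u' : ℂ, HasDerivAt (fun x => h x (η x) / η x ^ k) u' x ∧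
          ‖u' + k * (D.β.eval x / D.A.eval x) * (h x (η x) / η x ^ k) +
            G.eval x / (D.A.eval x) ^ 2‖ ≤ C * ‖η x‖)
    (Ch : Chain K x0 R) {M f : ℂ} {C' : ℝ} (hC' : 0 ≤ C')
    (hloop : ∀ (u : ℕ → ℂ → ℂ) (B : ℝ), 0 ≤ B →
          (∀ i ≤ Ch.m, ∀ x ∈ ball (Ch.c i) R, ∃ u' : ℂ, HasDerivAt (u i) u' x ∧
            ‖u' + k * (D.β.eval x / D.A.eval x) * u i x + G.eval x / (D.A.eval x) ^ 2‖ ≤ B) →
          (∀ i < Ch.m, u (i + 1) (Ch.c (i + 1)) = u i (Ch.c (i + 1))) →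
          ‖u Ch.m x0 - (M * (u 0 x0 + f) - f)‖ ≤ C' * B) :
    WORDS.Aff {y | y ≠ 0 ∧ ‖y‖ < ε} (fun y => h x0 y / y ^ k) (s.T Ch) M (M * f - f) := by
  intro δ hδ
  have hp : (0 : ℝ) < 2 ^ (Ch.m + 1) := by positivity
  set e : ℝ := min (ε / 2 ^ (Ch.m + 1)) (δ / (C' * C * 2 ^ (Ch.m + 1) + 1)) with he
  have he0 : 0 < e := lt_min (div_pos s.hε hp) (by positivity)
  refine ⟨(1 + C * ε) / e ^ k + 1, fun y hy hU => ?_⟩
  obtain ⟨hy0, hyε⟩ := hy
  have hx0K' : x0 ∈ K' := hK' x0 hx0 (mem_ball_self s.hR)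
  have hye : ‖y‖ < e := small_of_large (h0 := h x0) he0 (fun y hy => hh1 x0 hx0K' y (hy.trans_le hε)) hC hyε
    (lt_of_lt_of_le (by linarith) hU)
  have hy1 : 2 ^ (Ch.m + 1) * ‖y‖ < ε := by
    have := hye.trans_le (min_le_left _ _)
    rw [lt_div_iff₀ hp] at this
    linarith
  have hym : 2 ^ Ch.m * ‖y‖ < ε := by
    refine lt_of_le_of_lt ?_ hy1
    gcongr
    · norm_num
    · omega
  obtain ⟨h1, h2, h3⟩ := tr_le s Ch hy0 hym Ch.m le_rfl
  refine ⟨⟨h1, h3⟩, ?_⟩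
  have hl := hloop (fun i x => h x (s.disc Ch y i x) / s.disc Ch y i x ^ k)
    (C * (2 ^ (Ch.m + 1) * ‖y‖)) (by positivity) ?_ ?_
  · have e1 : s.disc Ch y Ch.m x0 = s.T Ch y := by
      have := tr_eq_disc s Ch hy0 hym (le_refl Ch.m)
      rw [Ch.cm] at this
      exact this
    have e2 : s.disc Ch y 0 x0 = y := by
      have := tr_eq_disc s Ch hy0 hym (Nat.zero_le Ch.m)
      rw [Ch.c0] at this
      exact this
    simp only [e1, e2] at hl
    have e3 : M * (h x0 y / y ^ k) + (M * f - f) = M * (h x0 y / y ^ k + f) - f := by ring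
    rw [e3]
    refine hl.trans ?_
    have h4 := hye.le.trans (min_le_right _ _)
    rw [le_div_iff₀ (by positivity)] at h4
    nlinarith [norm_nonneg y]
  · intro i hi x hx
    have hsol := disc_sol s Ch hy0 hym hi
    obtain ⟨u', hu', hb⟩ := hh2 (Ch.c i) R (s.disc Ch y i) (hK' _ (Ch.mem i hi)) hsol
      (fun x hx => (disc_le s Ch hy0 hym hi hx).trans_lt (hy1.trans_le hε)) x hx
    exact ⟨u', hu', hb.trans (mul_le_mul_of_nonneg_left (disc_le s Ch hy0 hym hi hx) hC)⟩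
  · intro i hi
    have e1 : s.disc Ch y (i + 1) (Ch.c (i + 1)) = s.disc Ch y i (Ch.c (i + 1)) := by
      rw [tr_eq_disc s Ch hy0 hym (show i + 1 ≤ Ch.m from hi)]
      rfl
    simp only [e1]

theorem norm_pt_ge (x y : ℂ) : 1 / ‖y‖ ≤ ‖pt x y‖ := by
  have : ‖(pt x y).1‖ ≤ ‖pt x y‖ := norm_fst_le _
  simp only [pt, norm_div, norm_one] at this
  exact this

/-- test functions vanish far away -/
theorem test_bdd {v : ℂ × ℂ → ℂ × ℂ} {S : TSurf (ℂ × ℂ)} (hS : IsLeaf v S) {f : ℂ × ℂ → ℝ}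
    (hf : S.Test f) : ∃ Bf : ℝ, ∀ p ∈ S.L, Bf < ‖p‖ → f p = 0 := by
  obtain ⟨F, hF, hs⟩ := hf.2
  have h1 : ∀ q ∈ F, ∃ B : ℝ, ∀ t : ℂ, ‖t‖ ≤ S.rad q / 2 → ‖S.flow q t‖ ≤ B := by
    intro q hq
    have hr := S.rad_pos q (hF q hq)
    have hc : ContinuousOn (S.flow q) (closedBall 0 (S.rad q / 2)) := by
      intro t ht
      refine (hS.hasDeriv q (hF q hq) t ?_).continuousAt.continuousWithinAt
      exact closedBall_subset_ball (by linarith) ht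
    obtain ⟨B, hB⟩ := (isCompact_closedBall (0 : ℂ) (S.rad q / 2)).exists_bound_of_continuousOn hc
    exact ⟨B, fun t ht => hB t (by simpa using ht)⟩
  choose! Bq hBq using h1
  obtain ⟨B, hB⟩ := (F.image Bq).bddAbove
  refine ⟨B, fun p hp hlt => ?_⟩
  by_contra hne
  obtain ⟨q, hq, t, ht, rfl⟩ := hs p hp hne
  have h2 := hBq q hq t ht
  have h3 : Bq q ≤ B := hB (Finset.mem_coe.2 (Finset.mem_image_of_mem Bq hq))
  linarith

theorem disc_mem {v : ℂ × ℂ → ℂ × ℂ} (hv : D.Chart v) {S : TSurf (ℂ × ℂ)} (hS : IsLeaf v S)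
    (s : Sys D K R ε) (C : Chain K x0 R) {y : ℂ} (hy0 : y ≠ 0)
    (hy : 2 ^ C.m * ‖y‖ < ε) (hmem : pt x0 y ∈ S.L) : ∀ i ≤ C.m,
      S.Conf (fun x => pt x (s.disc C y i x)) (C.c i) R := by
  have key : ∀ i ≤ C.m, pt (C.c i) (s.tr C.c y i) ∈ S.L := by
    intro i
    induction i with
    | zero => intro _; simpa [Sys.tr, C.c0] using hmem
    | succ i ih =>
      intro hi
      have h1 := ih (by omega)
      rw [← tr_eq_disc s C hy0 hy (show i ≤ C.m by omega)] at h1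
      have h2 := sol_conf D v hv S hS (disc_sol s C hy0 hy (show i ≤ C.m by omega))
        (mem_ball_self s.hR) h1
      exact (h2.2 _ (C.step_mem s.hR (show i < C.m by omega))).1
  intro i hi
  refine sol_conf D v hv S hS (disc_sol s C hy0 hy hi) (mem_ball_self s.hR) ?_
  rw [tr_eq_disc s C hy0 hy hi]
  exact key i hi

theorem disc_inj (s : Sys D K R ε) (C : Chain K x0 R) {y y' : ℂ} (hy0 : y ≠ 0)
    (hy : 2 ^ C.m * ‖y‖ < ε) (hy0' : y' ≠ 0) (hy' : 2 ^ C.m * ‖y'‖ < ε) : ∀ i ≤ C.m,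
      ∀ x ∈ ball (C.c i) R, s.disc C y i x = s.disc C y' i x → y = y' := by
  intro i
  induction i with
  | zero =>
    intro hi x hx he
    have h1 := sol_unique D (disc_sol s C hy0 hy hi) (disc_sol s C hy0' hy' hi) hx he _
      (mem_ball_self s.hR)
    rw [tr_eq_disc s C hy0 hy hi, tr_eq_disc s C hy0' hy' hi] at h1
    exact h1
  | succ i ih =>
    intro hi x hx he
    have h1 := sol_unique D (disc_sol s C hy0 hy hi) (disc_sol s C hy0' hy' hi) hx he _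
      (mem_ball_self s.hR)
    rw [tr_eq_disc s C hy0 hy hi, tr_eq_disc s C hy0' hy' hi] at h1
    exact ih (by omega) _ (C.step_mem s.hR (show i < C.m by omega)) h1

theorem disc_disj (s : Sys D K R ε) (C : Chain K x0 R) {y y' : ℂ} (hy0 : y ≠ 0)
    (hy : 2 ^ C.m * ‖y‖ < ε) (hy0' : y' ≠ 0) (hy' : 2 ^ C.m * ‖y'‖ < ε) (hne : y ≠ y') {i : ℕ}
    (hi : i ≤ C.m) : Disjoint ((fun x => pt x (s.disc C y i x)) '' ball (C.c i) R)
      ((fun x => pt x (s.disc C y' i x)) '' ball (C.c i) R) := by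
  rw [Set.disjoint_left]
  rintro p ⟨x, hx, rfl⟩ ⟨x', hx', he⟩
  have h1 := (disc_sol s C hy0 hy hi x hx).1
  have h2 := (disc_sol s C hy0' hy' hi x' hx').1
  simp only [pt, Prod.mk.injEq] at he
  obtain ⟨e1, e2⟩ := he
  have e3 : s.disc C y' i x' = s.disc C y i x := by
    simpa using e1
  have e4 : x' = x := by
    rw [e3] at e2
    field_simp at e2
    exact e2
  subst e4
  exact hne (disc_inj s C hy0 hy hy0' hy' i hi x' hx e3.symm)

/-- two discs of the chain agree on their overlap -/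
theorem disc_glue (s : Sys D K R ε) (C : Chain K x0 R) {y : ℂ} (hy0 : y ≠ 0)
    (hy : 2 ^ C.m * ‖y‖ < ε) {i : ℕ} (hi : i < C.m) :
    ∀ x ∈ ball (C.c (i + 1)) (R / 4), s.disc C y (i + 1) x = s.disc C y i x := by
  have hR := s.hR
  have hs1 : ball (C.c (i + 1)) (R / 4) ⊆ ball (C.c (i + 1)) R := ball_subset_ball (by linarith)
  have hs2 : ball (C.c (i + 1)) (R / 4) ⊆ ball (C.c i) R := by
    refine ball_subset_ball' ?_
    rw [dist_eq_norm]
    linarith [C.step i hi]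
  refine sol_unique D (Sol.mono (disc_sol s C hy0 hy (show i + 1 ≤ C.m from hi)) hs1)
    (Sol.mono (disc_sol s C hy0 hy hi.le) hs2) (mem_ball_self (by positivity)) ?_
  rw [tr_eq_disc s C hy0 hy (show i + 1 ≤ C.m from hi)]
  rfl

end INF

open INF in
theorem inf_energy (D : InfD) (v : ℂ × ℂ → ℂ × ℂ) (hv : D.Chart v) (S : TSurf (ℂ × ℂ))
    (hS : IsLeaf v S) (ρ : ℕ → Polynomial ℂ) (k : ℕ) (hO : D.Obs ρ k)
    (hreach : ∀ x0 : ℂ, D.A.eval x0 ≠ 0 → ∀ δ > 0, ∃ y : ℂ, y ≠ 0 ∧ ‖y‖ < δ ∧ pt x0 y ∈ S.L) :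
    ∃ (γ : ℂ → ℂ × ℂ) (c : ℂ) (R r C : ℝ), S.Conf γ c R ∧ 0 < r ∧ r < R ∧ 0 ≤ C ∧
      ∀ f, S.Test f → ∀ B, 0 ≤ B → S.EBound f B → (∫ x in ball c r, f (γ x)) ^ 2 ≤ C * B := by
  obtain ⟨x₁, x₂, x0, U₁, U₂, σ₁, σ₂, hA₁, hA₂, hU₁, hU₂, hc₁, hc₂, hx₁, hx₂, ho₁, ho₂, hσ₁, hσ₂,
    hx0₁, hx0₂, hA0, hne⟩ := lin D k hO.hk (D.G ρ k) hO.hobs
  obtain ⟨K₁, M₁, R₁, hK₁, hxK₁, hKA₁, hM₁, hR₁, hl₁⟩ := loop D k hO.hk (D.G ρ k) x₁ x0 U₁ hU₁ hc₁ hx₁
    hx0₁ hA₁ ho₁ hA0 σ₁ hσ₁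
  obtain ⟨K₂, M₂, R₂, hK₂, hxK₂, hKA₂, hM₂, hR₂, hl₂⟩ := loop D k hO.hk (D.G ρ k) x₂ x0 U₂ hU₂ hc₂ hx₂
    hx0₂ hA₂ ho₂ hA0 σ₂ hσ₂
  set K := K₁ ∪ K₂ with hKd
  have hK : IsCompact K := hK₁.union hK₂
  have hKA : ∀ x ∈ K, D.A.eval x ≠ 0 := by
    rintro x (hx | hx)
    · exact hKA₁ x hx
    · exact hKA₂ x hx
  have hx0K : x0 ∈ K := Or.inl hxK₁
  obtain ⟨Rg, hRg, hg⟩ := graph_disc D K hK hKA
  have hOo : IsOpen {x : ℂ | D.A.eval x ≠ 0} := isOpen_ne_fun (Polynomial.continuous _) continuous_const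
  obtain ⟨dK, hdK, hsubK⟩ := hK.exists_cthickening_subset_open hOo (show K ⊆ _ from hKA)
  set R : ℝ := min (min R₁ R₂) (min Rg dK) with hRd
  have hR : 0 < R := lt_min (lt_min hR₁ hR₂) (lt_min hRg hdK)
  have hRR₁ : R ≤ R₁ := (min_le_left _ _).trans (min_le_left _ _)
  have hRR₂ : R ≤ R₂ := (min_le_left _ _).trans (min_le_right _ _)
  have hRRg : R ≤ Rg := (min_le_right _ _).trans (min_le_left _ _)
  have hRd' : R ≤ dK := (min_le_right _ _).trans (min_le_right _ _)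
  set K' : Set ℂ := cthickening dK K with hK'd
  have hK'c : IsCompact K' := hK.cthickening
  have hK'A : ∀ x ∈ K', D.A.eval x ≠ 0 := fun x hx => hsubK hx
  have hK' : ∀ c ∈ K, ball c R ⊆ K' := fun c hc =>
    (ball_subset_closedBall.trans (closedBall_subset_closedBall hRd')).trans
      (closedBall_subset_cthickening hc dK)
  obtain ⟨ε₁, hε₁, C, hC, h, hh1, hh2⟩ := normal_form D ρ k hO.hk hO.h0 hO.hord K' hK'c hK'A
  obtain ⟨ε₂, hε₂, hg2⟩ := hg R hR hRRg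
  set ε : ℝ := min ε₁ ε₂ with hεd
  have hε : 0 < ε := lt_min hε₁ hε₂
  have hchoose : ∀ x0 : ℂ, ∀ y : ℂ, ∃ η : ℂ → ℂ, x0 ∈ K → y ≠ 0 → ‖y‖ < ε →
      (η x0 = y ∧ D.Sol η x0 R ∧ ∀ x ∈ ball x0 R, ‖η x‖ ≤ 2 * ‖y‖) := by
    intro x0 y
    by_cases hc : x0 ∈ K ∧ y ≠ 0 ∧ ‖y‖ < ε
    · obtain ⟨η, h1, h2, h3⟩ := (hg2 x0 hc.1).2 x0 (mem_ball_self hR) y hc.2.1
        (hc.2.2.trans_le (min_le_right _ _))
      exact ⟨η, fun _ _ _ => ⟨h1, h2, fun x hx => (h3 x hx).1⟩⟩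
    · exact ⟨fun _ => 0, fun h1 h2 h3 => absurd ⟨h1, h2, h3⟩ hc⟩
  choose g hgp using hchoose
  let s : Sys D K R ε :=
    { g := g
      hR := hR
      hε := hε
      val := fun x0 h0 y h1 h2 => (hgp x0 y h0 h1 h2).1
      sol := fun x0 h0 y h1 h2 => (hgp x0 y h0 h1 h2).2.1
      le := fun x0 h0 y h1 h2 => (hgp x0 y h0 h1 h2).2.2 }
  -- the two loops
  obtain ⟨m₁, c₁, a1, a2, a3, a4, C₁', a5, a6⟩ := hl₁ R hR hRR₁
  obtain ⟨m₂, c₂, b1, b2, b3, b4, C₂', b5, b6⟩ := hl₂ R hR hRR₂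
  let Ch₁ : Chain K x0 R := ⟨m₁, c₁, a1, a2, fun i hi => Or.inl (a3 i hi), a4⟩
  let Ch₂ : Chain K x0 R := ⟨m₂, c₂, b1, b2, fun i hi => Or.inr (b3 i hi), b4⟩
  set f₁ : ℂ := σ₁ x0 / D.A.eval x0 with hf₁
  set f₂ : ℂ := σ₂ x0 / D.A.eval x0 with hf₂
  have hff : f₁ ≠ f₂ := by
    intro he
    rw [hf₁, hf₂, div_left_inj' hA0] at he
    exact hne he
  have hεε₁ : ε ≤ ε₁ := min_le_left _ _
  set Y : Set ℂ := {y | y ≠ 0 ∧ ‖y‖ < ε} with hY
  set u0 : ℂ → ℂ := fun y => h x0 y / y ^ k with hu0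
  have aff₁ : WORDS.Aff Y u0 (s.T Ch₁) M₁ (M₁ * f₁ - f₁) :=
    chain_aff s hK' hεε₁ hC hx0K hh1 hh2 Ch₁ a5 (fun u B hB h1 h2 => a6 u B hB h1 h2)
  have aff₂ : WORDS.Aff Y u0 (s.T Ch₂) M₂ (M₂ * f₂ - f₂) :=
    chain_aff s hK' hεε₁ hC hx0K hh1 hh2 Ch₂ b5 (fun u B hB h1 h2 => b6 u B hB h1 h2)
  have hM₁0 : M₁ ≠ 0 := norm_pos_iff.1 (by linarith)
  have hM₂0 : M₂ ≠ 0 := norm_pos_iff.1 (by linarith)
  obtain ⟨N, hN⟩ : ∃ N : ℕ, 4 < ‖M₁‖ ^ N := pow_unbounded_of_one_lt 4 hM₁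
  have hN0 : N ≠ 0 := by
    rintro rfl
    norm_num at hN
  have hN2 : 1 ≤ ‖M₂‖ ^ N := one_le_pow₀ hM₂.le
  have i1 := aff₁.iter hM₁0 N
  have i2 := aff₂.iter hM₂0 N
  have j1 := i1.comp i2 (pow_ne_zero N hM₁0)
  have j2 := i2.comp i1 (pow_ne_zero N hM₂0)
  set M : ℂ := M₂ ^ N * M₁ ^ N with hMd
  rw [mul_comm (M₁ ^ N) (M₂ ^ N)] at j2
  let Ch : Bool → Chain K x0 R := fun l => match l with
    | true => (Ch₁.pow hx0K N).append (Ch₂.pow hx0K N)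
    | false => (Ch₂.pow hx0K N).append (Ch₁.pow hx0K N)
  set T : Bool → ℂ → ℂ := fun l => s.T (Ch l) with hT
  set tt : Bool → ℂ := fun l => match l with
    | true => M₂ ^ N * (M₁ ^ N * f₁ - f₁) + (M₂ ^ N * f₂ - f₂)
    | false => M₁ ^ N * (M₂ ^ N * f₂ - f₂) + (M₁ ^ N * f₁ - f₁) with htt
  have hAff : ∀ l, WORDS.Aff Y u0 (T l) M (tt l) := by
    intro l
    cases l with
    | true =>
      have : T true = fun y => (s.T Ch₂)^[N] ((s.T Ch₁)^[N] y) := by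
        funext y
        show s.T ((Ch₁.pow hx0K N).append (Ch₂.pow hx0K N)) y = _
        rw [T_append, T_pow, T_pow]
      rw [this]
      exact j1
    | false =>
      have : T false = fun y => (s.T Ch₁)^[N] ((s.T Ch₂)^[N] y) := by
        funext y
        show s.T ((Ch₂.pow hx0K N).append (Ch₁.pow hx0K N)) y = _
        rw [T_append, T_pow, T_pow]
      rw [this]
      exact j2
  have hM4 : 4 ≤ ‖M‖ := by
    rw [hMd, norm_mul, norm_pow, norm_pow]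
    nlinarith
  have httne : tt true ≠ tt false := by
    intro he
    have e1 : tt true - tt false = (M₁ ^ N - 1) * (M₂ ^ N - 1) * (f₁ - f₂) := by
      simp only [htt]; ring
    rw [he, sub_self] at e1
    have e2 : M₁ ^ N - 1 ≠ 0 := by
      intro h0
      have : M₁ ^ N = 1 := by linear_combination h0
      have h1 : ‖M₁‖ ^ N = 1 := by rw [← norm_pow, this, norm_one]
      linarith
    have e3 : M₂ ^ N - 1 ≠ 0 := by
      intro h0
      have : M₂ ^ N = 1 := by linear_combination h0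
      have h1 : ‖M₂‖ ^ N = 1 := by rw [← norm_pow, this, norm_one]
      have h2 : 1 < ‖M₂‖ ^ N := one_lt_pow₀ hM₂ hN0
      linarith
    exact (mul_ne_zero (mul_ne_zero e2 e3) (sub_ne_zero.2 hff)) e1.symm
  obtain ⟨U0, hU0, hfree⟩ := WORDS.free hAff hM4 httne
  -- smallness needed for the chains
  set mm : ℕ := max (Ch true).m (Ch false).m with hmm
  have hmml : ∀ l, (Ch l).m ≤ mm := by
    intro l; cases l
    · exact le_max_right _ _
    · exact le_max_left _ _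
  have hp2 : (0 : ℝ) < 2 ^ (mm + 1) := by positivity
  set e : ℝ := ε / 2 ^ (mm + 1) with hed
  have he0 : 0 < e := div_pos hε hp2
  have hx0K' : x0 ∈ K' := hK' x0 hx0K (mem_ball_self hR)
  have hh0 : ∀ y, ‖y‖ < ε → ‖h x0 y - 1‖ ≤ C * ‖y‖ := fun y hy => hh1 x0 hx0K' y (hy.trans_le hεε₁)
  set U1 : ℝ := max U0 ((1 + C * ε) / e ^ k + 1) with hU1
  have hU1pos : 0 < U1 := lt_of_lt_of_le hU0 (le_max_left _ _)
  -- the starting point
  obtain ⟨y0, hy0, hy0s, hy0L⟩ := hreach x0 hA0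
    (min ε (min (1 / (2 * (C + 1))) (1 / (2 * U1 + 1)))) (by positivity)
  have hy0ε : ‖y0‖ < ε := hy0s.trans_le (min_le_left _ _)
  have hyU : U1 ≤ ‖u0 y0‖ := by
    have q1 : ‖y0‖ < 1 / (2 * (C + 1)) := hy0s.trans_le ((min_le_right _ _).trans (min_le_left _ _))
    have q2 : ‖y0‖ < 1 / (2 * U1 + 1) := hy0s.trans_le ((min_le_right _ _).trans (min_le_right _ _))
    have hyp : 0 < ‖y0‖ := norm_pos_iff.2 hy0
    rw [lt_div_iff₀ (by positivity)] at q1 q2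
    have q3 : 1 / 2 ≤ ‖h x0 y0‖ := by
      have h1 := hh0 y0 hy0ε
      have h2 : ‖(1 : ℂ)‖ ≤ ‖h x0 y0‖ + ‖h x0 y0 - 1‖ := by
        have : (1 : ℂ) = h x0 y0 - (h x0 y0 - 1) := by ring
        calc ‖(1 : ℂ)‖ = ‖h x0 y0 - (h x0 y0 - 1)‖ := by rw [← this]
          _ ≤ _ := norm_sub_le _ _
      rw [norm_one] at h2
      nlinarith
    have q4 : ‖y0‖ ^ k ≤ ‖y0‖ := by
      have : ‖y0‖ ≤ 1 := by nlinarith
      calc ‖y0‖ ^ k ≤ ‖y0‖ ^ 1 := pow_le_pow_of_le_one hyp.le this hO.hk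
        _ = ‖y0‖ := pow_one _
    simp only [hu0, norm_div, norm_pow]
    rw [le_div_iff₀ (by positivity)]
    nlinarith
  obtain ⟨hw, hinj⟩ := hfree U1 (le_max_left _ _) y0 ⟨hy0, hy0ε⟩ hyU
  set yw : List Bool → ℂ := WORDS.orb T y0 with hyw
  have hlen : ∀ w : List Bool, (1 : ℝ) ≤ 2 ^ w.length := fun w => one_le_pow₀ (by norm_num)
  have hsmall : ∀ w, ‖yw w‖ < e := by
    intro w
    obtain ⟨h1, h2⟩ := hw w
    refine small_of_large (h0 := h x0) he0 hh0 hC h1.2 (lt_of_lt_of_le ?_ h2)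
    have h3 : (1 + C * ε) / e ^ k + 1 ≤ U1 := le_max_right _ _
    have h4 := hlen w
    nlinarith
  have hyw0 : ∀ w, yw w ≠ 0 := fun w => (hw w).1.1
  have hchain : ∀ l w, 2 ^ (Ch l).m * ‖yw w‖ < ε := by
    intro l w
    have h1 := hsmall w
    rw [hed, lt_div_iff₀ hp2] at h1
    refine lt_of_le_of_lt ?_ h1
    rw [mul_comm]
    gcongr
    · norm_num
    · exact (hmml l).trans (Nat.le_succ _)
  have hmemw : ∀ w, pt x0 (yw w) ∈ S.L := by
    intro w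
    induction w with
    | nil => exact hy0L
    | cons l w ih =>
      have h1 := disc_mem hv hS s (Ch l) (hyw0 w) (hchain l w) ih (Ch l).m le_rfl
      have h2 : pt ((Ch l).c (Ch l).m) (s.disc (Ch l) (yw w) (Ch l).m ((Ch l).c (Ch l).m)) ∈ S.L :=
        (h1.2 _ (mem_ball_self hR)).1
      rw [tr_eq_disc s (Ch l) (hyw0 w) (hchain l w) le_rfl, (Ch l).cm] at h2
      exact h2
  obtain ⟨Ct, hCt, htree⟩ := tree_energy S x0 R hR (fun w x => pt x (s.g x0 (yw w) x))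
    (fun l => (Ch l).m) (fun l => (Ch l).c) (fun l i w x => pt x (s.disc (Ch l) (yw w) i x))
    (fun l => (Ch l).c0) (fun l => (Ch l).cm) (fun l i hi => (Ch l).step i hi)
    (by
      intro l w x _
      simp only [Sys.disc, Sys.tr, (Ch l).c0])
    (by
      intro l w x _
      simp only [Sys.disc, (Ch l).cm]
      rfl)
    (by
      intro l i hi w x hx
      simp only [disc_glue s (Ch l) (hyw0 w) (hchain l w) hi x hx])
    (fun l i hi w => disc_mem hv hS s (Ch l) (hyw0 w) (hchain l w) (hmemw w) i hi)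
    (fun l i hi w w' hl hne => disc_disj s (Ch l) (hyw0 w) (hchain l w) (hyw0 w') (hchain l w')
      (hinj w w' hl hne) hi)
    (by
      intro f hf
      obtain ⟨Bf, hBf⟩ := test_bdd hS hf
      set e' : ℝ := 1 / (2 * (|Bf| + 1)) with he'
      have he'0 : 0 < e' := by positivity
      obtain ⟨N', hN'⟩ : ∃ N' : ℕ, (1 + C * ε) / e' ^ k / U1 < 2 ^ N' := pow_unbounded_of_one_lt _ (by norm_num)
      refine ⟨N', fun w hwN x hx => ?_⟩
      have h1 : ‖yw w‖ < e' := by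
        refine small_of_large (h0 := h x0) he'0 hh0 hC (hw w).1.2 (lt_of_lt_of_le ?_ (hw w).2)
        rw [div_lt_iff₀ hU1pos] at hN'
        refine hN'.trans_le ?_
        gcongr
        norm_num
      have hx' : x ∈ ball x0 R := ball_subset_ball (by linarith) hx
      have h2 : pt x (s.g x0 (yw w) x) ∈ S.L := by
        have h3 := sol_conf D v hv S hS (s.sol x0 hx0K (yw w) (hyw0 w) (hw w).1.2) (mem_ball_self hR)
          (by rw [s.val x0 hx0K (yw w) (hyw0 w) (hw w).1.2]; exact hmemw w)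
        exact (h3.2 x hx').1
      refine hBf _ h2 (lt_of_lt_of_le ?_ (norm_pt_ge _ _))
      have h3 := s.le x0 hx0K (yw w) (hyw0 w) (hw w).1.2 x hx'
      have h4 : 0 < ‖s.g x0 (yw w) x‖ := norm_pos_iff.2 (s.sol x0 hx0K (yw w) (hyw0 w) (hw w).1.2 x hx').1
      rw [lt_div_iff₀ h4]
      rw [he', lt_div_iff₀ (by positivity)] at h1
      have h5 := le_abs_self Bf
      have h6 := abs_nonneg Bf
      nlinarith)
  refine ⟨fun x => pt x (s.g x0 y0 x), x0, R, R / 4, Ct, ?_, by positivity, by linarith, hCt, htree⟩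
  exact sol_conf D v hv S hS (s.sol x0 hx0K y0 hy0 hy0ε) (mem_ball_self hR)
    (by rw [s.val x0 hx0K y0 hy0 hy0ε]; exact hy0L)

end Pool.Agent.H210.Gr
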