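import Mathlib
import Pool.Agent.H210.Green.Defs

/-! Task ODE of the proof of S05669: holomorphic ordinary differential equations. -/

set_option autoImplicit false

namespace Pool.Agent.H210.Gr

open Metric Set MeasureTheory Topology Filter

namespace ODE

/-- mean value inequality on a ball, from the centre -/
theorem mvt {E : Type} [NormedAddCommGroup E] [NormedSpace ℂ E] {c : ℂ} {R : ℝ} {g g' : ℂ → E}
    {C : ℝ} (hg : ∀ x ∈ ball c R, HasDerivAt g (g' x) x) (hC : ∀ x ∈ ball c R, ‖g' x‖ ≤ C)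
    {x : ℂ} (hx : x ∈ ball c R) : ‖g x - g c‖ ≤ C * R := by
  have hR : 0 < R := pos_of_mem_ball hx
  have hc : c ∈ ball c R := mem_ball_self hR
  have hC0 : 0 ≤ C := (norm_nonneg _).trans (hC c hc)
  have h := Convex.norm_image_sub_le_of_norm_hasDerivWithin_le (f := g) (f' := g') (C := C)
    (s := ball c R) (x := c) (y := x)
    (fun y hy => (hg y hy).hasDerivWithinAt) hC (convex_ball c R) hc hx
  have hx' : ‖x - c‖ ≤ R := by
    have := mem_ball.1 hx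
    rw [dist_eq_norm] at this
    exact this.le
  exact h.trans (mul_le_mul_of_nonneg_left hx' hC0)

variable {E : Type} [NormedAddCommGroup E] [NormedSpace ℂ E] [CompleteSpace E]

theorem step (c : ℂ) (R : ℝ) (y1 : E) (ρ M : ℝ) (f : ℂ → E → E)
    (hf : ∀ φ : ℂ → E, DifferentiableOn ℂ φ (ball c R) → (∀ x ∈ ball c R, φ x ∈ closedBall y1 ρ) →
      DifferentiableOn ℂ (fun x => f x (φ x)) (ball c R))
    (hM : ∀ x ∈ ball c R, ∀ y ∈ closedBall y1 ρ, ‖f x y‖ ≤ M) (hMR : M * R ≤ ρ)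
    (φ : ℂ → E) (hφ : DifferentiableOn ℂ φ (ball c R))
    (hφ' : ∀ x ∈ ball c R, φ x ∈ closedBall y1 ρ) :
    ∃ ψ : ℂ → E, ψ c = y1 ∧
      ∀ x ∈ ball c R, ψ x ∈ closedBall y1 ρ ∧ HasDerivAt ψ (f x (φ x)) x := by
  obtain ⟨ψ, h0, h1⟩ := (hf φ hφ hφ').isExactOn_ball.with_val_at c y1
  refine ⟨ψ, h0, fun x hx => ⟨?_, h1 x hx⟩⟩
  have := mvt h1 (fun y hy => hM y hy (φ y) (hφ' y hy)) hx
  rw [h0] at this
  rw [mem_closedBall, dist_eq_norm]
  exact this.trans hMR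

end ODE

theorem ode_exists {E : Type} [NormedAddCommGroup E] [NormedSpace ℂ E] [CompleteSpace E]
    (c : ℂ) (R : ℝ) (hR : 0 < R) (y1 : E) (ρ M K : ℝ) (hρ : 0 ≤ ρ) (f : ℂ → E → E)
    (hf : ∀ φ : ℂ → E, DifferentiableOn ℂ φ (ball c R) → (∀ x ∈ ball c R, φ x ∈ closedBall y1 ρ) →
      DifferentiableOn ℂ (fun x => f x (φ x)) (ball c R))
    (hM : ∀ x ∈ ball c R, ∀ y ∈ closedBall y1 ρ, ‖f x y‖ ≤ M) (hMR : M * R ≤ ρ)
    (hK : ∀ x ∈ ball c R, ∀ y ∈ closedBall y1 ρ, ∀ y' ∈ closedBall y1 ρ,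
      ‖f x y - f x y'‖ ≤ K * ‖y - y'‖) (hKR : K * R ≤ 1 / 2) :
    ∃ φ : ℂ → E, φ c = y1 ∧ ∀ x ∈ ball c R, φ x ∈ closedBall y1 ρ ∧ HasDerivAt φ (f x (φ x)) x := by
  classical
  -- a nonnegative Lipschitz constant
  set K' := max K 0 with hK'
  have hK'0 : 0 ≤ K' := le_max_right _ _
  have hK'R : K' * R ≤ 1 / 2 := by
    rcases le_total K 0 with h | h
    · rw [hK', max_eq_right h]; norm_num
    · rw [hK', max_eq_left h]; exact hKR
  have hKl : ∀ x ∈ ball c R, ∀ y ∈ closedBall y1 ρ, ∀ y' ∈ closedBall y1 ρ,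
      ‖f x y - f x y'‖ ≤ K' * ‖y - y'‖ := fun x hx y hy y' hy' =>
    (hK x hx y hy y' hy').trans (mul_le_mul_of_nonneg_right (le_max_left _ _) (norm_nonneg _))
  let S := {φ : ℂ → E // φ c = y1 ∧ DifferentiableOn ℂ φ (ball c R) ∧
    ∀ x ∈ ball c R, φ x ∈ closedBall y1 ρ}
  have hstep : ∀ φ : S, ∃ ψ : S, ∀ x ∈ ball c R, HasDerivAt ψ.1 (f x (φ.1 x)) x := by
    intro φ
    obtain ⟨ψ, h0, h1⟩ := ODE.step c R y1 ρ M f hf hM hMR φ.1 φ.2.2.1 φ.2.2.2
    exact ⟨⟨ψ, h0, fun x hx => (h1 x hx).2.differentiableAt.differentiableWithinAt,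
      fun x hx => (h1 x hx).1⟩, fun x hx => (h1 x hx).2⟩
  choose nx hnx using hstep
  let φ0 : S := ⟨fun _ => y1, rfl, differentiableOn_const _, fun x _ => mem_closedBall_self hρ⟩
  let φ : ℕ → S := fun n => Nat.rec φ0 (fun _ p => nx p) n
  have hφs : ∀ n, φ (n + 1) = nx (φ n) := fun n => rfl
  have hder : ∀ n, ∀ x ∈ ball c R, HasDerivAt (φ (n + 1)).1 (f x ((φ n).1 x)) x := by
    intro n x hx
    rw [hφs]
    exact hnx (φ n) x hx
  have hdist : ∀ n, ∀ x ∈ ball c R, ‖(φ (n + 1)).1 x - (φ n).1 x‖ ≤ ρ * (1 / 2) ^ n := by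
    intro n
    induction n with
    | zero =>
      intro x hx
      have := (φ 1).2.2.2 x hx
      rw [mem_closedBall, dist_eq_norm] at this
      have h0 : (φ 0).1 x = y1 := rfl
      rw [h0, pow_zero, mul_one]
      exact this
    | succ n ih =>
      intro x hx
      have h1 : ∀ y ∈ ball c R, HasDerivAt (fun z => (φ (n + 2)).1 z - (φ (n + 1)).1 z)
          (f y ((φ (n + 1)).1 y) - f y ((φ n).1 y)) y := fun y hy =>
        (hder (n + 1) y hy).sub (hder n y hy)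
      have h2 := ODE.mvt h1 (C := K' * (ρ * (1 / 2) ^ n)) (fun y hy =>
        (hKl y hy _ ((φ (n + 1)).2.2.2 y hy) _ ((φ n).2.2.2 y hy)).trans
          (mul_le_mul_of_nonneg_left (ih y hy) hK'0)) hx
      rw [(φ (n + 2)).2.1, (φ (n + 1)).2.1, sub_self, sub_zero] at h2
      refine h2.trans ?_
      have h3 : 0 ≤ ρ * (1 / 2 : ℝ) ^ n := by positivity
      calc K' * (ρ * (1 / 2) ^ n) * R = (K' * R) * (ρ * (1 / 2) ^ n) := by ring
        _ ≤ 1 / 2 * (ρ * (1 / 2) ^ n) := mul_le_mul_of_nonneg_right hK'R h3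
        _ = ρ * (1 / 2) ^ (n + 1) := by ring
  have hd : ∀ x ∈ ball c R, ∀ n, dist ((φ n).1 x) ((φ (n + 1)).1 x) ≤ ρ * (1 / 2) ^ n := by
    intro x hx n
    rw [dist_comm, dist_eq_norm]
    exact hdist n x hx
  have hlim : ∀ x, ∃ y, x ∈ ball c R → Tendsto (fun n => (φ n).1 x) atTop (𝓝 y) := by
    intro x
    by_cases hx : x ∈ ball c R
    · have := cauchySeq_of_le_geometric (1 / 2 : ℝ) ρ (by norm_num) (hd x hx)
      obtain ⟨y, hy⟩ := cauchySeq_tendsto_of_complete this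
      exact ⟨y, fun _ => hy⟩
    · exact ⟨y1, fun h => absurd h hx⟩
  choose L hL using hlim
  have hmem : ∀ x ∈ ball c R, L x ∈ closedBall y1 ρ := fun x hx =>
    isClosed_closedBall.mem_of_tendsto (hL x hx)
      (Eventually.of_forall fun n => (φ n).2.2.2 x hx)
  have hrate : ∀ x ∈ ball c R, ∀ n, dist ((φ n).1 x) (L x) ≤ ρ * (1 / 2) ^ n / (1 - 1 / 2) :=
    fun x hx n => dist_le_of_le_geometric_of_tendsto (1 / 2 : ℝ) ρ (by norm_num) (hd x hx)
      (hL x hx) n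
  refine ⟨L, ?_, fun x hx => ⟨hmem x hx, ?_⟩⟩
  · have hc := hL c (mem_ball_self hR)
    refine tendsto_nhds_unique hc ?_
    have : (fun n => (φ n).1 c) = fun _ => y1 := funext fun n => (φ n).2.1
    rw [this]
    exact tendsto_const_nhds
  · refine hasDerivAt_of_tendstoUniformlyOn (l := atTop) (f := fun n => (φ (n + 1)).1)
      (f' := fun n x => f x ((φ n).1 x)) (g' := fun x => f x (L x)) isOpen_ball ?_
      (Eventually.of_forall fun n x hx => hder n x hx)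
      (fun x hx => (tendsto_add_atTop_iff_nat 1).2 (hL x hx)) hx
    rw [Metric.tendstoUniformlyOn_iff]
    intro ε hε
    have ht : Tendsto (fun n : ℕ => K' * (ρ * (1 / 2 : ℝ) ^ n / (1 - 1 / 2))) atTop (𝓝 0) := by
      have h1 : Tendsto (fun n : ℕ => (1 / 2 : ℝ) ^ n) atTop (𝓝 0) :=
        tendsto_pow_atTop_nhds_zero_of_lt_one (by norm_num) (by norm_num)
      have h2 := ((h1.const_mul ρ).div_const (1 - 1 / 2)).const_mul K'
      simpa using h2
    filter_upwards [ht.eventually (gt_mem_nhds hε)] with n hn y hy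
    rw [dist_eq_norm]
    refine lt_of_le_of_lt ?_ hn
    refine (hKl y hy _ (hmem y hy) _ ((φ n).2.2.2 y hy)).trans ?_
    refine mul_le_mul_of_nonneg_left ?_ hK'0
    rw [← dist_eq_norm, dist_comm]
    exact hrate y hy n

namespace ODE

/-- local uniqueness -/
theorem local_unique {E : Type} [NormedAddCommGroup E] [NormedSpace ℂ E]
    {U : Set ℂ} (hU : IsOpen U) (f : ℂ → E → E) (φ ψ : ℂ → E)
    (hφ : ∀ x ∈ U, HasDerivAt φ (f x (φ x)) x) (hψ : ∀ x ∈ U, HasDerivAt ψ (f x (ψ x)) x)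
    {x : ℂ} (hx : x ∈ U) (h : φ x = ψ x) (K : ℝ)
    (hK : ∀ᶠ x' in 𝓝 x, ‖f x' (φ x') - f x' (ψ x')‖ ≤ K * ‖φ x' - ψ x'‖) :
    φ =ᶠ[𝓝 x] ψ := by
  have hcont : ContinuousAt (fun z => φ z - ψ z) x :=
    (hφ x hx).continuousAt.sub (hψ x hx).continuousAt
  have h1 : ∀ᶠ z in 𝓝 x, ‖φ z - ψ z‖ < 1 := by
    have h2 : ContinuousAt (fun z => ‖φ z - ψ z‖) x := hcont.norm
    have h3 : ‖φ x - ψ x‖ < 1 := by rw [h, sub_self, norm_zero]; exact one_pos
    exact h2.eventually (gt_mem_nhds h3)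
  have h4 : ∀ᶠ z in 𝓝 x, z ∈ U := hU.mem_nhds hx
  obtain ⟨δ, hδ, hball⟩ := Metric.eventually_nhds_iff_ball.1 (h1.and (h4.and hK))
  set K' := max K 0 with hK'
  have hK'0 : 0 ≤ K' := le_max_right _ _
  set r := min δ (1 / (2 * (K' + 1))) with hr
  have hr0 : 0 < r := lt_min hδ (by positivity)
  have hrK : K' * r ≤ 1 / 2 := by
    have h5 : r ≤ 1 / (2 * (K' + 1)) := min_le_right _ _
    calc K' * r ≤ (K' + 1) * (1 / (2 * (K' + 1))) :=
          mul_le_mul (by linarith) h5 hr0.le (by linarith)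
      _ = 1 / 2 := by field_simp
  have hsub : ball x r ⊆ ball x δ := ball_subset_ball (min_le_left _ _)
  have key : ∀ n : ℕ, ∀ z ∈ ball x r, ‖φ z - ψ z‖ ≤ (1 / 2 : ℝ) ^ n := by
    intro n
    induction n with
    | zero => intro z hz; simpa using (hball z (hsub hz)).1.le
    | succ n ih =>
      intro z hz
      have h6 : ∀ y ∈ ball x r, HasDerivAt (fun z => φ z - ψ z) (f y (φ y) - f y (ψ y)) y :=
        fun y hy => (hφ y (hball y (hsub hy)).2.1).sub (hψ y (hball y (hsub hy)).2.1)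
      have h7 := mvt h6 (C := K' * (1 / 2) ^ n) (fun y hy =>
        ((hball y (hsub hy)).2.2.trans
          (mul_le_mul_of_nonneg_right (le_max_left _ _) (norm_nonneg _))).trans
          (mul_le_mul_of_nonneg_left (ih y hy) hK'0)) hz
      simp only [h, sub_self, sub_zero] at h7
      refine h7.trans ?_
      have h8 : 0 ≤ (1 / 2 : ℝ) ^ n := by positivity
      calc K' * (1 / 2) ^ n * r = (K' * r) * (1 / 2) ^ n := by ring
        _ ≤ 1 / 2 * (1 / 2) ^ n := mul_le_mul_of_nonneg_right hrK h8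
        _ = (1 / 2) ^ (n + 1) := by ring
  filter_upwards [ball_mem_nhds x hr0] with z hz
  have h9 : ‖φ z - ψ z‖ ≤ 0 := ge_of_tendsto'
    (tendsto_pow_atTop_nhds_zero_of_lt_one (by norm_num : (0:ℝ) ≤ 1 / 2) (by norm_num))
    (fun n => key n z hz)
  exact sub_eq_zero.1 (norm_le_zero_iff.1 h9)

end ODE

theorem ode_unique {E : Type} [NormedAddCommGroup E] [NormedSpace ℂ E] [CompleteSpace E]
    {U : Set ℂ} (hU : IsOpen U) (hUc : IsPreconnected U) (f : ℂ → E → E) (φ ψ : ℂ → E)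
    (hφ : ∀ x ∈ U, HasDerivAt φ (f x (φ x)) x) (hψ : ∀ x ∈ U, HasDerivAt ψ (f x (ψ x)) x)
    (hL : ∀ x ∈ U, φ x = ψ x → ∃ K : ℝ, ∀ᶠ x' in 𝓝 x, ‖f x' (φ x') - f x' (ψ x')‖ ≤ K * ‖φ x' - ψ x'‖)
    {x0 : ℂ} (hx0 : x0 ∈ U) (h : φ x0 = ψ x0) : ∀ x ∈ U, φ x = ψ x := by
  have hloc : ∀ x ∈ U, φ x = ψ x → φ =ᶠ[𝓝 x] ψ := by
    intro x hx hxe
    obtain ⟨K, hK⟩ := hL x hx hxe
    exact ODE.local_unique hU f φ ψ hφ hψ hx hxe K hK
  have hopen : IsOpen {x : ℂ | φ =ᶠ[𝓝 x] ψ} := isOpen_setOfPred_eventually_nhds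
  have hsub : U ⊆ {x : ℂ | φ =ᶠ[𝓝 x] ψ} := by
    refine hUc.subset_of_closure_inter_subset hopen ⟨x0, hx0, hloc x0 hx0 h⟩ ?_
    rintro x ⟨hxc, hxU⟩
    refine hloc x hxU ?_
    have hc : ContinuousAt (fun z => ‖φ z - ψ z‖) x :=
      ((hφ x hxU).continuousAt.sub (hψ x hxU).continuousAt).norm
    by_contra hne
    have hpos : 0 < ‖φ x - ψ x‖ := norm_pos_iff.2 (sub_ne_zero.2 hne)
    have hev : ∀ᶠ z in 𝓝 x, 0 < ‖φ z - ψ z‖ := hc.eventually (lt_mem_nhds hpos)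
    obtain ⟨z, hz1, hz2⟩ := mem_closure_iff_nhds.1 hxc _ hev
    have h3 : φ z = ψ z := hz2.self_of_nhds
    have h4 : 0 < ‖φ z - ψ z‖ := hz1
    rw [h3, sub_self, norm_zero] at h4
    exact lt_irrefl _ h4
  exact fun x hx => (hsub hx).self_of_nhds

end Pool.Agent.H210.Gr
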