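import Mathlib
import Pool.Agent.H210.Green.Defs
import Pool.Agent.H210.Green.ODE

/-! Task LEAF of the proof of S05669: leaves of entire vector fields on `ℂ × ℂ` as translation
surfaces. -/

set_option autoImplicit false

namespace Pool.Agent.H210.Gr

open Metric Set MeasureTheory Topology Filter
open scoped Laplacian ContDiff

namespace LEAF

abbrev V := ℂ × ℂ

/-- differentiable maps are locally Lipschitz -/
theorem loc_lip (v : V → V) (hv : Differentiable ℂ v) (y0 : V) :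
    ∃ δ > 0, ∃ K M : ℝ, 0 ≤ K ∧ (∀ y ∈ closedBall y0 δ, ‖v y‖ ≤ M) ∧
      ∀ y ∈ closedBall y0 δ, ∀ y' ∈ closedBall y0 δ, ‖v y - v y'‖ ≤ K * ‖y - y'‖ := by
  have hc : ContinuousAt (fun y => ‖v y‖) y0 := (hv.continuous.norm).continuousAt
  have h1 : ∀ᶠ y in 𝓝 y0, ‖v y‖ < ‖v y0‖ + 1 := hc.eventually (gt_mem_nhds (by linarith))
  obtain ⟨δ0, hδ0, hb⟩ := Metric.eventually_nhds_iff_ball.1 h1
  set M := ‖v y0‖ + 1 with hM
  have hM0 : 0 < M := by positivity
  set δ := δ0 / 8 with hδ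
  have hδp : 0 < δ := by positivity
  have hbd : ∀ y : V, ‖y - y0‖ ≤ 5 * δ → ‖v y‖ ≤ M := by
    intro y hy
    refine (hb y ?_).le
    rw [mem_ball, dist_eq_norm]
    have : 5 * δ < δ0 := by rw [hδ]; linarith
    linarith
  refine ⟨δ, hδp, M / δ, M, by positivity, fun y hy => hbd y ?_, ?_⟩
  · rw [mem_closedBall, dist_eq_norm] at hy; linarith
  intro y hy y' hy'
  rw [mem_closedBall, dist_eq_norm] at hy hy'
  by_cases hyy : y = y'
  · rw [hyy]; simp
  set d := y - y' with hd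
  have hn : 0 < ‖d‖ := norm_pos_iff.2 (sub_ne_zero.2 hyy)
  have hn2 : ‖d‖ ≤ 2 * δ := by
    have : d = (y - y0) - (y' - y0) := by rw [hd]; abel
    rw [this]
    exact (norm_sub_le _ _).trans (by linarith)
  set g : ℂ → V := fun s => v (y' + s • d) with hg
  have hgd : Differentiable ℂ g := by
    refine hv.comp ?_
    exact (differentiable_const _).add (differentiable_id.smul_const d)
  have hder : ∀ s ∈ closedBall (0 : ℂ) 1, ‖deriv g s‖ ≤ M / δ * ‖d‖ := by
    intro s hs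
    rw [mem_closedBall, dist_zero_right] at hs
    have hR : 0 < δ / ‖d‖ := div_pos hδp hn
    have h2 := Complex.norm_deriv_le_of_forall_mem_sphere_norm_le (f := g) (c := s) (C := M) hR
      hgd.diffContOnCl (fun z hz => by
        rw [mem_sphere, dist_eq_norm] at hz
        refine hbd _ ?_
        have h3 : ‖z‖ ≤ 1 + δ / ‖d‖ := by
          calc ‖z‖ = ‖s + (z - s)‖ := by congr 1; ring
            _ ≤ ‖s‖ + ‖z - s‖ := norm_add_le _ _
            _ ≤ 1 + δ / ‖d‖ := by rw [hz]; linarith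
        calc ‖y' + z • d - y0‖ = ‖(y' - y0) + z • d‖ := by congr 1; abel
          _ ≤ ‖y' - y0‖ + ‖z‖ * ‖d‖ := (norm_add_le _ _).trans (by rw [norm_smul])
          _ ≤ δ + (1 + δ / ‖d‖) * ‖d‖ := by gcongr
          _ = δ + ‖d‖ + δ := by field_simp; ring
          _ ≤ 5 * δ := by linarith)
    refine h2.trans (le_of_eq ?_)
    field_simp
  have h4 := Convex.norm_image_sub_le_of_norm_deriv_le (f := g) (s := closedBall (0 : ℂ) 1)
    (x := 0) (y := 1) (fun x _ => hgd x) hder (convex_closedBall 0 1)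
    (by simp) (by simp)
  have e1 : g 1 = v y := by simp [hg, hd]
  have e0 : g 0 = v y' := by simp [hg]
  rw [e1, e0] at h4
  simpa using h4

theorem uniq (v : V → V) (hv : Differentiable ℂ v) {U : Set ℂ} (hU : IsOpen U)
    (hUc : IsPreconnected U) (β : ℂ → ℂ) (hβ : ContinuousOn β U) (φ ψ : ℂ → V)
    (hφ : ∀ x ∈ U, HasDerivAt φ (β x • v (φ x)) x)
    (hψ : ∀ x ∈ U, HasDerivAt ψ (β x • v (ψ x)) x) {x0 : ℂ} (hx0 : x0 ∈ U) (h : φ x0 = ψ x0) :
    ∀ x ∈ U, φ x = ψ x := by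
  refine ode_unique hU hUc (fun x y => β x • v y) φ ψ hφ hψ ?_ hx0 h
  intro x hx hxe
  obtain ⟨δ, hδ, K, M, hK, -, hl⟩ := loc_lip v hv (φ x)
  refine ⟨(‖β x‖ + 1) * K, ?_⟩
  have h1 : ∀ᶠ x' in 𝓝 x, φ x' ∈ closedBall (φ x) δ :=
    (hφ x hx).continuousAt.eventually (closedBall_mem_nhds _ hδ)
  have h2 : ∀ᶠ x' in 𝓝 x, ψ x' ∈ closedBall (φ x) δ := by
    have := (hψ x hx).continuousAt.eventually (closedBall_mem_nhds (ψ x) hδ)
    rwa [hxe]
  have h3 : ∀ᶠ x' in 𝓝 x, ‖β x'‖ < ‖β x‖ + 1 := by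
    have hc : ContinuousAt (fun x' => ‖β x'‖) x := (hβ.continuousAt (hU.mem_nhds hx)).norm
    exact hc.eventually (gt_mem_nhds (by linarith))
  filter_upwards [h1, h2, h3] with x' k1 k2 k3
  change ‖β x' • v (φ x') - β x' • v (ψ x')‖ ≤ _
  rw [← smul_sub, norm_smul]
  calc ‖β x'‖ * ‖v (φ x') - v (ψ x')‖ ≤ (‖β x‖ + 1) * (K * ‖φ x' - ψ x'‖) := by
        refine mul_le_mul k3.le (hl _ k1 _ k2) (norm_nonneg _) (by positivity)
    _ = (‖β x‖ + 1) * K * ‖φ x' - ψ x'‖ := by ring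

/-- uniqueness for the autonomous equation -/
theorem uniq' (v : V → V) (hv : Differentiable ℂ v) {U : Set ℂ} (hU : IsOpen U)
    (hUc : IsPreconnected U) (φ ψ : ℂ → V)
    (hφ : ∀ x ∈ U, HasDerivAt φ (v (φ x)) x)
    (hψ : ∀ x ∈ U, HasDerivAt ψ (v (ψ x)) x) {x0 : ℂ} (hx0 : x0 ∈ U) (h : φ x0 = ψ x0) :
    ∀ x ∈ U, φ x = ψ x :=
  uniq v hv hU hUc (fun _ => 1) continuousOn_const φ ψ
    (fun x hx => by rw [one_smul]; exact hφ x hx)
    (fun x hx => by rw [one_smul]; exact hψ x hx) hx0 h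

/-- local solution data -/
def IsSol (v : V → V) (q : V) (r : ℝ) (φ : ℂ → V) : Prop :=
  φ 0 = q ∧ (∀ t ∈ ball (0 : ℂ) r, HasDerivAt φ (v (φ t)) t) ∧ InjOn φ (ball 0 r)

def G (v : V → V) (q : V) : Set ℝ := {r | 0 < r ∧ r ≤ 1 ∧ ∃ φ : ℂ → V, IsSol v q r φ}

noncomputable def rad (v : V → V) (q : V) : ℝ := sSup (G v q)

theorem IsSol.mono {v : V → V} {q : V} {r r' : ℝ} {φ : ℂ → V} (h : IsSol v q r φ) (hr : r' ≤ r) :
    IsSol v q r' φ :=
  ⟨h.1, fun t ht => h.2.1 t (ball_subset_ball hr ht), h.2.2.mono (ball_subset_ball hr)⟩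

theorem G_nonempty (v : V → V) (hv : Differentiable ℂ v) (q : V) (hq : v q ≠ 0) :
    (G v q).Nonempty := by
  obtain ⟨δ, hδ, K, M, hK, hM, hl⟩ := loc_lip v hv q
  have hM0 : 0 ≤ M := (norm_nonneg _).trans (hM q (mem_closedBall_self hδ.le))
  -- radius
  set R := min 1 (min (δ / (M + 1)) (1 / (2 * (K + 1)))) with hR
  have hR0 : 0 < R := by
    refine lt_min one_pos (lt_min (by positivity) (by positivity))
  have hR1 : M * R ≤ δ := by
    have h1 : R ≤ δ / (M + 1) := (min_le_right _ _).trans (min_le_left _ _)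
    calc M * R ≤ (M + 1) * (δ / (M + 1)) := mul_le_mul (by linarith) h1 hR0.le (by linarith)
      _ = δ := by field_simp
  have hR2 : K * R ≤ 1 / 2 := by
    have h1 : R ≤ 1 / (2 * (K + 1)) := (min_le_right _ _).trans (min_le_right _ _)
    calc K * R ≤ (K + 1) * (1 / (2 * (K + 1))) := mul_le_mul (by linarith) h1 hR0.le (by linarith)
      _ = 1 / 2 := by field_simp
  obtain ⟨φ, h0, h1⟩ := ode_exists (0 : ℂ) R hR0 q δ M K hδ.le (fun _ y => v y)
    (fun φ hφ _ => hv.comp_differentiableOn hφ) (fun x _ y hy => hM y hy) hR1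
    (fun x _ y hy y' hy' => hl y hy y' hy') hR2
  have hcont : ContinuousAt (fun t => ‖v (φ t) - v q‖) 0 := by
    have hφc : ContinuousAt φ 0 := (h1 0 (mem_ball_self hR0)).2.continuousAt
    have h2 : ContinuousAt (fun t => v (φ t)) 0 :=
      ContinuousAt.comp (f := φ) (g := v) hv.continuous.continuousAt hφc
    exact (h2.sub continuousAt_const).norm
  have hvq : 0 < ‖v q‖ := norm_pos_iff.2 hq
  have h3 : ∀ᶠ t in 𝓝 (0 : ℂ), ‖v (φ t) - v q‖ < ‖v q‖ / 2 := by
    refine hcont.eventually (gt_mem_nhds ?_)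
    change ‖v (φ 0) - v q‖ < ‖v q‖ / 2
    rw [h0, sub_self, norm_zero]
    positivity
  obtain ⟨ε, hε, hb⟩ := Metric.eventually_nhds_iff_ball.1 h3
  set r := min R ε with hr
  have hr0 : 0 < r := lt_min hR0 hε
  have hr1 : ball (0 : ℂ) r ⊆ ball 0 R := ball_subset_ball (min_le_left _ _)
  have hr2 : ball (0 : ℂ) r ⊆ ball 0 ε := ball_subset_ball (min_le_right _ _)
  refine ⟨r, hr0, (min_le_left _ _).trans (min_le_left _ _), φ, h0,
    fun t ht => (h1 t (hr1 ht)).2, ?_⟩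
  intro t ht s hs hts
  by_contra hne
  have hder : ∀ x ∈ ball (0 : ℂ) r, HasDerivWithinAt (fun t => φ t - t • v q) (v (φ x) - v q)
      (ball 0 r) x := by
    intro x hx
    have h4 := (h1 x (hr1 hx)).2
    have h5 : HasDerivAt (fun t : ℂ => t • v q) ((1 : ℂ) • v q) x := (hasDerivAt_id x).smul_const _
    rw [one_smul] at h5
    exact (h4.sub h5).hasDerivWithinAt
  have h6 := Convex.norm_image_sub_le_of_norm_hasDerivWithin_le (C := ‖v q‖ / 2) hder
    (fun x hx => (hb x (hr2 hx)).le) (convex_ball 0 r) ht hs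
  simp only [hts] at h6
  have h7 : φ s - s • v q - (φ s - t • v q) = (t - s) • v q := by
    rw [sub_smul]; abel
  rw [h7, norm_smul, norm_sub_rev] at h6
  have h8 : 0 < ‖s - t‖ := norm_pos_iff.2 (sub_ne_zero.2 (Ne.symm hne))
  nlinarith

theorem G_bdd (v : V → V) (q : V) : BddAbove (G v q) := ⟨1, fun _ hr => hr.2.1⟩

theorem rad_pos (v : V → V) (hv : Differentiable ℂ v) (q : V) (hq : v q ≠ 0) : 0 < rad v q := by
  obtain ⟨r, hr⟩ := G_nonempty v hv q hq
  exact hr.1.trans_le (le_csSup (G_bdd v q) hr)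

theorem rad_le (v : V → V) (hv : Differentiable ℂ v) (q : V) (hq : v q ≠ 0) : rad v q ≤ 1 :=
  csSup_le (G_nonempty v hv q hq) fun _ hr => hr.2.1

theorem sol_agree {v : V → V} (hv : Differentiable ℂ v) {q : V} {r r' : ℝ} {φ ψ : ℂ → V}
    (h : IsSol v q r φ) (h' : IsSol v q r' ψ) {t : ℂ} (ht : ‖t‖ < r) (ht' : ‖t‖ < r') :
    φ t = ψ t := by
  have h1 := h.mono (min_le_left r r')
  have h2 := h'.mono (min_le_right r r')
  have hm : 0 < min r r' := lt_of_le_of_lt (norm_nonneg t) (lt_min ht ht')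
  refine uniq' v hv isOpen_ball (convex_ball (0 : ℂ) (min r r')).isPreconnected φ ψ h1.2.1 h2.2.1
    (mem_ball_self hm) (h1.1.trans h2.1.symm) t ?_
  rw [mem_ball, dist_zero_right]
  exact lt_min ht ht'

theorem exists_flow (v : V → V) (hv : Differentiable ℂ v) (q : V) (hq : v q ≠ 0) :
    ∃ φ : ℂ → V, IsSol v q (rad v q) φ := by
  classical
  have hne := G_nonempty v hv q hq
  have hex : ∀ t : ℂ, ∃ (r : ℝ) (φ : ℂ → V), ‖t‖ < rad v q → (‖t‖ < r ∧ IsSol v q r φ) := by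
    intro t
    by_cases ht : ‖t‖ < rad v q
    · obtain ⟨r, hr, htr⟩ := exists_lt_of_lt_csSup hne ht
      obtain ⟨-, -, φ, hφ⟩ := hr
      exact ⟨r, φ, fun _ => ⟨htr, hφ⟩⟩
    · exact ⟨0, fun _ => q, fun h => absurd h ht⟩
  choose ρ Φ hΦ using hex
  have hmem : ∀ {t : ℂ}, t ∈ ball (0 : ℂ) (rad v q) ↔ ‖t‖ < rad v q := by
    intro t; rw [mem_ball, dist_zero_right]
  have hρ : ∀ t : ℂ, ‖t‖ < rad v q → ∀ s : ℂ, ‖s‖ < rad v q → ‖s‖ < ρ t → Φ s s = Φ t s := by
    intro t ht s hs hst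
    exact sol_agree hv (hΦ s hs).2 (hΦ t ht).2 (hΦ s hs).1 hst
  refine ⟨fun t => Φ t t, ?_, ?_, ?_⟩
  · have h0 : ‖(0 : ℂ)‖ < rad v q := by rw [norm_zero]; exact rad_pos v hv q hq
    exact (hΦ 0 h0).2.1
  · intro t ht
    rw [hmem] at ht
    have h1 := (hΦ t ht).2.2.1 t (by rw [mem_ball, dist_zero_right]; exact (hΦ t ht).1)
    have h2 : (fun s => Φ s s) =ᶠ[𝓝 t] Φ t := by
      have k1 : ∀ᶠ s in 𝓝 t, ‖s‖ < rad v q := (continuous_norm.tendsto t).eventually (gt_mem_nhds ht)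
      have k2 : ∀ᶠ s in 𝓝 t, ‖s‖ < ρ t :=
        (continuous_norm.tendsto t).eventually (gt_mem_nhds (hΦ t ht).1)
      filter_upwards [k1, k2] with s hs hst
      exact hρ t ht s hs hst
    exact h1.congr_of_eventuallyEq h2
  · intro t ht s hs hts
    rw [hmem] at ht hs
    rcases le_total (ρ t) (ρ s) with h | h
    · have h3 : ‖t‖ < ρ s := (hΦ t ht).1.trans_le h
      have h4 : Φ t t = Φ s t := hρ s hs t ht h3
      refine (hΦ s hs).2.2.2 ?_ ?_ ?_
      · rw [mem_ball, dist_zero_right]; exact h3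
      · rw [mem_ball, dist_zero_right]; exact (hΦ s hs).1
      · rw [← h4]; exact hts
    · have h3 : ‖s‖ < ρ t := (hΦ s hs).1.trans_le h
      have h4 : Φ s s = Φ t s := hρ t ht s hs h3
      refine (hΦ t ht).2.2.2 ?_ ?_ ?_
      · rw [mem_ball, dist_zero_right]; exact (hΦ t ht).1
      · rw [mem_ball, dist_zero_right]; exact h3
      · rw [← h4]; exact hts

open Classical in
noncomputable def flow (v : V → V) (hv : Differentiable ℂ v) (q : V) : ℂ → V :=
  if hq : v q ≠ 0 then Classical.choose (exists_flow v hv q hq) else fun _ => q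

theorem flow_sol (v : V → V) (hv : Differentiable ℂ v) (q : V) (hq : v q ≠ 0) :
    IsSol v q (rad v q) (flow v hv q) := by
  unfold flow
  rw [dif_pos hq]
  exact Classical.choose_spec (exists_flow v hv q hq)

theorem le_rad {v : V → V} {q : V} {r : ℝ} {φ : ℂ → V} (hr : 0 < r) (hr1 : r ≤ 1)
    (h : IsSol v q r φ) : r ≤ rad v q := le_csSup (G_bdd v q) ⟨hr, hr1, φ, h⟩

theorem flow_ne (v : V → V) (hv : Differentiable ℂ v) (q : V) (hq : v q ≠ 0) (t : ℂ)
    (ht : ‖t‖ < rad v q) : v (flow v hv q t) ≠ 0 := by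
  intro h0
  have hs := flow_sol v hv q hq
  have h1 := uniq' v hv isOpen_ball (convex_ball (0 : ℂ) (rad v q)).isPreconnected
    (flow v hv q) (fun _ => flow v hv q t) hs.2.1
    (fun x _ => by rw [h0]; exact hasDerivAt_const x _) (x0 := t)
    (by rw [mem_ball, dist_zero_right]; exact ht) rfl 0 (mem_ball_self (rad_pos v hv q hq))
  rw [hs.1] at h1
  rw [← h1] at h0
  exact hq h0

theorem shift_sol (v : V → V) (hv : Differentiable ℂ v) (q : V) (hq : v q ≠ 0) (t : ℂ) :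
    IsSol v (flow v hv q t) (rad v q - ‖t‖) (fun s => flow v hv q (t + s)) := by
  have hs := flow_sol v hv q hq
  have hm : ∀ s ∈ ball (0 : ℂ) (rad v q - ‖t‖), t + s ∈ ball (0 : ℂ) (rad v q) := by
    intro s hs
    rw [mem_ball, dist_zero_right] at hs ⊢
    have := norm_add_le t s
    linarith
  refine ⟨by simp, fun s h => ?_, fun s h s' h' he => ?_⟩
  · have h1 := hs.2.1 (t + s) (hm s h)
    exact h1.comp_const_add t s
  · exact add_left_cancel (hs.2.2 (hm s h) (hm s' h') he)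

theorem rad_flow (v : V → V) (hv : Differentiable ℂ v) (q : V) (hq : v q ≠ 0) (t : ℂ)
    (ht : ‖t‖ < rad v q) : rad v q - ‖t‖ ≤ rad v (flow v hv q t) :=
  le_rad (sub_pos.2 ht) (by linarith [rad_le v hv q hq, norm_nonneg t]) (shift_sol v hv q hq t)

theorem flow_add (v : V → V) (hv : Differentiable ℂ v) (q : V) (hq : v q ≠ 0) (t s : ℂ)
    (hts : ‖t‖ + ‖s‖ < rad v q) : flow v hv (flow v hv q t) s = flow v hv q (t + s) := by
  have ht : ‖t‖ < rad v q := by linarith [norm_nonneg s]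
  have hne := flow_ne v hv q hq t ht
  have h1 := flow_sol v hv _ hne
  have h2 := shift_sol v hv q hq t
  have h3 := rad_flow v hv q hq t ht
  exact sol_agree hv h1 h2 (by linarith) (by linarith)

/-- one step along the flow -/
def Step (v : V → V) (hv : Differentiable ℂ v) (x y : V) : Prop :=
  ∃ t : ℂ, ‖t‖ < rad v x ∧ y = flow v hv x t

theorem step_symm (v : V → V) (hv : Differentiable ℂ v) (x : V) (hx : v x ≠ 0) (t : ℂ)
    (ht : ‖t‖ < rad v x) : Relation.ReflTransGen (Step v hv) (flow v hv x t) x := by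
  obtain ⟨N, hN⟩ := exists_nat_gt (‖t‖ / (rad v x - ‖t‖))
  have hpos : 0 < rad v x - ‖t‖ := sub_pos.2 ht
  have hNpos : (0 : ℝ) < N := lt_of_le_of_lt (div_nonneg (norm_nonneg _) hpos.le) hN
  have hN0 : N ≠ 0 := by rintro rfl; simp at hNpos
  have hstepN : ‖t‖ / N < rad v x - ‖t‖ := by
    rw [div_lt_iff₀ hpos] at hN
    rw [div_lt_iff₀ hNpos]; linarith
  -- the points
  set z : ℕ → V := fun i => flow v hv x (((i : ℂ) / N) * t) with hz
  have hnorm : ∀ i : ℕ, i ≤ N → ‖((i : ℂ) / N) * t‖ ≤ ‖t‖ := by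
    intro i hi
    rw [norm_mul, norm_div, Complex.norm_natCast, Complex.norm_natCast]
    have : (i : ℝ) / N ≤ 1 := by rw [div_le_one hNpos]; exact_mod_cast hi
    nlinarith [norm_nonneg t]
  have key : ∀ i : ℕ, i ≤ N → Relation.ReflTransGen (Step v hv) (z i) x := by
    intro i
    induction i with
    | zero =>
      intro _
      have : z 0 = x := by simp [hz, (flow_sol v hv x hx).1]
      rw [this]
    | succ i ih =>
      intro hi
      refine Relation.ReflTransGen.head ?_ (ih (by omega))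
      have hni := hnorm (i + 1) hi
      have hlt : ‖(((i + 1 : ℕ) : ℂ) / N) * t‖ < rad v x := lt_of_le_of_lt hni ht
      have hs : ‖-(t / N)‖ = ‖t‖ / N := by
        rw [norm_neg, norm_div, Complex.norm_natCast]
      refine ⟨-(t / N), ?_, ?_⟩
      · have h1 := rad_flow v hv x hx _ hlt
        change _ < rad v (flow v hv x ((((i + 1 : ℕ) : ℂ) / N) * t))
        rw [hs]; linarith
      · change z i = flow v hv (flow v hv x ((((i + 1 : ℕ) : ℂ) / N) * t)) (-(t / N))
        rw [flow_add v hv x hx _ _ (by rw [hs]; linarith)]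
        simp only [hz]
        congr 1
        push_cast
        field_simp
        ring
  have h1 := key N le_rfl
  have h2 : z N = flow v hv x t := by
    simp only [hz]
    congr 1
    have : (N : ℂ) ≠ 0 := by exact_mod_cast hN0
    field_simp
  rwa [h2] at h1

theorem trans_ne (v : V → V) (hv : Differentiable ℂ v) {p q : V} (hp : v p ≠ 0)
    (h : Relation.ReflTransGen (Step v hv) p q) : v q ≠ 0 := by
  induction h with
  | refl => exact hp
  | tail _ hs ih =>
    obtain ⟨t, ht, rfl⟩ := hs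
    exact flow_ne v hv _ ih t ht

theorem trans_symm (v : V → V) (hv : Differentiable ℂ v) {p q : V} (hp : v p ≠ 0)
    (h : Relation.ReflTransGen (Step v hv) p q) : Relation.ReflTransGen (Step v hv) q p := by
  induction h with
  | refl => exact Relation.ReflTransGen.refl
  | tail hpq hs ih =>
    obtain ⟨t, ht, rfl⟩ := hs
    exact (step_symm v hv _ (trans_ne v hv hp hpq) t ht).trans ih

/-- the translation surface -/
noncomputable def surf (v : V → V) (hv : Differentiable ℂ v) (p : V) (hp : v p ≠ 0) :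
    TSurf V where
  L := {q | Relation.ReflTransGen (Step v hv) p q}
  rad := rad v
  flow := flow v hv
  rad_pos q hq := rad_pos v hv q (trans_ne v hv hp hq)
  rad_le q hq := rad_le v hv q (trans_ne v hv hp hq)
  flow_zero q hq := (flow_sol v hv q (trans_ne v hv hp hq)).1
  flow_mem q hq t ht := Relation.ReflTransGen.tail hq ⟨t, ht, rfl⟩
  flow_inj q hq := (flow_sol v hv q (trans_ne v hv hp hq)).2.2
  rad_flow q hq t ht := rad_flow v hv q (trans_ne v hv hp hq) t ht
  flow_add q hq t s hts := flow_add v hv q (trans_ne v hv hp hq) t s hts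
  conn q hq q' hq' := (trans_symm v hv hp hq).trans hq'

/-- curves tangent to the vector field follow the flow locally -/
theorem local_flow (v : V → V) (hv : Differentiable ℂ v) (c : ℂ) (R : ℝ) (ψ : ℂ → V)
    (β : ℂ → ℂ) (hβ : DifferentiableOn ℂ β (ball c R))
    (hψ : ∀ x ∈ ball c R, HasDerivAt ψ (β x • v (ψ x)) x) (x : ℂ) (hx : x ∈ ball c R)
    (hne : v (ψ x) ≠ 0) :
    ∃ ε > 0, ball x ε ⊆ ball c R ∧ ∃ τ : ℂ → ℂ, DifferentiableOn ℂ τ (ball x ε) ∧ τ x = 0 ∧
      ∀ x' ∈ ball x ε, ‖τ x'‖ < rad v (ψ x) ∧ ψ x' = flow v hv (ψ x) (τ x') := by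
  obtain ⟨ε1, hε1, hb1⟩ := Metric.isOpen_iff.1 isOpen_ball x hx
  obtain ⟨τ, hτ0, hτ⟩ := (hβ.mono hb1).isExactOn_ball.with_val_at x 0
  have hτc : ContinuousAt (fun y => ‖τ y‖) x := (hτ x (mem_ball_self hε1)).continuousAt.norm
  have h1 : ∀ᶠ y in 𝓝 x, ‖τ y‖ < rad v (ψ x) := by
    refine hτc.eventually (gt_mem_nhds ?_)
    change ‖τ x‖ < rad v (ψ x)
    rw [hτ0, norm_zero]
    exact rad_pos v hv _ hne
  obtain ⟨ε2, hε2, hb2⟩ := Metric.eventually_nhds_iff_ball.1 h1
  set ε := min ε1 ε2 with hε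
  have hε0 : 0 < ε := lt_min hε1 hε2
  have hs1 : ball x ε ⊆ ball x ε1 := ball_subset_ball (min_le_left _ _)
  have hs2 : ball x ε ⊆ ball x ε2 := ball_subset_ball (min_le_right _ _)
  refine ⟨ε, hε0, hs1.trans hb1, τ,
    fun y hy => (hτ y (hs1 hy)).differentiableAt.differentiableWithinAt, hτ0, ?_⟩
  have hfs := flow_sol v hv (ψ x) hne
  have huniq := uniq v hv isOpen_ball (convex_ball x ε).isPreconnected β
    ((hβ.mono (hs1.trans hb1)).continuousOn) ψ (fun y => flow v hv (ψ x) (τ y))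
    (fun y hy => hψ y (hb1 (hs1 hy)))
    (fun y hy => by
      have k1 := hfs.2.1 (τ y) (by rw [mem_ball, dist_zero_right]; exact hb2 y (hs2 hy))
      have k2 := hτ y (hs1 hy)
      exact k1.scomp y k2) (mem_ball_self hε0)
    (by rw [hτ0]; exact hfs.1.symm)
  exact fun y hy => ⟨hb2 y (hs2 hy), huniq y hy⟩

theorem surf_isLeaf (v : V → V) (hv : Differentiable ℂ v) (p : V) (hp : v p ≠ 0) :
    IsLeaf v (surf v hv p hp) where
  nonempty := ⟨p, Relation.ReflTransGen.refl⟩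
  nonsing q hq := trans_ne v hv hp hq
  hasDeriv q hq t ht := (flow_sol v hv q (trans_ne v hv hp hq)).2.1 t ht
  sat := by
    intro c R ψ β hβ hψ hex
    obtain ⟨x1, hx1, hx1L⟩ := hex
    -- no singular points on the curve
    have hns : ∀ x ∈ ball c R, v (ψ x) ≠ 0 := by
      intro x hx h0
      have h1 := uniq v hv isOpen_ball (convex_ball c R).isPreconnected β hβ.continuousOn ψ
        (fun _ => ψ x) hψ (fun y _ => by rw [h0, smul_zero]; exact hasDerivAt_const y _) hx rfl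
        x1 hx1
      have h2 : v (ψ x1) ≠ 0 := trans_ne v hv hp hx1L
      rw [h1] at h2
      exact h2 h0
    have hloc := fun x hx => local_flow v hv c R ψ β hβ hψ x hx (hns x hx)
    -- the set of points mapped to the leaf
    have hall : ∀ x ∈ ball c R, ψ x ∈ (surf v hv p hp).L := by
      have hopen : IsOpen {x | x ∈ ball c R ∧ ψ x ∈ (surf v hv p hp).L} := by
        rw [Metric.isOpen_iff]
        rintro x ⟨hx, hxL⟩
        obtain ⟨ε, hε, hb, τ, -, -, hτ⟩ := hloc x hx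
        refine ⟨ε, hε, fun y hy => ⟨hb hy, ?_⟩⟩
        obtain ⟨h1, h2⟩ := hτ y hy
        rw [h2]
        exact Relation.ReflTransGen.tail hxL ⟨τ y, h1, rfl⟩
      have hsub : ball c R ⊆ {x | x ∈ ball c R ∧ ψ x ∈ (surf v hv p hp).L} := by
        refine (convex_ball c R).isPreconnected.subset_of_closure_inter_subset hopen
          ⟨x1, hx1, hx1, hx1L⟩ ?_
        rintro x ⟨hxc, hx⟩
        obtain ⟨ε, hε, hb, τ, -, -, hτ⟩ := hloc x hx
        obtain ⟨y, hy1, hy2⟩ := mem_closure_iff_nhds.1 hxc _ (ball_mem_nhds x hε)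
        obtain ⟨h1, h2⟩ := hτ y hy1
        have h3 : Relation.ReflTransGen (Step v hv) p (ψ y) := hy2.2
        refine ⟨hx, ?_⟩
        change Relation.ReflTransGen (Step v hv) p (ψ x)
        rw [h2] at h3
        exact h3.trans (step_symm v hv (ψ x) (hns x hx) (τ y) h1)
      exact fun x hx => (hsub hx).2
    intro x hx
    exact ⟨hall x hx, hloc x hx⟩

end LEAF

theorem leaf_exists (v : ℂ × ℂ → ℂ × ℂ) (hv : Differentiable ℂ v) (p : ℂ × ℂ) (hp : v p ≠ 0) :
    ∃ S : TSurf (ℂ × ℂ), IsLeaf v S ∧ p ∈ S.L :=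
  ⟨LEAF.surf v hv p hp, LEAF.surf_isLeaf v hv p hp, Relation.ReflTransGen.refl⟩

end Pool.Agent.H210.Gr
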