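import Pool.Agent.H210.Green.Dehom

set_option autoImplicit false

namespace Pool.Agent.H210.Gr

open Metric Set MeasureTheory Topology Filter
open scoped Laplacian ContDiff
open MvPolynomial (X C pderiv)

namespace ORD

abbrev Po := MvPolynomial (Fin 2) ℂ

theorem eval_dehom (p : Po) (x : ℂ) : (dehom p).eval x = MvPolynomial.eval ![1, x] p := by
  unfold dehom
  induction p using MvPolynomial.induction_on with
  | C a => simp
  | add p q hp hq => simp only [map_add, Polynomial.eval_add, hp, hq]
  | mul_X p i hp =>
    rw [map_mul, Polynomial.eval_mul, hp, map_mul]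
    congr 1
    fin_cases i <;> simp

theorem dehom_add (p q : Po) : dehom (p + q) = dehom p + dehom q := by simp [dehom]
theorem dehom_sub (p q : Po) : dehom (p - q) = dehom p - dehom q := by simp [dehom]
theorem dehom_mul (p q : Po) : dehom (p * q) = dehom p * dehom q := by simp [dehom]
theorem dehom_zero : dehom 0 = 0 := by simp [dehom]

theorem derivative_dehom (p : Po) :
    Polynomial.derivative (dehom p) = dehom (pderiv 1 p) := by
  induction p using MvPolynomial.induction_on with
  | C a => simp [dehom]
  | add p q hp hq => simp only [dehom_add, map_add, hp, hq]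
  | mul_X p i hp =>
    rw [dehom_mul, Polynomial.derivative_mul, hp, MvPolynomial.pderiv_mul, dehom_add, dehom_mul,
      dehom_mul]
    congr 1
    fin_cases i
    · simp [dehom]
    · simp [dehom]

theorem eval_scale {p : Po} {n : ℕ} (hp : p.IsHomogeneous n) (c : ℂ) (w : Fin 2 → ℂ) :
    MvPolynomial.eval (c • w) p = c ^ n * MvPolynomial.eval w p := by
  rw [MvPolynomial.eval_eq, MvPolynomial.eval_eq, Finset.mul_sum]
  refine Finset.sum_congr rfl fun m hm => ?_
  have h1 := hp (MvPolynomial.mem_support_iff.1 hm)
  have h2 : ∑ i ∈ m.support, m i = n := by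
    have h3 : m.degree = n := by rw [Finsupp.degree_eq_weight_one]; exact h1
    exact h3
  simp only [Pi.smul_apply, smul_eq_mul, mul_pow, Finset.prod_mul_distrib, Finset.prod_pow_eq_pow_sum,
    h2]
  ring

/-- vanishing on the chart `z₀ ≠ 0` implies vanishing -/
theorem eq_zero_of_chart (p : Po) (h : ∀ w : Fin 2 → ℂ, w 0 ≠ 0 → MvPolynomial.eval w p = 0) :
    p = 0 := by
  have h1 : (X 0 : Po) * p = 0 := by
    apply MvPolynomial.funext
    intro w
    rw [map_mul, map_zero, MvPolynomial.eval_X]
    by_cases hw : w 0 = 0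
    · rw [hw, zero_mul]
    · rw [h w hw, mul_zero]
  rcases mul_eq_zero.1 h1 with h2 | h2
  · exact absurd h2 (MvPolynomial.X_ne_zero 0)
  · exact h2

theorem eq_zero_of_dehom {p : Po} {n : ℕ} (hp : p.IsHomogeneous n) (h : dehom p = 0) : p = 0 := by
  apply eq_zero_of_chart
  intro w hw
  have e : w = (w 0) • ![1, w 1 / w 0] := by
    ext i
    fin_cases i
    · simp
    · simp [mul_div_cancel₀, hw]
  rw [e, eval_scale hp, ← eval_dehom, h]
  simp

theorem dehom_eq_sum (p : Po) : dehom p =
    ∑ m ∈ p.support, Polynomial.C (MvPolynomial.coeff m p) * Polynomial.X ^ (m 1) := by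
  unfold dehom
  rw [MvPolynomial.aeval_def, MvPolynomial.eval₂_eq]
  refine Finset.sum_congr rfl fun m _ => ?_
  have h3 : (∏ i ∈ m.support, (![(1 : Polynomial ℂ), Polynomial.X] i) ^ m i) = Polynomial.X ^ (m 1) := by
    rw [Finset.prod_subset (Finset.subset_univ m.support)]
    · simp
    · intro i _ hi
      rw [Finsupp.notMem_support_iff.1 hi, pow_zero]
  rw [h3]
  rfl

theorem degree_two (m : Fin 2 →₀ ℕ) : m.degree = m 0 + m 1 := by
  rw [Finsupp.degree_eq_sum, Fin.sum_univ_two]

/-- the dehomogenization of a homogeneous polynomial -/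
theorem natDegree_dehom {p : Po} {n : ℕ} (hp : p.totalDegree ≤ n) : (dehom p).natDegree ≤ n := by
  rw [dehom_eq_sum]
  apply Polynomial.natDegree_sum_le_of_forall_le
  intro m hm
  have h1 : m.degree ≤ n := le_trans (MvPolynomial.le_totalDegree hm) hp
  rw [degree_two] at h1
  refine (Polynomial.natDegree_C_mul_X_pow_le _ _).trans ?_
  omega

theorem coeff_dehom {p : Po} {n : ℕ} (hp : p.IsHomogeneous n) :
    (dehom p).coeff n = MvPolynomial.eval ![0, 1] p := by
  rw [dehom_eq_sum, Polynomial.finsetSum_coeff, MvPolynomial.eval_eq']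
  refine Finset.sum_congr rfl fun m hm => ?_
  have h1 := hp (MvPolynomial.mem_support_iff.1 hm)
  have h3 : m.degree = n := by rw [Finsupp.degree_eq_weight_one]; exact h1
  rw [degree_two] at h3
  rw [Polynomial.coeff_C_mul_X_pow, Fin.prod_univ_two]
  by_cases h : m 0 = 0
  · have : n = m 1 := by omega
    simp [h, this]
  · have : n ≠ m 1 := by omega
    simp [h, this]

/-- the Euler identity, dehomogenized -/
theorem dehom_pderiv_zero {p : Po} {n : ℕ} (hp : p.IsHomogeneous n) :
    dehom (pderiv 0 p) = Polynomial.C (n : ℂ) * dehom p - Polynomial.X * Polynomial.derivative (dehom p) := by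
  have h := congrArg dehom hp.sum_X_mul_pderiv
  rw [Fin.sum_univ_two, dehom_add, dehom_mul, dehom_mul, nsmul_eq_mul, dehom_mul] at h
  have h0 : dehom (X 0) = 1 := by simp [dehom]
  have h1 : dehom (X 1) = Polynomial.X := by simp [dehom]
  have h2 : dehom ((n : ℕ) : Po) = Polynomial.C (n : ℂ) := by simp [dehom]
  rw [h0, h1, h2, ← derivative_dehom] at h
  linear_combination h

/-! homogenization -/

/-- homogenization of a polynomial to degree `n` -/
noncomputable def hom (n : ℕ) (ρ : Polynomial ℂ) : Po :=
  ∑ j ∈ Finset.range (n + 1), C (ρ.coeff j) * (X 0 ^ (n - j) * X 1 ^ j)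

theorem hom_isHomogeneous (n : ℕ) (ρ : Polynomial ℂ) : (hom n ρ).IsHomogeneous n := by
  unfold hom
  apply MvPolynomial.IsHomogeneous.sum
  intro j hj
  rw [Finset.mem_range] at hj
  have h := (MvPolynomial.isHomogeneous_X_pow (R := ℂ) (0 : Fin 2) (n - j)).mul
    (MvPolynomial.isHomogeneous_X_pow (R := ℂ) (1 : Fin 2) j)
  have e : n - j + j = n := by omega
  rw [e] at h
  exact h.C_mul _

theorem dehom_hom {n : ℕ} {ρ : Polynomial ℂ} (h : ρ.natDegree ≤ n) : dehom (hom n ρ) = ρ := by
  unfold hom dehom
  rw [map_sum]
  conv_rhs => rw [ρ.as_sum_range' (n + 1) (by omega)]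
  refine Finset.sum_congr rfl fun j _ => ?_
  rw [← Polynomial.C_mul_X_pow_eq_monomial]
  simp

/-! ## data at infinity -/

theorem eval_dehom_smul {p : Po} {n : ℕ} (hp : p.IsHomogeneous n) (c x : ℂ) :
    MvPolynomial.eval ![c, c * x] p = c ^ n * (dehom p).eval x := by
  rw [eval_dehom, ← eval_scale hp]
  congr 2
  ext i
  fin_cases i <;> simp

end ORD

open ORD in
/-- data at infinity of a foliation -/
theorem inf_exists (F : Fol) (hI : F.HypInf) (hG : F.Good) : ∃ D : InfD, D.d = F.d ∧
    (∀ i ≤ F.d, D.a i = dehom (F.Qc (F.d - i)) - Polynomial.X * dehom (F.Pc (F.d - i))) ∧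
    (∀ i ≤ F.d, D.b i = -dehom (F.Pc (F.d - i))) ∧ D.Chart F.v := by
  have hnP : ∀ i, (dehom (F.Pc i)).natDegree ≤ i := fun i => natDegree_dehom (F.hP i).totalDegree_le
  have hnQ : ∀ i, (dehom (F.Qc i)).natDegree ≤ i := fun i => natDegree_dehom (F.hQ i).totalDegree_le
  have hlc : (dehom (F.Pc F.d)).coeff F.d ≠ 0 := by
    rw [coeff_dehom (F.hP F.d)]; exact hG
  let D : InfD :=
    { d := F.d
      hd := F.hd
      a := fun i => if i ≤ F.d then dehom (F.Qc (F.d - i)) - Polynomial.X * dehom (F.Pc (F.d - i)) else 0
      b := fun i => if i ≤ F.d then -dehom (F.Pc (F.d - i)) else 0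
      ha := by
        intro i hi
        simp only [hi, if_true]
        refine (Polynomial.natDegree_sub_le _ _).trans (max_le ?_ ?_)
        · exact (hnQ _).trans (by omega)
        · refine Polynomial.natDegree_mul_le.trans ?_
          rw [Polynomial.natDegree_X]
          have := hnP (F.d - i)
          omega
      hb := by
        intro i hi
        simp only [hi, if_true, Polynomial.natDegree_neg]
        exact hnP _
      ha0 := by
        intro i hi
        rw [if_neg (by omega)]
      hb0 := by
        intro i hi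
        rw [if_neg (by omega)]
      hlead := by
        simp only [Nat.zero_le, if_true, Nat.sub_zero, Polynomial.coeff_sub, Polynomial.coeff_X_mul,
          Polynomial.coeff_neg]
        rw [Polynomial.coeff_eq_zero_of_natDegree_lt (lt_of_le_of_lt (hnQ F.d) (Nat.lt_succ_self _))]
        ring
      hlead0 := by
        simp only [Nat.zero_le, if_true, Nat.sub_zero, Polynomial.coeff_neg]
        exact neg_ne_zero.2 hlc
      hyp := by
        intro x hx
        simp only [Nat.zero_le, if_true, Nat.sub_zero, Polynomial.eval_sub, Polynomial.eval_mul,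
          Polynomial.eval_X, Polynomial.eval_neg, map_sub, Polynomial.derivative_mul,
          Polynomial.derivative_X, Polynomial.eval_add, one_mul] at hx ⊢
        have hw : (![1, x] : Fin 2 → ℂ) ≠ 0 := by
          intro h
          have := congrFun h 0
          simp at this
        have h1 := hI ![1, x] (MvPolynomial.eval ![1, x] (F.Pc F.d)) hw (by simp)
          (by
            rw [← eval_dehom, ← eval_dehom]
            simp only [Matrix.cons_val_one, Matrix.cons_val_fin_one]
            linear_combination hx)
        have hE := congrArg (Polynomial.eval x) (dehom_pderiv_zero (F.hP F.d))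
        simp only [Polynomial.eval_sub, Polynomial.eval_mul, Polynomial.eval_C,
          Polynomial.eval_X] at hE
        rw [← eval_dehom, ← eval_dehom, ← eval_dehom, hE, ← derivative_dehom] at h1
        intro h2
        apply h1
        have e : (Polynomial.eval x (dehom (F.Pc F.d)) /
            (↑F.d * Polynomial.eval x (dehom (F.Pc F.d)) -
              x * Polynomial.eval x (Polynomial.derivative (dehom (F.Pc F.d))) +
              Polynomial.eval x (Polynomial.derivative (dehom (F.Qc F.d))) -
              (↑F.d + 1) * Polynomial.eval x (dehom (F.Pc F.d)))) =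
            -(-Polynomial.eval x (dehom (F.Pc F.d)) /
            (Polynomial.eval x (Polynomial.derivative (dehom (F.Qc F.d))) -
              (Polynomial.eval x (dehom (F.Pc F.d)) +
                x * Polynomial.eval x (Polynomial.derivative (dehom (F.Pc F.d)))))) := by
          rw [neg_div, neg_neg]
          congr 1
          ring
        rw [e, Complex.neg_im, h2, neg_zero] }
  refine ⟨D, rfl, ?_, ?_, ?_⟩
  · intro i hi
    show (if i ≤ F.d then _ else _) = _
    rw [if_pos hi]
  · intro i hi
    show (if i ≤ F.d then _ else _) = _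
    rw [if_pos hi]
  · intro x y hy
    have hz : (![1 / y, x / y] : Fin 2 → ℂ) = ![y⁻¹, y⁻¹ * x] := by
      ext i
      fin_cases i
      · simp
      · simp [div_eq_inv_mul]
    have hsum : ∀ G : ℕ → Po, (∀ i, (G i).IsHomogeneous i) →
        MvPolynomial.eval ![1 / y, x / y] (∑ i ∈ Finset.range (F.d + 1), G i) =
          (∑ i ∈ Finset.range (F.d + 1), (dehom (G (F.d - i))).eval x * y ^ i) / y ^ F.d := by
      intro G hGh
      rw [map_sum, Finset.sum_div, ← Finset.sum_range_reflect]
      refine Finset.sum_congr rfl fun i hi => ?_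
      rw [Finset.mem_range] at hi
      have e : F.d + 1 - 1 - i = F.d - i := by omega
      rw [e, hz, eval_dehom_smul (hGh _)]
      have e2 : y ^ F.d = y ^ (F.d - i) * y ^ i := by rw [← pow_add]; congr 1; omega
      rw [e2, inv_pow]
      have h1 : y ^ (F.d - i) ≠ 0 := pow_ne_zero _ hy
      have h2 : y ^ i ≠ 0 := pow_ne_zero _ hy
      field_simp
    have hb : D.bF x y = -(∑ i ∈ Finset.range (F.d + 1), (dehom (F.Pc (F.d - i))).eval x * y ^ i) := by
      unfold InfD.bF
      rw [← Finset.sum_neg_distrib]
      refine Finset.sum_congr rfl fun i hi => ?_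
      rw [Finset.mem_range] at hi
      show (if i ≤ F.d then _ else (0 : Polynomial ℂ)).eval x * y ^ i = _
      rw [if_pos (by omega), Polynomial.eval_neg]
      ring
    have ha : D.aF x y = (∑ i ∈ Finset.range (F.d + 1), (dehom (F.Qc (F.d - i))).eval x * y ^ i) -
        x * (∑ i ∈ Finset.range (F.d + 1), (dehom (F.Pc (F.d - i))).eval x * y ^ i) := by
      unfold InfD.aF
      rw [Finset.mul_sum, ← Finset.sum_sub_distrib]
      refine Finset.sum_congr rfl fun i hi => ?_
      rw [Finset.mem_range] at hi
      show (if i ≤ F.d then _ else (0 : Polynomial ℂ)).eval x * y ^ i = _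
      rw [if_pos (by omega), Polynomial.eval_sub, Polynomial.eval_mul, Polynomial.eval_X]
      ring
    unfold Fol.v Fol.P Fol.Q
    rw [Prod.mk.injEq]
    constructor
    · show MvPolynomial.eval ![1 / y, x / y] _ = _
      rw [hsum _ F.hP, hb]
      show _ = -(-_) / y ^ F.d
      rw [neg_neg]
    · show MvPolynomial.eval ![1 / y, x / y] _ = _
      rw [hsum _ F.hQ, hb, ha]
      show _ = _ / y ^ F.d
      congr 1
      ring

namespace ORD

/-! ## the recursion -/

/-- the recursively built sequence of stages -/
noncomputable def st (D : InfD) : ℕ → (ℕ → Polynomial ℂ)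
  | 0 => fun _ => D.A
  | (k + 1) => Function.update (st D k) (k + 1)
      (Classical.epsilon fun r => D.A * Polynomial.derivative r +
        (Polynomial.C ((k + 1 : ℕ) : ℂ) * D.β - Polynomial.derivative D.A) * r =
          D.G (st D k) (k + 1))

noncomputable def rh (D : InfD) (k : ℕ) : Polynomial ℂ := st D k k

theorem st_eq (D : InfD) {j k : ℕ} (h : j ≤ k) : st D k j = rh D j := by
  induction k with
  | zero =>
    have : j = 0 := by omega
    subst this; rfl
  | succ k ih =>
    by_cases hj : j = k + 1
    · subst hj; rfl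
    · have h2 : st D (k + 1) j = st D k j := by
        simp only [st]
        rw [Function.update_of_ne hj]
      rw [h2, ih (by omega)]

theorem G_congr (D : InfD) {ρ ρ' : ℕ → Polynomial ℂ} {k : ℕ} (h : ∀ j < k, ρ j = ρ' j) :
    D.G ρ k = D.G ρ' k := by
  unfold InfD.G
  congr 2
  funext j
  by_cases hj : j < k
  · rw [if_pos hj, if_pos hj, h j hj]
  · rw [if_neg hj, if_neg hj]

theorem ord_split (D : InfD) (ρ : ℕ → Polynomial ℂ) (k : ℕ) :
    D.ord ρ k = D.A * Polynomial.derivative (ρ k) +
      (Polynomial.C (k : ℂ) * D.β - Polynomial.derivative D.A) * ρ k - D.G ρ k := by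
  unfold InfD.G
  rw [sub_neg_eq_add, ← sub_eq_iff_eq_add]
  unfold InfD.ord
  rw [← Finset.sum_sub_distrib, Finset.sum_eq_single (0, k)]
  · simp only [lt_irrefl, if_false, Polynomial.derivative_zero, mul_zero, sub_self, add_zero,
      sub_zero, Nat.cast_zero]
    unfold InfD.A InfD.β
    ring
  · rintro ⟨p, q⟩ hpq hne
    have hpq : p + q = k := Finset.HasAntidiagonal.mem_antidiagonal.1 hpq
    have hq : q < k := by
      rcases Nat.lt_or_ge q k with h | h
      · exact h
      · exfalso; apply hne
        have h1 : p = 0 := by omega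
        have h2 : q = k := by omega
        rw [h1, h2]
    simp only [hq, if_true, sub_self]
  · intro h
    exfalso; apply h
    exact Finset.HasAntidiagonal.mem_antidiagonal.2 (by simp)

theorem rh_zero (D : InfD) : rh D 0 = D.A := rfl

theorem ord_rh (D : InfD) (hno : ∀ ρ k, ¬ D.Obs ρ k) : ∀ m, D.ord (rh D) m = 0 := by
  intro m
  induction m using Nat.strong_induction_on with
  | _ m ih =>
    cases m with
    | zero =>
      unfold InfD.ord
      have e : Finset.HasAntidiagonal.antidiagonal (0 : ℕ) = {((0 : ℕ), (0 : ℕ))} := rfl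
      rw [e, Finset.sum_singleton, rh_zero]
      unfold InfD.A
      simp
      ring
    | succ k =>
      have h1 : ¬ ∀ r : Polynomial ℂ, D.A * Polynomial.derivative r +
          (Polynomial.C ((k + 1 : ℕ) : ℂ) * D.β - Polynomial.derivative D.A) * r ≠
            D.G (rh D) (k + 1) := by
        intro h
        exact hno (rh D) (k + 1) ⟨by omega, rh_zero D, ih, h⟩
      push Not at h1
      have hG : D.G (st D k) (k + 1) = D.G (rh D) (k + 1) :=
        G_congr D fun j hj => st_eq D (by omega)
      rw [← hG] at h1
      have h2 := Classical.epsilon_spec h1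
      have h3 : rh D (k + 1) = (Classical.epsilon fun r => D.A * Polynomial.derivative r +
        (Polynomial.C ((k + 1 : ℕ) : ℂ) * D.β - Polynomial.derivative D.A) * r =
          D.G (st D k) (k + 1)) := by
        show st D (k + 1) (k + 1) = _
        simp only [st]
        rw [Function.update_self]
      rw [← h3, hG] at h2
      rw [ord_split, h2, sub_self]

/-! ## degree bounds -/

/-- `deg f ≤ N - k` -/
def sb (N k : ℕ) (f : Polynomial ℂ) : Prop := ∀ j, f.coeff j ≠ 0 → j + k ≤ N

theorem sb_zero (N k : ℕ) : sb N k 0 := by intro j hj; simp at hj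

theorem sb_add {N k : ℕ} {f g : Polynomial ℂ} (hf : sb N k f) (hg : sb N k g) : sb N k (f + g) := by
  intro j hj
  by_contra h
  apply hj
  have h1 : f.coeff j = 0 := by by_contra h1; exact h (hf j h1)
  have h2 : g.coeff j = 0 := by by_contra h1; exact h (hg j h1)
  rw [Polynomial.coeff_add, h1, h2, add_zero]

theorem sb_neg {N k : ℕ} {f : Polynomial ℂ} (hf : sb N k f) : sb N k (-f) := by
  intro j hj
  apply hf
  rw [Polynomial.coeff_neg] at hj
  exact neg_ne_zero.1 hj

theorem sb_sub {N k : ℕ} {f g : Polynomial ℂ} (hf : sb N k f) (hg : sb N k g) : sb N k (f - g) := by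
  rw [sub_eq_add_neg]
  exact sb_add hf (sb_neg hg)

theorem sb_C_mul {N k : ℕ} {f : Polynomial ℂ} (c : ℂ) (hf : sb N k f) :
    sb N k (Polynomial.C c * f) := by
  intro j hj
  apply hf
  rw [Polynomial.coeff_C_mul] at hj
  exact right_ne_zero_of_mul hj

theorem sb_sum {N k : ℕ} {ι : Type} (s : Finset ι) (f : ι → Polynomial ℂ)
    (h : ∀ i ∈ s, sb N k (f i)) : sb N k (∑ i ∈ s, f i) := by
  classical
  induction s using Finset.induction_on with
  | empty => simpa using sb_zero N k
  | insert a s ha ih =>
    rw [Finset.sum_insert ha]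
    exact sb_add (h a (Finset.mem_insert_self _ _))
      (ih fun i hi => h i (Finset.mem_insert_of_mem hi))

theorem sb_mul {N k M l : ℕ} {f g : Polynomial ℂ} (hf : sb N k f) (hg : sb M l g) :
    sb (N + M) (k + l) (f * g) := by
  intro j hj
  rw [Polynomial.coeff_mul] at hj
  obtain ⟨x, hx, hne⟩ := Finset.exists_ne_zero_of_sum_ne_zero hj
  have hx : x.1 + x.2 = j := Finset.HasAntidiagonal.mem_antidiagonal.1 hx
  have h1 := hf _ (left_ne_zero_of_mul hne)
  have h2 := hg _ (right_ne_zero_of_mul hne)
  omega

theorem sb_derivative {N k : ℕ} {f : Polynomial ℂ} (hf : sb (N + 1) k f) :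
    sb N k (Polynomial.derivative f) := by
  intro j hj
  rw [Polynomial.coeff_derivative] at hj
  have := hf _ (left_ne_zero_of_mul hj)
  omega

theorem sb_a (D : InfD) (p : ℕ) : sb (D.d + 1) p (D.a p) := by
  intro j hj
  by_cases hp : p ≤ D.d
  · have h1 := Polynomial.le_natDegree_of_ne_zero hj
    have h2 := D.ha p hp
    omega
  · exfalso; apply hj
    rw [D.ha0 p (by omega)]; simp

theorem sb_b (D : InfD) (p : ℕ) : sb D.d p (D.b p) := by
  intro j hj
  by_cases hp : p ≤ D.d
  · have h1 := Polynomial.le_natDegree_of_ne_zero hj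
    have h2 := D.hb p hp
    omega
  · exfalso; apply hj
    rw [D.hb0 p (by omega)]; simp

theorem sb_term (D : InfD) (ρ : ℕ → Polynomial ℂ) (p q : ℕ) (h : sb (D.d + 1) q (ρ q)) :
    sb (2 * D.d + 1) (p + q) (D.a p * Polynomial.derivative (ρ q) -
      Polynomial.derivative (D.a p) * ρ q +
      Polynomial.C ((q : ℂ) - (p : ℂ)) * (D.b p * ρ q)) := by
  have e1 : 2 * D.d + 1 = (D.d + 1) + D.d := by ring
  have e2 : 2 * D.d + 1 = D.d + (D.d + 1) := by ring
  apply sb_add
  · apply sb_sub
    · rw [e1]; exact sb_mul (sb_a D p) (sb_derivative h)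
    · rw [e2]; exact sb_mul (sb_derivative (sb_a D p)) h
  · apply sb_C_mul
    rw [e2]; exact sb_mul (sb_b D p) h

theorem sb_rh (D : InfD) (hno : ∀ ρ k, ¬ D.Obs ρ k) : ∀ k, sb (D.d + 1) k (rh D k) := by
  intro k
  induction k using Nat.strong_induction_on with
  | _ k ih =>
    cases k with
    | zero => rw [rh_zero]; exact sb_a D 0
    | succ k =>
      by_contra hcon
      have hne : rh D (k + 1) ≠ 0 := by
        intro h0; apply hcon; rw [h0]; exact sb_zero _ _
      have h1 := ord_rh D hno (k + 1)
      rw [ord_split, sub_eq_zero] at h1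
      have hG : sb (2 * D.d + 1) (k + 1) (D.G (rh D) (k + 1)) := by
        unfold InfD.G
        apply sb_neg
        unfold InfD.ord
        apply sb_sum
        rintro ⟨p, q⟩ hpq
        have hpq : p + q = k + 1 := Finset.HasAntidiagonal.mem_antidiagonal.1 hpq
        have hq' : sb (D.d + 1) q (if q < k + 1 then rh D q else 0) := by
          by_cases hq : q < k + 1
          · rw [if_pos hq]; exact ih q (by omega)
          · rw [if_neg hq]; exact sb_zero _ _
        have h5 := sb_term D (fun j => if j < k + 1 then rh D j else 0) p q hq'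
        rw [hpq] at h5
        exact h5
      rw [← h1] at hG
      set r := rh D (k + 1) with hr
      set m := r.natDegree with hm
      have hA : D.A.natDegree ≤ D.d + 1 := by
        have := D.ha 0 (by omega)
        rwa [Nat.sub_zero] at this
      have hβ : D.β.natDegree ≤ D.d := by
        have := D.hb 0 (by omega)
        rwa [Nat.sub_zero] at this
      have hA' : (Polynomial.derivative D.A).natDegree ≤ D.d := by
        refine (Polynomial.natDegree_derivative_le _).trans ?_
        omega
      have hc : D.A.coeff (D.d + 1) = D.β.coeff D.d := D.hlead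
      have hc0 : D.β.coeff D.d ≠ 0 := D.hlead0
      have hlc : r.coeff m ≠ 0 := by
        rw [hm]; exact Polynomial.leadingCoeff_ne_zero.2 hne
      have hmk : D.d + 1 < m + (k + 1) := by
        by_contra hle
        apply hcon
        intro j hj
        have := Polynomial.le_natDegree_of_ne_zero hj
        omega
      have t1 : (D.A * Polynomial.derivative r).coeff (m + D.d) = D.β.coeff D.d * (r.coeff m * m) := by
        cases hm' : m with
        | zero =>
          have : r = Polynomial.C (r.coeff 0) := Polynomial.eq_C_of_natDegree_eq_zero hm'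
          rw [this]; simp
        | succ m' =>
          have h2 : (Polynomial.derivative r).natDegree ≤ m' := by
            refine (Polynomial.natDegree_derivative_le _).trans ?_
            omega
          have e : m' + 1 + D.d = (D.d + 1) + m' := by ring
          rw [e, Polynomial.coeff_mul_add_eq_of_natDegree_le hA h2, Polynomial.coeff_derivative, hc]
          push_cast
          ring
      have t2 : (D.β * r).coeff (m + D.d) = D.β.coeff D.d * r.coeff m := by
        rw [add_comm m, Polynomial.coeff_mul_add_eq_of_natDegree_le hβ le_rfl]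
      have t3 : (Polynomial.derivative D.A * r).coeff (m + D.d) =
          D.β.coeff D.d * (D.d + 1) * r.coeff m := by
        rw [add_comm m, Polynomial.coeff_mul_add_eq_of_natDegree_le hA' le_rfl,
          Polynomial.coeff_derivative, hc]
      have t4 : (D.A * Polynomial.derivative r +
          (Polynomial.C ((k + 1 : ℕ) : ℂ) * D.β - Polynomial.derivative D.A) * r).coeff (m + D.d) =
          D.β.coeff D.d * r.coeff m * ((m : ℂ) + (k + 1 : ℕ) - (D.d + 1)) := by
        have e : D.A * Polynomial.derivative r +
          (Polynomial.C ((k + 1 : ℕ) : ℂ) * D.β - Polynomial.derivative D.A) * r =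
          D.A * Polynomial.derivative r + Polynomial.C ((k + 1 : ℕ) : ℂ) * (D.β * r) -
            Polynomial.derivative D.A * r := by ring
        rw [e, Polynomial.coeff_sub, Polynomial.coeff_add, Polynomial.coeff_C_mul, t1, t2, t3]
        ring
      have t5 : ((m : ℂ) + (k + 1 : ℕ) - (D.d + 1)) ≠ 0 := by
        intro h
        have h' : ((m + (k + 1) : ℕ) : ℂ) = ((D.d + 1 : ℕ) : ℂ) := by
          push_cast
          push_cast at h
          linear_combination h
        have := Nat.cast_injective h'
        omega
      have t6 := hG (m + D.d) (by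
        rw [t4]
        exact mul_ne_zero (mul_ne_zero hc0 hlc) t5)
      omega

/-! ## the integrating factor -/

theorem pderiv_scale {H : Po} {n : ℕ} (hH : H.IsHomogeneous n) (i : Fin 2) (c x : ℂ) :
    c * MvPolynomial.eval ![c, c * x] (pderiv i H) = c ^ n * (dehom (pderiv i H)).eval x := by
  cases n with
  | zero =>
    have h1 : H.totalDegree = 0 := Nat.le_zero.1 hH.totalDegree_le
    rw [MvPolynomial.totalDegree_eq_zero_iff_eq_C] at h1
    rw [h1, MvPolynomial.pderiv_C]
    simp [dehom_zero]
  | succ n =>
    have h1 : (pderiv i H).IsHomogeneous n := hH.pderiv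
    rw [eval_dehom_smul h1]
    ring

/-- regrouping a double sum -/
theorem regroup (N : ℕ) (f : ℕ → ℕ → ℂ) (h : ∀ p q, N ≤ p ∨ N ≤ q → f p q = 0) :
    ∑ p ∈ Finset.range N, ∑ q ∈ Finset.range N, f p q =
      ∑ m ∈ Finset.range (2 * N), ∑ z ∈ Finset.HasAntidiagonal.antidiagonal m, f z.1 z.2 := by
  rw [← Finset.sum_product' (Finset.range N) (Finset.range N) f]
  rw [← Finset.sum_fiberwise_of_maps_to (g := fun z : ℕ × ℕ => z.1 + z.2) (t := Finset.range (2 * N))]
  · refine Finset.sum_congr rfl fun m hm => ?_
    apply Finset.sum_subset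
    · intro z hz
      rw [Finset.mem_filter] at hz
      exact Finset.HasAntidiagonal.mem_antidiagonal.2 hz.2
    · intro z hz hz2
      have hz : z.1 + z.2 = m := Finset.HasAntidiagonal.mem_antidiagonal.1 hz
      apply h
      by_contra hcon
      push Not at hcon
      apply hz2
      rw [Finset.mem_filter, Finset.mem_product, Finset.mem_range, Finset.mem_range]
      exact ⟨hcon, hz⟩
  · intro z hz
    rw [Finset.mem_product, Finset.mem_range, Finset.mem_range] at hz
    rw [Finset.mem_range]
    show z.1 + z.2 < _
    omega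

end ORD

open ORD in
/-- T-ORD: if there is no obstruction at all then there is an integrating factor -/
theorem int_factor (F : Fol) (D : InfD) (hd : D.d = F.d)
    (ha : ∀ i ≤ F.d, D.a i = dehom (F.Qc (F.d - i)) - Polynomial.X * dehom (F.Pc (F.d - i)))
    (hb : ∀ i ≤ F.d, D.b i = -dehom (F.Pc (F.d - i)))
    (hno : ∀ ρ k, ¬ D.Obs ρ k) :
    ∃ R : MvPolynomial (Fin 2) ℂ, R.totalDegree ≤ F.d + 1 ∧
      MvPolynomial.homogeneousComponent (F.d + 1) R = X 0 * F.Qc F.d - X 1 * F.Pc F.d ∧
      F.P * pderiv 0 R + F.Q * pderiv 1 R = (pderiv 0 F.P + pderiv 1 F.Q) * R := by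
  set ρ := rh D with hρ
  set d := F.d with hdd
  have hsb : ∀ k, sb (d + 1) k (ρ k) := by
    intro k; have := sb_rh D hno k; rwa [hd] at this
  have hord : ∀ m, D.ord ρ m = 0 := ord_rh D hno
  have hnd : ∀ k ≤ d + 1, (ρ k).natDegree ≤ d + 1 - k := by
    intro k hk
    by_cases h0 : ρ k = 0
    · rw [h0]; simp
    · have := hsb k (ρ k).natDegree (by
        show (ρ k).leadingCoeff ≠ 0
        exact Polynomial.leadingCoeff_ne_zero.2 h0)
      omega
  have hbig : ∀ k, d + 1 < k → ρ k = 0 := by
    intro k hk
    by_contra h0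
    have := hsb k (ρ k).natDegree (by
        show (ρ k).leadingCoeff ≠ 0
        exact Polynomial.leadingCoeff_ne_zero.2 h0)
    omega
  set H : ℕ → Po := fun q => hom (d + 1 - q) (ρ q) with hH
  have hHh : ∀ q, (H q).IsHomogeneous (d + 1 - q) := fun q => hom_isHomogeneous _ _
  have hHd : ∀ q ≤ d + 1, dehom (H q) = ρ q := fun q hq => dehom_hom (hnd q hq)
  set R : Po := ∑ q ∈ Finset.range (d + 2), H q with hR
  refine ⟨R, ?_, ?_, ?_⟩
  · apply MvPolynomial.totalDegree_finsetSum_le
    intro q _
    exact (hHh q).totalDegree_le.trans (by omega)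
  · rw [hR, map_sum, Finset.sum_eq_single 0]
    · have e1 : (H 0).IsHomogeneous (d + 1) := hHh 0
      rw [MvPolynomial.homogeneousComponent_eq_self e1, ← sub_eq_zero]
      have e2 : (X 0 * F.Qc d : Po).IsHomogeneous (d + 1) := by
        have := (MvPolynomial.isHomogeneous_X ℂ (0 : Fin 2)).mul (F.hQ d)
        rwa [add_comm 1 d] at this
      have e3 : (X 1 * F.Pc d : Po).IsHomogeneous (d + 1) := by
        have := (MvPolynomial.isHomogeneous_X ℂ (1 : Fin 2)).mul (F.hP d)
        rwa [add_comm 1 d] at this
      apply eq_zero_of_dehom (e1.sub (e2.sub e3))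
      rw [dehom_sub, dehom_sub, dehom_mul, dehom_mul, hHd 0 (by omega)]
      have h1 : ρ 0 = D.a 0 := rfl
      rw [h1, ha 0 (by omega)]
      simp [dehom]
    · intro q hq hq0
      rw [Finset.mem_range] at hq
      rw [MvPolynomial.homogeneousComponent_of_mem (hHh q), if_neg (by omega)]
    · intro h; simp at h
  · rw [← sub_eq_zero]
    apply eq_zero_of_chart
    intro w hw
    set c := w 0 with hc
    set x := w 1 / w 0 with hx
    have hwe : w = ![c, c * x] := by
      ext i
      fin_cases i
      · rfl
      · show w 1 = w 0 * (w 1 / w 0)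
        have hw' : w 0 ≠ 0 := hw
        field_simp
    -- evaluations
    have hP : MvPolynomial.eval w F.P =
        ∑ p ∈ Finset.range (d + 1), c ^ (d - p) * (dehom (F.Pc (d - p))).eval x := by
      unfold Fol.P
      rw [map_sum, ← Finset.sum_range_reflect]
      refine Finset.sum_congr rfl fun p hp => ?_
      have e : F.d + 1 - 1 - p = d - p := by omega
      rw [e, hwe, eval_dehom_smul (F.hP _)]
    have hQ : MvPolynomial.eval w F.Q =
        ∑ p ∈ Finset.range (d + 1), c ^ (d - p) * (dehom (F.Qc (d - p))).eval x := by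
      unfold Fol.Q
      rw [map_sum, ← Finset.sum_range_reflect]
      refine Finset.sum_congr rfl fun p hp => ?_
      have e : F.d + 1 - 1 - p = d - p := by omega
      rw [e, hwe, eval_dehom_smul (F.hQ _)]
    have hP' : c * MvPolynomial.eval w (pderiv 0 F.P) =
        ∑ p ∈ Finset.range (d + 1), c ^ (d - p) * (dehom (pderiv 0 (F.Pc (d - p)))).eval x := by
      unfold Fol.P
      rw [map_sum, map_sum, ← Finset.sum_range_reflect, Finset.mul_sum]
      refine Finset.sum_congr rfl fun p hp => ?_
      have e : F.d + 1 - 1 - p = d - p := by omega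
      rw [e, hwe, pderiv_scale (F.hP _)]
    have hQ' : c * MvPolynomial.eval w (pderiv 1 F.Q) =
        ∑ p ∈ Finset.range (d + 1), c ^ (d - p) * (dehom (pderiv 1 (F.Qc (d - p)))).eval x := by
      unfold Fol.Q
      rw [map_sum, map_sum, ← Finset.sum_range_reflect, Finset.mul_sum]
      refine Finset.sum_congr rfl fun p hp => ?_
      have e : F.d + 1 - 1 - p = d - p := by omega
      rw [e, hwe, pderiv_scale (F.hQ _)]
    have hR0 : MvPolynomial.eval w R =
        ∑ q ∈ Finset.range (d + 2), c ^ (d + 1 - q) * (ρ q).eval x := by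
      rw [hR, map_sum]
      refine Finset.sum_congr rfl fun q hq => ?_
      rw [Finset.mem_range] at hq
      rw [hwe, eval_dehom_smul (hHh q), hHd q (by omega)]
    have hRi : ∀ i : Fin 2, c * MvPolynomial.eval w (pderiv i R) =
        ∑ q ∈ Finset.range (d + 2), c ^ (d + 1 - q) * (dehom (pderiv i (H q))).eval x := by
      intro i
      rw [hR, map_sum, map_sum, Finset.mul_sum]
      refine Finset.sum_congr rfl fun q hq => ?_
      rw [hwe, pderiv_scale (hHh q)]
    -- the summand
    set T : ℕ → ℕ → ℂ := fun p q => (D.a p * Polynomial.derivative (ρ q) -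
      Polynomial.derivative (D.a p) * ρ q +
      Polynomial.C ((q : ℂ) - (p : ℂ)) * (D.b p * ρ q)).eval x with hT
    have hTord : ∀ m, ∑ z ∈ Finset.HasAntidiagonal.antidiagonal m, T z.1 z.2 = 0 := by
      intro m
      have := congrArg (Polynomial.eval x) (hord m)
      unfold InfD.ord at this
      rw [Polynomial.eval_finsetSum, Polynomial.eval_zero] at this
      exact this
    have hsummand : ∀ p < d + 1, ∀ q < d + 2,
        (dehom (F.Pc (d - p))).eval x * (dehom (pderiv 0 (H q))).eval x +
        (dehom (F.Qc (d - p))).eval x * (dehom (pderiv 1 (H q))).eval x -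
        ((dehom (pderiv 0 (F.Pc (d - p)))).eval x + (dehom (pderiv 1 (F.Qc (d - p)))).eval x) *
          (ρ q).eval x = T p q := by
      intro p hp q hq
      rw [dehom_pderiv_zero (hHh q), ← derivative_dehom, hHd q (by omega),
        dehom_pderiv_zero (F.hP _), ← derivative_dehom]
      simp only [hT]
      rw [ha p (by omega), hb p (by omega)]
      simp only [Polynomial.eval_sub, Polynomial.eval_add, Polynomial.eval_mul, Polynomial.eval_C,
        Polynomial.eval_X, Polynomial.derivative_sub, Polynomial.derivative_mul,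
        Polynomial.derivative_X, Polynomial.eval_neg, Polynomial.eval_one]
      rw [Nat.cast_sub (by omega), Nat.cast_sub (by omega)]
      push_cast
      ring
    have hcE : c * MvPolynomial.eval w (F.P * pderiv 0 R + F.Q * pderiv 1 R -
        (pderiv 0 F.P + pderiv 1 F.Q) * R) =
        ∑ p ∈ Finset.range (d + 2), ∑ q ∈ Finset.range (d + 2),
          c ^ (2 * d + 1) * (c⁻¹ ^ (p + q) * T p q) := by
      rw [Finset.sum_range_succ]
      have hlast : ∑ q ∈ Finset.range (d + 2), c ^ (2 * d + 1) * (c⁻¹ ^ (d + 1 + q) * T (d + 1) q) = 0 := by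
        apply Finset.sum_eq_zero
        intro q _
        have : T (d + 1) q = 0 := by
          simp only [hT]
          rw [D.ha0 (d + 1) (by omega), D.hb0 (d + 1) (by omega)]
          simp
        rw [this, mul_zero, mul_zero]
      rw [hlast, add_zero]
      have e : c * MvPolynomial.eval w (F.P * pderiv 0 R + F.Q * pderiv 1 R -
        (pderiv 0 F.P + pderiv 1 F.Q) * R) =
        MvPolynomial.eval w F.P * (c * MvPolynomial.eval w (pderiv 0 R)) +
        MvPolynomial.eval w F.Q * (c * MvPolynomial.eval w (pderiv 1 R)) -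
        (c * MvPolynomial.eval w (pderiv 0 F.P) + c * MvPolynomial.eval w (pderiv 1 F.Q)) *
          MvPolynomial.eval w R := by
        simp only [map_add, map_sub, map_mul]
        ring
      rw [e, hRi, hRi, hP', hQ', hP, hQ, hR0, ← Finset.sum_add_distrib, Finset.sum_mul_sum,
        Finset.sum_mul_sum, Finset.sum_mul_sum, ← Finset.sum_add_distrib,
        ← Finset.sum_sub_distrib]
      refine Finset.sum_congr rfl fun p hp => ?_
      rw [← Finset.sum_add_distrib, ← Finset.sum_sub_distrib]
      refine Finset.sum_congr rfl fun q hq => ?_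
      rw [Finset.mem_range] at hp hq
      rw [← hsummand p hp q hq]
      have e3 : c ^ (2 * d + 1) * c⁻¹ ^ (p + q) = c ^ (d - p) * c ^ (d + 1 - q) := by
        have e4 : 2 * d + 1 = (d - p) + (d + 1 - q) + (p + q) := by omega
        rw [e4, pow_add, pow_add, mul_assoc, ← mul_pow, mul_inv_cancel₀ hw, one_pow, mul_one]
      linear_combination (-((dehom (F.Pc (d - p))).eval x * (dehom (pderiv 0 (H q))).eval x +
        (dehom (F.Qc (d - p))).eval x * (dehom (pderiv 1 (H q))).eval x -
        ((dehom (pderiv 0 (F.Pc (d - p)))).eval x + (dehom (pderiv 1 (F.Qc (d - p)))).eval x) *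
          (ρ q).eval x)) * e3
    have hzero : ∑ p ∈ Finset.range (d + 2), ∑ q ∈ Finset.range (d + 2),
          c ^ (2 * d + 1) * (c⁻¹ ^ (p + q) * T p q) = 0 := by
      rw [regroup]
      · apply Finset.sum_eq_zero
        intro m _
        have : ∑ z ∈ Finset.HasAntidiagonal.antidiagonal m,
            c ^ (2 * d + 1) * (c⁻¹ ^ (z.1 + z.2) * T z.1 z.2) =
            c ^ (2 * d + 1) * c⁻¹ ^ m * ∑ z ∈ Finset.HasAntidiagonal.antidiagonal m, T z.1 z.2 := by
          rw [Finset.mul_sum]
          refine Finset.sum_congr rfl fun z hz => ?_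
          rw [Finset.HasAntidiagonal.mem_antidiagonal.1 hz]
          ring
        rw [this, hTord, mul_zero]
      · intro p q hpq
        have : T p q = 0 := by
          simp only [hT]
          rcases hpq with h | h
          · rw [D.ha0 p (by omega), D.hb0 p (by omega)]
            simp
          · rw [hbig q (by omega)]
            simp
        rw [this, mul_zero, mul_zero]
    rw [hzero] at hcE
    exact (mul_eq_zero.1 hcE).resolve_left hw

end Pool.Agent.H210.Gr
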