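import Pool.Agent.H210.Green.Defs

/-! Definitions for the Poincare part of the proof of S05669. -/

set_option autoImplicit false

namespace Pool.Agent.H210.Gr

open Metric Set MeasureTheory Topology Filter
open scoped Laplacian ContDiff

/-- Euclidean product of the differentials -/
noncomputable def gradDot (f g : ℂ → ℝ) (x : ℂ) : ℝ :=
  fderiv ℝ f x 1 * fderiv ℝ g x 1 + fderiv ℝ f x Complex.I * fderiv ℝ g x Complex.I

structure EForm {E : Type} (S : TSurf E) (en : (E → ℝ) → (E → ℝ) → ℝ) : Prop where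
  symm : ∀ f g, S.Test f → S.Test g → en f g = en g f
  add : ∀ f g h, S.Test f → S.Test g → S.Test h → en (fun p => f p + g p) h = en f h + en g h
  smul : ∀ (c : ℝ) f h, S.Test f → S.Test h → en (fun p => c * f p) h = c * en f h
  nonneg : ∀ f, S.Test f → 0 ≤ en f f
  bound : ∀ f, S.Test f → S.EBound f (en f f)
  loc : ∀ f η, S.Test f → S.Test η → ∀ q ∈ S.L, ∀ r, 0 < r → r < S.rad q →
    (∀ p ∈ S.L, η p ≠ 0 → ∃ t : ℂ, ‖t‖ ≤ r ∧ p = S.flow q t) →
    en f η = ∫ t in ball (0 : ℂ) (S.rad q), gradDot (fun t => f (S.flow q t)) (fun t => η (S.flow q t)) t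
  trunc : ∀ (s s' : ℝ → ℝ), (∀ x, HasDerivAt s (s' x) x) → Continuous s' → s 0 = 0 →
    (∀ x, 0 ≤ s' x ∧ s' x ≤ 1) → ∀ f, S.Test f →
    en (fun p => s (f p)) (fun p => s (f p)) +
      en (fun p => f p - s (f p)) (fun p => f p - s (f p)) ≤ en f f

end Pool.Agent.H210.Gr
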