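import Mathlib
import Pool.Agent.H210.Green.PDefs

/-! Task PATLAS of the proof of S05669: the Dirichlet form on an abstract translation surface. -/

set_option autoImplicit false

namespace Pool.Agent.H210.Gr

open Metric Set MeasureTheory Topology Filter
open scoped Laplacian ContDiff ENNReal


namespace PATLAS

/-! ### linear algebra -/

theorem lin_apply (L : ℂ →L[ℝ] ℝ) (z : ℂ) : L z = z.re * L 1 + z.im * L Complex.I := by
  have h : z = z.re • (1 : ℂ) + z.im • Complex.I := by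
    apply Complex.ext <;> simp
  conv_lhs => rw [h]
  rw [map_add, map_smul, map_smul, smul_eq_mul, smul_eq_mul]

theorem norm_sq_eq (L : ℂ →L[ℝ] ℝ) : ‖L‖ ^ 2 = L 1 * L 1 + L Complex.I * L Complex.I := by
  apply le_antisymm
  · have h : ‖L‖ ≤ Real.sqrt (L 1 * L 1 + L Complex.I * L Complex.I) := by
      refine L.opNorm_le_bound (Real.sqrt_nonneg _) ?_
      intro z
      rw [lin_apply L z, Real.norm_eq_abs]
      have h0 : (z.re * L 1 + z.im * L Complex.I) ^ 2 ≤
          (L 1 * L 1 + L Complex.I * L Complex.I) * ‖z‖ ^ 2 := by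
        rw [Complex.sq_norm, Complex.normSq_apply]
        nlinarith [sq_nonneg (z.re * L Complex.I - z.im * L 1)]
      refine (Real.abs_le_sqrt h0).trans_eq ?_
      rw [Real.sqrt_mul' _ (sq_nonneg _), Real.sqrt_sq (norm_nonneg _)]
    have h2 : ‖L‖ ^ 2 ≤ Real.sqrt (L 1 * L 1 + L Complex.I * L Complex.I) ^ 2 := by
      gcongr
    rwa [Real.sq_sqrt (add_nonneg (mul_self_nonneg _) (mul_self_nonneg _))] at h2
  · set z : ℂ := ⟨L 1, L Complex.I⟩ with hz
    have h1 : L z = L 1 * L 1 + L Complex.I * L Complex.I := by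
      rw [lin_apply L z]
    have h2 : ‖z‖ ^ 2 = L 1 * L 1 + L Complex.I * L Complex.I := by
      rw [Complex.sq_norm, Complex.normSq_apply]
    have h3 : |L z| ≤ ‖L‖ * ‖z‖ := L.le_opNorm z
    rw [h1, ← h2] at h3
    rw [← h2]
    have h4 : ‖z‖ ≤ ‖L‖ := by
      by_contra hcon
      push Not at hcon
      have h5 : 0 < ‖z‖ := lt_of_le_of_lt (norm_nonneg _) hcon
      rw [abs_of_nonneg (by positivity)] at h3
      nlinarith
    gcongr

theorem det_eq (D : ℂ) : |(D • (1 : ℂ →L[ℝ] ℂ)).det| = ‖D‖ ^ 2 := by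
  have h : (D • (1 : ℂ →L[ℝ] ℂ)).det = Complex.normSq D := by
    rw [← Algebra.norm_complex_apply, Algebra.norm_apply]
    rfl
  rw [h, Complex.normSq_eq_norm_sq, abs_of_nonneg (by positivity)]

theorem gradDot_self (f : ℂ → ℝ) (x : ℂ) : gradDot f f x = ‖fderiv ℝ f x‖ ^ 2 := by
  rw [norm_sq_eq]; rfl

theorem gradDot_nonneg (f : ℂ → ℝ) (x : ℂ) : 0 ≤ gradDot f f x := by
  rw [gradDot_self]; positivity

theorem gradDot_abs_le (f g : ℂ → ℝ) (x : ℂ) : |gradDot f g x| ≤ gradDot f f x + gradDot g g x := by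
  unfold gradDot
  rw [abs_le]
  constructor <;> nlinarith [sq_nonneg (fderiv ℝ f x 1 - fderiv ℝ g x 1),
    sq_nonneg (fderiv ℝ f x 1 + fderiv ℝ g x 1),
    sq_nonneg (fderiv ℝ f x Complex.I - fderiv ℝ g x Complex.I),
    sq_nonneg (fderiv ℝ f x Complex.I + fderiv ℝ g x Complex.I),
    sq_nonneg (fderiv ℝ f x 1), sq_nonneg (fderiv ℝ g x 1), sq_nonneg (fderiv ℝ f x Complex.I),
    sq_nonneg (fderiv ℝ g x Complex.I)]

theorem gradDot_comm (f g : ℂ → ℝ) (x : ℂ) : gradDot f g x = gradDot g f x := by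
  unfold gradDot; ring

variable {E : Type}

/-! ### local times with derivative -/

/-- `γ` is locally a flow curve, with derivative `D` of the time -/
def LocD (S : TSurf E) (γ : ℂ → E) (c : ℂ) (R : ℝ) (D : ℂ → ℂ) : Prop :=
  ∀ x ∈ ball c R, γ x ∈ S.L ∧ ∃ τ : ℂ → ℂ, HasDerivAt τ (D x) x ∧ τ x = 0 ∧
    ∀ᶠ x' in 𝓝 x, ‖τ x'‖ < S.rad (γ x) ∧ γ x' = S.flow (γ x) (τ x')

theorem exists_locD {S : TSurf E} {γ : ℂ → E} {c : ℂ} {R : ℝ} (h : S.Loc γ c R) :
    ∃ D, LocD S γ c R D := by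
  classical
  have h1 : ∀ x, ∃ d : ℂ, x ∈ ball c R → γ x ∈ S.L ∧ ∃ τ : ℂ → ℂ, HasDerivAt τ d x ∧ τ x = 0 ∧
      ∀ᶠ x' in 𝓝 x, ‖τ x'‖ < S.rad (γ x) ∧ γ x' = S.flow (γ x) (τ x') := by
    intro x
    by_cases hx : x ∈ ball c R
    · obtain ⟨h1, ε, hε, -, τ, hτ, h0, h2⟩ := h x hx
      refine ⟨deriv τ x, fun _ => ⟨h1, τ, ?_, h0, ?_⟩⟩
      · exact (hτ.differentiableAt (ball_mem_nhds x hε)).hasDerivAt
      · filter_upwards [ball_mem_nhds x hε] with y hy using h2 y hy
    · exact ⟨0, fun h => absurd h hx⟩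
  choose D hD using h1
  exact ⟨D, fun x hx => hD x hx⟩

theorem flow_locD (S : TSurf E) {q : E} (hq : q ∈ S.L) :
    LocD S (S.flow q) 0 (S.rad q) (fun _ => 1) := by
  intro x hx
  rw [mem_ball, dist_zero_right] at hx
  refine ⟨S.flow_mem q hq x hx, fun y => y - x, ?_, sub_self x, ?_⟩
  · simpa using (hasDerivAt_id x).sub_const x
  · have h0 : 0 < S.rad q - ‖x‖ := by linarith
    have h1 := S.rad_flow q hq x hx
    filter_upwards [ball_mem_nhds x h0] with y hy
    rw [mem_ball, dist_eq_norm] at hy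
    refine ⟨by linarith, ?_⟩
    rw [S.flow_add q hq x (y - x) (by linarith)]
    congr 1; ring

/-- pointwise Dirichlet product -/
noncomputable def G (S : TSurf E) (f g : E → ℝ) (p : E) : ℝ :=
  gradDot (fun t => f (S.flow p t)) (fun t => g (S.flow p t)) 0

theorem diff_zero {S : TSurf E} {f : E → ℝ} (hf : S.Test f) {p : E} (hp : p ∈ S.L) :
    DifferentiableAt ℝ (fun t => f (S.flow p t)) 0 :=
  ((hf.1 p hp).differentiableOn one_ne_zero).differentiableAt (ball_mem_nhds 0 (S.rad_pos p hp))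

theorem fderiv_comp {S : TSurf E} {γ : ℂ → E} {c : ℂ} {R : ℝ} {D : ℂ → ℂ} (h : LocD S γ c R D)
    {f : E → ℝ} (hf : S.Test f) {x : ℂ} (hx : x ∈ ball c R) :
    HasFDerivAt (fun x => f (γ x))
      ((fderiv ℝ (fun t => f (S.flow (γ x) t)) 0).comp (D x • (1 : ℂ →L[ℝ] ℂ))) x := by
  obtain ⟨h1, τ, hτ, h0, h2⟩ := h x hx
  have h3 := (diff_zero hf h1).hasFDerivAt
  have h3' : HasFDerivAt (fun t => f (S.flow (γ x) t))
      (fderiv ℝ (fun t => f (S.flow (γ x) t)) 0) (τ x) := by rw [h0]; exact h3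
  have h4 := h3'.comp x hτ.complexToReal_fderiv
  refine h4.congr_of_eventuallyEq ?_
  filter_upwards [h2] with y hy
  simp only [Function.comp_apply]
  rw [hy.2]

theorem gradDot_comp {S : TSurf E} {γ : ℂ → E} {c : ℂ} {R : ℝ} {D : ℂ → ℂ} (h : LocD S γ c R D)
    {f g : E → ℝ} (hf : S.Test f) (hg : S.Test g) {x : ℂ} (hx : x ∈ ball c R) :
    gradDot (fun x => f (γ x)) (fun x => g (γ x)) x = ‖D x‖ ^ 2 * G S f g (γ x) := by
  unfold G gradDot
  rw [(fderiv_comp h hf hx).fderiv, (fderiv_comp h hg hx).fderiv]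
  set Lf := fderiv ℝ (fun t => f (S.flow (γ x) t)) 0
  set Lg := fderiv ℝ (fun t => g (S.flow (γ x) t)) 0
  simp only [ContinuousLinearMap.comp_apply, smul_apply, one_apply_eq_self, smul_eq_mul, mul_one]
  rw [lin_apply Lf (D x), lin_apply Lg (D x), lin_apply Lf (D x * Complex.I),
    lin_apply Lg (D x * Complex.I), Complex.sq_norm, Complex.normSq_apply]
  simp only [Complex.mul_re, Complex.mul_im, Complex.I_re, Complex.I_im, mul_zero, mul_one,
    zero_sub, add_zero]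
  ring

/-! ### countable covering -/

/-- the points reached with dense times -/
noncomputable def ptL (S : TSurf E) (d : ℕ → ℂ) (q0 : E) : List ℕ → E
  | [] => q0
  | n :: l => by
      classical
      exact if ‖d n‖ < S.rad (ptL S d q0 l) then S.flow (ptL S d q0 l) (d n) else ptL S d q0 l

theorem ptL_mem (S : TSurf E) (d : ℕ → ℂ) {q0 : E} (hq0 : q0 ∈ S.L) (l : List ℕ) :
    ptL S d q0 l ∈ S.L := by
  induction l with
  | nil => exact hq0
  | cons n l ih =>
    rw [ptL]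
    split_ifs with h
    · exact S.flow_mem _ ih _ h
    · exact ih

theorem cover (S : TSurf E) (d : ℕ → ℂ) (hd : DenseRange d) {q0 : E} (hq0 : q0 ∈ S.L) {p : E}
    (hp : Relation.ReflTransGen (fun x y => ∃ t : ℂ, ‖t‖ < S.rad x ∧ y = S.flow x t) q0 p) :
    p ∈ S.L ∧ ∀ ε > 0, ε ≤ (1 : ℝ) / 2 → ∃ l : List ℕ, ∃ s : ℂ, ‖s‖ < ε * S.rad (ptL S d q0 l) ∧
      p = S.flow (ptL S d q0 l) s := by
  induction hp with
  | refl =>
    refine ⟨hq0, fun ε hε _ => ⟨[], 0, ?_, ?_⟩⟩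
    · rw [norm_zero, ptL]; exact mul_pos hε (S.rad_pos q0 hq0)
    · rw [ptL, S.flow_zero q0 hq0]
  | @tail p p' _ hstep ih =>
    obtain ⟨hp, ih⟩ := ih
    obtain ⟨t, ht, rfl⟩ := hstep
    refine ⟨S.flow_mem p hp t ht, fun ε hε hε2 => ?_⟩
    set m := S.rad p - ‖t‖ with hm
    have hm0 : 0 < m := by rw [hm]; linarith
    have hp1 := S.rad_le p hp
    have hm1 : m ≤ 1 := by rw [hm]; linarith [norm_nonneg t]
    obtain ⟨l, s, hs, hps⟩ := ih (m / 8) (by positivity) (by linarith)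
    set a := ptL S d q0 l with ha
    have haL : a ∈ S.L := ptL_mem S d hq0 l
    have ha1 := S.rad_le a haL
    have ha0 := S.rad_pos a haL
    have hsm : ‖s‖ < m / 8 := lt_of_lt_of_le hs (by nlinarith)
    have hs2 : ‖s‖ + ‖-s‖ < S.rad a := by
      rw [norm_neg]; nlinarith
    have hpa : S.flow p (-s) = a := by
      rw [hps, S.flow_add a haL s (-s) hs2, add_neg_cancel, S.flow_zero a haL]
    have hrp := S.rad_flow a haL s (by nlinarith)
    rw [← hps] at hrp
    have hsp : ‖-s‖ < S.rad p := by rw [norm_neg] at *; nlinarith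
    have hra := S.rad_flow p hp (-s) hsp
    rw [hpa, norm_neg] at hra
    have hst : ‖s‖ + ‖t‖ < S.rad a := by linarith
    have hp' : S.flow p t = S.flow a (s + t) := by
      rw [hps, S.flow_add a haL s t hst]
    have hδ : 0 < ε * (m / 8) := by positivity
    obtain ⟨n, hn⟩ := hd.exists_dist_lt (s + t) hδ
    rw [dist_eq_norm] at hn
    have hst2 : ‖s + t‖ ≤ ‖s‖ + ‖t‖ := norm_add_le s t
    have hdn : ‖d n‖ ≤ ‖s + t‖ + ‖s + t - d n‖ := by
      have := norm_sub_norm_le (d n) (s + t)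
      rw [norm_sub_rev] at this
      linarith
    have hδ2 : ε * (m / 8) ≤ m / 16 := by nlinarith
    have hdn2 : ‖d n‖ < S.rad a := by linarith
    have hcons : ptL S d q0 (n :: l) = S.flow a (d n) := by
      rw [ptL, ← ha, if_pos hdn2]
    have hra2 := S.rad_flow a haL (d n) hdn2
    refine ⟨n :: l, s + t - d n, ?_, ?_⟩
    · rw [hcons]
      have : m / 2 ≤ S.rad (S.flow a (d n)) := by linarith
      nlinarith
    · rw [hcons, hp', S.flow_add a haL (d n) (s + t - d n) (by linarith)]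
      congr 1; ring

theorem exists_centres (S : TSurf E) (hne : S.L.Nonempty) : ∃ c : ℕ → E, (∀ k, c k ∈ S.L) ∧
    ∀ p ∈ S.L, ∃ k, ∃ s : ℂ, ‖s‖ < S.rad (c k) ∧ S.flow (c k) s = p := by
  obtain ⟨q0, hq0⟩ := hne
  obtain ⟨e, he⟩ := exists_surjective_nat (List ℕ)
  refine ⟨fun k => ptL S (TopologicalSpace.denseSeq ℂ) q0 (e k), fun k => ptL_mem S _ hq0 _, ?_⟩
  intro p hp
  obtain ⟨-, h⟩ := cover S (TopologicalSpace.denseSeq ℂ) (TopologicalSpace.denseRange_denseSeq ℂ)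
    hq0 (S.conn q0 hq0 p hp)
  obtain ⟨l, s, hs, hps⟩ := h (1 / 2) (by norm_num) le_rfl
  obtain ⟨k, rfl⟩ := he l
  refine ⟨k, s, ?_, hps.symm⟩
  have := S.rad_pos _ (ptL_mem S (TopologicalSpace.denseSeq ℂ) hq0 (e k))
  linarith

/-! ### inverse of the flow -/

/-- `p` is in the chart at `q` -/
def In (S : TSurf E) (q p : E) : Prop := ∃ s : ℂ, ‖s‖ < S.rad q ∧ S.flow q s = p

open Classical in
/-- inverse of the flow -/
noncomputable def sel (S : TSurf E) (q p : E) : ℂ := if h : In S q p then h.choose else 0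

theorem sel_spec {S : TSurf E} {q p : E} (h : In S q p) :
    ‖sel S q p‖ < S.rad q ∧ S.flow q (sel S q p) = p := by
  rw [sel, dif_pos h]; exact h.choose_spec

theorem sel_eq {S : TSurf E} {q : E} (hq : q ∈ S.L) {s : ℂ} (hs : ‖s‖ < S.rad q) :
    sel S q (S.flow q s) = s := by
  have h := sel_spec (S := S) (q := q) (p := S.flow q s) ⟨s, hs, rfl⟩
  exact S.flow_inj q hq (by simpa using h.1) (by simpa using hs) h.2

theorem sel_local {S : TSurf E} {γ : ℂ → E} {c : ℂ} {R : ℝ} {D : ℂ → ℂ} (h : LocD S γ c R D)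
    {q : E} (hq : q ∈ S.L) {x : ℂ} (hx : x ∈ ball c R) (hx2 : In S q (γ x)) :
    (∀ᶠ x' in 𝓝 x, In S q (γ x')) ∧ HasDerivAt (fun x' => sel S q (γ x')) (D x) x := by
  obtain ⟨h1, τ, hτ, h0, h2⟩ := h x hx
  obtain ⟨hs1, hs2⟩ := sel_spec hx2
  set s0 := sel S q (γ x) with hs0
  have hc : ContinuousAt (fun y => ‖τ y‖) x := hτ.continuousAt.norm
  have h3 : ∀ᶠ y in 𝓝 x, ‖τ y‖ < S.rad q - ‖s0‖ := by
    refine hc.eventually (gt_mem_nhds ?_)
    change ‖τ x‖ < _
    rw [h0, norm_zero]; linarith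
  have h4 : ∀ᶠ y in 𝓝 x, ‖s0 + τ y‖ < S.rad q ∧ γ y = S.flow q (s0 + τ y) := by
    filter_upwards [h2, h3] with y hy1 hy2
    refine ⟨by linarith [norm_add_le s0 (τ y)], ?_⟩
    rw [hy1.2, ← hs2, S.flow_add q hq s0 (τ y) (by linarith)]
  refine ⟨h4.mono fun y hy => ⟨s0 + τ y, hy.1, hy.2.symm⟩, ?_⟩
  refine (hτ.const_add s0).congr_of_eventuallyEq ?_
  filter_upwards [h4] with y hy
  rw [hy.2, sel_eq hq hy.1]

/-- the part of the disc mapped to the chart at `q` -/
def W (S : TSurf E) (γ : ℂ → E) (c : ℂ) (R : ℝ) (q : E) : Set ℂ := {x | x ∈ ball c R ∧ In S q (γ x)}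

theorem isOpen_W {S : TSurf E} {γ : ℂ → E} {c : ℂ} {R : ℝ} {D : ℂ → ℂ} (h : LocD S γ c R D)
    {q : E} (hq : q ∈ S.L) : IsOpen (W S γ c R q) := by
  rw [isOpen_iff_mem_nhds]
  rintro x ⟨hx, hx2⟩
  filter_upwards [isOpen_ball.mem_nhds hx, (sel_local h hq hx hx2).1] with y hy1 hy2
  exact ⟨hy1, hy2⟩

/-- the pieces of the partition -/
def A (S : TSurf E) (c : ℕ → E) (k : ℕ) : Set ℂ :=
  {t | ‖t‖ < S.rad (c k) ∧ ∀ j < k, ¬ In S (c j) (S.flow (c k) t)}

theorem measurableSet_A (S : TSurf E) (c : ℕ → E) (hc : ∀ k, c k ∈ S.L) (k : ℕ) :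
    MeasurableSet (A S c k) := by
  have h : A S c k = ball 0 (S.rad (c k)) ∩
      ⋂ j, ⋂ (_ : j < k), (W S (S.flow (c k)) 0 (S.rad (c k)) (c j))ᶜ := by
    ext t
    simp only [A, W, mem_ofPred_eq, mem_inter_iff, mem_ball, dist_zero_right, mem_iInter,
      mem_compl_iff, not_and]
    constructor
    · exact fun h => ⟨h.1, fun j hj _ => h.2 j hj⟩
    · exact fun h => ⟨h.1, fun j hj => h.2 j hj h.1⟩
  rw [h]
  refine measurableSet_ball.inter (MeasurableSet.iInter fun j => MeasurableSet.iInter fun _ => ?_)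
  exact (isOpen_W (flow_locD S (hc k)) (hc j)).measurableSet.compl

/-- the measure on `ℕ × ℂ` -/
noncomputable def Lam : Measure (ℕ × ℂ) :=
  Measure.sum (fun k => (volume : Measure ℂ).map (Prod.mk k))

theorem lintegral_Lam {Y : Set (ℕ × ℂ)} (hY : MeasurableSet Y) (F : ℕ × ℂ → ℝ≥0∞) :
    ∫⁻ y in Y, F y ∂Lam = ∑' k, ∫⁻ t in {t | (k, t) ∈ Y}, F (k, t) := by
  rw [Lam, Measure.restrict_sum _ hY, lintegral_sum_measure]
  congr 1
  funext k
  rw [Measure.restrict_map measurable_prodMk_left hY,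
    (measurableEmbedding_prodMk_left k).lintegral_map]
  rfl

/-- a preimage under a map continuous on a measurable set -/
theorem measurable_pre {W : Set ℂ} (hW : MeasurableSet W) {f : ℂ → ℂ} (hf : ContinuousOn f W)
    {A : Set ℂ} (hA : MeasurableSet A) : MeasurableSet {x | x ∈ W ∧ f x ∈ A} := by
  classical
  have h := hf.measurable_piecewise (g := fun _ => (0 : ℂ)) continuousOn_const hW
  have h2 : {x | x ∈ W ∧ f x ∈ A} = W ∩ (W.piecewise f (fun _ => (0 : ℂ))) ⁻¹' A := by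
    ext x
    simp only [mem_ofPred_eq, mem_inter_iff, mem_preimage]
    constructor
    · rintro ⟨h1, h2⟩; exact ⟨h1, by rwa [piecewise_eq_of_mem _ _ _ h1]⟩
    · rintro ⟨h1, h2⟩; exact ⟨h1, by rwa [piecewise_eq_of_mem _ _ _ h1] at h2⟩
  rw [h2]
  exact hW.inter (h hA)

/-- the part of `ℕ × ℂ` over the image of `B` -/
def Y (S : TSurf E) (c : ℕ → E) (γ : ℂ → E) (B : Set ℂ) : Set (ℕ × ℂ) :=
  {y | y.2 ∈ A S c y.1 ∧ S.flow (c y.1) y.2 ∈ γ '' B}

/-- the total part -/
def T (S : TSurf E) (c : ℕ → E) : Set (ℕ × ℂ) := {y | y.2 ∈ A S c y.1}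

theorem measurableSet_T (S : TSurf E) (c : ℕ → E) (hc : ∀ k, c k ∈ S.L) :
    MeasurableSet (T S c) := by
  have h : T S c = ⋃ k : ℕ, ({k} : Set ℕ) ×ˢ A S c k := by
    ext ⟨k, t⟩
    simp [T]
  rw [h]
  exact MeasurableSet.iUnion fun k => (measurableSet_singleton k).prod (measurableSet_A S c hc k)

theorem part_unique {S : TSurf E} {c : ℕ → E} (hc : ∀ k, c k ∈ S.L) {k k' : ℕ} {t t' : ℂ}
    (ht : t ∈ A S c k) (ht' : t' ∈ A S c k') (h : S.flow (c k) t = S.flow (c k') t') :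
    k = k' ∧ t = t' := by
  rcases lt_trichotomy k k' with hk | hk | hk
  · exact absurd ⟨t, ht.1, h⟩ (ht'.2 k hk)
  · subst hk
    exact ⟨rfl, S.flow_inj _ (hc k) (by simpa using ht.1) (by simpa using ht'.1) h⟩
  · exact absurd ⟨t', ht'.1, h.symm⟩ (ht.2 k' hk)

theorem part_exists {S : TSurf E} {c : ℕ → E} (_hc : ∀ k, c k ∈ S.L)
    (hcov : ∀ p ∈ S.L, ∃ k, In S (c k) p) {p : E} (hp : p ∈ S.L) :
    ∃ k, sel S (c k) p ∈ A S c k ∧ In S (c k) p := by
  classical
  have h := hcov p hp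
  refine ⟨Nat.find h, ?_, Nat.find_spec h⟩
  obtain ⟨h1, h2⟩ := sel_spec (Nat.find_spec h)
  refine ⟨h1, fun j hj => ?_⟩
  rw [h2]
  exact Nat.find_min h hj

section Key

variable {S : TSurf E} {c : ℕ → E} (hc : ∀ k, c k ∈ S.L) (hcov : ∀ p ∈ S.L, ∃ k, In S (c k) p)
  {γ : ℂ → E} {c0 : ℂ} {R : ℝ} {D : ℂ → ℂ} (h : LocD S γ c0 R D) (hinj : InjOn γ (ball c0 R))
  {B : Set ℂ} (hB : MeasurableSet B) (hBs : B ⊆ ball c0 R)

/-- the part of `B` mapped in the `k`-th piece -/
def Bk (S : TSurf E) (c : ℕ → E) (γ : ℂ → E) (B : Set ℂ) (k : ℕ) : Set ℂ :=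
  {x | x ∈ B ∧ In S (c k) (γ x) ∧ sel S (c k) (γ x) ∈ A S c k}

include hc h hB hBs in
theorem measurableSet_Bk (k : ℕ) : MeasurableSet (Bk S c γ B k) := by
  have h1 : Bk S c γ B k = B ∩ {x | x ∈ W S γ c0 R (c k) ∧ sel S (c k) (γ x) ∈ A S c k} := by
    ext x
    simp only [Bk, W, mem_ofPred_eq, mem_inter_iff]
    constructor
    · rintro ⟨a1, a2, a3⟩; exact ⟨a1, ⟨hBs a1, a2⟩, a3⟩
    · rintro ⟨a1, ⟨_, a2⟩, a3⟩; exact ⟨a1, a2, a3⟩
  rw [h1]
  refine hB.inter (measurable_pre (isOpen_W h (hc k)).measurableSet ?_ (measurableSet_A S c hc k))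
  intro x hx
  exact (sel_local h (hc k) hx.1 hx.2).2.continuousAt.continuousWithinAt

include hc in
theorem image_Bk (k : ℕ) : (fun x => sel S (c k) (γ x)) '' Bk S c γ B k =
    {t | (k, t) ∈ Y S c γ B} := by
  ext t
  simp only [mem_image, Bk, Y, mem_ofPred_eq]
  constructor
  · rintro ⟨x, ⟨a1, a2, a3⟩, rfl⟩
    exact ⟨a3, x, a1, (sel_spec a2).2.symm⟩
  · rintro ⟨a1, x, a2, a3⟩
    refine ⟨x, ⟨a2, ⟨t, a1.1, a3.symm⟩, ?_⟩, ?_⟩
    · rw [a3, sel_eq (hc k) a1.1]; exact a1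
    · rw [a3, sel_eq (hc k) a1.1]

include hinj hBs in
theorem injOn_Bk (k : ℕ) : InjOn (fun x => sel S (c k) (γ x)) (Bk S c γ B k) := by
  rintro x ⟨a1, a2, a3⟩ y ⟨b1, b2, b3⟩ hxy
  apply hinj (hBs a1) (hBs b1)
  rw [← (sel_spec a2).2, ← (sel_spec b2).2]
  exact congrArg _ hxy

include hc h hBs in
theorem hasFDeriv_Bk (k : ℕ) : ∀ x ∈ Bk S c γ B k,
    HasFDerivWithinAt (fun x => sel S (c k) (γ x)) (D x • (1 : ℂ →L[ℝ] ℂ)) (Bk S c γ B k) x :=
  fun _ hx => (sel_local h (hc k) (hBs hx.1) hx.2.1).2.complexToReal_fderiv.hasFDerivWithinAt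

include hc h hinj hB hBs in
theorem measurableSet_Yk (k : ℕ) : MeasurableSet {t | (k, t) ∈ Y S c γ B} := by
  rw [← image_Bk hc k]
  exact measurable_image_of_fderivWithin (measurableSet_Bk hc h hB hBs k)
    (hasFDeriv_Bk hc h hBs k) (injOn_Bk hinj hBs k)

include hc h hinj hB hBs in
theorem measurableSet_Y : MeasurableSet (Y S c γ B) := by
  have h1 : Y S c γ B = ⋃ k : ℕ, ({k} : Set ℕ) ×ˢ {t | (k, t) ∈ Y S c γ B} := by
    ext ⟨k, t⟩
    simp
  rw [h1]
  exact MeasurableSet.iUnion fun k => (measurableSet_singleton k).prod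
    (measurableSet_Yk hc h hinj hB hBs k)

include hc hcov h hBs in
theorem iUnion_Bk : ⋃ k, Bk S c γ B k = B := by
  ext x
  simp only [mem_iUnion]
  constructor
  · rintro ⟨k, hk⟩; exact hk.1
  · intro hx
    obtain ⟨k, h1, h2⟩ := part_exists hc hcov (h x (hBs hx)).1
    exact ⟨k, hx, h2, h1⟩

include hc in
theorem disjoint_Bk : Pairwise (Function.onFun Disjoint (Bk S c γ B)) := by
  intro k k' hkk
  rw [Function.onFun, Set.disjoint_left]
  rintro x ⟨_, a2, a3⟩ ⟨_, b2, b3⟩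
  exact hkk (part_unique hc a3 b3 ((sel_spec a2).2.trans (sel_spec b2).2.symm)).1

include hc hcov h hinj hB hBs in
theorem key (F : E → ℝ≥0∞) : ∫⁻ y in Y S c γ B, F (S.flow (c y.1) y.2) ∂Lam =
    ∫⁻ x in B, ENNReal.ofReal (‖D x‖ ^ 2) * F (γ x) := by
  rw [lintegral_Lam (measurableSet_Y hc h hinj hB hBs)]
  conv_rhs => rw [← iUnion_Bk hc hcov h hBs,
    lintegral_iUnion (measurableSet_Bk hc h hB hBs) (disjoint_Bk hc)]
  congr 1
  funext k
  rw [← image_Bk hc k, lintegral_image_eq_lintegral_abs_det_fderiv_mul volume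
    (measurableSet_Bk hc h hB hBs k) (hasFDeriv_Bk hc h hBs k) (injOn_Bk hinj hBs k)]
  refine setLIntegral_congr_fun (measurableSet_Bk hc h hB hBs k) ?_
  intro x hx
  simp only
  rw [det_eq, (sel_spec hx.2.1).2]

end Key

/-! ### supports -/

theorem closed_image {S : TSurf E} {p q : E} (hp : p ∈ S.L) (hq : q ∈ S.L) {r : ℝ}
    (hr : r < S.rad q) (h : ∀ s : ℂ, ‖s‖ ≤ r → S.flow q s ≠ p) :
    ∀ᶠ t in 𝓝 (0 : ℂ), ∀ s : ℂ, ‖s‖ ≤ r → S.flow q s ≠ S.flow p t := by
  by_contra hcon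
  have key1 : ∀ δ > 0, ∃ t : ℂ, ‖t‖ < δ ∧ ∃ s : ℂ, ‖s‖ ≤ r ∧ S.flow q s = S.flow p t := by
    intro δ hδ
    by_contra h2
    push Not at h2
    apply hcon
    filter_upwards [ball_mem_nhds (0 : ℂ) hδ] with t ht
    rw [mem_ball, dist_zero_right] at ht
    exact h2 t ht
  have hp0 := S.rad_pos p hp
  have key2 : ∀ t s : ℂ, ‖t‖ < S.rad p / 2 → ‖t‖ < S.rad q - r → ‖s‖ ≤ r →
      S.flow q s = S.flow p t → ‖s - t‖ < S.rad q ∧ S.flow q (s - t) = p := by
    intro t s h1 h2 h3 h4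
    have h5 : ‖s - t‖ ≤ ‖s‖ + ‖t‖ := norm_sub_le s t
    refine ⟨by linarith, ?_⟩
    have h6 := S.flow_add p hp t (-t) (by rw [norm_neg]; linarith)
    rw [add_neg_cancel, S.flow_zero p hp, ← h4,
      S.flow_add q hq s (-t) (by rw [norm_neg]; linarith)] at h6
    rw [sub_eq_add_neg]; exact h6
  obtain ⟨t0, ht0, s0, hs0, h0⟩ := key1 (min (S.rad p / 2) (S.rad q - r))
    (lt_min (by linarith) (by linarith))
  obtain ⟨a1, a2⟩ := key2 t0 s0 (ht0.trans_le (min_le_left _ _)) (ht0.trans_le (min_le_right _ _))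
    hs0 h0
  have hgt : r < ‖s0 - t0‖ := by
    by_contra h2
    push Not at h2
    exact h _ h2 a2
  obtain ⟨t1, ht1, s1, hs1, h1⟩ := key1
    (min (min (S.rad p / 2) (S.rad q - r)) (‖s0 - t0‖ - r))
    (lt_min (lt_min (by linarith) (by linarith)) (by linarith))
  have ht1' := ht1.trans_le (min_le_left _ _)
  obtain ⟨b1, b2⟩ := key2 t1 s1 (ht1'.trans_le (min_le_left _ _))
    (ht1'.trans_le (min_le_right _ _)) hs1 h1
  have heq : s0 - t0 = s1 - t1 :=
    S.flow_inj q hq (by simpa using a1) (by simpa using b1) (a2.trans b2.symm)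
  have h3 := ht1.trans_le (min_le_right _ _)
  rw [heq] at h3
  linarith [norm_sub_le s1 t1]

theorem G_eq_zero {S : TSurf E} {f η : E → ℝ} {p : E}
    (h : ∀ᶠ t in 𝓝 (0 : ℂ), η (S.flow p t) = 0) : G S f η p = 0 := by
  unfold G gradDot
  have h1 : (fun t => η (S.flow p t)) =ᶠ[𝓝 (0 : ℂ)] fun _ => (0 : ℝ) := h
  rw [h1.fderiv_eq]
  simp

theorem G_comm (S : TSurf E) (f g : E → ℝ) (p : E) : G S f g p = G S g f p := gradDot_comm _ _ _

theorem G_nonneg (S : TSurf E) (f : E → ℝ) (p : E) : 0 ≤ G S f f p := gradDot_nonneg _ _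

theorem G_supp {S : TSurf E} {f η : E → ℝ} {q : E} (hq : q ∈ S.L) {r : ℝ} (hr : r < S.rad q)
    (h : ∀ p ∈ S.L, η p ≠ 0 → ∃ t : ℂ, ‖t‖ ≤ r ∧ p = S.flow q t) {p : E} (hp : p ∈ S.L)
    (hp2 : ∀ s : ℂ, ‖s‖ ≤ r → S.flow q s ≠ p) : G S f η p = 0 := by
  apply G_eq_zero
  filter_upwards [closed_image hp hq hr hp2, ball_mem_nhds (0 : ℂ) (S.rad_pos p hp)] with t ht ht2
  by_contra hne
  obtain ⟨s, hs1, hs2⟩ := h _ (S.flow_mem p hp t (by simpa using ht2)) hne
  exact ht s hs1 hs2.symm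

theorem G_supp' {S : TSurf E} {f η : E → ℝ} {F : Finset E} (hF : ∀ q ∈ F, q ∈ S.L)
    (h : ∀ p ∈ S.L, η p ≠ 0 → ∃ q ∈ F, ∃ t : ℂ, ‖t‖ ≤ S.rad q / 2 ∧ p = S.flow q t)
    {p : E} (hp : p ∈ S.L)
    (hp2 : ∀ q ∈ F, ∀ s : ℂ, ‖s‖ ≤ S.rad q / 2 → S.flow q s ≠ p) : G S f η p = 0 := by
  apply G_eq_zero
  have h1 : ∀ᶠ t in 𝓝 (0 : ℂ), ∀ q ∈ F, ∀ s : ℂ, ‖s‖ ≤ S.rad q / 2 →
      S.flow q s ≠ S.flow p t := by
    rw [Filter.eventually_all_finset]
    intro q hq
    exact closed_image hp (hF q hq) (by linarith [S.rad_pos q (hF q hq)]) (hp2 q hq)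
  filter_upwards [h1, ball_mem_nhds (0 : ℂ) (S.rad_pos p hp)] with t ht ht2
  by_contra hne
  obtain ⟨q, hq, s, hs1, hs2⟩ := h _ (S.flow_mem p hp t (by simpa using ht2)) hne
  exact ht q hq s hs1 hs2.symm

/-! ### measurability, integrability -/

theorem continuousOn_gradDot {f g : ℂ → ℝ} {s : Set ℂ} (hs : IsOpen s) (hf : ContDiffOn ℝ 1 f s)
    (hg : ContDiffOn ℝ 1 g s) : ContinuousOn (gradDot f g) s := by
  have h1 := hf.continuousOn_fderiv_of_isOpen hs le_rfl
  have h2 := hg.continuousOn_fderiv_of_isOpen hs le_rfl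
  unfold gradDot
  exact ((h1.clm_apply continuousOn_const).mul (h2.clm_apply continuousOn_const)).add
    ((h1.clm_apply continuousOn_const).mul (h2.clm_apply continuousOn_const))

theorem G_flow {S : TSurf E} {f g : E → ℝ} (hf : S.Test f) (hg : S.Test g) {q : E} (hq : q ∈ S.L)
    {t : ℂ} (ht : t ∈ ball (0 : ℂ) (S.rad q)) : G S f g (S.flow q t) =
      gradDot (fun t => f (S.flow q t)) (fun t => g (S.flow q t)) t := by
  rw [gradDot_comp (flow_locD S hq) hf hg ht]
  simp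

theorem continuousOn_G {S : TSurf E} {f g : E → ℝ} (hf : S.Test f) (hg : S.Test g) {q : E}
    (hq : q ∈ S.L) : ContinuousOn (fun t => G S f g (S.flow q t)) (ball (0 : ℂ) (S.rad q)) :=
  (continuousOn_gradDot isOpen_ball (hf.1 q hq) (hg.1 q hq)).congr fun _ ht => G_flow hf hg hq ht

section Fin

variable {S : TSurf E} {c : ℕ → E} (hc : ∀ k, c k ∈ S.L) (hcov : ∀ p ∈ S.L, ∃ k, In S (c k) p)

/-- the parametrization -/
def Φ (S : TSurf E) (c : ℕ → E) (y : ℕ × ℂ) : E := S.flow (c y.1) y.2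

include hc in
theorem Φ_mem {y : ℕ × ℂ} (hy : y ∈ T S c) : Φ S c y ∈ S.L := S.flow_mem _ (hc y.1) _ hy.1

include hc in
theorem aesm {f g : E → ℝ} (hf : S.Test f) (hg : S.Test g) :
    AEStronglyMeasurable (fun y => G S f g (Φ S c y)) (Lam.restrict (T S c)) := by
  have h : ContinuousOn (fun y => G S f g (Φ S c y)) (T S c) := by
    have h1 : ContinuousOn (fun y : ℕ × ℂ => G S f g (Φ S c y))
        {y : ℕ × ℂ | y.2 ∈ ball (0 : ℂ) (S.rad (c y.1))} := by
      rw [continuousOn_prod_of_discrete_left]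
      intro k
      exact continuousOn_G hf hg (hc k)
    exact h1.mono fun y hy => by simpa using hy.1
  exact h.aestronglyMeasurable (measurableSet_T S c hc)

include hc hcov in
theorem finite_energy {f : E → ℝ} (hf : S.Test f) :
    ∫⁻ y in T S c, ENNReal.ofReal (G S f f (Φ S c y)) ∂Lam < ⊤ := by
  classical
  obtain ⟨F, hF, hF2⟩ := hf.2
  set YY : F → Set (ℕ × ℂ) := fun q => Y S c (S.flow q.1) (closedBall 0 (S.rad q.1 / 2)) with hYY
  have hsub : ∀ q : F, closedBall (0 : ℂ) (S.rad q.1 / 2) ⊆ ball 0 (S.rad q.1) := fun q =>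
    closedBall_subset_ball (by linarith [S.rad_pos q.1 (hF q.1 q.2)])
  have hYm : ∀ q : F, MeasurableSet (YY q) := fun q =>
    measurableSet_Y hc (flow_locD S (hF q.1 q.2)) (S.flow_inj q.1 (hF q.1 q.2))
      measurableSet_closedBall (hsub q)
  have h1 : ∫⁻ y in T S c, ENNReal.ofReal (G S f f (Φ S c y)) ∂Lam ≤
      ∫⁻ y in ⋃ q, YY q, ENNReal.ofReal (G S f f (Φ S c y)) ∂Lam := by
    rw [← lintegral_indicator (measurableSet_T S c hc),
      ← lintegral_indicator (MeasurableSet.iUnion hYm)]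
    apply lintegral_mono
    intro y
    by_cases hy : y ∈ T S c
    · by_cases hy2 : y ∈ ⋃ q, YY q
      · rw [indicator_of_mem hy, indicator_of_mem hy2]
      · rw [indicator_of_mem hy]
        have h0 : G S f f (Φ S c y) = 0 := by
          apply G_supp' hF hF2 (Φ_mem hc hy)
          intro q hq s hs hs2
          apply hy2
          rw [mem_iUnion]
          refine ⟨⟨q, hq⟩, hy, s, ?_, hs2⟩
          simpa using hs
        rw [h0]; simp
    · rw [indicator_of_notMem hy]; exact bot_le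
  have h2 : ∫⁻ y in ⋃ q, YY q, ENNReal.ofReal (G S f f (Φ S c y)) ∂Lam ≤
      ∑' q, ∫⁻ y in YY q, ENNReal.ofReal (G S f f (Φ S c y)) ∂Lam := lintegral_iUnion_le _ _
  refine (h1.trans h2).trans_lt ?_
  rw [tsum_fintype]
  refine ENNReal.sum_lt_top.2 fun q _ => ?_
  have h3 := key hc hcov (flow_locD S (hF q.1 q.2)) (S.flow_inj q.1 (hF q.1 q.2))
      measurableSet_closedBall (hsub q) (fun p => ENNReal.ofReal (G S f f p))
  change ∫⁻ y in YY q, ENNReal.ofReal (G S f f (S.flow (c y.1) y.2)) ∂Lam < ⊤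
  rw [h3]
  simp only [norm_one, one_pow, ENNReal.ofReal_one, one_mul]
  have h4 : IntegrableOn (fun t => G S f f (S.flow q.1 t)) (closedBall (0 : ℂ) (S.rad q.1 / 2)) :=
    ((continuousOn_G hf hf (hF q.1 q.2)).mono (hsub q)).integrableOn_compact
      (isCompact_closedBall _ _)
  have h5 := h4.2
  rwa [hasFiniteIntegral_iff_ofReal (Eventually.of_forall fun t => G_nonneg S f _)] at h5

include hc hcov in
theorem integrable_self {f : E → ℝ} (hf : S.Test f) :
    IntegrableOn (fun y => G S f f (Φ S c y)) (T S c) Lam := by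
  refine ⟨aesm hc hf hf, ?_⟩
  rw [hasFiniteIntegral_iff_ofReal (Eventually.of_forall fun t => G_nonneg S f _)]
  exact finite_energy hc hcov hf

include hc hcov in
theorem integrable_G {f g : E → ℝ} (hf : S.Test f) (hg : S.Test g) :
    IntegrableOn (fun y => G S f g (Φ S c y)) (T S c) Lam := by
  refine Integrable.mono' ((integrable_self hc hcov hf).add (integrable_self hc hcov hg))
    (aesm hc hf hg) (Eventually.of_forall fun y => ?_)
  exact gradDot_abs_le _ _ _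

end Fin

/-! ### algebra of test functions -/

theorem G_add {S : TSurf E} {f g h : E → ℝ} (hf : S.Test f) (hg : S.Test g) {p : E}
    (hp : p ∈ S.L) : G S (fun p => f p + g p) h p = G S f h p + G S g h p := by
  unfold G gradDot
  have h1 : fderiv ℝ (fun t => f (S.flow p t) + g (S.flow p t)) 0 =
      fderiv ℝ (fun t => f (S.flow p t)) 0 + fderiv ℝ (fun t => g (S.flow p t)) 0 :=
    fderiv_fun_add (diff_zero hf hp) (diff_zero hg hp)
  rw [h1]
  simp only [add_apply]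
  ring

theorem G_smul {S : TSurf E} {f h : E → ℝ} (hf : S.Test f) (a : ℝ) {p : E}
    (hp : p ∈ S.L) : G S (fun p => a * f p) h p = a * G S f h p := by
  unfold G gradDot
  have h1 : fderiv ℝ (fun t => a * f (S.flow p t)) 0 =
      a • fderiv ℝ (fun t => f (S.flow p t)) 0 :=
    fderiv_const_mul (diff_zero hf hp) a
  rw [h1]
  simp only [smul_apply, smul_eq_mul]
  ring

theorem test_comp {S : TSurf E} {f : E → ℝ} (hf : S.Test f) {s : ℝ → ℝ} (hs : ContDiff ℝ 1 s)
    (hs0 : s 0 = 0) : S.Test (fun p => s (f p)) := by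
  obtain ⟨h1, F, hF, hF2⟩ := hf
  refine ⟨fun q hq => hs.comp_contDiffOn (h1 q hq), F, hF, fun p hp hne => hF2 p hp ?_⟩
  intro h0
  apply hne
  simp only [h0, hs0]

theorem G_comp {S : TSurf E} {f : E → ℝ} (hf : S.Test f) {s s' : ℝ → ℝ}
    (hs : ∀ x, HasDerivAt s (s' x) x) {p : E} (hp : p ∈ S.L) :
    G S (fun p => s (f p)) (fun p => s (f p)) p = s' (f p) ^ 2 * G S f f p := by
  unfold G gradDot
  have h1 : fderiv ℝ (fun t => s (f (S.flow p t))) 0 =
      s' (f p) • fderiv ℝ (fun t => f (S.flow p t)) 0 := by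
    have h2 := (hs (f (S.flow p 0))).comp_hasFDerivAt (0 : ℂ) (diff_zero hf hp).hasFDerivAt
    rw [S.flow_zero p hp] at h2
    exact h2.fderiv
  rw [h1]
  simp only [smul_apply, smul_eq_mul]
  ring

end PATLAS

open PATLAS

theorem exists_eform {E : Type} (S : TSurf E) (hne : S.L.Nonempty) : ∃ en, EForm S en := by
  classical
  obtain ⟨c, hc, hcov'⟩ := exists_centres S hne
  have hcov : ∀ p ∈ S.L, ∃ k, In S (c k) p := hcov'
  have hT := measurableSet_T S c hc
  refine ⟨fun f g => ∫ y in T S c, G S f g (Φ S c y) ∂Lam, ?_, ?_, ?_, ?_, ?_, ?_, ?_⟩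
  · intro f g _ _
    simp only [G_comm S f g]
  · intro f g h hf hg hh
    rw [← integral_add (integrable_G hc hcov hf hh) (integrable_G hc hcov hg hh)]
    exact setIntegral_congr_fun hT fun y hy => G_add hf hg (Φ_mem hc hy)
  · intro a f h hf hh
    rw [← integral_const_mul]
    exact setIntegral_congr_fun hT fun y hy => G_smul hf a (Φ_mem hc hy)
  · intro f _
    exact integral_nonneg fun y => G_nonneg S f _
  · -- bound
    intro f hf ι _ γ c0 R r hconf hdisj
    choose D hD using fun i => exists_locD (hconf i).1.2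
    have hsub : ∀ i, ball (c0 i) (r i) ⊆ ball (c0 i) (R i) := fun i =>
      ball_subset_ball (hconf i).2.2.le
    have hen : 0 ≤ ∫ y in T S c, G S f f (Φ S c y) ∂Lam :=
      integral_nonneg fun y => G_nonneg S f _
    have h1 : ∀ i, ENNReal.ofReal
        (∫ x in ball (c0 i) (r i), ‖fderiv ℝ (fun x => f (γ i x)) x‖ ^ 2) ≤
        ∫⁻ y in Y S c (γ i) (ball (c0 i) (r i)), ENNReal.ofReal (G S f f (Φ S c y)) ∂Lam := by
      intro i
      have h2 := key hc hcov (hD i) (hconf i).1.1 measurableSet_ball (hsub i)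
        (fun p => ENNReal.ofReal (G S f f p))
      refine le_trans ?_ h2.ge
      have h3 := enorm_integral_le_lintegral_enorm (μ := volume.restrict (ball (c0 i) (r i)))
        (fun x => ‖fderiv ℝ (fun x => f (γ i x)) x‖ ^ 2)
      rw [← ofReal_norm, Real.norm_of_nonneg (integral_nonneg fun x => by positivity)]
        at h3
      refine h3.trans (le_of_eq ?_)
      refine setLIntegral_congr_fun measurableSet_ball ?_
      intro x hx
      simp only
      rw [← ofReal_norm, Real.norm_of_nonneg (by positivity),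
        ← ENNReal.ofReal_mul (by positivity), ← gradDot_comp (hD i) hf hf (hsub i hx),
        gradDot_self]
    have hYm : ∀ i, MeasurableSet (Y S c (γ i) (ball (c0 i) (r i))) := fun i =>
      measurableSet_Y hc (hD i) (hconf i).1.1 measurableSet_ball (hsub i)
    have hYd : Pairwise (Function.onFun Disjoint
        (fun i => Y S c (γ i) (ball (c0 i) (r i)))) := by
      intro i j hij
      rw [Function.onFun, Set.disjoint_left]
      rintro y ⟨_, hy1⟩ ⟨_, hy2⟩
      exact Set.disjoint_left.1 (hdisj i j hij) hy1 hy2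
    have h4 : ENNReal.ofReal
        (∑ i, ∫ x in ball (c0 i) (r i), ‖fderiv ℝ (fun x => f (γ i x)) x‖ ^ 2) ≤
        ENNReal.ofReal (∫ y in T S c, G S f f (Φ S c y) ∂Lam) := by
      rw [ENNReal.ofReal_sum_of_nonneg (fun i _ => integral_nonneg fun x => by positivity)]
      refine (Finset.sum_le_sum fun i _ => h1 i).trans ?_
      rw [← tsum_fintype (L := .unconditional _), ← lintegral_iUnion hYm hYd,
        ofReal_integral_eq_lintegral_ofReal (integrable_self hc hcov hf)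
          (Eventually.of_forall fun y => G_nonneg S f _)]
      refine lintegral_mono_set ?_
      exact iUnion_subset fun i y hy => hy.1
    exact (ENNReal.ofReal_le_ofReal_iff hen).1 h4
  · -- loc
    intro f η hf hη q hq r hr hrq hsupp
    have hl := flow_locD S hq
    have hinj := S.flow_inj q hq
    have hYm : MeasurableSet (Y S c (S.flow q) (ball 0 (S.rad q))) :=
      measurableSet_Y hc hl hinj measurableSet_ball Subset.rfl
    have hYT : Y S c (S.flow q) (ball 0 (S.rad q)) ⊆ T S c := fun y hy => hy.1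
    have hint := integrable_G hc hcov hf hη
    have e1 : ∫ y in T S c, G S f η (Φ S c y) ∂Lam =
        ∫ y in Y S c (S.flow q) (ball 0 (S.rad q)), G S f η (Φ S c y) ∂Lam := by
      refine setIntegral_eq_of_subset_of_forall_sdiff_eq_zero hT hYT ?_
      rintro y ⟨hy1, hy2⟩
      refine G_supp hq hrq hsupp (Φ_mem hc hy1) ?_
      intro s hs hs2
      exact hy2 ⟨hy1, s, by simpa using hs.trans_lt hrq, hs2⟩
    have e2 : ∫ t in ball (0 : ℂ) (S.rad q),
        gradDot (fun t => f (S.flow q t)) (fun t => η (S.flow q t)) t =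
        ∫ t in ball (0 : ℂ) (S.rad q), G S f η (S.flow q t) :=
      setIntegral_congr_fun measurableSet_ball fun t ht => (G_flow hf hη hq ht).symm
    have k : ∀ F : E → ℝ≥0∞, ∫⁻ y in Y S c (S.flow q) (ball 0 (S.rad q)), F (Φ S c y) ∂Lam =
        ∫⁻ x in ball (0 : ℂ) (S.rad q), F (S.flow q x) := by
      intro F
      have h1 := key hc hcov hl hinj measurableSet_ball Subset.rfl F
      simpa only [norm_one, one_pow, ENNReal.ofReal_one, one_mul] using! h1
    have hint1 : IntegrableOn (fun y => G S f η (Φ S c y))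
        (Y S c (S.flow q) (ball 0 (S.rad q))) Lam := hint.mono_set hYT
    have hint2 : IntegrableOn (fun t => G S f η (S.flow q t)) (ball (0 : ℂ) (S.rad q)) := by
      refine ⟨(continuousOn_G hf hη hq).aestronglyMeasurable measurableSet_ball, ?_⟩
      have h1 := hint1.2
      rw [hasFiniteIntegral_iff_norm] at h1 ⊢
      rwa [k (fun p => ENNReal.ofReal ‖G S f η p‖)] at h1
    rw [e1, e2, integral_eq_lintegral_pos_part_sub_lintegral_neg_part hint1,
      integral_eq_lintegral_pos_part_sub_lintegral_neg_part hint2,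
      k (fun p => ENNReal.ofReal (G S f η p)), k (fun p => ENNReal.ofReal (-G S f η p))]
  · -- trunc
    intro s s' hs hs' hs0 hs1 f hf
    have hder : deriv s = s' := funext fun x => (hs x).deriv
    have hsC : ContDiff ℝ 1 s := by
      rw [contDiff_one_iff_deriv]
      exact ⟨fun x => (hs x).differentiableAt, by rwa [hder]⟩
    have ht1 := test_comp hf hsC hs0
    have ht2 : S.Test (fun p => f p - s (f p)) :=
      test_comp hf (s := fun x => x - s x) (contDiff_id.sub hsC) (by simp [hs0])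
    rw [← integral_add (integrable_G hc hcov ht1 ht1) (integrable_G hc hcov ht2 ht2)]
    refine setIntegral_mono_on ((integrable_G hc hcov ht1 ht1).add
      (integrable_G hc hcov ht2 ht2)) (integrable_G hc hcov hf hf) hT ?_
    intro y hy
    have hp := Φ_mem hc hy
    rw [G_comp hf hs hp]
    have h3 := G_comp hf (s := fun x => x - s x) (s' := fun x => 1 - s' x)
      (fun x => (hasDerivAt_id x).sub (hs x)) hp
    rw [h3]
    have h4 := G_nonneg S f (Φ S c y)
    obtain ⟨h5, h6⟩ := hs1 (f (Φ S c y))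
    nlinarith [mul_nonneg h5 (sub_nonneg.2 h6)]

end Pool.Agent.H210.Gr
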