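import Mathlib
import Pool.Agent.H210.Green.PDefs
import Pool.Graph.R_seed8.Helper546.Weyl

set_option autoImplicit false

namespace Pool.Agent.H210.Gr

open Metric Set MeasureTheory Topology Filter
open scoped Laplacian ContDiff

namespace PLOCAL

/-! ### Poincaré inequality on convex sets of the plane -/

section

open scoped ENNReal

theorem lintegral_affine {a : ℝ} (ha : 0 < a) (c : ℂ)
    {g : ℂ → ℝ≥0∞} (hg : Measurable g) :
    ∫⁻ y, g (a • y + c) = ENNReal.ofReal ((a ^ 2)⁻¹) * ∫⁻ y, g y := by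
  have h1 : ∫⁻ y, g (a • y + c) = ∫⁻ z, g (z + c) ∂(Measure.map (fun y => a • y) volume) :=
    (lintegral_map (f := fun z => g (z + c)) (hg.comp (measurable_add_const c))
      (measurable_const_smul a)).symm
  rw [h1]
  have h2 := Measure.map_addHaar_smul (volume : Measure ℂ) ha.ne'
  have h3 : Measure.map (fun y : ℂ => a • y) volume =
      ENNReal.ofReal ((a ^ 2)⁻¹) • volume := by
    rw [h2, Complex.finrank_real_complex, abs_of_pos (by positivity)]
  rw [h3, lintegral_smul_measure, lintegral_add_right_eq_self]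
  rfl

theorem lintegral_contract {D : Set ℂ} (hD : Convex ℝ D)
    (hm : MeasurableSet D) {x : ℂ} (hx : x ∈ D) {a : ℝ} (ha : 1 / 2 ≤ a)
    (ha1 : a ≤ 1) {g : ℂ → ℝ≥0∞} (hg : Measurable g) :
    ∫⁻ y in D, g (a • y + (1 - a) • x) ≤ ENNReal.ofReal (2 ^ 2) * ∫⁻ y in D, g y := by
  have ha0 : 0 < a := by linarith
  calc ∫⁻ y in D, g (a • y + (1 - a) • x) = ∫⁻ y in D, D.indicator g (a • y + (1 - a) • x) := by
        apply setLIntegral_congr_fun hm
        intro y hy
        have : a • y + (1 - a) • x ∈ D := hD hy hx ha0.le (by linarith) (by ring)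
        show _ = D.indicator g (a • y + (1 - a) • x)
        rw [indicator_of_mem this]
    _ ≤ ∫⁻ y, D.indicator g (a • y + (1 - a) • x) := setLIntegral_le_lintegral _ _
    _ = ENNReal.ofReal ((a ^ 2)⁻¹) * ∫⁻ y, D.indicator g y := lintegral_affine ha0 _
        (hg.indicator hm)
    _ ≤ ENNReal.ofReal (2 ^ 2) * ∫⁻ y in D, g y := by
        rw [lintegral_indicator hm]
        gcongr
        rw [← inv_pow]
        have : a⁻¹ ≤ 2 := by
          rw [inv_le_comm₀ ha0 (by norm_num)]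
          linarith
        exact pow_le_pow_left₀ (by positivity) this 2

theorem sq_diff_le {w : ℂ → ℝ} (hw : ContDiff ℝ 1 w) {h : ℝ}
    {x y : ℂ} (hxy : ‖x - y‖ ≤ h) :
    ENNReal.ofReal ((w x - w y) ^ 2) ≤ ∫⁻ t in Icc (0 : ℝ) 1,
      ENNReal.ofReal (h ^ 2 * ‖fderiv ℝ w (t • x + (1 - t) • y)‖ ^ 2) := by
  have hcg : Continuous (fderiv ℝ w) := hw.continuous_fderiv (by norm_num)
  have hh : 0 ≤ h := (norm_nonneg _).trans hxy
  set f : ℝ → ℝ := fun t => fderiv ℝ w (t • x + (1 - t) • y) (x - y) with hf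
  have hfc : Continuous f := by
    exact (hcg.comp (by fun_prop)).clm_apply continuous_const
  have hder : ∀ t : ℝ, HasDerivAt (fun t : ℝ => w (t • x + (1 - t) • y)) (f t) t := by
    intro t
    have h1 : HasDerivAt (fun t : ℝ => t • x + (1 - t) • y) (x - y) t := by
      have h2 : HasDerivAt (fun t : ℝ => t • x) x t := by
        simpa using (hasDerivAt_id t).smul_const x
      have h3 : HasDerivAt (fun t : ℝ => (1 - t) • y) (-y) t := by
        have := ((hasDerivAt_id t).const_sub 1).smul_const y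
        simpa using this
      have := h2.add h3
      rw [← sub_eq_add_neg] at this
      exact this
    exact ((hw.differentiable (by norm_num)) _).hasFDerivAt.comp_hasDerivAt t h1
  have hFTC : ∫ t in (0 : ℝ)..1, f t = w x - w y := by
    rw [intervalIntegral.integral_eq_sub_of_hasDerivAt (fun t _ => hder t)
      (hfc.intervalIntegrable 0 1)]
    simp
  have hCS : (w x - w y) ^ 2 ≤ ∫ t in (0 : ℝ)..1, f t ^ 2 := by
    have h1 : 0 ≤ ∫ t in (0 : ℝ)..1, (f t - (w x - w y)) ^ 2 :=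
      intervalIntegral.integral_nonneg (by norm_num) fun t _ => sq_nonneg _
    have h2 : ∫ t in (0 : ℝ)..1, (f t - (w x - w y)) ^ 2 =
        (∫ t in (0 : ℝ)..1, f t ^ 2) - (w x - w y) ^ 2 := by
      have e : ∀ t, (f t - (w x - w y)) ^ 2 = f t ^ 2 - 2 * (w x - w y) * f t +
          (w x - w y) ^ 2 := fun t => by ring
      simp only [e]
      rw [intervalIntegral.integral_add, intervalIntegral.integral_sub,
        intervalIntegral.integral_const_mul, hFTC, intervalIntegral.integral_const]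
      · simp
        ring
      · exact (hfc.pow 2).intervalIntegrable 0 1
      · exact (hfc.const_mul _).intervalIntegrable 0 1
      · exact ((hfc.pow 2).sub (hfc.const_mul _)).intervalIntegrable 0 1
      · exact continuous_const.intervalIntegrable 0 1
    linarith
  have hle : ∀ t, f t ^ 2 ≤ h ^ 2 * ‖fderiv ℝ w (t • x + (1 - t) • y)‖ ^ 2 := by
    intro t
    have h1 : |f t| ≤ ‖fderiv ℝ w (t • x + (1 - t) • y)‖ * h := by
      have h2 := (fderiv ℝ w (t • x + (1 - t) • y)).le_opNorm (x - y)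
      exact h2.trans (mul_le_mul_of_nonneg_left hxy (norm_nonneg _))
    calc f t ^ 2 = |f t| ^ 2 := (sq_abs _).symm
      _ ≤ (‖fderiv ℝ w (t • x + (1 - t) • y)‖ * h) ^ 2 := pow_le_pow_left₀ (abs_nonneg _) h1 2
      _ = _ := by ring
  have hgc : Continuous fun t : ℝ => h ^ 2 * ‖fderiv ℝ w (t • x + (1 - t) • y)‖ ^ 2 := by
    fun_prop
  have h5 : ∫ t in (0 : ℝ)..1, f t ^ 2 ≤
      ∫ t in (0 : ℝ)..1, h ^ 2 * ‖fderiv ℝ w (t • x + (1 - t) • y)‖ ^ 2 :=
    intervalIntegral.integral_mono (by norm_num) ((hfc.pow 2).intervalIntegrable 0 1)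
      (hgc.intervalIntegrable 0 1) hle
  rw [← ofReal_integral_eq_lintegral_ofReal]
  · apply ENNReal.ofReal_le_ofReal
    rw [integral_Icc_eq_integral_Ioc, ← intervalIntegral.integral_of_le (by norm_num)]
    exact hCS.trans h5
  · exact hgc.integrableOn_Icc
  · exact Eventually.of_forall fun t => by positivity

theorem poincare_double {D : Set ℂ} (hD : Convex ℝ D)
    (hm : MeasurableSet D) {h : ℝ} (hdiam : ∀ x ∈ D, ∀ y ∈ D, ‖x - y‖ ≤ h)
    {w : ℂ → ℝ} (hw : ContDiff ℝ 1 w) :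
    ∫⁻ x in D, ∫⁻ y in D, ENNReal.ofReal ((w x - w y) ^ 2) ≤
      volume D * (ENNReal.ofReal (2 ^ 2) *
        ∫⁻ x in D, ENNReal.ofReal (h ^ 2 * ‖fderiv ℝ w x‖ ^ 2)) := by
  have hcg : Continuous (fderiv ℝ w) := hw.continuous_fderiv (by norm_num)
  set g : ℂ → ℝ≥0∞ :=
    fun z => ENNReal.ofReal (h ^ 2 * ‖fderiv ℝ w z‖ ^ 2) with hg
  have hgm : Measurable g := by
    have : Continuous fun z => h ^ 2 * ‖fderiv ℝ w z‖ ^ 2 := by fun_prop
    exact this.measurable.ennreal_ofReal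
  calc ∫⁻ x in D, ∫⁻ y in D, ENNReal.ofReal ((w x - w y) ^ 2)
      ≤ ∫⁻ x in D, ∫⁻ y in D, ∫⁻ t in Icc (0 : ℝ) 1, g (t • x + (1 - t) • y) := by
        refine setLIntegral_mono' hm fun x hx => ?_
        refine setLIntegral_mono' hm fun y hy => ?_
        exact sq_diff_le hw (hdiam x hx y hy)
    _ = ∫⁻ x in D, ∫⁻ t in Icc (0 : ℝ) 1, ∫⁻ y in D, g (t • x + (1 - t) • y) := by
        refine setLIntegral_congr_fun hm fun x _ => ?_
        refine lintegral_lintegral_swap ?_
        have : Measurable fun p : ℂ × ℝ => g (p.2 • x + (1 - p.2) • p.1) :=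
          hgm.comp (by fun_prop)
        exact this.aemeasurable
    _ = ∫⁻ t in Icc (0 : ℝ) 1, ∫⁻ x in D, ∫⁻ y in D, g (t • x + (1 - t) • y) := by
        refine lintegral_lintegral_swap ?_
        have h1 : Measurable fun p : (ℂ × ℝ) × ℂ =>
            g (p.1.2 • p.1.1 + (1 - p.1.2) • p.2) := hgm.comp (by fun_prop)
        exact (h1.lintegral_prod_right' (ν := volume.restrict D)).aemeasurable
    _ ≤ ∫⁻ t in Icc (0 : ℝ) 1, volume D * (ENNReal.ofReal (2 ^ 2) * ∫⁻ x in D, g x) := by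
        refine setLIntegral_mono' measurableSet_Icc fun t ht => ?_
        rcases le_total t (1 / 2) with htt | htt
        · calc ∫⁻ x in D, ∫⁻ y in D, g (t • x + (1 - t) • y)
              ≤ ∫⁻ x in D, ENNReal.ofReal (2 ^ 2) * ∫⁻ y in D, g y := by
                refine setLIntegral_mono' hm fun x hx => ?_
                have := lintegral_contract hD hm hx (a := 1 - t) (by linarith)
                  (by linarith [ht.1]) hgm
                refine (le_of_eq ?_).trans this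
                congr 1
                ext y
                congr 1
                rw [sub_sub_cancel, add_comm]
            _ = volume D * (ENNReal.ofReal (2 ^ 2) * ∫⁻ x in D, g x) := by
                rw [setLIntegral_const, mul_comm]
        · have hsw : ∫⁻ x in D, ∫⁻ y in D, g (t • x + (1 - t) • y) =
              ∫⁻ y in D, ∫⁻ x in D, g (t • x + (1 - t) • y) := by
            refine lintegral_lintegral_swap ?_
            have h1 : Measurable fun p : ℂ × ℂ =>
              g (t • p.1 + (1 - t) • p.2) := hgm.comp (by fun_prop)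
            exact h1.aemeasurable
          rw [hsw]
          calc ∫⁻ y in D, ∫⁻ x in D, g (t • x + (1 - t) • y)
              ≤ ∫⁻ y in D, ENNReal.ofReal (2 ^ 2) * ∫⁻ x in D, g x := by
                refine setLIntegral_mono' hm fun y hy => ?_
                exact lintegral_contract hD hm hy htt ht.2 hgm
            _ = volume D * (ENNReal.ofReal (2 ^ 2) * ∫⁻ x in D, g x) := by
                rw [setLIntegral_const, mul_comm]
    _ = volume D * (ENNReal.ofReal (2 ^ 2) * ∫⁻ x in D, g x) := by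
        rw [setLIntegral_const, Real.volume_Icc]
        simp

end

/-! ### Weyl's lemma on `ℂ` -/

open Pool.Agent.Helper546 (V dd ee lap Tst Helm)

theorem two_le : (2 : WithTop ℕ∞) ≤ ∞ := by norm_cast

/-- the isometry of the two models of the plane -/
noncomputable def isoV : ℂ ≃ₗᵢ[ℝ] V := Complex.orthonormalBasisOneI.repr

theorem isoV_one : isoV 1 = ee 0 := by
  ext i
  have := Complex.orthonormalBasisOneI_repr_apply 1
  fin_cases i <;> simp [isoV, this, ee]

theorem isoV_I : isoV Complex.I = ee 1 := by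
  ext i
  have := Complex.orthonormalBasisOneI_repr_apply Complex.I
  fin_cases i <;> simp [isoV, this, ee]

theorem laplacian_eq (f : ℂ → ℝ) (x : ℂ) :
    Δ f x = fderiv ℝ (fderiv ℝ f) x 1 1 + fderiv ℝ (fderiv ℝ f) x Complex.I Complex.I := by
  rw [InnerProductSpace.laplacian_eq_iteratedFDeriv_complexPlane]
  simp [iteratedFDeriv_two_apply]

theorem lap_eq {f : V → ℝ} {x : V} (hf : ContDiffAt ℝ 2 f x) :
    lap f x = fderiv ℝ (fderiv ℝ f) x (ee 0) (ee 0) + fderiv ℝ (fderiv ℝ f) x (ee 1) (ee 1) := by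
  have h := Pool.Agent.Helper546.iteratedFDeriv_two_eq hf
  have h0 := h 0
  have h1 := h 1
  rw [iteratedFDeriv_two_apply] at h0 h1
  rw [lap, ← h0, ← h1]
  rfl

theorem laplacian_comp_isoV {f : V → ℝ} {x : ℂ} (hf : ContDiffAt ℝ 2 f (isoV x)) :
    Δ (fun z => f (isoV z)) x = lap f (isoV x) := by
  rw [laplacian_eq, lap_eq hf]
  have h1 : fderiv ℝ (fun z => f (isoV z)) =
      fun z => (fderiv ℝ f (isoV z)).comp (isoV.toContinuousLinearEquiv : ℂ →L[ℝ] V) := by
    funext z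
    exact isoV.toContinuousLinearEquiv.comp_right_fderiv (f := f) (x := z)
  have h2 : ∀ a b : ℂ, fderiv ℝ (fderiv ℝ (fun z => f (isoV z))) x a b =
      fderiv ℝ (fderiv ℝ f) (isoV x) (isoV a) (isoV b) := by
    intro a b
    have hd : DifferentiableAt ℝ (fderiv ℝ f) (isoV x) :=
      (hf.fderiv_right (m := 1) (by norm_num)).differentiableAt (by norm_num)
    have hd2 : HasFDerivAt (fun z => fderiv ℝ f (isoV z))
        ((fderiv ℝ (fderiv ℝ f) (isoV x)).comp (isoV.toContinuousLinearEquiv : ℂ →L[ℝ] V)) x :=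
      hd.hasFDerivAt.comp x (isoV.toContinuousLinearEquiv : ℂ →L[ℝ] V).hasFDerivAt
    rw [h1]
    have h3 := hd2.clm_comp (hasFDerivAt_const (isoV.toContinuousLinearEquiv : ℂ →L[ℝ] V) x)
    rw [h3.fderiv]
    simp
  rw [h2, h2, isoV_one, isoV_I]

theorem weylC {Ω : Set ℂ} (hΩ : IsOpen Ω) {u : ℂ → ℝ} (hu : MemLp u 2)
    (hw : ∀ ψ : ℂ → ℝ, ContDiff ℝ ∞ ψ → HasCompactSupport ψ → tsupport ψ ⊆ Ω →
      ∫ x, u x * Δ ψ x = 0) :
    ∃ v : ℂ → ℝ, ContDiffOn ℝ ∞ v Ω ∧ (∀ᵐ x, x ∈ Ω → v x = u x) ∧ ∀ x ∈ Ω, Δ v x = 0 := by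
  have hmp : MeasurePreserving isoV := isoV.measurePreserving
  have hmp' : MeasurePreserving isoV.symm := isoV.symm.measurePreserving
  set Ω' : Set V := isoV.symm ⁻¹' Ω with hΩ'
  have hΩo : IsOpen Ω' := hΩ.preimage isoV.symm.continuous
  have hu' : MemLp (fun y => u (isoV.symm y)) 2 := hu.comp_measurePreserving hmp'
  have key : ∀ ψ, Tst Ω' ψ → ∫ x, u (isoV.symm x) * (lap ψ x + 0 * ψ x) = 0 := by
    intro ψ hψ
    have h1 := hw (fun z => ψ (isoV z)) (hψ.1.comp isoV.toContinuousLinearEquiv.contDiff)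
      (hψ.2.1.comp_homeomorph isoV.toHomeomorph) (by
        have : tsupport (fun z => ψ (isoV z)) ⊆ isoV ⁻¹' (tsupport ψ) := by
          refine closure_minimal (fun z hz => ?_) ((isClosed_tsupport ψ).preimage isoV.continuous)
          exact subset_tsupport _ hz
        intro z hz
        have := hψ.2.2 (this hz)
        simpa [hΩ'] using this)
    have h2 : ∫ x, u (isoV.symm x) * (lap ψ x + 0 * ψ x) =
        ∫ z, u z * lap ψ (isoV z) := by
      have := hmp.integral_comp isoV.toHomeomorph.measurableEmbedding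
        (fun x => u (isoV.symm x) * (lap ψ x + 0 * ψ x))
      rw [← this]
      congr 1
      funext z
      simp
    rw [h2, ← h1]
    congr 1
    funext z
    rw [laplacian_comp_isoV (hψ.1.contDiffAt.of_le two_le)]
  obtain ⟨v, hv1, hv2, hv3, -⟩ := Pool.Agent.Helper546.weyl hΩo le_rfl hu' key
  refine ⟨fun z => v (isoV z), ?_, ?_, ?_⟩
  · exact hv1.comp isoV.toContinuousLinearEquiv.contDiff.contDiffOn (fun z hz => by simpa [hΩ'])
  · have := hmp.quasiMeasurePreserving.ae hv2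
    filter_upwards [this] with z hz hzΩ
    have := hz (by simpa [hΩ'])
    simpa using this
  · intro z hz
    have hz' : isoV z ∈ Ω' := by simpa [hΩ']
    rw [laplacian_comp_isoV ((hv1.contDiffAt (hΩo.mem_nhds hz')).of_le two_le)]
    have := hv3 _ hz'
    simpa using this


/-! ### Cut-off -/

theorem cutoff {f : ℂ → ℝ} {ρ R : ℝ} (hρ : 0 < ρ) (hρR : ρ < R)
    (hf : ContDiffOn ℝ 1 f (ball 0 R)) :
    ∃ F : ℂ → ℝ, ContDiff ℝ 1 F ∧ HasCompactSupport F ∧ ∀ x ∈ ball (0 : ℂ) ρ, F x = f x := by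
  set χ : ContDiffBump (0 : ℂ) := ⟨ρ, (ρ + R) / 2, hρ, by linarith⟩ with hχ
  have hts : tsupport χ = closedBall 0 ((ρ + R) / 2) := χ.tsupport_eq
  refine ⟨fun x => χ x * f x, ?_, χ.hasCompactSupport.mul_right, ?_⟩
  · rw [contDiff_iff_contDiffAt]
    intro x
    by_cases hx : x ∈ ball (0 : ℂ) R
    · exact χ.contDiff.contDiffAt.mul (hf.contDiffAt (isOpen_ball.mem_nhds hx))
    · have hx' : x ∉ tsupport χ := by
        rw [hts]
        intro h
        apply hx
        rw [mem_closedBall] at h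
        rw [mem_ball]
        linarith
      have : (fun x => χ x * f x) =ᶠ[𝓝 x] fun _ => 0 := by
        filter_upwards [(isClosed_tsupport χ).isOpen_compl.mem_nhds hx'] with y hy
        rw [image_eq_zero_of_notMem_tsupport hy, zero_mul]
      exact contDiffAt_const.congr_of_eventuallyEq this
  · intro x hx
    have : χ x = 1 := χ.one_of_mem_closedBall (ball_subset_closedBall hx)
    simp [this]

theorem fderiv_eq_of_eq {f F : ℂ → ℝ} {ρ : ℝ} (h : ∀ x ∈ ball (0 : ℂ) ρ, F x = f x) :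
    ∀ x ∈ ball (0 : ℂ) ρ, fderiv ℝ F x = fderiv ℝ f x := by
  intro x hx
  apply Filter.EventuallyEq.fderiv_eq
  filter_upwards [isOpen_ball.mem_nhds hx] with y hy using h y hy

/-! ### The key estimate -/

theorem intOn {F : ℂ → ℝ} (hF : Continuous F) (ρ : ℝ) : IntegrableOn F (ball (0 : ℂ) ρ) :=
  (hF.continuousOn.integrableOn_compact (isCompact_closedBall 0 ρ)).mono_set
    ball_subset_closedBall

/-- area of the disc -/
noncomputable def ar (ρ : ℝ) : ℝ := (volume (ball (0 : ℂ) ρ)).toReal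

theorem ar_pos {ρ : ℝ} (hρ : 0 < ρ) : 0 < ar ρ :=
  ENNReal.toReal_pos (measure_ball_pos _ _ hρ).ne' measure_ball_lt_top.ne

theorem int_const (ρ c : ℝ) : ∫ _x in ball (0 : ℂ) ρ, c = ar ρ * c := by
  rw [setIntegral_const]
  rfl

theorem sq_int_le {ρ : ℝ} (hρ : 0 < ρ) {g : ℂ → ℝ} (hg : Continuous g) :
    (∫ x in ball (0 : ℂ) ρ, g x) ^ 2 ≤ ar ρ * ∫ x in ball (0 : ℂ) ρ, g x ^ 2 := by
  have hA := ar_pos hρ
  set G := ∫ x in ball (0 : ℂ) ρ, g x with hG
  have h1 : 0 ≤ ∫ x in ball (0 : ℂ) ρ, (ar ρ * g x - G) ^ 2 :=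
    integral_nonneg fun x => sq_nonneg _
  have h2 : ∫ x in ball (0 : ℂ) ρ, (ar ρ * g x - G) ^ 2 =
      ar ρ ^ 2 * (∫ x in ball (0 : ℂ) ρ, g x ^ 2) - 2 * ar ρ * G * G + ar ρ * G ^ 2 := by
    have e : ∀ x, (ar ρ * g x - G) ^ 2 = ar ρ ^ 2 * g x ^ 2 - 2 * ar ρ * G * g x + G ^ 2 :=
      fun x => by ring
    simp only [e]
    rw [integral_add, integral_sub, integral_const_mul, integral_const_mul, ← hG, int_const]
    · exact intOn (by fun_prop) ρ
    · exact intOn (by fun_prop) ρ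
    · exact intOn (by fun_prop) ρ
    · exact intOn (by fun_prop) ρ
  rw [h2] at h1
  have h3 : ar ρ * G ^ 2 ≤ ar ρ * (ar ρ * ∫ x in ball (0 : ℂ) ρ, g x ^ 2) := by nlinarith
  exact le_of_mul_le_mul_left h3 hA

/-- the constant in the key estimate -/
noncomputable def cst (M ρ : ℝ) : ℝ := M ^ 2 * ar ρ * (ar ρ * (2 ^ 2 * (2 * ρ) ^ 2))

theorem key {ρ : ℝ} (hρ : 0 < ρ) {ψ : ℂ → ℝ} (hψ : Continuous ψ) {M : ℝ}
    (hM : ∀ x, |ψ x| ≤ M) {h : ℂ → ℝ} (hh : ContDiff ℝ 1 h) :
    ∫ x in ball (0 : ℂ) ρ, (h x * (∫ y in ball (0 : ℂ) ρ, ψ y) -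
      ∫ y in ball (0 : ℂ) ρ, h y * ψ y) ^ 2 ≤
      cst M ρ * ∫ x in ball (0 : ℂ) ρ, ‖fderiv ℝ h x‖ ^ 2 := by
  have hA := ar_pos hρ
  have hM0 : 0 ≤ M := (abs_nonneg _).trans (hM 0)
  have hhc := hh.continuous
  have hdc : Continuous (fderiv ℝ h) := hh.continuous_fderiv (by norm_num)
  set Ψ := ∫ y in ball (0 : ℂ) ρ, ψ y with hΨ
  set c := ∫ y in ball (0 : ℂ) ρ, h y * ψ y with hc
  have step1 : ∀ x, (h x * Ψ - c) ^ 2 ≤ M ^ 2 * ar ρ * ∫ y in ball (0 : ℂ) ρ, (h x - h y) ^ 2 := by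
    intro x
    have e1 : h x * Ψ - c = ∫ y in ball (0 : ℂ) ρ, (h x - h y) * ψ y := by
      simp only [sub_mul]
      rw [integral_sub (intOn (by fun_prop) ρ) (intOn (by fun_prop) ρ), integral_const_mul]
    rw [e1]
    refine (sq_int_le hρ (by fun_prop)).trans ?_
    have : ∫ y in ball (0 : ℂ) ρ, ((h x - h y) * ψ y) ^ 2 ≤
        ∫ y in ball (0 : ℂ) ρ, M ^ 2 * (h x - h y) ^ 2 := by
      refine integral_mono (intOn (by fun_prop) ρ) (intOn (by fun_prop) ρ) fun y => ?_
      have h1 : ψ y ^ 2 ≤ M ^ 2 := by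
        rw [← sq_abs (ψ y)]
        exact pow_le_pow_left₀ (abs_nonneg _) (hM y) 2
      show ((h x - h y) * ψ y) ^ 2 ≤ M ^ 2 * (h x - h y) ^ 2
      nlinarith [sq_nonneg (h x - h y), mul_le_mul_of_nonneg_left h1 (sq_nonneg (h x - h y))]
    rw [integral_const_mul] at this
    nlinarith [mul_le_mul_of_nonneg_left this hA.le]
  have step2 : ENNReal.ofReal (∫ x in ball (0 : ℂ) ρ, (h x * Ψ - c) ^ 2) ≤
      ENNReal.ofReal (cst M ρ * ∫ x in ball (0 : ℂ) ρ, ‖fderiv ℝ h x‖ ^ 2) := by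
    rw [ofReal_integral_eq_lintegral_ofReal (intOn (by fun_prop) ρ)
      (Eventually.of_forall fun x => sq_nonneg _)]
    calc ∫⁻ x in ball (0 : ℂ) ρ, ENNReal.ofReal ((h x * Ψ - c) ^ 2)
        ≤ ∫⁻ x in ball (0 : ℂ) ρ, ENNReal.ofReal (M ^ 2 * ar ρ) *
            ∫⁻ y in ball (0 : ℂ) ρ, ENNReal.ofReal ((h x - h y) ^ 2) := by
          refine lintegral_mono fun x => ?_
          rw [← ofReal_integral_eq_lintegral_ofReal (intOn (by fun_prop) ρ)
            (Eventually.of_forall fun y => sq_nonneg _), ← ENNReal.ofReal_mul (by positivity)]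
          exact ENNReal.ofReal_le_ofReal (step1 x)
      _ = ENNReal.ofReal (M ^ 2 * ar ρ) * ∫⁻ x in ball (0 : ℂ) ρ,
            ∫⁻ y in ball (0 : ℂ) ρ, ENNReal.ofReal ((h x - h y) ^ 2) := by
          rw [lintegral_const_mul' _ _ ENNReal.ofReal_ne_top]
      _ ≤ ENNReal.ofReal (M ^ 2 * ar ρ) * (volume (ball (0 : ℂ) ρ) * (ENNReal.ofReal (2 ^ 2) *
            ∫⁻ x in ball (0 : ℂ) ρ, ENNReal.ofReal ((2 * ρ) ^ 2 * ‖fderiv ℝ h x‖ ^ 2))) := by
          gcongr
          refine poincare_double (convex_ball 0 ρ) measurableSet_ball (fun x hx y hy => ?_) hh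
          rw [mem_ball_zero_iff] at hx hy
          have := norm_sub_le x y
          linarith
      _ = ENNReal.ofReal (cst M ρ * ∫ x in ball (0 : ℂ) ρ, ‖fderiv ℝ h x‖ ^ 2) := by
          rw [← ofReal_integral_eq_lintegral_ofReal (intOn (by fun_prop) ρ)
            (Eventually.of_forall fun y => by positivity), integral_const_mul]
          have e2 : volume (ball (0 : ℂ) ρ) = ENNReal.ofReal (ar ρ) := by
            rw [ar, ENNReal.ofReal_toReal measure_ball_lt_top.ne]
          rw [e2, ← ENNReal.ofReal_mul (by positivity), ← ENNReal.ofReal_mul (by positivity),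
            ← ENNReal.ofReal_mul (by positivity)]
          congr 1
          rw [cst]; ring
  have h0 : 0 ≤ cst M ρ * ∫ x in ball (0 : ℂ) ρ, ‖fderiv ℝ h x‖ ^ 2 :=
    mul_nonneg (by unfold cst; positivity) (integral_nonneg fun x => by positivity)
  exact (ENNReal.ofReal_le_ofReal_iff h0).1 step2

theorem bounded_of_support {ψ : ℂ → ℝ} (hψ : Continuous ψ) {r : ℝ} (hψs : tsupport ψ ⊆ ball 0 r) :
    HasCompactSupport ψ ∧ ∃ M : ℝ, ∀ x, |ψ x| ≤ M := by
  have h1 : HasCompactSupport ψ := (isCompact_closedBall (0 : ℂ) r).of_isClosed_subset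
    (isClosed_tsupport _) (hψs.trans ball_subset_closedBall)
  refine ⟨h1, ?_⟩
  obtain ⟨C, hC⟩ := h1.exists_bound_of_continuous hψ
  exact ⟨C, fun x => by simpa using hC x⟩

theorem setInt_eq {ρ : ℝ} {F : ℂ → ℝ} (hF : ∀ x ∉ ball (0 : ℂ) ρ, F x = 0) :
    ∫ x in ball (0 : ℂ) ρ, F x = ∫ x, F x :=
  setIntegral_eq_integral_of_forall_compl_eq_zero hF

end PLOCAL

open PLOCAL in
/-- Poincaré type inequality for functionals of mean zero -/
theorem poincare_functional (r : ℝ) (hr : 0 < r) (ψ : ℂ → ℝ) (hψ : Continuous ψ)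
    (hψs : tsupport ψ ⊆ ball 0 r) (hψ0 : ∫ x, ψ x = 0) :
    ∃ C : ℝ, 0 ≤ C ∧ ∀ f : ℂ → ℝ, ContDiffOn ℝ 1 f (closedBall 0 r) →
      (∫ x in ball (0 : ℂ) r, f x * ψ x) ^ 2 ≤ C * ∫ x in ball (0 : ℂ) r, ‖fderiv ℝ f x‖ ^ 2 := by
  obtain ⟨hcs, M, hM⟩ := bounded_of_support hψ hψs
  obtain ⟨ρ, ⟨hρ, hρr⟩, hsub⟩ := exists_pos_lt_subset_ball hr (isClosed_tsupport ψ) hψs
  have hz : ∀ x ∉ ball (0 : ℂ) ρ, ψ x = 0 := fun x hx =>
    image_eq_zero_of_notMem_tsupport fun h => hx (hsub h)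
  have hz' : ∀ x ∉ ball (0 : ℂ) r, ψ x = 0 := fun x hx =>
    image_eq_zero_of_notMem_tsupport fun h => hx (hψs h)
  have hA := ar_pos hρ
  have hc0 : 0 ≤ cst M ρ := by unfold cst; positivity
  refine ⟨cst M ρ / ar ρ, by positivity, fun f hf => ?_⟩
  obtain ⟨F, hF1, -, hF2⟩ := cutoff hρ hρr (hf.mono ball_subset_closedBall)
  have hk := key hρ hψ hM hF1
  rw [setInt_eq hz, hψ0] at hk
  have e1 : ∫ y in ball (0 : ℂ) ρ, F y * ψ y = ∫ x in ball (0 : ℂ) r, f x * ψ x := by
    rw [setInt_eq (F := fun x => f x * ψ x) (fun x hx => by simp [hz' x hx]),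
      ← setInt_eq (ρ := ρ) (F := fun x => f x * ψ x) (fun x hx => by simp [hz x hx])]
    exact setIntegral_congr_fun measurableSet_ball fun x hx => by simp only [hF2 x hx]
  rw [e1] at hk
  simp only [mul_zero, zero_sub, even_two, Even.neg_pow] at hk
  rw [int_const] at hk
  have e2 : ∫ x in ball (0 : ℂ) ρ, ‖fderiv ℝ F x‖ ^ 2 ≤ ∫ x in ball (0 : ℂ) r, ‖fderiv ℝ f x‖ ^ 2 := by
    have e3 : ∫ x in ball (0 : ℂ) ρ, ‖fderiv ℝ F x‖ ^ 2 = ∫ x in ball (0 : ℂ) ρ, ‖fderiv ℝ f x‖ ^ 2 :=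
      setIntegral_congr_fun measurableSet_ball fun x hx => by
        simp only [fderiv_eq_of_eq hF2 x hx]
    rw [e3]
    refine setIntegral_mono_set ?_ (Eventually.of_forall fun x => by positivity)
      (Eventually.of_forall (ball_subset_ball hρr.le))
    have hcont : ContinuousOn (fderivWithin ℝ f (closedBall 0 r)) (closedBall 0 r) :=
      hf.continuousOn_fderivWithin (uniqueDiffOn_convex (convex_closedBall 0 r)
        ⟨0, by rw [interior_closedBall _ hr.ne']; simpa using hr⟩) le_rfl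
    have hi : IntegrableOn (fun x => ‖fderivWithin ℝ f (closedBall 0 r) x‖ ^ 2) (ball 0 r) :=
      ((hcont.norm.pow 2).integrableOn_compact (isCompact_closedBall 0 r)).mono_set
        ball_subset_closedBall
    refine hi.congr_fun (fun x hx => ?_) measurableSet_ball
    have : fderivWithin ℝ f (closedBall 0 r) x = fderiv ℝ f x :=
      fderivWithin_of_mem_nhds (mem_of_superset (isOpen_ball.mem_nhds hx) ball_subset_closedBall)
    simp only [this]
  rw [div_mul_eq_mul_div, le_div_iff₀ hA, mul_comm]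
  exact hk.trans (mul_le_mul_of_nonneg_left e2 hc0)


namespace PLOCAL

/-! ### Integration by parts -/

theorem ibp1 {f g : ℂ → ℝ} (hf : ContDiff ℝ 1 f) (hg : ContDiff ℝ 2 g)
    (hc : HasCompactSupport f ∨ HasCompactSupport g) :
    ∫ x, f x * Δ g x = -∫ x, gradDot f g x := by
  have hg1 : ContDiff ℝ 1 (fderiv ℝ g) := hg.fderiv_right (m := 1) (by norm_num)
  have hgv : ∀ v : ℂ, ContDiff ℝ 1 (fun x => fderiv ℝ g x v) := fun v =>
    hg1.clm_apply contDiff_const
  have hfc : Continuous f := hf.continuous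
  have hf1 : Continuous (fderiv ℝ f) := hf.continuous_fderiv (by norm_num)
  have cs : ∀ {a b : ℂ → ℝ}, (HasCompactSupport f → HasCompactSupport a) →
      (HasCompactSupport g → HasCompactSupport b) → HasCompactSupport (fun x => a x * b x) := by
    intro a b ha hb
    rcases hc with h | h
    · exact (ha h).mul_right
    · exact (hb h).mul_left
  have hsv : ∀ {g : ℂ → ℝ} (v : ℂ), HasCompactSupport g →
      HasCompactSupport (fun x => fderiv ℝ g x v) := by
    intro g v h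
    refine (h.fderiv ℝ).mono fun x hx => ?_
    intro h0
    apply hx
    show fderiv ℝ g x v = 0
    rw [h0]; simp
  have h1 : ∀ v : ℂ, ∫ x, f x * fderiv ℝ (fun y => fderiv ℝ g y v) x v =
      -∫ x, fderiv ℝ f x v * fderiv ℝ g x v := by
    intro v
    have c1 : Continuous (fun x => fderiv ℝ g x v) := (hgv v).continuous
    have c2 : Continuous (fun x => fderiv ℝ (fun y => fderiv ℝ g y v) x v) :=
      ((hgv v).continuous_fderiv (by norm_num)).clm_apply continuous_const
    refine integral_mul_fderiv_eq_neg_fderiv_mul_of_integrable (v := v) ?_ ?_ ?_ ?_ ?_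
    · exact (Continuous.mul (by fun_prop) c1).integrable_of_hasCompactSupport
        (cs (fun h => hsv v h) (fun h => hsv v h))
    · exact (hfc.mul c2).integrable_of_hasCompactSupport
        (cs (fun h => h) (fun h => hsv v (hsv v h)))
    · exact (hfc.mul c1).integrable_of_hasCompactSupport
        (cs (fun h => h) (fun h => hsv v h))
    · intro x _
      exact hf.differentiable (by norm_num) x
    · intro x _
      exact (hgv v).differentiable (by norm_num) x
  have h2 : ∀ v x, fderiv ℝ (fderiv ℝ g) x v v = fderiv ℝ (fun y => fderiv ℝ g y v) x v := by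
    intro v x
    have hd : DifferentiableAt ℝ (fderiv ℝ g) x := hg1.differentiable (by norm_num) x
    rw [fderiv_clm_apply hd (by fun_prop)]
    simp
  have h3 : ∀ x, Δ g x = fderiv ℝ (fun y => fderiv ℝ g y 1) x 1 +
      fderiv ℝ (fun y => fderiv ℝ g y Complex.I) x Complex.I := by
    intro x
    rw [laplacian_eq, h2, h2]
  simp only [h3, gradDot, mul_add]
  have i1 : ∀ v : ℂ, Integrable (fun x => f x * fderiv ℝ (fun y => fderiv ℝ g y v) x v) := by
    intro v
    have c2 : Continuous (fun x => fderiv ℝ (fun y => fderiv ℝ g y v) x v) :=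
      ((hgv v).continuous_fderiv (by norm_num)).clm_apply continuous_const
    exact (hfc.mul c2).integrable_of_hasCompactSupport
        (cs (fun h => h) (fun h => hsv v (hsv v h)))
  have i2 : ∀ v : ℂ, Integrable (fun x => fderiv ℝ f x v * fderiv ℝ g x v) := by
    intro v
    have c1 : Continuous (fun x => fderiv ℝ g x v) := (hgv v).continuous
    exact (Continuous.mul (by fun_prop) c1).integrable_of_hasCompactSupport
        (cs (fun h => hsv v h) (fun h => hsv v h))
  rw [integral_add (i1 _) (i1 _), integral_add (i2 _) (i2 _), h1, h1]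
  ring

theorem continuous_laplacian {g : ℂ → ℝ} (hg : ContDiff ℝ 2 g) : Continuous (Δ g) := by
  have hg1 : ContDiff ℝ 1 (fderiv ℝ g) := hg.fderiv_right (m := 1) (by norm_num)
  have h2 : Continuous (fderiv ℝ (fderiv ℝ g)) := hg1.continuous_fderiv (by norm_num)
  have : Δ g = fun x => fderiv ℝ (fderiv ℝ g) x 1 1 + fderiv ℝ (fderiv ℝ g) x Complex.I Complex.I := by
    funext x; exact laplacian_eq g x
  rw [this]
  fun_prop

theorem tsupport_laplacian (g : ℂ → ℝ) : tsupport (Δ g) ⊆ tsupport g := by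
  refine closure_minimal (fun x hx => ?_) (isClosed_tsupport g)
  by_contra h
  apply hx
  have h1 : (fun x => g x) =ᶠ[𝓝 x] fun _ => 0 := by
    filter_upwards [(isClosed_tsupport g).isOpen_compl.mem_nhds h] with y hy
    exact image_eq_zero_of_notMem_tsupport hy
  have h2 := (InnerProductSpace.laplacian_congr_nhds h1).self_of_nhds
  rw [h2]
  have := InnerProductSpace.laplacian_const (E := ℂ) (c := (0 : ℝ))
  exact congrFun this x

/-! ### Limits in `L²` -/

theorem limit_exists {ρ : ℝ} (F : ℕ → ℂ → ℝ) (hc : ∀ n, Continuous (F n))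
    (hs : ∀ n, HasCompactSupport (F n))
    (hcau : ∀ ε > 0, ∃ N, ∀ m ≥ N, ∀ n ≥ N, ∫ x in ball (0 : ℂ) ρ, (F m x - F n x) ^ 2 ≤ ε) :
    ∃ u : ℂ → ℝ, MemLp u 2 volume ∧ ∀ φ : ℂ → ℝ, Continuous φ → tsupport φ ⊆ ball 0 ρ →
      Tendsto (fun n => ∫ x, F n x * φ x) atTop (𝓝 (∫ x, u x * φ x)) := by
  have hm : ∀ n, MemLp ((ball (0 : ℂ) ρ).indicator (F n)) 2 volume := fun n =>
    ((hc n).memLp_of_hasCompactSupport (hs n)).indicator measurableSet_ball
  set U : ℕ → Lp ℝ 2 (volume : Measure ℂ) := fun n => (hm n).toLp with hU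
  have hUae : ∀ n, (U n : ℂ → ℝ) =ᵐ[volume] (ball (0 : ℂ) ρ).indicator (F n) := fun n =>
    (hm n).coeFn_toLp
  have hdist : ∀ m n, ‖U m - U n‖ ^ 2 = ∫ x in ball (0 : ℂ) ρ, (F m x - F n x) ^ 2 := by
    intro m n
    rw [← real_inner_self_eq_norm_sq, L2.inner_def, ← integral_indicator measurableSet_ball]
    refine integral_congr_ae ?_
    filter_upwards [hUae m, hUae n, Lp.coeFn_sub (U m) (U n)] with x h1 h2 h3
    rw [h3, Pi.sub_apply, h1, h2]
    by_cases hx : x ∈ ball (0 : ℂ) ρ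
    · simp only [indicator_of_mem hx]
      simp [sq]
    · simp [indicator_of_notMem hx]
  have hC : CauchySeq U := by
    rw [Metric.cauchySeq_iff]
    intro ε hε
    obtain ⟨N, hN⟩ := hcau ((ε / 2) ^ 2) (by positivity)
    refine ⟨N, fun m hm' n hn' => ?_⟩
    have h1 := hN m hm' n hn'
    rw [← hdist] at h1
    rw [dist_eq_norm]
    have := abs_le_of_sq_le_sq h1 (by positivity)
    have := (abs_le.1 this).2
    linarith
  obtain ⟨u, hu⟩ := cauchySeq_tendsto_of_complete hC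
  refine ⟨u, Lp.memLp u, fun φ hφ hφs => ?_⟩
  obtain ⟨hφc, -⟩ := bounded_of_support hφ hφs
  have hφm : MemLp φ 2 volume := hφ.memLp_of_hasCompactSupport hφc
  have hinner : ∀ v : Lp ℝ 2 (volume : Measure ℂ), inner ℝ v hφm.toLp = ∫ x, v x * φ x := by
    intro v
    rw [L2.inner_def]
    refine integral_congr_ae ?_
    filter_upwards [hφm.coeFn_toLp] with x hx
    rw [hx]
    simp [mul_comm]
  have h1 : Tendsto (fun n => inner ℝ (U n) hφm.toLp) atTop (𝓝 (inner ℝ u hφm.toLp)) :=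
    hu.inner tendsto_const_nhds
  rw [hinner] at h1
  refine h1.congr fun n => ?_
  rw [hinner]
  refine integral_congr_ae ?_
  filter_upwards [hUae n] with x hx
  rw [hx]
  by_cases hxb : x ∈ ball (0 : ℂ) ρ
  · rw [indicator_of_mem hxb]
  · have : φ x = 0 := image_eq_zero_of_notMem_tsupport fun h => hxb (hφs h)
    rw [this]; simp

end PLOCAL

open PLOCAL in
theorem local_limit (R r : ℝ) (hr : 0 < r) (hrR : r < R) (f : ℕ → ℂ → ℝ)
    (hf : ∀ n, ContDiffOn ℝ 1 (f n) (ball 0 R))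
    (hcau : ∀ ε > 0, ∃ N, ∀ m ≥ N, ∀ n ≥ N, ∀ r' < R,
      ∫ x in ball (0 : ℂ) r', ‖fderiv ℝ (fun x => f m x - f n x) x‖ ^ 2 ≤ ε)
    (ψ : ℂ → ℝ) (hψ : Continuous ψ) (hψc : HasCompactSupport ψ) (hψs : tsupport ψ ⊆ ball 0 r)
    (hψ0 : ∫ x, ψ x ≠ 0) (hconv : CauchySeq (fun n => ∫ x, f n x * ψ x))
    (w : ℂ → ℝ) (hw : ContDiff ℝ ∞ w)
    (hweak : ∀ η : ℂ → ℝ, ContDiff ℝ ∞ η → HasCompactSupport η → tsupport η ⊆ ball 0 r →
      Tendsto (fun n => ∫ x, gradDot (f n) η x) atTop (𝓝 (∫ x, Δ w x * η x))) :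
    ∃ g : ℂ → ℝ, ContDiffOn ℝ ∞ g (ball 0 r) ∧ (∀ x ∈ ball (0 : ℂ) r, Δ g x = - Δ w x) ∧
      ∀ η : ℂ → ℝ, Continuous η → HasCompactSupport η → tsupport η ⊆ ball 0 r →
        Tendsto (fun n => ∫ x, f n x * η x) atTop (𝓝 (∫ x, g x * η x)) := by
  obtain ⟨-, M, hM⟩ := bounded_of_support hψ hψs
  set ρ : ℝ := (r + R) / 2 with hρdef
  have hρ : 0 < ρ := by rw [hρdef]; linarith
  have hρR : ρ < R := by rw [hρdef]; linarith
  have hrρ : r < ρ := by rw [hρdef]; linarith
  have hA := ar_pos hρ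
  choose F hF1 hFc hF2 using fun n => cutoff hρ hρR (hf n)
  -- functions supported in the small ball do not see the difference
  have swap : ∀ (n : ℕ) (φ : ℂ → ℝ), tsupport φ ⊆ ball 0 r →
      ∫ x, F n x * φ x = ∫ x, f n x * φ x := by
    intro n φ hφ
    congr 1
    funext x
    by_cases hx : x ∈ ball (0 : ℂ) r
    · rw [hF2 n x (ball_subset_ball hrρ.le hx)]
    · rw [image_eq_zero_of_notMem_tsupport fun h => hx (hφ h)]; simp
  have hψz : ∀ x ∉ ball (0 : ℂ) ρ, ψ x = 0 := fun x hx =>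
    image_eq_zero_of_notMem_tsupport fun h => hx (ball_subset_ball hrρ.le (hψs h))
  set Ψ := ∫ x, ψ x with hΨ
  have hc0 : 0 ≤ cst M ρ := by unfold cst; positivity
  -- the basic estimate
  have est : ∀ m n, ∫ x in ball (0 : ℂ) ρ, (F m x - F n x) ^ 2 ≤
      (2 * (cst M ρ * ∫ x in ball (0 : ℂ) ρ, ‖fderiv ℝ (fun x => f m x - f n x) x‖ ^ 2) +
        2 * ar ρ * ((∫ x, f m x * ψ x) - ∫ x, f n x * ψ x) ^ 2) / Ψ ^ 2 := by
    intro m n
    set h : ℂ → ℝ := fun x => F m x - F n x with hh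
    have hh1 : ContDiff ℝ 1 h := (hF1 m).sub (hF1 n)
    have hk := key hρ hψ hM hh1
    have e0 : ∫ y in ball (0 : ℂ) ρ, h y * ψ y = ∫ y, h y * ψ y :=
      setInt_eq (F := fun y => h y * ψ y) fun x hx => by simp [hψz x hx]
    rw [setInt_eq hψz, ← hΨ, e0] at hk
    have e1 : ∫ x, h x * ψ x = (∫ x, f m x * ψ x) - ∫ x, f n x * ψ x := by
      rw [← swap m ψ hψs, ← swap n ψ hψs, ← integral_sub]
      · congr 1; funext x; simp only [hh]; ring
      · exact ((hF1 m).continuous.mul hψ).integrable_of_hasCompactSupport hψc.mul_left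
      · exact ((hF1 n).continuous.mul hψ).integrable_of_hasCompactSupport hψc.mul_left
    have e2 : ∫ x in ball (0 : ℂ) ρ, ‖fderiv ℝ h x‖ ^ 2 =
        ∫ x in ball (0 : ℂ) ρ, ‖fderiv ℝ (fun x => f m x - f n x) x‖ ^ 2 :=
      setIntegral_congr_fun measurableSet_ball fun x hx => by
        show ‖fderiv ℝ h x‖ ^ 2 = ‖fderiv ℝ (fun x => f m x - f n x) x‖ ^ 2
        rw [fderiv_eq_of_eq (f := fun x => f m x - f n x) (fun y hy => by
          simp only [hh, hF2 m y hy, hF2 n y hy]) x hx]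
    rw [e1, e2] at hk
    set c := (∫ x, f m x * ψ x) - ∫ x, f n x * ψ x with hc
    rw [le_div_iff₀ (by positivity)]
    have hhc := hh1.continuous
    have h3 : (∫ x in ball (0 : ℂ) ρ, h x ^ 2) * Ψ ^ 2 ≤
        ∫ x in ball (0 : ℂ) ρ, (2 * (h x * Ψ - c) ^ 2 + 2 * c ^ 2) := by
      rw [← integral_mul_const]
      refine integral_mono (intOn (by fun_prop) ρ) (intOn (by fun_prop) ρ) fun x => ?_
      show h x ^ 2 * Ψ ^ 2 ≤ 2 * (h x * Ψ - c) ^ 2 + 2 * c ^ 2
      nlinarith [sq_nonneg (h x * Ψ - 2 * c)]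
    rw [integral_add (intOn (by fun_prop) ρ) (intOn (by fun_prop) ρ), integral_const_mul,
      int_const] at h3
    nlinarith
  have hcauF : ∀ ε > 0, ∃ N, ∀ m ≥ N, ∀ n ≥ N, ∫ x in ball (0 : ℂ) ρ, (F m x - F n x) ^ 2 ≤ ε := by
    intro ε hε
    have hΨ2 : 0 < Ψ ^ 2 := by positivity
    obtain ⟨N1, hN1⟩ := hcau (ε * Ψ ^ 2 / (4 * (cst M ρ + 1))) (by positivity)
    obtain ⟨N2, hN2⟩ := (Metric.cauchySeq_iff.1 hconv) (Real.sqrt (ε * Ψ ^ 2 / (4 * ar ρ)))
      (by positivity)
    refine ⟨max N1 N2, fun m hm n hn => ?_⟩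
    have h1 := hN1 m (le_of_max_le_left hm) n (le_of_max_le_left hn) ρ hρR
    have h2 := hN2 m (le_of_max_le_right hm) n (le_of_max_le_right hn)
    rw [Real.dist_eq] at h2
    have h3 : ((∫ x, f m x * ψ x) - ∫ x, f n x * ψ x) ^ 2 ≤ ε * Ψ ^ 2 / (4 * ar ρ) := by
      rw [← sq_abs, ← Real.sq_sqrt (show 0 ≤ ε * Ψ ^ 2 / (4 * ar ρ) by positivity)]
      exact pow_le_pow_left₀ (abs_nonneg _) h2.le 2
    refine (est m n).trans ?_
    rw [div_le_iff₀ hΨ2]
    have h4 : cst M ρ * ∫ x in ball (0 : ℂ) ρ, ‖fderiv ℝ (fun x => f m x - f n x) x‖ ^ 2 ≤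
        ε * Ψ ^ 2 / 4 := by
      calc _ ≤ cst M ρ * (ε * Ψ ^ 2 / (4 * (cst M ρ + 1))) := mul_le_mul_of_nonneg_left h1 hc0
        _ = (ε * Ψ ^ 2 / 4) * (cst M ρ / (cst M ρ + 1)) := by field_simp
        _ ≤ (ε * Ψ ^ 2 / 4) * 1 := by
            refine mul_le_mul_of_nonneg_left ?_ (by positivity)
            rw [div_le_one (by positivity)]
            linarith
        _ = _ := mul_one _
    have h5 : 2 * ar ρ * ((∫ x, f m x * ψ x) - ∫ x, f n x * ψ x) ^ 2 ≤ ε * Ψ ^ 2 / 2 := by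
      calc _ ≤ 2 * ar ρ * (ε * Ψ ^ 2 / (4 * ar ρ)) := mul_le_mul_of_nonneg_left h3 (by positivity)
        _ = _ := by field_simp; ring
    linarith
  obtain ⟨u, hu, hulim⟩ := limit_exists F (fun n => (hF1 n).continuous) hFc hcauF
  -- the limit of the integrals of `f n`
  have hlim : ∀ φ : ℂ → ℝ, Continuous φ → tsupport φ ⊆ ball 0 r →
      Tendsto (fun n => ∫ x, f n x * φ x) atTop (𝓝 (∫ x, u x * φ x)) := by
    intro φ hφ hφs
    refine (hulim φ hφ (hφs.trans (ball_subset_ball hrρ.le))).congr fun n => ?_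
    rw [swap n φ hφs]
  -- weak equation
  set W : ℂ → ℝ := (ball (0 : ℂ) ρ).indicator w with hW
  have hWm : MemLp W 2 volume := by
    obtain ⟨w', hw'1, hw'2, hw'3⟩ := cutoff hρ hρR ((hw.of_le (m := 1) (by norm_num)).contDiffOn
      (s := ball 0 R))
    have : W = (ball (0 : ℂ) ρ).indicator w' := by
      funext x
      by_cases hx : x ∈ ball (0 : ℂ) ρ
      · simp [hW, indicator_of_mem hx, hw'3 x hx]
      · simp [hW, indicator_of_notMem hx]
    rw [this]
    exact (hw'1.continuous.memLp_of_hasCompactSupport hw'2).indicator measurableSet_ball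
  have hweq : ∀ η : ℂ → ℝ, ContDiff ℝ ∞ η → HasCompactSupport η → tsupport η ⊆ ball 0 r →
      ∫ x, (u x + W x) * Δ η x = 0 := by
    intro η hη hηc hηs
    have hη2 : ContDiff ℝ 2 η := hη.of_le two_le
    have hΔc : Continuous (Δ η) := continuous_laplacian hη2
    have hΔs : tsupport (Δ η) ⊆ ball 0 r := (tsupport_laplacian η).trans hηs
    have hΔcs : HasCompactSupport (Δ η) := hηc.of_isClosed_subset (isClosed_tsupport _)
      (tsupport_laplacian η)
    have l1 := hlim (Δ η) hΔc hΔs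
    have l2 : Tendsto (fun n => ∫ x, f n x * Δ η x) atTop (𝓝 (-∫ x, Δ w x * η x)) := by
      refine (hweak η hη hηc hηs).neg.congr fun n => ?_
      rw [← swap n (Δ η) hΔs, ibp1 (hF1 n) hη2 (Or.inr hηc)]
      congr 2
      funext x
      by_cases hx : x ∈ ball (0 : ℂ) r
      · rw [gradDot, gradDot, fderiv_eq_of_eq (hF2 n) x (ball_subset_ball hrρ.le hx)]
      · have h0 : fderiv ℝ η x = 0 := by
          have : x ∉ tsupport (fderiv ℝ η) := fun h => hx (hηs (tsupport_fderiv_subset ℝ h))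
          exact image_eq_zero_of_notMem_tsupport this
        simp [gradDot, h0]
    have e1 := tendsto_nhds_unique l1 l2
    have e2 : ∫ x, w x * Δ η x = ∫ x, Δ w x * η x := by
      have a1 := ibp1 (hw.of_le (m := 1) (by norm_num)) hη2 (Or.inr hηc)
      have a2 := ibp1 (hη.of_le (m := 1) (by norm_num)) (hw.of_le two_le) (Or.inl hηc)
      rw [a1]
      have a3 : ∫ x, Δ w x * η x = ∫ x, η x * Δ w x := by congr 1; funext x; ring
      rw [a3, a2]
      congr 2
      funext x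
      simp only [gradDot]; ring
    have e3 : ∫ x, W x * Δ η x = ∫ x, w x * Δ η x := by
      congr 1
      funext x
      by_cases hx : x ∈ ball (0 : ℂ) ρ
      · simp [hW, indicator_of_mem hx]
      · have : Δ η x = 0 := image_eq_zero_of_notMem_tsupport fun h =>
          hx (ball_subset_ball hrρ.le (hΔs h))
        simp [this]
    have hΔm : MemLp (Δ η) 2 volume := hΔc.memLp_of_hasCompactSupport hΔcs
    have a4 : ∫ x, (u x * Δ η x + W x * Δ η x) = (∫ x, u x * Δ η x) + ∫ x, W x * Δ η x :=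
      integral_add (hu.integrable_mul hΔm) (hWm.integrable_mul hΔm)
    simp only [add_mul]
    rw [a4, e3, e2, e1]
    ring
  obtain ⟨v, hv1, hv2, hv3⟩ := weylC isOpen_ball (hu.add hWm) hweq
  refine ⟨fun x => v x - w x, hv1.sub hw.contDiffOn, fun x hx => ?_, fun η hη hηc hηs => ?_⟩
  · have h1 : ContDiffAt ℝ 2 v x := (hv1.contDiffAt (isOpen_ball.mem_nhds hx)).of_le two_le
    have h2 : ContDiffAt ℝ 2 w x := (hw.of_le two_le).contDiffAt
    have h3 := h1.laplacian_sub h2
    have h4 : (v - w) = fun x => v x - w x := rfl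
    rw [h4] at h3
    rw [h3, hv3 x hx]
    ring
  · have h1 := hlim η hη hηs
    have h2 : ∫ x, u x * η x = ∫ x, (v x - w x) * η x := by
      refine integral_congr_ae ?_
      filter_upwards [hv2] with x hx
      by_cases hxb : x ∈ ball (0 : ℂ) r
      · have h3 := hx hxb
        simp only [Pi.add_apply] at h3
        have h4 : W x = w x := by
          rw [hW]; exact indicator_of_mem (ball_subset_ball hrρ.le hxb) _
        rw [h3, h4]
        ring
      · rw [image_eq_zero_of_notMem_tsupport fun h => hxb (hηs h)]; simp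
    rw [← h2]
    exact h1

end Pool.Agent.H210.Gr
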