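import Mathlib
import Pool.Agent.H210.Green.Defs
import Pool.Graph.R_seed8.R737.HO.MaxPrinciple
import Pool.Agent.H210.Green.PATLAS
import Pool.Agent.H210.Green.PLOCAL
-- replace the last import by the file(s) proving `poincare_functional` and `local_limit` (PLOCAL)

/-! Task PMAIN of the proof of S05669: from the energy inequality to a bounded nonconstant
subharmonic function. -/

set_option autoImplicit false

namespace Pool.Agent.H210.Gr

open Metric Set MeasureTheory Topology Filter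
open scoped Laplacian ContDiff

namespace PMAIN

open Pool.Agent.R737.HO

/-! ### the source -/

section Source

variable (α : ℝ)

/-- smooth step from `0` at `α` to `1` at `2α` -/
noncomputable def th (s : ℝ) : ℝ := Real.smoothTransition (s / α - 1)

theorem th_contDiff {n : ℕ∞} : ContDiff ℝ n (th α) :=
  Real.smoothTransition.contDiff.comp ((contDiff_id.div_const α).sub contDiff_const)

theorem th_zero (hα : 0 < α) {s : ℝ} (hs : s ≤ α) : th α s = 0 :=
  Real.smoothTransition.zero_of_nonpos (by rw [sub_nonpos, div_le_one hα]; exact hs)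

theorem th_one (hα : 0 < α) {s : ℝ} (hs : 2 * α ≤ s) : th α s = 1 :=
  Real.smoothTransition.one_of_one_le (by rw [le_sub_iff_add_le, le_div_iff₀ hα]; linarith)

theorem th_mono (hα : 0 < α) : Monotone (th α) := by
  intro a b hab
  apply Real.smoothTransition.monotone
  have : a / α ≤ b / α := by gcongr
  linarith

/-- `θ(s)/s` -/
noncomputable def Kf (s : ℝ) : ℝ := th α s / s

theorem Kf_contDiff (hα : 0 < α) : ContDiff ℝ ∞ (Kf α) := by
  rw [contDiff_iff_contDiffAt]
  intro s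
  by_cases hs : s < α
  · have h : Kf α =ᶠ[𝓝 s] fun _ => (0 : ℝ) := by
      filter_upwards [gt_mem_nhds hs] with t ht
      rw [Kf, th_zero α hα (le_of_lt ht), zero_div]
    exact contDiffAt_const.congr_of_eventuallyEq h
  · push Not at hs
    exact (th_contDiff α).contDiffAt.div contDiffAt_id (by simp; linarith)

/-- primitive of `θ(s)/s` -/
noncomputable def Wf (s : ℝ) : ℝ := ∫ u in (0 : ℝ)..s, Kf α u

theorem Wf_hasDerivAt (hα : 0 < α) (s : ℝ) : HasDerivAt (Wf α) (Kf α s) s := by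
  have hc := (Kf_contDiff α hα).continuous
  exact intervalIntegral.integral_hasDerivAt_right (hc.intervalIntegrable _ _)
    (hc.stronglyMeasurableAtFilter _ _) hc.continuousAt

theorem Wf_contDiff (hα : 0 < α) : ContDiff ℝ ∞ (Wf α) := by
  rw [contDiff_infty_iff_deriv]
  refine ⟨fun s => (Wf_hasDerivAt α hα s).differentiableAt, ?_⟩
  have : deriv (Wf α) = Kf α := funext fun s => (Wf_hasDerivAt α hα s).deriv
  rw [this]
  exact Kf_contDiff α hα

/-- the potential of the source -/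
noncomputable def wf (t : ℂ) : ℝ := Wf α (‖t‖ ^ 2)

theorem wf_contDiff (hα : 0 < α) : ContDiff ℝ ∞ (wf α) :=
  (Wf_contDiff α hα).comp (contDiff_norm_sq ℝ)

theorem hasFDerivAt_normsq (t : ℂ) : HasFDerivAt (fun t : ℂ => ‖t‖ ^ 2)
    ((2 : ℝ) • innerSL ℝ t) t := by
  have h := (hasStrictFDerivAt_norm_sq t).hasFDerivAt
  simpa [two_smul] using! h

theorem pd_wf (hα : 0 < α) (v : ℂ) : pd v (wf α) = fun t => Kf α (‖t‖ ^ 2) * (2 * inner ℝ t v) := by
  funext t
  have h := (Wf_hasDerivAt α hα (‖t‖ ^ 2)).comp_hasFDerivAt t (hasFDerivAt_normsq t)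
  have h2 : fderiv ℝ (wf α) t = Kf α (‖t‖ ^ 2) • ((2 : ℝ) • innerSL ℝ t) := h.fderiv
  rw [pd, h2]
  simp

theorem pd_pd_wf (hα : 0 < α) (v : ℂ) (t : ℂ) : pd v (pd v (wf α)) t =
    deriv (Kf α) (‖t‖ ^ 2) * (2 * inner ℝ t v) ^ 2 + Kf α (‖t‖ ^ 2) * (2 * inner ℝ v v) := by
  rw [pd_wf α hα v, pd]
  have hK : HasDerivAt (Kf α) (deriv (Kf α) (‖t‖ ^ 2)) (‖t‖ ^ 2) :=
    ((Kf_contDiff α hα).differentiable (by simp) _).hasDerivAt
  have h1 := hK.comp_hasFDerivAt t (hasFDerivAt_normsq t)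
  have h2 : HasFDerivAt (fun t : ℂ => 2 * inner ℝ t v) ((2 : ℝ) • (innerSL ℝ v)) t := by
    have h3 : HasFDerivAt (fun t : ℂ => (innerSL ℝ v) t) (innerSL ℝ v) t :=
      (innerSL ℝ v).hasFDerivAt
    have h4 := h3.const_mul 2
    refine h4.congr_of_eventuallyEq (Eventually.of_forall fun x => ?_)
    simp only [innerSL_apply_apply]
    rw [real_inner_comm]
  have h5 := (h1.mul h2).fderiv
  simp only [Function.comp_apply] at h5
  have h6 : (fun t : ℂ => Kf α (‖t‖ ^ 2) * (2 * inner ℝ t v)) =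
    ((Kf α ∘ fun t : ℂ => ‖t‖ ^ 2) * fun t : ℂ => 2 * inner ℝ t v) := by
    funext x; rfl
  rw [h6, h5]
  simp only [add_apply, smul_apply, innerSL_apply_apply, smul_eq_mul]
  ring

theorem lap_wf (hα : 0 < α) (t : ℂ) : Δ (wf α) t = 4 * deriv (th α) (‖t‖ ^ 2) := by
  have h0 : ContDiffAt ℝ 2 (wf α) t := by
    have := contDiff_infty.1 (wf_contDiff α hα) 2
    exact_mod_cast this.contDiffAt
  rw [lap_eq_at h0, pd_pd_wf α hα, pd_pd_wf α hα]
  have h1 : th α = fun s => s * Kf α s := by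
    funext s
    by_cases hs : s = 0
    · rw [hs, zero_mul]; exact th_zero α hα hα.le
    · rw [Kf]; field_simp
  have h2 : deriv (th α) (‖t‖ ^ 2) = Kf α (‖t‖ ^ 2) + ‖t‖ ^ 2 * deriv (Kf α) (‖t‖ ^ 2) := by
    have hK : HasDerivAt (Kf α) (deriv (Kf α) (‖t‖ ^ 2)) (‖t‖ ^ 2) :=
      ((Kf_contDiff α hα).differentiable (by simp) _).hasDerivAt
    have h3 := (hasDerivAt_id (‖t‖ ^ 2)).mul hK
    have h4 := h3.deriv
    rw [h1]
    have h5 : (fun s => s * Kf α s) = id * Kf α := by funext x; rfl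
    rw [h5, h4]
    simp
  rw [h2, Complex.sq_norm, Complex.normSq_apply]
  simp only [Complex.inner, map_one, mul_one, Complex.conj_I, mul_neg, Complex.neg_re,
    Complex.mul_re, Complex.I_re, Complex.I_im, Complex.conj_re, Complex.conj_im, mul_zero,
    zero_sub, neg_neg, Complex.one_re, Complex.one_im]
  ring

theorem lap_wf_nonneg (hα : 0 < α) (t : ℂ) : 0 ≤ Δ (wf α) t := by
  rw [lap_wf α hα]
  exact mul_nonneg (by norm_num) ((th_mono α hα).deriv_nonneg)

theorem lap_wf_zero (hα : 0 < α) {t : ℂ} (ht : 2 * α < ‖t‖ ^ 2) : Δ (wf α) t = 0 := by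
  rw [lap_wf α hα]
  have h : th α =ᶠ[𝓝 (‖t‖ ^ 2)] fun _ => (1 : ℝ) := by
    filter_upwards [lt_mem_nhds ht] with s hs using th_one α hα (le_of_lt hs)
  rw [h.deriv_eq]; simp

theorem lap_wf_pos (hα : 0 < α) : ∃ t : ℂ, ‖t‖ ^ 2 < 2 * α ∧ Δ (wf α) t ≠ 0 := by
  have hd : Differentiable ℝ (th α) := (th_contDiff α (n := 1)).differentiable (by simp)
  obtain ⟨s, hs, hs2⟩ := exists_deriv_eq_slope (th α) (show α < 2 * α by linarith)
    hd.continuous.continuousOn hd.differentiableOn
  rw [th_one α hα le_rfl, th_zero α hα le_rfl] at hs2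
  have hs0 : 0 < s := hα.trans hs.1
  refine ⟨(Real.sqrt s : ℝ), ?_, ?_⟩
  · rw [Complex.norm_real, Real.norm_of_nonneg (Real.sqrt_nonneg _), Real.sq_sqrt hs0.le]
    exact hs.2
  · rw [lap_wf α hα, Complex.norm_real, Real.norm_of_nonneg (Real.sqrt_nonneg _),
      Real.sq_sqrt hs0.le, hs2]
    have : 0 < (1 - 0) / (2 * α - α) := by
      apply div_pos <;> linarith
    positivity

end Source

/-- the source: a potential with small support of the Laplacian -/
theorem exists_source {s0 : ℝ} (hs0 : 0 < s0) : ∃ w : ℂ → ℝ, ContDiff ℝ ∞ w ∧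
    (∀ t, 0 ≤ Δ w t) ∧ (∀ t, s0 < ‖t‖ → Δ w t = 0) ∧ (∃ t, ‖t‖ < s0 ∧ Δ w t ≠ 0) ∧
    Continuous (Δ w) := by
  have hα : 0 < s0 ^ 2 / 2 := by positivity
  refine ⟨wf (s0 ^ 2 / 2), wf_contDiff _ hα, lap_wf_nonneg _ hα, ?_, ?_, ?_⟩
  · intro t ht
    apply lap_wf_zero _ hα
    have : s0 ^ 2 < ‖t‖ ^ 2 := by gcongr
    linarith
  · obtain ⟨t, h1, h2⟩ := lap_wf_pos _ hα
    refine ⟨t, ?_, h2⟩
    by_contra hcon
    push Not at hcon
    have : s0 ^ 2 ≤ ‖t‖ ^ 2 := by gcongr
    linarith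
  · have h : Δ (wf (s0 ^ 2 / 2)) = fun t => 4 * deriv (th (s0 ^ 2 / 2)) (‖t‖ ^ 2) :=
      funext fun t => lap_wf _ hα t
    rw [h]
    have h1 : Continuous (deriv (th (s0 ^ 2 / 2))) :=
      (th_contDiff (s0 ^ 2 / 2) (n := 1)).continuous_deriv le_rfl
    fun_prop

/-! ### truncations -/

theorem exists_trunc {ε : ℝ} (hε : 0 < ε) : ∃ s s' : ℝ → ℝ, (∀ x, HasDerivAt s (s' x) x) ∧
    Continuous s' ∧ s 0 = 0 ∧ (∀ x, 0 ≤ s' x ∧ s' x ≤ 1) ∧ (∀ x, 0 ≤ s x) ∧
    (∀ x, x - ε ≤ s x) ∧ (∀ x, x ≤ 0 → s x = 0) ∧ (∀ x, 0 ≤ x → s x ≤ x) := by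
  set k : ℝ → ℝ := fun u => min 1 (max 0 (u / ε)) with hk
  have hkc : Continuous k := by fun_prop
  have hk0 : ∀ u, 0 ≤ k u := fun u => le_min zero_le_one (le_max_left _ _)
  have hk1 : ∀ u, k u ≤ 1 := fun u => min_le_left _ _
  have hkneg : ∀ u, u ≤ 0 → k u = 0 := by
    intro u hu
    rw [hk]
    have : u / ε ≤ 0 := div_nonpos_of_nonpos_of_nonneg hu hε.le
    simp only
    rw [max_eq_left this, min_eq_right zero_le_one]
  have hkbig : ∀ u, ε ≤ u → k u = 1 := by
    intro u hu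
    have : 1 ≤ u / ε := by rw [le_div_iff₀ hε]; linarith
    simp only [hk]
    rw [max_eq_right (by linarith), min_eq_left this]
  have hint : ∀ a b, IntervalIntegrable k volume a b := fun a b => hkc.intervalIntegrable a b
  set s : ℝ → ℝ := fun x => ∫ u in (0 : ℝ)..x, k u with hs
  have hder : ∀ x, HasDerivAt s (k x) x := fun x =>
    intervalIntegral.integral_hasDerivAt_right (hint _ _)
      (hkc.stronglyMeasurableAtFilter _ _) hkc.continuousAt
  have hneg : ∀ x, x ≤ 0 → s x = 0 := by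
    intro x hx
    simp only [hs]
    rw [intervalIntegral.integral_congr (g := fun _ => (0 : ℝ))]
    · simp
    · intro u hu
      rw [uIcc_of_ge hx] at hu
      exact hkneg u hu.2
  have hle : ∀ x, 0 ≤ x → s x ≤ x := by
    intro x hx
    have h1 := intervalIntegral.integral_mono_on hx (hint 0 x)
      (continuous_const.intervalIntegrable (μ := volume) 0 x (u := fun _ => (1 : ℝ)))
      (fun u _ => hk1 u)
    simpa using h1
  have hnn : ∀ x, 0 ≤ s x := by
    intro x
    rcases le_total x 0 with hx | hx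
    · rw [hneg x hx]
    · exact intervalIntegral.integral_nonneg hx fun u _ => hk0 u
  refine ⟨s, k, hder, hkc, hneg 0 le_rfl, fun x => ⟨hk0 x, hk1 x⟩, hnn, ?_, hneg, hle⟩
  intro x
  rcases le_total x ε with hx | hx
  · linarith [hnn x]
  · have h1 : s x = s ε + (x - ε) := by
      simp only [hs]
      rw [← intervalIntegral.integral_add_adjacent_intervals (hint 0 ε) (hint ε x)]
      congr 1
      rw [intervalIntegral.integral_congr (g := fun _ => (1 : ℝ))]
      · simp
      · intro u hu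
        rw [uIcc_of_le hx] at hu
        exact hkbig u hu.1
    rw [h1]
    linarith [hnn ε]

end PMAIN

end Pool.Agent.H210.Gr

namespace Pool.Agent.H210.Gr

open Metric Set MeasureTheory Topology Filter
open scoped Laplacian ContDiff ENNReal

namespace PMAIN

open PATLAS

variable {E : Type} {S : TSurf E} {en : (E → ℝ) → (E → ℝ) → ℝ}

/-! ### test functions -/

theorem test_add {f g : E → ℝ} (hf : S.Test f) (hg : S.Test g) : S.Test (fun p => f p + g p) := by
  classical
  obtain ⟨h1, F, hF, hF2⟩ := hf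
  obtain ⟨k1, G, hG, hG2⟩ := hg
  refine ⟨fun q hq => (h1 q hq).add (k1 q hq), F ∪ G, ?_, ?_⟩
  · intro q hq
    rcases Finset.mem_union.1 hq with h | h
    · exact hF q h
    · exact hG q h
  · intro p hp hne
    by_cases hfp : f p = 0
    · have hgp : g p ≠ 0 := fun h => hne (by simp [hfp, h])
      obtain ⟨q, hq, t, ht⟩ := hG2 p hp hgp
      exact ⟨q, Finset.mem_union_right _ hq, t, ht⟩
    · obtain ⟨q, hq, t, ht⟩ := hF2 p hp hfp
      exact ⟨q, Finset.mem_union_left _ hq, t, ht⟩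

theorem test_smul {f : E → ℝ} (hf : S.Test f) (a : ℝ) : S.Test (fun p => a * f p) :=
  test_comp hf (s := fun x => a * x) (contDiff_const.mul contDiff_id) (mul_zero a)

theorem test_lin {f g : E → ℝ} (hf : S.Test f) (hg : S.Test g) (a : ℝ) :
    S.Test (fun p => f p + a * g p) := test_add hf (test_smul hg a)

theorem test_zero : S.Test (fun _ => (0 : ℝ)) :=
  ⟨fun _ _ => contDiffOn_const, ∅, by simp, fun _ _ h => absurd rfl h⟩

/-! ### algebra of the form -/

theorem en_add' (he : EForm S en) {f g h : E → ℝ} (hf : S.Test f) (hg : S.Test g)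
    (hh : S.Test h) : en h (fun p => f p + g p) = en h f + en h g := by
  rw [he.symm h _ hh (test_add hf hg), he.add f g h hf hg hh, he.symm f h hf hh,
    he.symm g h hg hh]

theorem en_smul' (he : EForm S en) {f h : E → ℝ} (hf : S.Test f) (hh : S.Test h) (a : ℝ) :
    en h (fun p => a * f p) = a * en h f := by
  rw [he.symm h _ hh (test_smul hf a), he.smul a f h hf hh, he.symm f h hf hh]

theorem quad (he : EForm S en) {f g : E → ℝ} (hg : S.Test g) (hf : S.Test f) (t : ℝ) :
    en (fun p => g p + t * f p) (fun p => g p + t * f p) =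
      en g g + 2 * t * en g f + t ^ 2 * en f f := by
  have ht := test_smul hf t
  have hgt := test_lin hg hf t
  rw [he.add g (fun p => t * f p) _ hg ht hgt, en_add' he hg ht hg, en_add' he hg ht ht,
    he.smul t f _ hf hg, he.smul t f _ hf ht, en_smul' he hf hg, en_smul' he hf hf,
    he.symm f g hf hg]
  ring

theorem quad_sub (he : EForm S en) {f g : E → ℝ} (hg : S.Test g) (hf : S.Test f) :
    en (fun p => g p - f p) (fun p => g p - f p) = en g g - 2 * en g f + en f f := by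
  have h := quad he hg hf (-1)
  have h2 : (fun p => g p - f p) = fun p => g p + (-1) * f p := by funext p; ring
  rw [h2, h]; ring

theorem test_sub {f g : E → ℝ} (hf : S.Test f) (hg : S.Test g) : S.Test (fun p => f p - g p) := by
  have h2 : (fun p => f p - g p) = fun p => f p + (-1) * g p := by funext p; ring
  rw [h2]; exact test_lin hf hg _

/-! ### discs -/

theorem flow_conf {q : E} (hq : q ∈ S.L) : S.Conf (S.flow q) 0 (S.rad q) := by
  refine ⟨S.flow_inj q hq, ?_⟩
  intro x hx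
  rw [mem_ball, dist_zero_right] at hx
  have h1 := S.rad_flow q hq x hx
  refine ⟨S.flow_mem q hq x hx, S.rad q - ‖x‖, by linarith, ?_, fun y => y - x, ?_, sub_self x, ?_⟩
  · intro y hy
    rw [mem_ball, dist_eq_norm] at hy
    rw [mem_ball, dist_zero_right]
    have : ‖y‖ ≤ ‖y - x‖ + ‖x‖ := by simpa using norm_add_le (y - x) x
    linarith
  · fun_prop
  · intro y hy
    rw [mem_ball, dist_eq_norm] at hy
    refine ⟨by linarith, ?_⟩
    rw [S.flow_add q hq x (y - x) (by linarith)]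
    congr 1; ring

theorem disc_energy (he : EForm S en) {f : E → ℝ} (hf : S.Test f) {q : E} (hq : q ∈ S.L) {ρ : ℝ}
    (hρ : 0 < ρ) (hρ2 : ρ < S.rad q) :
    ∫ x in ball (0 : ℂ) ρ, ‖fderiv ℝ (fun x => f (S.flow q x)) x‖ ^ 2 ≤ en f f := by
  have h := he.bound f hf Unit (fun _ => S.flow q) (fun _ => 0) (fun _ => S.rad q) (fun _ => ρ)
    (fun _ => ⟨flow_conf hq, hρ, hρ2⟩) (fun i j hij => absurd (Subsingleton.elim i j) hij)
  simpa using h

/-! ### kernels -/

/-- admissible kernels -/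
structure Adm (ρ : ℝ) (ψ : ℂ → ℝ) : Prop where
  cont : Continuous ψ
  supp : tsupport ψ ⊆ ball (0 : ℂ) ρ

theorem Adm.compact {ρ : ℝ} {ψ : ℂ → ℝ} (h : Adm ρ ψ) : HasCompactSupport ψ :=
  HasCompactSupport.of_support_subset_isCompact (isCompact_closedBall (0 : ℂ) ρ)
    ((subset_tsupport ψ).trans (h.supp.trans ball_subset_closedBall))

theorem Adm.mono {ρ ρ' : ℝ} {ψ : ℂ → ℝ} (h : Adm ρ ψ) (hρ : ρ ≤ ρ') : Adm ρ' ψ :=
  ⟨h.cont, h.supp.trans (ball_subset_ball hρ)⟩

theorem Adm.zero_off {ρ : ℝ} {ψ : ℂ → ℝ} (h : Adm ρ ψ) {x : ℂ} (hx : x ∉ ball (0 : ℂ) ρ) :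
    ψ x = 0 := by
  by_contra hne
  exact hx (h.supp (subset_tsupport ψ hne))

theorem Adm.lin {ρ : ℝ} {ψ φ : ℂ → ℝ} (h : Adm ρ ψ) (h' : Adm ρ φ) (a : ℝ) :
    Adm ρ (fun x => φ x + a * ψ x) := by
  refine ⟨h'.cont.add (continuous_const.mul h.cont), ?_⟩
  have h1 : tsupport (fun x => a * ψ x) ⊆ tsupport ψ := tsupport_mul_subset_right
  exact (tsupport_add φ (fun x => a * ψ x)).trans (union_subset h'.supp (h1.trans h.supp))

theorem cont_mul {F ψ : ℂ → ℝ} {R : ℝ} (hF : ContinuousOn F (ball 0 R)) (h : Adm R ψ) :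
    Continuous (fun x => F x * ψ x) :=
  (hF.mul h.cont.continuousOn).continuous_of_tsupport_subset isOpen_ball
    (tsupport_mul_subset_right.trans h.supp)

theorem int_mul {F ψ : ℂ → ℝ} {R : ℝ} (hF : ContinuousOn F (ball 0 R)) (h : Adm R ψ) :
    Integrable (fun x => F x * ψ x) :=
  (cont_mul hF h).integrable_of_hasCompactSupport h.compact.mul_left

theorem test_cont {f : E → ℝ} (hf : S.Test f) {q : E} (hq : q ∈ S.L) :
    ContinuousOn (fun x => f (S.flow q x)) (ball 0 (S.rad q)) := (hf.1 q hq).continuousOn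

/-- the average of test functions against `ψ` is bounded by the energy -/
def Bdd (S : TSurf E) (en : (E → ℝ) → (E → ℝ) → ℝ) (q : E) (ψ : ℂ → ℝ) : Prop :=
  ∃ C, 0 ≤ C ∧ ∀ f, S.Test f → (∫ x, f (S.flow q x) * ψ x) ^ 2 ≤ C * en f f

theorem bdd_lin (_he : EForm S en) {q : E} (hq : q ∈ S.L) {ψ φ : ℂ → ℝ} (h1 : Adm (S.rad q) ψ)
    (h2 : Adm (S.rad q) φ) (hb1 : Bdd S en q ψ) (hb2 : Bdd S en q φ) (a : ℝ) :
    Bdd S en q (fun x => φ x + a * ψ x) := by
  obtain ⟨C1, hC1, hb1⟩ := hb1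
  obtain ⟨C2, hC2, hb2⟩ := hb2
  refine ⟨2 * C2 + 2 * a ^ 2 * C1, by positivity, fun f hf => ?_⟩
  have e1 : (fun x => f (S.flow q x) * (φ x + a * ψ x)) =
      fun x => f (S.flow q x) * φ x + a * (f (S.flow q x) * ψ x) := by funext x; ring
  rw [e1, integral_add (int_mul (test_cont hf hq) h2) ((int_mul (test_cont hf hq) h1).const_mul a),
    integral_const_mul]
  have k1 := hb1 f hf
  have k2 := hb2 f hf
  set A := ∫ x, f (S.flow q x) * ψ x
  set B := ∫ x, f (S.flow q x) * φ x
  have h3 : (B + a * A) ^ 2 ≤ 2 * B ^ 2 + 2 * a ^ 2 * A ^ 2 := by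
    nlinarith [sq_nonneg (B - a * A)]
  have h4 : a ^ 2 * A ^ 2 ≤ a ^ 2 * (C1 * en f f) := by gcongr
  nlinarith

/-- all averages at `q` are bounded by the energy -/
def Good (S : TSurf E) (en : (E → ℝ) → (E → ℝ) → ℝ) (q : E) : Prop :=
  ∀ ρ, ρ < S.rad q → ∀ ψ, Adm ρ ψ → Bdd S en q ψ

theorem bdd_zero (he : EForm S en) {q : E} (hq : q ∈ S.L) {ρ : ℝ} (hρ0 : 0 < ρ)
    (hρ : ρ < S.rad q) {ψ : ℂ → ℝ} (h1 : Adm ρ ψ) (h0 : ∫ x, ψ x = 0) : Bdd S en q ψ := by
  obtain ⟨C, hC, hp⟩ := poincare_functional ρ hρ0 ψ h1.cont h1.supp h0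
  refine ⟨C, hC, fun f hf => ?_⟩
  have h2 := hp (fun x => f (S.flow q x)) ((hf.1 q hq).mono (closedBall_subset_ball hρ))
  have h3 : ∫ x in ball (0 : ℂ) ρ, f (S.flow q x) * ψ x = ∫ x, f (S.flow q x) * ψ x :=
    setIntegral_eq_integral_of_forall_compl_eq_zero fun x hx => by rw [h1.zero_off hx, mul_zero]
  rw [h3] at h2
  exact h2.trans (mul_le_mul_of_nonneg_left (disc_energy he hf hq hρ0 hρ) hC)

theorem good_of_one (he : EForm S en) {q : E} (hq : q ∈ S.L) {ρ0 : ℝ} (hρ0 : ρ0 < S.rad q)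
    {ψ0 : ℂ → ℝ} (h1 : Adm ρ0 ψ0) (h0 : ∫ x, ψ0 x ≠ 0) (hb : Bdd S en q ψ0) : Good S en q := by
  intro ρ hρ ψ hψ
  have hq0 := S.rad_pos q hq
  set ρ' := max (max ρ ρ0) (S.rad q / 2) with hρ'
  have h2 : ρ' < S.rad q := max_lt (max_lt hρ hρ0) (by linarith)
  have h3 : 0 < ρ' := lt_of_lt_of_le (by linarith) (le_max_right _ _)
  have h4 : ρ ≤ ρ' := (le_max_left _ _).trans (le_max_left _ _)
  have h5 : ρ0 ≤ ρ' := (le_max_right _ _).trans (le_max_left _ _)
  set a := (∫ x, ψ x) / ∫ x, ψ0 x with ha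
  have h6 : Adm ρ' (fun x => ψ x + (-a) * ψ0 x) := (h1.mono h5).lin (hψ.mono h4) (-a)
  have hi1 : Integrable ψ := hψ.cont.integrable_of_hasCompactSupport hψ.compact
  have hi2 : Integrable ψ0 := h1.cont.integrable_of_hasCompactSupport h1.compact
  have h7 : ∫ x, (ψ x + (-a) * ψ0 x) = 0 := by
    rw [integral_add hi1 (hi2.const_mul _), integral_const_mul, ha]
    field_simp
    ring
  have h8 := bdd_lin he hq (h1.mono hρ0.le) (h6.mono h2.le) hb (bdd_zero he hq h3 h2 h6 h7) a
  have h9 : (fun x => (ψ x + (-a) * ψ0 x) + a * ψ0 x) = ψ := by funext x; ring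
  rwa [h9] at h8

/-- hat function -/
noncomputable def hat (ε : ℝ) (a x : ℂ) : ℝ := max 0 (ε - ‖x - a‖)

theorem hat_cont (ε : ℝ) (a : ℂ) : Continuous (hat ε a) := by unfold hat; fun_prop

theorem hat_nonneg (ε : ℝ) (a x : ℂ) : 0 ≤ hat ε a x := le_max_left _ _

theorem hat_supp (ε : ℝ) (a : ℂ) : tsupport (hat ε a) ⊆ closedBall a ε := by
  apply closure_minimal _ isClosed_closedBall
  intro x hx
  rw [mem_closedBall, dist_eq_norm]
  by_contra hcon
  push Not at hcon
  exact hx (max_eq_left (by linarith))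

theorem hat_compact (ε : ℝ) (a : ℂ) : HasCompactSupport (hat ε a) :=
  HasCompactSupport.of_support_subset_isCompact (isCompact_closedBall a ε)
    ((subset_tsupport _).trans (hat_supp ε a))

theorem hat_pos {ε : ℝ} (hε : 0 < ε) (a : ℂ) : 0 < hat ε a a := by
  rw [hat, sub_self, norm_zero, sub_zero]
  exact lt_max_of_lt_right hε

theorem hat_int_pos {ε : ℝ} (hε : 0 < ε) (a : ℂ) : 0 < ∫ x, hat ε a x :=
  (hat_cont ε a).integral_pos_of_hasCompactSupport_nonneg_nonzero (hat_compact ε a)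
    (hat_nonneg ε a) (x := a) (hat_pos hε a).ne'

theorem hat_le (ε : ℝ) (hε : 0 ≤ ε) (a x : ℂ) : hat ε a x ≤ ε :=
  max_le hε (by linarith [norm_nonneg (x - a)])

theorem hat_adm {ε ρ : ℝ} {a : ℂ} (h : ‖a‖ + ε < ρ) : Adm ρ (hat ε a) := by
  refine ⟨hat_cont ε a, (hat_supp ε a).trans ?_⟩
  intro x hx
  rw [mem_closedBall, dist_eq_norm] at hx
  rw [mem_ball, dist_zero_right]
  have : ‖x‖ ≤ ‖x - a‖ + ‖a‖ := by simpa using norm_add_le (x - a) a
  linarith

theorem good_step (he : EForm S en) {q : E} (hq : q ∈ S.L) (hg : Good S en q) {t : ℂ}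
    (ht : ‖t‖ < S.rad q) : Good S en (S.flow q t) := by
  have hq' := S.flow_mem q hq t ht
  have hr := S.rad_flow q hq t ht
  set ε := (S.rad q - ‖t‖) / 4 with hε
  have hε0 : 0 < ε := by rw [hε]; linarith
  have h1 : Adm (S.rad (S.flow q t) / 2) (hat ε 0) := hat_adm (by rw [norm_zero]; linarith)
  refine good_of_one he hq' (by linarith [S.rad_pos _ hq']) h1 (hat_int_pos hε0 0).ne' ?_
  obtain ⟨C, hC, hb⟩ := hg (‖t‖ + 2 * ε) (by linarith) (hat ε t) (hat_adm (by linarith))
  refine ⟨C, hC, fun f hf => ?_⟩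
  refine le_trans (le_of_eq ?_) (hb f hf)
  congr 1
  rw [← integral_sub_right_eq_self (fun x => f (S.flow (S.flow q t) x) * hat ε 0 x) t]
  apply integral_congr_ae
  refine Eventually.of_forall fun x => ?_
  simp only
  have e1 : hat ε 0 (x - t) = hat ε t x := by rw [hat, hat, sub_zero]
  rw [e1]
  by_cases hx : ‖x - t‖ < ε
  · rw [S.flow_add q hq t (x - t) (by linarith)]
    congr 3; ring
  · push Not at hx
    have : hat ε t x = 0 := max_eq_left (by linarith)
    rw [this, mul_zero, mul_zero]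

end PMAIN

end Pool.Agent.H210.Gr

namespace Pool.Agent.H210.Gr

open Metric Set MeasureTheory Topology Filter
open scoped Laplacian ContDiff ENNReal

namespace PMAIN

open PATLAS

variable {E : Type} {S : TSurf E} {en : (E → ℝ) → (E → ℝ) → ℝ}

theorem en_trunc_le (he : EForm S en) {f : E → ℝ} (hf : S.Test f) {s s' : ℝ → ℝ}
    (hs : ∀ x, HasDerivAt s (s' x) x) (hs' : Continuous s') (hs0 : s 0 = 0)
    (hs1 : ∀ x, 0 ≤ s' x ∧ s' x ≤ 1) :
    S.Test (fun p => s (f p)) ∧ en (fun p => s (f p)) (fun p => s (f p)) ≤ en f f := by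
  have hder : deriv s = s' := funext fun x => (hs x).deriv
  have hsC : ContDiff ℝ 1 s := by
    rw [contDiff_one_iff_deriv]
    exact ⟨fun x => (hs x).differentiableAt, by rwa [hder]⟩
  have ht := test_comp hf hsC hs0
  refine ⟨ht, ?_⟩
  have h1 := he.trunc s s' hs hs' hs0 hs1 f hf
  have h2 := he.nonneg _ (test_sub hf ht)
  linarith

theorem gamma_cont {γ : ℂ → E} {c : ℂ} {R : ℝ} (hγ : S.Loc γ c R) {f : E → ℝ} (hf : S.Test f) :
    ContinuousOn (fun x => f (γ x)) (ball c R) := by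
  obtain ⟨D, hD⟩ := exists_locD hγ
  exact fun x hx => (fderiv_comp hD hf hx).continuousAt.continuousWithinAt

/-- comparison of the averages of nonnegative functions -/
theorem compare {γ : ℂ → E} {c : ℂ} {R r : ℝ} (hγ : S.Conf γ c R) (hr : 0 < r) (hrR : r < R) :
    ∃ δ K : ℝ, 0 < δ ∧ δ < S.rad (γ c) ∧ 0 ≤ K ∧ ∀ f, S.Test f → (∀ p, 0 ≤ f p) →
      ∫ x in ball (0 : ℂ) δ, f (S.flow (γ c) x) ≤ K * ∫ x in ball c r, f (γ x) := by
  obtain ⟨hqL, ε, hε, hball, τ, hτd, hτ0, hτ⟩ := hγ.2 c (mem_ball_self (hr.trans hrR))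
  set q := γ c with hq
  have hq0 := S.rad_pos q hqL
  have hinj : InjOn τ (ball c ε) := by
    intro x hx y hy hxy
    apply hγ.1 (hball hx) (hball hy)
    rw [(hτ x hx).2, (hτ y hy).2, hxy]
  have hA : AnalyticOnNhd ℂ τ (ball c ε) := hτd.analyticOnNhd isOpen_ball
  set ε' := min (ε / 2) r with hε'
  have hε'0 : 0 < ε' := lt_min (by linarith) hr
  have hε'1 : ε' < ε := lt_of_le_of_lt (min_le_left _ _) (by linarith)
  have hsub : ball c ε' ⊆ ball c ε := ball_subset_ball hε'1.le
  have hopen : IsOpen (τ '' ball c ε') := by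
    rcases hA.is_constant_or_isOpen (convex_ball c ε).isPreconnected with ⟨w, hw⟩ | h
    · exfalso
      have h1 : c + ((ε / 2 : ℝ) : ℂ) ∈ ball c ε := by
        rw [mem_ball, dist_eq_norm, add_sub_cancel_left, Complex.norm_real,
          Real.norm_of_nonneg (by linarith)]
        linarith
      have h2 := hinj h1 (mem_ball_self hε) ((hw _ h1).trans (hw c (mem_ball_self hε)).symm)
      have h3 : ((ε / 2 : ℝ) : ℂ) = 0 := by simpa using h2
      rw [Complex.ofReal_eq_zero] at h3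
      linarith
    · exact h _ hsub isOpen_ball
  obtain ⟨δ0, hδ0, hδs⟩ := Metric.isOpen_iff.1 hopen 0 ⟨c, mem_ball_self hε'0, hτ0⟩
  obtain ⟨K, hK⟩ := (isCompact_closedBall c ε').exists_bound_of_continuousOn
    (f := deriv τ) (fun x hx => by
      have h1 : x ∈ ball c ε := closedBall_subset_ball hε'1 hx
      exact ((hA x h1).deriv.continuousAt).continuousWithinAt)
  have hder : ∀ x ∈ ball c ε, HasDerivAt τ (deriv τ x) x := fun x hx =>
    (hA x hx).differentiableAt.hasDerivAt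
  set δ := min δ0 (S.rad q / 2) with hδ
  refine ⟨δ, K ^ 2, lt_min hδ0 (by linarith), lt_of_le_of_lt (min_le_right _ _) (by linarith),
    by positivity, ?_⟩
  intro f hf hf0
  have hcγ := gamma_cont hγ.2 hf
  have hi1 : IntegrableOn (fun x => f (S.flow q x)) (ball (0 : ℂ) δ) :=
    (((test_cont hf hqL).mono (closedBall_subset_ball (lt_of_le_of_lt (min_le_right _ _)
      (by linarith)))).integrableOn_compact (isCompact_closedBall 0 δ)).mono_set
      ball_subset_closedBall
  have hi2 : IntegrableOn (fun x => f (γ x)) (ball c r) :=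
    ((hcγ.mono (closedBall_subset_ball hrR)).integrableOn_compact
      (isCompact_closedBall c r)).mono_set ball_subset_closedBall
  have hnn1 : 0 ≤ ∫ x in ball c r, f (γ x) := integral_nonneg fun x => hf0 _
  rw [← ENNReal.ofReal_le_ofReal_iff (by positivity), ENNReal.ofReal_mul (by positivity),
    ofReal_integral_eq_lintegral_ofReal hi1 (Eventually.of_forall fun x => hf0 _),
    ofReal_integral_eq_lintegral_ofReal hi2 (Eventually.of_forall fun x => hf0 _)]
  calc ∫⁻ x in ball (0 : ℂ) δ, ENNReal.ofReal (f (S.flow q x))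
      ≤ ∫⁻ x in τ '' ball c ε', ENNReal.ofReal (f (S.flow q x)) :=
        lintegral_mono_set ((ball_subset_ball (min_le_left _ _)).trans hδs)
    _ = ∫⁻ x in ball c ε', ENNReal.ofReal |(deriv τ x • (1 : ℂ →L[ℝ] ℂ)).det| *
          ENNReal.ofReal (f (S.flow q (τ x))) :=
        lintegral_image_eq_lintegral_abs_det_fderiv_mul volume measurableSet_ball
          (fun x hx => (hder x (hsub hx)).complexToReal_fderiv.hasFDerivWithinAt)
          (hinj.mono hsub) (fun x => ENNReal.ofReal (f (S.flow q x)))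
    _ ≤ ∫⁻ x in ball c ε', ENNReal.ofReal (K ^ 2) * ENNReal.ofReal (f (γ x)) := by
        refine setLIntegral_mono' measurableSet_ball fun x hx => ?_
        rw [det_eq, (hτ x (hsub hx)).2]
        gcongr
        exact hK x (ball_subset_closedBall hx)
    _ = ENNReal.ofReal (K ^ 2) * ∫⁻ x in ball c ε', ENNReal.ofReal (f (γ x)) :=
        lintegral_const_mul' _ _ ENNReal.ofReal_ne_top
    _ ≤ ENNReal.ofReal (K ^ 2) * ∫⁻ x in ball c r, ENNReal.ofReal (f (γ x)) := by
        gcongr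
        exact min_le_right _ _

theorem bdd_source (he : EForm S en) {γ : ℂ → E} {c : ℂ} {R r C : ℝ} (hγ : S.Conf γ c R)
    (hr : 0 < r) (hrR : r < R) (hC : 0 ≤ C)
    (h : ∀ f, S.Test f → ∀ B, 0 ≤ B → S.EBound f B → (∫ x in ball c r, f (γ x)) ^ 2 ≤ C * B) :
    Good S en (γ c) := by
  have hqL : γ c ∈ S.L := (hγ.2 c (mem_ball_self (hr.trans hrR))).1
  obtain ⟨δ, K, hδ, hδ2, hK, hcomp⟩ := compare hγ hr hrR
  set q := γ c with hq
  have hq0 := S.rad_pos q hqL
  set ε0 := min (δ / 2) 1 with hε0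
  have hε00 : 0 < ε0 := lt_min (by linarith) one_pos
  have hε01 : ε0 ≤ δ / 2 := min_le_left _ _
  have hadm : Adm δ (hat ε0 0) := hat_adm (by rw [norm_zero]; linarith)
  have hadm' : Adm (S.rad q) (hat ε0 0) := hadm.mono hδ2.le
  have hI := hat_int_pos hε00 0
  refine good_of_one he hqL hδ2 hadm hI.ne' ?_
  -- the bound for nonnegative functions
  have hpos : ∀ f, S.Test f → (∀ p, 0 ≤ f p) → 0 ≤ ∫ x, f (S.flow q x) * hat ε0 0 x ∧
      ∫ x, f (S.flow q x) * hat ε0 0 x ≤ K * Real.sqrt (C * en f f) := by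
    intro f hf hf0
    refine ⟨integral_nonneg fun x => mul_nonneg (hf0 _) (hat_nonneg _ _ _), ?_⟩
    have h1 : ∫ x in ball (0 : ℂ) δ, f (S.flow q x) * hat ε0 0 x =
        ∫ x, f (S.flow q x) * hat ε0 0 x :=
      setIntegral_eq_integral_of_forall_compl_eq_zero fun x hx => by
        rw [hadm.zero_off hx, mul_zero]
    have hi1 : IntegrableOn (fun x => f (S.flow q x)) (ball (0 : ℂ) δ) :=
      (((test_cont hf hqL).mono (closedBall_subset_ball hδ2)).integrableOn_compact
        (isCompact_closedBall 0 δ)).mono_set ball_subset_closedBall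
    have h2 : ∫ x in ball (0 : ℂ) δ, f (S.flow q x) * hat ε0 0 x ≤
        ∫ x in ball (0 : ℂ) δ, f (S.flow q x) := by
      refine setIntegral_mono_on (int_mul (test_cont hf hqL) hadm').integrableOn hi1
        measurableSet_ball fun x _ => ?_
      have h3 := hat_le ε0 hε00.le 0 x
      have h4 : ε0 ≤ 1 := min_le_right _ _
      nlinarith [hf0 (S.flow q x)]
    have h3 := h f hf (en f f) (he.nonneg f hf) (he.bound f hf)
    have h4 : ∫ x in ball c r, f (γ x) ≤ Real.sqrt (C * en f f) := Real.le_sqrt_of_sq_le h3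
    rw [← h1]
    exact (h2.trans (hcomp f hf hf0)).trans (mul_le_mul_of_nonneg_left h4 hK)
  refine ⟨4 * K ^ 2 * C, by positivity, fun f hf => ?_⟩
  have hen := he.nonneg f hf
  have hmf := test_smul hf (-1)
  have hmen : en (fun p => (-1) * f p) (fun p => (-1) * f p) = en f f := by
    rw [he.smul (-1) f _ hf hmf, en_smul' he hf hf]; ring
  have key : |∫ x, f (S.flow q x) * hat ε0 0 x| ≤ 2 * (K * Real.sqrt (C * en f f)) := by
    apply le_of_forall_pos_le_add
    intro ε' hε'
    set ε := ε' / ∫ x, hat ε0 0 x with hε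
    have hεpos : 0 < ε := div_pos hε' hI
    obtain ⟨s, s', hs, hs', hs0, hs1, hsn, hsl, hsneg, hsle⟩ := exists_trunc hεpos
    obtain ⟨ht1, he1⟩ := en_trunc_le he hf hs hs' hs0 hs1
    obtain ⟨ht2, he2⟩ := en_trunc_le he hmf hs hs' hs0 hs1
    rw [hmen] at he2
    obtain ⟨p1, p2⟩ := hpos _ ht1 (fun p => hsn _)
    obtain ⟨q1, q2⟩ := hpos _ ht2 (fun p => hsn _)
    have p3 : K * Real.sqrt (C * en (fun p => s (f p)) (fun p => s (f p))) ≤
        K * Real.sqrt (C * en f f) := by gcongr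
    have q3 : K * Real.sqrt (C * en (fun p => s (-1 * f p)) (fun p => s (-1 * f p))) ≤
        K * Real.sqrt (C * en f f) := by gcongr
    have hI1 := int_mul (test_cont ht1 hqL) hadm'
    have hI2 := int_mul (test_cont ht2 hqL) hadm'
    have hI3 := int_mul (test_cont hf hqL) hadm'
    have habs : ∀ x : ℝ, |x - (s x - s (-1 * x))| ≤ ε := by
      intro x
      rcases le_total 0 x with hx | hx
      · rw [hsneg (-1 * x) (by linarith), abs_le]
        have := hsl x
        have := hsle x hx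
        constructor <;> linarith
      · rw [hsneg x hx, abs_le]
        have := hsl (-1 * x)
        have := hsle (-1 * x) (by linarith)
        constructor <;> linarith
    have e1 : ∫ x, f (S.flow q x) * hat ε0 0 x =
        (∫ x, s (f (S.flow q x)) * hat ε0 0 x) - (∫ x, s (-1 * f (S.flow q x)) * hat ε0 0 x) +
        ∫ x, (f (S.flow q x) - (s (f (S.flow q x)) - s (-1 * f (S.flow q x)))) * hat ε0 0 x := by
      have h5 : (fun x => (f (S.flow q x) - (s (f (S.flow q x)) - s (-1 * f (S.flow q x)))) *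
          hat ε0 0 x) = fun x => f (S.flow q x) * hat ε0 0 x - (s (f (S.flow q x)) * hat ε0 0 x -
          s (-1 * f (S.flow q x)) * hat ε0 0 x) := by funext x; ring
      have hI12 : Integrable (fun x => s (f (S.flow q x)) * hat ε0 0 x -
          s (-1 * f (S.flow q x)) * hat ε0 0 x) := hI1.sub hI2
      rw [h5, integral_sub hI3 hI12, integral_sub hI1 hI2]
      ring
    have e2 : |∫ x, (f (S.flow q x) - (s (f (S.flow q x)) - s (-1 * f (S.flow q x)))) *
        hat ε0 0 x| ≤ ε' := by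
      have h6 : ‖∫ x, (f (S.flow q x) - (s (f (S.flow q x)) - s (-1 * f (S.flow q x)))) *
          hat ε0 0 x‖ ≤ ∫ x, ε * hat ε0 0 x := by
        refine norm_integral_le_of_norm_le
          (((hat_cont ε0 0).integrable_of_hasCompactSupport (hat_compact ε0 0)).const_mul ε) ?_
        refine Eventually.of_forall fun x => ?_
        rw [norm_mul, Real.norm_eq_abs, Real.norm_of_nonneg (hat_nonneg _ _ _)]
        exact mul_le_mul_of_nonneg_right (habs _) (hat_nonneg _ _ _)
      rw [integral_const_mul, hε, div_mul_cancel₀ _ hI.ne'] at h6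
      exact h6
    rw [e1]
    rw [abs_le] at e2 ⊢
    constructor <;> linarith
  have hsq : (∫ x, f (S.flow q x) * hat ε0 0 x) ^ 2 ≤ (2 * (K * Real.sqrt (C * en f f))) ^ 2 := by
    rw [← sq_abs]
    gcongr
  refine hsq.trans (le_of_eq ?_)
  rw [mul_pow, mul_pow, Real.sq_sqrt (by positivity)]
  ring

theorem all_good (he : EForm S en) {γ : ℂ → E} {c : ℂ} {R r C : ℝ} (hγ : S.Conf γ c R)
    (hr : 0 < r) (hrR : r < R) (hC : 0 ≤ C)
    (h : ∀ f, S.Test f → ∀ B, 0 ≤ B → S.EBound f B → (∫ x in ball c r, f (γ x)) ^ 2 ≤ C * B)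
    {q : E} (hq : q ∈ S.L) : Good S en q := by
  have hqL : γ c ∈ S.L := (hγ.2 c (mem_ball_self (hr.trans hrR))).1
  have h1 := bdd_source he hγ hr hrR hC h
  have h2 := S.conn (γ c) hqL q hq
  clear hq
  have h3 : q ∈ S.L ∧ Good S en q := by
    induction h2 with
    | refl => exact ⟨hqL, h1⟩
    | tail _ hstep ih =>
      obtain ⟨a1, a2⟩ := ih
      obtain ⟨t, ht, rfl⟩ := hstep
      exact ⟨S.flow_mem _ a1 t ht, good_step he a1 a2 ht⟩
  exact h3.2

end PMAIN

end Pool.Agent.H210.Gr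

namespace Pool.Agent.H210.Gr

open Metric Set MeasureTheory Topology Filter
open scoped Laplacian ContDiff ENNReal

namespace PMAIN

open PATLAS

variable {E : Type} {S : TSurf E} {en : (E → ℝ) → (E → ℝ) → ℝ}

theorem min_seq (he : EForm S en) (l : (E → ℝ) → ℝ) (C I : ℝ) (hC : 0 ≤ C) (hI : 0 ≤ I)
    (hadd : ∀ f g, S.Test f → S.Test g → ∀ a : ℝ, l (fun p => f p + a * g p) = l f + a * l g)
    (hb : ∀ f, S.Test f → l f ^ 2 ≤ C * en f f)
    (hpos : ∀ f, S.Test f → ∀ (s : ℝ → ℝ) (ε : ℝ), 0 < ε → S.Test (fun p => s (f p)) →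
      (∀ x, x - ε ≤ s x) → l f - ε * I ≤ l (fun p => s (f p))) :
    ∃ g : ℕ → E → ℝ, (∀ n, S.Test (g n)) ∧ (∀ n p, 0 ≤ g n p) ∧
      (∀ ε > 0, ∃ N, ∀ m ≥ N, ∀ n ≥ N,
        en (fun p => g m p - g n p) (fun p => g m p - g n p) ≤ ε) ∧
      ∀ f, S.Test f → Tendsto (fun n => en (g n) f) atTop (𝓝 (l f)) := by
  classical
  set J : (E → ℝ) → ℝ := fun f => en f f - 2 * l f with hJ
  have hJC : ∀ f, S.Test f → -C ≤ J f := by
    intro f hf
    have h1 := hb f hf
    have h2 := he.nonneg f hf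
    have h3 : (2 * l f) ^ 2 ≤ (C + en f f) ^ 2 := by nlinarith [sq_nonneg (C - en f f)]
    have h4 := abs_le_of_sq_le_sq' h3 (by positivity)
    simp only [hJ]
    linarith [h4.2]
  set A : Set ℝ := {x | ∃ f, S.Test f ∧ J f = x} with hA
  have hAne : A.Nonempty := ⟨J (fun _ => 0), _, test_zero, rfl⟩
  have hAbdd : BddBelow A := ⟨-C, by rintro x ⟨f, hf, rfl⟩; exact hJC f hf⟩
  set m := sInf A with hm
  have hmle : ∀ f, S.Test f → m ≤ J f := fun f hf => csInf_le hAbdd ⟨f, hf, rfl⟩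
  have hex : ∀ n : ℕ, ∃ g : E → ℝ, S.Test g ∧ (∀ p, 0 ≤ g p) ∧
      J g ≤ m + (1 + 2 * I) * (1 / ((n : ℝ) + 1)) := by
    intro n
    have hn : (0 : ℝ) < 1 / ((n : ℝ) + 1) := by positivity
    obtain ⟨x, ⟨f, hf, rfl⟩, hx⟩ := exists_lt_of_csInf_lt hAne
      (show sInf A < m + 1 / ((n : ℝ) + 1) by linarith)
    obtain ⟨s, s', hs, hs', hs0, hs1, hsn, hsl, -, -⟩ := exists_trunc hn
    obtain ⟨ht, hle⟩ := en_trunc_le he hf hs hs' hs0 hs1
    refine ⟨fun p => s (f p), ht, fun p => hsn _, ?_⟩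
    have h1 := hpos f hf s _ hn ht hsl
    simp only [hJ] at hx ⊢
    linarith
  choose g hg hg0 hgJ using hex
  set d : ℕ → ℝ := fun n => (1 + 2 * I) * (1 / ((n : ℝ) + 1)) with hd
  have hd0 : Tendsto d atTop (𝓝 0) := by
    have := (tendsto_one_div_add_atTop_nhds_zero_nat (𝕜 := ℝ)).const_mul (1 + 2 * I)
    rw [mul_zero] at this
    exact this
  have hdpos : ∀ n, 0 ≤ d n := fun n => by simp only [hd]; positivity
  refine ⟨g, hg, hg0, ?_, ?_⟩
  · intro ε hε
    have h1 : ∀ᶠ n in atTop, d n < ε / 4 := hd0.eventually (gt_mem_nhds (by positivity))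
    obtain ⟨N, hN⟩ := eventually_atTop.1 h1
    refine ⟨N, fun a ha b hb' => ?_⟩
    have h2 := hN a ha
    have h3 := hN b hb'
    have hh : S.Test (fun p => (1 / 2 : ℝ) * (g a p + 1 * g b p)) :=
      test_smul (test_lin (hg a) (hg b) 1) _
    have h4 := hmle _ hh
    have hlin := test_lin (hg a) (hg b) 1
    have e1 : l (fun p => (1 / 2 : ℝ) * (g a p + 1 * g b p)) = (1 / 2) * (l (g a) + l (g b)) := by
      have k1 := hadd (fun _ => 0) _ test_zero hlin (1 / 2)
      have k0 := hadd (fun _ => 0) _ test_zero test_zero 1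
      have k2 := hadd (g a) (g b) (hg a) (hg b) 1
      simp only [zero_add, mul_zero] at k0 k1
      rw [k1, k2]
      linarith
    have e2 : en (fun p => (1 / 2 : ℝ) * (g a p + 1 * g b p))
        (fun p => (1 / 2 : ℝ) * (g a p + 1 * g b p)) =
        (1 / 4) * (en (g a) (g a) + 2 * en (g a) (g b) + en (g b) (g b)) := by
      rw [he.smul _ _ _ hlin hh, en_smul' he hlin hlin, quad he (hg a) (hg b) 1]
      ring
    have e3 := quad_sub he (hg a) (hg b)
    rw [e3]
    have h5 := hgJ a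
    have h6 := hgJ b
    simp only [hJ] at h4 h5 h6
    rw [e1, e2] at h4
    simp only [hd] at h2 h3
    linarith
  · intro f hf
    have hkey : ∀ n, (en (g n) f - l f) ^ 2 ≤ en f f * d n := by
      intro n
      have h1 : ∀ t : ℝ, 0 ≤ en f f * (t * t) + 2 * (en (g n) f - l f) * t + d n := by
        intro t
        have h2 := hmle _ (test_lin (hg n) hf t)
        have h3 := hgJ n
        simp only [hJ] at h2 h3
        rw [quad he (hg n) hf t, hadd _ _ (hg n) hf t] at h2
        simp only [hd]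
        nlinarith
      have h2 := discrim_le_zero h1
      rw [discrim] at h2
      nlinarith
    have h2 : Tendsto (fun n => Real.sqrt (en f f * d n)) atTop (𝓝 0) := by
      have h3 := (hd0.const_mul (en f f)).sqrt
      simpa using h3
    have h3 : Tendsto (fun n => en (g n) f - l f) atTop (𝓝 0) := by
      refine squeeze_zero_norm (fun n => ?_) h2
      rw [Real.norm_eq_abs]
      exact Real.abs_le_sqrt (hkey n)
    have h4 := h3.add_const (l f)
    simpa using h4

end PMAIN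

end Pool.Agent.H210.Gr

namespace Pool.Agent.H210.Gr

open Metric Set MeasureTheory Topology Filter
open scoped Laplacian ContDiff ENNReal

namespace PMAIN

open PATLAS

variable {E : Type} {S : TSurf E} {en : (E → ℝ) → (E → ℝ) → ℝ}

/-! ### extension of functions of a disc -/

theorem sel_flow_local {p q : E} (hp : p ∈ S.L) (hq : q ∈ S.L) {t : ℂ} (ht : ‖t‖ < S.rad p)
    (h : In S q (S.flow p t)) : ∀ᶠ t' in 𝓝 t, In S q (S.flow p t') ∧
      sel S q (S.flow p t') = sel S q (S.flow p t) + (t' - t) := by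
  obtain ⟨h1, h2⟩ := sel_spec h
  set s := sel S q (S.flow p t) with hs
  have hδ : 0 < min (S.rad p - ‖t‖) (S.rad q - ‖s‖) := lt_min (by linarith) (by linarith)
  filter_upwards [ball_mem_nhds t hδ] with y hy
  rw [mem_ball, dist_eq_norm] at hy
  have hy1 := hy.trans_le (min_le_left _ _)
  have hy2 := hy.trans_le (min_le_right _ _)
  have e1 : S.flow p y = S.flow q (s + (y - t)) := by
    rw [← S.flow_add q hq s (y - t) (by linarith), h2, S.flow_add p hp t (y - t) (by linarith)]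
    congr 1; ring
  have h3 : ‖s + (y - t)‖ < S.rad q := by linarith [norm_add_le s (y - t)]
  exact ⟨⟨_, h3, e1.symm⟩, by rw [e1, sel_eq hq h3]⟩

open Classical in
/-- extension by zero of a function of the disc at `q` -/
noncomputable def ext (S : TSurf E) (q : E) (η : ℂ → ℝ) (p : E) : ℝ :=
  if In S q p then η (sel S q p) else 0

theorem ext_flow {q : E} (hq : q ∈ S.L) (η : ℂ → ℝ) {s : ℂ} (hs : ‖s‖ < S.rad q) :
    ext S q η (S.flow q s) = η s := by
  rw [ext, if_pos ⟨s, hs, rfl⟩, sel_eq hq hs]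

theorem ext_ne {q : E} {η : ℂ → ℝ} {p : E} (h : ext S q η p ≠ 0) :
    ∃ s : ℂ, ‖s‖ < S.rad q ∧ S.flow q s = p ∧ η s ≠ 0 := by
  rw [ext] at h
  split_ifs at h with h1
  · obtain ⟨h2, h3⟩ := sel_spec h1
    exact ⟨_, h2, h3, h⟩
  · exact absurd rfl h

theorem ext_test {q : E} (hq : q ∈ S.L) {ρ : ℝ} (hρ : ρ ≤ S.rad q / 2) {η : ℂ → ℝ}
    (hη : ContDiff ℝ 1 η) (hs : Adm ρ η) : S.Test (ext S q η) := by
  have hq0 := S.rad_pos q hq
  refine ⟨?_, {q}, by simpa using hq, ?_⟩
  · intro p hp t ht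
    rw [mem_ball, dist_zero_right] at ht
    apply ContDiffAt.contDiffWithinAt
    have hp' := S.flow_mem p hp t ht
    by_cases h : In S q (S.flow p t)
    · have h1 := sel_flow_local hp hq ht h
      have h2 : (fun t => ext S q η (S.flow p t)) =ᶠ[𝓝 t]
          fun y => η (sel S q (S.flow p t) + (y - t)) := by
        filter_upwards [h1] with y hy
        rw [ext, if_pos hy.1, hy.2]
      refine ContDiffAt.congr_of_eventuallyEq ?_ h2
      exact (hη.comp (contDiff_const.add (contDiff_id.sub contDiff_const))).contDiffAt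
    · have h1 : ∀ s : ℂ, ‖s‖ ≤ S.rad q / 2 → S.flow q s ≠ S.flow p t := by
        intro s hs2 hs3
        exact h ⟨s, by linarith, hs3⟩
      have h2 := closed_image hp' hq (r := S.rad q / 2) (by linarith) h1
      have h3 : Tendsto (fun y : ℂ => y - t) (𝓝 t) (𝓝 0) := by
        have : Continuous fun y : ℂ => y - t := by fun_prop
        simpa using this.tendsto t
      have h4 := h3.eventually h2
      have h5 : (fun t => ext S q η (S.flow p t)) =ᶠ[𝓝 t] fun _ => (0 : ℝ) := by
        have hδ : 0 < S.rad p - ‖t‖ := by linarith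
        filter_upwards [h4, ball_mem_nhds t hδ] with y hy hy2
        rw [mem_ball, dist_eq_norm] at hy2
        by_contra hne
        obtain ⟨s, hs1, hs2, hs3⟩ := ext_ne hne
        have hs4 : ‖s‖ < ρ := by
          by_contra hcon
          exact hs3 (hs.zero_off (by simpa using hcon))
        apply hy s (by linarith)
        rw [hs2, S.flow_add p hp t (y - t) (by linarith)]
        congr 1; ring
      exact contDiffAt_const.congr_of_eventuallyEq h5
  · intro p hp hne
    obtain ⟨s, hs1, hs2, hs3⟩ := ext_ne hne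
    refine ⟨q, by simp, s, ?_, hs2.symm⟩
    by_contra hcon
    exact hs3 (hs.zero_off (by
      rw [mem_ball, dist_zero_right]
      linarith))

/-! ### translation between discs -/

theorem lap_translate (w : ℂ → ℝ) (a x : ℂ) : Δ (fun x => w (x - a)) x = Δ w (x - a) := by
  rw [InnerProductSpace.laplacian_eq_iteratedFDeriv_complexPlane,
    InnerProductSpace.laplacian_eq_iteratedFDeriv_complexPlane]
  simp only [iteratedFDeriv_comp_sub]

theorem translate {q0 q : E} (hq0 : q0 ∈ S.L) (hq : q ∈ S.L) {t0 s1 : ℂ}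
    (ht0 : ‖t0‖ ≤ S.rad q0 / 10) (hs1 : ‖s1‖ ≤ S.rad q / 10) (h : S.flow q0 t0 = S.flow q s1)
    {t : ℂ} (ht : ‖t‖ ≤ S.rad q0 / 10) :
    ‖t + (s1 - t0)‖ < S.rad q ∧ S.flow q0 t = S.flow q (t + (s1 - t0)) := by
  have a0 := S.rad_pos q0 hq0
  have a1 := S.rad_pos q hq
  have h1 := S.rad_flow q0 hq0 t0 (by linarith)
  have h2 := S.rad_flow q hq s1 (by linarith)
  have h3 : S.flow (S.flow q s1) (-s1) = q := by
    rw [S.flow_add q hq s1 (-s1) (by rw [norm_neg]; linarith), add_neg_cancel,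
      S.flow_zero q hq]
  have h4 := S.rad_flow (S.flow q s1) (S.flow_mem q hq s1 (by linarith)) (-s1)
    (by rw [norm_neg]; linarith)
  rw [h3, norm_neg, ← h] at h4
  have h5 : ‖t - t0‖ ≤ ‖t‖ + ‖t0‖ := norm_sub_le t t0
  have h6 : ‖t + (s1 - t0)‖ ≤ ‖s1‖ + ‖t - t0‖ := by
    have := norm_add_le s1 (t - t0)
    rwa [show s1 + (t - t0) = t + (s1 - t0) by ring] at this
  refine ⟨by linarith, ?_⟩
  have e1 : S.flow q0 t = S.flow (S.flow q0 t0) (t - t0) := by
    rw [S.flow_add q0 hq0 t0 (t - t0) (by linarith)]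
    congr 1; ring
  rw [e1, h, S.flow_add q hq s1 (t - t0) (by linarith)]
  congr 1; ring

/-- the source seen in the chart at `q` -/
theorem exists_wq {q0 : E} (hq0 : q0 ∈ S.L) {w : ℂ → ℝ} (hw : ContDiff ℝ ∞ w)
    (hw0 : ∀ t, 0 ≤ Δ w t) (hws : ∀ t : ℂ, S.rad q0 / 10 < ‖t‖ → Δ w t = 0)
    {q : E} (hq : q ∈ S.L) : ∃ wq : ℂ → ℝ, ContDiff ℝ ∞ wq ∧ (∀ x, 0 ≤ Δ wq x) ∧
      (∀ η, Adm (S.rad q / 10) η → ∫ t, ext S q η (S.flow q0 t) * Δ w t = ∫ x, Δ wq x * η x) ∧
      (q = q0 → wq = w) := by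
  have a0 := S.rad_pos q0 hq0
  have main : ∀ t0 s1 : ℂ, ‖t0‖ ≤ S.rad q0 / 10 → ‖s1‖ ≤ S.rad q / 10 →
      S.flow q0 t0 = S.flow q s1 → ∀ η, Adm (S.rad q / 10) η →
      ∫ t, ext S q η (S.flow q0 t) * Δ w t = ∫ x, Δ (fun x => w (x - (s1 - t0))) x * η x := by
    intro t0 s1 ht0 hs1 h η hη
    rw [← integral_add_right_eq_self (fun x => Δ (fun x => w (x - (s1 - t0))) x * η x) (s1 - t0)]
    congr 1
    funext t
    rw [lap_translate, add_sub_cancel_right]
    by_cases ht : ‖t‖ ≤ S.rad q0 / 10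
    · obtain ⟨h1, h2⟩ := translate hq0 hq ht0 hs1 h ht
      rw [h2, ext_flow hq η h1, mul_comm]
    · push Not at ht
      rw [hws t ht, mul_zero, zero_mul]
  by_cases hqq : q = q0
  · subst hqq
    refine ⟨w, hw, hw0, fun η hη => ?_, fun _ => rfl⟩
    have := main 0 0 (by rw [norm_zero]; linarith) (by rw [norm_zero]; linarith) rfl η hη
    simpa using this
  · by_cases hm : ∃ t0 s1 : ℂ, ‖t0‖ ≤ S.rad q0 / 10 ∧ ‖s1‖ ≤ S.rad q / 10 ∧
        S.flow q0 t0 = S.flow q s1
    · obtain ⟨t0, s1, h1, h2, h3⟩ := hm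
      refine ⟨fun x => w (x - (s1 - t0)), hw.comp (contDiff_id.sub contDiff_const), ?_,
        main t0 s1 h1 h2 h3, fun h => absurd h hqq⟩
      intro x
      rw [lap_translate]; exact hw0 _
    · refine ⟨fun _ => 0, contDiff_const, fun x => ?_, fun η hη => ?_, fun h => absurd h hqq⟩
      · have : Δ (fun _ : ℂ => (0 : ℝ)) = 0 := InnerProductSpace.laplacian_const
        rw [this]; exact le_rfl
      · have h1 : Δ (fun _ : ℂ => (0 : ℝ)) = 0 := InnerProductSpace.laplacian_const
        rw [h1]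
        simp only [Pi.zero_apply, zero_mul, integral_zero]
        rw [integral_eq_zero_of_ae]
        refine Eventually.of_forall fun t => ?_
        simp only [Pi.zero_apply]
        by_cases ht : ‖t‖ ≤ S.rad q0 / 10
        · have : ext S q η (S.flow q0 t) = 0 := by
            by_contra hne
            obtain ⟨s, hs1, hs2, hs3⟩ := ext_ne hne
            refine hm ⟨t, s, ht, ?_, hs2.symm⟩
            by_contra hcon
            exact hs3 (hη.zero_off (by
              rw [mem_ball, dist_zero_right]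
              linarith))
          rw [this, zero_mul]
        · push Not at ht
          rw [hws t ht, mul_zero]

/-! ### local limits -/

theorem limit_at (he : EForm S en) {g : ℕ → E → ℝ} (hg : ∀ n, S.Test (g n))
    (hcau : ∀ ε > 0, ∃ N, ∀ m ≥ N, ∀ n ≥ N,
      en (fun p => g m p - g n p) (fun p => g m p - g n p) ≤ ε)
    {l : (E → ℝ) → ℝ} (hl : ∀ f, S.Test f → Tendsto (fun n => en (g n) f) atTop (𝓝 (l f)))
    {q : E} (hq : q ∈ S.L) (hgood : Good S en q) {wq : ℂ → ℝ} (hwq : ContDiff ℝ ∞ wq)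
    (hlw : ∀ η, Adm (S.rad q / 10) η → l (ext S q η) = ∫ x, Δ wq x * η x) :
    ∃ G : ℂ → ℝ, ContDiffOn ℝ ∞ G (ball 0 (S.rad q / 10)) ∧
      (∀ x ∈ ball (0 : ℂ) (S.rad q / 10), Δ G x = - Δ wq x) ∧
      ∀ η : ℂ → ℝ, Adm (S.rad q / 10) η →
        Tendsto (fun n => ∫ x, g n (S.flow q x) * η x) atTop (𝓝 (∫ x, G x * η x)) := by
  have a0 := S.rad_pos q hq
  have hadm : Adm (S.rad q / 10) (hat (S.rad q / 20) 0) := hat_adm (by rw [norm_zero]; linarith)
  obtain ⟨G, hG1, hG2, hG3⟩ := local_limit (S.rad q) (S.rad q / 10) (by linarith) (by linarith)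
    (fun n x => g n (S.flow q x)) (fun n => (hg n).1 q hq) (by
      intro ε hε
      obtain ⟨N, hN⟩ := hcau ε hε
      refine ⟨N, fun m hm n hn r' hr' => ?_⟩
      rcases le_or_gt r' 0 with h0 | h0
      · rw [ball_eq_empty.2 h0]
        simpa using hε.le
      · exact (disc_energy he (test_sub (hg m) (hg n)) hq h0 hr').trans (hN m hm n hn))
    (hat (S.rad q / 20) 0) hadm.cont hadm.compact hadm.supp
    (hat_int_pos (by linarith) 0).ne' (by
      obtain ⟨C, hC, hb⟩ := hgood (S.rad q / 10) (by linarith) _ hadm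
      rw [Metric.cauchySeq_iff]
      intro ε hε
      obtain ⟨N, hN⟩ := hcau (ε ^ 2 / (2 * (C + 1))) (by positivity)
      refine ⟨N, fun m hm n hn => ?_⟩
      have h1 := hb _ (test_sub (hg m) (hg n))
      have h2 := hN m hm n hn
      have h3 : ∫ x, (g m (S.flow q x) - g n (S.flow q x)) * hat (S.rad q / 20) 0 x =
          (∫ x, g m (S.flow q x) * hat (S.rad q / 20) 0 x) -
          ∫ x, g n (S.flow q x) * hat (S.rad q / 20) 0 x := by
        rw [← integral_sub (int_mul (test_cont (hg m) hq) (hadm.mono (by linarith)))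
          (int_mul (test_cont (hg n) hq) (hadm.mono (by linarith)))]
        congr 1; funext x; ring
      rw [h3] at h1
      rw [Real.dist_eq]
      have h4 : C * (ε ^ 2 / (2 * (C + 1))) < ε ^ 2 := by
        rw [mul_div_assoc', div_lt_iff₀ (by positivity)]
        nlinarith [sq_nonneg ε, pow_pos hε 2]
      apply abs_lt_of_sq_lt_sq _ hε.le
      nlinarith [mul_le_mul_of_nonneg_left h2 hC])
    wq hwq (by
      intro η hη hηc hηs
      have hη1 : ContDiff ℝ 1 η := by
        have := contDiff_infty.1 hη 1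
        exact_mod_cast this
      have had : Adm (S.rad q / 10) η := ⟨hη.continuous, hηs⟩
      have hte := ext_test hq (show S.rad q / 10 ≤ S.rad q / 2 by linarith) hη1 had
      have h1 := hl _ hte
      rw [hlw η had] at h1
      refine h1.congr fun n => ?_
      rw [he.loc (g n) _ (hg n) hte q hq (S.rad q / 10) (by linarith) (by linarith) (by
        intro p _ hne
        obtain ⟨s, hs1, hs2, hs3⟩ := ext_ne hne
        refine ⟨s, ?_, hs2.symm⟩
        by_contra hcon
        exact hs3 (had.zero_off (by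
          rw [mem_ball, dist_zero_right]
          linarith)))]
      have h2 : ∫ t in ball (0 : ℂ) (S.rad q), gradDot (fun t => g n (S.flow q t))
          (fun t => ext S q η (S.flow q t)) t =
          ∫ t in ball (0 : ℂ) (S.rad q), gradDot (fun t => g n (S.flow q t)) η t := by
        refine setIntegral_congr_fun measurableSet_ball fun t ht => ?_
        have h3 : (fun t => ext S q η (S.flow q t)) =ᶠ[𝓝 t] η := by
          filter_upwards [isOpen_ball.mem_nhds ht] with y hy
          exact ext_flow hq η (by simpa using hy)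
        simp only [gradDot]
        rw [h3.fderiv_eq]
      rw [h2]
      apply setIntegral_eq_integral_of_forall_compl_eq_zero
      intro t ht
      have h3 : t ∉ tsupport η := fun h => ht (ball_subset_ball (by linarith) (hηs h))
      have h4 : fderiv ℝ η t = 0 := by
        have h5 : η =ᶠ[𝓝 t] 0 := notMem_tsupport_iff_eventuallyEq.1 h3
        rw [h5.fderiv_eq]; simp
      simp [gradDot, h4])
  exact ⟨G, hG1, hG2, fun η hη => hG3 η hη.cont hη.compact hη.supp⟩

end PMAIN

end Pool.Agent.H210.Gr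

namespace Pool.Agent.H210.Gr

open Metric Set MeasureTheory Topology Filter
open scoped Laplacian ContDiff ENNReal

namespace PMAIN

open PATLAS

variable {E : Type} {S : TSurf E} {en : (E → ℝ) → (E → ℝ) → ℝ}

/-! ### recovering values from averages -/

theorem near_val {h : ℂ → ℝ} {δ : ℝ} (hδ : 0 < δ) (hc : ContinuousOn h (ball 0 δ)) {κ : ℝ}
    (hκ : 0 < κ) : ∃ ε > 0, ε < δ ∧
      |(∫ x, h x * hat ε 0 x) - h 0 * ∫ x, hat ε 0 x| ≤ κ * ∫ x, hat ε 0 x := by
  have hc0 : ContinuousAt h 0 := hc.continuousAt (ball_mem_nhds 0 hδ)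
  obtain ⟨ε1, hε1, h1⟩ := Metric.continuousAt_iff.1 hc0 κ hκ
  set ε := min ε1 (δ / 2) with hε
  have hε0 : 0 < ε := lt_min hε1 (by linarith)
  have hεδ : ε < δ := lt_of_le_of_lt (min_le_right _ _) (by linarith)
  have hadm : Adm δ (hat ε 0) := hat_adm (by rw [norm_zero]; linarith)
  refine ⟨ε, hε0, hεδ, ?_⟩
  have hi : Integrable (hat ε 0) :=
    (hat_cont ε 0).integrable_of_hasCompactSupport (hat_compact ε 0)
  rw [← integral_const_mul, ← integral_sub (int_mul hc hadm) (hi.const_mul _),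
    ← integral_const_mul, ← Real.norm_eq_abs]
  refine norm_integral_le_of_norm_le (hi.const_mul κ) (Eventually.of_forall fun x => ?_)
  rw [← sub_mul, norm_mul, Real.norm_eq_abs, Real.norm_of_nonneg (hat_nonneg _ _ _)]
  by_cases hx : ‖x‖ < ε
  · refine mul_le_mul_of_nonneg_right ?_ (hat_nonneg _ _ _)
    have := h1 (x := x) (by rw [dist_zero_right]; exact hx.trans_le (min_le_left _ _))
    rw [Real.dist_eq] at this
    exact this.le
  · push Not at hx
    have h2 : hat ε 0 x = 0 := max_eq_left (by rw [sub_zero]; linarith)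
    rw [h2, mul_zero, mul_zero]

theorem eq_of_weak {h1 h2 : ℂ → ℝ} {δ : ℝ} (hδ : 0 < δ) (hc1 : ContinuousOn h1 (ball 0 δ))
    (hc2 : ContinuousOn h2 (ball 0 δ))
    (h : ∀ ε, 0 < ε → ε < δ → ∫ x, h1 x * hat ε 0 x = ∫ x, h2 x * hat ε 0 x) : h1 0 = h2 0 := by
  by_contra hne
  have hκ : 0 < |h1 0 - h2 0| / 2 := by
    have := abs_pos.2 (sub_ne_zero.2 hne)
    linarith
  obtain ⟨ε, hε, hεδ, h3⟩ := near_val (h := fun x => h1 x - h2 x) hδ (hc1.sub hc2) hκ
  have hadm : Adm δ (hat ε 0) := hat_adm (by rw [norm_zero]; linarith)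
  have h4 : ∫ x, (h1 x - h2 x) * hat ε 0 x = 0 := by
    simp only [sub_mul]
    rw [integral_sub (int_mul hc1 hadm) (int_mul hc2 hadm), h ε hε hεδ, sub_self]
  rw [h4, zero_sub, abs_neg, abs_mul] at h3
  have h5 := hat_int_pos hε 0
  rw [abs_of_pos h5] at h3
  nlinarith

theorem nonneg_of_weak {h1 : ℂ → ℝ} {δ : ℝ} (hδ : 0 < δ) (hc1 : ContinuousOn h1 (ball 0 δ))
    (h : ∀ ε, 0 < ε → ε < δ → 0 ≤ ∫ x, h1 x * hat ε 0 x) : 0 ≤ h1 0 := by
  by_contra hne
  push Not at hne
  obtain ⟨ε, hε, hεδ, h3⟩ := near_val (h := h1) hδ hc1 (κ := -(h1 0) / 2) (by linarith)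
  have h5 := hat_int_pos hε 0
  have h4 := h ε hε hεδ
  rw [abs_le] at h3
  nlinarith [h3.2]

theorem P_main' (S : TSurf E) (he : EForm S en) (γ : ℂ → E) (c : ℂ) (R r C : ℝ)
    (hγ : S.Conf γ c R) (hr : 0 < r) (hrR : r < R) (hC : 0 ≤ C)
    (h : ∀ f, S.Test f → ∀ B, 0 ≤ B → S.EBound f B → (∫ x in ball c r, f (γ x)) ^ 2 ≤ C * B) :
    ∃ u, S.GoodFun u := by
  classical
  have hgood : ∀ q ∈ S.L, Good S en q := fun q hq => all_good he hγ hr hrR hC h hq
  have hq0 : γ c ∈ S.L := (hγ.2 c (mem_ball_self (hr.trans hrR))).1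
  set q0 := γ c with hq0def
  have a0 := S.rad_pos q0 hq0
  obtain ⟨w, hw, hw0, hws, hwne, hwc⟩ := exists_source (show 0 < S.rad q0 / 10 by linarith)
  have hsupp : tsupport (Δ w) ⊆ closedBall 0 (S.rad q0 / 10) := by
    apply closure_minimal _ isClosed_closedBall
    intro x hx
    rw [mem_closedBall, dist_zero_right]
    by_contra hcon
    push Not at hcon
    exact hx (hws x hcon)
  have hadm : Adm (S.rad q0 / 5) (Δ w) :=
    ⟨hwc, hsupp.trans (closedBall_subset_ball (by linarith))⟩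
  have hadm' : Adm (S.rad q0) (Δ w) := hadm.mono (by linarith)
  have hΔi : Integrable (Δ w) := hwc.integrable_of_hasCompactSupport hadm.compact
  obtain ⟨Cl, hCl, hbl⟩ := hgood q0 hq0 _ (by linarith) _ hadm
  set l : (E → ℝ) → ℝ := fun f => ∫ t, f (S.flow q0 t) * Δ w t with hl
  obtain ⟨g, hg, hg0, hcau, hlim⟩ := min_seq he l Cl (∫ t, Δ w t) hCl
    (integral_nonneg hw0) (by
      intro f g hf hg a
      simp only [hl]
      rw [← integral_const_mul, ← integral_add (int_mul (test_cont hf hq0) hadm')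
        ((int_mul (test_cont hg hq0) hadm').const_mul a)]
      congr 1; funext t; ring) hbl (by
      intro f hf s ε hε ht hs
      simp only [hl]
      rw [← integral_const_mul, ← integral_sub (int_mul (test_cont hf hq0) hadm')
        (hΔi.const_mul ε)]
      refine integral_mono ((int_mul (test_cont hf hq0) hadm').sub (hΔi.const_mul ε))
        (int_mul (test_cont ht hq0) hadm') fun t => ?_
      simp only
      nlinarith [hs (f (S.flow q0 t)), hw0 t])
  -- the source in each chart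
  have hwq : ∀ q : E, ∃ wq : ℂ → ℝ, q ∈ S.L → ContDiff ℝ ∞ wq ∧ (∀ x, 0 ≤ Δ wq x) ∧
      (∀ η, Adm (S.rad q / 10) η → ∫ t, ext S q η (S.flow q0 t) * Δ w t = ∫ x, Δ wq x * η x) ∧
      (q = q0 → wq = w) := by
    intro q
    by_cases hq : q ∈ S.L
    · obtain ⟨wq, h1⟩ := exists_wq hq0 hw hw0 hws hq
      exact ⟨wq, fun _ => h1⟩
    · exact ⟨w, fun h => absurd h hq⟩
  choose wq hwq using hwq
  have hG : ∀ q : E, ∃ G : ℂ → ℝ, q ∈ S.L → ContDiffOn ℝ ∞ G (ball 0 (S.rad q / 10)) ∧
      (∀ x ∈ ball (0 : ℂ) (S.rad q / 10), Δ G x = - Δ (wq q) x) ∧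
      ∀ η : ℂ → ℝ, Adm (S.rad q / 10) η →
        Tendsto (fun n => ∫ x, g n (S.flow q x) * η x) atTop (𝓝 (∫ x, G x * η x)) := by
    intro q
    by_cases hq : q ∈ S.L
    · obtain ⟨G, h1⟩ := limit_at he hg hcau hlim hq (hgood q hq) (hwq q hq).1
        (hwq q hq).2.2.1
      exact ⟨G, fun _ => h1⟩
    · exact ⟨fun _ => 0, fun h => absurd h hq⟩
  choose G hG using hG
  set gf : E → ℝ := fun q => G q 0 with hgf
  have hGc : ∀ q ∈ S.L, ContinuousOn (G q) (ball 0 (S.rad q / 10)) := fun q hq =>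
    (hG q hq).1.continuousOn
  -- compatibility
  have hcomp : ∀ q ∈ S.L, ∀ t : ℂ, ‖t‖ < S.rad q / 10 → gf (S.flow q t) = G q t := by
    intro q hq t ht
    have b0 := S.rad_pos q hq
    have hp := S.flow_mem q hq t (by linarith)
    have hr1 := S.rad_flow q hq t (by linarith)
    set p := S.flow q t with hpdef
    have c0 := S.rad_pos p hp
    set δ := min (S.rad q / 10 - ‖t‖) (S.rad p / 10) with hδ
    have hδ0 : 0 < δ := lt_min (by linarith) (by linarith)
    have hδ1 : δ ≤ S.rad q / 10 - ‖t‖ := min_le_left _ _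
    have hδ2 : δ ≤ S.rad p / 10 := min_le_right _ _
    have h1 : G p 0 = (fun x => G q (t + x)) 0 := by
      refine eq_of_weak (h1 := G p) (h2 := fun x => G q (t + x)) hδ0
        ((hGc p hp).mono (ball_subset_ball hδ2)) ?_ ?_
      · refine (hGc q hq).comp (by fun_prop) ?_
        intro x hx
        rw [mem_ball, dist_zero_right] at hx ⊢
        linarith [norm_add_le t x]
      · intro ε hε hεδ
        have h2 := (hG p hp).2.2 (hat ε 0) (hat_adm (by rw [norm_zero]; linarith))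
        have h3 := (hG q hq).2.2 (hat ε t) (hat_adm (by linarith))
        have h4 : ∀ F : ℂ → ℝ, ∫ x, F x * hat ε t x = ∫ x, F (t + x) * hat ε 0 x := by
          intro F
          rw [← integral_add_left_eq_self (fun x => F x * hat ε t x) t]
          congr 1; funext x
          have : hat ε t (t + x) = hat ε 0 x := by rw [hat, hat, add_sub_cancel_left, sub_zero]
          rw [this]
        rw [h4] at h3
        refine tendsto_nhds_unique h2 (h3.congr fun n => ?_)
        rw [h4]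
        congr 1; funext x
        by_cases hx : ‖x‖ < ε
        · rw [hpdef, S.flow_add q hq t x (by linarith)]
        · push Not at hx
          have h5 : hat ε 0 x = 0 := max_eq_left (by rw [sub_zero]; linarith)
          rw [h5, mul_zero, mul_zero]
    simpa using h1
  -- nonnegativity
  have hnn : ∀ q ∈ S.L, 0 ≤ gf q := by
    intro q hq
    have b0 := S.rad_pos q hq
    refine nonneg_of_weak (δ := S.rad q / 10) (by linarith) (hGc q hq) fun ε hε hεδ => ?_
    have h2 := (hG q hq).2.2 (hat ε 0) (hat_adm (by rw [norm_zero]; linarith))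
    exact ge_of_tendsto' h2 fun n => integral_nonneg fun x => mul_nonneg (hg0 _ _)
      (hat_nonneg _ _ _)
  -- `gf` is not constant
  have hnc : ∃ p ∈ S.L, ∃ q ∈ S.L, gf p ≠ gf q := by
    by_contra hcon
    push Not at hcon
    obtain ⟨t, ht, hne⟩ := hwne
    have htb : t ∈ ball (0 : ℂ) (S.rad q0 / 10) := by simpa using ht
    have h1 := (hG q0 hq0).2.1 t htb
    rw [(hwq q0 hq0).2.2.2 rfl] at h1
    have h2 : G q0 =ᶠ[𝓝 t] fun _ => gf q0 := by
      filter_upwards [isOpen_ball.mem_nhds htb] with y hy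
      rw [mem_ball, dist_zero_right] at hy
      rw [← hcomp q0 hq0 y hy]
      exact hcon _ (S.flow_mem q0 hq0 y (by linarith)) _ hq0
    have h3 := (InnerProductSpace.laplacian_congr_nhds h2).eq_of_nhds
    have h4 : Δ (fun _ : ℂ => gf q0) = 0 := InnerProductSpace.laplacian_const
    rw [h3, h4] at h1
    apply hne
    have : (0 : ℝ) = - Δ w t := h1
    linarith
  obtain ⟨p1, hp1, p2, hp2, hp12⟩ := hnc
  set M := max (gf p1) (gf p2) with hM
  have hM0 : 0 ≤ M := (hnn p1 hp1).trans (le_max_left _ _)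
  have hcont : ∀ q ∈ S.L, ContinuousOn (fun t => gf (S.flow q t)) (ball 0 (S.rad q)) := by
    intro q hq t ht
    rw [mem_ball, dist_zero_right] at ht
    apply ContinuousAt.continuousWithinAt
    have hp := S.flow_mem q hq t ht
    have c0 := S.rad_pos _ hp
    have h1 : (fun t => gf (S.flow q t)) =ᶠ[𝓝 t] fun y => G (S.flow q t) (y - t) := by
      have hδ : 0 < min (S.rad q - ‖t‖) (S.rad (S.flow q t) / 10) :=
        lt_min (by linarith) (by linarith)
      filter_upwards [ball_mem_nhds t hδ] with y hy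
      rw [mem_ball, dist_eq_norm] at hy
      have hy1 := hy.trans_le (min_le_left _ _)
      have hy2 := hy.trans_le (min_le_right _ _)
      rw [← hcomp _ hp (y - t) hy2, S.flow_add q hq t (y - t) (by linarith)]
      congr 2; ring
    refine ContinuousAt.congr ?_ h1.symm
    have h2 : ContinuousAt (G (S.flow q t)) ((fun y => y - t) t) := by
      change ContinuousAt (G (S.flow q t)) (t - t)
      rw [sub_self]
      exact (hGc _ hp).continuousAt (ball_mem_nhds 0 (by linarith))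
    exact ContinuousAt.comp (f := fun y => y - t) (g := G (S.flow q t)) h2 (by fun_prop)
  refine ⟨fun q => -min (gf q) M, ⟨M, fun q hq => ?_⟩, ⟨p1, hp1, p2, hp2, ?_⟩, fun q hq => ⟨?_, ?_⟩⟩
  · rw [abs_neg, abs_of_nonneg (le_min (hnn q hq) hM0)]
    exact min_le_right _ _
  · intro heq
    change -min (gf p1) M = -min (gf p2) M at heq
    rw [min_eq_left (le_max_left _ _), min_eq_left (le_max_right _ _)] at heq
    exact hp12 (neg_injective heq)
  · exact ((hcont q hq).inf continuousOn_const).neg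
  · -- touching
    have b0 := S.rad_pos q hq
    rcases le_or_gt (gf q) M with hle | hgt
    · refine ⟨fun t => - G q t, ?_, ?_, ?_, ?_⟩
      · have h1 : ContDiffAt ℝ ∞ (G q) 0 := (hG q hq).1.contDiffAt
          (ball_mem_nhds 0 (by linarith))
        have h2 : ContDiffAt ℝ 2 (G q) 0 := contDiffAt_infty.1 h1 2
        exact h2.neg
      · have h1 := (hG q hq).2.1 0 (mem_ball_self (by linarith))
        have h2 : Δ (fun t => - G q t) 0 = - Δ (G q) 0 := by
          have := congrFun (InnerProductSpace.laplacian_neg (f := G q)) 0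
          exact this
        rw [h2, h1, neg_neg]
        exact (hwq q hq).2.1 0
      · simp only
        rw [S.flow_zero q hq, min_eq_left hle]
      · filter_upwards [ball_mem_nhds (0 : ℂ) (show 0 < S.rad q / 10 by linarith)] with y hy
        rw [mem_ball, dist_zero_right] at hy
        rw [hcomp q hq y hy]
        exact neg_le_neg (min_le_left _ _)
    · refine ⟨fun _ => -M, contDiffAt_const, ?_, ?_, ?_⟩
      · have : Δ (fun _ : ℂ => -M) = 0 := InnerProductSpace.laplacian_const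
        rw [this]; exact le_rfl
      · simp only
        rw [S.flow_zero q hq, min_eq_right hgt.le]
      · exact Eventually.of_forall fun y => neg_le_neg (min_le_right _ _)

end PMAIN

theorem P_main {E : Type} (S : TSurf E) (γ : ℂ → E) (c : ℂ) (R r C : ℝ) (hγ : S.Conf γ c R)
    (hr : 0 < r) (hrR : r < R) (hC : 0 ≤ C)
    (h : ∀ f, S.Test f → ∀ B, 0 ≤ B → S.EBound f B → (∫ x in ball c r, f (γ x)) ^ 2 ≤ C * B) :
    ∃ u, S.GoodFun u := by
  have hq0 : γ c ∈ S.L := (hγ.2 c (mem_ball_self (hr.trans hrR))).1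
  obtain ⟨en, he⟩ := exists_eform S ⟨_, hq0⟩
  exact PMAIN.P_main' S he γ c R r C hγ hr hrR hC h

end Pool.Agent.H210.Gr

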