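/-
S05669 task REACH + T5 (helper539).  Declares (namespace Pool.Agent.H210.Gr): reach, reach_or_good,
auxiliary lemmas in Pool.Agent.H210.Gr.REACH.
IMPORTS: Pool.Agent.H210.Green.Graph (helper210's tree: graph_disc, sol_conf, ode_exists), and a module
with separatrix, exit, bdd_poly, dehom in scope: replace `Pool.Agent.H539.Green.Stub` (sorry'd copies
of exactly these four, plus nothing else) by the real modules.
-/
import Pool.Agent.H210.Green.Graph
import Pool.Agent.H210.Green.SEP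
import Pool.Agent.H210.Green.EXIT
import Pool.Agent.H210.Green.BDD
import Pool.Agent.H210.Green.Dehom

set_option autoImplicit false

namespace Pool.Agent.H210.Gr

open Metric Set MeasureTheory Topology Filter
open scoped Laplacian ContDiff

namespace REACH

theorem A_ne_zero (D : InfD) : D.A ≠ 0 := by
  intro h
  have h1 := D.hlead
  have h2 := D.hlead0
  unfold InfD.A at h
  rw [h, Polynomial.coeff_zero] at h1
  exact h2 h1.symm

theorem roots_finite (D : InfD) : {x : ℂ | D.A.eval x = 0}.Finite := by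
  have := (D.A.roots.toFinset : Finset ℂ).finite_toSet
  refine this.subset ?_
  intro x hx
  simp only [mem_ofPred_eq] at hx
  simp [A_ne_zero D, hx]

theorem step (D : InfD) (v : ℂ × ℂ → ℂ × ℂ) (hv : D.Chart v) (S : TSurf (ℂ × ℂ)) (hS : IsLeaf v S)
    (x₁ : ℂ) (h1 : D.A.eval x₁ ≠ 0) : ∃ R > 0, ∃ ε > 0, ∀ x ∈ ball x₁ R, ∀ y : ℂ, y ≠ 0 → ‖y‖ < ε →
      pt x y ∈ S.L → ∀ x' ∈ ball x₁ R, ∃ y' : ℂ, y' ≠ 0 ∧ ‖y'‖ ≤ 2 * ‖y‖ ∧ pt x' y' ∈ S.L := by
  obtain ⟨R0, hR0, h⟩ := graph_disc D {x₁} isCompact_singleton (by simpa using h1)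
  obtain ⟨ε, hε, h⟩ := h R0 hR0 le_rfl
  obtain ⟨-, h⟩ := h x₁ rfl
  refine ⟨R0, hR0, ε, hε, fun x hx y hy hyε hL x' hx' => ?_⟩
  obtain ⟨η, h2, h3, h4⟩ := h x hx y hy hyε
  have hc := sol_conf D v hv S hS h3 hx (by rw [h2]; exact hL)
  exact ⟨η x', (h3 x' hx').1, (h4 x' hx').1, (hc.2 x' hx').1⟩

end REACH

open REACH

theorem reach (D : InfD) (v : ℂ × ℂ → ℂ × ℂ) (hv : D.Chart v) (S : TSurf (ℂ × ℂ)) (hS : IsLeaf v S)
    (x₁ : ℂ) (h1 : D.A.eval x₁ ≠ 0)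
    (hacc : ∀ δ > 0, ∃ x y : ℂ, ‖x - x₁‖ < δ ∧ y ≠ 0 ∧ ‖y‖ < δ ∧ pt x y ∈ S.L) (x0 : ℂ)
    (h0 : D.A.eval x0 ≠ 0) : ∀ δ > 0, ∃ y : ℂ, y ≠ 0 ∧ ‖y‖ < δ ∧ pt x0 y ∈ S.L := by
  have hconn : IsPreconnected {x : ℂ | D.A.eval x = 0}ᶜ :=
    ((roots_finite D).countable.isConnected_compl_of_one_lt_rank (by simp)).isPreconnected
  -- strong accumulation at `x₁`
  have hstep1 : ∀ δ > 0, ∃ y : ℂ, y ≠ 0 ∧ ‖y‖ < δ ∧ pt x₁ y ∈ S.L := by
    intro δ hδ
    obtain ⟨R, hR, ε, hε, h⟩ := step D v hv S hS x₁ h1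
    obtain ⟨x, y, hx, hy, hy', hL⟩ := hacc (min R (min ε (δ / 2))) (by positivity)
    obtain ⟨y', h2, h3, h4⟩ := h x (by rw [mem_ball_iff_norm]; exact hx.trans_le (min_le_left _ _)) y hy
      (hy'.trans_le ((min_le_right _ _).trans (min_le_left _ _))) hL x₁ (mem_ball_self hR)
    refine ⟨y', h2, ?_, h4⟩
    have := hy'.trans_le ((min_le_right _ _).trans (min_le_right _ _))
    linarith
  have key := hconn.induction₂ (fun x x' => (∀ δ > 0, ∃ y : ℂ, y ≠ 0 ∧ ‖y‖ < δ ∧ pt x y ∈ S.L) ↔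
    (∀ δ > 0, ∃ y : ℂ, y ≠ 0 ∧ ‖y‖ < δ ∧ pt x' y ∈ S.L))
    (by
      intro x hx
      obtain ⟨R, hR, ε, hε, h⟩ := step D v hv S hS x hx
      have hmem : ∀ᶠ x' in 𝓝[{x : ℂ | D.A.eval x = 0}ᶜ] x, x' ∈ ball x R :=
        mem_nhdsWithin_of_mem_nhds (ball_mem_nhds x hR)
      filter_upwards [hmem] with x' hx'
      constructor
      · intro ha δ hδ
        obtain ⟨y, hy, hy', hL⟩ := ha (min ε (δ / 2)) (by positivity)
        obtain ⟨y', h2, h3, h4⟩ := h x (mem_ball_self hR) y hy (hy'.trans_le (min_le_left _ _)) hL x' hx'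
        refine ⟨y', h2, ?_, h4⟩
        have := hy'.trans_le (min_le_right _ _)
        linarith
      · intro ha δ hδ
        obtain ⟨y, hy, hy', hL⟩ := ha (min ε (δ / 2)) (by positivity)
        obtain ⟨y', h2, h3, h4⟩ := h x' hx' y hy (hy'.trans_le (min_le_left _ _)) hL x (mem_ball_self hR)
        refine ⟨y', h2, ?_, h4⟩
        have := hy'.trans_le (min_le_right _ _)
        linarith)
    (fun x y z _ _ _ h h' => h.trans h') (fun x y _ _ h => h.symm) (x := x₁) (y := x0) h1 h0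
  exact key.1 hstep1

namespace REACH

/-- graph discs for a holomorphic equation `dy/dx = y fb / fa` near `(0,0)` -/
theorem disc_gen (fa fb : ℂ × ℂ → ℂ) (ha : ContDiff ℂ 1 fa) (hb : ContDiff ℂ 1 fb) (h0 : fa (0, 0) ≠ 0) :
    ∃ r > 0, ∃ ε > 0, ∀ x1 ∈ ball (0 : ℂ) r, ∀ y1 : ℂ, y1 ≠ 0 → ‖y1‖ < ε → ∃ η : ℂ → ℂ, η x1 = y1 ∧
      ∀ x ∈ ball x1 (2 * r), η x ≠ 0 ∧ fa (x, η x) ≠ 0 ∧
        HasDerivAt η (η x * fb (x, η x) / fa (x, η x)) x ∧ ‖η x‖ ≤ 2 * ‖y1‖ := by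
  have hg : ContDiffAt ℂ 1 (fun p : ℂ × ℂ => fb p / fa p) (0, 0) := hb.contDiffAt.div ha.contDiffAt h0
  obtain ⟨K, t, ht, hKt⟩ := hg.exists_lipschitzOnWith
  have e1 : ∀ᶠ p in 𝓝 ((0 : ℂ), (0 : ℂ)), fa p ≠ 0 := ha.continuous.continuousAt.eventually_ne h0
  have e2 : ∀ᶠ p in 𝓝 ((0 : ℂ), (0 : ℂ)), ‖fb p / fa p‖ < ‖fb (0, 0) / fa (0, 0)‖ + 1 :=
    hg.continuousAt.norm.eventually (gt_mem_nhds (by simp))
  obtain ⟨ρ, hρ, hsub⟩ := Metric.eventually_nhds_iff_ball.1 (e1.and (e2.and ht))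
  set M : ℝ := ‖fb (0, 0) / fa (0, 0)‖ + 1 with hM
  have hM0 : 0 < M := by positivity
  have hin : ∀ x y : ℂ, ‖x‖ < ρ → ‖y‖ < ρ → fa (x, y) ≠ 0 ∧ ‖fb (x, y) / fa (x, y)‖ < M ∧ (x, y) ∈ t := by
    intro x y hx hy
    refine hsub (x, y) ?_
    rw [mem_ball_iff_norm]
    simp [Prod.norm_def, hx, hy]
  have hl2 : 0 < Real.log 2 := Real.log_pos (by norm_num)
  have hK0 : (0 : ℝ) ≤ K := K.2
  set r : ℝ := min (ρ / 4) (Real.log 2 / (2 * M)) with hr
  have hr0 : 0 < r := by positivity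
  have hr1 : r ≤ ρ / 4 := min_le_left _ _
  have hr2 : r ≤ Real.log 2 / (2 * M) := min_le_right _ _
  rw [le_div_iff₀ (by positivity)] at hr2
  refine ⟨r, hr0, min (ρ / 2) (1 / (8 * (K * r + 1))), by positivity, fun x1 hx1 y1 hy1 hy1ε => ?_⟩
  have hy1a : ‖y1‖ < ρ / 2 := hy1ε.trans_le (min_le_left _ _)
  have hy1b : ‖y1‖ < 1 / (8 * (K * r + 1)) := hy1ε.trans_le (min_le_right _ _)
  rw [lt_div_iff₀ (by positivity)] at hy1b
  rw [mem_ball_zero_iff] at hx1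
  have hball : ∀ x ∈ ball x1 (2 * r), ‖x‖ < ρ := by
    intro x hx
    rw [mem_ball_iff_norm] at hx
    calc ‖x‖ = ‖(x - x1) + x1‖ := by ring_nf
      _ ≤ ‖x - x1‖ + ‖x1‖ := norm_add_le _ _
      _ < ρ := by linarith
  have hexp : ∀ φ : ℂ, ‖φ‖ ≤ Real.log 2 → ‖y1 * Complex.exp φ‖ ≤ 2 * ‖y1‖ := by
    intro φ hφ
    rw [norm_mul, Complex.norm_exp]
    have : Real.exp φ.re ≤ 2 := by
      rw [← Real.exp_log (show (0 : ℝ) < 2 by norm_num)]
      exact Real.exp_le_exp.2 ((Complex.re_le_norm φ).trans hφ)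
    nlinarith [norm_nonneg y1]
  have hexp' : ∀ φ : ℂ, ‖φ‖ ≤ Real.log 2 → ‖y1 * Complex.exp φ‖ < ρ := fun φ hφ =>
    (hexp φ hφ).trans_lt (by linarith)
  obtain ⟨φ, hφ0, hφ⟩ := ode_exists x1 (2 * r) (by positivity) (0 : ℂ) (Real.log 2) M
    (K * (‖y1‖ * 2)) hl2.le (fun x φ => fb (x, y1 * Complex.exp φ) / fa (x, y1 * Complex.exp φ))
    (by
      intro φ hφd hφb x hx
      have hd : DifferentiableAt ℂ φ x := hφd.differentiableAt (isOpen_ball.mem_nhds hx)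
      have h1 := (hin x (y1 * Complex.exp (φ x)) (hball x hx) (hexp' _ (by simpa using hφb x hx))).1
      have h2 : DifferentiableAt ℂ (fun x => (x, y1 * Complex.exp (φ x))) x :=
        differentiableAt_id.prodMk ((hd.cexp).const_mul y1)
      have h3 : DifferentiableAt ℂ (fun x => fb (x, y1 * Complex.exp (φ x))) x :=
        ((hb.differentiable one_ne_zero) (x, y1 * Complex.exp (φ x))).comp x h2
      have h4 : DifferentiableAt ℂ (fun x => fa (x, y1 * Complex.exp (φ x))) x :=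
        ((ha.differentiable one_ne_zero) (x, y1 * Complex.exp (φ x))).comp x h2
      exact (h3.div h4 h1).differentiableWithinAt)
    (by
      intro x hx y hy
      exact (hin x (y1 * Complex.exp y) (hball x hx) (hexp' _ (by simpa using hy))).2.1.le)
    (by nlinarith)
    (by
      intro x hx y hy y' hy'
      have e1 := (hin x (y1 * Complex.exp y) (hball x hx) (hexp' _ (by simpa using hy))).2.2
      have e2 := (hin x (y1 * Complex.exp y') (hball x hx) (hexp' _ (by simpa using hy'))).2.2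
      have h1 := hKt.dist_le_mul _ e1 _ e2
      rw [dist_eq_norm, dist_eq_norm] at h1
      have h2 := GRAPH.exp_sub_le (φ := y) (φ' := y') (ρ := Real.log 2) (by simpa using hy) (by simpa using hy')
      rw [Real.exp_log (by norm_num)] at h2
      refine h1.trans ?_
      have h3 : ‖(x, y1 * Complex.exp y) - (x, y1 * Complex.exp y')‖ = ‖y1‖ * ‖Complex.exp y - Complex.exp y'‖ := by
        rw [Prod.norm_def]
        simp only [Prod.fst_sub, Prod.snd_sub, sub_self, norm_zero, ← mul_sub, norm_mul]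
        exact max_eq_right (by positivity)
      rw [h3]
      calc (K : ℝ) * (‖y1‖ * ‖Complex.exp y - Complex.exp y'‖)
          ≤ K * (‖y1‖ * (2 * ‖y - y'‖)) := by gcongr
        _ = K * (‖y1‖ * 2) * ‖y - y'‖ := by ring)
    (by
      have h4 : 0 ≤ K * r := by positivity
      nlinarith [norm_nonneg y1])
  refine ⟨fun x => y1 * Complex.exp (φ x), by simp [hφ0], ?_⟩
  intro x hx
  obtain ⟨h1, h2⟩ := hφ x hx
  refine ⟨mul_ne_zero hy1 (Complex.exp_ne_zero _), ?_, ?_, hexp _ (by simpa using h1)⟩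
  · exact (hin x (y1 * Complex.exp (φ x)) (hball x hx) (hexp' _ (by simpa using h1))).1
  · have h3 := (h2.cexp).const_mul y1
    refine h3.congr_deriv ?_
    beta_reduce
    ring

theorem eval_two (z w : ℂ) (q : MvPolynomial (Fin 2) ℂ) :
    MvPolynomial.eval ![z, w] q = ∑ e ∈ q.support, q.coeff e * (z ^ e 0 * w ^ e 1) := by
  simp [MvPolynomial.eval_eq', Fin.prod_univ_two]

theorem eval_contDiff (q : MvPolynomial (Fin 2) ℂ) :
    ContDiff ℂ 1 (fun p : ℂ × ℂ => MvPolynomial.eval ![p.1, 1] q) := by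
  simp only [eval_two]
  exact ContDiff.sum fun i _ => contDiff_const.mul ((contDiff_fst.pow _).mul contDiff_const)

theorem eval_hom {q : MvPolynomial (Fin 2) ℂ} {n : ℕ} (hq : q.IsHomogeneous n) (x y : ℂ) (hy : y ≠ 0) :
    MvPolynomial.eval ![x / y, 1 / y] q = MvPolynomial.eval ![x, 1] q / y ^ n := by
  rw [eval_two, eval_two, Finset.sum_div]
  refine Finset.sum_congr rfl fun e he => ?_
  have h1 : e 0 + e 1 = n := by
    have := hq (MvPolynomial.mem_support_iff.1 he)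
    rw [Finsupp.weight_apply, Finsupp.sum_fintype _ _ (by simp)] at this
    simpa [Fin.sum_univ_two] using this
  rw [← h1, pow_add, div_pow, div_pow]
  field_simp

/-- `y ^ d P(x / y, 1 / y)` -/
noncomputable def pT (F : Fol) (G : ℕ → MvPolynomial (Fin 2) ℂ) (p : ℂ × ℂ) : ℂ :=
  ∑ j ∈ Finset.range (F.d + 1), MvPolynomial.eval ![p.1, 1] (G j) * p.2 ^ (F.d - j)

theorem pT_contDiff (F : Fol) (G : ℕ → MvPolynomial (Fin 2) ℂ) : ContDiff ℂ 1 (pT F G) := by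
  unfold pT
  exact ContDiff.sum fun i _ => (eval_contDiff _).mul (contDiff_snd.pow _)

theorem pT_eq (F : Fol) (G : ℕ → MvPolynomial (Fin 2) ℂ) (hG : ∀ i, (G i).IsHomogeneous i) (x y : ℂ)
    (hy : y ≠ 0) : MvPolynomial.eval ![x / y, 1 / y] (∑ i ∈ Finset.range (F.d + 1), G i) =
      pT F G (x, y) / y ^ F.d := by
  rw [map_sum, pT, Finset.sum_div]
  refine Finset.sum_congr rfl fun j hj => ?_
  rw [eval_hom (hG j) x y hy]
  have hj' : j ≤ F.d := by simpa [Nat.lt_succ_iff] using hj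
  have : y ^ F.d = y ^ j * y ^ (F.d - j) := by rw [← pow_add]; congr 1; omega
  rw [this]
  field_simp

theorem pT_zero (F : Fol) (G : ℕ → MvPolynomial (Fin 2) ℂ) :
    pT F G (0, 0) = MvPolynomial.eval ![0, 1] (G F.d) := by
  unfold pT
  rw [Finset.sum_eq_single F.d]
  · simp
  · intro j hj hne
    have : F.d - j ≠ 0 := by
      have : j < F.d + 1 := by simpa using hj
      omega
    simp [this]
  · intro h; simp at h

/-- graph discs of the leaf near the point `(0 : 0 : 1)` at infinity -/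
theorem disc_inf (F : Fol) (hG : F.Good) (S : TSurf (ℂ × ℂ)) (hS : IsLeaf F.v S) :
    ∃ r > 0, ∃ ε > 0, ∀ x1 ∈ ball (0 : ℂ) r, ∀ y1 : ℂ, y1 ≠ 0 → ‖y1‖ < ε → (x1 / y1, 1 / y1) ∈ S.L →
      ∀ x ∈ ball x1 (2 * r), ∃ y : ℂ, y ≠ 0 ∧ ‖y‖ ≤ 2 * ‖y1‖ ∧ (x / y, 1 / y) ∈ S.L := by
  have hq := pT_contDiff F F.Qc
  have hp := pT_contDiff F F.Pc
  obtain ⟨r, hr, ε, hε, h⟩ := disc_gen (fun p => pT F F.Pc p - p.1 * pT F F.Qc p) (fun p => -pT F F.Qc p)
    (hp.sub (contDiff_fst.mul hq)) hq.neg (by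
      simp only [pT_zero, zero_mul, sub_zero]
      exact hG)
  refine ⟨r, hr, ε, hε, fun x1 hx1 y1 hy1 hy1ε hL x hx => ?_⟩
  obtain ⟨η, h1, h2⟩ := h x1 hx1 y1 hy1 hy1ε
  have hloc : S.Loc (fun x => (x / η x, 1 / η x)) x1 (2 * r) := by
    refine hS.sat x1 (2 * r) _ (fun x => η x ^ (F.d - 1) / (pT F F.Pc (x, η x) - x * pT F F.Qc (x, η x))) ?_ ?_
      ⟨x1, mem_ball_self (by positivity), by simpa [h1] using hL⟩
    · intro x hx
      obtain ⟨n1, n2, n3, n4⟩ := h2 x hx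
      have h3 : DifferentiableAt ℂ (fun x => (x, η x)) x := differentiableAt_id.prodMk n3.differentiableAt
      have h4 : DifferentiableAt ℂ (fun x => pT F F.Pc (x, η x)) x :=
        DifferentiableAt.comp (g := pT F F.Pc) x ((hp.differentiable one_ne_zero) (x, η x)) h3
      have h5 : DifferentiableAt ℂ (fun x => pT F F.Qc (x, η x)) x :=
        DifferentiableAt.comp (g := pT F F.Qc) x ((hq.differentiable one_ne_zero) (x, η x)) h3
      exact ((n3.differentiableAt.pow _).div (h4.sub (differentiableAt_id.mul h5)) n2).differentiableWithinAt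
    · intro x hx
      obtain ⟨n1, n2, n3, n4⟩ := h2 x hx
      simp only at n2 n3
      have hd := F.hd
      have hpow : η x ^ F.d = η x ^ (F.d - 1) * η x := by
        rw [← pow_succ]; congr 1; omega
      have e1 : HasDerivAt (fun x => 1 / η x)
          (pT F F.Qc (x, η x) / (η x * (pT F F.Pc (x, η x) - x * pT F F.Qc (x, η x)))) x := by
        have := n3.fun_inv n1
        simp only [one_div]
        refine this.congr_deriv ?_
        field_simp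
      have e2 : HasDerivAt (fun x => x / η x)
          (pT F F.Pc (x, η x) / (η x * (pT F F.Pc (x, η x) - x * pT F F.Qc (x, η x)))) x := by
        have := (hasDerivAt_id x).fun_div n3 n1
        simp only [id] at this
        refine this.congr_deriv ?_
        field_simp
        ring
      refine (e2.prodMk e1).congr_deriv ?_
      have hv : F.v (x / η x, 1 / η x) = (pT F F.Pc (x, η x) / η x ^ F.d, pT F F.Qc (x, η x) / η x ^ F.d) := by
        unfold Fol.v Fol.P Fol.Q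
        simp only
        rw [pT_eq F F.Pc F.hP x (η x) n1, pT_eq F F.Qc F.hQ x (η x) n1]
      rw [hv, hpow]
      ext
      · simp only [Prod.smul_fst, smul_eq_mul]
        field_simp
      · simp only [Prod.smul_snd, smul_eq_mul]
        field_simp
  exact ⟨η x, (h2 x hx).1, (h2 x hx).2.2.2, (hloc x hx).1⟩

theorem cpt {K : Set ℂ} (hK : IsCompact K) (P : ℂ → ℂ → Prop)
    (h : ∀ x₁ ∈ K, ∃ δ > 0, ∀ x y : ℂ, ‖x - x₁‖ < δ → ‖y‖ < δ → P x y) :
    ∃ ε > 0, ∀ y : ℂ, ‖y‖ < ε → ∀ x ∈ K, P x y := by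
  have h2 := hK.eventually_forall_of_forall_eventually (x₀ := (0 : ℂ)) (P := fun y x => P x y) (by
    intro x₁ hx₁
    obtain ⟨δ, hδ, h⟩ := h x₁ hx₁
    refine Metric.eventually_nhds_iff_ball.2 ⟨δ, hδ, ?_⟩
    rintro ⟨y, x⟩ hz
    rw [mem_ball_iff_norm, Prod.norm_def, max_lt_iff] at hz
    simp only [Prod.mk_sub_mk, sub_zero] at hz
    exact h x y hz.2 hz.1)
  obtain ⟨ε, hε, h3⟩ := Metric.eventually_nhds_iff_ball.1 h2
  exact ⟨ε, hε, fun y hy x hx => h3 y (by simpa using hy) x hx⟩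

/-- near a root of `A`, if there is no accumulation away from the roots, the leaf is contained in a
separatrix -/
theorem near_root (D : InfD) (v : ℂ × ℂ → ℂ × ℂ) (hv : D.Chart v) (S : TSurf (ℂ × ℂ)) (hS : IsLeaf v S)
    (hno : ∀ x₁, D.A.eval x₁ ≠ 0 → ∃ δ > 0, ∀ x y : ℂ, ‖x - x₁‖ < δ → y ≠ 0 → ‖y‖ < δ → pt x y ∉ S.L)
    (x₁ : ℂ) (h : D.A.eval x₁ = 0) :
    ∃ ε > 0, ∃ s : ℂ → ℂ, DifferentiableOn ℂ s (ball 0 ε) ∧ ∃ δ > 0, ∀ x y : ℂ, ‖x - x₁‖ < δ → y ≠ 0 →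
      ‖y‖ < δ → pt x y ∈ S.L → x = s y := by
  obtain ⟨ε, hε, s, hs0, hs, hse⟩ := separatrix D x₁ h
  obtain ⟨δ, hδ, ε', hε', hle, hA, hex⟩ := exit D v hv S hS x₁ h ε hε s hs0 hs hse
  have hK : IsCompact (closedBall x₁ δ \ ball x₁ (δ / 2)) := (isCompact_closedBall x₁ δ).diff isOpen_ball
  obtain ⟨ε'', hε'', h2⟩ := cpt hK (fun x y => y ≠ 0 → pt x y ∉ S.L) (by
    rintro x ⟨hx1, hx2⟩
    rw [mem_closedBall, dist_eq_norm] at hx1
    rw [mem_ball, dist_eq_norm, not_lt] at hx2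
    obtain ⟨δ1, hδ1, h3⟩ := hno x (hA x (by linarith [half_pos hδ]) hx1)
    exact ⟨δ1, hδ1, fun x' y' h4 h5 h6 => h3 x' y' h4 h6 h5⟩)
  refine ⟨ε, hε, s, hs, min δ (min ε' ε''), by positivity, fun x y hx hy hy' hL => ?_⟩
  by_contra hne
  obtain ⟨x', y', h3, h4, h5, h6, h7⟩ := hex x y (hx.trans_le (min_le_left _ _)) hy
    (hy'.trans_le ((min_le_right _ _).trans (min_le_left _ _))) hL hne
  refine h2 y' (h6.trans_lt (hy'.trans_le ((min_le_right _ _).trans (min_le_right _ _)))) x' ⟨?_, ?_⟩ h5 h7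
  · rw [mem_closedBall, dist_eq_norm]; exact h4
  · rw [mem_ball, dist_eq_norm, not_lt]; exact h3

/-- if there is no accumulation away from the roots, all points of the leaf near infinity lie on
separatrices -/
theorem good_of_no_acc (F : Fol) (hG : F.Good) (D : InfD) (hc : D.Chart F.v) (S : TSurf (ℂ × ℂ))
    (hS : IsLeaf F.v S) (hna : NotAlg S)
    (hno : ∀ x₁, D.A.eval x₁ ≠ 0 → ∃ δ > 0, ∀ x y : ℂ, ‖x - x₁‖ < δ → y ≠ 0 → ‖y‖ < δ → pt x y ∉ S.L) :
    ∃ u, S.GoodFun u := by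
  have hroot := near_root D F.v hc S hS hno
  choose! εf hεf sf hsf δf hδf hf using hroot
  -- enumeration of the roots
  set T : Finset ℂ := (roots_finite D).toFinset with hT
  have hTm : ∀ x, x ∈ T ↔ D.A.eval x = 0 := by intro x; simp [hT]
  let e : Fin T.card ≃ T := T.equivFin.symm
  have he : ∀ j, D.A.eval (e j : ℂ) = 0 := fun j => (hTm _).1 (e j).2
  obtain ⟨ε, hεj, hε⟩ : ∃ ε : ℝ, (∀ j, ε ≤ εf (e j)) ∧ 0 < ε := by
    have h1 : ∀ᶠ ε : ℝ in 𝓝[>] 0, ∀ j, ε ≤ εf (e j) :=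
      eventually_all.2 fun j => by
        filter_upwards [Ioo_mem_nhdsGT (hεf _ (he j))] with t ht using ht.2.le
    exact (h1.and self_mem_nhdsWithin).exists
  -- the point at infinity of the line at infinity
  obtain ⟨r, hr, ε1, hε1, hdisc⟩ := disc_inf F hG S hS
  obtain ⟨M, hM⟩ := (roots_finite D).isBounded.exists_norm_le
  set r0 : ℝ := min (r / 2) (1 / (|M| + 2)) with hr0
  have hr0' : 0 < r0 := by positivity
  have hr1 : r0 < r := (min_le_left _ _).trans_lt (by linarith)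
  have hr2 : r0 ≤ 1 / (|M| + 2) := min_le_right _ _
  rw [le_div_iff₀ (by positivity)] at hr2
  have hr3 : r0 < 1 := by nlinarith [abs_nonneg M]
  have hA0 : D.A.eval (1 / (r0 : ℂ)) ≠ 0 := by
    intro h
    have h1 := hM _ h
    rw [norm_div, norm_one, Complex.norm_real, Real.norm_of_nonneg hr0'.le, div_le_iff₀ hr0'] at h1
    nlinarith [le_abs_self M]
  obtain ⟨δ1, hδ1, hno1⟩ := hno _ hA0
  have hinf : ∀ z ∈ S.L, ‖z.1‖ < r0 * ‖z.2‖ → 1 / min ε1 (δ1 * r0 / 2) < ‖z.2‖ → False := by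
    intro z hz h1 h2
    have hz2 : 0 < ‖z.2‖ := lt_trans (by positivity) h2
    have hz2' : z.2 ≠ 0 := norm_pos_iff.1 hz2
    have hr0c : (r0 : ℂ) ≠ 0 := by exact_mod_cast hr0'.ne'
    have hx1 : ‖z.1 / z.2‖ < r0 := by rw [norm_div, div_lt_iff₀ hz2]; exact h1
    have hy1 : ‖1 / z.2‖ < min ε1 (δ1 * r0 / 2) := by
      rw [norm_div, norm_one]
      rw [div_lt_iff₀ hz2]
      rw [div_lt_iff₀ (by positivity)] at h2
      linarith
    have hmem : (z.1 / z.2 / (1 / z.2), 1 / (1 / z.2)) ∈ S.L := by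
      have : (z.1 / z.2 / (1 / z.2), 1 / (1 / z.2)) = z := by
        ext <;> simp [hz2']
      rw [this]; exact hz
    obtain ⟨y, hy, hy2, hy3⟩ := hdisc (z.1 / z.2) (by rw [mem_ball_zero_iff]; exact hx1.trans hr1) (1 / z.2)
      (one_div_ne_zero hz2') (hy1.trans_le (min_le_left _ _)) hmem (r0 : ℂ) (by
        rw [mem_ball, dist_eq_norm]
        calc ‖(r0 : ℂ) - z.1 / z.2‖ ≤ ‖(r0 : ℂ)‖ + ‖z.1 / z.2‖ := norm_sub_le _ _
          _ < 2 * r := by
            rw [Complex.norm_real, Real.norm_of_nonneg hr0'.le]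
            linarith)
    refine hno1 (1 / r0) (y / r0) (by simpa using hδ1) (div_ne_zero hy hr0c) ?_ ?_
    · rw [norm_div, Complex.norm_real, Real.norm_of_nonneg hr0'.le, div_lt_iff₀ hr0']
      have := hy1.trans_le (min_le_right _ _)
      linarith
    · have : pt (1 / (r0 : ℂ)) (y / r0) = ((r0 : ℂ) / y, 1 / y) := by
        unfold pt
        ext
        · simp
        · simp only
          field_simp
      rw [this]; exact hy3
  -- the compact part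
  obtain ⟨ε3, hε3, h3⟩ := cpt (isCompact_closedBall (0 : ℂ) (1 / r0))
    (fun x y => y ≠ 0 → pt x y ∈ S.L → ∃ j, x = sf (e j) y) (by
    intro x₁ _
    by_cases hx : D.A.eval x₁ = 0
    · refine ⟨δf x₁, hδf x₁ hx, fun x y h1 h2 h3 h4 => ⟨e.symm ⟨x₁, (hTm _).2 hx⟩, ?_⟩⟩
      rw [Equiv.apply_symm_apply]
      exact hf x₁ hx x y h1 h3 h2 h4
    · obtain ⟨δ, hδ, h⟩ := hno x₁ hx
      exact ⟨δ, hδ, fun x y h1 h2 h3 h4 => absurd h4 (h x y h1 h3 h2)⟩)
  refine bdd_poly F.v S hS hna T.card (fun j => sf (e j)) ε hε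
    (fun j => (hsf _ (he j)).mono (ball_subset_ball (hεj j)))
    (max (1 / min ε1 (δ1 * r0 / 2)) (1 / (r0 * min ε3 (ε / 2)))) ?_
  intro z hz hzR
  rw [max_lt_iff] at hzR
  have hmax : ‖z‖ = max ‖z.1‖ ‖z.2‖ := Prod.norm_def z
  by_cases hcase : ‖z.1‖ < r0 * ‖z.2‖
  · exfalso
    refine hinf z hz hcase ?_
    have h1 : ‖z.1‖ ≤ ‖z.2‖ := by nlinarith [norm_nonneg z.2]
    rw [hmax, max_eq_right h1] at hzR
    exact hzR.1
  · rw [not_lt] at hcase
    have h1 : r0 * ‖z‖ ≤ ‖z.1‖ := by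
      rw [hmax]
      rcases max_choice ‖z.1‖ ‖z.2‖ with h | h <;> rw [h]
      · nlinarith [norm_nonneg z.1]
      · exact hcase
    have h2 : 1 / min ε3 (ε / 2) < ‖z.1‖ := by
      refine lt_of_lt_of_le ?_ h1
      have := hzR.2
      rw [div_lt_iff₀ (by positivity)] at this ⊢
      nlinarith
    have hz1 : 0 < ‖z.1‖ := lt_trans (by positivity) h2
    have hz1' : z.1 ≠ 0 := norm_pos_iff.1 hz1
    have hy1 : ‖1 / z.1‖ < min ε3 (ε / 2) := by
      rw [norm_div, norm_one]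
      rw [div_lt_iff₀ hz1]
      rw [div_lt_iff₀ (by positivity)] at h2
      linarith
    have hpt : pt (z.2 / z.1) (1 / z.1) = z := by
      unfold pt
      ext <;> simp [hz1']
    obtain ⟨j, hj⟩ := h3 (1 / z.1) (hy1.trans_le (min_le_left _ _)) (z.2 / z.1) (by
      rw [mem_closedBall_zero_iff, norm_div, div_le_div_iff₀ hz1 hr0']
      linarith) (one_div_ne_zero hz1') (by rw [hpt]; exact hz)
    exact ⟨j, 1 / z.1, one_div_ne_zero hz1', hy1.trans_le (min_le_right _ _), by rw [← hj, hpt]⟩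

end REACH

theorem reach_or_good (F : Fol) (hI : F.HypInf) (hG : F.Good) (D : InfD) (hd : D.d = F.d)
    (ha : ∀ i ≤ F.d, D.a i = dehom (F.Qc (F.d - i)) - Polynomial.X * dehom (F.Pc (F.d - i)))
    (hb : ∀ i ≤ F.d, D.b i = -dehom (F.Pc (F.d - i)))
    (hc : D.Chart F.v) (S : TSurf (ℂ × ℂ)) (hS : IsLeaf F.v S) (hna : NotAlg S) :
    (∀ x0, D.A.eval x0 ≠ 0 → ∀ δ > 0, ∃ y : ℂ, y ≠ 0 ∧ ‖y‖ < δ ∧ pt x0 y ∈ S.L) ∨
      ∃ u, S.GoodFun u := by
  by_cases hcase : ∀ x0, D.A.eval x0 ≠ 0 → ∀ δ > 0, ∃ y : ℂ, y ≠ 0 ∧ ‖y‖ < δ ∧ pt x0 y ∈ S.L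
  · exact Or.inl hcase
  right
  refine good_of_no_acc F hG D hc S hS hna ?_
  intro x₁ h1
  by_contra hcon
  push Not at hcon
  exact hcase (fun x0 h0 => reach D F.v hc S hS x₁ h1 (fun δ hδ => by
    obtain ⟨x, y, h2, h3, h4, h5⟩ := hcon δ hδ
    exact ⟨x, y, h2, h3, h4, h5⟩) x0 h0)

end Pool.Agent.H210.Gr
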