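import Mathlib
import Pool.Agent.H210.Green.Defs
import Pool.Graph.R_seed8.R737.HO.MaxPrinciple

/-! Task SUBMEAN of the proof of S05669: functions touched from below by `C²` functions with
nonnegative Laplacian satisfy the sub-mean value inequality. -/

set_option autoImplicit false

namespace Pool.Agent.H210.Gr

open Metric Set MeasureTheory Topology Filter
open scoped Laplacian ContDiff ComplexConjugate

namespace SUBMEAN

open Pool.Agent.R737.HO

lemma pd_pd_nonpos {f : ℂ → ℝ} {z : ℂ} (hf : ContDiffAt ℝ 2 f z) (v : ℂ) (h : IsLocalMax f z) :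
    pd v (pd v f) z ≤ 0 := by
  by_contra hc
  push Not at hc
  set g : ℝ → ℝ := fun t => f (z + t * v) with hgdef
  have hcont : Continuous (fun t : ℝ => z + (t : ℂ) * v) := by fun_prop
  have h0 : Tendsto (fun t : ℝ => z + (t : ℂ) * v) (𝓝 0) (𝓝 z) := by
    have := hcont.tendsto 0
    simpa using this
  have hdiff : ∀ᶠ y in 𝓝 z, DifferentiableAt ℝ f y :=
    (hf.eventually (by simp)).mono fun y hy => hy.differentiableAt (by norm_num)
  have hg1 : ∀ᶠ t : ℝ in 𝓝 0, HasDerivAt g (pd v f (z + t * v)) t :=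
    (h0.eventually hdiff).mono fun t ht => hasDerivAt_line ht
  have hpd : DifferentiableAt ℝ (pd v f) z := by
    have h1 : DifferentiableAt ℝ (fderiv ℝ f) z :=
      (hf.fderiv_right (m := 1) (by norm_num)).differentiableAt (by norm_num)
    exact h1.clm_apply (differentiableAt_const v)
  have hg2 : HasDerivAt (fun s : ℝ => pd v f (z + s * v)) (pd v (pd v f) z) 0 := by
    have h1 : DifferentiableAt ℝ (pd v f) (z + ((0 : ℝ) : ℂ) * v) := by simpa using hpd
    have h2 := hasDerivAt_line (t := 0) h1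
    simpa using h2
  have hd : deriv g =ᶠ[𝓝 0] fun t : ℝ => pd v f (z + t * v) :=
    hg1.mono fun t ht => ht.deriv
  have hmax : IsLocalMax g 0 := by
    have h1 := h0.eventually h
    filter_upwards [h1] with t ht
    simpa [hgdef] using ht
  have hd0 : deriv g 0 = 0 := hmax.deriv_eq_zero
  have hdd : deriv (deriv g) 0 = pd v (pd v f) z := by
    rw [hd.deriv_eq, hg2.deriv]
  have hmin : IsLocalMin g 0 :=
    isLocalMin_of_deriv_deriv_pos (by rw [hdd]; exact hc) hd0 hg1.self_of_nhds.continuousAt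
  have hconst : g =ᶠ[𝓝 0] fun _ => g 0 := by
    filter_upwards [hmin, hmax] with t h1 h2
    exact le_antisymm h2 h1
  have h5 : deriv g =ᶠ[𝓝 0] deriv (fun _ => g 0) := hconst.deriv
  have h6 := h5.deriv_eq
  rw [hdd] at h6
  simp at h6
  linarith

lemma lap_nonpos {f : ℂ → ℝ} {z : ℂ} (hf : ContDiffAt ℝ 2 f z) (h : IsLocalMax f z) :
    Δ f z ≤ 0 := by
  rw [lap_eq_at hf]
  have h1 := pd_pd_nonpos hf 1 h
  have h2 := pd_pd_nonpos hf Complex.I h
  linarith

/-- the maximum principle -/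
lemma max_principle (u H : ℂ → ℝ) (z : ℂ) (r : ℝ) (hr : 0 < r) (hz : closedBall z r ⊆ ball 0 1)
    (hc : ContinuousOn u (ball 0 1)) (ht : ∀ x ∈ ball (0 : ℂ) 1, TouchBelow u x)
    (hH : ContDiff ℝ 2 H) (hH0 : ∀ x, Δ H x = 0) (ε : ℝ)
    (hε : ∀ x ∈ sphere z r, u x - H x ≤ ε) (δ : ℝ) (hδ : 0 < δ) : u z ≤ H z + ε + δ := by
  set w : ℂ → ℝ := fun x => u x - H x + δ * ‖x‖ ^ 2 with hw
  have hwc : ContinuousOn w (closedBall z r) := by
    have h1 : ContinuousOn u (closedBall z r) := hc.mono hz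
    have h2 : Continuous (fun x : ℂ => δ * ‖x‖ ^ 2) := by fun_prop
    exact (h1.sub hH.continuous.continuousOn).add h2.continuousOn
  obtain ⟨x1, hx1, hmax⟩ := (isCompact_closedBall z r).exists_isMaxOn
    ⟨z, mem_closedBall_self hr.le⟩ hwc
  have hsph : x1 ∈ sphere z r := by
    by_contra hns
    have hb : x1 ∈ ball z r := by
      rw [mem_closedBall] at hx1
      rw [mem_sphere] at hns
      exact mem_ball.2 (lt_of_le_of_ne hx1 hns)
    obtain ⟨v, hv, hv0, hvx, hvt⟩ := ht x1 (hz hx1)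
    have hn : ContDiffAt ℝ 2 (fun x : ℂ => δ * ‖x‖ ^ 2) x1 :=
      (contDiff_const.mul (contDiff_norm_sq ℝ)).contDiffAt
    have hloc : IsLocalMax (v - H + fun x : ℂ => δ * ‖x‖ ^ 2) x1 := by
      filter_upwards [hvt, isOpen_ball.mem_nhds hb] with y hy1 hy2
      have h1 := hmax (ball_subset_closedBall hy2)
      simp only [mem_ofPred_eq, hw] at h1
      simp only [Pi.add_apply, Pi.sub_apply]
      rw [hvx]
      linarith
    have hvH : ContDiffAt ℝ 2 (v - H) x1 := hv.sub hH.contDiffAt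
    have hall : ContDiffAt ℝ 2 ((v - H) + fun x : ℂ => δ * ‖x‖ ^ 2) x1 := hvH.add hn
    have h2 := lap_nonpos hall hloc
    rw [ContDiffAt.laplacian_add hvH hn,
      ContDiffAt.laplacian_sub hv hH.contDiffAt, hH0] at h2
    have h3 : Δ (fun x : ℂ => δ * ‖x‖ ^ 2) x1 = δ * 4 := by
      have h4 : (fun x : ℂ => δ * ‖x‖ ^ 2) = δ • (fun x : ℂ => ‖x‖ ^ 2) := by
        ext x; simp
      rw [h4, InnerProductSpace.laplacian_smul δ (contDiff_norm_sq ℝ).contDiffAt, lap_normSq]
      simp
    rw [h3] at h2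
    linarith
  have h1 := hmax (mem_closedBall_self hr.le)
  simp only [mem_ofPred_eq, hw] at h1
  have h2 := hε x1 hsph
  have h3 : ‖x1‖ < 1 := by simpa using hz hx1
  have h4 : ‖x1‖ ^ 2 ≤ 1 := by
    have := norm_nonneg x1
    nlinarith
  have h5 : 0 ≤ δ * ‖z‖ ^ 2 := by positivity
  nlinarith

/-- trigonometric polynomials are boundary values of sums of entire functions and conjugates -/
lemma exists_entire (z : ℂ) (r : ℝ) (hr : 0 < r) (p : C(AddCircle (2 * Real.pi), ℂ))
    (hp : p ∈ Submodule.span ℂ (Set.range (fourier (T := 2 * Real.pi)))) :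
    ∃ q1 q2 : ℂ → ℂ, Differentiable ℂ q1 ∧ Differentiable ℂ q2 ∧
      ∀ θ : ℝ, p (θ : AddCircle (2 * Real.pi)) =
        q1 (circleMap z r θ) + conj (q2 (circleMap z r θ)) := by
  have hr' : (r : ℂ) ≠ 0 := by exact_mod_cast hr.ne'
  have hmon : ∀ (n : ℕ) (θ : ℝ), fourier (n : ℤ) (θ : AddCircle (2 * Real.pi)) =
      ((circleMap z r θ - z) / r) ^ n := by
    intro n θ
    rw [fourier_coe_apply, circleMap, add_sub_cancel_left, mul_div_cancel_left₀ _ hr',
      ← Complex.exp_nat_mul]
    congr 1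
    have : (Real.pi : ℂ) ≠ 0 := by exact_mod_cast Real.pi_ne_zero
    push_cast
    field_simp
  induction hp using Submodule.span_induction with
  | mem x hx =>
    obtain ⟨n, rfl⟩ := hx
    rcases Int.eq_nat_or_neg n with ⟨m, rfl | rfl⟩
    · refine ⟨fun x => ((x - z) / r) ^ m, fun _ => 0, by fun_prop, by fun_prop, fun θ => ?_⟩
      rw [hmon]; simp
    · refine ⟨fun _ => 0, fun x => ((x - z) / r) ^ m, by fun_prop, by fun_prop, fun θ => ?_⟩
      rw [fourier_neg, hmon]; simp
  | zero => exact ⟨fun _ => 0, fun _ => 0, by fun_prop, by fun_prop, fun θ => by simp⟩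
  | add x y _ _ hx hy =>
    obtain ⟨a1, a2, ha1, ha2, ha⟩ := hx
    obtain ⟨b1, b2, hb1, hb2, hb⟩ := hy
    refine ⟨fun x => a1 x + b1 x, fun x => a2 x + b2 x, ha1.add hb1, ha2.add hb2, fun θ => ?_⟩
    rw [ContinuousMap.add_apply, ha, hb, map_add]
    ring
  | smul c x _ hx =>
    obtain ⟨a1, a2, ha1, ha2, ha⟩ := hx
    refine ⟨fun x => c * a1 x, fun x => conj c * a2 x, ha1.const_mul c, ha2.const_mul _,
      fun θ => ?_⟩
    rw [ContinuousMap.smul_apply, ha, smul_eq_mul, map_mul, Complex.conj_conj]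
    ring

lemma exists_harmonic (u : ℂ → ℝ) (z : ℂ) (r : ℝ) (hr : 0 < r)
    (hu : ContinuousOn u (sphere z r)) (ε : ℝ) (hε : 0 < ε) :
    ∃ q : ℂ → ℂ, Differentiable ℂ q ∧ ∀ θ : ℝ,
      |u (circleMap z r θ) - (q (circleMap z r θ)).re| ≤ ε := by
  have : Fact (0 < 2 * Real.pi) := ⟨Real.two_pi_pos⟩
  have hmem : ∀ t : AddCircle (2 * Real.pi), z + r * (AddCircle.toCircle t : ℂ) ∈ sphere z r := by
    intro t
    rw [mem_sphere, dist_eq_norm, add_sub_cancel_left, norm_mul, Circle.norm_coe, mul_one,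
      Complex.norm_real, Real.norm_of_nonneg hr.le]
  have hcont : Continuous (fun t : AddCircle (2 * Real.pi) =>
      ((u (z + r * (AddCircle.toCircle t : ℂ)) : ℝ) : ℂ)) := by
    refine Complex.continuous_ofReal.comp (hu.comp_continuous ?_ hmem)
    have := AddCircle.continuous_toCircle (T := 2 * Real.pi)
    fun_prop
  let G : C(AddCircle (2 * Real.pi), ℂ) := ⟨_, hcont⟩
  have hdense : G ∈ (Submodule.span ℂ (Set.range (fourier (T := 2 * Real.pi)))).topologicalClosure := by
    rw [span_fourier_closure_eq_top]; trivial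
  have hdense' : G ∈ closure ((Submodule.span ℂ (Set.range (fourier (T := 2 * Real.pi))) :
      Set C(AddCircle (2 * Real.pi), ℂ))) := hdense
  obtain ⟨p, hp, hpd⟩ := Metric.mem_closure_iff.1 hdense' ε hε
  obtain ⟨q1, q2, h1, h2, h3⟩ := exists_entire z r hr p hp
  refine ⟨fun x => q1 x + q2 x, h1.add h2, fun θ => ?_⟩
  have h4 : ‖G (θ : AddCircle (2 * Real.pi)) - p (θ : AddCircle (2 * Real.pi))‖ ≤ ε := by
    rw [← dist_eq_norm]
    exact (ContinuousMap.dist_apply_le_dist _).trans hpd.le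
  have h5 : G (θ : AddCircle (2 * Real.pi)) = ((u (circleMap z r θ) : ℝ) : ℂ) := by
    change ((u (z + r * (AddCircle.toCircle (θ : AddCircle (2 * Real.pi)) : ℂ)) : ℝ) : ℂ) = _
    rw [AddCircle.toCircle_apply_mk, div_self Real.two_pi_pos.ne', one_mul, Circle.coe_exp,
      circleMap]
  rw [h5, h3] at h4
  have h6 := (Complex.abs_re_le_norm _).trans h4
  simpa using h6

end SUBMEAN

open SUBMEAN in
theorem submean (u : ℂ → ℝ) (hc : ContinuousOn u (ball 0 1)) (ht : ∀ x ∈ ball (0 : ℂ) 1, TouchBelow u x)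
    (z : ℂ) (r : ℝ) (hr : 0 < r) (hz : closedBall z r ⊆ ball 0 1) :
    2 * Real.pi * u z ≤ ∫ θ in (0 : ℝ)..(2 * Real.pi), u (circleMap z r θ) := by
  have husph : ContinuousOn u (sphere z r) := hc.mono (sphere_subset_closedBall.trans hz)
  have huc : Continuous (fun θ : ℝ => u (circleMap z r θ)) :=
    husph.comp_continuous (continuous_circleMap z r) (fun θ => circleMap_mem_sphere z hr.le θ)
  have key : ∀ ε : ℝ, 0 < ε →
      2 * Real.pi * u z ≤ (∫ θ in (0 : ℝ)..(2 * Real.pi), u (circleMap z r θ)) + ε * (6 * Real.pi) := by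
    intro ε hε
    obtain ⟨q, hq, hqu⟩ := exists_harmonic u z r hr husph ε hε
    set H : ℂ → ℝ := fun x => (q x).re with hHdef
    have hharm : ∀ x, InnerProductSpace.HarmonicAt H x := fun x =>
      (hq.analyticAt x).harmonicAt_re
    have hH : ContDiff ℝ 2 H := contDiff_iff_contDiffAt.2 fun x => (hharm x).1
    have hH0 : ∀ x, Δ H x = 0 := fun x => (hharm x).2.self_of_nhds
    have h1 := max_principle u H z r hr hz hc ht hH hH0 ε (fun x hx => by
      rw [← abs_of_pos hr, ← range_circleMap] at hx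
      obtain ⟨θ, rfl⟩ := hx
      exact (le_abs_self _).trans (hqu θ)) ε hε
    have h2 : Real.circleAverage H z r = H z := by
      exact InnerProductSpace.HarmonicOnNhd.circleAverage_eq fun x _ => hharm x
    have h3 : (∫ θ in (0 : ℝ)..(2 * Real.pi), H (circleMap z r θ)) = 2 * Real.pi * H z := by
      rw [← h2, Real.circleAverage_def, smul_eq_mul, ← mul_assoc, mul_inv_cancel₀ Real.two_pi_pos.ne',
        one_mul]
    have hHc : Continuous (fun θ : ℝ => H (circleMap z r θ)) :=
      hH.continuous.comp (continuous_circleMap z r)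
    have h4 : (∫ θ in (0 : ℝ)..(2 * Real.pi), H (circleMap z r θ)) ≤
        ∫ θ in (0 : ℝ)..(2 * Real.pi), (u (circleMap z r θ) + ε) := by
      refine intervalIntegral.integral_mono_on Real.two_pi_pos.le
        (hHc.intervalIntegrable _ _) ((huc.add continuous_const).intervalIntegrable _ _)
        fun θ _ => ?_
      have := (abs_le.1 (hqu θ)).1
      simp only [hHdef]
      linarith
    rw [intervalIntegral.integral_add (huc.intervalIntegrable _ _)
      (continuous_const.intervalIntegrable _ _), intervalIntegral.integral_const, h3] at h4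
    simp only [sub_zero, smul_eq_mul] at h4
    have hpi := Real.pi_pos
    nlinarith
  refine le_of_forall_pos_le_add fun η hη => ?_
  have h6 : 0 < 6 * Real.pi := by positivity
  have h7 := key (η / (6 * Real.pi)) (div_pos hη h6)
  rwa [div_mul_cancel₀ _ h6.ne'] at h7

end Pool.Agent.H210.Gr
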