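import Pool.Agent.H210.Green.LEAF
import Pool.Agent.H210.Green.SUBMEAN
import Pool.Agent.H210.Green.InfEnergy
import Pool.Agent.H210.Green.ALG
import Pool.Agent.H210.Green.Coord
import Pool.Agent.H210.Green.Homog
import Pool.Agent.H210.Green.ORD
import Pool.Agent.H210.Green.REACH
import Pool.Agent.H210.Green.PMAIN

/-! The affine theorem. -/

set_option autoImplicit false

namespace Pool.Agent.H210.Gr

open Metric Set MeasureTheory Topology Filter
open scoped Laplacian ContDiff
open MvPolynomial (X C pderiv)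


theorem affine (F : Fol) (hI : F.HypInf) (hF : F.HypFin) (hG : F.Good) (S : TSurf (ℂ × ℂ))
    (hS : IsLeaf F.v S) (hna : NotAlg S) : ∃ u, S.GoodFun u := by
  obtain ⟨D, hd, ha, hb, hc⟩ := inf_exists F hI hG
  by_cases hobs : ∃ ρ k, D.Obs ρ k
  · obtain ⟨ρ, k, hO⟩ := hobs
    rcases reach_or_good F hI hG D hd ha hb hc S hS hna with hr | hg
    · obtain ⟨γ, c, R, r, C, hconf, hr0, hrR, hC, hE⟩ := inf_energy D F.v hc S hS ρ k hO hr
      exact P_main S γ c R r C hconf hr0 hrR hC hE
    · exact hg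
  · exfalso
    push Not at hobs
    obtain ⟨R, h1, h2, h3⟩ := int_factor F D hd ha hb hobs
    exact no_int_factor F hI hF hG R h1 h2 h3

end Pool.Agent.H210.Gr
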