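import Mathlib

set_option autoImplicit false

/-! Formal part of the normal form -/

namespace Pool.Agent.H210.Gr.NF

open PowerSeries

/-- `y d/dy` -/
noncomputable def th (f : PowerSeries ℂ) : PowerSeries ℂ := PowerSeries.mk fun n => (n : ℂ) * coeff n f

theorem coeff_th (f : PowerSeries ℂ) (n : ℕ) : coeff n (th f) = n * coeff n f := by
  simp [th]

theorem th_add (f g : PowerSeries ℂ) : th (f + g) = th f + th g := by
  ext n; simp [coeff_th, mul_add]

theorem th_sub (f g : PowerSeries ℂ) : th (f - g) = th f - th g := by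
  ext n; simp [coeff_th, mul_sub]

theorem th_mul (f g : PowerSeries ℂ) : th (f * g) = th f * g + f * th g := by
  ext n
  rw [coeff_th, map_add, coeff_mul, coeff_mul, coeff_mul, Finset.mul_sum, ← Finset.sum_add_distrib]
  refine Finset.sum_congr rfl fun p hp => ?_
  rw [coeff_th, coeff_th]
  have : (n : ℂ) = p.1 + p.2 := by
    rw [Finset.HasAntidiagonal.mem_antidiagonal] at hp
    rw [← hp]; push_cast; ring
  rw [this]; ring

theorem th_C (c : ℂ) : th (C c) = 0 := by
  ext n
  rw [coeff_th, coeff_C]
  split_ifs with h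
  · subst h; simp
  · simp

/-- lowest coefficients of a product -/
theorem coeff_mul_low {f g : PowerSeries ℂ} {m : ℕ} (h : ∀ j < m, coeff j g = 0) :
    coeff m (f * g) = coeff 0 f * coeff m g := by
  rw [coeff_mul, Finset.sum_eq_single (0, m)]
  · intro p hp hne
    rw [Finset.HasAntidiagonal.mem_antidiagonal] at hp
    have : p.2 < m := by
      rcases Nat.eq_zero_or_pos p.1 with h0 | h0
      · exfalso; apply hne; ext <;> simp <;> omega
      · omega
    rw [h _ this, mul_zero]
  · intro h0
    exact absurd (by simp [Finset.HasAntidiagonal.mem_antidiagonal]) h0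

theorem formal {k : ℕ} (hk : 1 ≤ k) (a a' b S S' h h' : PowerSeries ℂ) (A G κ : ℂ) (hA : A ≠ 0)
    (ha0 : coeff 0 a = A) (hS0 : coeff 0 S = A) (hh0 : coeff 0 h = 1) (hh0' : coeff 0 h' = 0)
    (hκ : κ * A = k * coeff 0 b)
    (h1 : S * (C (k : ℂ) * h - th h) = C (k : ℂ) * a * h)
    (h2 : S' * (C (k : ℂ) * h - th h) + S * (C (k : ℂ) * h' - th h') = C (k : ℂ) * (a' * h + a * h'))
    (hord : ∀ m < k, coeff m (a * S' + b * th S - (a' + th b) * S) = 0)
    (hordk : coeff k (a * S' + b * th S - (a' + th b) * S) = -G) :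
    (∀ m < k, coeff m (a * h' - b * (C (k : ℂ) * h - th h) + C κ * a * h) = 0) ∧
      coeff k (a * h' - b * (C (k : ℂ) * h - th h) + C κ * a * h) = -G / A := by
  set T := a * h' - b * (C (k : ℂ) * h - th h) + C κ * a * h with hT
  set O := a * S' + b * th S - (a' + th b) * S with hO
  have hthp : th (C (k : ℂ) * h - th h) = C (k : ℂ) * th h - th (th h) := by
    rw [th_sub, th_mul, th_C, zero_mul, zero_add]
  have h3 : th S * (C (k : ℂ) * h - th h) + S * (C (k : ℂ) * th h - th (th h)) =
      C (k : ℂ) * (th a * h + a * th h) := by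
    have := congrArg th h1
    rw [th_mul, hthp, th_mul, th_mul, th_C, zero_mul, zero_add] at this
    rw [this]; ring
  have hthT : th T = th a * h' + a * th h' - (th b * (C (k : ℂ) * h - th h) +
      b * (C (k : ℂ) * th h - th (th h))) + (C κ * (th a * h + a * th h)) := by
    rw [hT, th_add, th_sub, th_mul, th_mul, hthp, th_mul, th_mul, th_C]
    ring
  have key : (a * h * S ^ 2) * th T - (S ^ 2 * th (a * h)) * T = (C (k : ℂ) * a ^ 2 * h ^ 2) * O := by
    rw [hthT, th_mul, hT, hO]
    linear_combination (a ^ 2 * S * h' + a ^ 2 * h * S' - S * a * h * th b +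
      S * b * (th a * h + a * th h) + a * h * b * th S) * h1 + (-(a ^ 2 * S * h)) * h2 +
      (-(S * a * h * b)) * h3
  have hstep : ∀ m, (∀ j < m, coeff j T = 0) → (∀ j < m, coeff j O = 0) →
      A ^ 3 * (m * coeff m T) = k * A ^ 2 * coeff m O := by
    intro m hTm hOm
    have h5 := congrArg (coeff m) key
    rw [map_sub, coeff_mul_low (f := a * h * S ^ 2) (g := th T)
      (by intro j hj; rw [coeff_th, hTm j hj, mul_zero]), coeff_mul_low (f := S ^ 2 * th (a * h)) hTm,
      coeff_mul_low hOm, coeff_th] at h5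
    have e1 : coeff 0 (a * h * S ^ 2) = A ^ 3 := by
      simp only [coeff_zero_eq_constantCoeff_apply, map_mul, map_pow] at *
      rw [ha0, hh0, hS0]; ring
    have e2 : coeff 0 (S ^ 2 * th (a * h)) = 0 := by
      have : constantCoeff (th (a * h)) = 0 := by
        rw [← coeff_zero_eq_constantCoeff_apply, coeff_th]; simp
      simp only [coeff_zero_eq_constantCoeff_apply, map_mul, this, mul_zero]
    have e3 : coeff 0 (C (k : ℂ) * a ^ 2 * h ^ 2) = k * A ^ 2 := by
      simp only [coeff_zero_eq_constantCoeff_apply, map_mul, map_pow, constantCoeff_C] at *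
      rw [ha0, hh0]; ring
    rw [e1, e2, e3] at h5
    linear_combination h5
  have hlow : ∀ m, m < k → coeff m T = 0 := by
    intro m
    induction m using Nat.strong_induction_on with
    | _ m ih =>
      intro hm
      rcases Nat.eq_zero_or_pos m with h0 | h0
      · subst h0
        rw [hT]
        simp only [map_add, map_sub, coeff_zero_eq_constantCoeff_apply, map_mul, constantCoeff_C] at *
        have e0 : constantCoeff (th h) = 0 := by
          rw [← coeff_zero_eq_constantCoeff_apply, coeff_th]; simp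
        rw [e0, hh0, hh0', ha0]
        linear_combination hκ
      · have h5 := hstep m (fun j hj => ih j hj (hj.trans hm)) (fun j hj => hord j (hj.trans hm))
        rw [hord m hm, mul_zero] at h5
        have h6 : (m : ℂ) ≠ 0 := by exact_mod_cast h0.ne'
        have h7 : A ^ 3 ≠ 0 := pow_ne_zero _ hA
        simpa [h6, h7] using h5
  refine ⟨hlow, ?_⟩
  have h5 := hstep k hlow hord
  rw [hordk] at h5
  have h6 : (k : ℂ) ≠ 0 := by
    have : k ≠ 0 := by omega
    exact_mod_cast this
  rw [eq_div_iff hA]
  have h8 : (A ^ 2 * k) * (coeff k T * A) = (A ^ 2 * k) * (-G) := by linear_combination h5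
  exact mul_left_cancel₀ (mul_ne_zero (pow_ne_zero 2 hA) h6) h8

end Pool.Agent.H210.Gr.NF
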