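import Mathlib
import Pool.Agent.H210.Green.Defs

set_option autoImplicit false

namespace Pool.Agent.H210.Gr.SEP

open Metric Set Topology Filter

lemma abs_im_le (κ : ℂ) (n : ℕ) : |κ.im| ≤ ‖(n : ℂ) - κ‖ := by
  have := Complex.abs_im_le_norm ((n : ℂ) - κ)
  simpa using this

/-- the linear equation `y ψ' - κ ψ = φ` on a disc -/
theorem linear_solve (ε : ℝ) (κ : ℂ) (hκ : κ.im ≠ 0) (φ : ℂ → ℂ)
    (hφ : DifferentiableOn ℂ φ (ball 0 ε)) :
    ∃ ψ : ℂ → ℂ, DifferentiableOn ℂ ψ (ball 0 ε) ∧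
      ∀ y ∈ ball (0 : ℂ) ε, y * deriv ψ y - κ * ψ y = φ y := by
  classical
  set a : ℕ → ℂ := fun n => ((Nat.factorial n : ℂ))⁻¹ * iteratedDeriv n φ 0 with ha
  have hsum : ∀ y ∈ ball (0 : ℂ) ε, HasSum (fun n => a n * y ^ n) (φ y) := by
    intro y hy
    have h := Complex.hasSum_taylorSeries_on_ball hφ hy
    have e : (fun n => a n * y ^ n) =
        (fun n : ℕ => ((Nat.factorial n : ℂ))⁻¹ • (y - 0) ^ n • iteratedDeriv n φ 0) := by
      funext n
      simp only [ha, smul_eq_mul, sub_zero]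
      ring
    rw [e]
    exact h
  have hpos : 0 < |κ.im| := abs_pos.mpr hκ
  have hne : ∀ n : ℕ, (n : ℂ) - κ ≠ 0 := by
    intro n h
    have := abs_im_le κ n
    rw [h, norm_zero] at this
    linarith
  set f : ℕ → ℂ → ℂ := fun n y => a n / ((n : ℂ) - κ) * y ^ n with hf
  have hfd : ∀ n, Differentiable ℂ (f n) := by
    intro n
    exact (differentiable_id.pow n).const_mul _
  set ψ : ℂ → ℂ := fun y => ∑' n, f n y with hψ
  -- local statement on smaller balls
  have key : ∀ y ∈ ball (0 : ℂ) ε, DifferentiableAt ℂ ψ y ∧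
      y * deriv ψ y - κ * ψ y = φ y := by
    intro y hy
    rw [mem_ball_zero_iff] at hy
    obtain ⟨r, hr1, hr2⟩ := exists_between hy
    have hr0 : 0 < r := lt_of_le_of_lt (norm_nonneg y) hr1
    have hrmem : (r : ℂ) ∈ ball (0 : ℂ) ε := by
      rw [mem_ball_zero_iff, Complex.norm_real, Real.norm_eq_abs, abs_of_pos hr0]
      exact hr2
    have hs : Summable (fun n => ‖a n‖ * r ^ n) := by
      have h1 := (hsum (r : ℂ) hrmem).summable.norm
      refine h1.congr fun n => ?_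
      rw [norm_mul, norm_pow, Complex.norm_real, Real.norm_eq_abs, abs_of_pos hr0]
    have hu : Summable (fun n => (‖a n‖ * r ^ n) * |κ.im|⁻¹) := hs.mul_right _
    have hle : ∀ (n : ℕ) (w : ℂ), w ∈ ball (0 : ℂ) r →
        ‖f n w‖ ≤ (‖a n‖ * r ^ n) * |κ.im|⁻¹ := by
      intro n w hw
      rw [mem_ball_zero_iff] at hw
      simp only [hf, norm_mul, norm_div, norm_pow]
      have h1 : ‖w‖ ^ n ≤ r ^ n := pow_le_pow_left₀ (norm_nonneg _) hw.le n
      have h2 : ‖a n‖ / ‖(n : ℂ) - κ‖ ≤ ‖a n‖ / |κ.im| :=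
        div_le_div_of_nonneg_left (norm_nonneg _) hpos (abs_im_le κ n)
      calc ‖a n‖ / ‖(n : ℂ) - κ‖ * ‖w‖ ^ n ≤ ‖a n‖ / |κ.im| * r ^ n := by
            apply mul_le_mul h2 h1 (by positivity) (by positivity)
        _ = (‖a n‖ * r ^ n) * |κ.im|⁻¹ := by
            rw [div_eq_mul_inv]; ring
    have hyb : y ∈ ball (0 : ℂ) r := by rwa [mem_ball_zero_iff]
    have hd := Complex.differentiableOn_tsum_of_summable_norm hu
      (fun i => (hfd i).differentiableOn) isOpen_ball hle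
    have hdy : DifferentiableAt ℂ ψ y := hd.differentiableAt (isOpen_ball.mem_nhds hyb)
    have hs1 := Complex.hasSum_deriv_of_summable_norm hu
      (fun i => (hfd i).differentiableOn) isOpen_ball hle hyb
    have hs2 : HasSum (fun n => f n y) (ψ y) := by
      apply Summable.hasSum
      apply Summable.of_norm_bounded hu
      intro n
      exact hle n y hyb
    refine ⟨hdy, ?_⟩
    have hs3 := (hs1.mul_left y).sub (hs2.mul_left κ)
    have hs4 := hsum y (by rwa [mem_ball_zero_iff])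
    refine hs3.unique ?_
    suffices e : (fun b => y * deriv (f b) y - κ * f b y) = (fun n => a n * y ^ n) by
      rw [e]
      exact hs4
    funext n
    have hder : deriv (f n) y = a n / ((n : ℂ) - κ) * ((n : ℂ) * y ^ (n - 1)) := by
      simp only [hf]
      rw [deriv_const_mul _ (differentiableAt_pow n)]
      simp
    rw [hder]
    simp only [hf]
    have hn := hne n
    rcases Nat.eq_zero_or_pos n with h0 | h0
    · subst h0
      have hκ0 : κ ≠ 0 := by
        intro h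
        rw [h] at hκ
        simp at hκ
      simp only [Nat.cast_zero, zero_mul, mul_zero, pow_zero, mul_one, zero_sub]
      field_simp
    · have hp : y * y ^ (n - 1) = y ^ n := by
        rw [← pow_succ']
        congr 1
        omega
      have e1 : y * (a n / ((n : ℂ) - κ) * ((n : ℂ) * y ^ (n - 1))) =
          a n / ((n : ℂ) - κ) * (n : ℂ) * y ^ n := by
        rw [← hp]; ring
      rw [e1]
      have e2 : a n / ((n : ℂ) - κ) * (n : ℂ) * y ^ n - κ * (a n / ((n : ℂ) - κ) * y ^ n)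
          = a n / ((n : ℂ) - κ) * ((n : ℂ) - κ) * y ^ n := by ring
      rw [e2, div_mul_cancel₀ _ hn]
  exact ⟨ψ, fun y hy => (key y hy).1.differentiableWithinAt, fun y hy => (key y hy).2⟩

/-- a priori estimate for the linear equation -/
theorem linear_bound (κ : ℂ) (hκ : κ.im ≠ 0) :
    ∃ C : ℝ, 0 < C ∧ ∀ (ε : ℝ) (φ ψ : ℂ → ℂ) (M : ℝ), 0 ≤ M → DifferentiableOn ℂ ψ (ball 0 ε) →
      (∀ y ∈ ball (0 : ℂ) ε, y * deriv ψ y - κ * ψ y = φ y) →
      (∀ y ∈ ball (0 : ℂ) ε, ‖φ y‖ ≤ M) → ∀ y ∈ ball (0 : ℂ) ε, ‖ψ y‖ ≤ C * M := by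
  set c : ℂ := 1 + ((κ.re + 1) / κ.im : ℝ) * Complex.I with hc
  have hcre : c.re = 1 := by simp [hc]
  have hcκ : (c * κ).re = -1 := by
    rw [Complex.mul_re, hcre]
    have : c.im = (κ.re + 1) / κ.im := by simp [hc]
    rw [this]
    field_simp
    ring
  have hcpos : 0 < ‖c‖ := by
    rw [norm_pos_iff]
    intro h
    rw [h] at hcre
    simp at hcre
  refine ⟨‖c‖, hcpos, ?_⟩
  intro ε φ ψ M hM hψ heq hb y hy
  have hyn : ‖y‖ < ε := by rwa [mem_ball_zero_iff] at hy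
  -- ψ is bounded on the closed ball of radius ‖y‖
  obtain ⟨B0, hB0⟩ : ∃ B0, ∀ z ∈ closedBall (0 : ℂ) ‖y‖, ‖ψ z‖ ≤ B0 := by
    apply (isCompact_closedBall (0 : ℂ) ‖y‖).exists_bound_of_continuousOn
    apply hψ.continuousOn.mono
    exact closedBall_subset_ball hyn
  have hB0' : 0 ≤ B0 := (norm_nonneg _).trans (hB0 0 (by simp))
  have hre : ∀ t : ℝ, ((c * t : ℂ)).re = t := by
    intro t
    simp [Complex.mul_re, hcre]
  have hre2 : ∀ t : ℝ, ((-(c * κ) * t : ℂ)).re = t := by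
    intro t
    have : (-(c * κ) * (t : ℂ)).re = -(c * κ).re * t := by
      rw [Complex.re_mul_ofReal, Complex.neg_re]
    rw [this, hcκ]
    ring
  have hmem : ∀ t : ℝ, t ≤ 0 → ‖y * Complex.exp (c * t)‖ ≤ ‖y‖ := by
    intro t ht
    rw [norm_mul, Complex.norm_exp, hre]
    have : Real.exp t ≤ 1 := Real.exp_le_one_iff.mpr ht
    exact mul_le_of_le_one_right (norm_nonneg _) this
  set h : ℝ → ℂ := fun t => Complex.exp (-(c * κ) * t) * ψ (y * Complex.exp (c * t)) with hh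
  have hder : ∀ t : ℝ, t ≤ 0 → HasDerivAt h
      (c * Complex.exp (-(c * κ) * t) * φ (y * Complex.exp (c * t))) t := by
    intro t ht
    have hin : y * Complex.exp (c * t) ∈ ball (0 : ℂ) ε := by
      rw [mem_ball_zero_iff]
      exact (hmem t ht).trans_lt hyn
    have d1 : HasDerivAt (fun t : ℝ => Complex.exp (-(c * κ) * t))
        (Complex.exp (-(c * κ) * t) * (-(c * κ))) t := by
      have e1 : HasDerivAt (fun t : ℝ => (-(c * κ) * (t : ℂ))) (-(c * κ)) t := by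
        simpa using (Complex.ofRealCLM.hasDerivAt (x := t)).const_mul (-(c * κ))
      exact e1.cexp
    have d2 : HasDerivAt (fun t : ℝ => y * Complex.exp (c * t))
        (y * (Complex.exp (c * t) * c)) t := by
      have e1 : HasDerivAt (fun t : ℝ => (c * (t : ℂ))) c t := by
        simpa using (Complex.ofRealCLM.hasDerivAt (x := t)).const_mul c
      exact e1.cexp.const_mul y
    have d3 : HasDerivAt ψ (deriv ψ (y * Complex.exp (c * t))) (y * Complex.exp (c * t)) :=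
      (hψ.differentiableAt (isOpen_ball.mem_nhds hin)).hasDerivAt
    have d4 := d3.comp_of_eq t d2 rfl
    have d5 := d1.mul d4
    have e := heq _ hin
    refine d5.congr_deriv ?_
    rw [← e]
    simp only [Function.comp_apply]
    ring
  have hbound : ∀ T : ℝ, 0 ≤ T → ‖h 0‖ ≤ Real.exp (-T) * B0 + ‖c‖ * M * Real.exp 0 := by
    intro T hT
    have hmain := image_norm_le_of_norm_deriv_right_le_deriv_boundary' (f := h)
      (f' := fun t => c * Complex.exp (-(c * κ) * t) * φ (y * Complex.exp (c * t)))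
      (a := -T) (b := 0) (B := fun t => Real.exp (-T) * B0 + ‖c‖ * M * Real.exp t)
      (B' := fun t => ‖c‖ * M * Real.exp t) ?_ ?_ ?_ ?_ ?_ ?_
    · exact hmain (right_mem_Icc.mpr (by linarith))
    · intro t ht
      exact (hder t ht.2).continuousAt.continuousWithinAt
    · intro t ht
      exact (hder t ht.2.le).hasDerivWithinAt
    · simp only [hh, norm_mul, Complex.norm_exp, hre2]
      have h1 := hB0 (y * Complex.exp (c * ((-T : ℝ) : ℂ))) (by
        rw [mem_closedBall_zero_iff]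
        exact hmem (-T) (by linarith))
      have h2 : 0 ≤ ‖c‖ * M * Real.exp (-T) := by positivity
      have h3 := mul_le_mul_of_nonneg_left h1 (Real.exp_nonneg (-T))
      linarith
    · fun_prop
    · intro t ht
      have h1 := ((Real.hasDerivAt_exp t).const_mul (‖c‖ * M)).const_add (Real.exp (-T) * B0)
      exact h1.hasDerivWithinAt
    · intro t ht
      have hin : y * Complex.exp (c * t) ∈ ball (0 : ℂ) ε := by
        rw [mem_ball_zero_iff]
        exact (hmem t ht.2.le).trans_lt hyn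
      rw [norm_mul, norm_mul, Complex.norm_exp, hre2]
      have h1 := mul_le_mul_of_nonneg_left (hb _ hin) (by positivity : 0 ≤ ‖c‖ * Real.exp t)
      calc ‖c‖ * Real.exp t * ‖φ (y * Complex.exp (c * t))‖ ≤ ‖c‖ * Real.exp t * M := h1
        _ = ‖c‖ * M * Real.exp t := by ring
  have h0 : h 0 = ψ y := by simp [hh]
  rw [h0] at hbound
  have hlim : Tendsto (fun T : ℝ => Real.exp (-T) * B0 + ‖c‖ * M * Real.exp 0) atTop
      (𝓝 (0 * B0 + ‖c‖ * M * Real.exp 0)) := by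
    apply Tendsto.add_const
    apply Tendsto.mul_const
    exact Real.tendsto_exp_neg_atTop_nhds_zero
  have hfin := ge_of_tendsto hlim ((eventually_ge_atTop 0).mono hbound)
  simpa using hfin

/-- the nonlinear equation `y σ' - κ σ = F(y, σ)` -/
theorem nonlinear_solve (ε : ℝ) (κ : ℂ) (hκ : κ.im ≠ 0) (C : ℝ)
    (hC : ∀ (φ ψ : ℂ → ℂ) (M : ℝ), 0 ≤ M → DifferentiableOn ℂ ψ (ball 0 ε) →
      (∀ y ∈ ball (0 : ℂ) ε, y * deriv ψ y - κ * ψ y = φ y) →
      (∀ y ∈ ball (0 : ℂ) ε, ‖φ y‖ ≤ M) → ∀ y ∈ ball (0 : ℂ) ε, ‖ψ y‖ ≤ C * M)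
    (F : ℂ → ℂ → ℂ) (δ L m : ℝ) (hδ : 0 ≤ δ) (hL : 0 ≤ L) (hm : 0 ≤ m)
    (hCL : C * L ≤ 1 / 2) (hCm : C * m ≤ δ / 2)
    (h1 : ∀ φ : ℂ → ℂ, DifferentiableOn ℂ φ (ball 0 ε) → (∀ y ∈ ball (0 : ℂ) ε, ‖φ y‖ ≤ δ) →
      DifferentiableOn ℂ (fun y => F y (φ y)) (ball 0 ε))
    (h2 : ∀ y ∈ ball (0 : ℂ) ε, ∀ u v : ℂ, ‖u‖ ≤ δ → ‖v‖ ≤ δ → ‖F y u - F y v‖ ≤ L * ‖u - v‖)
    (h3 : ∀ y ∈ ball (0 : ℂ) ε, ‖F y 0‖ ≤ m) :
    ∃ σ : ℂ → ℂ, DifferentiableOn ℂ σ (ball 0 ε) ∧ (∀ y ∈ ball (0 : ℂ) ε, ‖σ y‖ ≤ δ) ∧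
      ∀ y ∈ ball (0 : ℂ) ε, y * deriv σ y - κ * σ y = F y (σ y) := by
  classical
  have step : ∀ σ : {σ : ℂ → ℂ // DifferentiableOn ℂ σ (ball 0 ε) ∧
      ∀ y ∈ ball (0 : ℂ) ε, ‖σ y‖ ≤ δ}, ∃ τ : {σ : ℂ → ℂ // DifferentiableOn ℂ σ (ball 0 ε) ∧
      ∀ y ∈ ball (0 : ℂ) ε, ‖σ y‖ ≤ δ},
      ∀ y ∈ ball (0 : ℂ) ε, y * deriv τ.1 y - κ * τ.1 y = F y (σ.1 y) := by
    rintro ⟨σ, hσ1, hσ2⟩
    obtain ⟨ψ, hψ1, hψ2⟩ := linear_solve ε κ hκ (fun y => F y (σ y)) (h1 σ hσ1 hσ2)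
    have hb : ∀ y ∈ ball (0 : ℂ) ε, ‖ψ y‖ ≤ C * (m + L * δ) := by
      apply hC (fun y => F y (σ y)) ψ (m + L * δ) (by positivity) hψ1 hψ2
      intro y hy
      have e1 := h2 y hy (σ y) 0 (hσ2 y hy) (by simpa using hδ)
      have e2 := h3 y hy
      have e3 : ‖F y (σ y)‖ ≤ ‖F y (σ y) - F y 0‖ + ‖F y 0‖ := by
        simpa using norm_add_le (F y (σ y) - F y 0) (F y 0)
      rw [sub_zero] at e1
      have e4 : L * ‖σ y‖ ≤ L * δ := mul_le_mul_of_nonneg_left (hσ2 y hy) hL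
      show ‖F y (σ y)‖ ≤ m + L * δ
      linarith
    refine ⟨⟨ψ, hψ1, fun y hy => ?_⟩, hψ2⟩
    have e5 := hb y hy
    have e6 : C * L * δ ≤ 1 / 2 * δ := mul_le_mul_of_nonneg_right hCL hδ
    calc ‖ψ y‖ ≤ C * (m + L * δ) := e5
      _ = C * m + C * L * δ := by ring
      _ ≤ δ / 2 + 1 / 2 * δ := add_le_add hCm e6
      _ = δ := by ring
  choose T hT using step
  set x0 : {σ : ℂ → ℂ // DifferentiableOn ℂ σ (ball 0 ε) ∧
      ∀ y ∈ ball (0 : ℂ) ε, ‖σ y‖ ≤ δ} :=
    ⟨fun _ => 0, differentiableOn_const 0, fun y _ => by simpa using hδ⟩ with hx0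
  set f : ℕ → ℂ → ℂ := fun n => (T^[n] x0).1 with hf
  have hfd : ∀ n, DifferentiableOn ℂ (f n) (ball 0 ε) := fun n => (T^[n] x0).2.1
  have hfb : ∀ n, ∀ y ∈ ball (0 : ℂ) ε, ‖f n y‖ ≤ δ := fun n => (T^[n] x0).2.2
  have hfe : ∀ n, ∀ y ∈ ball (0 : ℂ) ε,
      y * deriv (f (n + 1)) y - κ * f (n + 1) y = F y (f n y) := by
    intro n y hy
    have := hT (T^[n] x0) y hy
    simp only [hf, Function.iterate_succ_apply']
    exact this
  have hgeo : ∀ n, ∀ y ∈ ball (0 : ℂ) ε, ‖f n y - f (n + 1) y‖ ≤ (2 * δ) * (1 / 2) ^ n := by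
    intro n
    induction n with
    | zero =>
      intro y hy
      have e1 := hfb 0 y hy
      have e2 := hfb 1 y hy
      have e3 := norm_sub_le (f 0 y) (f (0 + 1) y)
      simp only [zero_add] at e3 ⊢
      rw [pow_zero, mul_one]
      linarith
    | succ n ih =>
      intro y hy
      have hb := hC (fun y => F y (f n y) - F y (f (n + 1) y))
        (fun y => f (n + 1) y - f (n + 1 + 1) y) (L * ((2 * δ) * (1 / 2) ^ n)) (by positivity)
        ((hfd (n + 1)).sub (hfd (n + 1 + 1))) ?_ ?_ y hy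
      · have e6 : C * L * ((2 * δ) * (1 / 2) ^ n) ≤ 1 / 2 * ((2 * δ) * (1 / 2) ^ n) :=
          mul_le_mul_of_nonneg_right hCL (by positivity)
        calc ‖f (n + 1) y - f (n + 1 + 1) y‖ ≤ C * (L * ((2 * δ) * (1 / 2) ^ n)) := hb
          _ = C * L * ((2 * δ) * (1 / 2) ^ n) := by ring
          _ ≤ 1 / 2 * ((2 * δ) * (1 / 2) ^ n) := e6
          _ = (2 * δ) * (1 / 2) ^ (n + 1) := by ring
      · intro z hz
        have d1 : DifferentiableAt ℂ (f (n + 1)) z :=
          (hfd (n + 1)).differentiableAt (isOpen_ball.mem_nhds hz)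
        have d2 : DifferentiableAt ℂ (f (n + 1 + 1)) z :=
          (hfd (n + 1 + 1)).differentiableAt (isOpen_ball.mem_nhds hz)
        have d3 : deriv (fun y => f (n + 1) y - f (n + 1 + 1) y) z =
            deriv (f (n + 1)) z - deriv (f (n + 1 + 1)) z := deriv_fun_sub d1 d2
        rw [d3]
        have q1 := hfe n z hz
        have q2 := hfe (n + 1) z hz
        rw [← q1, ← q2]
        ring
      · intro z hz
        have q := h2 z hz (f n z) (f (n + 1) z) (hfb n z hz) (hfb (n + 1) z hz)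
        exact q.trans (mul_le_mul_of_nonneg_left (ih z hz) hL)
  have hcau : ∀ y ∈ ball (0 : ℂ) ε, ∃ l, Tendsto (fun n => f n y) atTop (𝓝 l) := by
    intro y hy
    apply cauchySeq_tendsto_of_complete
    apply cauchySeq_of_le_geometric (1 / 2) (2 * δ) (by norm_num)
    intro n
    rw [dist_eq_norm]
    exact hgeo n y hy
  choose! s hs using hcau
  have hdist : ∀ y ∈ ball (0 : ℂ) ε, ∀ n, dist (f n y) (s y) ≤ (2 * δ) * (1 / 2) ^ n / (1 - 1 / 2) := by
    intro y hy n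
    apply dist_le_of_le_geometric_of_tendsto (1 / 2) (2 * δ) (by norm_num) _ (hs y hy) n
    intro n
    rw [dist_eq_norm]
    exact hgeo n y hy
  have hunif : TendstoUniformlyOn f s atTop (ball 0 ε) := by
    rw [Metric.tendstoUniformlyOn_iff]
    intro e he
    have hl : Tendsto (fun n : ℕ => (2 * δ) * (1 / 2 : ℝ) ^ n / (1 - 1 / 2)) atTop
        (𝓝 ((2 * δ) * 0 / (1 - 1 / 2))) := by
      apply Tendsto.div_const
      apply Tendsto.const_mul
      exact tendsto_pow_atTop_nhds_zero_of_lt_one (by norm_num) (by norm_num)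
    have hl2 : ∀ᶠ n : ℕ in atTop, (2 * δ) * (1 / 2 : ℝ) ^ n / (1 - 1 / 2) < e := by
      apply hl.eventually_lt_const
      simpa using he
    filter_upwards [hl2] with n hn y hy
    rw [dist_comm]
    exact (hdist y hy n).trans_lt hn
  have hloc := hunif.tendstoLocallyUniformlyOn
  have hsd : DifferentiableOn ℂ s (ball 0 ε) :=
    hloc.differentiableOn (Eventually.of_forall hfd) isOpen_ball
  have hsb : ∀ y ∈ ball (0 : ℂ) ε, ‖s y‖ ≤ δ := by
    intro y hy
    exact le_of_tendsto (hs y hy).norm (Eventually.of_forall fun n => hfb n y hy)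
  refine ⟨s, hsd, hsb, ?_⟩
  intro y hy
  have hder : Tendsto (fun n => deriv (f n) y) atTop (𝓝 (deriv s y)) :=
    (hloc.deriv (Eventually.of_forall hfd) isOpen_ball).tendsto_at hy
  have t1 : Tendsto (fun n => y * deriv (f (n + 1)) y - κ * f (n + 1) y) atTop
      (𝓝 (y * deriv s y - κ * s y)) := by
    have a1 := (hder.comp (tendsto_add_atTop_nat 1)).const_mul y
    have a2 := ((hs y hy).comp (tendsto_add_atTop_nat 1)).const_mul κ
    exact a1.sub a2
  have t2 : Tendsto (fun n => F y (f n y)) atTop (𝓝 (F y (s y))) := by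
    rw [tendsto_iff_norm_sub_tendsto_zero]
    have b1 : Tendsto (fun n => L * ‖f n y - s y‖) atTop (𝓝 (L * 0)) := by
      apply Tendsto.const_mul
      exact tendsto_iff_norm_sub_tendsto_zero.mp (hs y hy)
    rw [mul_zero] at b1
    refine squeeze_zero (fun n => norm_nonneg _) (fun n => ?_) b1
    exact h2 y hy _ _ (hfb n y hy) (hsb y hy)
  refine tendsto_nhds_unique t1 (t2.congr fun n => ?_)
  exact (hfe n y hy).symm

lemma contDiff_aF (D : InfD) : ContDiff ℂ 1 (fun p : ℂ × ℂ => D.aF p.1 p.2) := by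
  unfold InfD.aF
  apply ContDiff.sum
  intro i _
  apply ContDiff.mul
  · have := (Polynomial.contDiff_aeval (D.a i) (𝕜 := ℂ) 1).comp (contDiff_fst (E := ℂ) (F := ℂ))
    simpa [Function.comp_def, Polynomial.coe_aeval_eq_eval] using this
  · exact contDiff_snd.pow i

lemma contDiff_bF (D : InfD) : ContDiff ℂ 1 (fun p : ℂ × ℂ => D.bF p.1 p.2) := by
  unfold InfD.bF
  apply ContDiff.sum
  intro i _
  apply ContDiff.mul
  · have := (Polynomial.contDiff_aeval (D.b i) (𝕜 := ℂ) 1).comp (contDiff_fst (E := ℂ) (F := ℂ))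
    simpa [Function.comp_def, Polynomial.coe_aeval_eq_eval] using this
  · exact contDiff_snd.pow i

lemma aF_zero (D : InfD) (x : ℂ) : D.aF x 0 = D.A.eval x := by
  unfold InfD.aF InfD.A
  rw [Finset.sum_eq_single 0]
  · simp
  · intro i _ hi
    simp [hi]
  · intro h
    simp at h

lemma bF_zero (D : InfD) (x : ℂ) : D.bF x 0 = D.β.eval x := by
  unfold InfD.bF InfD.β
  rw [Finset.sum_eq_single 0]
  · simp
  · intro i _ hi
    simp [hi]
  · intro h
    simp at h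

/-- the linear part of `a / b` at a root of `A` -/
noncomputable def kap (D : InfD) (x₁ : ℂ) : ℂ :=
  (Polynomial.derivative D.A).eval x₁ / D.β.eval x₁

lemma kap_im (D : InfD) (x₁ : ℂ) (h : D.A.eval x₁ = 0) : (kap D x₁).im ≠ 0 := by
  have h1 := D.hyp x₁ h
  intro h2
  apply h1
  have e : (D.b 0).eval x₁ / (Polynomial.derivative (D.a 0)).eval x₁ = (kap D x₁)⁻¹ := by
    unfold kap InfD.A InfD.β
    rw [inv_div]
  rw [e, Complex.inv_im, h2]
  simp

lemma beta_ne (D : InfD) (x₁ : ℂ) (h : D.A.eval x₁ = 0) : D.β.eval x₁ ≠ 0 := by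
  intro h0
  apply kap_im D x₁ h
  unfold kap
  rw [h0]
  simp

/-- local Lipschitz estimate for `a / b` -/
theorem g_lip (D : InfD) (x₁ : ℂ) (h : D.A.eval x₁ = 0) (L : ℝ) (hL : 0 < L) :
    ∃ r > 0, (∀ x y : ℂ, ‖x - x₁‖ < r → ‖y‖ < r → D.bF x y ≠ 0) ∧
      ∀ x x' y : ℂ, ‖x - x₁‖ < r → ‖x' - x₁‖ < r → ‖y‖ < r →
        ‖D.aF x y / D.bF x y - D.aF x' y / D.bF x' y - kap D x₁ * (x - x')‖ ≤ L * ‖x - x'‖ := by
  have hβ := beta_ne D x₁ h
  have hb0 : D.bF x₁ 0 ≠ 0 := by rwa [bF_zero]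
  set g : ℂ × ℂ → ℂ := fun p => D.aF p.1 p.2 / D.bF p.1 p.2 with hg
  have hgc : ContDiffAt ℂ 1 g (x₁, 0) :=
    (contDiff_aF D).contDiffAt.div (contDiff_bF D).contDiffAt hb0
  have hst := hgc.hasStrictFDerivAt (by norm_num)
  set g' : ℂ × ℂ →L[ℂ] ℂ := fderiv ℂ g (x₁, 0) with hg'
  have hκ : g' (1, 0) = kap D x₁ := by
    have d1 : HasDerivAt (fun x : ℂ => (x, (0 : ℂ))) (1, 0) x₁ :=
      (hasDerivAt_id x₁).prodMk (hasDerivAt_const x₁ (0 : ℂ))
    have d2 : HasDerivAt (fun x : ℂ => g (x, 0)) (g' (1, 0)) x₁ :=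
      HasFDerivAt.comp_hasDerivAt (f := fun x : ℂ => (x, (0 : ℂ))) (l := g) x₁ hst.hasFDerivAt d1
    have e : (fun x : ℂ => g (x, 0)) = fun x => D.A.eval x / D.β.eval x := by
      funext x
      simp only [hg, aF_zero, bF_zero]
    rw [e] at d2
    have d3 := (D.A.hasDerivAt x₁).div (D.β.hasDerivAt x₁) hβ
    rw [d2.unique d3, h]
    unfold kap
    field_simp
    ring
  have hlo := hst.isLittleO.def hL
  have hbe : ∀ᶠ p : ℂ × ℂ in 𝓝 (x₁, 0), D.bF p.1 p.2 ≠ 0 :=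
    (contDiff_bF D).continuous.continuousAt.eventually_ne hb0
  rw [Metric.eventually_nhds_iff_ball] at hlo hbe
  obtain ⟨r1, hr1, h1⟩ := hlo
  obtain ⟨r2, hr2, h2⟩ := hbe
  refine ⟨min r1 r2, lt_min hr1 hr2, ?_, ?_⟩
  · intro x y hx hy
    have := h2 (x, y) (by
      rw [mem_ball, Prod.dist_eq, max_lt_iff, dist_eq_norm, dist_eq_norm, sub_zero]
      exact ⟨hx.trans_le (min_le_right _ _), hy.trans_le (min_le_right _ _)⟩)
    exact this
  · intro x x' y hx hx' hy
    have := h1 ((x, y), (x', y)) (by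
      rw [mem_ball, Prod.dist_eq, Prod.dist_eq, Prod.dist_eq]
      simp only [dist_eq_norm, sub_zero, max_lt_iff]
      exact ⟨⟨hx.trans_le (min_le_left _ _), hy.trans_le (min_le_left _ _)⟩,
        hx'.trans_le (min_le_left _ _), hy.trans_le (min_le_left _ _)⟩)
    simp only [Prod.mk_sub_mk, sub_self] at this
    have e1 : g' (x - x', 0) = kap D x₁ * (x - x') := by
      have : ((x - x', 0) : ℂ × ℂ) = (x - x') • ((1, 0) : ℂ × ℂ) := by simp
      rw [this, map_smul, hκ, smul_eq_mul, mul_comm]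
    rw [e1] at this
    have e2 : ‖((x - x', 0) : ℂ × ℂ)‖ = ‖x - x'‖ := by
      simp [Prod.norm_def]
    rw [e2] at this
    exact this

end Pool.Agent.H210.Gr.SEP

namespace Pool.Agent.H210.Gr

open Metric Set MeasureTheory Topology Filter
open scoped Laplacian ContDiff

theorem separatrix (D : InfD) (x₁ : ℂ) (h : D.A.eval x₁ = 0) :
    ∃ ε > 0, ∃ s : ℂ → ℂ, s 0 = x₁ ∧ DifferentiableOn ℂ s (ball 0 ε) ∧
      ∀ y ∈ ball (0 : ℂ) ε, y * D.bF (s y) y * deriv s y = D.aF (s y) y := by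
  set κ := SEP.kap D x₁ with hκd
  have hκ : κ.im ≠ 0 := SEP.kap_im D x₁ h
  obtain ⟨C, hC0, hC⟩ := SEP.linear_bound κ hκ
  obtain ⟨r, hr, hb, hl⟩ := SEP.g_lip D x₁ h (1 / (2 * C)) (by positivity)
  set δ : ℝ := r / 2 with hδd
  have hδ : 0 < δ := by positivity
  have hδr : δ < r := by rw [hδd]; linarith
  -- smallness of `g(x₁, y)`
  have hcont : ContinuousAt (fun y : ℂ => D.aF x₁ y / D.bF x₁ y) 0 := by
    have c1 : Continuous (fun y : ℂ => D.aF x₁ y) :=
      (SEP.contDiff_aF D).continuous.comp (by fun_prop : Continuous fun y : ℂ => (x₁, y))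
    have c2 : Continuous (fun y : ℂ => D.bF x₁ y) :=
      (SEP.contDiff_bF D).continuous.comp (by fun_prop : Continuous fun y : ℂ => (x₁, y))
    refine c1.continuousAt.div c2.continuousAt ?_
    rw [SEP.bF_zero]
    exact SEP.beta_ne D x₁ h
  have hm : 0 < δ / (2 * C) := by positivity
  have hev : ∀ᶠ y : ℂ in 𝓝 0, ‖D.aF x₁ y / D.bF x₁ y‖ < δ / (2 * C) := by
    have := hcont.norm
    apply this.eventually_lt_const
    show ‖D.aF x₁ 0 / D.bF x₁ 0‖ < _
    rw [SEP.aF_zero, h]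
    simpa using hm
  rw [Metric.eventually_nhds_iff_ball] at hev
  obtain ⟨r2, hr2, h2⟩ := hev
  set ε : ℝ := min r r2 with hεd
  have hε : 0 < ε := lt_min hr hr2
  have hεr : ε ≤ r := min_le_left _ _
  have hyr : ∀ y ∈ ball (0 : ℂ) ε, ‖y‖ < r := by
    intro y hy
    rw [mem_ball_zero_iff] at hy
    exact hy.trans_le hεr
  have H1 : ∀ φ : ℂ → ℂ, DifferentiableOn ℂ φ (ball 0 ε) → (∀ y ∈ ball (0 : ℂ) ε, ‖φ y‖ ≤ δ) →
      DifferentiableOn ℂ
        (fun y => D.aF (x₁ + φ y) y / D.bF (x₁ + φ y) y - κ * φ y) (ball 0 ε) := by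
    intro φ hφ hφb y hy
    have hbne := hb (x₁ + φ y) y (by
      rw [add_sub_cancel_left]; exact (hφb y hy).trans_lt hδr) (hyr y hy)
    have hd : DifferentiableAt ℂ φ y := hφ.differentiableAt (isOpen_ball.mem_nhds hy)
    have hp : DifferentiableAt ℂ (fun y => (x₁ + φ y, y)) y :=
      (hd.const_add x₁).prodMk differentiableAt_id
    have c1 : DifferentiableAt ℂ (fun y => D.aF (x₁ + φ y) y) y :=
      DifferentiableAt.comp (f := fun y => (x₁ + φ y, y)) (g := fun p : ℂ × ℂ => D.aF p.1 p.2) y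
        ((SEP.contDiff_aF D).differentiable (by norm_num) (x₁ + φ y, y)) hp
    have c2 : DifferentiableAt ℂ (fun y => D.bF (x₁ + φ y) y) y :=
      DifferentiableAt.comp (f := fun y => (x₁ + φ y, y)) (g := fun p : ℂ × ℂ => D.bF p.1 p.2) y
        ((SEP.contDiff_bF D).differentiable (by norm_num) (x₁ + φ y, y)) hp
    exact ((c1.div c2 hbne).sub (hd.const_mul κ)).differentiableWithinAt
  have H2 : ∀ y ∈ ball (0 : ℂ) ε, ∀ u v : ℂ, ‖u‖ ≤ δ → ‖v‖ ≤ δ →
      ‖(D.aF (x₁ + u) y / D.bF (x₁ + u) y - κ * u) -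
        (D.aF (x₁ + v) y / D.bF (x₁ + v) y - κ * v)‖ ≤ 1 / (2 * C) * ‖u - v‖ := by
    intro y hy u v hu hv
    have := hl (x₁ + u) (x₁ + v) y (by rw [add_sub_cancel_left]; exact hu.trans_lt hδr)
      (by rw [add_sub_cancel_left]; exact hv.trans_lt hδr) (hyr y hy)
    rw [add_sub_add_left_eq_sub] at this
    convert this using 2
    ring
  have H3 : ∀ y ∈ ball (0 : ℂ) ε,
      ‖D.aF (x₁ + 0) y / D.bF (x₁ + 0) y - κ * 0‖ ≤ δ / (2 * C) := by
    intro y hy
    rw [mem_ball_zero_iff] at hy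
    have := h2 y (by rw [mem_ball_zero_iff]; exact hy.trans_le (min_le_right _ _))
    simpa using this.le
  obtain ⟨σ, hσd, hσb, hσe⟩ := SEP.nonlinear_solve ε κ hκ C (hC ε)
    (fun y u => D.aF (x₁ + u) y / D.bF (x₁ + u) y - κ * u) δ (1 / (2 * C)) (δ / (2 * C))
    hδ.le (by positivity) hm.le (by field_simp; norm_num) (by field_simp; norm_num) H1 H2 H3
  have hshift : ∀ y ∈ ball (0 : ℂ) ε, ‖x₁ + σ y - x₁‖ < r := by
    intro y hy
    rw [add_sub_cancel_left]
    exact (hσb y hy).trans_lt hδr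
  have h0m : (0 : ℂ) ∈ ball (0 : ℂ) ε := mem_ball_self hε
  refine ⟨ε, hε, fun y => x₁ + σ y, ?_, ?_, ?_⟩
  · -- value at zero
    have e0 := hσe 0 h0m
    have l0 := hl (x₁ + σ 0) x₁ 0 (hshift 0 h0m) (by simpa using hr) (by simpa using hr)
    rw [SEP.aF_zero D x₁, h, zero_div, sub_zero, add_sub_cancel_left] at l0
    simp only [zero_mul, zero_sub] at e0
    have e1 : D.aF (x₁ + σ 0) 0 / D.bF (x₁ + σ 0) 0 = 0 := by
      linear_combination -e0
    have e2 : D.aF (x₁ + σ 0) 0 / D.bF (x₁ + σ 0) 0 - κ * σ 0 = -(κ * σ 0) := by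
      rw [e1]; ring
    -- uniqueness of zero : use C-estimate with the constant function
    have hz : σ 0 = 0 := by
      by_contra hne
      have hc := hC ε (fun y => -κ * σ 0) (fun _ => σ 0) (1 / (2 * C) * ‖σ 0‖) (by positivity)
        (differentiableOn_const _) (by intro y _; simp) ?_ 0 h0m
      · have : C * (1 / (2 * C) * ‖σ 0‖) = ‖σ 0‖ / 2 := by field_simp
        simp only [this] at hc
        have := norm_pos_iff.mpr hne
        linarith
      · intro y _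
        show ‖-κ * σ 0‖ ≤ _
        have e3 : -κ * σ 0 = -(κ * σ 0) := by ring
        rw [e3, ← e2]
        exact l0
    simp [hz]
  · exact hσd.const_add x₁
  · intro y hy
    have e := hσe y hy
    have hbne := hb (x₁ + σ y) y (hshift y hy) (hyr y hy)
    have hd : deriv (fun y => x₁ + σ y) y = deriv σ y := deriv_const_add x₁
    rw [hd]
    have e3 : y * deriv σ y = D.aF (x₁ + σ y) y / D.bF (x₁ + σ y) y := by
      linear_combination e
    have e4 : y * D.bF (x₁ + σ y) y * deriv σ y = D.bF (x₁ + σ y) y * (y * deriv σ y) := by ring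
    rw [e4, e3, mul_div_cancel₀ _ hbne]

end Pool.Agent.H210.Gr
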