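import Pool.Agent.H210.Green.Defs

set_option autoImplicit false

/-! Approximately affine maps and the free semigroup generated by two of them -/

namespace Pool.Agent.H210.Gr.WORDS

open Metric Set Topology Filter

/-- `T` acts on the coordinate `u` as `u ↦ M u + t`, up to an error tending to zero at infinity -/
def Aff (Y : Set ℂ) (u : ℂ → ℂ) (T : ℂ → ℂ) (M t : ℂ) : Prop :=
  ∀ δ > 0, ∃ U0 : ℝ, ∀ y ∈ Y, U0 ≤ ‖u y‖ → T y ∈ Y ∧ ‖u (T y) - (M * u y + t)‖ ≤ δ

theorem Aff.comp {Y : Set ℂ} {u T T' : ℂ → ℂ} {M t M' t' : ℂ} (h : Aff Y u T M t) (h' : Aff Y u T' M' t')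
    (hM : M ≠ 0) : Aff Y u (fun y => T' (T y)) (M' * M) (M' * t + t') := by
  intro δ hδ
  obtain ⟨U1, h1⟩ := h (δ / (2 * (‖M'‖ + 1))) (by positivity)
  obtain ⟨U2, h2⟩ := h' (δ / 2) (by positivity)
  have hMp : 0 < ‖M‖ := norm_pos_iff.2 hM
  refine ⟨max U1 ((U2 + ‖t‖ + δ / (2 * (‖M'‖ + 1))) / ‖M‖), fun y hy hU => ?_⟩
  obtain ⟨h3, h4⟩ := h1 y hy ((le_max_left _ _).trans hU)
  have h5 : U2 ≤ ‖u (T y)‖ := by
    have h6 := (le_max_right _ _).trans hU
    rw [div_le_iff₀ hMp] at h6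
    have h7 : ‖M * u y‖ ≤ ‖u (T y)‖ + ‖u (T y) - (M * u y + t)‖ + ‖t‖ := by
      have : M * u y = u (T y) - (u (T y) - (M * u y + t)) - t := by ring
      calc ‖M * u y‖ = ‖u (T y) - (u (T y) - (M * u y + t)) - t‖ := by rw [← this]
        _ ≤ ‖u (T y) - (u (T y) - (M * u y + t))‖ + ‖t‖ := norm_sub_le _ _
        _ ≤ ‖u (T y)‖ + ‖u (T y) - (M * u y + t)‖ + ‖t‖ := by gcongr; exact norm_sub_le _ _
    rw [norm_mul] at h7
    nlinarith
  obtain ⟨h6, h7⟩ := h2 (T y) h3 h5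
  refine ⟨h6, ?_⟩
  have h8 : u (T' (T y)) - (M' * M * u y + (M' * t + t')) =
      (u (T' (T y)) - (M' * u (T y) + t')) + M' * (u (T y) - (M * u y + t)) := by ring
  rw [h8]
  refine (norm_add_le _ _).trans ?_
  rw [norm_mul]
  have h9 : ‖M'‖ * ‖u (T y) - (M * u y + t)‖ ≤ δ / 2 := by
    calc ‖M'‖ * ‖u (T y) - (M * u y + t)‖ ≤ (‖M'‖ + 1) * (δ / (2 * (‖M'‖ + 1))) := by
          gcongr; linarith
      _ = δ / 2 := by
          have : ‖M'‖ + 1 ≠ 0 := by positivity
          field_simp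
  linarith

theorem Aff.iter {Y : Set ℂ} {u T : ℂ → ℂ} {M f : ℂ} (h : Aff Y u T M (M * f - f)) (hM : M ≠ 0) :
    ∀ n : ℕ, Aff Y u (T^[n]) (M ^ n) (M ^ n * f - f)
  | 0 => by
    intro δ hδ
    exact ⟨0, fun y hy _ => ⟨hy, by simp [hδ.le]⟩⟩
  | n + 1 => by
    have h1 := (Aff.iter h hM n).comp h (pow_ne_zero n hM)
    have h2 : M * (M ^ n * f - f) + (M * f - f) = M ^ (n + 1) * f - f := by ring
    rw [h2, ← pow_succ'] at h1
    simpa only [← Function.iterate_succ_apply'] using h1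

/-- the orbit of `y0` under words -/
def orb (T : Bool → ℂ → ℂ) (y0 : ℂ) : List Bool → ℂ
  | [] => y0
  | l :: w => T l (orb T y0 w)

/-- free semigroup: words of the same length give different points -/
theorem free {Y : Set ℂ} {u : ℂ → ℂ} {T : Bool → ℂ → ℂ} {M : ℂ} {t : Bool → ℂ}
    (h : ∀ l, Aff Y u (T l) M (t l)) (hM : 4 ≤ ‖M‖) (ht : t true ≠ t false) :
    ∃ U0 : ℝ, 0 < U0 ∧ ∀ U1, U0 ≤ U1 → ∀ y0 ∈ Y, U1 ≤ ‖u y0‖ →
      (∀ w, orb T y0 w ∈ Y ∧ 2 ^ w.length * U1 ≤ ‖u (orb T y0 w)‖) ∧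
      ∀ w w' : List Bool, w.length = w'.length → w ≠ w' → orb T y0 w ≠ orb T y0 w' := by
  set Δ : ℝ := ‖t true - t false‖ with hΔ
  have hΔ0 : 0 < Δ := norm_pos_iff.2 (sub_ne_zero.2 ht)
  obtain ⟨Ut, h1⟩ := h true (Δ / 20) (by positivity)
  obtain ⟨Uf, h2⟩ := h false (Δ / 20) (by positivity)
  set U0 : ℝ := max (max Ut Uf) (‖t true‖ + ‖t false‖ + Δ) with hU0
  have hU0pos : 0 < U0 := lt_of_lt_of_le (by positivity) (le_max_right _ _)
  have hT : ∀ l, ∀ y ∈ Y, U0 ≤ ‖u y‖ → T l y ∈ Y ∧ ‖u (T l y) - (M * u y + t l)‖ ≤ Δ / 20 := by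
    intro l y hy hU
    cases l with
    | false => exact h2 y hy (((le_max_right _ _).trans (le_max_left _ _)).trans hU)
    | true => exact h1 y hy (((le_max_left _ _).trans (le_max_left _ _)).trans hU)
  have htl : ∀ l, ‖t l‖ + Δ ≤ U0 := by
    intro l
    have := le_max_right (max Ut Uf) (‖t true‖ + ‖t false‖ + Δ)
    cases l with
    | false => linarith [norm_nonneg (t true)]
    | true => linarith [norm_nonneg (t false)]
  refine ⟨U0, hU0pos, fun U1 hU1 y0 hy0 hu0 => ?_⟩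
  have hA : ∀ w, orb T y0 w ∈ Y ∧ 2 ^ w.length * U1 ≤ ‖u (orb T y0 w)‖ := by
    intro w
    induction w with
    | nil => exact ⟨hy0, by simpa [orb] using hu0⟩
    | cons l w ih =>
      obtain ⟨hY, hU⟩ := ih
      have hp : (1 : ℝ) ≤ 2 ^ w.length := one_le_pow₀ (by norm_num)
      have hU' : U0 ≤ ‖u (orb T y0 w)‖ := le_trans (by nlinarith) hU
      obtain ⟨h3, h4⟩ := hT l _ hY hU'
      refine ⟨h3, ?_⟩
      have h5 : ‖M * u (orb T y0 w)‖ ≤ ‖u (T l (orb T y0 w))‖ +
          ‖u (T l (orb T y0 w)) - (M * u (orb T y0 w) + t l)‖ + ‖t l‖ := by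
        have : M * u (orb T y0 w) = u (T l (orb T y0 w)) -
          (u (T l (orb T y0 w)) - (M * u (orb T y0 w) + t l)) - t l := by ring
        calc ‖M * u (orb T y0 w)‖ = ‖u (T l (orb T y0 w)) -
          (u (T l (orb T y0 w)) - (M * u (orb T y0 w) + t l)) - t l‖ := by rw [← this]
          _ ≤ ‖u (T l (orb T y0 w)) - (u (T l (orb T y0 w)) - (M * u (orb T y0 w) + t l))‖ + ‖t l‖ :=
            norm_sub_le _ _
          _ ≤ _ := by gcongr; exact norm_sub_le _ _
      rw [norm_mul] at h5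
      have h6 := htl l
      have h7 : 4 * ‖u (orb T y0 w)‖ ≤ ‖M‖ * ‖u (orb T y0 w)‖ := by gcongr
      show 2 ^ (w.length + 1) * U1 ≤ ‖u (T l (orb T y0 w))‖
      rw [pow_succ]
      nlinarith
  refine ⟨hA, ?_⟩
  have hB : ∀ w w' : List Bool, w.length = w'.length → w ≠ w' →
      Δ / 2 ≤ ‖u (orb T y0 w) - u (orb T y0 w')‖ := by
    intro w
    induction w with
    | nil =>
      intro w' hl hne
      exact absurd (List.eq_nil_of_length_eq_zero hl.symm).symm hne
    | cons l w ih =>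
      intro w' hl hne
      obtain _ | ⟨l', w'⟩ := w'
      · simp at hl
      have hl' : w.length = w'.length := by simpa using hl
      have hp : ∀ w : List Bool, U0 ≤ ‖u (orb T y0 w)‖ := by
        intro w
        have hp : (1 : ℝ) ≤ 2 ^ w.length := one_le_pow₀ (by norm_num)
        exact le_trans (by nlinarith) (hA w).2
      have h3 := (hT l _ (hA w).1 (hp w)).2
      have h4 := (hT l' _ (hA w').1 (hp w')).2
      show Δ / 2 ≤ ‖u (T l (orb T y0 w)) - u (T l' (orb T y0 w'))‖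
      by_cases hww : w = w'
      · subst hww
        have hll : l ≠ l' := fun h => hne (by rw [h])
        have h5 : Δ = ‖t l - t l'‖ := by
          cases l <;> cases l' <;> simp_all [norm_sub_rev]
        have h6 : t l - t l' = (u (T l (orb T y0 w)) - u (T l' (orb T y0 w))) -
            (u (T l (orb T y0 w)) - (M * u (orb T y0 w) + t l)) +
            (u (T l' (orb T y0 w)) - (M * u (orb T y0 w) + t l')) := by ring
        have h7 : ‖t l - t l'‖ ≤ ‖u (T l (orb T y0 w)) - u (T l' (orb T y0 w))‖ + Δ / 20 + Δ / 20 := by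
          rw [h6]
          refine (norm_add_le _ _).trans (add_le_add ((norm_sub_le _ _).trans (add_le_add le_rfl h3)) h4)
        linarith
      · have h5 := ih w' hl' hww
        have h8 : ‖t l - t l'‖ ≤ Δ := by
          cases l <;> cases l' <;> simp [hΔ, norm_sub_rev]
        have h6 : M * (u (orb T y0 w) - u (orb T y0 w')) =
            (u (T l (orb T y0 w)) - u (T l' (orb T y0 w'))) -
            (u (T l (orb T y0 w)) - (M * u (orb T y0 w) + t l)) +
            (u (T l' (orb T y0 w')) - (M * u (orb T y0 w') + t l')) - (t l - t l') := by ring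
        have h7 : ‖M * (u (orb T y0 w) - u (orb T y0 w'))‖ ≤
            ‖u (T l (orb T y0 w)) - u (T l' (orb T y0 w'))‖ + Δ / 20 + Δ / 20 + Δ := by
          rw [h6]
          refine (norm_sub_le _ _).trans (add_le_add ((norm_add_le _ _).trans
            (add_le_add ((norm_sub_le _ _).trans (add_le_add le_rfl h3)) h4)) h8)
        rw [norm_mul] at h7
        nlinarith
  intro w w' hl hne h
  have := hB w w' hl hne
  rw [h, sub_self, norm_zero] at this
  linarith

end Pool.Agent.H210.Gr.WORDS
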